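import Pool.Agent.Lib.MP_81632f_ag.Diag.Pow2

/-!
# Adjoining a prime power
-/

set_option autoImplicit false

noncomputable section

namespace Pool.Agent.Lib.MP81632f.Diag

open Finset

namespace Adj

open Crit Two Push Transfer New
open Red (ev dh_mem mul_quot quot_ne two_torsion)

variable {M : ℕ} [NeZero M] {p f : ℕ}

/-- the Davenport-Hasse relation for the sawtooth sums -/
theorem saw_dh (hB : StBasic) (hM : 1 < M) (hf : 0 < f) (hp : (p : ZMod M) ^ f = 1)
    {q : ℕ} (hq : q.Prime) (hd : q ∣ M) {x : ZMod M} (hx : (q : ZMod M) * x ≠ 0)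
    (t : (ZMod M)ˣ) :
    ∑ j ∈ range q, saw M p f t (x + (j : ZMod M) * ((M / q : ℕ) : ZMod M)) =
      saw M p f t ((q : ZMod M) * x) := by
  have h1 := pair_sub hB hM hf hp t (dh_mem (p := p) (f := f) hq hd hx)
  have h2 : pair M p f t (∑ j ∈ range (q - 1), ev (((j + 1 : ℕ) : ZMod M) *
      ((M / q : ℕ) : ZMod M))) = 0 := by
    obtain ⟨a, ha, b, hb, hab⟩ := AddSubgroup.mem_sup.mp (third hB hM hf hp hq hd)
    rw [← hab, map_add, pair_sub hB hM hf hp t ha, pair_ss t hb, add_zero]
  rw [map_add, map_add, h2, map_sum, pair_ev, Basic.saw_neg hf hp t.isUnit hx, add_zero] at h1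
  have h3 : ∑ j ∈ range q, pair M p f t (ev (x + (j : ZMod M) * ((M / q : ℕ) : ZMod M))) =
      ∑ j ∈ range q, saw M p f t (x + (j : ZMod M) * ((M / q : ℕ) : ZMod M)) :=
    Finset.sum_congr rfl fun j _ => pair_ev t _
  rw [h3] at h1
  linarith

omit [NeZero M] in
theorem mul_eq_of_modEq {d a b : ℕ} (h : a ≡ b [MOD d]) {x : ZMod M} (hx : d • x = 0) :
    (a : ZMod M) * x = (b : ZMod M) * x := by
  obtain ⟨c, hc⟩ := Nat.modEq_iff_dvd.mp h
  have h1 : (b : ZMod M) - (a : ZMod M) = (d : ZMod M) * (c : ZMod M) := by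
    have h2 := congrArg (fun z : ℤ => (z : ZMod M)) hc
    push_cast at h2
    exact h2
  have h3 : (d : ZMod M) * x = 0 := by rw [← nsmul_eq_mul]; exact hx
  linear_combination -x * h1 - (c : ZMod M) * h3

/-- elements of the same order -/
theorem assoc_of_order {z z' : ZMod M} (h : addOrderOf z = addOrderOf z') :
    ∃ c : ℕ, Nat.Coprime c (addOrderOf z) ∧ z' = (c : ZMod M) * z := by
  set o := addOrderOf z with ho
  have ho0 : 0 < o := addOrderOf_pos z
  have hoM : o ∣ M := order_dvd z
  have hMo : 0 < M / o := Nat.div_pos (Nat.le_of_dvd (NeZero.pos M) hoM) ho0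
  have key : ∀ w : ZMod M, addOrderOf w = o →
      ∃ s : ℕ, Nat.Coprime s o ∧ w = ((M / o : ℕ) : ZMod M) * (s : ZMod M) := by
    intro w hw
    have h1 : M ∣ o * w.val := by
      rw [← ZMod.natCast_eq_zero_iff, Nat.cast_mul, ZMod.natCast_zmod_val, ← nsmul_eq_mul, ← hw]
      exact addOrderOf_nsmul_eq_zero w
    have h2 : o * (M / o) ∣ o * w.val := by rw [Nat.mul_div_cancel' hoM]; exact h1
    obtain ⟨s, hs⟩ := Nat.dvd_of_mul_dvd_mul_left ho0 h2
    refine ⟨s, ?_, by rw [← Nat.cast_mul, ← hs, ZMod.natCast_zmod_val]⟩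
    have h3 : addOrderOf w = M / M.gcd w.val := by
      conv_lhs => rw [← ZMod.natCast_zmod_val w]
      exact ZMod.addOrderOf_coe w.val (NeZero.ne M)
    have h4 : M.gcd w.val = M / o * o.gcd s := by
      conv_lhs => rw [hs]
      have h5 : Nat.gcd (M / o * o) (M / o * s) = M / o * o.gcd s := Nat.gcd_mul_left _ _ _
      rwa [Nat.div_mul_cancel hoM] at h5
    have h5 : M.gcd w.val * o = M := by
      rw [← hw, h3]
      exact Nat.mul_div_cancel' (Nat.gcd_dvd_left M w.val)
    have h6 : M / o * o.gcd s * o = M / o * o := by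
      rw [← h4, h5, Nat.div_mul_cancel hoM]
    have h7 : o.gcd s = 1 := by
      have h8 : M / o * o * o.gcd s = M / o * o * 1 := by
        rw [mul_one]
        calc M / o * o * o.gcd s = M / o * o.gcd s * o := by ring
          _ = M / o * o := h6
      exact Nat.eq_of_mul_eq_mul_left (by positivity) h8
    rw [Nat.Coprime, Nat.gcd_comm]
    exact h7
  obtain ⟨s, hs, hz⟩ := key z ho.symm
  obtain ⟨s', hs', hz'⟩ := key z' h.symm
  -- `c = s' / s` modulo `o`
  have hu : IsUnit ((s : ℕ) : ZMod o) := (ZMod.isUnit_iff_coprime s o).mpr hs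
  have hu' : IsUnit ((s' : ℕ) : ZMod o) := (ZMod.isUnit_iff_coprime s' o).mpr hs'
  obtain ⟨v, hv⟩ := hu
  obtain ⟨v', hv'⟩ := hu'
  have : NeZero o := ⟨ho0.ne'⟩
  refine ⟨((v' * v⁻¹ : (ZMod o)ˣ) : ZMod o).val, ZMod.val_coe_unit_coprime _, ?_⟩
  set c := ((v' * v⁻¹ : (ZMod o)ˣ) : ZMod o).val with hc
  have h1 : ((c * s : ℕ) : ZMod o) = ((s' : ℕ) : ZMod o) := by
    rw [Nat.cast_mul, hc, ZMod.natCast_zmod_val, ← hv, ← hv', ← Units.val_mul,
      inv_mul_cancel_right]
  have h2 : c * s ≡ s' [MOD o] := (ZMod.natCast_eq_natCast_iff _ _ _).mp h1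
  have h3 : o • (((M / o : ℕ) : ZMod M)) = 0 := by
    rw [nsmul_eq_mul, ← Nat.cast_mul, Nat.mul_div_cancel' hoM, ZMod.natCast_self]
  have h4 := mul_eq_of_modEq h2 h3
  rw [hz, hz']
  push_cast at h4
  linear_combination -h4

/-- elements whose `r`-parts have the same order are conjugate under the powers of `p` -/
theorem conj_sum {N R r : ℕ} (hsur : ∀ c : ℕ, Nat.Coprime c r →
      ∃ k : ℕ, (p : ZMod N) ^ k = 1 ∧ (p : ZMod R) ^ k = (c : ZMod R))
    {i : ℕ} (hi : 0 < i) {y z z' : ZMod M} (hy : N • y = 0) (hz : addOrderOf z = r ^ i)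
    (hz' : addOrderOf z' = r ^ i) (hR : r ^ i ∣ R) :
    ∃ k : ℕ, (p : ZMod M) ^ k * (y + z) = y + z' := by
  obtain ⟨c, hc, hcz⟩ := assoc_of_order (hz.trans hz'.symm)
  rw [hz] at hc
  have hcr : Nat.Coprime c r := Nat.Coprime.coprime_dvd_right (dvd_pow_self r hi.ne') hc
  obtain ⟨k, hk1, hk2⟩ := hsur c hcr
  refine ⟨k, ?_⟩
  have h1 : p ^ k ≡ 1 [MOD N] := by
    rw [← ZMod.natCast_eq_natCast_iff]
    push_cast
    exact hk1
  have h2 : p ^ k ≡ c [MOD R] := by
    rw [← ZMod.natCast_eq_natCast_iff]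
    push_cast
    exact hk2
  have h3 := mul_eq_of_modEq h1 hy
  have h4 : R • z = 0 := by
    rw [← addOrderOf_dvd_iff_nsmul_eq_zero, hz]
    exact hR
  have h5 := mul_eq_of_modEq h2 h4
  push_cast at h3 h5
  rw [hcz]
  linear_combination h3 + h5

omit [NeZero M] in
/-- decomposition -/
theorem decomp {N R : ℕ} (hMN : M = N * R) (hcop : Nat.Coprime N R) (x : ZMod M) :
    ∃ y z : ZMod M, x = y + z ∧ N • y = 0 ∧ R • z = 0 := by
  obtain ⟨n, hn1, hn2⟩ := Nat.chineseRemainder hcop 1 0
  obtain ⟨a, ha⟩ := (Nat.modEq_zero_iff_dvd).mp hn2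
  obtain ⟨c, hc⟩ := Nat.modEq_iff_dvd.mp hn1
  have hNR : (N : ZMod M) * (R : ZMod M) = 0 := by
    rw [← Nat.cast_mul, ← hMN, ZMod.natCast_self]
  have h1 : (1 : ZMod M) - (n : ZMod M) = (N : ZMod M) * (c : ZMod M) := by
    have h2 := congrArg (fun z : ℤ => (z : ZMod M)) hc
    push_cast at h2
    exact h2
  have h2 : (n : ZMod M) = (R : ZMod M) * (a : ZMod M) := by rw [ha]; push_cast; ring
  refine ⟨(n : ZMod M) * x, (1 - (n : ZMod M)) * x, by ring, ?_, ?_⟩
  · rw [nsmul_eq_mul, h2]
    linear_combination (a : ZMod M) * x * hNR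
  · rw [nsmul_eq_mul, h1]
    linear_combination (c : ZMod M) * x * hNR

/-- If the powers of `p` which are `1` modulo `N` cover the units modulo `r ^ b`, and `r` is a power
of `p` modulo `N`, then all elements with a nontrivial `r`-part are supersingular. -/
theorem adj_ss (hB : StBasic) (hM : 1 < M) (hf : 0 < f) (hp : (p : ZMod M) ^ f = 1)
    {N r b : ℕ} (hr : r.Prime) (hMN : M = N * r ^ b) (hcop : Nat.Coprime N r)
    (hpow : ∃ j : ℕ, (p : ZMod N) ^ j = (r : ZMod N))
    (hsur : ∀ c : ℕ, Nat.Coprime c r →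
      ∃ k : ℕ, (p : ZMod N) ^ k = 1 ∧ (p : ZMod (r ^ b)) ^ k = (c : ZMod (r ^ b))) :
    ∀ (i : ℕ) (y z : ZMod M), 0 < i → N • y = 0 → addOrderOf z = r ^ i →
      ∀ t : (ZMod M)ˣ, saw M p f t (y + z) = 0 := by
  have hN0 : N ≠ 0 := by
    rintro rfl
    rw [zero_mul] at hMN
    exact NeZero.ne M hMN
  intro i
  induction i with
  | zero => intro y z h; omega
  | succ i ih =>
    intro y z _ hy hz t
    have hib : r ^ (i + 1) ∣ r ^ b := by
      have h1 : r ^ (i + 1) ∣ N * r ^ b := by
        rw [← hMN, ← hz]; exact order_dvd z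
      have h2 : Nat.Coprime (r ^ (i + 1)) N := (Nat.Coprime.pow_right _ hcop).symm
      exact h2.dvd_of_dvd_mul_left h1
    have hrM : r ∣ M := by
      rw [hMN]
      exact ((dvd_pow_self r (by omega)).trans hib).trans (Dvd.intro_left _ rfl)
    -- conjugates
    have hconj : ∀ z' : ZMod M, addOrderOf z' = r ^ (i + 1) →
        saw M p f t (y + z') = saw M p f t (y + z) := by
      intro z' hz'
      obtain ⟨k, hk⟩ := conj_sum hsur (by omega) hy hz hz' hib
      rw [← hk, saw_pow hp]
    have hz0 : z ≠ 0 := by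
      rintro rfl
      rw [addOrderOf_zero] at hz
      have h1 : 1 < r ^ (i + 1) := Nat.one_lt_pow (by omega) hr.one_lt
      omega
    have hrQ : (r : ZMod M) * ((M / r : ℕ) : ZMod M) = 0 := mul_quot hrM
    rcases Nat.eq_zero_or_pos i with hi | hi
    · -- order `r`
      subst hi
      rw [zero_add, pow_one] at hz
      rw [zero_add, pow_one] at hconj hib
      by_cases hy0 : y = 0
      · subst hy0
        have h1 := hconj (-z) (by rw [addOrderOf_neg, hz])
        rw [zero_add, zero_add, Basic.saw_neg hf hp t.isUnit hz0] at h1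
        rw [zero_add]
        linarith
      · -- `r z = 0`, `z = a M / r`
        have hrz : (r : ZMod M) * z = 0 := by
          rw [← nsmul_eq_mul, ← hz]
          exact addOrderOf_nsmul_eq_zero z
        have hord : ∀ j : ℕ, 0 < j → j < r →
            addOrderOf ((j : ZMod M) * ((M / r : ℕ) : ZMod M)) = r := by
          intro j h1 h2
          have : Fact r.Prime := ⟨hr⟩
          refine addOrderOf_eq_prime ?_ (quot_ne hr hrM h1 h2)
          rw [nsmul_eq_mul, mul_left_comm, hrQ, mul_zero]
        have hry : (r : ZMod M) * y ≠ 0 := by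
          intro h
          apply hy0
          have h1 : r • y = 0 := by rw [nsmul_eq_mul]; exact h
          have h2 := addOrderOf_dvd_of_nsmul_eq_zero h1
          have h3 := addOrderOf_dvd_of_nsmul_eq_zero hy
          have h4 := Nat.dvd_gcd h3 h2
          rw [hcop, Nat.dvd_one, AddMonoid.addOrderOf_eq_one_iff] at h4
          exact h4
        -- the relation at `y`
        have h1 := saw_dh hB hM hf hp hr hrM hry t
        obtain ⟨n, hn⟩ : ∃ n, r = n + 1 := ⟨r - 1, by have := hr.pos; omega⟩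
        have h2 := Finset.sum_range_succ' (fun j : ℕ =>
          saw M p f t (y + (j : ZMod M) * ((M / r : ℕ) : ZMod M))) n
        rw [← hn] at h2
        rw [h1, Nat.cast_zero, zero_mul, add_zero] at h2
        have h3 : ∀ j ∈ range n, saw M p f t (y + ((j + 1 : ℕ) : ZMod M) *
            ((M / r : ℕ) : ZMod M)) = saw M p f t (y + z) := by
          intro j hj
          rw [mem_range] at hj
          exact hconj _ (hord (j + 1) (by omega) (by omega))
        rw [Finset.sum_congr rfl h3, Finset.sum_const, card_range] at h2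
        obtain ⟨j, hj⟩ := hpow
        have h4 : (r : ZMod M) * y = (p : ZMod M) ^ j * y := by
          have h5 : r ≡ p ^ j [MOD N] := by
            rw [← ZMod.natCast_eq_natCast_iff]
            push_cast
            exact hj.symm
          have h6 := mul_eq_of_modEq h5 hy
          push_cast at h6
          exact h6
        rw [h4, saw_pow hp] at h2
        have h5 : n • saw M p f t (y + z) = 0 := by linarith
        rw [nsmul_eq_mul, mul_eq_zero] at h5
        rcases h5 with h6 | h6
        · exfalso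
          have h7 : n = 0 := by exact_mod_cast h6
          have := hr.one_lt
          omega
        · exact h6
    · -- higher order
      have hrz : addOrderOf ((r : ZMod M) * z) = r ^ i := by
        rw [← nsmul_eq_mul, addOrderOf_nsmul_of_dvd hr.ne_zero, hz, pow_succ,
          Nat.mul_div_cancel _ hr.pos]
        rw [hz]
        exact dvd_pow_self r (by omega)
      have hrz0 : (r : ZMod M) * z ≠ 0 := by
        intro h
        rw [h, addOrderOf_zero] at hrz
        have h1 : 1 < r ^ i := Nat.one_lt_pow hi.ne' hr.one_lt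
        omega
      have hry : N • ((r : ZMod M) * y) = 0 := by
        rw [nsmul_eq_mul, mul_left_comm, ← nsmul_eq_mul N y, hy, mul_zero]
      have hne : (r : ZMod M) * (y + z) ≠ 0 := by
        intro h
        rw [mul_add] at h
        have h1 : (r : ZMod M) * y = -((r : ZMod M) * z) := eq_neg_of_add_eq_zero_left h
        have h2 := addOrderOf_dvd_of_nsmul_eq_zero hry
        rw [h1, addOrderOf_neg, hrz] at h2
        have h3 : r ∣ N := (dvd_pow_self r hi.ne').trans h2
        have h4 := Nat.dvd_gcd h3 dvd_rfl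
        rw [hcop] at h4
        exact hr.one_lt.ne' (Nat.dvd_one.mp h4)
      have h1 := saw_dh hB hM hf hp hr hrM hne t
      rw [mul_add, ih ((r : ZMod M) * y) ((r : ZMod M) * z) hi hry hrz t] at h1
      have h2 : ∀ j ∈ range r, saw M p f t (y + z + (j : ZMod M) * ((M / r : ℕ) : ZMod M)) =
          saw M p f t (y + z) := by
        intro j _
        rw [add_assoc]
        refine hconj _ ?_
        have h3 : (r : ZMod M) * (z + (j : ZMod M) * ((M / r : ℕ) : ZMod M)) =
            (r : ZMod M) * z := by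
          rw [mul_add, mul_left_comm, hrQ, mul_zero, add_zero]
        rw [order_div hr h3 (by rw [hrz]; exact dvd_pow_self r hi.ne'), hrz, pow_succ]
      rw [Finset.sum_congr rfl h2, Finset.sum_const, card_range, nsmul_eq_mul, mul_eq_zero] at h1
      rcases h1 with h3 | h3
      · exfalso
        have h4 : r = 0 := by exact_mod_cast h3
        exact hr.ne_zero h4
      · exact h3

/-- The lattice property of level `M`, if everything comes from level `N`. -/
theorem lp_inc (hB : StBasic) {N : ℕ} [NeZero N] (hM : 1 < M) (hN1 : 1 < N) (hNM : N ∣ M)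
    (hf : 0 < f) (hp : (p : ZMod M) ^ f = 1) (hLP : LP N p f)
    (hall : ∀ x : ZMod M, x ≠ 0 → ev x ∈ Sub M p f ⊔ SS M p f ⊔ Inc M N) : LP M p f := by
  classical
  have hpN : (p : ZMod N) ^ f = 1 := by
    have h1 := congrArg (ZMod.castHom hNM (ZMod N)) hp
    rw [map_pow, map_natCast, map_one] at h1
    exact h1
  intro X h0 hbal he
  set v := cnt X with hv
  have hv0 : v 0 = 0 := Basic.cnt_apply_zero h0
  have hvb : ∀ t : (ZMod M)ˣ, pair M p f t v = 0 := by
    intro t
    change ∑ x, cnt X x * saw M p f t x = 0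
    rw [Basic.sum_cnt_mul]
    exact hbal t
  have hve : Even (tot M v) := by
    change Even (∑ x, cnt X x)
    rw [Basic.sum_cnt]
    exact_mod_cast he
  have hvW := all_mem _ hall hv0
  by_cases hex : ∃ x₀ : ZMod N, SSel N p f x₀
  · obtain ⟨x₀, hx₀⟩ := hex
    exact of_inc hB hM hN1 hNM hf hp hpN hLP hx₀ hvW hvb hve
  · push Not at hex
    have hNodd : Odd N := by
      rcases Nat.even_or_odd N with h | h
      · exfalso
        have h2N : 2 ∣ N := even_iff_two_dvd.mp h
        have hx0 : ((N / 2 : ℕ) : ZMod N) ≠ 0 := by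
          have h1 := Red.quot_ne (M := N) Nat.prime_two h2N (j := 1) (by norm_num) (by norm_num)
          rwa [Nat.cast_one, one_mul] at h1
        refine hex _ (ss_of_two hf hpN hx0 ?_)
        rw [nsmul_eq_mul]
        exact Red.mul_quot (M := N) h2N
      · exact h
    obtain ⟨y, hy, z, hz, hyz⟩ := AddSubgroup.mem_sup.mp hvW
    obtain ⟨s, hs, s', hs', hss⟩ := AddSubgroup.mem_sup.mp hy
    obtain ⟨w, hw0, hw⟩ := hz
    have hw0' : w 0 = 0 := hw0
    have hwb : ∀ t : (ZMod N)ˣ, pair N p f t w = 0 := by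
      refine bal_of_push hNM fun t => ?_
      have h2 := hvb t
      rw [← hyz, ← hss, map_add, map_add, pair_sub hB hM hf hp t hs, pair_ss t hs'] at h2
      have h3 : pair M p f t z = 0 := by linarith
      rw [← h3, hw]
    have hwe := even_tot hNodd hf hpN hex hwb
    have hwS := lp_fun hB hN1 hf hpN hLP hw0' hwb hwe
    have hz' : z ∈ Sub M p f := by rw [← hw]; exact push_sub hNM hwS
    have hse : Even (tot M s') := by
      have h2 := hve
      rw [← hyz, ← hss, map_add, map_add] at h2
      have h3 := tot_sub hB hM hf hp hs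
      have h4 := tot_sub hB hM hf hp hz'
      have h5 : tot M s' = (tot M s + tot M s' + tot M z) - tot M s - tot M z := by ring
      rw [h5]
      exact (h2.sub h3).sub h4
    rw [← hyz, ← hss]
    exact add_mem (add_mem hs (ss_even hB hM hf hp hs' hse)) hz'

end Adj

open Adj Crit Two New in
/-- adjoining a prime power -/
theorem lpa_adj (hB : StBasic) (hPP : StPP) {p N r b : ℕ} (hN : N ≠ 0) (hr : r.Prime)
    (hrN : ¬ r ∣ N) (hpow : ∃ j : ℕ, (p : ZMod N) ^ j = (r : ZMod N))
    (hsur : ∀ c : ℕ, Nat.Coprime c r →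
      ∃ k : ℕ, (p : ZMod N) ^ k = 1 ∧ (p : ZMod (r ^ b)) ^ k = (c : ZMod (r ^ b)))
    (h : LPA N p) : LPA (N * r ^ b) p := by
  intro f hf hp
  have hcop : Nat.Coprime N r := ((Nat.Prime.coprime_iff_not_dvd hr).mpr hrN).symm
  have hM0 : 0 < N * r ^ b := Nat.mul_pos (Nat.pos_of_ne_zero hN) (pow_pos hr.pos b)
  have : NeZero (N * r ^ b) := ⟨hM0.ne'⟩
  have : NeZero N := ⟨hN⟩
  rcases Nat.lt_or_ge 1 N with hN1 | hN1
  · have hNM : N ∣ N * r ^ b := Dvd.intro _ rfl
    have hM : 1 < N * r ^ b := lt_of_lt_of_le hN1 (Nat.le_of_dvd hM0 hNM)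
    have hpN : (p : ZMod N) ^ f = 1 := by
      have h1 := congrArg (ZMod.castHom hNM (ZMod N)) hp
      rw [map_pow, map_natCast, map_one] at h1
      exact h1
    refine lp_inc hB hM hN1 hNM hf hp (h f hf hpN) fun x hx => ?_
    obtain ⟨y, z, hxyz, hy, hz⟩ := decomp rfl (hcop.pow_right b) x
    by_cases hz0 : z = 0
    · refine (le_sup_right : Inc _ N ≤ _) (inc_of_smul hNM hx ?_)
      rw [hxyz, hz0, add_zero]
      exact hy
    · obtain ⟨i, hi, hzi⟩ := (Nat.dvd_prime_pow hr).mp (addOrderOf_dvd_of_nsmul_eq_zero hz)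
      have hi0 : 0 < i := by
        rcases Nat.eq_zero_or_pos i with h1 | h1
        · rw [h1, pow_zero, AddMonoid.addOrderOf_eq_one_iff] at hzi
          exact absurd hzi hz0
        · exact h1
      refine (le_sup_right.trans le_sup_left : SS _ p f ≤ _) (ss_mem ⟨hx, fun t => ?_⟩)
      rw [hxyz]
      exact adj_ss hB hM hf hp hr rfl hcop hpow hsur i y z hi0 hy hzi t
  · have hN1' : N = 1 := by omega
    subst hN1'
    have h1 : 1 * r ^ b = r ^ b := one_mul _
    have h2 : ∀ M : ℕ, M = r ^ b → (p : ZMod M) ^ f = 1 → LP M p f := by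
      rintro M rfl h3
      exact lpa_pp hPP hr b p f hf h3
    exact h2 _ h1 hp

open Adj Crit Two New in
/-- adjoining the prime `3` -/
theorem lpa_adj3 (hB : StBasic) {p N : ℕ} (hN : N ≠ 0) (h3N : ¬ 3 ∣ N)
    (hpow : ∃ j : ℕ, (p : ZMod N) ^ j + 3 = 0)
    (hsur : ∃ k : ℕ, (p : ZMod N) ^ k = 1 ∧ (p : ZMod 3) ^ k = -1)
    (h : LPA N p) : LPA (N * 3) p := by
  intro f hf hp
  have h3 : Nat.Prime 3 := by norm_num
  have hcop : Nat.Coprime N 3 := ((Nat.Prime.coprime_iff_not_dvd h3).mpr h3N).symm
  have hM0 : 0 < N * 3 := Nat.mul_pos (Nat.pos_of_ne_zero hN) (by norm_num)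
  have : NeZero (N * 3) := ⟨hM0.ne'⟩
  have : NeZero N := ⟨hN⟩
  obtain ⟨k, hk1, hk2⟩ := hsur
  -- an element of order `3` is mapped to its negative
  have hk : ∀ y z : ZMod (N * 3), N • y = 0 → 3 • z = 0 →
      (p : ZMod (N * 3)) ^ k * (y + z) = y - z := by
    intro y z hy hz
    have h1 : p ^ k ≡ 1 [MOD N] := by
      rw [← ZMod.natCast_eq_natCast_iff]
      push_cast
      exact hk1
    have h2 : p ^ k ≡ 2 [MOD 3] := by
      rw [← ZMod.natCast_eq_natCast_iff]
      push_cast
      rw [hk2]
      decide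
    have h3' := mul_eq_of_modEq h1 hy
    have h4 := mul_eq_of_modEq h2 hz
    push_cast at h3' h4
    have h5 : (3 : ZMod (N * 3)) * z = 0 := by
      have h6 := hz
      rw [nsmul_eq_mul] at h6
      exact_mod_cast h6
    linear_combination h3' + h4 + h5
  rcases Nat.lt_or_ge 1 N with hN1 | hN1
  · have hNM : N ∣ N * 3 := Dvd.intro _ rfl
    have hM : 1 < N * 3 := lt_of_lt_of_le hN1 (Nat.le_of_dvd hM0 hNM)
    have hpN : (p : ZMod N) ^ f = 1 := by
      have h1 := congrArg (ZMod.castHom hNM (ZMod N)) hp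
      rw [map_pow, map_natCast, map_one] at h1
      exact h1
    refine lp_inc hB hM hN1 hNM hf hp (h f hf hpN) fun x hx => ?_
    obtain ⟨y, z, hxyz, hy, hz⟩ := decomp rfl hcop x
    by_cases hz0 : z = 0
    · refine (le_sup_right : Inc _ N ≤ _) (inc_of_smul hNM hx ?_)
      rw [hxyz, hz0, add_zero]
      exact hy
    by_cases hy0 : y = 0
    · refine (le_sup_right.trans le_sup_left : SS _ p f ≤ _) (ss_mem ?_)
      refine ss_of_pow hf hp hx (i := k) ?_
      have h1 := hk y z hy hz
      rw [← hxyz] at h1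
      rw [h1, hxyz, hy0]
      ring
    · -- `saw (y + z) = - saw y`
      have h3y : (3 : ZMod (N * 3)) * y ≠ 0 := by
        intro h
        apply hy0
        have h1 : 3 • y = 0 := by rw [nsmul_eq_mul]; exact_mod_cast h
        have h2 := addOrderOf_dvd_of_nsmul_eq_zero h1
        have h3 := addOrderOf_dvd_of_nsmul_eq_zero hy
        have h4 := Nat.dvd_gcd h3 h2
        rw [hcop, Nat.dvd_one, AddMonoid.addOrderOf_eq_one_iff] at h4
        exact h4
      have h3M : 3 ∣ N * 3 := Dvd.intro_left _ rfl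
      have hord : ∀ j : ℕ, 0 < j → j < 3 →
          addOrderOf ((j : ZMod (N * 3)) * ((N * 3 / 3 : ℕ) : ZMod (N * 3))) = 3 := by
        intro j h1 h2
        have : Fact (Nat.Prime 3) := ⟨h3⟩
        refine addOrderOf_eq_prime ?_ (Red.quot_ne h3 h3M h1 h2)
        rw [nsmul_eq_mul, mul_left_comm, Red.mul_quot h3M, mul_zero]
      have hzo : addOrderOf z = 3 := by
        have : Fact (Nat.Prime 3) := ⟨h3⟩
        exact addOrderOf_eq_prime hz hz0
      have hsaw : ∀ t : (ZMod (N * 3))ˣ, saw (N * 3) p f t (y + z) + saw (N * 3) p f t y = 0 := by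
        intro t
        have hyz : saw (N * 3) p f t (y - z) = saw (N * 3) p f t (y + z) := by
          rw [← hk y z hy hz, saw_pow hp]
        have hz' : ∀ w : ZMod (N * 3), addOrderOf w = 3 →
            saw (N * 3) p f t (y + w) = saw (N * 3) p f t (y + z) := by
          intro w hw
          obtain ⟨c, hc, hcw⟩ := assoc_of_order (hzo.trans hw.symm)
          rw [hzo] at hc
          have h1 : c % 3 = 1 ∨ c % 3 = 2 := by
            have h2 : ¬ 3 ∣ c := by
              intro h4
              have h5 := Nat.dvd_gcd h4 (dvd_refl 3)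
              rw [hc] at h5
              omega
            omega
          rcases h1 with h1 | h1
          · have h2 : c ≡ 1 [MOD 3] := h1
            have h4 := mul_eq_of_modEq h2 hz
            rw [hcw, h4, Nat.cast_one, one_mul]
          · have h2 : c ≡ 2 [MOD 3] := h1
            have h4 := mul_eq_of_modEq h2 hz
            have h5 : (3 : ZMod (N * 3)) * z = 0 := by
              have h6 := hz
              rw [nsmul_eq_mul] at h6
              exact_mod_cast h6
            have h6 : w = -z := by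
              rw [hcw, h4]
              push_cast
              linear_combination h5
            rw [h6, ← sub_eq_add_neg, hyz]
        have h3y' : ((3 : ℕ) : ZMod (N * 3)) * y ≠ 0 := by exact_mod_cast h3y
        have h1 := saw_dh hB hM hf hp h3 h3M h3y' t
        rw [Finset.sum_range_succ, Finset.sum_range_succ, Finset.sum_range_one, Nat.cast_zero,
          zero_mul, add_zero, hz' _ (hord 1 (by norm_num) (by norm_num)),
          hz' _ (hord 2 (by norm_num) (by norm_num))] at h1
        obtain ⟨j, hj⟩ := hpow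
        have h4 : ((3 : ℕ) : ZMod (N * 3)) * y = -((p : ZMod (N * 3)) ^ j * y) := by
          have h5 : p ^ j + 3 ≡ 0 [MOD N] := by
            rw [← ZMod.natCast_eq_natCast_iff]
            push_cast
            exact hj
          have h6 := mul_eq_of_modEq h5 hy
          push_cast at h6 ⊢
          linear_combination h6
        have hpy : (p : ZMod (N * 3)) ^ j * y ≠ 0 := by
          intro h5
          rw [h5, neg_zero] at h4
          exact h3y' h4
        rw [h4, Basic.saw_neg hf hp t.isUnit hpy, saw_pow hp] at h1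
        linarith
      have h1 : Red.ev (y + z) + Red.ev y ∈ Sub (N * 3) p f :=
        Basic.pair_mem (by rw [← hxyz]; exact hx) hy0 hsaw
      have h2 : Red.ev x = (Red.ev (y + z) + Red.ev y) - Red.ev y := by
        rw [hxyz]; abel
      rw [h2]
      exact sub_mem ((le_sup_left.trans le_sup_left : Sub _ p f ≤ _) h1)
        ((le_sup_right : Inc _ N ≤ _) (inc_of_smul hNM hy0 hy))
  · have hN1' : N = 1 := by omega
    subst hN1'
    have hM : 1 < 1 * 3 := by norm_num
    refine lp_ss hB hM hf hp fun x hx => ?_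
    refine (le_sup_right : SS _ p f ≤ _) (ss_mem ?_)
    refine ss_of_pow hf hp hx (i := k) ?_
    have h1 := hk 0 x (smul_zero _) (by
      rw [nsmul_eq_mul]
      have h2 : ((3 : ℕ) : ZMod (1 * 3)) = 0 := ZMod.natCast_self 3
      rw [h2, zero_mul])
    rw [zero_add, zero_sub] at h1
    exact h1

end Pool.Agent.Lib.MP81632f.Diag
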