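import Pool.Agent.Lib.MP_81632f_ag.Diag.Adj

/-!
# From `N` to `4 N`
-/

set_option autoImplicit false

noncomputable section

namespace Pool.Agent.Lib.MP81632f.Diag

open Finset

open Adj Crit Two New in
/-- from `N` to `4 N`, `N` odd -/
theorem lpa_adj4 (hB : StBasic) {p N : ℕ} (hNo : Odd N)
    (hpow : ∃ j : ℕ, (p : ZMod N) ^ j = 2 ∨ (p : ZMod N) ^ j + 2 = 0)
    (hsur : ∃ k : ℕ, (p : ZMod N) ^ k = 1 ∧ (p : ZMod 4) ^ k = -1)
    (h : LPA N p) : LPA (N * 4) p := by
  intro f hf hp
  have hN : N ≠ 0 := by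
    rintro rfl
    exact absurd hNo (by decide)
  have hcop2 : Nat.Coprime N 2 := Nat.coprime_two_right.mpr hNo
  have hcop : Nat.Coprime N 4 := hcop2.pow_right 2
  have hM0 : 0 < N * 4 := Nat.mul_pos (Nat.pos_of_ne_zero hN) (by norm_num)
  have : NeZero (N * 4) := ⟨hM0.ne'⟩
  have : NeZero N := ⟨hN⟩
  obtain ⟨k, hk1, hk2⟩ := hsur
  -- an element of order dividing `4` is mapped to its negative
  have hk : ∀ y z : ZMod (N * 4), N • y = 0 → 4 • z = 0 →
      (p : ZMod (N * 4)) ^ k * (y + z) = y - z := by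
    intro y z hy hz
    have h1 : p ^ k ≡ 1 [MOD N] := by
      rw [← ZMod.natCast_eq_natCast_iff]
      push_cast
      exact hk1
    have h2 : p ^ k ≡ 3 [MOD 4] := by
      rw [← ZMod.natCast_eq_natCast_iff]
      push_cast
      rw [hk2]
      decide
    have h3' := mul_eq_of_modEq h1 hy
    have h4 := mul_eq_of_modEq h2 hz
    push_cast at h3' h4
    have h5 : (4 : ZMod (N * 4)) * z = 0 := by
      have h6 := hz
      rw [nsmul_eq_mul] at h6
      exact_mod_cast h6
    linear_combination h3' + h4 + h5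
  have hM : 1 < N * 4 := by
    have := Nat.pos_of_ne_zero hN
    omega
  -- pure `2`-elements are supersingular
  have hss2 : ∀ z : ZMod (N * 4), z ≠ 0 → 4 • z = 0 → SSel (N * 4) p f z := by
    intro z hz0 hz
    refine ss_of_pow hf hp hz0 (i := k) ?_
    have h1 := hk 0 z (smul_zero _) hz
    rw [zero_add, zero_sub] at h1
    exact h1
  rcases Nat.lt_or_ge 1 N with hN1 | hN1
  · have hNM : N ∣ N * 4 := Dvd.intro _ rfl
    have hpN : (p : ZMod N) ^ f = 1 := by
      have h1 := congrArg (ZMod.castHom hNM (ZMod N)) hp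
      rw [map_pow, map_natCast, map_one] at h1
      exact h1
    have h2M : 2 ∣ N * 4 := ⟨N * 2, by ring⟩
    set c : ZMod (N * 4) := ((N * 4 / 2 : ℕ) : ZMod (N * 4)) with hc
    have hc0 : c ≠ 0 := by
      have := Red.quot_ne (M := N * 4) Nat.prime_two h2M (j := 1) (by norm_num) (by norm_num)
      rwa [Nat.cast_one, one_mul] at this
    have hcc : 2 • c = 0 := by
      rw [nsmul_eq_mul]
      exact Red.mul_quot h2M
    have hsub : Sub (N * 4) p f ≤ Sub (N * 4) p f ⊔ SS (N * 4) p f ⊔ Inc (N * 4) N :=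
      le_sup_left.trans le_sup_left
    have hssl : SS (N * 4) p f ≤ Sub (N * 4) p f ⊔ SS (N * 4) p f ⊔ Inc (N * 4) N :=
      le_sup_right.trans le_sup_left
    have hincl : Inc (N * 4) N ≤ Sub (N * 4) p f ⊔ SS (N * 4) p f ⊔ Inc (N * 4) N :=
      le_sup_right
    have hNc : ∀ {y : ZMod (N * 4)} (a : ℕ), N • y = 0 → N • ((a : ZMod (N * 4)) * y) = 0 := by
      intro y a hy
      rw [nsmul_eq_mul, mul_left_comm, ← nsmul_eq_mul N y, hy, mul_zero]
    -- multiplication by `2` on the `N`-part
    have h2y : ∀ y : ZMod (N * 4), N • y = 0 → y ≠ 0 → ((2 : ℕ) : ZMod (N * 4)) * y ≠ 0 := by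
      intro y hy hy0 h
      apply hy0
      have h1 : 2 • y = 0 := by rw [nsmul_eq_mul]; exact h
      have h2 := addOrderOf_dvd_of_nsmul_eq_zero h1
      have h3 := addOrderOf_dvd_of_nsmul_eq_zero hy
      have h4 := Nat.dvd_gcd h3 h2
      rw [hcop2, Nat.dvd_one, AddMonoid.addOrderOf_eq_one_iff] at h4
      exact h4
    -- the relation for the prime `2`
    have hdh : ∀ (t : (ZMod (N * 4))ˣ) (w : ZMod (N * 4)), ((2 : ℕ) : ZMod (N * 4)) * w ≠ 0 →
        saw (N * 4) p f t w + saw (N * 4) p f t (w + c) =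
          saw (N * 4) p f t (((2 : ℕ) : ZMod (N * 4)) * w) := by
      intro t w hw
      have h1 := saw_dh hB hM hf hp Nat.prime_two h2M hw t
      rw [Finset.sum_range_succ, Finset.sum_range_one, Nat.cast_zero, zero_mul, add_zero,
        Nat.cast_one, one_mul] at h1
      exact h1
    obtain ⟨j, hj⟩ := hpow
    -- `saw (2 y) = ± saw y`
    have hpm : (∀ (t : (ZMod (N * 4))ˣ) (y : ZMod (N * 4)), N • y = 0 → y ≠ 0 →
          saw (N * 4) p f t (((2 : ℕ) : ZMod (N * 4)) * y) = saw (N * 4) p f t y) ∨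
        (∀ (t : (ZMod (N * 4))ˣ) (y : ZMod (N * 4)), N • y = 0 → y ≠ 0 →
          saw (N * 4) p f t (((2 : ℕ) : ZMod (N * 4)) * y) = -saw (N * 4) p f t y) := by
      rcases hj with hj | hj
      · left
        intro t y hy _
        have h5 : 2 ≡ p ^ j [MOD N] := by
          rw [← ZMod.natCast_eq_natCast_iff]
          push_cast
          exact hj.symm
        have h6 := mul_eq_of_modEq h5 hy
        rw [h6]
        push_cast
        exact saw_pow hp _ _ _
      · right
        intro t y hy hy0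
        have h5 : p ^ j + 2 ≡ 0 [MOD N] := by
          rw [← ZMod.natCast_eq_natCast_iff]
          push_cast
          exact hj
        have h6 := mul_eq_of_modEq h5 hy
        have h7 : ((2 : ℕ) : ZMod (N * 4)) * y = -((p : ZMod (N * 4)) ^ j * y) := by
          push_cast at h6 ⊢
          linear_combination h6
        have h8 : (p : ZMod (N * 4)) ^ j * y ≠ 0 := by
          intro h9
          apply h2y y hy hy0
          rw [h7, h9, neg_zero]
        rw [h7, Basic.saw_neg hf hp t.isUnit h8, saw_pow hp]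
    refine lp_inc hB hM hN1 hNM hf hp (h f hf hpN) fun x hx => ?_
    obtain ⟨y, z, hxyz, hy, hz⟩ := decomp rfl hcop x
    by_cases hz0 : z = 0
    · refine hincl (inc_of_smul hNM hx ?_)
      rw [hxyz, hz0, add_zero]
      exact hy
    by_cases hy0 : y = 0
    · rw [hxyz, hy0, zero_add]
      exact hssl (ss_mem (hss2 z hz0 hz))
    by_cases hz2 : 2 • z = 0
    · -- `z` has order `2`
      have hzc : z = c := Red.two_torsion h2M hz2 hz0
      have h2ne := h2y y hy hy0
      have h1 := Red.dh_mem (p := p) (f := f) Nat.prime_two h2M (y := y) h2ne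
      rw [Finset.sum_range_succ, Finset.sum_range_one, Nat.cast_zero, zero_mul, add_zero,
        Nat.cast_one, one_mul, show 2 - 1 = 1 from rfl, Finset.sum_range_one, zero_add,
        Nat.cast_one, one_mul, ← hc] at h1
      have h2 := Red.ev_neg hB hM hf hp h2ne
      have h3 : Red.ev x = (Red.ev y + Red.ev (y + c) +
          Red.ev (-(((2 : ℕ) : ZMod (N * 4)) * y)) + Red.ev c) -
          (Red.ev (((2 : ℕ) : ZMod (N * 4)) * y) +
            Red.ev (-(((2 : ℕ) : ZMod (N * 4)) * y))) - Red.ev c - Red.ev y +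
          Red.ev (((2 : ℕ) : ZMod (N * 4)) * y) := by
        rw [hxyz, hzc]; abel
      rw [h3]
      refine add_mem (sub_mem (sub_mem (sub_mem (hsub h1) (hsub h2)) ?_) ?_) ?_
      · exact hssl (ss_mem (ss_of_two hf hp hc0 hcc))
      · exact hincl (inc_of_smul hNM hy0 hy)
      · exact hincl (inc_of_smul hNM h2ne (hNc 2 hy))
    · -- `z` has order `4`
      have h2z : 2 • z = c := by
        refine Red.two_torsion h2M ?_ hz2
        rw [smul_smul]
        exact hz
      have hzc : z + c = -z := by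
        rw [← h2z]
        have h1 : 4 • z = 0 := hz
        have h2 : z + 2 • z + z = 0 := by
          rw [← h1]
          module
        exact eq_neg_of_add_eq_zero_left h2
      have h2ne := h2y y hy hy0
      have h2x : ((2 : ℕ) : ZMod (N * 4)) * (y + z) = ((2 : ℕ) : ZMod (N * 4)) * y + c := by
        rw [mul_add, ← h2z, nsmul_eq_mul]
      have hNc0 : N • c = c := by
        obtain ⟨m, hm⟩ := hNo
        have h5 : ∀ a : ℕ, a = 2 * m + 1 → a • c = c := by
          rintro a rfl
          have h6 : (2 * m) • c = 0 := by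
            rw [mul_comm 2 m, mul_smul, hcc, smul_zero]
          rw [add_smul, one_smul, h6, zero_add]
        exact h5 N hm
      have h2xne : ((2 : ℕ) : ZMod (N * 4)) * (y + z) ≠ 0 := by
        rw [h2x]
        intro h5
        have h6 : N • (((2 : ℕ) : ZMod (N * 4)) * y + c) = 0 := by rw [h5, smul_zero]
        rw [smul_add, hNc 2 hy, zero_add, hNc0] at h6
        exact hc0 h6
      -- `2 saw (y + z) = saw (4 y) - saw (2 y)`
      have hrel : ∀ t : (ZMod (N * 4))ˣ, 2 * saw (N * 4) p f t (y + z) =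
          saw (N * 4) p f t (((2 : ℕ) : ZMod (N * 4)) * (((2 : ℕ) : ZMod (N * 4)) * y)) -
            saw (N * 4) p f t (((2 : ℕ) : ZMod (N * 4)) * y) := by
        intro t
        have h5 := hdh t (y + z) h2xne
        have h6 : saw (N * 4) p f t (y + z + c) = saw (N * 4) p f t (y + z) := by
          rw [add_assoc, hzc, ← sub_eq_add_neg, ← hk y z hy hz, saw_pow hp]
        rw [h6, h2x] at h5
        have h7 := hdh t (((2 : ℕ) : ZMod (N * 4)) * y) (h2y _ (hNc 2 hy) h2ne)
        linarith
      rcases hpm with hpm | hpm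
      · refine hssl (ss_mem ⟨hx, fun t => ?_⟩)
        have h5 := hrel t
        rw [hpm t _ (hNc 2 hy) h2ne, sub_self] at h5
        rw [hxyz]
        linarith
      · have h5 : ∀ t : (ZMod (N * 4))ˣ, saw (N * 4) p f t (y + z) + saw (N * 4) p f t (-y) = 0 := by
          intro t
          have h6 := hrel t
          rw [hpm t _ (hNc 2 hy) h2ne, hpm t _ hy hy0] at h6
          rw [Basic.saw_neg hf hp t.isUnit hy0]
          linarith
        have h6 : Red.ev (y + z) + Red.ev (-y) ∈ Sub (N * 4) p f :=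
          Basic.pair_mem (by rw [← hxyz]; exact hx) (neg_ne_zero.mpr hy0) h5
        have h7 := Red.ev_neg hB hM hf hp hy0
        have h8 : Red.ev x = (Red.ev (y + z) + Red.ev (-y)) - (Red.ev y + Red.ev (-y)) +
            Red.ev y := by
          rw [hxyz]; abel
        rw [h8]
        exact add_mem (sub_mem (hsub h6) (hsub h7)) (hincl (inc_of_smul hNM hy0 hy))
  · have hN1' : N = 1 := by omega
    subst hN1'
    refine lp_ss hB hM hf hp fun x hx => ?_
    refine (le_sup_right : SS _ p f ≤ _) (ss_mem (hss2 x hx ?_))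
    rw [nsmul_eq_mul]
    have h2 : ((4 : ℕ) : ZMod (1 * 4)) = 0 := ZMod.natCast_self 4
    rw [h2, zero_mul]

open Two Crit in
/-- supersingular degrees -/
theorem lpa_neg (hB : StBasic) {p M : ℕ} (hM0 : M ≠ 0) (h : NegPow p M) : LPA M p := by
  intro f hf hp
  have : NeZero M := ⟨hM0⟩
  rcases Nat.lt_or_ge 1 M with hM | hM
  · refine lp_ss hB hM hf hp fun x hx => ?_
    refine (le_sup_right : SS _ p f ≤ _) (ss_mem (ss_of_negPow hf hp h hx ?_))
    rw [nsmul_eq_mul, ZMod.natCast_self, zero_mul]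
  · have hM1 : M = 1 := by omega
    subst hM1
    exact lp_one p f

end Pool.Agent.Lib.MP81632f.Diag
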