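import Pool.Agent.Lib.MP_81632f_ag.Diag.Defs

/-!
# Tate sets of Gauss sums: statements of the modules
-/

set_option autoImplicit false

noncomputable section

namespace Pool.Agent.Lib.MP81632f.Diag

open Finset

/-! ### A. Relations over `ℤ/M` -/

/-- The (doubled) sawtooth sum of `x` at the unit `t`: `∑_{j < f} (2 ⟨p^j t x⟩ - M)`. -/
def saw (M p f : ℕ) (t x : ZMod M) : ℤ :=
  ∑ j ∈ range f, (2 * (((p : ZMod M) ^ j * t * x).val : ℤ) - (M : ℤ))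

/-- balanced multisets -/
def BalM (M p f : ℕ) (X : Multiset (ZMod M)) : Prop :=
  ∀ t : (ZMod M)ˣ, (X.map fun x => saw M p f t x).sum = 0

/-- the function `x ↦ multiplicity of x in X` -/
def cnt {M : ℕ} (X : Multiset (ZMod M)) : ZMod M → ℤ := fun x => (X.count x : ℤ)

/-- one nonzero element or three nonzero elements with sum zero -/
def IsAtomZ {M : ℕ} (A : Multiset (ZMod M)) : Prop :=
  (∃ a, a ≠ 0 ∧ A = {a}) ∨ ∃ a b c, a ≠ 0 ∧ b ≠ 0 ∧ c ≠ 0 ∧ a + b + c = 0 ∧ A = {a, b, c}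

/-- Davenport-Hasse multisets -/
def dhZ (M ℓ : ℕ) (x : ZMod M) : Multiset (ZMod M) :=
  (Multiset.range ℓ).map (fun j => x + (j : ZMod M) * ((M / ℓ : ℕ) : ZMod M)) + {-((ℓ : ZMod M) * x)} +
    (Multiset.range (ℓ - 1)).map fun j => ((j + 1 : ℕ) : ZMod M) * ((M / ℓ : ℕ) : ZMod M)

/-- the generators: balanced sums of two atoms, and Davenport-Hasse multisets -/
def Gen (M p f : ℕ) : Set (Multiset (ZMod M)) :=
  {s | ∃ A B, IsAtomZ A ∧ IsAtomZ B ∧ s = A + B ∧ BalM M p f s} ∪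
  {s | ∃ (ℓ : ℕ) (x : ZMod M), ℓ.Prime ∧ ℓ ∣ M ∧ (ℓ : ZMod M) * x ≠ 0 ∧ s = dhZ M ℓ x}

/-- the group generated by the generators -/
def Sub (M p f : ℕ) : AddSubgroup (ZMod M → ℤ) := AddSubgroup.closure (cnt '' Gen M p f)

/-- the lattice property for `M`, `p`, `f` -/
def LP (M p f : ℕ) : Prop :=
  ∀ X : Multiset (ZMod M), 0 ∉ X → BalM M p f X → Even (Multiset.card X) → cnt X ∈ Sub M p f

/-! ### B. Nonvanishing of generalised Bernoulli numbers -/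

/-- B1 -/
def StLval : Prop :=
  ∀ (N : ℕ) [NeZero N] (χ : DirichletCharacter ℂ N), χ.IsPrimitive → χ.Odd →
    ∑ a : ZMod N, χ a * (a.val : ℂ) ≠ 0

/-- B2 -/
def StLvalPP : Prop :=
  ∀ (ℓ A : ℕ), ℓ.Prime → ∀ [NeZero (ℓ ^ A)] (χ : DirichletCharacter ℂ (ℓ ^ A)), χ.Odd →
    ∑ a : ZMod (ℓ ^ A), χ a * (a.val : ℂ) ≠ 0

open Classical in
/-- B3 (Fourier). -/
def StFour : Prop :=
  ∀ (ℓ A : ℕ), ℓ.Prime → ∀ [NeZero (ℓ ^ A)] (p f : ℕ) (u : (ZMod (ℓ ^ A))ˣ),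
    (u : ZMod (ℓ ^ A)) = p → 0 < f → u ^ f = 1 → ∀ c : (ZMod (ℓ ^ A))ˣ → ℤ,
    (∀ t : (ZMod (ℓ ^ A))ˣ, ∑ x, c x * saw (ℓ ^ A) p f t x = 0) →
    ∀ y : (ZMod (ℓ ^ A))ˣ, ∑ h with h ∈ Subgroup.zpowers u, c (h * y) =
      ∑ h with h ∈ Subgroup.zpowers u, c (-(h * y))

/-! ### C. Lattices -/

/-- C1: basic facts on the group `Sub`. -/
def StBasic : Prop :=
  ∀ (M p f : ℕ) [NeZero M], 1 < M → 0 < f → (p : ZMod M) ^ f = 1 →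
    (∀ x : ZMod M, x ≠ 0 → Pi.single x 1 + Pi.single (-x) 1 ∈ Sub M p f) ∧
    (∀ x : ZMod M, x ≠ 0 → Pi.single ((p : ZMod M) * x) 1 - Pi.single x 1 ∈ Sub M p f) ∧
    (∀ x y : ZMod M, x ≠ 0 → y ≠ 0 → (∀ t : (ZMod M)ˣ, saw M p f t x = 0) →
      (∀ t : (ZMod M)ˣ, saw M p f t y = 0) → Pi.single x 1 + Pi.single y 1 ∈ Sub M p f) ∧
    (∀ (t x : ZMod M), IsUnit t → x ≠ 0 → saw M p f t (-x) = - saw M p f t x) ∧
    (∀ v ∈ Sub M p f, v 0 = 0 ∧ Even (∑ x, v x) ∧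
      ∀ t : (ZMod M)ˣ, ∑ x, v x * saw M p f t x = 0)

/-- C2: reduction to the top level. -/
def StRed : Prop :=
  ∀ (M p f : ℕ) [NeZero M], 1 < M → 0 < f → (p : ZMod M) ^ f = 1 →
    ∀ x : ZMod M, x ≠ 0 → IsPP (addOrderOf x) →
    ∃ v : ZMod M → ℤ, Pi.single x 1 - v ∈ Sub M p f ∧ ∀ y, v y ≠ 0 →
      (2 * y = 0 ∧ y ≠ 0) ∨ ∃ ℓ : ℕ, ℓ.Prime ∧ ℓ ∣ M ∧ addOrderOf y = ℓ ^ (M.factorization ℓ)

/-- C3: separation of the primes. -/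
def StSep : Prop :=
  ∀ (M p f : ℕ) [NeZero M], 1 < M → 0 < f → (p : ZMod M) ^ f = 1 →
    ∀ v : ZMod M → ℤ, (∀ y, v y ≠ 0 → (2 * y = 0 ∧ y ≠ 0) ∨
      ∃ ℓ : ℕ, ℓ.Prime ∧ ℓ ∣ M ∧ addOrderOf y = ℓ ^ (M.factorization ℓ)) →
    (∀ t : (ZMod M)ˣ, ∑ x, v x * saw M p f t x = 0) →
    ∀ ℓ : ℕ, ℓ.Prime → ℓ ∣ M → ∀ t : (ZMod M)ˣ,
      ∑ x with addOrderOf x = ℓ ^ (M.factorization ℓ), v x * saw M p f t x = 0

/-- C4: one prime. -/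
def StOne : Prop :=
  ∀ (M p f : ℕ) [NeZero M], 1 < M → 0 < f → (p : ZMod M) ^ f = 1 →
    ∀ ℓ : ℕ, ℓ.Prime → ℓ ∣ M → ∀ v : ZMod M → ℤ,
    (∀ y, v y ≠ 0 → addOrderOf y = ℓ ^ (M.factorization ℓ)) →
    (∀ t : (ZMod M)ˣ, ∑ x, v x * saw M p f t x = 0) →
    v ∈ Sub M p f ∨ ∃ y : ZMod M, y ≠ 0 ∧ (∀ t : (ZMod M)ˣ, saw M p f t y = 0) ∧
      v - Pi.single y 1 ∈ Sub M p f

/-- C5: prime powers and twice prime powers. -/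
def StPP : Prop :=
  ∀ (M p f : ℕ) [NeZero M], 1 < M → 0 < f → (p : ZMod M) ^ f = 1 →
    ∀ X : Multiset (ZMod M), (∀ x ∈ X, x ≠ 0 ∧ IsPP (addOrderOf x)) → BalM M p f X →
    Even (Multiset.card X) → cnt X ∈ Sub M p f

/-- C6: the composite degrees (`M'` is the part of `M` prime to `p`). -/
def StComp : Prop :=
  ∀ (p M f : ℕ), p.Prime → M ∈ degs → 0 < f → ordCompl[p] M ∣ p ^ f - 1 →
    LP (ordCompl[p] M) p f

/-! ### D. Stickelberger's theorem in `PadicAlgCl p` -/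

/-- D1: a Teichmüller character. -/
def StTeich : Prop :=
  ∀ (p : ℕ) [Fact p.Prime] (F : Type) [Field F] [Fintype F] [CharP F p],
    ∃ ω : MulChar F (PadicAlgCl p), orderOf ω = Fintype.card F - 1 ∧
      ∀ x y : F, ‖ω x + ω y - ω (x + y)‖ < 1

/-- D0: all nontrivial additive characters are shifts of each other. -/
def StShift : Prop :=
  ∀ (F : Type) [Field F] [Fintype F] (L : Type) [Field L] [CharZero L] (ψ ψ' : AddChar F L),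
    ψ ≠ 1 → ψ' ≠ 1 → ∃ c : F, c ≠ 0 ∧ ψ' = AddChar.mulShift ψ c

/-- D2: the Gauss sum of `ω⁻¹`. -/
def StOneG : Prop :=
  ∀ (p : ℕ) [Fact p.Prime] (F : Type) [Field F] [Fintype F] [CharP F p]
    (ω : MulChar F (PadicAlgCl p)), orderOf ω = Fintype.card F - 1 →
    (∀ x y : F, ‖ω x + ω y - ω (x + y)‖ < 1) →
    ∀ ψ : AddChar F (PadicAlgCl p), ψ ≠ 1 → (p : ℝ)⁻¹ ≤ ‖gaussSum ω⁻¹ ψ‖ ^ (p - 1)

/-- D3: digits. -/
def StDig : Prop :=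
  ∀ (p f a : ℕ), 1 < p → a < p ^ f - 1 →
    (p - 1) * ∑ j ∈ range f, (p ^ j * a) % (p ^ f - 1) = (p ^ f - 1) * (Nat.digits p a).sum ∧
    (0 < a → (Nat.digits p a).sum + (Nat.digits p (p ^ f - 1 - a)).sum = f * (p - 1))

/-- D4: Stickelberger. -/
def StStick : Prop :=
  ∀ (p : ℕ) [Fact p.Prime] (F : Type) [Field F] [Fintype F] [CharP F p] (f : ℕ),
    Fintype.card F = p ^ f → ∀ m : ℕ, 0 < m → m ∣ p ^ f - 1 →
    ∃ θ : MulChar F (PadicAlgCl p), orderOf θ = m ∧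
      ∀ ψ : AddChar F (PadicAlgCl p), ψ ≠ 1 → ∀ x : ℕ, ¬ m ∣ x →
        ‖gaussSum (θ ^ x) ψ‖ ^ m = ((p : ℝ)⁻¹) ^ (∑ j ∈ range f, (p ^ j * x) % m)

/-! ### E. From complex Gauss sums to relations over `ℤ/M` and back -/

/-- E1 -/
def StTrans : Prop :=
  ∀ (p : ℕ) [Fact p.Prime] (F : Type) [Field F] [Fintype F] [CharP F p] (f : ℕ),
    Fintype.card F = p ^ f → ∀ (M : ℕ) [NeZero M] (θ : MulChar F ℂ), orderOf θ = M →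
    ∀ (ψ : AddChar F ℂ), ψ ≠ 1 → ∀ X : Multiset (ZMod M),
    IsTateSet ψ (X.map fun x => θ ^ x.val) → BalM M p f X

/-- E2 -/
def StKron : Prop :=
  ∀ (p : ℕ) [Fact p.Prime] (F : Type) [Field F] [Fintype F] [CharP F p] (f : ℕ),
    Fintype.card F = p ^ f → ∀ (M : ℕ) [NeZero M] (θ : MulChar F ℂ), orderOf θ = M →
    ∀ (ψ : AddChar F ℂ), ψ ≠ 1 → ∀ X : Multiset (ZMod M), 0 ∉ X → BalM M p f X →
    IsTateSet ψ (X.map fun x => θ ^ x.val)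

/-- E3 -/
def StClose : Prop :=
  ∀ (p : ℕ) [Fact p.Prime] (F : Type) [Field F] [Fintype F] [CharP F p] (f : ℕ),
    Fintype.card F = p ^ f → ∀ (M : ℕ) [NeZero M] (θ : MulChar F ℂ), orderOf θ = M →
    ∀ (ψ : AddChar F ℂ), ψ ≠ 1 → ∀ 𝒜, IsCycleFamily ψ 𝒜 →
    ∀ X : Multiset (ZMod M), 0 ∉ X → cnt X ∈ Sub M p f → (X.map fun x => θ ^ x.val) ∈ 𝒜

/-! ### F. The theorem -/

/-- The main theorem. -/
def StFinal : Prop :=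
  ∀ (p : ℕ) [Fact p.Prime] (F : Type) [Field F] [Fintype F] [CharP F p]
    (ψ : AddChar F ℂ), ψ ≠ 1 → ∀ 𝒜, IsCycleFamily ψ 𝒜 → ∀ s : Multiset (MulChar F ℂ),
    IsTateSet ψ s → Even (Multiset.card s) →
    ((∀ χ ∈ s, IsPP (orderOf χ)) ∨
      ∃ M ∈ degs, ordCompl[p] M ∣ Fintype.card F - 1 ∧ ∀ χ ∈ s, χ ^ M = 1) → s ∈ 𝒜

end Pool.Agent.Lib.MP81632f.Diag
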