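import Mathlib
import Pool.Agent.Lib.MP_81632f_ag.Diag.Stmts

/-!
# C1: basic facts on the group `Sub`
-/

set_option autoImplicit false

namespace Pool.Agent.Lib.MP81632f.Diag

open Finset

namespace Basic

section Count

variable {M : ℕ}

theorem cnt_zero : cnt (0 : Multiset (ZMod M)) = 0 := by
  funext x
  simp [cnt]

theorem cnt_add (s t : Multiset (ZMod M)) : cnt (s + t) = cnt s + cnt t := by
  funext x
  simp [cnt]

theorem cnt_singleton (a : ZMod M) : cnt ({a} : Multiset (ZMod M)) = Pi.single a 1 := by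
  funext x
  by_cases h : x = a
  · subst h
    simp [cnt]
  · simp [cnt, Multiset.count_singleton, h]

theorem cnt_cons (a : ZMod M) (s : Multiset (ZMod M)) :
    cnt (a ::ₘ s) = Pi.single a 1 + cnt s := by
  rw [← Multiset.singleton_add, cnt_add, cnt_singleton]

theorem sum_cnt_mul [NeZero M] (g : ZMod M → ℤ) (s : Multiset (ZMod M)) :
    ∑ x, cnt s x * g x = (s.map g).sum := by
  induction s using Multiset.induction_on with
  | empty => simp [cnt_zero]
  | cons a s ih =>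
    rw [cnt_cons, Multiset.map_cons, Multiset.sum_cons, ← ih]
    simp only [Pi.add_apply, add_mul, Finset.sum_add_distrib]
    congr 1
    rw [Finset.sum_eq_single a]
    · simp
    · intro b _ hb
      simp [Pi.single_eq_of_ne hb]
    · simp

theorem sum_cnt [NeZero M] (s : Multiset (ZMod M)) :
    ∑ x, cnt s x = (Multiset.card s : ℤ) := by
  have h := sum_cnt_mul (fun _ => 1) s
  simp only [mul_one] at h
  rw [h]
  simp

theorem cnt_apply_zero {s : Multiset (ZMod M)} (h : (0 : ZMod M) ∉ s) : cnt s 0 = 0 := by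
  simp [cnt, Multiset.count_eq_zero_of_notMem h]

end Count

section Saw

variable {M : ℕ} [NeZero M]

/-- the summand of `saw` -/
def q (y : ZMod M) : ℤ := 2 * (y.val : ℤ) - (M : ℤ)

omit [NeZero M] in
theorem saw_eq (p f : ℕ) (t x : ZMod M) :
    saw M p f t x = ∑ j ∈ range f, q ((p : ZMod M) ^ j * t * x) := rfl

theorem q_neg {y : ZMod M} (hy : y ≠ 0) : q (-y) = - q y := by
  have h1 : (-y).val = M - y.val := by
    rw [ZMod.neg_val, if_neg hy]
  have h2 := ZMod.val_lt y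
  unfold q
  rw [h1, Nat.cast_sub h2.le]
  ring

omit [NeZero M] in
theorem unit_mul_ne {s y : ZMod M} (hs : IsUnit s) (hy : y ≠ 0) : s * y ≠ 0 := by
  intro h
  exact hy ((hs.mul_right_eq_zero).1 h)

omit [NeZero M] in
theorem isUnit_p {p f : ℕ} (hf : 0 < f) (hp : (p : ZMod M) ^ f = 1) : IsUnit (p : ZMod M) :=
  IsUnit.of_pow_eq_one hp hf.ne'

theorem saw_neg {p f : ℕ} (hf : 0 < f) (hp : (p : ZMod M) ^ f = 1) {t x : ZMod M}
    (ht : IsUnit t) (hx : x ≠ 0) : saw M p f t (-x) = - saw M p f t x := by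
  rw [saw_eq, saw_eq, ← Finset.sum_neg_distrib]
  refine Finset.sum_congr rfl fun j _ => ?_
  rw [mul_neg, q_neg]
  exact unit_mul_ne (((isUnit_p hf hp).pow j).mul ht) hx

theorem saw_p {p f : ℕ} (hp : (p : ZMod M) ^ f = 1) (t x : ZMod M) :
    saw M p f t ((p : ZMod M) * x) = saw M p f t x := by
  rw [saw_eq, saw_eq]
  have h1 := Finset.sum_range_succ (fun j => q ((p : ZMod M) ^ j * t * x)) f
  have h2 := Finset.sum_range_succ' (fun j => q ((p : ZMod M) ^ j * t * x)) f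
  rw [h1] at h2
  rw [hp, pow_zero] at h2
  have h3 : ∑ j ∈ range f, q ((p : ZMod M) ^ j * t * ((p : ZMod M) * x)) =
      ∑ j ∈ range f, q ((p : ZMod M) ^ (j + 1) * t * x) := by
    refine Finset.sum_congr rfl fun j _ => ?_
    congr 1
    ring
  rw [h3]
  linarith

end Saw

section Fibre

variable {M : ℕ} [NeZero M] {ℓ D : ℕ}

omit [NeZero M] in
theorem mul_natCast_eq_zero (hM : M = ℓ * D) (hℓ : 0 < ℓ) (n : ℕ) :
    (ℓ : ZMod M) * (n : ZMod M) = 0 ↔ D ∣ n := by
  rw [← Nat.cast_mul, ZMod.natCast_eq_zero_iff, hM]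
  exact Nat.mul_dvd_mul_iff_left hℓ

/-- the fibre of multiplication by `ℓ` -/
def fib (ℓ : ℕ) (z : ZMod M) : Finset (ZMod M) :=
  univ.filter fun y => (ℓ : ZMod M) * y = (ℓ : ZMod M) * z

theorem sum_fib (hM : M = ℓ * D) (hℓ : 0 < ℓ) (g : ZMod M → ℤ) (z : ZMod M) :
    ∑ y ∈ fib ℓ z, g y = ∑ j ∈ range ℓ, g (z + (j : ZMod M) * (D : ZMod M)) := by
  have hM0 : 0 < M := Nat.pos_of_ne_zero (NeZero.ne M)
  have hD : 0 < D := by
    rcases Nat.eq_zero_or_pos D with h | h
    · rw [h] at hM; omega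
    · exact h
  symm
  refine Finset.sum_bij (fun j _ => z + (j : ZMod M) * (D : ZMod M)) ?_ ?_ ?_ ?_
  · intro j _
    simp only [fib, Finset.mem_filter, Finset.mem_univ, true_and]
    rw [mul_add]
    have h : (ℓ : ZMod M) * ((j : ZMod M) * (D : ZMod M)) = 0 := by
      rw [← Nat.cast_mul, mul_natCast_eq_zero hM hℓ]
      exact Dvd.intro_left j rfl
    rw [h, add_zero]
  · intro i hi j hj hij
    rw [mem_range] at hi hj
    have h1 : ((i * D : ℕ) : ZMod M) = ((j * D : ℕ) : ZMod M) := by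
      push_cast
      exact add_left_cancel hij
    rw [ZMod.natCast_eq_natCast_iff'] at h1
    have h2 : i * D < M := by
      rw [hM]; exact Nat.mul_lt_mul_of_pos_right hi hD
    have h3 : j * D < M := by
      rw [hM]; exact Nat.mul_lt_mul_of_pos_right hj hD
    rw [Nat.mod_eq_of_lt h2, Nat.mod_eq_of_lt h3] at h1
    exact Nat.eq_of_mul_eq_mul_right hD h1
  · intro y hy
    simp only [fib, Finset.mem_filter, Finset.mem_univ, true_and] at hy
    have h1 : (ℓ : ZMod M) * (((y - z).val : ℕ) : ZMod M) = 0 := by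
      rw [ZMod.natCast_zmod_val, mul_sub, hy, sub_self]
    rw [mul_natCast_eq_zero hM hℓ] at h1
    obtain ⟨j, hj⟩ := h1
    refine ⟨j, ?_, ?_⟩
    · rw [mem_range]
      have h2 := ZMod.val_lt (y - z)
      rw [hj] at h2
      have h3 : D * j < D * ℓ := by rw [mul_comm D ℓ, ← hM]; exact h2
      exact lt_of_mul_lt_mul_left h3 (Nat.zero_le D)
    · have h2 : ((D * j : ℕ) : ZMod M) = y - z := by
        rw [← hj, ZMod.natCast_zmod_val]
      rw [Nat.cast_mul, mul_comm] at h2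
      rw [h2]
      ring
  · intro j _
    rfl

theorem sum_fib_unit (hM : M = ℓ * D) (hℓ : 0 < ℓ) (g : ZMod M → ℤ) {s : ZMod M}
    (hs : IsUnit s) (z : ZMod M) :
    ∑ j ∈ range ℓ, g (s * (z + (j : ZMod M) * (D : ZMod M))) = ∑ y ∈ fib ℓ (s * z), g y := by
  rw [← sum_fib hM hℓ (fun y => g (s * y)) z]
  refine Finset.sum_bij (fun y _ => s * y) ?_ ?_ ?_ ?_
  · intro y hy
    simp only [fib, Finset.mem_filter, Finset.mem_univ, true_and] at hy ⊢
    rw [mul_left_comm, hy, mul_left_comm]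
  · intro a _ b _ hab
    exact hs.mul_left_cancel hab
  · intro y hy
    simp only [fib, Finset.mem_filter, Finset.mem_univ, true_and] at hy
    obtain ⟨u, rfl⟩ := hs
    refine ⟨(↑u⁻¹ : ZMod M) * y, ?_, ?_⟩
    · simp only [fib, Finset.mem_filter, Finset.mem_univ, true_and]
      rw [mul_left_comm, hy, mul_left_comm, Units.inv_mul_cancel_left]
    · rw [Units.mul_inv_cancel_left]
  · intro y _
    rfl

theorem sum_arith (ℓ : ℕ) (y D : ℤ) :
    ∑ j ∈ range ℓ, (2 * (y + j * D) - ℓ * D) = 2 * (ℓ * y) - ℓ * D := by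
  have h : ∀ n : ℕ, ∑ j ∈ range n, (2 * (y + j * D) - ℓ * D) =
      2 * n * y + n * (n - 1) * D - n * ℓ * D := by
    intro n
    induction n with
    | zero => simp
    | succ n ih =>
      rw [Finset.sum_range_succ, ih]
      push_cast
      ring
  rw [h ℓ]
  ring

/-- the sum over a fibre -/
theorem sum_q_fib (hM : M = ℓ * D) (hℓ : 0 < ℓ) (z : ZMod M) :
    ∑ y ∈ fib ℓ z, q y = q ((ℓ : ZMod M) * z) := by
  have hM0 : 0 < M := Nat.pos_of_ne_zero (NeZero.ne M)
  have hD : 0 < D := by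
    rcases Nat.eq_zero_or_pos D with h | h
    · rw [h] at hM; omega
    · exact h
  set y₀ := z.val % D with hy₀
  have hy₀D : y₀ < D := Nat.mod_lt _ hD
  have hz : (ℓ : ZMod M) * z = (ℓ : ZMod M) * (y₀ : ZMod M) := by
    have h1 : z = (y₀ : ZMod M) + ((D * (z.val / D) : ℕ) : ZMod M) := by
      rw [← Nat.cast_add, hy₀, Nat.mod_add_div, ZMod.natCast_zmod_val]
    have h2 : (ℓ : ZMod M) * ((D * (z.val / D) : ℕ) : ZMod M) = 0 := by
      rw [mul_natCast_eq_zero hM hℓ]
      exact Dvd.intro _ rfl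
    conv_lhs => rw [h1, mul_add, h2, add_zero]
  have hfib : fib ℓ z = fib ℓ (y₀ : ZMod M) := by
    unfold fib
    rw [hz]
  rw [hfib, sum_fib hM hℓ, hz]
  have h1 : ∀ j ∈ range ℓ, q ((y₀ : ZMod M) + (j : ZMod M) * (D : ZMod M)) =
      2 * ((y₀ : ℤ) + j * D) - ℓ * D := by
    intro j hj
    rw [mem_range] at hj
    have h2 : (y₀ : ZMod M) + (j : ZMod M) * (D : ZMod M) = ((y₀ + j * D : ℕ) : ZMod M) := by
      push_cast; ring
    have h3 : y₀ + j * D < M := by
      have : (j + 1) * D ≤ ℓ * D := Nat.mul_le_mul_right D hj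
      rw [hM]
      calc y₀ + j * D < D + j * D := by omega
        _ = (j + 1) * D := by ring
        _ ≤ ℓ * D := this
    unfold q
    rw [h2, ZMod.val_natCast_of_lt h3]
    conv_lhs => rw [hM]
    push_cast
    ring
  rw [Finset.sum_congr rfl h1, sum_arith]
  have h4 : (ℓ : ZMod M) * (y₀ : ZMod M) = ((ℓ * y₀ : ℕ) : ZMod M) := by push_cast; ring
  have h5 : ℓ * y₀ < M := by
    rw [hM]
    exact Nat.mul_lt_mul_of_pos_left hy₀D hℓ
  unfold q
  rw [h4, ZMod.val_natCast_of_lt h5]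
  conv_rhs => rw [hM]
  push_cast
  ring

end Fibre

section DH

variable {M : ℕ} [NeZero M] {ℓ : ℕ}

omit [NeZero M] in
/-- the definition of `dhZ`, with natural numbers as summation variables -/
theorem dhZ_eq (ℓ : ℕ) (x : ZMod M) : dhZ M ℓ x =
    (Multiset.range ℓ).map (fun j : ℕ => x + (j : ZMod M) * ((M / ℓ : ℕ) : ZMod M)) +
      {-((ℓ : ZMod M) * x)} +
      (Multiset.range (ℓ - 1)).map
        fun j : ℕ => ((j + 1 : ℕ) : ZMod M) * ((M / ℓ : ℕ) : ZMod M) := by
  have h : (do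
      let a ← Multiset.range ℓ
      pure (a : ZMod M) : Multiset (ZMod M)) = (Multiset.range ℓ).map fun j : ℕ => (j : ZMod M) := by
    exact Multiset.bind_singleton _ _
  rw [dhZ, h, Multiset.map_map]
  rfl

theorem dh_bracket (hℓ : 0 < ℓ) (hdvd : ℓ ∣ M) {s x : ZMod M} (hs : IsUnit s)
    (hx : (ℓ : ZMod M) * x ≠ 0) :
    ∑ j ∈ range ℓ, q (s * (x + (j : ZMod M) * ((M / ℓ : ℕ) : ZMod M))) +
      q (s * (-((ℓ : ZMod M) * x))) +
      ∑ j ∈ range (ℓ - 1), q (s * (((j + 1 : ℕ) : ZMod M) * ((M / ℓ : ℕ) : ZMod M))) = 0 := by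
  have hM : M = ℓ * (M / ℓ) := (Nat.mul_div_cancel' hdvd).symm
  have h1 := sum_fib_unit hM hℓ q hs x
  rw [sum_q_fib hM hℓ] at h1
  have h2 := sum_fib_unit hM hℓ q hs 0
  rw [sum_q_fib hM hℓ, mul_zero, mul_zero] at h2
  obtain ⟨n, rfl⟩ : ∃ n, ℓ = n + 1 := ⟨ℓ - 1, by omega⟩
  rw [Finset.sum_range_succ'] at h2
  simp only [zero_add, Nat.cast_zero, zero_mul, mul_zero] at h2
  have h3 : ∑ j ∈ range n, q (s * (((j + 1 : ℕ) : ZMod M) *
      ((M / (n + 1) : ℕ) : ZMod M))) = 0 := by linarith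
  have h4 : s * (-(((n + 1 : ℕ) : ZMod M) * x)) = -(((n + 1 : ℕ) : ZMod M) * (s * x)) := by
    ring
  have h5 : ((n + 1 : ℕ) : ZMod M) * (s * x) ≠ 0 := by
    rw [mul_left_comm]
    exact unit_mul_ne hs hx
  rw [h1, h4, q_neg h5, Nat.add_sub_cancel, h3]
  ring

theorem dh_bal {p f : ℕ} (hf : 0 < f) (hp : (p : ZMod M) ^ f = 1) (hℓ : 0 < ℓ)
    (hdvd : ℓ ∣ M) {x : ZMod M} (hx : (ℓ : ZMod M) * x ≠ 0) : BalM M p f (dhZ M ℓ x) := by
  intro t
  rw [dhZ_eq, Multiset.map_add, Multiset.map_add, Multiset.sum_add, Multiset.sum_add,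
    Multiset.map_map, Multiset.map_map, Multiset.map_singleton, Multiset.sum_singleton]
  have e1 : ((Multiset.range ℓ).map ((fun x => saw M p f t x) ∘
      fun j : ℕ => x + (j : ZMod M) * ((M / ℓ : ℕ) : ZMod M))).sum =
      ∑ j ∈ range ℓ, saw M p f t (x + (j : ZMod M) * ((M / ℓ : ℕ) : ZMod M)) := rfl
  have e2 : ((Multiset.range (ℓ - 1)).map ((fun x => saw M p f t x) ∘
      fun j : ℕ => ((j + 1 : ℕ) : ZMod M) * ((M / ℓ : ℕ) : ZMod M))).sum =
      ∑ j ∈ range (ℓ - 1), saw M p f t (((j + 1 : ℕ) : ZMod M) * ((M / ℓ : ℕ) : ZMod M)) := rfl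
  rw [e1, e2]
  simp only [saw_eq]
  rw [Finset.sum_comm, Finset.sum_comm (s := range (ℓ - 1)), ← Finset.sum_add_distrib,
    ← Finset.sum_add_distrib]
  refine Finset.sum_eq_zero fun i _ => ?_
  exact dh_bracket hℓ hdvd (((isUnit_p hf hp).pow i).mul t.isUnit) hx

theorem dh_zero_notMem (hℓ : 0 < ℓ) (hdvd : ℓ ∣ M) {x : ZMod M} (hx : (ℓ : ZMod M) * x ≠ 0) :
    (0 : ZMod M) ∉ dhZ M ℓ x := by
  have hM : M = ℓ * (M / ℓ) := (Nat.mul_div_cancel' hdvd).symm
  have hM0 : 0 < M := Nat.pos_of_ne_zero (NeZero.ne M)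
  have hD : 0 < M / ℓ := Nat.div_pos (Nat.le_of_dvd hM0 hdvd) hℓ
  rw [dhZ_eq, Multiset.mem_add, Multiset.mem_add]
  rintro ((h | h) | h)
  · rw [Multiset.mem_map] at h
    obtain ⟨j, -, hj⟩ := h
    apply hx
    have h1 : (ℓ : ZMod M) * (x + (j : ZMod M) * ((M / ℓ : ℕ) : ZMod M)) = 0 := by
      rw [hj, mul_zero]
    have h2 : (ℓ : ZMod M) * ((j : ZMod M) * ((M / ℓ : ℕ) : ZMod M)) = 0 := by
      rw [← Nat.cast_mul, mul_natCast_eq_zero hM hℓ]
      exact Dvd.intro_left j rfl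
    rwa [mul_add, h2, add_zero] at h1
  · rw [Multiset.mem_singleton] at h
    exact hx (neg_eq_zero.1 h.symm)
  · rw [Multiset.mem_map] at h
    obtain ⟨j, hj, h0⟩ := h
    rw [Multiset.mem_range] at hj
    rw [← Nat.cast_mul, ZMod.natCast_eq_zero_iff] at h0
    have h1 : 0 < (j + 1) * (M / ℓ) := Nat.mul_pos (by omega) hD
    have h2 : (j + 1) * (M / ℓ) < M := by
      conv_rhs => rw [hM]
      exact Nat.mul_lt_mul_of_pos_right (by omega) hD
    exact absurd (Nat.le_of_dvd h1 h0) (by omega)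

omit [NeZero M] in
theorem dh_card (hℓ : 0 < ℓ) (x : ZMod M) : Multiset.card (dhZ M ℓ x) = 2 * ℓ := by
  rw [dhZ_eq, Multiset.card_add, Multiset.card_add, Multiset.card_map, Multiset.card_map,
    Multiset.card_range, Multiset.card_range, Multiset.card_singleton]
  omega

end DH

theorem atom_zero {M : ℕ} {A : Multiset (ZMod M)} (h : IsAtomZ A) : (0 : ZMod M) ∉ A := by
  rcases h with ⟨a, ha, rfl⟩ | ⟨a, b, c, ha, hb, hc, -, rfl⟩
  · rw [Multiset.mem_singleton]
    exact fun h => ha h.symm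
  · simp only [Multiset.insert_eq_cons, Multiset.mem_cons, Multiset.mem_singleton, not_or]
    exact ⟨fun h => ha h.symm, fun h => hb h.symm, fun h => hc h.symm⟩

theorem atom_card {M : ℕ} {A : Multiset (ZMod M)} (h : IsAtomZ A) : Odd (Multiset.card A) := by
  rcases h with ⟨a, ha, rfl⟩ | ⟨a, b, c, ha, hb, hc, -, rfl⟩
  · rw [Multiset.card_singleton]
    exact odd_one
  · simp only [Multiset.insert_eq_cons, Multiset.card_cons, Multiset.card_singleton]
    exact ⟨1, rfl⟩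

theorem pair_mem {M p f : ℕ} {x y : ZMod M} (hx : x ≠ 0) (hy : y ≠ 0)
    (h : ∀ t : (ZMod M)ˣ, saw M p f t x + saw M p f t y = 0) :
    Pi.single x 1 + Pi.single y 1 ∈ Sub M p f := by
  have h1 : ({x} + {y} : Multiset (ZMod M)) ∈ Gen M p f := by
    left
    refine ⟨{x}, {y}, Or.inl ⟨x, hx, rfl⟩, Or.inl ⟨y, hy, rfl⟩, rfl, fun t => ?_⟩
    rw [Multiset.map_add, Multiset.sum_add, Multiset.map_singleton, Multiset.map_singleton,
      Multiset.sum_singleton, Multiset.sum_singleton]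
    exact h t
  have h2 : cnt ({x} + {y} : Multiset (ZMod M)) ∈ Sub M p f :=
    AddSubgroup.subset_closure ⟨_, h1, rfl⟩
  rwa [cnt_add, cnt_singleton, cnt_singleton] at h2

end Basic

open Basic in
/-- C1 -/
theorem stBasic : StBasic := by
  intro M p f _ hM hf hp
  have hpu : IsUnit (p : ZMod M) := isUnit_p hf hp
  have h1 : ∀ x : ZMod M, x ≠ 0 → Pi.single x 1 + Pi.single (-x) 1 ∈ Sub M p f := by
    intro x hx
    refine pair_mem hx (neg_ne_zero.2 hx) fun t => ?_
    rw [saw_neg hf hp t.isUnit hx, add_neg_cancel]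
  refine ⟨h1, ?_, ?_, ?_, ?_⟩
  · intro x hx
    have h2 : Pi.single ((p : ZMod M) * x) 1 + Pi.single (-x) 1 ∈ Sub M p f := by
      refine pair_mem (unit_mul_ne hpu hx) (neg_ne_zero.2 hx) fun t => ?_
      rw [saw_neg hf hp t.isUnit hx, saw_p hp, add_neg_cancel]
    have h3 := (Sub M p f).sub_mem h2 (h1 x hx)
    rwa [add_sub_add_right_eq_sub] at h3
  · intro x y hx hy hx' hy'
    exact pair_mem hx hy fun t => by rw [hx' t, hy' t, add_zero]
  · intro t x ht hx
    exact saw_neg hf hp ht hx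
  · intro v hv
    induction hv using AddSubgroup.closure_induction with
    | mem v hv =>
      obtain ⟨s, hs, rfl⟩ := hv
      rcases hs with ⟨A, B, hA, hB, rfl, hbal⟩ | ⟨ℓ, x, hℓ, hdvd, hx, rfl⟩
      · refine ⟨cnt_apply_zero ?_, ?_, fun t => ?_⟩
        · rw [Multiset.mem_add, not_or]
          exact ⟨atom_zero hA, atom_zero hB⟩
        · rw [sum_cnt, Multiset.card_add]
          exact_mod_cast (atom_card hA).add_odd (atom_card hB)
        · rw [sum_cnt_mul]
          exact hbal t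
      · refine ⟨cnt_apply_zero (dh_zero_notMem hℓ.pos hdvd hx), ?_, fun t => ?_⟩
        · rw [sum_cnt, dh_card hℓ.pos]
          push_cast
          exact even_two_mul _
        · rw [sum_cnt_mul]
          exact dh_bal hf hp hℓ.pos hdvd hx t
    | zero => simp
    | add v w _ _ hv hw =>
      refine ⟨?_, ?_, fun t => ?_⟩
      · rw [Pi.add_apply, hv.1, hw.1, add_zero]
      · simp only [Pi.add_apply, Finset.sum_add_distrib]
        exact hv.2.1.add hw.2.1
      · simp only [Pi.add_apply, add_mul, Finset.sum_add_distrib]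
        rw [hv.2.2 t, hw.2.2 t, add_zero]
    | neg v _ hv =>
      refine ⟨?_, ?_, fun t => ?_⟩
      · rw [Pi.neg_apply, hv.1, neg_zero]
      · simp only [Pi.neg_apply, Finset.sum_neg_distrib]
        exact hv.2.1.neg
      · simp only [Pi.neg_apply, neg_mul, Finset.sum_neg_distrib]
        rw [hv.2.2 t, neg_zero]

end Pool.Agent.Lib.MP81632f.Diag
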