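import Pool.Agent.Lib.MP_81632f_ag.Diag.Stmts

/-!
# Tate sets of Gauss sums: E3, closure
-/

set_option autoImplicit false
set_option linter.unusedSectionVars false

noncomputable section

namespace Pool.Agent.Lib.MP81632f.Diag

namespace Close

variable {F : Type} [Field F] [Fintype F] {M : ℕ} [NeZero M]

/-- the character attached to an element of `ZMod M` -/
def Ph (θ : MulChar F ℂ) (x : ZMod M) : MulChar F ℂ := θ ^ x.val

lemma ph_natCast (θ : MulChar F ℂ) (h : orderOf θ = M) (n : ℕ) :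
    Ph (M := M) θ (n : ZMod M) = θ ^ n := by
  unfold Ph
  rw [ZMod.val_natCast, ← h, pow_mod_orderOf]

lemma ph_zero (θ : MulChar F ℂ) : Ph (M := M) θ 0 = 1 := by
  unfold Ph
  rw [ZMod.val_zero, pow_zero]

lemma ph_add (θ : MulChar F ℂ) (h : orderOf θ = M) (x y : ZMod M) :
    Ph θ (x + y) = Ph θ x * Ph θ y := by
  have h1 : x + y = ((x.val + y.val : ℕ) : ZMod M) := by
    rw [Nat.cast_add, ZMod.natCast_zmod_val, ZMod.natCast_zmod_val]
  rw [h1, ph_natCast θ h, pow_add]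
  rfl

lemma ph_neg (θ : MulChar F ℂ) (h : orderOf θ = M) (x : ZMod M) :
    Ph θ (-x) = (Ph θ x)⁻¹ := by
  have h1 := ph_add θ h x (-x)
  rw [add_neg_cancel, ph_zero] at h1
  exact (inv_eq_of_mul_eq_one_right h1.symm).symm

lemma ph_nmul (θ : MulChar F ℂ) (h : orderOf θ = M) (n : ℕ) (x : ZMod M) :
    Ph θ ((n : ZMod M) * x) = Ph θ x ^ n := by
  induction n with
  | zero => rw [Nat.cast_zero, zero_mul, ph_zero, pow_zero]
  | succ n ih => rw [Nat.cast_succ, add_mul, one_mul, ph_add θ h, ih, pow_succ]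

lemma ph_ne_one (θ : MulChar F ℂ) (h : orderOf θ = M) {x : ZMod M} (hx : x ≠ 0) :
    Ph θ x ≠ 1 := by
  intro h1
  have h2 : orderOf θ ∣ x.val := orderOf_dvd_of_pow_eq_one h1
  rw [h] at h2
  have h3 : x.val < M := ZMod.val_lt x
  have h4 : x.val = 0 := Nat.eq_zero_of_dvd_of_lt h2 h3
  exact hx ((ZMod.val_eq_zero x).mp h4)

/-- the multiset of characters -/
def Th (θ : MulChar F ℂ) (X : Multiset (ZMod M)) : Multiset (MulChar F ℂ) := X.map (Ph θ)

/-- the negative of a multiset -/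
def Ng (X : Multiset (ZMod M)) : Multiset (ZMod M) := X.map fun x => -x

lemma th_add (θ : MulChar F ℂ) (X Y : Multiset (ZMod M)) : Th θ (X + Y) = Th θ X + Th θ Y :=
  Multiset.map_add _ _ _

lemma ng_add (X Y : Multiset (ZMod M)) : Ng (X + Y) = Ng X + Ng Y :=
  Multiset.map_add _ _ _

omit [NeZero M] in
lemma zero_notMem_ng {X : Multiset (ZMod M)} (h : (0 : ZMod M) ∉ X) :
    (0 : ZMod M) ∉ Ng X := by
  intro h1
  obtain ⟨x, hx, hx0⟩ := Multiset.mem_map.mp h1
  have : x = 0 := by simpa using hx0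
  exact h (this ▸ hx)

omit [NeZero M] in
lemma atom_zero {A : Multiset (ZMod M)} (h : IsAtomZ A) : (0 : ZMod M) ∉ A := by
  rcases h with ⟨a, ha, rfl⟩ | ⟨a, b, c, ha, hb, hc, -, rfl⟩
  · intro h
    exact ha (Multiset.mem_singleton.mp h).symm
  · intro h
    simp only [Multiset.insert_eq_cons, Multiset.mem_cons, Multiset.mem_singleton] at h
    rcases h with h | h | h
    · exact ha h.symm
    · exact hb h.symm
    · exact hc h.symm

omit [NeZero M] in
lemma atom_ng {A : Multiset (ZMod M)} (h : IsAtomZ A) : IsAtomZ (Ng A) := by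
  rcases h with ⟨a, ha, rfl⟩ | ⟨a, b, c, ha, hb, hc, h0, rfl⟩
  · exact Or.inl ⟨-a, neg_ne_zero.mpr ha, rfl⟩
  · refine Or.inr ⟨-a, -b, -c, neg_ne_zero.mpr ha, neg_ne_zero.mpr hb, neg_ne_zero.mpr hc, ?_, rfl⟩
    have : -a + -b + -c = -(a + b + c) := by ring
    rw [this, h0, neg_zero]

lemma atom_th (θ : MulChar F ℂ) (h : orderOf θ = M) {A : Multiset (ZMod M)} (hA : IsAtomZ A) :
    IsAtom (Th θ A) := by
  rcases hA with ⟨a, ha, rfl⟩ | ⟨a, b, c, ha, hb, hc, h0, rfl⟩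
  · exact Or.inl ⟨Ph θ a, rfl⟩
  · refine Or.inr ⟨Ph θ a, Ph θ b, Ph θ c, rfl, ?_⟩
    rw [← ph_add θ h, ← ph_add θ h, h0, ph_zero]

lemma saw_neg (p f : ℕ) (t x : ZMod M) : saw M p f t (-x) = saw M p f (-t) x := by
  unfold saw
  refine Finset.sum_congr rfl fun j _ => ?_
  have : (p : ZMod M) ^ j * t * -x = (p : ZMod M) ^ j * -t * x := by ring
  rw [this]

lemma bal_ng (p f : ℕ) {X : Multiset (ZMod M)} (h : BalM M p f X) : BalM M p f (Ng X) := by
  intro t
  have h1 := h (-t)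
  unfold Ng
  rw [Multiset.map_map]
  rw [← h1]
  congr 1
  refine Multiset.map_congr rfl fun x _ => ?_
  simp only [Function.comp_apply, Units.val_neg]
  exact saw_neg p f t x

omit [NeZero M] in
/-- `dhZ` without the monadic coercion of `Multiset.range ℓ` -/
lemma dhZ_eq (ℓ : ℕ) (x : ZMod M) : dhZ M ℓ x =
    (Multiset.range ℓ).map (fun j : ℕ => x + (j : ZMod M) * ((M / ℓ : ℕ) : ZMod M)) +
      {-((ℓ : ZMod M) * x)} +
      (Multiset.range (ℓ - 1)).map (fun j : ℕ => ((j + 1 : ℕ) : ZMod M) * ((M / ℓ : ℕ) : ZMod M)) := by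
  unfold dhZ
  congr 2
  simp only [Multiset.bind_def, Multiset.pure_def, Multiset.bind_singleton, Multiset.map_map,
    Function.comp_def]

lemma th_dh (θ : MulChar F ℂ) (h : orderOf θ = M) (ℓ : ℕ) (x : ZMod M) :
    Th θ (dhZ M ℓ x) = dhSet ℓ (θ ^ (M / ℓ)) (Ph θ x) := by
  rw [dhZ_eq]
  unfold dhSet
  rw [th_add, th_add]
  unfold Th
  rw [Multiset.map_map, Multiset.map_map, Multiset.map_singleton]
  congr 1
  · congr 1
    · refine Multiset.map_congr rfl fun j _ => ?_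
      simp only [Function.comp_apply]
      rw [ph_add θ h, ph_nmul θ h, ph_natCast θ h]
    · rw [ph_neg θ h, ph_nmul θ h]
  · refine Multiset.map_congr rfl fun j _ => ?_
    simp only [Function.comp_apply]
    rw [ph_nmul θ h, ph_natCast θ h]

lemma th_ng_dh (θ : MulChar F ℂ) (h : orderOf θ = M) (ℓ : ℕ) (x : ZMod M) :
    Th θ (Ng (dhZ M ℓ x)) = dhSet ℓ (θ ^ (M / ℓ))⁻¹ (Ph θ x)⁻¹ := by
  rw [dhZ_eq]
  unfold dhSet
  rw [ng_add, ng_add, th_add, th_add]
  unfold Th Ng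
  simp only [Multiset.map_map, Multiset.map_singleton]
  congr 1
  · congr 1
    · refine Multiset.map_congr rfl fun j _ => ?_
      simp only [Function.comp_apply]
      rw [ph_neg θ h, ph_add θ h, ph_nmul θ h, ph_natCast θ h, mul_inv, inv_pow]
    · rw [neg_neg, ph_nmul θ h, inv_pow, inv_inv]
  · refine Multiset.map_congr rfl fun j _ => ?_
    simp only [Function.comp_apply]
    rw [ph_neg θ h, ph_nmul θ h, ph_natCast θ h, inv_pow]

lemma dh_zero (ℓ : ℕ) (hℓ : ℓ.Prime) (hd : ℓ ∣ M) (x : ZMod M) (hx : (ℓ : ZMod M) * x ≠ 0) :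
    (0 : ZMod M) ∉ dhZ M ℓ x := by
  have hM : 0 < M := Nat.pos_of_ne_zero (NeZero.ne M)
  have h1 : (ℓ : ZMod M) * ((M / ℓ : ℕ) : ZMod M) = 0 := by
    rw [← Nat.cast_mul, Nat.mul_div_cancel' hd, ZMod.natCast_self]
  intro h
  rw [dhZ_eq, Multiset.mem_add, Multiset.mem_add] at h
  rcases h with (h | h) | h
  · obtain ⟨j, -, hj⟩ := Multiset.mem_map.mp h
    apply hx
    have h2 : (ℓ : ZMod M) * (x + (j : ZMod M) * ((M / ℓ : ℕ) : ZMod M)) = 0 := by
      rw [hj, mul_zero]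
    have h3 : (ℓ : ZMod M) * (x + (j : ZMod M) * ((M / ℓ : ℕ) : ZMod M)) =
        (ℓ : ZMod M) * x + (j : ZMod M) * ((ℓ : ZMod M) * ((M / ℓ : ℕ) : ZMod M)) := by ring
    rw [h3, h1, mul_zero, add_zero] at h2
    exact h2
  · have := Multiset.mem_singleton.mp h
    exact hx (neg_eq_zero.mp this.symm)
  · obtain ⟨j, hj, hj0⟩ := Multiset.mem_map.mp h
    have hj1 : j < ℓ - 1 := Multiset.mem_range.mp hj
    rw [← Nat.cast_mul, ZMod.natCast_eq_zero_iff] at hj0
    have h2 : (j + 1) * (M / ℓ) < M := by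
      calc (j + 1) * (M / ℓ) < ℓ * (M / ℓ) := by
            apply Nat.mul_lt_mul_of_pos_right (by omega)
            exact Nat.div_pos (Nat.le_of_dvd hM hd) hℓ.pos
        _ = M := Nat.mul_div_cancel' hd
    have h3 : 0 < (j + 1) * (M / ℓ) :=
      Nat.mul_pos (Nat.succ_pos _) (Nat.div_pos (Nat.le_of_dvd hM hd) hℓ.pos)
    exact absurd (Nat.le_of_dvd h3 hj0) (by omega)

lemma dh_order (θ : MulChar F ℂ) (h : orderOf θ = M) (ℓ : ℕ) (hℓ : ℓ.Prime) (hd : ℓ ∣ M) :
    orderOf (θ ^ (M / ℓ)) = ℓ := by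
  have hM : 0 < M := Nat.pos_of_ne_zero (NeZero.ne M)
  have h1 : M / ℓ ≠ 0 := (Nat.div_pos (Nat.le_of_dvd hM hd) hℓ.pos).ne'
  have h2 : M / ℓ ∣ orderOf θ := by rw [h]; exact Nat.div_dvd_of_dvd hd
  rw [orderOf_pow_of_dvd h1 h2, h]
  exact Nat.div_div_self hd hM.ne'

/-- the induction hypothesis -/
def Good (θ : MulChar F ℂ) (𝒜 : Set (Multiset (MulChar F ℂ))) (v : ZMod M → ℤ) : Prop :=
  ∃ S T : Multiset (ZMod M), (0 : ZMod M) ∉ S ∧ (0 : ZMod M) ∉ T ∧ v = cnt S - cnt T ∧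
    Th θ S ∈ 𝒜 ∧ Th θ (Ng S) ∈ 𝒜 ∧ Th θ T ∈ 𝒜 ∧ Th θ (Ng T) ∈ 𝒜

omit [NeZero M] in
lemma cnt_add (S T : Multiset (ZMod M)) : cnt (S + T) = cnt S + cnt T := by
  funext x
  simp only [cnt, Pi.add_apply, Multiset.count_add, Nat.cast_add]

lemma remove_all (θ : MulChar F ℂ) (h : orderOf θ = M) (ψ : AddChar F ℂ)
    (𝒜 : Set (Multiset (MulChar F ℂ))) (h𝒜 : IsCycleFamily ψ 𝒜) (T : Multiset (ZMod M)) :
    (0 : ZMod M) ∉ T → ∀ s, s + (Th θ T + Th θ (Ng T)) ∈ 𝒜 → s ∈ 𝒜 := by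
  induction T using Multiset.induction_on with
  | empty =>
    intro _ s hs
    simpa [Th, Ng] using hs
  | cons y T ih =>
    intro h0 s hs
    have hy : y ≠ 0 := fun h1 => h0 (h1 ▸ Multiset.mem_cons_self y T)
    have hT : (0 : ZMod M) ∉ T := fun h1 => h0 (Multiset.mem_cons_of_mem h1)
    apply ih hT s
    apply h𝒜.remove _ (Ph θ y) (ph_ne_one θ h hy)
    have h1 : s + (Th θ T + Th θ (Ng T)) + {Ph θ y, (Ph θ y)⁻¹} =
        s + (Th θ (y ::ₘ T) + Th θ (Ng (y ::ₘ T))) := by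
      have e1 : Th θ (y ::ₘ T) = {Ph θ y} + Th θ T := by
        unfold Th; rw [Multiset.map_cons, Multiset.singleton_add]
      have e2 : Th θ (Ng (y ::ₘ T)) = {(Ph θ y)⁻¹} + Th θ (Ng T) := by
        unfold Th Ng; rw [Multiset.map_cons, Multiset.map_cons, Multiset.singleton_add, ph_neg θ h]
      have e3 : ({Ph θ y, (Ph θ y)⁻¹} : Multiset (MulChar F ℂ)) = {Ph θ y} + {(Ph θ y)⁻¹} := rfl
      rw [e1, e2, e3]
      abel
    rw [h1]
    exact hs

end Close

open Close in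
/-- E3 -/
theorem stClose (hK : StKron) : StClose := by
  intro p _ F _ _ _ f hcard M _ θ hθ ψ hψ 𝒜 h𝒜 X hX hXS
  have key : ∀ v ∈ Sub M p f, Good θ 𝒜 v := by
    intro v hv
    unfold Sub at hv
    induction hv using AddSubgroup.closure_induction with
    | mem v hv =>
      obtain ⟨s, hs, rfl⟩ := hv
      have h1 : (0 : ZMod M) ∉ s ∧ Th θ s ∈ 𝒜 ∧ Th θ (Ng s) ∈ 𝒜 := by
        rcases hs with ⟨A, B, hA, hB, rfl, hbal⟩ | ⟨ℓ, x, hℓ, hd, hx, rfl⟩
        · have h0 : (0 : ZMod M) ∉ A + B := by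
            intro h
            rcases Multiset.mem_add.mp h with h | h
            · exact atom_zero hA h
            · exact atom_zero hB h
          refine ⟨h0, ?_, ?_⟩
          · have ht : IsTateSet ψ (Th θ (A + B)) := hK p F f hcard M θ hθ ψ hψ _ h0 hbal
            rw [th_add] at ht ⊢
            exact h𝒜.atoms _ _ (atom_th θ hθ hA) (atom_th θ hθ hB) ht
          · have ht : IsTateSet ψ (Th θ (Ng (A + B))) :=
              hK p F f hcard M θ hθ ψ hψ _ (zero_notMem_ng h0) (bal_ng p f hbal)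
            rw [ng_add, th_add] at ht ⊢
            exact h𝒜.atoms _ _ (atom_th θ hθ (atom_ng hA)) (atom_th θ hθ (atom_ng hB)) ht
        · have hx1 : Ph θ x ^ ℓ ≠ 1 := by
            rw [← ph_nmul θ hθ]
            exact ph_ne_one θ hθ hx
          refine ⟨dh_zero ℓ hℓ hd x hx, ?_, ?_⟩
          · rw [th_dh θ hθ]
            exact h𝒜.dh ℓ _ _ hℓ (dh_order θ hθ ℓ hℓ hd) hx1
          · rw [th_ng_dh θ hθ]
            refine h𝒜.dh ℓ _ _ hℓ ?_ ?_
            · rw [orderOf_inv]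
              exact dh_order θ hθ ℓ hℓ hd
            · rw [inv_pow]
              exact inv_ne_one.mpr hx1
      refine ⟨s, 0, h1.1, Multiset.notMem_zero _, ?_, h1.2.1, h1.2.2, ?_, ?_⟩
      · have : cnt (0 : Multiset (ZMod M)) = 0 := by
          funext x
          simp [cnt]
        rw [this, sub_zero]
      · have := h𝒜.zero
        simpa [Th] using this
      · have := h𝒜.zero
        simpa [Th, Ng] using this
    | zero =>
      refine ⟨0, 0, Multiset.notMem_zero _, Multiset.notMem_zero _, (sub_self _).symm, ?_, ?_, ?_, ?_⟩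
      all_goals
        have := h𝒜.zero
        simpa [Th, Ng] using this
    | add v w _ _ hv hw =>
      obtain ⟨S, T, hS, hT, rfl, a1, a2, a3, a4⟩ := hv
      obtain ⟨S', T', hS', hT', rfl, b1, b2, b3, b4⟩ := hw
      refine ⟨S + S', T + T', ?_, ?_, ?_, ?_, ?_, ?_, ?_⟩
      · intro h
        rcases Multiset.mem_add.mp h with h | h
        · exact hS h
        · exact hS' h
      · intro h
        rcases Multiset.mem_add.mp h with h | h
        · exact hT h
        · exact hT' h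
      · rw [cnt_add, cnt_add]; abel
      · rw [th_add]; exact h𝒜.add _ a1 _ b1
      · rw [ng_add, th_add]; exact h𝒜.add _ a2 _ b2
      · rw [th_add]; exact h𝒜.add _ a3 _ b3
      · rw [ng_add, th_add]; exact h𝒜.add _ a4 _ b4
    | neg v _ hv =>
      obtain ⟨S, T, hS, hT, rfl, a1, a2, a3, a4⟩ := hv
      exact ⟨T, S, hT, hS, neg_sub _ _, a3, a4, a1, a2⟩
  obtain ⟨S, T, hS, hT, hv, a1, a2, a3, a4⟩ := key _ hXS
  have hXT : X + T = S := by
    ext x
    have h1 := congrFun hv x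
    simp only [cnt, Pi.sub_apply] at h1
    rw [Multiset.count_add]
    have h2 : (X.count x : ℤ) + T.count x = S.count x := by rw [h1]; ring
    exact_mod_cast h2
  have hfin : Th θ X ∈ 𝒜 := by
    apply remove_all θ hθ ψ 𝒜 h𝒜 T hT
    rw [← add_assoc, ← th_add, hXT]
    exact h𝒜.add _ a1 _ a4
  exact hfin

end Pool.Agent.Lib.MP81632f.Diag
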