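import Pool.Agent.Lib.MP_81632f_ag.Diag.CompDefs
import Pool.Agent.Lib.MP_81632f_ag.Diag.Basic

/-!
# Composite degrees: the tables of the checker
-/

set_option autoImplicit false

namespace Pool.Agent.Lib.MP81632f.Diag.Comp

open Finset

/-- the relation between the prime `p` and the generator `u` of the subgroup generated by `p` -/
structure Setup (M p f u k : ℕ) : Prop where
  hM : 1 < M
  hf : 0 < f
  hpf : (p : ZMod M) ^ f = 1
  hk : 0 < k
  huk : (u : ZMod M) ^ k = 1
  hpu : ∃ i : ℕ, (p : ZMod M) = (u : ZMod M) ^ i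
  hup : ∃ i : ℕ, (u : ZMod M) = (p : ZMod M) ^ i

theorem sum_shift {R : Type*} [Monoid R] (g : R) (n : ℕ) (hg : g ^ n = 1) (F : R → ℤ) (c : ℕ) :
    ∑ b ∈ range n, F (g ^ (b + c)) = ∑ b ∈ range n, F (g ^ b) := by
  induction c with
  | zero => rfl
  | succ c ih =>
    rw [← ih]
    have h1 := Finset.sum_range_succ (fun b => F (g ^ (b + c))) n
    have h2 := Finset.sum_range_succ' (fun b => F (g ^ (b + c))) n
    have h3 : F (g ^ (n + c)) = F (g ^ (0 + c)) := by rw [pow_add, hg, one_mul, zero_add]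
    rw [h1, h3] at h2
    have h4 := add_right_cancel h2
    rw [h4]
    refine Finset.sum_congr rfl fun b _ => ?_
    rw [show b + (c + 1) = b + 1 + c by ring]

theorem double_sum {R : Type*} [CommMonoid R] (g h : R) (n k : ℕ) (hg : g ^ n = 1) (hh : h ^ k = 1)
    (i j : ℕ) (hi : g = h ^ i) (hj : h = g ^ j) (F : R → ℤ) :
    (k : ℤ) * ∑ b ∈ range n, F (g ^ b) = n * ∑ a ∈ range k, F (h ^ a) := by
  have h1 : ∑ a ∈ range k, ∑ b ∈ range n, F (g ^ b * h ^ a) = k * ∑ b ∈ range n, F (g ^ b) := by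
    have : ∀ a ∈ range k, ∑ b ∈ range n, F (g ^ b * h ^ a) = ∑ b ∈ range n, F (g ^ b) := by
      intro a _
      rw [← sum_shift g n hg F (j * a)]
      refine Finset.sum_congr rfl fun b _ => ?_
      rw [pow_add, pow_mul, ← hj]
    rw [Finset.sum_congr rfl this, Finset.sum_const, Finset.card_range, nsmul_eq_mul]
  have h2 : ∑ b ∈ range n, ∑ a ∈ range k, F (g ^ b * h ^ a) = n * ∑ a ∈ range k, F (h ^ a) := by
    have : ∀ b ∈ range n, ∑ a ∈ range k, F (g ^ b * h ^ a) = ∑ a ∈ range k, F (h ^ a) := by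
      intro b _
      rw [← sum_shift h k hh F (i * b)]
      refine Finset.sum_congr rfl fun a _ => ?_
      rw [pow_add, pow_mul, ← hi, mul_comm]
    rw [Finset.sum_congr rfl this, Finset.sum_const, Finset.card_range, nsmul_eq_mul]
  rw [← h1, ← h2, Finset.sum_comm]

theorem isPw_spec {M u : ℕ} (hM : 0 < M) : ∀ (k a : ℕ) (l : List ℕ), isPw M u k a l = true → a < M →
    l.map (fun h : ℕ => (h : ZMod M)) =
      (List.range k).map (fun j : ℕ => (a : ZMod M) * (u : ZMod M) ^ j) ∧
    (a : ZMod M) * (u : ZMod M) ^ k = 1 ∧ (∀ h ∈ l, h < M) ∧ l.length = k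
  | 0, a, [], h, _ => by
      have h' : Nat.beq a 1 = true := h
      have : a = 1 := Nat.eq_of_beq_eq_true h'
      subst this
      refine ⟨rfl, by simp, by simp, rfl⟩
  | 0, a, b :: l, h, _ => by
      exact absurd h (by simp [isPw])
  | k + 1, a, [], h, _ => by
      exact absurd h (by simp [isPw])
  | k + 1, a, b :: l, h, ha => by
      have h' : (Nat.beq a b && isPw M u k (a * u % M) l) = true := h
      rw [Bool.and_eq_true] at h'
      have h1 : a = b := Nat.eq_of_beq_eq_true h'.1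
      subst h1
      obtain ⟨i1, i2, i3, i4⟩ := isPw_spec hM k _ l h'.2 (Nat.mod_lt _ hM)
      have hc : ((a * u % M : ℕ) : ZMod M) = (a : ZMod M) * u := by
        rw [ZMod.natCast_mod, Nat.cast_mul]
      refine ⟨?_, ?_, ?_, ?_⟩
      · rw [List.map_cons, i1, List.range_succ_eq_map, List.map_cons, List.map_map, pow_zero, mul_one]
        congr 1
        refine List.map_congr_left fun j _ => ?_
        show _ = (a : ZMod M) * (u : ZMod M) ^ (j + 1)
        rw [hc, pow_succ']
        ring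
      · rw [← i2, hc, pow_succ']
        ring
      · intro h hh
        rcases List.mem_cons.mp hh with rfl | hh
        · exact ha
        · exact i3 h hh
      · rw [List.length_cons, i4]

theorem tv_spec {M : ℕ} [NeZero M] (y : ℕ) : ∀ l : List ℕ, (tv M y l : ℤ) =
    ((l.map (fun h : ℕ => (h : ZMod M))).map
      (fun h : ZMod M => ((h * (y : ZMod M)).val : ℤ))).sum
  | [] => rfl
  | h :: l => by
      rw [List.map_cons, List.map_cons, List.sum_cons, ← tv_spec y l]
      show ((h * y % M + tv M y l : ℕ) : ℤ) = _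
      rw [← Nat.cast_mul, ZMod.val_natCast, Nat.cast_add]

theorem tv_le (M y : ℕ) (hM : 0 < M) : ∀ l : List ℕ, tv M y l ≤ l.length * M
  | [] => by simp [tv]
  | h :: l => by
      have h1 := tv_le M y hM l
      have h2 := (Nat.mod_lt (h * y) hM).le
      show h * y % M + tv M y l ≤ (l.length + 1) * M
      rw [add_mul, one_mul]
      omega

theorem look_packL : ∀ (l : List ℕ) (j : ℕ), (∀ h ∈ l, h < 1048576) →
    look (packL l) j = 0 ∨ look (packL l) j ∈ l
  | [], j, _ => by
      left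
      show (0 >>> (20 * j)) % 1048576 = 0
      rw [Nat.zero_shiftRight]
  | h :: l, 0, hl => by
      right
      have e : look (packL (h :: l)) 0 = h := by
        show ((h % 1048576 + 1048576 * packL l) >>> (20 * 0)) % 1048576 = _
        rw [mul_zero, Nat.shiftRight_zero, Nat.add_mul_mod_self_left, Nat.mod_mod,
          Nat.mod_eq_of_lt (hl h List.mem_cons_self)]
      rw [e]
      exact List.mem_cons_self
  | h :: l, j + 1, hl => by
      have ih := look_packL l j fun h' hh => hl h' (List.mem_cons_of_mem _ hh)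
      have e : look (packL (h :: l)) (j + 1) = look (packL l) j := by
        show ((h % 1048576 + 1048576 * packL l) >>> (20 * (j + 1))) % 1048576 =
          (packL l >>> (20 * j)) % 1048576
        rw [Nat.shiftRight_eq_div_pow, Nat.shiftRight_eq_div_pow,
          show 2 ^ (20 * (j + 1)) = 1048576 * 2 ^ (20 * j) by
            rw [mul_add, pow_add]; norm_num [mul_comm],
          ← Nat.div_div_eq_div_mul, Nat.add_mul_div_left _ _ (by norm_num),
          Nat.div_eq_of_lt (Nat.mod_lt _ (by norm_num)), zero_add]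
      rw [e]
      rcases ih with h1 | h1
      · exact Or.inl h1
      · exact Or.inr (List.mem_cons_of_mem _ h1)

theorem force_eq {α : Type} (T : ℕ) (g : ℕ → α) : force T g = g T := by
  cases T <;> rfl

theorem sum_list_range (g : ℕ → ℤ) (k : ℕ) :
    ((List.range k).map g).sum = ∑ i ∈ range k, g i := by
  induction k with
  | zero => rfl
  | succ n ih =>
    rw [List.range_succ, List.map_append, List.sum_append, ih, Finset.sum_range_succ]
    simp

section

variable {M p f u k : ℕ} [NeZero M]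

omit [NeZero M] in
theorem Setup.pow_k (S : Setup M p f u k) : (p : ZMod M) ^ k = 1 := by
  obtain ⟨i, hi⟩ := S.hpu
  rw [hi, ← pow_mul, mul_comm, pow_mul, S.huk, one_pow]

omit [NeZero M] in
theorem Setup.mem_pw (S : Setup M p f u k) {pw : List ℕ} (hpw : isPw M u k 1 pw = true) :
    ∀ h ∈ pw, ∃ j : ℕ, (h : ZMod M) = (p : ZMod M) ^ j := by
  intro h hh
  obtain ⟨i1, -, -, -⟩ := isPw_spec (Nat.lt_trans Nat.zero_lt_one S.hM) k 1 pw hpw S.hM
  have h1 : (h : ZMod M) ∈ pw.map (fun h : ℕ => (h : ZMod M)) := List.mem_map.mpr ⟨h, hh, rfl⟩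
  rw [i1, List.mem_map] at h1
  obtain ⟨j, -, hj⟩ := h1
  obtain ⟨i, hi⟩ := S.hup
  refine ⟨i * j, ?_⟩
  rw [← hj, Nat.cast_one, one_mul, hi, pow_mul]

theorem Setup.saw_eq (S : Setup M p f u k) {pw : List ℕ} (hpw : isPw M u k 1 pw = true)
    (t x : ZMod M) : (k : ℤ) * saw M p f t x = f * (2 * (tv M (t * x).val pw : ℤ) - k * M) := by
  obtain ⟨i, hi⟩ := S.hpu
  obtain ⟨j, hj⟩ := S.hup
  obtain ⟨i1, -, -, -⟩ := isPw_spec (Nat.lt_trans Nat.zero_lt_one S.hM) k 1 pw hpw S.hM
  have h1 := double_sum (p : ZMod M) (u : ZMod M) f k S.hpf S.huk i j hi hj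
    (fun g => 2 * ((g * t * x).val : ℤ) - (M : ℤ))
  have h2 : saw M p f t x = ∑ b ∈ range f, (2 * ((((p : ZMod M) ^ b) * t * x).val : ℤ) - (M : ℤ)) :=
    rfl
  rw [h2, h1, tv_spec, i1, List.map_map]
  congr 1
  rw [Finset.sum_sub_distrib, Finset.sum_const, Finset.card_range, nsmul_eq_mul, ← Finset.mul_sum]
  congr 2
  rw [sum_list_range]
  refine Finset.sum_congr rfl fun a _ => ?_
  show _ = ((((1 : ℕ) : ZMod M) * (u : ZMod M) ^ a * (((t * x).val : ℕ) : ZMod M)).val : ℤ)
  rw [Nat.cast_one, one_mul, ZMod.natCast_zmod_val, mul_assoc]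

omit [NeZero M] in
theorem Setup.notNeg (S : Setup M p f u k) {pw : List ℕ} (hpw : isPw M u k 1 pw = true)
    (hn : Comp.notNeg M pw = true) (P : (ZMod M)ˣ) (hP : (P : ZMod M) = p) :
    (-1 : (ZMod M)ˣ) ∉ Subgroup.zpowers P := by
  intro hmem
  have hM := S.hM
  obtain ⟨i1, -, i3, -⟩ := isPw_spec (Nat.lt_trans Nat.zero_lt_one S.hM) k 1 pw hpw S.hM
  rw [← mem_powers_iff_mem_zpowers] at hmem
  obtain ⟨n, hn'⟩ := hmem
  obtain ⟨i, hi⟩ := S.hpu
  have h1 : (-1 : ZMod M) = (u : ZMod M) ^ (i * n % k) := by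
    have e1 : (-1 : ZMod M) = (p : ZMod M) ^ n := by
      have := congrArg (fun g : (ZMod M)ˣ => (g : ZMod M)) hn'
      simp only [Units.val_pow_eq_pow_val, Units.val_neg, Units.val_one] at this
      rw [← this, hP]
    rw [e1, hi, ← pow_mul]
    conv_lhs => rw [← Nat.div_add_mod (i * n) k]
    rw [pow_add, pow_mul, S.huk, one_pow, one_mul]
  have h2 : (-1 : ZMod M) ∈ pw.map (fun h : ℕ => (h : ZMod M)) := by
    rw [i1, List.mem_map]
    exact ⟨i * n % k, List.mem_range.mpr (Nat.mod_lt _ S.hk), by rw [h1, Nat.cast_one, one_mul]⟩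
  obtain ⟨h, hh, hh1⟩ := List.mem_map.mp h2
  have h3 : h = M - 1 := by
    have h4 : ((h + 1 : ℕ) : ZMod M) = 0 := by
      rw [Nat.cast_add, hh1, Nat.cast_one]
      ring
    rw [ZMod.natCast_eq_zero_iff] at h4
    have h5 := i3 h hh
    have h6 := Nat.le_of_dvd (Nat.succ_pos h) h4
    omega
  have h7 : ∀ l : List ℕ, Comp.notNeg M l = true → ∀ h ∈ l, h ≠ M - 1 := by
    intro l
    induction l with
    | nil => intro _ h hh; exact absurd hh List.not_mem_nil
    | cons a l ih =>
      intro hl h hh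
      have hl' : (!(Nat.beq a (M - 1)) && Comp.notNeg M l) = true := hl
      rw [Bool.and_eq_true] at hl'
      rcases List.mem_cons.mp hh with rfl | hh
      · intro heq
        rw [heq, Nat.beq_refl] at hl'
        exact absurd hl'.1 (by decide)
      · exact ih hl'.2 h hh
  exact h7 pw hn h hh h3

omit [NeZero M] in
theorem Setup.order_le (S : Setup M p f u k) (P : (ZMod M)ˣ) (hP : (P : ZMod M) = p) :
    orderOf P ≤ k := by
  refine Nat.le_of_dvd S.hk (orderOf_dvd_of_pow_eq_one ?_)
  apply Units.ext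
  rw [Units.val_pow_eq_pow_val, hP, S.pow_k, Units.val_one]

theorem Setup.pow_mul (hB : StBasic) (S : Setup M p f u k) (x : ZMod M) (hx : x ≠ 0) (j : ℕ) :
    Pi.single x 1 - Pi.single ((p : ZMod M) ^ j * x) 1 ∈ Sub M p f := by
  obtain ⟨-, hb2, -, -, -⟩ := hB M p f S.hM S.hf S.hpf
  have hpu : IsUnit (p : ZMod M) := IsUnit.of_pow_eq_one S.hpf S.hf.ne'
  induction j with
  | zero =>
    rw [pow_zero, one_mul, sub_self]
    exact zero_mem _
  | succ j ih =>
    have hne : (p : ZMod M) ^ j * x ≠ 0 := fun h => hx (((hpu.pow j).mul_right_eq_zero).1 h)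
    have h1 := hb2 _ hne
    rw [← mul_assoc, ← pow_succ'] at h1
    have h2 := sub_mem ih h1
    have e : (Pi.single x 1 - Pi.single ((p : ZMod M) ^ j * x) 1 : ZMod M → ℤ) -
        (Pi.single ((p : ZMod M) ^ (j + 1) * x) 1 - Pi.single ((p : ZMod M) ^ j * x) 1) =
        Pi.single x 1 - Pi.single ((p : ZMod M) ^ (j + 1) * x) 1 := by abel
    rw [e] at h2
    exact h2

omit [NeZero M] in
theorem saw_one (t x : ZMod M) : saw M p f t x = saw M p f 1 (t * x) := by
  unfold saw
  refine Finset.sum_congr rfl fun j _ => ?_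
  rw [mul_one, mul_assoc]

/-- the tables are right -/
structure Tab (M p f k E T : ℕ) : Prop where
  hv : ∀ y, 0 < y → y < M →
    (k : ℤ) * saw M p f 1 (y : ZMod M) = f * (2 * (vl M k E T y : ℤ) - k * M)
  hc : ∀ y, 0 < y → y < M →
    (Nat.beq (look E y / 512 % 2) 0 = true →
      Pi.single (y : ZMod M) 1 - Pi.single ((look E y / 1024 : ℕ) : ZMod M) 1 ∈ Sub M p f) ∧
    (Nat.beq (look E y / 512 % 2) 0 = false →
      Pi.single (y : ZMod M) 1 + Pi.single ((look E y / 1024 : ℕ) : ZMod M) 1 ∈ Sub M p f)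

theorem Setup.saw_pow (S : Setup M p f u k) (t x : ZMod M) (j : ℕ) :
    saw M p f t ((p : ZMod M) ^ j * x) = saw M p f t x := by
  induction j with
  | zero => rw [_root_.pow_zero, one_mul]
  | succ j ih => rw [_root_.pow_succ', mul_assoc, Basic.saw_p S.hpf, ih]

/-- meaning of the check of the tables -/
theorem Setup.tab (hB : StBasic) (S : Setup M p f u k) {pw : List ℕ}
    (hpw : isPw M u k 1 pw = true) (hM : M ≤ 1024) {E T : ℕ}
    (h : ∀ y, 0 < y → y < M → chkY M E (packL pw) T pw y = true) : Tab M p f k E T := by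
  obtain ⟨hb1, -, -, hb4, -⟩ := hB M p f S.hM S.hf S.hpf
  have hM0 : 0 < M := Nat.lt_trans Nat.zero_lt_one S.hM
  obtain ⟨-, -, i3, i4⟩ := isPw_spec hM0 k 1 pw hpw S.hM
  have hpu : IsUnit (p : ZMod M) := IsUnit.of_pow_eq_one S.hpf S.hf.ne'
  -- the meaning of the check of one entry
  have key : ∀ y, 0 < y → y < M → 0 < look E y / 1024 ∧ look E y / 1024 < M ∧
      look T (look E y / 1024) = tv M (look E y / 1024) pw ∧
      (Nat.beq (look E y / 512 % 2) 0 = true →
        ∃ j : ℕ, (y : ZMod M) = (p : ZMod M) ^ j * ((look E y / 1024 : ℕ) : ZMod M)) ∧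
      (Nat.beq (look E y / 512 % 2) 0 = false →
        ∃ j : ℕ, (y : ZMod M) = -((p : ZMod M) ^ j * ((look E y / 1024 : ℕ) : ZMod M))) := by
    intro y hy0 hyM
    have h1 := h y hy0 hyM
    unfold chkY at h1
    rw [force_eq, force_eq, force_eq, Bool.and_eq_true, Bool.and_eq_true, Bool.and_eq_true] at h1
    obtain ⟨⟨⟨h1, h2⟩, h3⟩, -⟩ := h1
    have hrM : look E y / 1024 < M := Nat.le_of_ble_eq_true h1
    have hrE : look E (look E y / 1024) = look E y / 1024 * 1024 := Nat.eq_of_beq_eq_true h2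
    revert hrM hrE h3
    generalize look E y / 1024 = r
    generalize look E y / 512 % 2 = s
    generalize look E y % 512 = j
    intro h3 hrM hrE
    have hne : (y : ZMod M) ≠ 0 := by
      rw [Ne, ZMod.natCast_eq_zero_iff]
      intro hd
      exact absurd (Nat.le_of_dvd hy0 hd) (Nat.not_le.mpr hyM)
    have hz : ((look (packL pw) j * r % M : ℕ) : ZMod M) =
        ((look (packL pw) j : ℕ) : ZMod M) * (r : ZMod M) := by
      rw [ZMod.natCast_mod, Nat.cast_mul]
    have hzlt := Nat.mod_lt (look (packL pw) j * r) hM0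
    have hcase : (Nat.beq s 0 = true → (y : ZMod M) =
          ((look (packL pw) j : ℕ) : ZMod M) * (r : ZMod M)) ∧
        (Nat.beq s 0 = false → (y : ZMod M) =
          -(((look (packL pw) j : ℕ) : ZMod M) * (r : ZMod M))) := by
      constructor
      · intro hs
        rw [hs] at h3
        have h4 : look (packL pw) j * r % M = y := Nat.eq_of_beq_eq_true h3
        rw [← hz, h4]
      · intro hs
        rw [hs] at h3
        have h4 : M - look (packL pw) j * r % M = y := Nat.eq_of_beq_eq_true h3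
        rw [← hz, ← h4, Nat.cast_sub hzlt.le, ZMod.natCast_self, zero_sub]
    have hw : ((look (packL pw) j : ℕ) : ZMod M) * (r : ZMod M) ≠ 0 := by
      intro h0
      cases hs : Nat.beq s 0 with
      | true =>
        apply hne
        rw [hcase.1 hs, h0]
      | false =>
        apply hne
        rw [hcase.2 hs, h0, neg_zero]
    have hr0 : 0 < r := by
      refine Nat.pos_of_ne_zero fun h0 => hw ?_
      rw [h0, Nat.cast_zero, mul_zero]
    have hmem : look (packL pw) j ∈ pw := by
      rcases look_packL pw j (fun h' hh => by have := i3 h' hh; omega) with h0 | h0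
      · exfalso
        apply hw
        rw [h0, Nat.cast_zero, zero_mul]
      · exact h0
    obtain ⟨i, hi⟩ := S.mem_pw hpw _ hmem
    rw [hi] at hcase
    refine ⟨hr0, hrM, ?_, fun hs => ⟨i, hcase.1 hs⟩, fun hs => ⟨i, hcase.2 hs⟩⟩
    -- the entry of the representative
    have h5 := h r hr0 hrM
    unfold chkY at h5
    rw [force_eq, force_eq, force_eq, Bool.and_eq_true, Bool.and_eq_true, Bool.and_eq_true] at h5
    have h6 := h5.2
    rw [hrE, Nat.mul_div_cancel _ (by norm_num), Nat.beq_refl] at h6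
    exact Nat.eq_of_beq_eq_true h6
  have hval : ∀ y, 0 < y → y < M → (k : ℤ) * saw M p f 1 (y : ZMod M) =
      f * (2 * (tv M y pw : ℤ) - k * M) := by
    intro y hy0 hyM
    have h1 := S.saw_eq hpw 1 (y : ZMod M)
    rw [one_mul, ZMod.val_natCast, Nat.mod_eq_of_lt hyM] at h1
    exact h1
  constructor
  · intro y hy0 hyM
    obtain ⟨k1, k2, k3, k4, k5⟩ := key y hy0 hyM
    unfold vl
    rw [force_eq]
    have h1 := hval _ k1 k2
    have hrne : ((look E y / 1024 : ℕ) : ZMod M) ≠ 0 := by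
      rw [Ne, ZMod.natCast_eq_zero_iff]
      intro hd
      exact absurd (Nat.le_of_dvd k1 hd) (Nat.not_le.mpr k2)
    cases hs : Nat.beq (look E y / 512 % 2) 0 with
    | true =>
      obtain ⟨j, hj⟩ := k4 hs
      rw [cond_true, k3, hj, S.saw_pow]
      exact h1
    | false =>
      obtain ⟨j, hj⟩ := k5 hs
      have h2 := tv_le M (look E y / 1024) hM0 pw
      rw [i4] at h2
      rw [cond_false, k3, hj, hb4 1 _ isUnit_one
        (fun h0 => hrne (((hpu.pow j).mul_right_eq_zero).1 h0)), S.saw_pow, Nat.cast_sub h2,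
        mul_neg, h1]
      push_cast
      ring
  · intro y hy0 hyM
    obtain ⟨k1, k2, k3, k4, k5⟩ := key y hy0 hyM
    have hrne : ((look E y / 1024 : ℕ) : ZMod M) ≠ 0 := by
      rw [Ne, ZMod.natCast_eq_zero_iff]
      intro hd
      exact absurd (Nat.le_of_dvd k1 hd) (Nat.not_le.mpr k2)
    constructor
    · intro hs
      obtain ⟨j, hj⟩ := k4 hs
      have h1 := neg_mem (S.pow_mul hB _ hrne j)
      rw [neg_sub] at h1
      rw [hj]
      exact h1
    · intro hs
      obtain ⟨j, hj⟩ := k5 hs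
      have h1 := S.pow_mul hB _ hrne j
      have h2 := hb1 _ (fun h0 => hrne (((hpu.pow j).mul_right_eq_zero).1 h0) :
        (p : ZMod M) ^ j * ((look E y / 1024 : ℕ) : ZMod M) ≠ 0)
      have h3 := add_mem h1 h2
      rw [hj]
      have e : (Pi.single ((look E y / 1024 : ℕ) : ZMod M) 1 -
          Pi.single ((p : ZMod M) ^ j * ((look E y / 1024 : ℕ) : ZMod M)) 1 : ZMod M → ℤ) +
          (Pi.single ((p : ZMod M) ^ j * ((look E y / 1024 : ℕ) : ZMod M)) 1 +
          Pi.single (-((p : ZMod M) ^ j * ((look E y / 1024 : ℕ) : ZMod M))) 1) =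
          Pi.single (-((p : ZMod M) ^ j * ((look E y / 1024 : ℕ) : ZMod M))) 1 +
          Pi.single ((look E y / 1024 : ℕ) : ZMod M) 1 := by abel
      rw [e] at h3
      exact h3

end

end Pool.Agent.Lib.MP81632f.Diag.Comp
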