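import Pool.Agent.Lib.MP_81632f_ag.Diag.CompTbl

/-!
# Composite degrees: the small levels
-/

set_option autoImplicit false

namespace Pool.Agent.Lib.MP81632f.Diag

/-- The exceptional classes: for `(m, l)` in the list, the residues `l` of `p` modulo `m` are not
treated. -/
def exc : List (ℕ × List ℕ) :=
  [(33, [1, 10, 23]),
    (35, [1, 6, 8, 11, 16, 22, 26, 29, 31]),
    (44, [1, 5, 9, 13, 17, 21, 23, 25, 29, 37, 41]),
    (51, [1, 4, 7, 10, 13, 16, 19, 22, 25, 28, 31, 35, 37, 40, 43, 46, 49]),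
    (52, [1, 25, 27]),
    (55, [1, 12, 21, 23, 34]),
    (56, [17, 33, 41]),
    (57, [1, 20, 37]),
    (65, [1, 3, 6, 9, 11, 14, 16, 21, 22, 27, 29, 31, 36, 41, 42, 46, 48, 51, 53, 56, 61]),
    (68, [1, 33]),
    (69, [1, 4, 7, 10, 13, 16, 19, 22, 25, 28, 31, 34, 37, 40, 43, 47, 49, 52, 55, 58, 61, 64, 67]),
    (70, [1, 11, 29, 31, 41, 43, 51, 57, 61]),
    (76, [1, 5, 9, 13, 17, 21, 25, 29, 33, 37, 39, 41, 45, 49, 53, 61, 65, 69, 73]),
    (77, [1, 12, 23, 32, 34, 43, 45, 65, 67]),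
    (80, [7, 23]),
    (85, [1, 6, 11, 16, 18, 21, 26, 31, 36, 41, 46, 52, 56, 61, 66, 69, 71, 76, 81]),
    (87, [1, 4, 7, 10, 13, 16, 19, 22, 25, 28, 31, 34, 37, 40, 43, 46, 49, 52, 55, 59, 61, 64, 67,
      70, 73, 76, 79, 82, 85]),
    (88, [1, 23, 45, 65, 67]),
    (91, [1, 2, 3, 4, 8, 9, 11, 15, 16, 18, 22, 23, 25, 27, 29, 30, 32, 36, 37, 40, 43, 44, 46, 48,
      50, 51, 53, 55, 57, 58, 60, 61, 64, 66, 67, 68, 71, 72, 74, 79, 81, 85, 86, 87, 88]),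
    (92, [1, 5, 9, 13, 17, 21, 25, 29, 33, 37, 41, 45, 47, 49, 53, 57, 61, 65, 73, 77, 81, 85, 89]),
    (93, [1, 5, 25, 32, 37, 56, 61, 67, 88]),
    (95, [1, 6, 7, 11, 16, 21, 26, 31, 36, 39, 41, 46, 49, 51, 56, 58, 61, 64, 66, 68, 71, 77, 81,
      83, 86, 87, 91]),
    (99, [1, 10, 23, 34, 43, 56, 67, 76, 89])]

/-- Degrees treated in every characteristic. -/
def degs2 : List ℕ := [180, 198, 200, 234, 300, 378, 384, 441, 507, 567, 576, 588]

/-- The small levels: `m` is a divisor of the degree prime to `p`. -/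
def Small (p m : ℕ) : Prop :=
  (m ≤ 100 ∧ ∀ e ∈ exc, e.1 = m → p % m ∉ e.2) ∨
  (p = 2 ∧ m ≤ 300 ∧ m ∉ [91, 119, 133, 165, 195, 217, 219, 255, 267, 273, 287]) ∨
  (p = 3 ∧ m ≤ 200 ∧ m ∉ [65, 91, 143, 182, 184, 187])

namespace Comp

theorem tblq_tbl : tblq tbl exc 101 = true := by decide +kernel

theorem pq_two : pq tbl 2 [91, 119, 133, 165, 195, 217, 219, 255, 267, 273, 287] 301 = true := by
  decide +kernel

theorem pq_three : pq tbl 3 [65, 91, 143, 182, 184, 187] 201 = true := by decide +kernel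

theorem degq_tbl : (degs2.all fun M => degq tbl M) = true := by decide +kernel

theorem allq_tbl : ([12, 15, 20, 21, 24, 28, 30, 36, 39, 40, 42, 45, 48, 60, 63, 66, 72, 75, 78, 84,
    90, 96, 100].all fun M => allq tbl M) = true := by decide +kernel

theorem cov_35 : (cov1 35 2 (lk 35 tbl) && cov1 105 2 (lk 105 tbl) &&
    cov1 40 3 (lk 40 tbl)) = true := by decide +kernel

end Comp

open Pool.Agent.Lib.MP81632f.Diag.Comp

theorem lp_small (hB : StBasic) (hR : StRank) (hPP : StPP) {p m f : ℕ} (h : Small p m) (hm : 0 < m)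
    (hf : 0 < f) (hp : (p : ZMod m) ^ f = 1) : LP m p f := by
  rcases h with ⟨h1, h2⟩ | ⟨rfl, h1, h2⟩ | ⟨rfl, h1, h2⟩
  · exact lp_tblq hB hR hPP tbl_ok tblq_tbl hm (by omega) h2 hf hp
  · exact lp_pq hB hR hPP tbl_ok pq_two hm (by omega) h2 hf hp
  · exact lp_pq hB hR hPP tbl_ok pq_three hm (by omega) h2 hf hp

theorem lp_degs2 (hB : StBasic) (hR : StRank) (hPP : StPP) {p M f : ℕ} (hM : M ∈ degs2)
    (hp : p.Prime) (hf : 0 < f) (hdvd : ordCompl[p] M ∣ p ^ f - 1) : LP (ordCompl[p] M) p f := by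
  have h1 := degq_tbl
  rw [List.all_eq_true] at h1
  exact lp_degq hB hR hPP tbl_ok (h1 M hM) hp hf hdvd

/-- base levels, all `p` -/
theorem lp_base (hB : StBasic) (hR : StRank) {p M f : ℕ}
    (hM : M ∈ [12, 15, 20, 21, 24, 28, 30, 36, 39, 40, 42, 45, 48, 60, 63, 66, 72, 75, 78, 84,
      90, 96, 100]) (hf : 0 < f) (hp : (p : ZMod M) ^ f = 1) : LP M p f := by
  have h1 := allq_tbl
  rw [List.all_eq_true] at h1
  exact lp_allq hB hR tbl_ok (h1 M hM) hf hp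

theorem base12 (hB : StBasic) (hR : StRank) {p f : ℕ} (hf : 0 < f) (hp : (p : ZMod 12) ^ f = 1) :
    LP 12 p f := lp_base hB hR (by simp) hf hp

theorem base15 (hB : StBasic) (hR : StRank) {p f : ℕ} (hf : 0 < f) (hp : (p : ZMod 15) ^ f = 1) :
    LP 15 p f := lp_base hB hR (by simp) hf hp

theorem base21 (hB : StBasic) (hR : StRank) {p f : ℕ} (hf : 0 < f) (hp : (p : ZMod 21) ^ f = 1) :
    LP 21 p f := lp_base hB hR (by simp) hf hp

theorem base35_2 (hB : StBasic) (hR : StRank) {f : ℕ} (hf : 0 < f)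
    (hp : ((2 : ℕ) : ZMod 35) ^ f = 1) : LP 35 2 f := by
  have h1 := cov_35
  rw [Bool.and_eq_true, Bool.and_eq_true] at h1
  exact lp_cov1' hB hR _ (lk_spec 35 tbl tbl_ok) h1.1.1 (by norm_num) hf hp

theorem base105_2 (hB : StBasic) (hR : StRank) {f : ℕ} (hf : 0 < f)
    (hp : ((2 : ℕ) : ZMod 105) ^ f = 1) : LP 105 2 f := by
  have h1 := cov_35
  rw [Bool.and_eq_true, Bool.and_eq_true] at h1
  exact lp_cov1' hB hR _ (lk_spec 105 tbl tbl_ok) h1.1.2 (by norm_num) hf hp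

theorem base40_3 (hB : StBasic) (hR : StRank) {f : ℕ} (hf : 0 < f)
    (hp : ((3 : ℕ) : ZMod 40) ^ f = 1) : LP 40 3 f := by
  have h1 := cov_35
  rw [Bool.and_eq_true, Bool.and_eq_true] at h1
  exact lp_cov1' hB hR _ (lk_spec 40 tbl tbl_ok) h1.2 (by norm_num) hf hp

end Pool.Agent.Lib.MP81632f.Diag
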