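import Pool.Agent.Lib.MP_81632f_ag.Diag.CompVec

/-!
# Composite degrees: soundness of the checker
-/

set_option autoImplicit false

namespace Pool.Agent.Lib.MP81632f.Diag.Comp

open Finset

section

variable {M p f u k : ℕ} [NeZero M]

theorem len_spec : ∀ l : List ℕ, len l = l.length
  | [] => rfl
  | y :: l => by
      show len l + 1 = _
      rw [len_spec l, List.length_cons]

/-- meaning of `bal` -/
theorem Setup.bal_spec (S : Setup M p f u k) {E T : ℕ} (hTab : Tab M p f k E T)
    (l : List ℕ) (hin : ∀ y ∈ l, 0 < y ∧ y < M) (hl : bal M k E T l = true) (t : (ZMod M)ˣ) :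
    (l.map fun y : ℕ => saw M p f t (y : ZMod M)).sum = 0 := by
  have hM0 : 0 < M := Nat.lt_trans Nat.zero_lt_one S.hM
  have h1 := allBelow_spec _ M hl (t : ZMod M).val (ZMod.val_lt _)
  have h2 : Nat.beq (Nat.gcd (t : ZMod M).val M) 1 = true := by
    have h3 : Nat.gcd (t : ZMod M).val M = 1 := ZMod.val_coe_unit_coprime t
    rw [h3]
    rfl
  rw [h2] at h1
  have h3 : 2 * lsum M k E T (t : ZMod M).val l = len l * (M * k) := by
    refine Nat.eq_of_beq_eq_true ?_
    simpa using h1
  have h4 : ∀ l : List ℕ, (∀ y ∈ l, 0 < y ∧ y < M) →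
      (k : ℤ) * (l.map fun y : ℕ => saw M p f t (y : ZMod M)).sum =
      f * (2 * (lsum M k E T (t : ZMod M).val l : ℤ) - (len l : ℤ) * (M * k)) := by
    intro l
    induction l with
    | nil =>
      intro _
      rw [List.map_nil, List.sum_nil, mul_zero]
      show _ = (f : ℤ) * (2 * ((0 : ℕ) : ℤ) - ((0 : ℕ) : ℤ) * (M * k))
      simp
    | cons y l ih =>
      intro hin
      have hy := hin y List.mem_cons_self
      have hlt := Nat.mod_lt ((t : ZMod M).val * y) hM0
      have e1 : (((t : ZMod M).val * y % M : ℕ) : ZMod M) = (t : ZMod M) * (y : ZMod M) := by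
        rw [ZMod.natCast_mod, Nat.cast_mul, ZMod.natCast_zmod_val]
      have hpos : 0 < (t : ZMod M).val * y % M := by
        refine Nat.pos_of_ne_zero fun h0 => ?_
        rw [h0, Nat.cast_zero] at e1
        exact cast_ne hy ((t.isUnit.mul_right_eq_zero).1 e1.symm)
      have h5 := hTab.hv _ hpos hlt
      rw [e1, ← saw_one] at h5
      rw [List.map_cons, List.sum_cons, mul_add, ih fun y hy => hin y (List.mem_cons_of_mem _ hy), h5]
      show _ = (f : ℤ) * (2 * ((vl M k E T ((t : ZMod M).val * y % M) +
        lsum M k E T (t : ZMod M).val l : ℕ) : ℤ) - ((len l + 1 : ℕ) : ℤ) * (M * k))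
      push_cast
      ring
  have h5 := h4 l hin
  have h6 : (2 * (lsum M k E T (t : ZMod M).val l : ℤ) - (len l : ℤ) * (M * k)) = 0 := by
    have h7 : ((2 * lsum M k E T (t : ZMod M).val l : ℕ) : ℤ) = ((len l * (M * k) : ℕ) : ℤ) := by
      rw [h3]
    push_cast at h7
    linarith
  rw [h6, mul_zero] at h5
  have hk : (k : ℤ) ≠ 0 := by exact_mod_cast S.hk.ne'
  exact (mul_eq_zero.mp h5).resolve_left hk

theorem sum_reflect {A : Type*} [AddCommGroup A] (m : ℕ) (v : ℕ → A) :
    ∑ j ∈ range (2 * m), v j = ∑ j ∈ range m, (v j + v (2 * m - 1 - j)) := by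
  rw [Finset.sum_add_distrib, two_mul, Finset.sum_range_add]
  congr 1
  rw [← Finset.sum_range_reflect]
  refine Finset.sum_congr rfl fun j hj => ?_
  have := Finset.mem_range.mp hj
  congr 1
  omega

/-- the multiples of `M / ℓ` -/
theorem Setup.third (hB : StBasic) (S : Setup M p f u k) {G : AddSubgroup (ZMod M → ℤ)}
    (hG : AddSubgroup.closure (GP M p f) ≤ G) {ℓ : ℕ} (hℓ : ℓ.Prime) (hd : ℓ ∣ M) :
    ∑ j ∈ range (ℓ - 1), (Pi.single (((j + 1 : ℕ) : ZMod M) * ((M / ℓ : ℕ) : ZMod M)) 1 :
      ZMod M → ℤ) ∈ G := by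
  obtain ⟨hb1, hb2, hb3, hb4, hb5⟩ := hB M p f S.hM S.hf S.hpf
  have hsub : Sub M p f ≤ G := le_trans (AddSubgroup.closure_mono Set.subset_union_left) hG
  rcases hℓ.eq_two_or_odd' with rfl | hodd
  · rw [show 2 - 1 = 1 from rfl, Finset.sum_range_one]
    refine hG (AddSubgroup.subset_closure (Or.inr ⟨_, ?_, ?_, rfl⟩))
    · exact Red.quot_ne hℓ hd (by norm_num) (by norm_num)
    · intro t
      have h0 : ((0 + 1 : ℕ) : ZMod M) * ((M / 2 : ℕ) : ZMod M) ≠ 0 :=
        Red.quot_ne hℓ hd (by norm_num) (by norm_num)
      have h1 := hb4 t _ t.isUnit h0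
      have h2 : -(((0 + 1 : ℕ) : ZMod M) * ((M / 2 : ℕ) : ZMod M)) =
          ((0 + 1 : ℕ) : ZMod M) * ((M / 2 : ℕ) : ZMod M) := by
        have h3 := Red.mul_quot hd
        rw [zero_add, Nat.cast_one, one_mul, neg_eq_iff_add_eq_zero]
        rw [show ((2 : ℕ) : ZMod M) = 1 + 1 by norm_num, add_mul, one_mul] at h3
        exact h3
      rw [h2] at h1
      omega
  · obtain ⟨m, hm⟩ := hodd
    have e : ℓ - 1 = 2 * m := by omega
    rw [e, sum_reflect]
    refine sum_mem fun j hj => hsub ?_
    have hj' := Finset.mem_range.mp hj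
    have e2 : (((2 * m - 1 - j) + 1 : ℕ) : ZMod M) * ((M / ℓ : ℕ) : ZMod M) =
        -(((j + 1 : ℕ) : ZMod M) * ((M / ℓ : ℕ) : ZMod M)) := by
      rw [eq_neg_iff_add_eq_zero, ← add_mul, ← Nat.cast_add,
        show (2 * m - 1 - j) + 1 + (j + 1) = ℓ by omega]
      exact Red.mul_quot hd
    rw [e2]
    exact hb1 _ (Red.quot_ne hℓ hd (by omega) (by omega))

omit [NeZero M] in
theorem sg_dhl (d x : ℕ) : ∀ (n : ℕ) (l : List ℕ), sg M (dhl M d x n l) =
    ∑ j ∈ range n, Pi.single ((x : ZMod M) + (j : ZMod M) * (d : ZMod M)) 1 + sg M l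
  | 0, l => by rw [Finset.sum_range_zero, zero_add]; rfl
  | n + 1, l => by
      show Pi.single (((x + n * d) % M : ℕ) : ZMod M) 1 + sg M (dhl M d x n l) = _
      rw [sg_dhl d x n l, Finset.sum_range_succ, ZMod.natCast_mod, Nat.cast_add, Nat.cast_mul]
      abel

omit [NeZero M] in
theorem mem_dhl (d x : ℕ) (y : ℕ) : ∀ (n : ℕ) (l : List ℕ), y ∈ dhl M d x n l →
    (∃ j < n, y = (x + j * d) % M) ∨ y ∈ l
  | 0, l, h => Or.inr h
  | n + 1, l, h => by
      have h' : y ∈ ((x + n * d) % M) :: dhl M d x n l := h
      rcases List.mem_cons.mp h' with rfl | h1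
      · exact Or.inl ⟨n, Nat.lt_succ_self n, rfl⟩
      · rcases mem_dhl d x y n l h1 with ⟨j, hj, rfl⟩ | h2
        · exact Or.inl ⟨j, Nat.lt_succ_of_lt hj, rfl⟩
        · exact Or.inr h2

omit [NeZero M] in
theorem primeq_spec {l : ℕ} (h : primeq l = true) : l.Prime := by
  unfold primeq at h
  simp only [Bool.or_eq_true] at h
  rcases h with (((((((((h | h) | h) | h) | h) | h) | h) | h) | h) | h) | h <;>
    rw [Nat.eq_of_beq_eq_true h] <;> norm_num

theorem pos_of_cast_ne {y : ℕ} (h : ((y : ℕ) : ZMod M) ≠ 0) (hy : y < M) : 0 < y ∧ y < M := by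
  refine ⟨Nat.pos_of_ne_zero fun h0 => h ?_, hy⟩
  rw [h0, Nat.cast_zero]

/-- meaning of `ok` -/
theorem Setup.ok_spec (hB : StBasic) (S : Setup M p f u k) {E T : ℕ} (hTab : Tab M p f k E T)
    {G : AddSubgroup (ZMod M → ℤ)} (hG : AddSubgroup.closure (GP M p f) ≤ G) (g : Rel)
    (hg : g.ok M k E T = true) : (∀ y ∈ g.list M, 0 < y ∧ y < M) ∧ sg M (g.list M) ∈ G := by
  have hsub : Sub M p f ≤ G := le_trans (AddSubgroup.closure_mono Set.subset_union_left) hG
  have hM0 : 0 < M := Nat.pos_of_ne_zero (NeZero.ne M)
  cases g with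
  | dh l x =>
    have h' : (primeq l && Nat.beq (M % l) 0 && !(Nat.beq (l * x % M) 0)) = true := hg
    rw [Bool.and_eq_true, Bool.and_eq_true] at h'
    obtain ⟨⟨h1, h2⟩, h3⟩ := h'
    have hl : l.Prime := primeq_spec h1
    have hd : l ∣ M := Nat.dvd_of_mod_eq_zero (Nat.eq_of_beq_eq_true h2)
    have hx : (l : ZMod M) * (x : ZMod M) ≠ 0 := by
      rw [← Nat.cast_mul, Ne, ZMod.natCast_eq_zero_iff]
      intro hdvd
      rw [Nat.mod_eq_zero_of_dvd hdvd] at h3
      exact absurd h3 (by decide)
    have hlx : (((M - l * x % M) % M : ℕ) : ZMod M) = -((l : ZMod M) * (x : ZMod M)) := by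
      rw [ZMod.natCast_mod, Nat.cast_sub (Nat.mod_lt _ hM0).le, ZMod.natCast_self,
        ZMod.natCast_mod, Nat.cast_mul, zero_sub]
    have hdh := hsub (Red.dh_mem (p := p) (f := f) hl hd hx)
    have hth := S.third hB hG hl hd
    constructor
    · intro y hy
      rcases mem_dhl _ _ y _ _ hy with ⟨j, hj, rfl⟩ | hy
      · refine pos_of_cast_ne ?_ (Nat.mod_lt _ hM0)
        intro h0
        apply hx
        rw [ZMod.natCast_mod, Nat.cast_add, Nat.cast_mul] at h0
        have h4 : (l : ZMod M) * ((x : ZMod M) + (j : ZMod M) * ((M / l : ℕ) : ZMod M)) = 0 := by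
          rw [h0, mul_zero]
        have h5 := Red.mul_quot hd
        rw [mul_add, mul_left_comm, h5, mul_zero, add_zero] at h4
        exact h4
      · rw [List.mem_singleton] at hy
        rw [hy]
        refine pos_of_cast_ne ?_ (Nat.mod_lt _ hM0)
        rw [hlx]
        exact neg_ne_zero.mpr hx
    · show sg M (dhl M (M / l) x l [(M - l * x % M) % M]) ∈ G
      rw [sg_dhl]
      have e : sg M [(M - l * x % M) % M] = Pi.single (-((l : ZMod M) * (x : ZMod M))) 1 := by
        show Pi.single (((M - l * x % M) % M : ℕ) : ZMod M) 1 + (0 : ZMod M → ℤ) = _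
        rw [add_zero, hlx]
      rw [e]
      have h6 := sub_mem hdh hth
      rw [add_sub_cancel_right] at h6
      exact h6
  | a1 a b =>
    have h' : (inR M [a, b] && bal M k E T [a, b]) = true := hg
    rw [Bool.and_eq_true] at h'
    obtain ⟨h1, h2⟩ := h'
    have hin := inR_spec M _ h1
    refine ⟨hin, hsub (AddSubgroup.subset_closure ?_)⟩
    have ha := cast_ne (hin a (by simp))
    have hb := cast_ne (hin b (by simp))
    refine ⟨{(a : ZMod M)} + {(b : ZMod M)}, Or.inl ⟨{(a : ZMod M)}, {(b : ZMod M)},
      Or.inl ⟨_, ha, rfl⟩, Or.inl ⟨_, hb, rfl⟩, rfl, fun t => ?_⟩, ?_⟩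
    · have h3 := S.bal_spec hTab _ hin h2 t
      simpa using h3
    · rw [Basic.cnt_add, Basic.cnt_singleton, Basic.cnt_singleton]
      show _ = Pi.single (a : ZMod M) 1 + (Pi.single (b : ZMod M) 1 + (0 : ZMod M → ℤ))
      abel
  | a2 a b c d =>
    have h' : (inR M [a, b, c, d] && Nat.beq ((b + c + d) % M) 0 && bal M k E T [a, b, c, d]) = true :=
      hg
    rw [Bool.and_eq_true, Bool.and_eq_true] at h'
    obtain ⟨⟨h1, h2⟩, h3⟩ := h'
    have hin := inR_spec M _ h1
    refine ⟨hin, hsub (AddSubgroup.subset_closure ?_)⟩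
    have ha := cast_ne (hin a (by simp))
    have hb := cast_ne (hin b (by simp))
    have hc := cast_ne (hin c (by simp))
    have hd := cast_ne (hin d (by simp))
    have hs : (b : ZMod M) + (c : ZMod M) + (d : ZMod M) = 0 := by
      rw [← Nat.cast_add, ← Nat.cast_add, ZMod.natCast_eq_zero_iff]
      exact Nat.dvd_of_mod_eq_zero (Nat.eq_of_beq_eq_true h2)
    refine ⟨{(a : ZMod M)} + {(b : ZMod M), (c : ZMod M), (d : ZMod M)}, Or.inl ⟨_, _,
      Or.inl ⟨_, ha, rfl⟩, Or.inr ⟨_, _, _, hb, hc, hd, hs, rfl⟩, rfl, fun t => ?_⟩, ?_⟩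
    · have h5 := S.bal_spec hTab _ hin h3 t
      rw [Multiset.map_add, Multiset.sum_add]
      simp only [List.map_cons, List.map_nil, List.sum_cons, List.sum_nil] at h5
      simp only [Multiset.insert_eq_cons, Multiset.map_cons, Multiset.map_singleton,
        Multiset.sum_cons, Multiset.sum_singleton]
      linarith
    · rw [Basic.cnt_add, Multiset.insert_eq_cons, Multiset.insert_eq_cons, Basic.cnt_cons,
        Basic.cnt_cons, Basic.cnt_singleton, Basic.cnt_singleton]
      show _ = Pi.single (a : ZMod M) 1 + (Pi.single (b : ZMod M) 1 + (Pi.single (c : ZMod M) 1 +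
        (Pi.single (d : ZMod M) 1 + (0 : ZMod M → ℤ))))
      abel
  | a3 a b c d e f' =>
    have h' : (inR M [a, b, c, d, e, f'] && Nat.beq ((a + b + c) % M) 0 &&
      Nat.beq ((d + e + f') % M) 0 && bal M k E T [a, b, c, d, e, f']) = true := hg
    rw [Bool.and_eq_true, Bool.and_eq_true, Bool.and_eq_true] at h'
    obtain ⟨⟨⟨h1, h2⟩, h3⟩, h4⟩ := h'
    have hin := inR_spec M _ h1
    refine ⟨hin, hsub (AddSubgroup.subset_closure ?_)⟩
    have ha := cast_ne (hin a (by simp))
    have hb := cast_ne (hin b (by simp))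
    have hc := cast_ne (hin c (by simp))
    have hd := cast_ne (hin d (by simp))
    have he := cast_ne (hin e (by simp))
    have hf := cast_ne (hin f' (by simp))
    have hs : (a : ZMod M) + (b : ZMod M) + (c : ZMod M) = 0 := by
      rw [← Nat.cast_add, ← Nat.cast_add, ZMod.natCast_eq_zero_iff]
      exact Nat.dvd_of_mod_eq_zero (Nat.eq_of_beq_eq_true h2)
    have hs' : (d : ZMod M) + (e : ZMod M) + (f' : ZMod M) = 0 := by
      rw [← Nat.cast_add, ← Nat.cast_add, ZMod.natCast_eq_zero_iff]
      exact Nat.dvd_of_mod_eq_zero (Nat.eq_of_beq_eq_true h3)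
    refine ⟨{(a : ZMod M), (b : ZMod M), (c : ZMod M)} + {(d : ZMod M), (e : ZMod M), (f' : ZMod M)},
      Or.inl ⟨_, _, Or.inr ⟨_, _, _, ha, hb, hc, hs, rfl⟩, Or.inr ⟨_, _, _, hd, he, hf, hs', rfl⟩,
        rfl, fun t => ?_⟩, ?_⟩
    · have h5 := S.bal_spec hTab _ hin h4 t
      rw [Multiset.map_add, Multiset.sum_add]
      simp only [List.map_cons, List.map_nil, List.sum_cons, List.sum_nil] at h5
      simp only [Multiset.insert_eq_cons, Multiset.map_cons, Multiset.map_singleton,
        Multiset.sum_cons, Multiset.sum_singleton]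
      linarith
    · rw [Basic.cnt_add, Multiset.insert_eq_cons, Multiset.insert_eq_cons, Multiset.insert_eq_cons,
        Multiset.insert_eq_cons, Basic.cnt_cons, Basic.cnt_cons, Basic.cnt_cons,
        Basic.cnt_cons, Basic.cnt_singleton, Basic.cnt_singleton]
      show _ = Pi.single (a : ZMod M) 1 + (Pi.single (b : ZMod M) 1 + (Pi.single (c : ZMod M) 1 +
        (Pi.single (d : ZMod M) 1 + (Pi.single (e : ZMod M) 1 + (Pi.single (f' : ZMod M) 1 +
        (0 : ZMod M → ℤ))))))
      abel

theorem Setup.step_spec (hB : StBasic) (S : Setup M p f u k) {E T : ℕ} (hTab : Tab M p f k E T)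
    {G : AddSubgroup (ZMod M → ℤ)} (hG : AddSubgroup.closure (GP M p f) ≤ G)
    {bs : List (ZMod M → ℤ)} {st st' : State} (hI : Inv G bs st) (g : Rel)
    (h : step M k E T st g = some st') : Inv G bs st' := by
  have hsub : Sub M p f ≤ G := le_trans (AddSubgroup.closure_mono Set.subset_union_left) hG
  unfold step at h
  cases hok : g.ok M k E T with
  | false => rw [hok] at h; exact absurd h (by simp)
  | true =>
    obtain ⟨h1, h2⟩ := S.ok_spec hB hTab hG g hok
    rw [hok] at h
    cases he : evl E st (g.list M) with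
    | none => rw [he] at h; exact absurd h (by simp)
    | some q =>
      obtain ⟨acc, r, net⟩ := q
      have h3 := evl_spec hTab hsub hI _ h1 acc r net he
      rw [he] at h
      simp only [cond_true] at h
      by_cases hn : net = 1
      · subst hn
        simp only [decide_true, cond_true, Option.some.injEq] at h
        subst h
        refine ins_spec hI _ _ ?_
        rw [one_smul] at h3
        rw [ev_vsmul, neg_smul, one_smul, sub_neg_eq_add]
        have h4 := sub_mem h2 h3
        have e : sg M (g.list M) - (sg M (g.list M) - ev bs acc - Pi.single (r : ZMod M) 1) =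
          Pi.single (r : ZMod M) 1 + ev bs acc := by abel
        rw [e] at h4
        exact h4
      · by_cases hn' : net = -1
        · subst hn'
          simp only [decide_true, cond_true, Option.some.injEq,
            show decide ((-1 : ℤ) = 1) = false from rfl, cond_false] at h
          subst h
          refine ins_spec hI _ _ ?_
          rw [neg_smul, one_smul] at h3
          have h4 := sub_mem h3 h2
          have e : sg M (g.list M) - ev bs acc - -Pi.single (r : ZMod M) 1 - sg M (g.list M) =
            Pi.single (r : ZMod M) 1 - ev bs acc := by abel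
          rw [e] at h4
          exact h4
        · rw [decide_eq_false hn, decide_eq_false hn'] at h
          exact absurd h (by simp)

theorem Setup.steps_spec (hB : StBasic) (S : Setup M p f u k) {E T : ℕ} (hTab : Tab M p f k E T)
    {G : AddSubgroup (ZMod M → ℤ)} (hG : AddSubgroup.closure (GP M p f) ≤ G)
    {bs : List (ZMod M → ℤ)} : ∀ (gs : List Rel) (st st' : State), Inv G bs st →
    steps M k E T gs st = some st' → Inv G bs st'
  | [], st, st', hI, h => by
      have h' : some st = some st' := h
      rw [Option.some.injEq] at h'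
      rwa [← h']
  | g :: gs, st, st', hI, h => by
      simp only [steps] at h
      cases hs : step M k E T st g with
      | none => rw [hs] at h; exact absurd h (by simp)
      | some st1 =>
        rw [hs] at h
        simp only at h
        exact S.steps_spec hB hTab hG gs st1 st' (S.step_spec hB hTab hG hI g hs) h

theorem Setup.lams_spec (hB : StBasic) (S : Setup M p f u k) {E T : ℕ} (hTab : Tab M p f k E T)
    {G : AddSubgroup (ZMod M → ℤ)} (hG : AddSubgroup.closure (GP M p f) ≤ G)
    {bs : List (ZMod M → ℤ)} {st : State} (hI : Inv G bs st) :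
    ∀ (gs : List Rel) (L : List (List ℤ)), lams M k E T st gs = some L → ∀ l ∈ L, ev bs l ∈ G
  | [], L, h => by
      have h' : some [] = some L := h
      rw [Option.some.injEq] at h'
      rw [← h']
      intro l hl
      exact absurd hl List.not_mem_nil
  | g :: gs, L, h => by
      have hsub : Sub M p f ≤ G := le_trans (AddSubgroup.closure_mono Set.subset_union_left) hG
      simp only [lams] at h
      cases hok : g.ok M k E T with
      | false => rw [hok] at h; exact absurd h (by simp)
      | true =>
        obtain ⟨h1, h2⟩ := S.ok_spec hB hTab hG g hok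
        rw [hok] at h
        cases he : evl E st (g.list M) with
        | none => rw [he] at h; exact absurd h (by simp)
        | some q =>
          obtain ⟨acc, r, net⟩ := q
          have h3 := evl_spec hTab hsub hI _ h1 acc r net he
          rw [he] at h
          simp only [cond_true] at h
          by_cases hn : net = 0
          · subst hn
            simp only [decide_true, cond_true] at h
            cases hl : lams M k E T st gs with
            | none => rw [hl] at h; exact absurd h (by simp)
            | some L' =>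
              rw [hl] at h
              simp only [Option.some.injEq] at h
              subst h
              intro l hl'
              rcases List.mem_cons.mp hl' with rfl | hl'
              · rw [zero_smul, sub_zero] at h3
                have h4 := sub_mem h2 h3
                rw [sub_sub_cancel] at h4
                exact h4
              · exact S.lams_spec hB hTab hG hI gs L' hl l hl'
          · rw [decide_eq_false hn] at h
            exact absurd h (by simp)

omit [NeZero M] in
theorem mem_appendL (L : List (List ℤ)) (l : List ℤ) : ∀ L' : List (List ℤ),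
    l ∈ appendL L L' → l ∈ L ∨ l ∈ L'
  | [], h => Or.inl h
  | x :: L', h => by
      have h' : l ∈ x :: appendL L L' := h
      rcases List.mem_cons.mp h' with rfl | h1
      · exact Or.inr List.mem_cons_self
      · rcases mem_appendL L l L' h1 with h2 | h2
        · exact Or.inl h2
        · exact Or.inr (List.mem_cons_of_mem _ h2)

omit [NeZero M] in
theorem init0_spec {G : AddSubgroup (ZMod M → ℤ)} {bs : List (ZMod M → ℤ)} {st : State}
    (hI : Inv G bs st) : ∀ l : List ℕ, (∀ b ∈ l, Pi.single (b : ZMod M) 1 ∈ G) →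
      Inv G bs (init0 l st)
  | [], _ => hI
  | b :: l, h => by
      refine ins_spec (init0_spec hI l fun b' hb => h b' (List.mem_cons_of_mem _ hb)) b [] ?_
      rw [ev_nil_right, sub_zero]
      exact h b List.mem_cons_self

omit [NeZero M] in
theorem findL_initB1 (r : ℕ) (v : List ℤ) : ∀ (l : List ℕ) (i : ℕ),
    findL r (initB1 i l) = some v →
    ∃ (j : ℕ) (hj : j < l.length), r = l[j] ∧ v = vunit (i + j)
  | [], i, h => absurd h (by simp [initB1, findL])
  | b :: l, i, h => by
      have h' : (bif Nat.beq b r then some (vunit i) else findL r (initB1 (i + 1) l)) = some v := h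
      cases hb : Nat.beq b r with
      | true =>
        rw [hb, cond_true, Option.some.injEq] at h'
        exact ⟨0, Nat.succ_pos _, (Nat.eq_of_beq_eq_true hb).symm, h'.symm⟩
      | false =>
        rw [hb, cond_false] at h'
        obtain ⟨j, hj, h2, h3⟩ := findL_initB1 r v l (i + 1) h'
        refine ⟨j + 1, Nat.succ_lt_succ hj, h2, ?_⟩
        rw [h3]
        congr 1
        omega

theorem Setup.allPure_spec (S : Setup M p f u k) {E T : ℕ} (hTab : Tab M p f k E T) :
    ∀ l : List ℕ, allPure M k E T l = true → ∀ x ∈ l, (x : ZMod M) ≠ 0 ∧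
      ∀ t : (ZMod M)ˣ, saw M p f t (x : ZMod M) = 0
  | [], _, x, hx => absurd hx List.not_mem_nil
  | a :: l, h, x, hx => by
      have h' : (Nat.ble 1 a && Nat.ble (a + 1) M && bal M k E T [a] && allPure M k E T l) = true := h
      rw [Bool.and_eq_true, Bool.and_eq_true, Bool.and_eq_true] at h'
      obtain ⟨⟨⟨h1, h2⟩, h3⟩, h4⟩ := h'
      rcases List.mem_cons.mp hx with rfl | hx
      · have hin : ∀ y ∈ [x], 0 < y ∧ y < M := by
          intro y hy
          rw [List.mem_singleton] at hy
          rw [hy]
          exact ⟨Nat.le_of_ble_eq_true h1, Nat.le_of_ble_eq_true h2⟩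
        refine ⟨cast_ne (hin x (by simp)), fun t => ?_⟩
        have h5 := S.bal_spec hTab _ hin h3 t
        simpa using h5
      · exact S.allPure_spec hTab l h4 x hx

omit [NeZero M] in
theorem units_spec : ∀ n : ℕ, units M n = ((range n).filter fun a => M.Coprime a).card
  | 0 => rfl
  | n + 1 => by
      show (bif Nat.beq (Nat.gcd n M) 1 then 1 else 0) + units M n = _
      rw [units_spec n, Finset.range_add_one, Finset.filter_insert]
      by_cases hc : M.Coprime n
      · have h1 : Nat.beq (Nat.gcd n M) 1 = true := by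
          rw [Nat.gcd_comm, show Nat.gcd M n = 1 from hc]
          rfl
        rw [if_pos hc, h1, Finset.card_insert_of_notMem (by simp), cond_true, add_comm]
      · have h1 : Nat.beq (Nat.gcd n M) 1 = false := by
          rw [Nat.gcd_comm]
          cases hb : Nat.beq (Nat.gcd M n) 1 with
          | false => rfl
          | true => exact absurd (Nat.eq_of_beq_eq_true hb) hc
        rw [if_neg hc, h1, cond_false, zero_add]

end

/-- soundness of the checker -/
theorem chk_sound (hB : StBasic) (hR : StRank) {M p f u k : ℕ} (S : Setup M p f u k)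
    {pw R1 R2 B0 B1 P : List ℕ} {Sc lam : List Rel} {bp X : List (List ℤ)}
    (h : chk M u k pw R1 R2 B0 B1 P Sc lam bp X = true) : LP M p f := by
  have hM0 : 0 < M := Nat.lt_trans Nat.zero_lt_one S.hM
  have : NeZero M := ⟨hM0.ne'⟩
  unfold chk at h
  simp only [force_eq] at h
  rw [Bool.and_eq_true, Bool.and_eq_true, Bool.and_eq_true, Bool.and_eq_true, Bool.and_eq_true,
    Bool.and_eq_true, Bool.and_eq_true, Bool.and_eq_true, Bool.and_eq_true, Bool.and_eq_true] at h
  obtain ⟨⟨⟨⟨⟨⟨⟨⟨-, hM1024⟩, -⟩, hpw⟩, hneg⟩, hr⟩, hB0⟩, hB1⟩, ⟨htab, hP⟩, h⟩ := h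
  have hTab : Tab M p f k (mkE M pw R2 R1) (mkT M pw (R1 ++ R2)) := by
    refine S.tab hB hpw (Nat.le_of_ble_eq_true hM1024) fun y hy0 hyM => ?_
    have h1 := allBelow_spec _ M htab y hyM
    have h2 : Nat.beq y 0 = false := by
      cases hb : Nat.beq y 0 with
      | false => rfl
      | true => exact absurd (Nat.eq_of_beq_eq_true hb) hy0.ne'
    simpa [h2] using h1
  clear htab
  revert h hP hTab
  generalize mkE M pw R2 R1 = E
  generalize mkT M pw (R1 ++ R2) = T
  intro h hP hTab
  -- the group
  set bs : List (ZMod M → ℤ) := B1.map fun b : ℕ => Pi.single (b : ZMod M) 1 with hbs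
  set G0 : AddSubgroup (ZMod M → ℤ) := AddSubgroup.closure
    (GP M p f ∪ {v | ∃ b ∈ B0, v = Pi.single (b : ZMod M) 1}) with hG0
  have hG : AddSubgroup.closure (GP M p f) ≤ G0 := AddSubgroup.closure_mono Set.subset_union_left
  have hInit : Inv G0 bs (init0 P (init0 B0 (0, initB1 0 B1))) := by
    refine init0_spec (init0_spec ?_ B0 ?_) P ?_
    · intro r v hrv
      have h1 : findL r (initB1 0 B1) = some v := by
        have h2 : (bif Nat.beq ((0 >>> r) % 2) 1 then some [] else findL r (initB1 0 B1)) =
          some v := hrv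
        rw [Nat.zero_shiftRight] at h2
        exact h2
      obtain ⟨j, hj, rfl, rfl⟩ := findL_initB1 _ _ _ _ h1
      have hj' : j < bs.length := by rw [hbs, List.length_map]; exact hj
      rw [zero_add, ev_vunit bs j hj', show bs[j] = Pi.single ((B1[j] : ℕ) : ZMod M) 1 by
        simp [hbs], sub_self]
      exact zero_mem _
    · intro b hb
      exact AddSubgroup.subset_closure (Or.inr ⟨b, hb, rfl⟩)
    · intro b hb
      obtain ⟨h2, h3⟩ := S.allPure_spec hTab P hP b hb
      exact hG (AddSubgroup.subset_closure (Or.inr ⟨_, h2, h3, rfl⟩))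
  cases hst : steps M k E T Sc (init0 P (init0 B0 (0, initB1 0 B1))) with
  | none => rw [hst] at h; exact absurd h (by simp)
  | some st =>
    rw [hst] at h
    have h' : chkEnd M k E T B1 lam bp X st = true := h
    have hI := S.steps_spec hB hTab hG Sc _ st hInit hst
    unfold chkEnd at h'
    rw [Bool.and_eq_true] at h'
    obtain ⟨hall, hend⟩ := h'
    cases hlam : lams M k E T st lam with
    | none => rw [hlam] at hend; exact absurd hend (by simp)
    | some L =>
      rw [hlam] at hend
      have hend' : (Nat.beq X.length B1.length && rows (appendL bp L) 0 X) = true := hend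
      rw [Bool.and_eq_true] at hend'
      obtain ⟨hlen, hrows⟩ := hend'
      have hlen' : X.length = B1.length := Nat.eq_of_beq_eq_true hlen
      have hLG := S.lams_spec hB hTab hG hI lam L hlam
      -- the generators
      set W : List (ZMod M → ℤ) := (B0.map fun b : ℕ => Pi.single (b : ZMod M) 1) ++
        bp.map (ev bs) with hW
      have hWlen : W.length = B0.length + bp.length := by
        rw [hW, List.length_append, List.length_map, List.length_map]
      set G : AddSubgroup (ZMod M → ℤ) := AddSubgroup.closure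
        (GP M p f ∪ Set.range fun i : Fin W.length => W[i]) with hGdef
      have hWmem : ∀ w ∈ W, w ∈ G := by
        intro w hw
        obtain ⟨i, hi, rfl⟩ := List.mem_iff_getElem.mp hw
        exact AddSubgroup.subset_closure (Or.inr ⟨⟨i, hi⟩, rfl⟩)
      have hG0G : G0 ≤ G := by
        rw [hG0, AddSubgroup.closure_le]
        rintro v (hv | ⟨b, hb, rfl⟩)
        · exact AddSubgroup.subset_closure (Or.inl hv)
        · exact hWmem _ (List.mem_append_left _ (List.mem_map.mpr ⟨b, hb, rfl⟩))
      have hbp : ∀ l ∈ appendL bp L, ev bs l ∈ G := by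
        intro l hl
        rcases mem_appendL _ _ _ hl with h1 | h1
        · exact hWmem _ (List.mem_append_right _ (List.mem_map.mpr ⟨l, h1, rfl⟩))
        · exact hG0G (hLG l h1)
      have hbslen : bs.length = B1.length := by rw [hbs, List.length_map]
      have hbsG : ∀ b ∈ bs, b ∈ G := by
        intro b hb
        obtain ⟨j, hj, rfl⟩ := List.mem_iff_getElem.mp hb
        exact rows_spec G bs (appendL bp L) hbp X 0 hrows (by omega) j (Nat.zero_le _)
          (by omega) hj
      obtain ⟨P', hP'⟩ := IsUnit.of_pow_eq_one S.hpf S.hf.ne'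
      refine lp_of_span hB hR S.hM S.hf P' hP' ?_ (S.notNeg hpw hneg P' hP') W.length
        (fun i : Fin W.length => W[i]) ?_ ?_
      · apply Units.ext
        rw [Units.val_pow_eq_pow_val, hP', S.hpf, Units.val_one]
      · have h1 : 2 * (B0.length + bp.length) * k ≤ units M M := Nat.le_of_ble_eq_true hr
        rw [units_spec, ← Nat.totient_eq_card_coprime] at h1
        rw [hWlen]
        exact le_trans (Nat.mul_le_mul_left _ (S.order_le P' hP')) h1
      · intro x hx
        have hxv : ((x.val : ℕ) : ZMod M) = x := ZMod.natCast_zmod_val x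
        have hx0 : 0 < x.val := Nat.pos_of_ne_zero fun h0 => hx ((ZMod.val_eq_zero x).mp h0)
        have h1 := allBelow_spec _ M hall x.val (ZMod.val_lt x)
        have h2 : Nat.beq x.val 0 = false := by
          cases hb : Nat.beq x.val 0 with
          | false => rfl
          | true => exact absurd (Nat.eq_of_beq_eq_true hb) hx0.ne'
        simp only [h2, Bool.false_or] at h1
        obtain ⟨v, hv⟩ := Option.isSome_iff_exists.mp h1
        have h3 := hG0G (hI _ _ hv)
        have h4 : Pi.single ((look E x.val / 1024 : ℕ) : ZMod M) 1 ∈ G := by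
          have h5 := add_mem h3 (ev_mem G bs v hbsG)
          rwa [sub_add_cancel] at h5
        have hsub : Sub M p f ≤ G := le_trans (AddSubgroup.closure_mono Set.subset_union_left)
          (le_trans hG hG0G)
        have h6 := hTab.hc x.val hx0 (ZMod.val_lt x)
        cases hs : Nat.beq (look E x.val / 512 % 2) 0 with
        | true =>
          have h7 := add_mem (hsub (h6.1 hs)) h4
          rwa [sub_add_cancel, hxv] at h7
        | false =>
          have h7 := sub_mem (hsub (h6.2 hs)) h4
          rwa [add_sub_cancel_right, hxv] at h7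

end Pool.Agent.Lib.MP81632f.Diag.Comp
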