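import Pool.Agent.Lib.MP_81632f_ag.Diag.CompCheck

/-!
# Composite degrees: covering all primes by the classes
-/

set_option autoImplicit false

namespace Pool.Agent.Lib.MP81632f.Diag.Comp

open Finset

/-- the class of `u` (of order `k`) modulo `M` is checked -/
def Good (M u k : ℕ) : Prop :=
  ∃ (pw R1 R2 B0 B1 P : List ℕ) (S lam : List Rel) (bp X : List (List ℤ)),
    chk M u k pw R1 R2 B0 B1 P S lam bp X = true

theorem good_of_chkP (M u k : ℕ) (pw : List ℕ) (R1 R2 B0 B1 P S lam : ℕ)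
    (bp X : List (List ℤ)) (h : chkP M u k pw R1 R2 B0 B1 P S lam bp X = true) : Good M u k :=
  ⟨_, _, _, _, _, _, _, _, _, _, h⟩

def AllGood (M : ℕ) : List (ℕ × ℕ) → Prop
  | [] => True
  | e :: l => Good M e.1 e.2 ∧ AllGood M l

/-- `-1` is among `a v ^ j`, `j < n` -/
def ssq (M v : ℕ) : ℕ → ℕ → Bool
  | 0, _ => false
  | n + 1, a => Nat.beq a (M - 1) || ssq M v n (a * v % M)

/-- `v` is `u ^ i` for some `i < n` prime to `k` -/
def powq (M v u k : ℕ) : ℕ → Bool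
  | 0 => false
  | n + 1 => (Nat.beq (Nat.gcd n k) 1 && Nat.beq (u ^ n % M) (v % M)) || powq M v u k n

def cov1 (M v : ℕ) : List (ℕ × ℕ) → Bool
  | [] => ssq M v 200 1
  | (u, k) :: l => powq M v u k (k + 1) || cov1 M v l

def cov (M : ℕ) (E : List (ℕ × ℕ)) : Bool :=
  allBelow (fun v => !(Nat.beq (Nat.gcd v M) 1) || cov1 M v E) M

theorem ssq_spec {M v : ℕ} : ∀ (n a : ℕ), ssq M v n a = true →
    ∃ j : ℕ, ((M - 1 : ℕ) : ZMod M) = (a : ZMod M) * (v : ZMod M) ^ j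
  | 0, _, h => absurd h (by simp [ssq])
  | n + 1, a, h => by
      have h' : (Nat.beq a (M - 1) || ssq M v n (a * v % M)) = true := h
      rw [Bool.or_eq_true] at h'
      rcases h' with h1 | h1
      · exact ⟨0, by rw [pow_zero, mul_one, Nat.eq_of_beq_eq_true h1]⟩
      · obtain ⟨j, hj⟩ := ssq_spec n _ h1
        refine ⟨j + 1, ?_⟩
        rw [hj, ZMod.natCast_mod, Nat.cast_mul, pow_succ']
        ring

theorem powq_spec {M v u k : ℕ} : ∀ n : ℕ, powq M v u k n = true →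
    ∃ i : ℕ, Nat.Coprime i k ∧ (v : ZMod M) = (u : ZMod M) ^ i
  | 0, h => absurd h (by simp [powq])
  | n + 1, h => by
      have h' : ((Nat.beq (Nat.gcd n k) 1 && Nat.beq (u ^ n % M) (v % M)) ||
        powq M v u k n) = true := h
      rw [Bool.or_eq_true, Bool.and_eq_true] at h'
      rcases h' with ⟨h1, h2⟩ | h1
      · refine ⟨n, Nat.eq_of_beq_eq_true h1, ?_⟩
        have h3 : u ^ n % M = v % M := Nat.eq_of_beq_eq_true h2
        have h4 : ((u ^ n : ℕ) : ZMod M) = (v : ZMod M) := (ZMod.natCast_eq_natCast_iff' _ _ _).mpr h3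
        rw [← h4, Nat.cast_pow]
      · exact powq_spec n h1

theorem cov1_spec {M v : ℕ} : ∀ E : List (ℕ × ℕ), cov1 M v E = true → AllGood M E →
    (∃ j : ℕ, ((M - 1 : ℕ) : ZMod M) = (v : ZMod M) ^ j) ∨
    ∃ u k : ℕ, Good M u k ∧ ∃ i : ℕ, Nat.Coprime i k ∧ (v : ZMod M) = (u : ZMod M) ^ i
  | [], h, _ => by
      obtain ⟨j, hj⟩ := ssq_spec 200 1 h
      exact Or.inl ⟨j, by rw [hj, Nat.cast_one, one_mul]⟩
  | (u, k) :: l, h, hE => by
      have h' : (powq M v u k (k + 1) || cov1 M v l) = true := h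
      rw [Bool.or_eq_true] at h'
      rcases h' with h1 | h1
      · obtain ⟨i, hi⟩ := powq_spec _ h1
        exact Or.inr ⟨u, k, hE.1, i, hi⟩
      · exact cov1_spec l h1 hE.2

theorem cast_pred {M : ℕ} (hM : 0 < M) : ((M - 1 : ℕ) : ZMod M) = -1 := by
  rw [Nat.cast_sub hM, ZMod.natCast_self, Nat.cast_one, zero_sub]

/-- the supersingular case -/
theorem lp_ss (hB : StBasic) {M p f : ℕ} (hM : 1 < M) (hf : 0 < f) (hp : (p : ZMod M) ^ f = 1)
    (j : ℕ) (hj : (-1 : ZMod M) = (p : ZMod M) ^ j) : LP M p f := by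
  have : NeZero M := ⟨(Nat.lt_trans Nat.zero_lt_one hM).ne'⟩
  obtain ⟨hb1, hb2, hb3, hb4, hb5⟩ := hB M p f hM hf hp
  have hpu : IsUnit (p : ZMod M) := IsUnit.of_pow_eq_one hp hf.ne'
  have hpure : ∀ x : ZMod M, x ≠ 0 → ∀ t : (ZMod M)ˣ, saw M p f t x = 0 := by
    intro x hx t
    have h1 : ∀ j : ℕ, saw M p f t ((p : ZMod M) ^ j * x) = saw M p f t x := by
      intro j
      induction j with
      | zero => rw [pow_zero, one_mul]
      | succ j ih => rw [pow_succ', mul_assoc, Basic.saw_p hp, ih]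
    have h2 := h1 j
    rw [← hj, neg_one_mul, hb4 t x t.isUnit hx] at h2
    omega
  intro X hX0 _ heven
  have hX : cnt X ∈ AddSubgroup.closure (GP M p f) := by
    rw [cnt_eq_sum]
    refine AddSubgroup.multiset_sum_mem _ _ ?_
    intro v hv
    obtain ⟨x, hx, rfl⟩ := Multiset.mem_map.mp hv
    have hx0 : x ≠ 0 := fun h => hX0 (h ▸ hx)
    exact AddSubgroup.subset_closure (Or.inr ⟨x, hx0, hpure x hx0, rfl⟩)
  rcases (pure_part hB hM hf hp hX).2 with h | ⟨y, hy, hyp, h⟩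
  · exact h
  · exfalso
    have h5 := (hb5 _ h).2.1
    have h6 : ∑ x, (cnt X - Pi.single y 1 : ZMod M → ℤ) x = (Multiset.card X : ℤ) - 1 := by
      simp only [Pi.sub_apply, Finset.sum_sub_distrib]
      rw [Basic.sum_cnt, Finset.sum_pi_single']
      simp
    rw [h6] at h5
    obtain ⟨c, hc⟩ := h5
    obtain ⟨d, hd⟩ := heven
    omega

/-- one class -/
theorem lp_good (hB : StBasic) (hR : StRank) {M u k : ℕ} (hG : Good M u k) {p f : ℕ} (hM : 1 < M)
    (hf : 0 < f) (hp : (p : ZMod M) ^ f = 1) (i : ℕ) (hi : Nat.Coprime i k)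
    (hpi : (p : ZMod M) = (u : ZMod M) ^ i) : LP M p f := by
  obtain ⟨pw, R1, R2, B0, B1, P, S, lam, bp, X, h⟩ := hG
  have h0 := h
  unfold chk at h0
  simp only [force_eq] at h0
  rw [Bool.and_eq_true, Bool.and_eq_true, Bool.and_eq_true, Bool.and_eq_true, Bool.and_eq_true,
    Bool.and_eq_true, Bool.and_eq_true, Bool.and_eq_true] at h0
  obtain ⟨⟨⟨⟨⟨⟨⟨⟨-, -⟩, hk⟩, hpw⟩, -⟩, -⟩, -⟩, -⟩, -⟩ := h0
  have hk' : 0 < k := Nat.le_of_ble_eq_true hk
  obtain ⟨-, huk, -, -⟩ := isPw_spec (Nat.lt_trans Nat.zero_lt_one hM) k 1 pw hpw hM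
  rw [Nat.cast_one, one_mul] at huk
  refine chk_sound hB hR (⟨hM, hf, hp, hk', huk, ⟨i, hpi⟩, ?_⟩ : Setup M p f u k) h
  rcases Nat.eq_or_lt_of_le hk' with h1 | h1
  · have hk1 : k = 1 := h1.symm
    rw [hk1, pow_one] at huk
    exact ⟨0, by rw [huk, pow_zero]⟩
  · obtain ⟨a, ha⟩ := Nat.exists_mul_mod_eq_one_of_coprime hi h1
    refine ⟨a, ?_⟩
    have h2 : (u : ZMod M) ^ (i * a) = u := by
      conv_lhs => rw [← Nat.div_add_mod (i * a) k]
      rw [pow_add, pow_mul, huk, one_pow, one_mul, ha.2, pow_one]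
    rw [hpi, ← pow_mul, h2]

theorem pow_one_of_dvd {M p f : ℕ} (hp : 0 < p) (h : M ∣ p ^ f - 1) : (p : ZMod M) ^ f = 1 := by
  have h1 : ((p ^ f - 1 : ℕ) : ZMod M) = 0 := (ZMod.natCast_eq_zero_iff _ _).mpr h
  rw [Nat.cast_sub (Nat.one_le_pow _ _ hp), Nat.cast_pow, Nat.cast_one, sub_eq_zero] at h1
  exact h1

theorem lp_cov1 (hB : StBasic) (hR : StRank) {M p f : ℕ} (E : List (ℕ × ℕ)) (hE : AllGood M E)
    (hc : cov1 M (p % M) E = true) (hM : 1 < M) (hp : 0 < p) (hf : 0 < f) (h : M ∣ p ^ f - 1) :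
    LP M p f := by
  have h1 := pow_one_of_dvd hp h
  rcases cov1_spec E hc hE with ⟨j, hj⟩ | ⟨u, k, hG, i, hi, hv⟩
  · rw [ZMod.natCast_mod, cast_pred (Nat.lt_trans Nat.zero_lt_one hM)] at hj
    exact lp_ss hB hM hf h1 j hj
  · rw [ZMod.natCast_mod] at hv
    exact lp_good hB hR hG hM hf h1 i hi hv

theorem lp_cov (hB : StBasic) (hR : StRank) {M p f : ℕ} (E : List (ℕ × ℕ)) (hE : AllGood M E)
    (hc : cov M E = true) (hM : 1 < M) (hp : p.Prime) (hpM : ¬ p ∣ M) (hf : 0 < f)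
    (h : M ∣ p ^ f - 1) : LP M p f := by
  have h0 : 0 < M := Nat.lt_trans Nat.zero_lt_one hM
  refine lp_cov1 hB hR E hE ?_ hM hp.pos hf h
  have h1 := allBelow_spec _ M hc (p % M) (Nat.mod_lt _ h0)
  have h2 : Nat.gcd (p % M) M = 1 := by
    rw [← Nat.gcd_rec, Nat.gcd_comm]
    exact (Nat.Prime.coprime_iff_not_dvd hp).mpr hpM
  rw [h2] at h1
  simpa using h1

theorem oc {p : ℕ} (hp : p.Prime) (M a N : ℕ) (h : M = p ^ a * N) (hN : ¬ p ∣ N) :
    ordCompl[p] M = N := by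
  have hN0 : N ≠ 0 := fun h0 => hN (h0 ▸ dvd_zero p)
  have h1 : M.factorization p = a := by
    rw [h, Nat.factorization_mul (pow_ne_zero _ hp.ne_zero) hN0, Finsupp.add_apply,
      hp.factorization_pow, Finsupp.single_eq_same, Nat.factorization_eq_zero_of_not_dvd hN, add_zero]
  rw [h1, h, Nat.mul_div_cancel_left _ (pow_pos hp.pos _)]

/-- the prime divisors of the degrees -/
theorem prime_cases {p M : ℕ} (hp : p.Prime) (h : p ∣ M) (n : ℕ)
    (hM : M ∣ (2 * (3 * (5 * (7 * (11 * 13))))) ^ n) :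
    p = 2 ∨ p = 3 ∨ p = 5 ∨ p = 7 ∨ p = 11 ∨ p = 13 := by
  have h1 := hp.dvd_of_dvd_pow (h.trans hM)
  have key : ∀ q m : ℕ, q.Prime → p ∣ q * m → p = q ∨ p ∣ m := by
    intro q m hq hm
    rcases (Nat.Prime.dvd_mul hp).mp hm with h2 | h2
    · exact Or.inl ((Nat.prime_dvd_prime_iff_eq hp hq).mp h2)
    · exact Or.inr h2
  rcases key 2 _ (by norm_num) h1 with h2 | h2
  · exact Or.inl h2
  rcases key 3 _ (by norm_num) h2 with h3 | h3
  · exact Or.inr (Or.inl h3)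
  rcases key 5 _ (by norm_num) h3 with h4 | h4
  · exact Or.inr (Or.inr (Or.inl h4))
  rcases key 7 _ (by norm_num) h4 with h5 | h5
  · exact Or.inr (Or.inr (Or.inr (Or.inl h5)))
  rcases key 11 _ (by norm_num) h5 with h6 | h6
  · exact Or.inr (Or.inr (Or.inr (Or.inr (Or.inl h6))))
  · exact Or.inr (Or.inr (Or.inr (Or.inr (Or.inr
      ((Nat.prime_dvd_prime_iff_eq hp (by norm_num)).mp h6)))))

end Pool.Agent.Lib.MP81632f.Diag.Comp
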