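import Pool.Agent.Lib.MP_81632f_ag.Diag.Stmts2

/-!
# Composite degrees: the checker (definitions)
-/

set_option autoImplicit false

namespace Pool.Agent.Lib.MP81632f.Diag.Comp

/-- `l` is the list of the powers `a, a u, a u ^ 2, …, a u ^ (k - 1)` modulo `M`, and `a u ^ k = 1` -/
def isPw (M u : ℕ) : ℕ → ℕ → List ℕ → Bool
  | 0, a, [] => Nat.beq a 1
  | k + 1, a, b :: l => Nat.beq a b && isPw M u k (a * u % M) l
  | _, _, _ => false

/-- `∑ (h y mod M)` over the list -/
def tv (M y : ℕ) : List ℕ → ℕ
  | [] => 0
  | h :: l => h * y % M + tv M y l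

/-- entries of the orbit of `r`: the entry of `y = h r`, `h` the power number `j`, is
`1024 r + j` -/
def mkP (M r : ℕ) : ℕ → List ℕ → ℕ
  | _, [] => 0
  | j, h :: l => bif !(Nat.beq j 0) && Nat.beq (h * r % M) r then 0 else
      ((r * 1024 + j) <<< (20 * (h * r % M))) + mkP M r (j + 1) l

/-- entries of the orbit of `-r`: the entry of `y = - h r` is `1024 r + 512 + j` -/
def mkN (M r : ℕ) : ℕ → List ℕ → ℕ
  | _, [] => 0
  | j, h :: l => bif !(Nat.beq j 0) && Nat.beq (h * r % M) r then 0 else
      ((r * 1024 + 512 + j) <<< (20 * (M - h * r % M))) + mkN M r (j + 1) l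

/-- table of the entries; `R2` are the orbits with `-r` in the orbit of `r` -/
def mkE (M : ℕ) (pw R2 : List ℕ) : List ℕ → ℕ
  | [] => go M pw R2
  | r :: R => mkP M r 0 pw + (mkN M r 0 pw + mkE M pw R2 R)
where
  go (M : ℕ) (pw : List ℕ) : List ℕ → ℕ
  | [] => 0
  | r :: R => mkP M r 0 pw + go M pw R

/-- table of the sums `tv` of the representatives -/
def mkT (M : ℕ) (pw : List ℕ) : List ℕ → ℕ
  | [] => 0
  | r :: R => (tv M r pw <<< (20 * r)) + mkT M pw R

/-- packed list -/
def packL : List ℕ → ℕ
  | [] => 0
  | h :: l => h % 1048576 + 1048576 * packL l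

/-- lookup in a packed table -/
def look (T y : ℕ) : ℕ := (T >>> (20 * y)) % 1048576

/-- evaluate the argument first -/
def force {α : Type} (T : ℕ) (k : ℕ → α) : α :=
  match T with
  | 0 => k 0
  | n + 1 => k (n + 1)

def vadd : List ℤ → List ℤ → List ℤ
  | [], ys => ys
  | x :: xs, [] => x :: xs
  | x :: xs, y :: ys => (x + y) :: vadd xs ys

def vsmul (c : ℤ) : List ℤ → List ℤ
  | [] => []
  | x :: xs => (c * x) :: vsmul c xs

def vcomb : List ℤ → List (List ℤ) → List ℤ
  | x :: xs, l :: ls => vadd (vsmul x l) (vcomb xs ls)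
  | _, _ => []

def vunit : ℕ → List ℤ
  | 0 => [1]
  | n + 1 => 0 :: vunit n

def vzero : List ℤ → Bool
  | [] => true
  | x :: xs => decide (x = 0) && vzero xs

/-- check of the table entries of `y` -/
def chkY (M E W T : ℕ) (pw : List ℕ) (y : ℕ) : Bool :=
  force (look E y) fun e => force (e / 1024) fun r => force (look W (e % 512) * r % M) fun z =>
    Nat.ble (r + 1) M && Nat.beq (look E r) (r * 1024) &&
    (bif Nat.beq (e / 512 % 2) 0 then Nat.beq z y else Nat.beq (M - z) y) &&
    (bif Nat.beq r y then Nat.beq (look T y) (tv M y pw) else true)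

/-- the value of `tv` at `y` from the tables -/
def vl (M k E T y : ℕ) : ℕ :=
  force (look E y) fun e =>
    bif Nat.beq (e / 512 % 2) 0 then look T (e / 1024) else k * M - look T (e / 1024)

/-- the state: a bit mask of known elements with value zero, and a list -/
abbrev State := ℕ × List (ℕ × List ℤ)

def findL (r : ℕ) : List (ℕ × List ℤ) → Option (List ℤ)
  | [] => none
  | (a, v) :: st => bif Nat.beq a r then some v else findL r st

def find (r : ℕ) (st : State) : Option (List ℤ) :=
  match st with
  | (m, l) => bif Nat.beq ((m >>> r) % 2) 1 then some [] else findL r l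

def ins (r : ℕ) (v : List ℤ) (st : State) : State :=
  match st with
  | (m, l) => bif vzero v then force (m ||| (1 <<< r)) fun m' => (m', l) else (m, (r, v) :: l)

/-- the relations -/
inductive Rel
  | dh (l x : ℕ)
  | a1 (a b : ℕ)
  | a2 (a b c d : ℕ)
  | a3 (a b c d e f : ℕ)

def dhl (M d x : ℕ) : ℕ → List ℕ → List ℕ
  | 0, l => l
  | n + 1, l => ((x + n * d) % M) :: dhl M d x n l

/-- the (reduced) list of residues of a relation -/
def Rel.list (M : ℕ) : Rel → List ℕ
  | .dh l x => dhl M (M / l) x l [(M - l * x % M) % M]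
  | .a1 a b => [a, b]
  | .a2 a b c d => [a, b, c, d]
  | .a3 a b c d e f => [a, b, c, d, e, f]

def lsum (M k E T t : ℕ) : List ℕ → ℕ
  | [] => 0
  | y :: l => vl M k E T (t * y % M) + lsum M k E T t l

def len : List ℕ → ℕ
  | [] => 0
  | _ :: l => len l + 1

def allBelow (P : ℕ → Bool) : ℕ → Bool
  | 0 => true
  | n + 1 => P n && allBelow P n

/-- `l` is balanced -/
def bal (M k E T : ℕ) (l : List ℕ) : Bool :=
  allBelow (fun t => !(Nat.beq (Nat.gcd t M) 1) ||
    Nat.beq (2 * lsum M k E T t l) (len l * (M * k))) M

def inR (M : ℕ) : List ℕ → Bool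
  | [] => true
  | y :: l => Nat.ble 1 y && Nat.ble (y + 1) M && inR M l

def primeq (l : ℕ) : Bool :=
  Nat.beq l 2 || Nat.beq l 3 || Nat.beq l 5 || Nat.beq l 7 || Nat.beq l 11 || Nat.beq l 13 ||
    Nat.beq l 17 || Nat.beq l 19 || Nat.beq l 23 || Nat.beq l 29 || Nat.beq l 31

def Rel.ok (M k E T : ℕ) : Rel → Bool
  | .dh l x => primeq l && Nat.beq (M % l) 0 && !(Nat.beq (l * x % M) 0)
  | .a1 a b => inR M [a, b] && bal M k E T [a, b]
  | .a2 a b c d => inR M [a, b, c, d] && Nat.beq ((b + c + d) % M) 0 && bal M k E T [a, b, c, d]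
  | .a3 a b c d e f => inR M [a, b, c, d, e, f] && Nat.beq ((a + b + c) % M) 0 &&
      Nat.beq ((d + e + f) % M) 0 && bal M k E T [a, b, c, d, e, f]

/-- evaluate: the sum of the known elements of the list, the unknown one, its coefficient -/
def evl (E : ℕ) (st : State) : List ℕ → Option (List ℤ × ℕ × ℤ)
  | [] => some ([], 0, 0)
  | y :: g =>
    match evl E st g with
    | none => none
    | some (acc, r, net) =>
      force (look E y) fun e =>
        match find (e / 1024) st with
        | some v => some (vadd (bif Nat.beq (e / 512 % 2) 0 then v else vsmul (-1) v) acc, r, net)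
        | none => bif decide (net = 0) || Nat.beq r (e / 1024) then
            some (acc, e / 1024, net + (bif Nat.beq (e / 512 % 2) 0 then 1 else -1)) else none

/-- one step: a new known element -/
def step (M k E T : ℕ) (st : State) (g : Rel) : Option State :=
  bif g.ok M k E T then
    match evl E st (g.list M) with
    | none => none
    | some (acc, r, net) =>
      bif decide (net = 1) then some (ins r (vsmul (-1) acc) st) else
        bif decide (net = -1) then some (ins r acc st) else none
  else none

def steps (M k E T : ℕ) : List Rel → State → Option State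
  | [], st => some st
  | g :: gs, st =>
    match step M k E T st g with
    | none => none
    | some st' => steps M k E T gs st'

/-- the values of relations between known elements -/
def lams (M k E T : ℕ) (st : State) : List Rel → Option (List (List ℤ))
  | [] => some []
  | g :: gs =>
    bif g.ok M k E T then
      match evl E st (g.list M) with
      | none => none
      | some (acc, _, net) =>
        bif decide (net = 0) then
          match lams M k E T st gs with
          | none => none
          | some L => some (acc :: L)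
        else none
    else none

def rows (L : List (List ℤ)) : ℕ → List (List ℤ) → Bool
  | _, [] => true
  | i, X :: Xs => vzero (vadd (vcomb X L) (vsmul (-1) (vunit i))) && rows L (i + 1) Xs

def initB1 : ℕ → List ℕ → List (ℕ × List ℤ)
  | _, [] => []
  | i, b :: bs => (b, vunit i) :: initB1 (i + 1) bs

def init0 : List ℕ → State → State
  | [], st => st
  | b :: bs, st => ins b [] (init0 bs st)

def allPure (M k E T : ℕ) : List ℕ → Bool
  | [] => true
  | x :: l => Nat.ble 1 x && Nat.ble (x + 1) M && bal M k E T [x] && allPure M k E T l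

def appendL (L : List (List ℤ)) : List (List ℤ) → List (List ℤ)
  | [] => L
  | x :: l => x :: appendL L l

def notNeg (M : ℕ) : List ℕ → Bool
  | [] => true
  | h :: l => !(Nat.beq h (M - 1)) && notNeg M l

/-- number of units below `n` -/
def units (M : ℕ) : ℕ → ℕ
  | 0 => 0
  | n + 1 => (bif Nat.beq (Nat.gcd n M) 1 then 1 else 0) + units M n

/-- decode digits in base 1024 -/
def dec : ℕ → ℕ → List ℕ
  | 0, _ => []
  | n + 1, a => bif Nat.beq a 0 then [] else (a % 1024) :: dec n (a / 1024)

/-- decode relations -/
def decR : ℕ → List ℕ → List Rel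
  | 0, _ => []
  | n + 1, l =>
    match l with
    | 1 :: a :: b :: l => .dh a b :: decR n l
    | 2 :: a :: b :: l => .a1 a b :: decR n l
    | 4 :: a :: b :: c :: d :: l => .a2 a b c d :: decR n l
    | 6 :: a :: b :: c :: d :: e :: f :: l => .a3 a b c d e f :: decR n l
    | _ => []

/-- the last part of the checker -/
def chkEnd (M k E T : ℕ) (B1 : List ℕ) (lam : List Rel) (bp X : List (List ℤ))
    (st : State) : Bool :=
  (allBelow (fun y => Nat.beq y 0 || (find (look E y / 1024) st).isSome) M) &&
    match lams M k E T st lam with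
    | none => false
    | some L => Nat.beq X.length B1.length && rows (appendL bp L) 0 X

/-- the checker -/
def chk (M u k : ℕ) (pw R1 R2 B0 B1 P : List ℕ) (S lam : List Rel) (bp X : List (List ℤ)) :
    Bool :=
  Nat.ble 2 M && Nat.ble M 1024 && Nat.ble 1 k && isPw M u k 1 pw && notNeg M pw &&
  Nat.ble (2 * (B0.length + bp.length) * k) (units M M) &&
  inR M B0 && inR M B1 &&
  force (mkE M pw R2 R1) fun E => force (mkT M pw (R1 ++ R2)) fun T => force (packL pw) fun W =>
    allBelow (fun y => Nat.beq y 0 || chkY M E W T pw y) M &&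
    allPure M k E T P &&
      match steps M k E T S (init0 P (init0 B0 (0, initB1 0 B1))) with
      | none => false
      | some st => chkEnd M k E T B1 lam bp X st

/-- the checker with packed data -/
def chkP (M u k : ℕ) (pw : List ℕ) (R1 R2 B0 B1 P S lam : ℕ) (bp X : List (List ℤ)) : Bool :=
  chk M u k pw (dec 700 R1) (dec 700 R2) (dec 400 B0) (dec 400 B1) (dec 700 P)
    (decR 700 (dec 4000 S)) (decR 400 (dec 2000 lam)) bp X

end Pool.Agent.Lib.MP81632f.Diag.Comp
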