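import Mathlib

/-!
# Generators of the units modulo `d`
-/

set_option autoImplicit false

noncomputable section

namespace Pool.Agent.Lib.MP81632f.Diag

open Finset

namespace Gn

/-- The units with values in `S` generate the units modulo `d`. -/
def Gens (d : ℕ) (S : Set ℕ) : Prop :=
  ∀ H : Subgroup (ZMod d)ˣ, (∀ a ∈ S, ∀ u : (ZMod d)ˣ, (u : ZMod d) = (a : ZMod d) → u ∈ H) → H = ⊤

theorem Gens.mono {d : ℕ} {S T : Set ℕ} (hST : S ⊆ T) (h : Gens d S) : Gens d T :=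
  fun H hH => h H fun a ha => hH a (hST ha)

/-- passing to a divisor -/
theorem Gens.dvd {d d' : ℕ} [NeZero d] {S : Set ℕ} (hd : d' ∣ d) (h : Gens d S) : Gens d' S := by
  intro H hH
  have h1 : H.comap (ZMod.unitsMap hd) = ⊤ := by
    refine h _ fun a ha u hu => ?_
    refine hH a ha _ ?_
    rw [ZMod.unitsMap_val, hu, ZMod.cast_natCast hd]
  rw [eq_top_iff]
  intro x _
  obtain ⟨y, rfl⟩ := ZMod.unitsMap_surjective hd x
  have h2 : y ∈ H.comap (ZMod.unitsMap hd) := by rw [h1]; exact Subgroup.mem_top y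
  exact h2

theorem one_add_pow {R : Type} [CommRing R] (x : R) (n : ℕ) :
    ∃ r : R, (1 + x) ^ n = 1 + (n : R) * x + ((n.choose 2 : ℕ) : R) * x ^ 2 + x ^ 3 * r := by
  induction n with
  | zero => exact ⟨0, by simp⟩
  | succ n ih =>
    obtain ⟨r, hr⟩ := ih
    refine ⟨r + ((n.choose 2 : ℕ) : R) + r * x, ?_⟩
    have h1 : (n + 1).choose 2 = n + n.choose 2 := by
      rw [Nat.choose_succ_succ' n 1, Nat.choose_one_right]
    rw [pow_succ, hr, h1]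
    push_cast
    ring

/-- The kernel of the reduction from `l d` to `d` is generated by an element `1 + d`. -/
theorem ker_le {l d : ℕ} [NeZero d] [NeZero (l * d)] (hld : l ∣ d) (H : Subgroup (ZMod (l * d))ˣ)
    (h : (ZMod (l * d))ˣ) (hh : (h : ZMod (l * d)) = 1 + (d : ZMod (l * d))) (hH : h ∈ H)
    {g : (ZMod (l * d))ˣ} (hg : ZMod.unitsMap (Dvd.intro_left l rfl : d ∣ l * d) g = 1) :
    g ∈ H := by
  have h1 : ((g : ZMod (l * d)).val : ZMod d) = ((1 : ℕ) : ZMod d) := by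
    have h2 := congrArg (fun z : (ZMod d)ˣ => (z : ZMod d)) hg
    simp only [ZMod.unitsMap_val, Units.val_one] at h2
    rw [ZMod.cast_eq_val] at h2
    rw [h2, Nat.cast_one]
  have hdd : (d : ZMod (l * d)) * (d : ZMod (l * d)) = 0 := by
    rw [← Nat.cast_mul, ZMod.natCast_eq_zero_iff]
    exact Nat.mul_dvd_mul_right hld d
  rw [ZMod.natCast_eq_natCast_iff] at h1
  -- `g = 1 + d j`
  have h3 : ∃ j : ℕ, (g : ZMod (l * d)) = 1 + (d : ZMod (l * d)) * (j : ZMod (l * d)) := by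
    rcases Nat.eq_zero_or_pos (g : ZMod (l * d)).val with h0 | hpos
    · -- then `d = 1`
      rw [h0] at h1
      have h4 : d ∣ 1 := (Nat.modEq_zero_iff_dvd).mp h1.symm
      have h5 : d = 1 := Nat.dvd_one.mp h4
      have h6 : l = 1 := by rw [h5] at hld; exact Nat.dvd_one.mp hld
      subst h5 h6
      refine ⟨0, ?_⟩
      have : Subsingleton (ZMod (1 * 1)) := by
        rw [mul_one]
        infer_instance
      exact Subsingleton.elim _ _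
    · obtain ⟨j, hj⟩ := (Nat.modEq_iff_dvd' (by omega : 1 ≤ (g : ZMod (l * d)).val)).mp h1.symm
      refine ⟨j, ?_⟩
      have h4 : (g : ZMod (l * d)).val = 1 + d * j := by omega
      have h5 : (g : ZMod (l * d)) = (((g : ZMod (l * d)).val : ℕ) : ZMod (l * d)) :=
        (ZMod.natCast_zmod_val _).symm
      rw [h5, h4]
      push_cast
      ring
  obtain ⟨j, hj⟩ := h3
  have h4 : g = h ^ j := by
    apply Units.ext
    rw [Units.val_pow_eq_pow_val, hh, hj]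
    have h5 : ∀ n : ℕ, (1 + (d : ZMod (l * d))) ^ n =
        1 + (d : ZMod (l * d)) * (n : ZMod (l * d)) := by
      intro n
      induction n with
      | zero => simp
      | succ n ih =>
        rw [pow_succ, ih]
        push_cast
        linear_combination (n : ZMod (l * d)) * hdd
    rw [h5]
  rw [h4]
  exact H.pow_mem hH j

/-- raising the exponent of `l` -/
theorem Gens.raise {l d e : ℕ} [NeZero (l * d)] {S : Set ℕ} (hde : d = l * e) (hle : l ∣ e)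
    (hc2 : l * l * e ∣ l.choose 2 * e ^ 2) (hc3 : l * l * e ∣ e ^ 3) (h : Gens d S) :
    Gens (l * d) S := by
  have hld : l ∣ d := ⟨e, hde⟩
  have hd0 : d ≠ 0 := fun h0 => NeZero.ne (l * d) (by rw [h0, mul_zero])
  have : NeZero d := ⟨hd0⟩
  have hdvd : d ∣ l * d := Dvd.intro_left l rfl
  intro H hH
  -- the image of `H`
  have h1 : H.map (ZMod.unitsMap hdvd) = ⊤ := by
    refine h _ fun a ha u hu => ?_
    -- `a` is a unit modulo `l d`
    have hcop : Nat.Coprime a d := by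
      have h2 : IsUnit ((a : ℕ) : ZMod d) := by rw [← hu]; exact u.isUnit
      exact (ZMod.isUnit_iff_coprime a d).mp h2
    have hcop' : Nat.Coprime a (l * d) :=
      Nat.Coprime.mul_right (hcop.coprime_dvd_right hld) hcop
    refine ⟨ZMod.unitOfCoprime a hcop', hH a ha _ (ZMod.coe_unitOfCoprime a hcop'), ?_⟩
    apply Units.ext
    rw [ZMod.unitsMap_val, ZMod.coe_unitOfCoprime, ZMod.cast_natCast hdvd, hu]
  -- an element of `H` with image `1 + e`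
  have hcope : Nat.Coprime (1 + e) d := by
    have h2 : Nat.Coprime (1 + e) e := by
      rw [Nat.coprime_add_self_left]
      exact Nat.coprime_one_left e
    rw [hde]
    exact Nat.Coprime.mul_right (h2.coprime_dvd_right hle) h2
  have h2 : ZMod.unitOfCoprime (1 + e) hcope ∈ H.map (ZMod.unitsMap hdvd) := by
    rw [h1]; exact Subgroup.mem_top _
  obtain ⟨b, hb, hbe⟩ := h2
  have h3 : ((b : ZMod (l * d)).val : ZMod d) = ((1 + e : ℕ) : ZMod d) := by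
    have h4 := congrArg (fun z : (ZMod d)ˣ => (z : ZMod d)) hbe
    simp only [ZMod.unitsMap_val, ZMod.coe_unitOfCoprime] at h4
    rw [ZMod.cast_eq_val] at h4
    exact h4
  have h4 : ∃ c : ZMod (l * d), (b : ZMod (l * d)) = 1 + (e : ZMod (l * d)) +
      (d : ZMod (l * d)) * c := by
    rw [ZMod.natCast_eq_natCast_iff] at h3
    obtain ⟨c, hc⟩ := (Nat.modEq_iff_dvd.mp h3.symm)
    refine ⟨(c : ZMod (l * d)), ?_⟩
    have h5 : (b : ZMod (l * d)) = (((b : ZMod (l * d)).val : ℤ) : ZMod (l * d)) := by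
      rw [Int.cast_natCast]
      exact (ZMod.natCast_zmod_val _).symm
    have h6 : ((b : ZMod (l * d)).val : ℤ) = 1 + e + d * c := by
      push_cast at hc
      linarith
    rw [h5, h6]
    push_cast
    ring
  obtain ⟨c, hc⟩ := h4
  -- its `l`-th power
  have hz : ∀ n : ℕ, l * l * e ∣ n → ((n : ℕ) : ZMod (l * d)) = 0 := by
    intro n hn
    rw [ZMod.natCast_eq_zero_iff, hde, ← mul_assoc]
    exact hn
  have hz1 := hz (l * l * e) dvd_rfl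
  have hz2 := hz _ hc2
  have hz3 := hz _ hc3
  push_cast at hz1 hz2 hz3
  obtain ⟨r, hr⟩ := one_add_pow ((e : ZMod (l * d)) + (d : ZMod (l * d)) * c) l
  have hdc : (d : ZMod (l * d)) = (l : ZMod (l * d)) * (e : ZMod (l * d)) := by
    rw [← Nat.cast_mul, ← hde]
  have h5 : ((b ^ l : (ZMod (l * d))ˣ) : ZMod (l * d)) = 1 + (d : ZMod (l * d)) := by
    rw [Units.val_pow_eq_pow_val, hc, add_assoc, hr, hdc]
    linear_combination c * hz1 + (1 + (l : ZMod (l * d)) * c) ^ 2 * hz2 +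
      (1 + (l : ZMod (l * d)) * c) ^ 3 * r * hz3
  rw [eq_top_iff]
  intro g _
  have h6 : ZMod.unitsMap hdvd g ∈ H.map (ZMod.unitsMap hdvd) := by
    rw [h1]; exact Subgroup.mem_top _
  obtain ⟨a, ha, hag⟩ := h6
  have h7 : g * a⁻¹ ∈ H := by
    refine ker_le hld H (b ^ l) h5 (H.pow_mem hb l) ?_
    rw [map_mul, map_inv, hag, mul_inv_cancel]
  have h8 : g = g * a⁻¹ * a := by rw [inv_mul_cancel_right]
  rw [h8]
  exact H.mul_mem h7 ha

/-- raising an odd prime from the exponent `2` on -/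
theorem Gens.raise_odd {l c : ℕ} (hl : Odd l) (hc : c ≠ 0) {S : Set ℕ}
    (h : Gens (l ^ 2 * c) S) : ∀ i : ℕ, Gens (l ^ i * c) S := by
  have hl0 : l ≠ 0 := by rintro rfl; exact absurd hl (by decide)
  have key : ∀ i : ℕ, Gens (l ^ (i + 2) * c) S := by
    intro i
    induction i with
    | zero => exact h
    | succ i ih =>
      have e1 : l ^ (i + 1 + 2) * c = l * (l ^ (i + 2) * c) := by ring
      rw [e1]
      have : NeZero (l * (l ^ (i + 2) * c)) := ⟨by positivity⟩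
      refine Gens.raise (e := l ^ (i + 1) * c) (by ring) ⟨l ^ i * c, by ring⟩ ?_ ?_ ih
      · obtain ⟨k, hk⟩ := hl
        have h2 : l.choose 2 = l * k := by
          rw [Nat.choose_two_right, hk]
          have h3 : (2 * k + 1) * (2 * k + 1 - 1) = ((2 * k + 1) * k) * 2 := by
            have h4 : 2 * k + 1 - 1 = 2 * k := by omega
            rw [h4]; ring
          rw [h3, Nat.mul_div_cancel _ (by norm_num)]
        exact ⟨k * (l ^ i * c), by rw [h2]; ring⟩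
      · exact ⟨l ^ (2 * i) * c ^ 2, by ring⟩
  intro i
  have h1 := key i
  have : NeZero (l ^ (i + 2) * c) := ⟨by positivity⟩
  exact h1.dvd ⟨l ^ 2, by ring⟩

/-- raising the prime `2` from the exponent `3` on -/
theorem Gens.raise_two {c : ℕ} (hc : c ≠ 0) {S : Set ℕ}
    (h : Gens (2 ^ 3 * c) S) : ∀ i : ℕ, Gens (2 ^ i * c) S := by
  have key : ∀ i : ℕ, Gens (2 ^ (i + 3) * c) S := by
    intro i
    induction i with
    | zero => exact h
    | succ i ih =>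
      have e1 : 2 ^ (i + 1 + 3) * c = 2 * (2 ^ (i + 3) * c) := by ring
      rw [e1]
      have : NeZero (2 * (2 ^ (i + 3) * c)) := ⟨by positivity⟩
      refine Gens.raise (e := 2 ^ (i + 2) * c) (by ring) ⟨2 ^ (i + 1) * c, by ring⟩ ?_ ?_ ih
      · have h2 : Nat.choose 2 2 = 1 := rfl
        exact ⟨2 ^ i * c, by rw [h2]; ring⟩
      · exact ⟨2 ^ (2 * i + 2) * c ^ 2, by ring⟩
  intro i
  have h1 := key i
  have : NeZero (2 ^ (i + 3) * c) := ⟨by positivity⟩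
  exact h1.dvd ⟨2 ^ 3, by ring⟩

/-- the check of a table of logarithms -/
def chkAux (d a b : ℕ) : List ℕ → ℕ → Bool
  | [], u => d ≤ u
  | n :: L, u => (Nat.gcd u d != 1 || a ^ (n % 1000) * b ^ (n / 1000) % d == u) &&
      chkAux d a b L (u + 1)

theorem chkAux_spec (d a b : ℕ) : ∀ (L : List ℕ) (u₀ : ℕ), chkAux d a b L u₀ = true →
    ∀ u, u₀ ≤ u → u < d → Nat.Coprime u d → ∃ i j, a ^ i * b ^ j % d = u := by
  intro L
  induction L with
  | nil =>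
    intro u₀ h u hu hud _
    simp only [chkAux, decide_eq_true_eq] at h
    omega
  | cons n L ih =>
    intro u₀ h u hu hud hcop
    simp only [chkAux, Bool.and_eq_true, Bool.or_eq_true, bne_iff_ne, ne_eq, beq_iff_eq] at h
    rcases Nat.eq_or_lt_of_le hu with h1 | h1
    · subst h1
      rcases h.1 with h2 | h2
      · exact absurd hcop h2
      · exact ⟨_, _, h2⟩
    · exact ih (u₀ + 1) h.2 u h1 hud hcop

/-- the check of a table of logarithms -/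
def chk (d a b : ℕ) (L : List ℕ) : Bool :=
  Nat.gcd a d == 1 && Nat.gcd b d == 1 && chkAux d a b L 0

theorem gens_of_chk {d a b : ℕ} [NeZero d] {L : List ℕ} (h : chk d a b L = true) {S : Set ℕ}
    (ha : a ∈ S) (hb : b ∈ S) : Gens d S := by
  simp only [chk, Bool.and_eq_true, beq_iff_eq] at h
  obtain ⟨⟨h1, h2⟩, h3⟩ := h
  intro H hH
  rw [eq_top_iff]
  intro u _
  have hcop : Nat.Coprime (u : ZMod d).val d := ZMod.val_coe_unit_coprime u
  obtain ⟨i, j, hij⟩ := chkAux_spec d a b L 0 h3 _ (Nat.zero_le _) (ZMod.val_lt _) hcop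
  have h4 : u = ZMod.unitOfCoprime a h1 ^ i * ZMod.unitOfCoprime b h2 ^ j := by
    apply Units.ext
    rw [Units.val_mul, Units.val_pow_eq_pow_val, Units.val_pow_eq_pow_val, ZMod.coe_unitOfCoprime,
      ZMod.coe_unitOfCoprime]
    have h5 : (u : ZMod d) = (((u : ZMod d).val : ℕ) : ZMod d) := (ZMod.natCast_zmod_val _).symm
    rw [h5, ← hij, ZMod.natCast_mod]
    push_cast
    rfl
  rw [h4]
  exact H.mul_mem (H.pow_mem (hH a ha _ (ZMod.coe_unitOfCoprime a h1)) i)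
    (H.pow_mem (hH b hb _ (ZMod.coe_unitOfCoprime b h2)) j)

/-- logarithms modulo `4` with respect to `3`, `3` -/
def t4 : List ℕ := [
  0, 0, 0, 1]

theorem g4 {S : Set ℕ} (ha : 3 ∈ S) : Gens 4 S :=
  gens_of_chk (L := t4) (by decide +kernel) ha ha

/-- logarithms modulo `8` with respect to `3`, `5` -/
def t8 : List ℕ := [
  0, 0, 0, 1, 0, 1000, 0, 1001]

theorem g8 {S : Set ℕ} (ha : 3 ∈ S) (hb : 5 ∈ S) : Gens 8 S :=
  gens_of_chk (L := t8) (by decide +kernel) ha hb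

/-- logarithms modulo `9` with respect to `5`, `5` -/
def t9a : List ℕ := [
  0, 0, 5, 0, 4, 1, 0, 2, 3]

theorem g9a {S : Set ℕ} (ha : 5 ∈ S) : Gens 9 S :=
  gens_of_chk (L := t9a) (by decide +kernel) ha ha

/-- logarithms modulo `9` with respect to `2`, `2` -/
def t9b : List ℕ := [
  0, 0, 1, 0, 2, 5, 0, 4, 3]

theorem g9b {S : Set ℕ} (ha : 2 ∈ S) : Gens 9 S :=
  gens_of_chk (L := t9b) (by decide +kernel) ha ha

/-- logarithms modulo `9` with respect to `7`, `2` -/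
def t9c : List ℕ := [
  0, 0, 1000, 0, 2, 1001, 0, 1, 1002]

theorem g9c {S : Set ℕ} (ha : 7 ∈ S) (hb : 2 ∈ S) : Gens 9 S :=
  gens_of_chk (L := t9c) (by decide +kernel) ha hb

/-- logarithms modulo `9` with respect to `7`, `5` -/
def t9d : List ℕ := [
  0, 0, 1002, 0, 2, 1000, 0, 1, 1001]

theorem g9d {S : Set ℕ} (ha : 7 ∈ S) (hb : 5 ∈ S) : Gens 9 S :=
  gens_of_chk (L := t9d) (by decide +kernel) ha hb

/-- logarithms modulo `9` with respect to `7`, `8` -/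
def t9e : List ℕ := [
  0, 0, 1001, 0, 2, 1002, 0, 1, 1000]

theorem g9e {S : Set ℕ} (ha : 7 ∈ S) (hb : 8 ∈ S) : Gens 9 S :=
  gens_of_chk (L := t9e) (by decide +kernel) ha hb

/-- logarithms modulo `25` with respect to `3`, `3` -/
def t25a : List ℕ := [
  0, 0, 3, 1, 6, 0, 4, 15, 9, 2, 0, 8, 7, 17, 18, 0, 12, 19, 5, 14, 0, 16, 11, 13, 10]

theorem g25a {S : Set ℕ} (ha : 3 ∈ S) : Gens 25 S :=
  gens_of_chk (L := t25a) (by decide +kernel) ha ha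

/-- logarithms modulo `25` with respect to `2`, `2` -/
def t25b : List ℕ := [
  0, 0, 1, 7, 2, 0, 8, 5, 3, 14, 0, 16, 9, 19, 6, 0, 4, 13, 15, 18, 0, 12, 17, 11, 10]

theorem g25b {S : Set ℕ} (ha : 2 ∈ S) : Gens 25 S :=
  gens_of_chk (L := t25b) (by decide +kernel) ha ha

/-- logarithms modulo `49` with respect to `3`, `3` -/
def t49a : List ℕ := [
  0, 0, 26, 1, 10, 29, 27, 0, 36, 2, 13, 40, 11, 33, 0, 30, 20, 25, 28, 35, 39, 0, 24, 38, 37,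
  16, 17, 3, 0, 18, 14, 7, 4, 41, 9, 0, 12, 32, 19, 34, 23, 15, 0, 6, 8, 31, 22, 5, 21]

theorem g49a {S : Set ℕ} (ha : 3 ∈ S) : Gens 49 S :=
  gens_of_chk (L := t49a) (by decide +kernel) ha ha

/-- logarithms modulo `49` with respect to `5`, `5` -/
def t49b : List ℕ := [
  0, 0, 40, 29, 38, 1, 27, 0, 36, 16, 41, 26, 25, 33, 0, 30, 34, 11, 14, 7, 39, 0, 24, 10, 23, 2,
  31, 3, 0, 18, 28, 35, 32, 13, 9, 0, 12, 4, 5, 20, 37, 15, 0, 6, 22, 17, 8, 19, 21]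

theorem g49b {S : Set ℕ} (ha : 5 ∈ S) : Gens 49 S :=
  gens_of_chk (L := t49b) (by decide +kernel) ha ha

/-- logarithms modulo `225` with respect to `2`, `7` -/
def t225 : List ℕ := [
  0, 0, 1, 0, 2, 0, 0, 1000, 3, 0, 0, 1051, 0, 1034, 1001, 0, 4, 33, 0, 18, 0, 0, 1052, 11, 0, 0,
  1035, 0, 1002, 1057, 0, 8, 5, 0, 34, 0, 0, 1044, 19, 0, 0, 1019, 0, 1030, 1053, 0, 12, 37, 0,
  50, 0, 0, 1036, 27, 0, 0, 1003, 0, 1058, 1049, 0, 16, 9, 0, 6, 0, 0, 1028, 35, 0, 0, 1047, 0,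
  1026, 1045, 0, 20, 41, 0, 22, 0, 0, 1020, 43, 0, 0, 1031, 0, 1054, 1041, 0, 24, 13, 0, 38, 0,
  0, 1012, 51, 0, 0, 1015, 0, 1022, 1037, 0, 28, 45, 0, 54, 0, 0, 1004, 59, 0, 0, 1059, 0, 1050,
  1033, 0, 32, 17, 0, 10, 0, 0, 1056, 7, 0, 0, 1043, 0, 1018, 1029, 0, 36, 49, 0, 26, 0, 0, 1048,
  15, 0, 0, 1027, 0, 1046, 1025, 0, 40, 21, 0, 42, 0, 0, 1040, 23, 0, 0, 1011, 0, 1014, 1021, 0,
  44, 53, 0, 58, 0, 0, 1032, 31, 0, 0, 1055, 0, 1042, 1017, 0, 48, 25, 0, 14, 0, 0, 1024, 39, 0,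
  0, 1039, 0, 1010, 1013, 0, 52, 57, 0, 30, 0, 0, 1016, 47, 0, 0, 1023, 0, 1038, 1009, 0, 56, 29,
  0, 46, 0, 0, 1008, 55, 0, 0, 1007, 0, 1006, 1005]

theorem g225 {S : Set ℕ} (ha : 2 ∈ S) (hb : 7 ∈ S) : Gens 225 S :=
  gens_of_chk (L := t225) (by decide +kernel) ha hb

/-- logarithms modulo `441` with respect to `2`, `5` -/
def t441 : List ℕ := [
  0, 0, 1, 0, 2, 1000, 0, 0, 3, 0, 1001, 2009, 0, 5007, 0, 0, 4, 1016, 0, 5041, 1002, 0, 2010,
  4039, 0, 2000, 5008, 0, 0, 4035, 0, 3005, 5, 0, 1017, 0, 0, 2020, 5000, 0, 1003, 5016, 0, 4020,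
  2011, 0, 4040, 3034, 0, 0, 2001, 0, 5009, 4025, 0, 3009, 0, 0, 4036, 3002, 0, 3031, 3006, 0, 6,
  25, 0, 14, 1018, 0, 0, 9, 0, 1031, 2021, 0, 5001, 0, 0, 28, 1004, 0, 5017, 1038, 0, 2016, 4021,
  0, 2012, 5026, 0, 0, 4041, 0, 3035, 17, 0, 1011, 0, 0, 2002, 5030, 0, 1021, 5010, 0, 4026,
  2035, 0, 4010, 3010, 0, 0, 2007, 0, 5039, 4037, 0, 3003, 0, 0, 4018, 3032, 0, 3007, 3000, 0,
  12, 7, 0, 26, 1036, 0, 0, 15, 0, 1019, 2033, 0, 5037, 0, 0, 10, 1034, 0, 5035, 1032, 0, 2022,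
  4003, 0, 2024, 5002, 0, 0, 4005, 0, 3023, 29, 0, 1005, 0, 0, 2026, 5018, 0, 1039, 5004, 0,
  4032, 2017, 0, 4022, 3028, 0, 0, 2013, 0, 5027, 4007, 0, 3039, 0, 0, 4000, 3020, 0, 3025, 3036,
  0, 18, 31, 0, 38, 1012, 0, 0, 21, 0, 1007, 2003, 0, 5031, 0, 0, 34, 1022, 0, 5011, 1026, 0,
  2028, 4027, 0, 2036, 5020, 0, 0, 4011, 0, 3011, 41, 0, 1041, 0, 0, 2008, 5006, 0, 1015, 5040,
  0, 4038, 2041, 0, 4034, 3004, 0, 0, 2019, 0, 5015, 4019, 0, 3033, 0, 0, 4024, 3008, 0, 3001,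
  3030, 0, 24, 13, 0, 8, 1030, 0, 0, 27, 0, 1037, 2015, 0, 5025, 0, 0, 16, 1010, 0, 5029, 1020,
  0, 2034, 4009, 0, 2006, 5038, 0, 0, 4017, 0, 3041, 11, 0, 1035, 0, 0, 2032, 5036, 0, 1033,
  5034, 0, 4002, 2023, 0, 4004, 3022, 0, 0, 2025, 0, 5003, 4031, 0, 3027, 0, 0, 4006, 3038, 0,
  3019, 3024, 0, 30, 37, 0, 20, 1006, 0, 0, 33, 0, 1025, 2027, 0, 5019, 0, 0, 40, 1040, 0, 5005,
  1014, 0, 2040, 4033, 0, 2018, 5014, 0, 0, 4023, 0, 3029, 23, 0, 1029, 0, 0, 2014, 5024, 0,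
  1009, 5028, 0, 4008, 2005, 0, 4016, 3040, 0, 0, 2031, 0, 5033, 4001, 0, 3021, 0, 0, 4030, 3026,
  0, 3037, 3018, 0, 36, 19, 0, 32, 1024, 0, 0, 39, 0, 1013, 2039, 0, 5013, 0, 0, 22, 1028, 0,
  5023, 1008, 0, 2004, 4015, 0, 2030, 5032, 0, 0, 4029, 0, 3017, 35, 0, 1023, 0, 0, 2038, 5012,
  0, 1027, 5022, 0, 4014, 2029, 0, 4028, 3016, 0, 0, 2037, 0, 5021, 4013, 0, 3015, 0, 0, 4012,
  3014, 0, 3013, 3012]

theorem g441 {S : Set ℕ} (ha : 2 ∈ S) (hb : 5 ∈ S) : Gens 441 S :=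
  gens_of_chk (L := t441) (by decide +kernel) ha hb

/-- logarithms modulo `1225` with respect to `2`, `3` -/
def t1225 : List ℕ := [
  0, 0, 1, 1000, 2, 0, 1001, 0, 3, 34, 0, 176, 1002, 1292, 0, 0, 4, 1366, 35, 1011, 0, 0, 177,
  331, 1003, 0, 1293, 1034, 0, 222, 0, 1081, 5, 1176, 1367, 0, 36, 229, 1012, 326, 0, 1217, 0,
  375, 178, 0, 332, 1110, 1004, 0, 0, 400, 1294, 107, 1035, 0, 0, 45, 223, 1267, 0, 1149, 1082,
  0, 6, 0, 1177, 413, 1368, 1331, 0, 72, 37, 1024, 230, 0, 1013, 0, 327, 322, 0, 68, 1218, 1136,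
  0, 0, 376, 1222, 179, 1059, 0, 0, 333, 115, 1111, 0, 1005, 1130, 0, 210, 0, 1273, 401, 1140,
  1295, 0, 108, 265, 1036, 134, 0, 1229, 0, 279, 46, 0, 224, 1326, 1268, 0, 0, 352, 1150, 251,
  1083, 0, 0, 201, 7, 1375, 0, 1281, 1178, 0, 414, 0, 1369, 389, 1332, 1259, 0, 144, 73, 1048,
  38, 0, 1025, 0, 231, 190, 0, 380, 1014, 1400, 0, 0, 328, 1078, 323, 1107, 0, 0, 69, 319, 1219,
  0, 1137, 1226, 0, 198, 0, 1045, 377, 1104, 1223, 0, 180, 301, 1060, 362, 0, 1241, 0, 183, 334,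
  0, 116, 1122, 1112, 0, 0, 304, 1006, 395, 1131, 0, 0, 357, 211, 1063, 0, 1413, 1274, 0, 402, 0,
  1141, 365, 1296, 1187, 0, 216, 109, 1072, 266, 0, 1037, 0, 135, 58, 0, 272, 1230, 1244, 0, 0,
  280, 1354, 47, 1155, 0, 0, 225, 103, 1327, 0, 1269, 1322, 0, 186, 0, 1237, 353, 1068, 1151, 0,
  252, 337, 1084, 170, 0, 1253, 0, 87, 202, 0, 8, 1338, 1376, 0, 0, 256, 1282, 119, 1179, 0, 0,
  93, 415, 1171, 0, 1125, 1370, 0, 390, 0, 1333, 341, 1260, 1115, 0, 288, 145, 1096, 74, 0, 1049,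
  0, 39, 346, 0, 164, 1026, 1088, 0, 0, 232, 1210, 191, 1203, 0, 0, 381, 307, 1015, 0, 1401,
  1418, 0, 174, 0, 1009, 329, 1032, 1079, 0, 324, 373, 1108, 398, 0, 1265, 0, 411, 70, 0, 320,
  1134, 1220, 0, 0, 208, 1138, 263, 1227, 0, 0, 249, 199, 1279, 0, 1257, 1046, 0, 378, 0, 1105,
  317, 1224, 1043, 0, 360, 181, 1120, 302, 0, 1061, 0, 363, 214, 0, 56, 1242, 1352, 0, 0, 184,
  1066, 335, 1251, 0, 0, 117, 91, 1123, 0, 1113, 1094, 0, 162, 0, 1201, 305, 1416, 1007, 0, 396,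
  409, 1132, 206, 0, 1277, 0, 315, 358, 0, 212, 1350, 1064, 0, 0, 160, 1414, 407, 1275, 0, 0,
  405, 403, 1387, 0, 1389, 1142, 0, 366, 0, 1297, 293, 1188, 1391, 0, 12, 217, 1144, 110, 0,
  1073, 0, 267, 82, 0, 368, 1038, 1196, 0, 0, 136, 1342, 59, 1299, 0, 0, 273, 295, 1231, 0, 1245,
  1190, 0, 150, 0, 1393, 281, 1380, 1355, 0, 48, 25, 1156, 14, 0, 1289, 0, 219, 226, 0, 104,
  1146, 1328, 0, 0, 112, 1270, 131, 1323, 0, 0, 141, 187, 1075, 0, 1101, 1238, 0, 354, 0, 1069,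
  269, 1152, 1319, 0, 84, 253, 1168, 338, 0, 1085, 0, 171, 370, 0, 260, 1254, 1040, 0, 0, 88,
  1198, 203, 1347, 0, 0, 9, 79, 1339, 0, 1377, 1286, 0, 138, 0, 1165, 257, 1344, 1283, 0, 120,
  61, 1180, 242, 0, 1301, 0, 123, 94, 0, 416, 1362, 1172, 0, 0, 64, 1126, 275, 1371, 0, 0, 297,
  391, 1183, 0, 1233, 1334, 0, 342, 0, 1261, 245, 1116, 1247, 0, 156, 289, 1192, 146, 0, 1097, 0,
  75, 238, 0, 152, 1050, 1304, 0, 0, 40, 1054, 347, 1395, 0, 0, 165, 283, 1027, 0, 1089, 1382, 0,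
  126, 0, 1357, 233, 1308, 1211, 0, 192, 97, 1204, 50, 0, 1313, 0, 27, 382, 0, 308, 1158, 1016,
  0, 0, 16, 1402, 419, 1419, 0, 0, 33, 175, 1291, 0, 1365, 1010, 0, 330, 0, 1033, 221, 1080,
  1175, 0, 228, 325, 1216, 374, 0, 1109, 0, 399, 106, 0, 44, 1266, 1148, 0, 0, 412, 1330, 71,
  1023, 0, 0, 321, 67, 1135, 0, 1221, 1058, 0, 114, 0, 1129, 209, 1272, 1139, 0, 264, 133, 1228,
  278, 0, 1325, 0, 351, 250, 0, 200, 1374, 1280, 0, 0, 388, 1258, 143, 1047, 0, 0, 189, 379,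
  1399, 0, 1077, 1106, 0, 318, 0, 1225, 197, 1044, 1103, 0, 300, 361, 1240, 182, 0, 1121, 0, 303,
  394, 0, 356, 1062, 1412, 0, 0, 364, 1186, 215, 1071, 0, 0, 57, 271, 1243, 0, 1353, 1154, 0,
  102, 0, 1321, 185, 1236, 1067, 0, 336, 169, 1252, 86, 0, 1337, 0, 255, 118, 0, 92, 1170, 1124,
  0, 0, 340, 1114, 287, 1095, 0, 0, 345, 163, 1087, 0, 1209, 1202, 0, 306, 0, 1417, 173, 1008,
  1031, 0, 372, 397, 1264, 410, 0, 1133, 0, 207, 262, 0, 248, 1278, 1256, 0, 0, 316, 1042, 359,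
  1119, 0, 0, 213, 55, 1351, 0, 1065, 1250, 0, 90, 0, 1093, 161, 1200, 1415, 0, 408, 205, 1276,
  314, 0, 1349, 0, 159, 406, 0, 404, 1386, 1388, 0, 0, 292, 1390, 11, 1143, 0, 0, 81, 367, 1195,
  0, 1341, 1298, 0, 294, 0, 1189, 149, 1392, 1379, 0, 24, 13, 1288, 218, 0, 1145, 0, 111, 130, 0,
  140, 1074, 1100, 0, 0, 268, 1318, 83, 1167, 0, 0, 369, 259, 1039, 0, 1197, 1346, 0, 78, 0,
  1285, 137, 1164, 1343, 0, 60, 241, 1300, 122, 0, 1361, 0, 63, 274, 0, 296, 1182, 1232, 0, 0,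
  244, 1246, 155, 1191, 0, 0, 237, 151, 1303, 0, 1053, 1394, 0, 282, 0, 1381, 125, 1356, 1307, 0,
  96, 49, 1312, 26, 0, 1157, 0, 15, 418, 0, 32, 1290, 1364, 0, 0, 220, 1174, 227, 1215, 0, 0,
  105, 43, 1147, 0, 1329, 1022, 0, 66, 0, 1057, 113, 1128, 1271, 0, 132, 277, 1324, 350, 0, 1373,
  0, 387, 142, 0, 188, 1398, 1076, 0, 0, 196, 1102, 299, 1239, 0, 0, 393, 355, 1411, 0, 1185,
  1070, 0, 270, 0, 1153, 101, 1320, 1235, 0, 168, 85, 1336, 254, 0, 1169, 0, 339, 286, 0, 344,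
  1086, 1208, 0, 0, 172, 1030, 371, 1263, 0, 0, 261, 247, 1255, 0, 1041, 1118, 0, 54, 0, 1249,
  89, 1092, 1199, 0, 204, 313, 1348, 158, 0, 1385, 0, 291, 10, 0, 80, 1194, 1340, 0, 0, 148,
  1378, 23, 1287, 0, 0, 129, 139, 1099, 0, 1317, 1166, 0, 258, 0, 1345, 77, 1284, 1163, 0, 240,
  121, 1360, 62, 0, 1181, 0, 243, 154, 0, 236, 1302, 1052, 0, 0, 124, 1306, 95, 1311, 0, 0, 417,
  31, 1363, 0, 1173, 1214, 0, 42, 0, 1021, 65, 1056, 1127, 0, 276, 349, 1372, 386, 0, 1397, 0,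
  195, 298, 0, 392, 1410, 1184, 0, 0, 100, 1234, 167, 1335, 0, 0, 285, 343, 1207, 0, 1029, 1262,
  0, 246, 0, 1117, 53, 1248, 1091, 0, 312, 157, 1384, 290, 0, 1193, 0, 147, 22, 0, 128, 1098,
  1316, 0, 0, 76, 1162, 239, 1359, 0, 0, 153, 235, 1051, 0, 1305, 1310, 0, 30, 0, 1213, 41, 1020,
  1055, 0, 348, 385, 1396, 194, 0, 1409, 0, 99, 166, 0, 284, 1206, 1028, 0, 0, 52, 1090, 311,
  1383, 0, 0, 21, 127, 1315, 0, 1161, 1358, 0, 234, 0, 1309, 29, 1212, 1019, 0, 384, 193, 1408,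
  98, 0, 1205, 0, 51, 310, 0, 20, 1314, 1160, 0, 0, 28, 1018, 383, 1407, 0, 0, 309, 19, 1159, 0,
  1017, 1406, 0, 18, 0, 1405, 17, 1404, 1403]

theorem g1225 {S : Set ℕ} (ha : 2 ∈ S) (hb : 3 ∈ S) : Gens 1225 S :=
  gens_of_chk (L := t1225) (by decide +kernel) ha hb

end Gn

end Pool.Agent.Lib.MP81632f.Diag
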