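import Pool.Agent.Lib.MP_81632f_ag.Diag.New2
import Pool.Agent.Lib.MP_81632f_ag.Diag.Gens

/-!
# The degrees `2 ^ a r ^ b`
-/

set_option autoImplicit false

noncomputable section

namespace Pool.Agent.Lib.MP81632f.Diag

open Finset

/-- the lattice property for all `f` -/
def LPA (M p : ℕ) : Prop := ∀ f : ℕ, 0 < f → (p : ZMod M) ^ f = 1 → LP M p f

theorem NegPow.dvd {p N d : ℕ} (h : NegPow p N) (hd : d ∣ N) : NegPow p d := by
  obtain ⟨i, hi⟩ := h
  exact ⟨i, hd.trans hi⟩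

/-- passing to a divisor -/
theorem GenBy.dvd {p M M' d d' : ℕ} [NeZero d] (h : GenBy p M d) (hd : d' ∣ d)
    (hM : ∀ r : ℕ, r.Prime → r ∣ M → r ∣ M') : GenBy p M' d' := by
  intro H hH1 hH2
  have h1 : H.comap (ZMod.unitsMap hd) = ⊤ := by
    refine h _ ?_ ?_
    · intro u hu
      refine hH1 _ ?_
      rw [ZMod.unitsMap_val, hu, ZMod.cast_natCast hd]
    · intro r hr hrM hrd u hu
      refine hH2 r hr (hM r hr hrM) (fun h2 => hrd (h2.trans hd)) _ ?_
      rw [ZMod.unitsMap_val, hu, ZMod.cast_natCast hd]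
  rw [eq_top_iff]
  intro x _
  obtain ⟨y, rfl⟩ := ZMod.unitsMap_surjective hd x
  have h2 : y ∈ H.comap (ZMod.unitsMap hd) := by rw [h1]; exact Subgroup.mem_top y
  exact h2

theorem genBy_of {p M d : ℕ} {S : Set ℕ}
    (hS : ∀ a ∈ S, a = p ∨ (a.Prime ∧ a ∣ M ∧ ¬ a ∣ d)) (h : Gn.Gens d S) : GenBy p M d := by
  intro H hH1 hH2
  refine h H fun a ha u hu => ?_
  rcases hS a ha with rfl | ⟨h1, h2, h3⟩
  · exact hH1 u hu
  · exact hH2 a h1 h2 h3 u hu

/-- divisors of `l ^ a r ^ b` which are not divisible by both primes -/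
theorem dvd_two {l r a b d : ℕ} (hl : l.Prime) (hr : r.Prime) (hd : d ∣ l ^ a * r ^ b)
    {q : ℕ} (hq : q.Prime) (hqM : q ∣ l ^ a * r ^ b) (hqd : ¬ q ∣ d) :
    (d ∣ r ^ b ∧ q = l) ∨ (d ∣ l ^ a ∧ q = r) := by
  rcases (hq.dvd_mul).mp hqM with h | h
  · have h1 : q = l := (Nat.prime_dvd_prime_iff_eq hq hl).mp (hq.dvd_of_dvd_pow h)
    subst h1
    left
    refine ⟨?_, rfl⟩
    have h2 : d.Coprime (q ^ a) :=
      (Nat.Coprime.pow_left a ((Nat.Prime.coprime_iff_not_dvd hq).mpr hqd)).symm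
    exact h2.dvd_of_dvd_mul_left hd
  · have h1 : q = r := (Nat.prime_dvd_prime_iff_eq hq hr).mp (hq.dvd_of_dvd_pow h)
    subst h1
    right
    refine ⟨?_, rfl⟩
    have h2 : d.Coprime (q ^ b) :=
      (Nat.Coprime.pow_left b ((Nat.Prime.coprime_iff_not_dvd hq).mpr hqd)).symm
    exact h2.dvd_of_dvd_mul_right hd

/-- the hypothesis of the transfer for two primes -/
theorem stepHyp_two {p l r a b : ℕ} (hl : l.Prime) (hr : r.Prime)
    (h1 : NegPow p (l ^ a) ∨ GenBy p (l ^ a * r ^ b) (l ^ a))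
    (h2 : NegPow p (r ^ b) ∨ GenBy p (l ^ a * r ^ b) (r ^ b)) : StepHyp p (l ^ a * r ^ b) := by
  rintro d hd hd1 ⟨q, hq, hqM, hqd⟩
  have : NeZero (l ^ a) := ⟨(pow_pos hl.pos a).ne'⟩
  have : NeZero (r ^ b) := ⟨(pow_pos hr.pos b).ne'⟩
  rcases dvd_two hl hr hd hq hqM hqd with ⟨h3, -⟩ | ⟨h3, -⟩
  · rcases h2 with h4 | h4
    · exact Or.inl (h4.dvd h3)
    · exact Or.inr (h4.dvd h3 fun r _ h => h)
  · rcases h1 with h4 | h4
    · exact Or.inl (h4.dvd h3)
    · exact Or.inr (h4.dvd h3 fun r _ h => h)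

theorem isPP_of_dvd {l a m : ℕ} (hl : l.Prime) (h : m ∣ l ^ a) : IsPP m := by
  obtain ⟨i, -, rfl⟩ := (Nat.dvd_prime_pow hl).mp h
  exact ⟨l, i, hl, Or.inl rfl⟩

theorem lp_one (p f : ℕ) : LP 1 p f := by
  intro X h0 _ _
  have h1 : X = 0 := by
    rw [Multiset.eq_zero_iff_forall_notMem]
    intro x hx
    exact h0 (Subsingleton.elim x (0 : ZMod 1) ▸ hx)
  rw [h1]
  have h2 : cnt (0 : Multiset (ZMod 1)) = 0 := Basic.cnt_zero
  rw [h2]
  exact zero_mem _

/-- prime powers -/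
theorem lpa_pp (hPP : StPP) {l : ℕ} (hl : l.Prime) (a p : ℕ) : LPA (l ^ a) p := by
  intro f hf hp
  rcases Nat.eq_zero_or_pos a with h | h
  · rw [h, pow_zero]
    exact lp_one p f
  · have : NeZero (l ^ a) := ⟨(pow_pos hl.pos a).ne'⟩
    intro X h0 hbal he
    refine hPP (l ^ a) p f (Nat.one_lt_pow h.ne' hl.one_lt) hf hp X ?_ hbal he
    intro x hx
    exact ⟨fun h1 => h0 (h1 ▸ hx), isPP_of_dvd hl (Two.order_dvd x)⟩

/-- twice a number -/
theorem lpa_double (hB : StBasic) {N p : ℕ} (hN : Odd N) (h : LPA N p) : LPA (2 * N) p := by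
  intro f hf hp
  rcases Nat.lt_or_ge 1 N with h1 | h1
  · have : NeZero N := ⟨by omega⟩
    refine stDouble hB N p f hN h1 hf hp (h f hf ?_)
    have hd : N ∣ 2 * N := Dvd.intro_left 2 rfl
    have h2 := congrArg (ZMod.castHom hd (ZMod N)) hp
    rw [map_pow, map_natCast, map_one] at h2
    exact h2
  · have hN1 : N = 1 := by
      have := hN.pos
      omega
    subst hN1
    -- `M = 2`
    have h2 : (1 : ℕ) < 2 * 1 := by norm_num
    have : NeZero (2 * 1) := ⟨by norm_num⟩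
    refine Crit.lp_ss hB h2 hf hp fun x hx => ?_
    refine (le_sup_right : Crit.SS (2 * 1) p f ≤ _) (Crit.ss_mem (Two.ss_of_two hf hp hx ?_))
    rw [nsmul_eq_mul]
    have h3 : ((2 : ℕ) : ZMod (2 * 1)) = 0 := ZMod.natCast_self 2
    rw [h3, zero_mul]

/-- the transfer theorem -/
theorem lpa_transfer (hB : StBasic) (hL : StLval) {m M p : ℕ} (hM : M ≠ 0) (hm : m ∣ M)
    (hm1 : 1 < m) (hk : Odd (M / m)) (hr : ∀ r : ℕ, r.Prime → r ∣ M → r ∣ m)
    (hE : Odd M ∨ 4 ∣ M) (hyp : StepHyp p M) (h : LPA m p) : LPA M p := by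
  intro f hf hp
  have : NeZero M := ⟨hM⟩
  have : NeZero m := ⟨by omega⟩
  refine stTransfer hB (stRankTwo hL) M m p f hm hm1 hk hr hE hf hp hyp (h f hf ?_)
  have h2 := congrArg (ZMod.castHom hm (ZMod m)) hp
  rw [map_pow, map_natCast, map_one] at h2
  exact h2

open Two Crit Transfer New in
/-- The degrees `2 ^ a r`. -/
theorem lpa_pow_two_one (hB : StBasic) (hL : StLval) (hPP : StPP) {p r a : ℕ} (hr : r.Prime)
    (hro : Odd r) (ha : 2 ≤ a) (hneg : NegPow p r)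
    (hno : ¬ NegPow p (2 ^ a)) (hgen : GenBy p (2 ^ a * r) (2 ^ a))
    (hodd : ∃ k0 : ℕ, Odd k0 ∧ ∀ j : ℕ, (p : ZMod (2 ^ a)) ^ j = 1 → r ∣ p ^ (k0 * j) - 1) :
    LPA (2 ^ a * r) p := by
  intro f hf hp
  have hN0 : 0 < 2 ^ a := by positivity
  have : NeZero (2 ^ a) := ⟨hN0.ne'⟩
  have : NeZero (2 ^ a * r) := ⟨by have := hr.pos; positivity⟩
  have hN1 : 1 < 2 ^ a := Nat.one_lt_pow (by omega) (by norm_num)
  have hNM : 2 ^ a ∣ 2 ^ a * r := Dvd.intro _ rfl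
  have hM : 1 < 2 ^ a * r := lt_of_lt_of_le hN1 (Nat.le_of_dvd (NeZero.pos _) hNM)
  have h2r : ¬ 2 ∣ r := by
    intro h
    exact (Nat.not_even_iff_odd.mpr hro) (even_iff_two_dvd.mpr h)
  have hcop : Nat.Coprime (2 ^ a) r :=
    Nat.Coprime.pow_left a ((Nat.Prime.coprime_iff_not_dvd Nat.prime_two).mpr h2r)
  obtain ⟨u, hu⟩ := exists_unit hf hp
  have hpN : (p : ZMod (2 ^ a)) ^ f = 1 := by
    have h1 := congrArg (ZMod.castHom hNM (ZMod (2 ^ a))) hp
    rw [map_pow, map_natCast, map_one] at h1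
    exact h1
  have hhyp : StepHyp p (2 ^ a * r) := by
    have h1 := stepHyp_two (p := p) (l := 2) (r := r) (a := a) (b := 1) Nat.prime_two hr
      (Or.inr (by rw [pow_one]; exact hgen)) (Or.inl (by rw [pow_one]; exact hneg))
    rwa [pow_one] at h1
  have hE : Odd (2 ^ a * r) ∨ 4 ∣ 2 ^ a * r := by
    right
    have h1 : 4 ∣ 2 ^ a := by
      have h2 : (2 : ℕ) ^ 2 ∣ 2 ^ a := pow_dvd_pow 2 ha
      exact h2
    exact h1.trans hNM
  have hprimes : ∀ q : ℕ, q.Prime → q ∣ 2 ^ a * r → q = 2 ∨ q = r := by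
    intro q hq h
    rcases (hq.dvd_mul).mp h with h1 | h1
    · left; exact (Nat.prime_dvd_prime_iff_eq hq Nat.prime_two).mp (hq.dvd_of_dvd_pow h1)
    · right; exact (Nat.prime_dvd_prime_iff_eq hq hr).mp h1
  have hx0 : ((2 ^ a / 2 : ℕ) : ZMod (2 ^ a)) ≠ 0 := by
    have h1 := Red.quot_ne (M := 2 ^ a) Nat.prime_two (dvd_pow_self 2 (by omega)) (j := 1)
      (by norm_num) (by norm_num)
    rwa [Nat.cast_one, one_mul] at h1
  have hss : SSel (2 ^ a) p f ((2 ^ a / 2 : ℕ) : ZMod (2 ^ a)) := by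
    refine ss_of_two hf hpN hx0 ?_
    rw [nsmul_eq_mul]
    exact Red.mul_quot (M := 2 ^ a) (dvd_pow_self 2 (by omega))
  refine new_prime hB (stRankTwo hL) hr hro hcop rfl hN1 hf hp hss hNM u hu ?_ ?_ ?_ ?_
    (lpa_pp hPP Nat.prime_two a p f hf hpN)
  · intro h
    apply hno
    obtain ⟨n, hn⟩ := (mem_powers_iff_mem_zpowers).mpr h
    refine ⟨n, ?_⟩
    have hn' : (ZMod.unitsMap hNM u) ^ n = -1 := hn
    have h1 := congrArg (fun z : (ZMod (2 ^ a))ˣ => (z : ZMod (2 ^ a))) hn'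
    simp only [Units.val_pow_eq_pow_val, Units.val_neg, Units.val_one, ZMod.unitsMap_val] at h1
    rw [hu, ZMod.cast_natCast hNM] at h1
    rw [← ZMod.natCast_eq_zero_iff]
    push_cast
    rw [h1]
    ring
  · obtain ⟨k0, hk0, h⟩ := hodd
    refine ⟨k0, hk0, fun j hj => ?_⟩
    have hp0 : 0 < p := by
      rcases Nat.eq_zero_or_pos p with h1 | h1
      · exfalso
        rw [h1, Nat.cast_zero, zero_pow hf.ne'] at hpN
        have : Fact (1 < 2 ^ a) := ⟨hN1⟩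
        exact zero_ne_one hpN
      · exact h1
    have h1 : 1 ≤ p ^ (k0 * j) := Nat.one_le_pow _ _ hp0
    have h2 : 2 ^ a ∣ p ^ (k0 * j) - 1 := by
      rw [← ZMod.natCast_eq_zero_iff, Nat.cast_sub h1, Nat.cast_pow, Nat.cast_one, mul_comm,
        pow_mul, hj, one_pow, sub_self]
    have h3 : 2 ^ a * r ∣ p ^ (k0 * j) - 1 := hcop.mul_dvd_of_dvd_of_dvd h2 (h j hj)
    rw [← ZMod.natCast_eq_zero_iff, Nat.cast_sub h1, Nat.cast_pow, Nat.cast_one, sub_eq_zero] at h3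
    exact h3
  · intro x hx
    by_cases hrx : r ∣ addOrderOf x
    · right
      by_cases h2x : 2 ∣ addOrderOf x
      · obtain ⟨m, hm⟩ := order_dvd x
        refine full hB hM hf hp m x hm.symm ?_
        intro q hq hqM
        rcases hprimes q hq hqM with rfl | rfl
        · exact h2x
        · exact hrx
      · refine ss_le (ss_mem (ss_of_negPow hf hp hneg hx ?_))
        have h1 : (addOrderOf x).Coprime (2 ^ a) :=
          (Nat.Coprime.pow_left a ((Nat.Prime.coprime_iff_not_dvd Nat.prime_two).mpr h2x)).symm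
        exact addOrderOf_dvd_iff_nsmul_eq_zero.mp (h1.dvd_of_dvd_mul_left (order_dvd x))
    · left
      have h1 : (addOrderOf x).Coprime r := ((Nat.Prime.coprime_iff_not_dvd hr).mpr hrx).symm
      exact addOrderOf_dvd_iff_nsmul_eq_zero.mp (h1.dvd_of_dvd_mul_right (order_dvd x))
  · intro x hx
    obtain ⟨m, hm⟩ := order_dvd x
    exact (main hB hM hE hf hp hhyp m x hx hm.symm).1

/-- The degrees `2 ^ a r ^ b`. -/
theorem lpa_pow_two (hB : StBasic) (hL : StLval) (hPP : StPP) {p r a b : ℕ} (hr : r.Prime)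
    (hro : Odd r) (ha : 2 ≤ a) (hneg : NegPow p (r ^ b)) (hgen : GenBy p (2 ^ a * r) (2 ^ a))
    (hodd : ∃ k0 : ℕ, Odd k0 ∧ ∀ j : ℕ, (p : ZMod (2 ^ a)) ^ j = 1 → r ∣ p ^ (k0 * j) - 1) :
    LPA (2 ^ a * r ^ b) p := by
  rcases Nat.eq_zero_or_pos b with hb | hb
  · rw [hb, pow_zero, mul_one]
    exact lpa_pp hPP Nat.prime_two a p
  have hr2 : 2 ≠ r := by
    rintro rfl
    exact absurd hro (by decide)
  by_cases hno : NegPow p (2 ^ a)
  · intro f hf hp
    have : NeZero (2 ^ a * r ^ b) := ⟨by have := hr.pos; positivity⟩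
    refine stTwo hB (stRank hL) _ p f ?_ hf hp 2 r a b Nat.prime_two hr hr2 (Or.inl rfl) hno hneg
    have h1 : 1 < 2 ^ a := Nat.one_lt_pow (by omega) (by norm_num)
    have h2 : 1 ≤ r ^ b := Nat.one_le_pow _ _ hr.pos
    nlinarith
  · have h1 := lpa_pow_two_one hB hL hPP hr hro ha
      (hneg.dvd (dvd_pow_self r hb.ne')) hno hgen hodd
    have hN1 : 1 < 2 ^ a := Nat.one_lt_pow (by omega) (by norm_num)
    have hrp := hr.one_lt
    obtain ⟨b', rfl⟩ : ∃ b', b = b' + 1 := ⟨b - 1, by omega⟩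
    have hM : 2 ^ a * r ^ (b' + 1) = 2 ^ a * r * r ^ b' := by ring
    have hm0 : 0 < 2 ^ a * r := by positivity
    refine lpa_transfer hB hL (by positivity) ⟨r ^ b', hM⟩ (by nlinarith) ?_ ?_ ?_ ?_ h1
    · rw [hM, Nat.mul_div_cancel_left _ hm0]
      exact hro.pow
    · intro q hq h
      rcases (hq.dvd_mul).mp h with h2 | h2
      · exact h2.trans (Dvd.intro _ rfl)
      · exact (hq.dvd_of_dvd_pow h2).trans (Dvd.intro_left _ rfl)
    · right
      have h2 : (2 : ℕ) ^ 2 ∣ 2 ^ a := pow_dvd_pow 2 ha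
      have h3 : 4 ∣ 2 ^ a := h2
      exact h3.trans (Dvd.intro _ rfl)
    · refine stepHyp_two Nat.prime_two hr (Or.inr ?_) (Or.inl hneg)
      have : NeZero (2 ^ a) := ⟨by positivity⟩
      refine hgen.dvd dvd_rfl ?_
      intro q hq h
      rcases (hq.dvd_mul).mp h with h2 | h2
      · exact h2.trans (Dvd.intro _ rfl)
      · exact (h2.trans (dvd_pow_self r (by omega))).trans (Dvd.intro_left _ rfl)

end Pool.Agent.Lib.MP81632f.Diag
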