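import Pool.Agent.Lib.MP_81632f_ag.Diag.CompBase
import Pool.Agent.Lib.MP_81632f_ag.Diag.Pow2

/-!
# Composite degrees: multiples of the degree

If `m` divides `p ^ f - 1`, then for some `m` and `p` the number `k m` also divides `p ^ f - 1`.
-/

set_option autoImplicit false

namespace Pool.Agent.Lib.MP81632f.Diag.Comp

theorem c_110_23 : Good 110 23 4 :=
  good_of_chkP 110 23 4 [1, 23, 89, 67] 0xc82d0a023078190501103c0c0280902007018050100300801 0x370580b 0xa0180203008 0x0 0x370580b 0x1900801050020040f0080102802004050080102805004080140101005004020140101002004020080115c130100b010060080100c020040100801 0x0 [] [] (by decide +kernel)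

theorem c_110_89 : Good 110 89 2 :=
  good_of_chkP 110 89 2 [1, 89] 0xc82d0a02708c220781d0701906017050130481103c0e0340c0280902007018050100300801 0x370b0210580b 0x24060100a0340704c120301d 0xf 0x370b0210580b 0x11008010040200445080091a8030040601402004100140102405004080140101005004020140103002004090080100c05004060080100c020040400801008020040701401038020040700801 0xa00801 [] [[-1]] (by decide +kernel)

theorem c_112_17 : Good 112 17 6 :=
  good_of_chkP 112 17 6 [1, 17, 65, 97, 81, 33] 0xc42a08c1c0540e02407018050100300801 0x3804008 0x540700c01 0x0 0x3804008 0x54020040e0080101c020040101c011780c0184e0181c0180300801008020045e03c0318c0901006004020045f03c0202004 0x0 [] [] (by decide +kernel)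

theorem c_112_73 : Good 112 73 6 :=
  good_of_chkP 112 73 6 [1, 73, 65, 41, 81, 89] 0xa81c0540e0340901c060100300801 0x3804008 0x3409 0x540700c01 0x3804008 0x380200407008011780c0184e0181c018060080100c020040100801 0xc070040101c01 [[-2, 0, 1, 0], [0, -2, 0, 1]] [[-1, 0, -2, 0], [0, -1, 0, -2], [-2, 0, -3, 0], [0, -2, 0, -3]] (by decide +kernel)

theorem c_140_31 : Good 140 31 6 :=
  good_of_chkP 140 31 6 [1, 31, 121, 111, 81, 131] 0xe02a070150380d02c0801c060100300801 0x118230641402805 0x40403408 0x0 0x118230641402805 0x4020040e008011f87708c6901c1c0180301c010080700407008011d0100207603c070180d00801010020040200801 0x0 [] [] (by decide +kernel)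

theorem c_140_61 : Good 140 61 6 :=
  good_of_chkP 140 61 6 [1, 61, 81, 41, 121, 101] 0xfc380c42a08c1c0540e0340902007018050100300801 0x460500a 0x1c0500c01 0x0 0x460500a 0x38020047e1dc231a4070700605402004070080101c070040301c01004070047303c0a17c0a08c060340200404008010080200489008011d81201006004020046309c0202804 0x0 [] [] (by decide +kernel)

theorem c_152_13 : Good 152 13 18 :=
  good_of_chkP 152 13 18 [1, 13, 17, 69, 137, 109, 49, 29, 73, 37, 25, 21, 121, 53, 81, 141, 9, 117] 0x2604c0300801 0x4c02004 0x3 0x4c01 0x4c02004 0x4c020040100801 0x104c01 [[-5, 1]] [[-1, -2], [-5, -9]] (by decide +kernel)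

theorem c_152_33 : Good 152 33 18 :=
  good_of_chkP 152 33 18 [1, 33, 25, 65, 17, 105, 121, 41, 137, 113, 81, 89, 49, 97, 9, 145, 73, 129] 0xe42604c0300801 0x4c02004 0x4c01 0x0 0x4c02004 0x4c020040104c01004020048f01c0201004 0x0 [] [] (by decide +kernel)

theorem c_160_7 : Good 160 7 4 :=
  good_of_chkP 160 7 4 [1, 7, 49, 23] 0x260941f078130481103c0c02c0a02408018050100300801 0x1403c0a02005010 0x24010482502c0309805 0x0 0x1403c0a02005010 0x900801004020040400801008020045a10405238100080604c020045b0e80b1f41403c0601805004060080100c020040500801 0x0 [] [] (by decide +kernel)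

theorem c_160_87 : Good 160 87 4 :=
  good_of_chkP 160 87 4 [1, 87, 49, 103] 0x290981e06c1504c1203c0c0280902007018050100300801 0x1403c0a02005010 0x4c09098050100200c01 0x0 0x1403c0a02005010 0x1300801024020040c0080101802004030080121c140146a0c0060189e278042300503c06008050040500801008020040100801 0x0 [] [] (by decide +kernel)

theorem c_186_5 : Good 186 5 6 :=
  good_of_chkP 186 5 6 [1, 5, 25, 125, 67, 149] 0xe43006c1a0601504c12044100340c0240801c060100300801 0x5d0f81f 0x40300d04408 0x0 0x5d0f81f 0x2008010040200492060102c80700406060020040c0080102402004060080100c020041a00c01040030040800c01010030040400801034020040800801 0x0 [] [] (by decide +kernel)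

theorem c_186_37 : Good 186 37 6 :=
  good_of_chkP 186 37 6 [1, 37, 67, 61, 25, 181] 0xf81f06813044100340801c0400801 0x5d0e43006c18054120300901803 0x7040130683e 0x0 0x5d0e43006c18054120300901803 0x19008010280200404008010340200408008012681d00c110101f00801 0x0 [] [] (by decide +kernel)

theorem c_190_7 : Good 190 7 12 :=
  good_of_chkP 190 7 12 [1, 7, 49, 153, 121, 87, 39, 83, 11, 77, 159, 163] 0xb4280500f02809020050100300801 0x5f09813 0x20100a 0x0 0x5f09813 0x70140100c050040201401010020040200801004020042000402028020040401401 0x0 [] [] (by decide +kernel)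

theorem c_190_49 : Good 190 49 6 :=
  good_of_chkP 190 49 6 [1, 49, 121, 39, 11, 159] 0xb4280701a0541403c0e0340a0240801c050100300801 0x5f1303909813 0x100801c2807003 0x0 0x5f1303909813 0xc050040201401004050040b008010100200402008010500200408014010340200471128032541c03406038020040700801 0x0 [] [] (by decide +kernel)

theorem c_364_3 : Good 364 3 6 :=
  good_of_chkP 364 3 6 [1, 3, 9, 27, 81, 243] 0x11c461003e0f4380bc2e08c220801f0741c064170581404c110400e02c0a020070140400801 0x2d85b104340680d 0x44130bc3d0641f0881608c0711c10 0x0 0x2d85b104340680d 0x44020040b0080101402004010080105c02004200080102802005280104008c040d802004240080107c0200540060141dc04020020041000801038020054208c070700408c020040700801 0x0 [] [] (by decide +kernel)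

theorem c_455_2 : Good 455 2 12 :=
  good_of_chkP 455 2 12 [1, 2, 4, 8, 16, 32, 64, 128, 256, 57, 114, 228] 0x431042f0b4250841f05c130440f0340b0240500c01 0x16c4d0c42305407 0x41f0440d084430240302c2d03c17 0x0 0x16c4d0c42305407 0x1014010240500552138275b01a1040600c05005950b40509c04 0x0 [] [] (by decide +kernel)

theorem c_585_2 : Good 585 2 12 :=
  good_of_chkP 585 2 12 [1, 2, 4, 8, 16, 32, 64, 128, 256, 512, 439, 293] 0x1543d0d4330c42f0ac270841f07419054130440f0340b01c0500c01 0x30c7518c410fc2d06c09 0x14350c42f0ac1f074130440b01c01 0x0 0x30c7518c410fc2d06c09 0x14030040501401004050040d00c017a4570240d0100100c014d50b02634048030181100c0101c030040b00c01 0x0 [] [] (by decide +kernel)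

theorem c_748_3 : Good 748 3 80 :=
  good_of_chkP 748 3 80 [1, 3, 9, 27, 81, 243, 729, 691, 577, 235, 705, 619, 361, 335, 257, 23, 69, 207, 621, 367, 353, 311, 185, 555, 169, 507, 25, 75, 225, 675, 529, 91, 273, 71, 213, 639, 421, 515, 49, 147, 441, 575, 229, 687, 565, 199, 597, 295, 137, 411, 485, 707, 625, 379, 389, 419, 509, 31, 93, 279, 89, 267, 53, 159, 477, 683, 553, 163, 489, 719, 661, 487, 713, 643, 433, 551, 157, 471, 665, 499] 0x110220440b0140400801 0x5d8bb0b016 0x2c01 0x0 0x5d8bb0b016 0x1dc440081100801af826022ce03411018070100200402006cd0740205804 0x0 [] [] (by decide +kernel)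

theorem c_825_2 : Good 825 2 20 :=
  good_of_chkP 825 2 20 [1, 2, 4, 8, 16, 32, 64, 128, 256, 512, 199, 398, 796, 767, 709, 593, 361, 722, 619, 413] 0x114430fc3b0dc2f0a42307c17054130440f02c0901c0500c01 0x44ca51f44b08419 0xfc1505c450042307c0901c0f 0x0 0x44ca51f44b08419 0xc030040100c0100c05004010140105c030041500c0101c030040b01401c441903c0b0100500c01 0x0 [] [] (by decide +kernel)

def tbL : List (ℕ × List (ℕ × ℕ)) :=
  [(110, [(23, 4), (89, 2)]),
    (112, [(17, 6), (73, 6)]),
    (140, [(31, 6), (61, 6)]),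
    (152, [(13, 18), (33, 18)]),
    (160, [(7, 4), (87, 4)]),
    (186, [(5, 6), (37, 6)]),
    (190, [(7, 12), (49, 6)]),
    (364, [(3, 6)]),
    (455, [(2, 12)]),
    (585, [(2, 12)]),
    (748, [(3, 80)]),
    (825, [(2, 20)])]

theorem tbL_ok : AllTbl tbL :=
  ⟨⟨c_110_23, c_110_89, trivial⟩,
    ⟨c_112_17, c_112_73, trivial⟩,
    ⟨c_140_31, c_140_61, trivial⟩,
    ⟨c_152_13, c_152_33, trivial⟩,
    ⟨c_160_7, c_160_87, trivial⟩,
    ⟨c_186_5, c_186_37, trivial⟩,
    ⟨c_190_7, c_190_49, trivial⟩,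
    ⟨c_364_3, trivial⟩,
    ⟨c_455_2, trivial⟩,
    ⟨c_585_2, trivial⟩,
    ⟨c_748_3, trivial⟩,
    ⟨c_825_2, trivial⟩, trivial⟩

/-- a power of `u` is `1` modulo `N` before it is `1` modulo `m` -/
def ordq (m N u : ℕ) : Bool :=
  anyBelow (fun o => Nat.beq (u ^ (o + 1) % N) 1 &&
    allBelow (fun j => Nat.beq j 0 || !(Nat.beq (u ^ j % m) 1)) (o + 1)) 100

theorem ordq_spec {m N p : ℕ} (hm : m ∣ N) (hm1 : 1 < m) (hN : 1 < N)
    (h : ordq m N (p % N) = true) {f : ℕ} (hf : m ∣ p ^ f - 1) (hp : 0 < p) : N ∣ p ^ f - 1 := by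
  obtain ⟨o, -, h1⟩ := anyBelow_spec _ _ h
  rw [Bool.and_eq_true] at h1
  obtain ⟨h1, h2⟩ := h1
  have h3 : (p % N) ^ (o + 1) % N = 1 := Nat.eq_of_beq_eq_true h1
  have h4 : p ^ (o + 1) ≡ 1 [MOD N] := by
    have h5 : (p % N) ^ (o + 1) ≡ p ^ (o + 1) [MOD N] := (Nat.mod_modEq p N).pow (o + 1)
    refine h5.symm.trans ?_
    unfold Nat.ModEq
    rw [h3, Nat.mod_eq_of_lt hN]
  have h5 : p ^ f ≡ 1 [MOD m] := ((Nat.modEq_iff_dvd' (Nat.one_le_pow _ _ hp)).mpr hf).symm
  have hq : p ^ f = (p ^ (o + 1)) ^ (f / (o + 1)) * p ^ (f % (o + 1)) := by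
    rw [← pow_mul, ← pow_add, Nat.div_add_mod]
  have h6 : p ^ (f % (o + 1)) ≡ 1 [MOD m] := by
    have h7 : (p ^ (o + 1)) ^ (f / (o + 1)) * p ^ (f % (o + 1)) ≡
        1 ^ (f / (o + 1)) * p ^ (f % (o + 1)) [MOD m] :=
      ((h4.of_dvd hm).pow _).mul_right _
    rw [← hq, one_pow, one_mul] at h7
    exact h7.symm.trans h5
  have h7 : f % (o + 1) = 0 := by
    by_contra h8
    have h9 := allBelow_spec _ _ h2 (f % (o + 1)) (Nat.mod_lt _ (Nat.succ_pos o))
    have h10 : Nat.beq (f % (o + 1)) 0 = false := by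
      cases hb : Nat.beq (f % (o + 1)) 0 with
      | false => rfl
      | true => exact absurd (Nat.eq_of_beq_eq_true hb) h8
    rw [h10, Bool.false_or] at h9
    have h11 : (p % N) ^ (f % (o + 1)) % m = 1 := by
      have h12 : (p % N) ^ (f % (o + 1)) ≡ 1 [MOD m] :=
        (((Nat.mod_modEq p N).of_dvd hm).pow _).trans h6
      unfold Nat.ModEq at h12
      rwa [Nat.mod_eq_of_lt hm1] at h12
    rw [h11] at h9
    exact absurd h9 (by decide)
  have h8 : p ^ f ≡ 1 [MOD N] := by
    rw [hq, h7, pow_zero, mul_one]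
    have h9 := h4.pow (f / (o + 1))
    rwa [one_pow] at h9
  exact (Nat.modEq_iff_dvd' (Nat.one_le_pow _ _ hp)).mp h8.symm

/-- the check for the lift from `m` to `N` for the residues in `L` -/
def liftq (T : List (ℕ × List (ℕ × ℕ))) (m N : ℕ) (L : List ℕ) : Bool :=
  Nat.ble 2 m && Nat.beq (N % m) 0 && Nat.ble 2 N &&
  allBelow (fun u => !(Nat.beq (Nat.gcd u N) 1) || !(L.any fun v => Nat.beq v (u % m)) ||
    (cov1 N u (lk N T) && ordq m N u)) N

theorem liftq_spec (hB : StBasic) (hR : StRank) {T : List (ℕ × List (ℕ × ℕ))} (hT : AllTbl T)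
    {m N : ℕ} {L : List ℕ} (h : liftq T m N L = true) {p : ℕ} (hp : Nat.Coprime p N)
    (hp0 : 0 < p) (hL : p % m ∈ L) :
    m ∣ N ∧ (∀ f : ℕ, m ∣ p ^ f - 1 → N ∣ p ^ f - 1) ∧ LPA N p := by
  unfold liftq at h
  rw [Bool.and_eq_true, Bool.and_eq_true, Bool.and_eq_true] at h
  obtain ⟨⟨⟨h1, h2⟩, h3⟩, h4⟩ := h
  have hm1 : 1 < m := Nat.le_of_ble_eq_true h1
  have hN1 : 1 < N := Nat.le_of_ble_eq_true h3
  have hmN : m ∣ N := Nat.dvd_of_mod_eq_zero (Nat.eq_of_beq_eq_true h2)
  have h5 := allBelow_spec _ _ h4 (p % N) (Nat.mod_lt _ (by omega))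
  have h6 : Nat.gcd (p % N) N = 1 := by
    rw [← Nat.gcd_rec, Nat.gcd_comm]
    exact hp
  have h7 : p % N % m = p % m := Nat.mod_mod_of_dvd p hmN
  have h8 : (L.any fun v => Nat.beq v (p % m)) = true := by
    rw [List.any_eq_true]
    exact ⟨_, hL, Nat.beq_refl _⟩
  have h9 : (cov1 N (p % N) (lk N T) && ordq m N (p % N)) = true := by
    rw [h6, h7, h8] at h5
    simpa using h5
  rw [Bool.and_eq_true] at h9
  exact ⟨hmN, fun f hf => ordq_spec hmN hm1 hN1 h9.2 hf hp0,
    fun f hf hpf => lp_cov1' hB hR _ (lk_spec N T hT) h9.1 hN1 hf hpf⟩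

/-- the check for the lift from `m` to `N` for the prime `p` -/
def liftp (T : List (ℕ × List (ℕ × ℕ))) (p m N : ℕ) : Bool :=
  Nat.ble 2 m && Nat.beq (N % m) 0 && Nat.ble 2 N && cov1 N (p % N) (lk N T) && ordq m N (p % N)

theorem liftp_spec (hB : StBasic) (hR : StRank) {T : List (ℕ × List (ℕ × ℕ))} (hT : AllTbl T)
    {p m N : ℕ} (h : liftp T p m N = true) (hp0 : 0 < p) :
    m ∣ N ∧ (∀ f : ℕ, m ∣ p ^ f - 1 → N ∣ p ^ f - 1) ∧ LPA N p := by
  unfold liftp at h
  rw [Bool.and_eq_true, Bool.and_eq_true, Bool.and_eq_true, Bool.and_eq_true] at h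
  obtain ⟨⟨⟨⟨h1, h2⟩, h3⟩, h4⟩, h5⟩ := h
  have hm1 : 1 < m := Nat.le_of_ble_eq_true h1
  have hN1 : 1 < N := Nat.le_of_ble_eq_true h3
  have hmN : m ∣ N := Nat.dvd_of_mod_eq_zero (Nat.eq_of_beq_eq_true h2)
  exact ⟨hmN, fun f hf => ordq_spec hmN hm1 hN1 h5 hf hp0,
    fun f hf hpf => lp_cov1' hB hR _ (lk_spec N T hT) h4 hN1 hf hpf⟩

end Comp

open Comp

/-- the lifts in the characteristics `2` and `3`: characteristic, degree, multiple -/
def lifts23 : List (ℕ × ℕ × ℕ) :=
  [(2, 91, 455), (2, 165, 825), (2, 195, 585), (3, 65, 130), (3, 91, 364), (3, 182, 364),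
    (3, 187, 748)]

theorem lifts23_ok : (lifts23.all fun e => liftp (tbL ++ tbl) e.1 e.2.1 e.2.2) = true := by
  decide +kernel

theorem lifts23_spec (hB : StBasic) (hR : StRank) {p m N : ℕ} (he : (p, m, N) ∈ lifts23) :
    m ∣ N ∧ (∀ f : ℕ, m ∣ p ^ f - 1 → N ∣ p ^ f - 1) ∧ LPA N p := by
  have h1 := lifts23_ok
  rw [List.all_eq_true] at h1
  have h2 := h1 _ he
  have hp : 0 < p := by
    have h3 : ∀ e ∈ lifts23, 0 < e.1 := by decide
    exact h3 _ he
  exact liftp_spec hB hR (allTbl_append _ _ tbL_ok tbl_ok) h2 hp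

/-- the lifts: degree, multiple, residues -/
def lifts : List (ℕ × ℕ × List ℕ) :=
  [(33, 66, [1, 10, 23]),
    (35, 140, [26, 31]),
    (44, 88, [13, 17, 29, 41]),
    (55, 110, [12, 23, 34]),
    (56, 112, [17, 33]),
    (65, 130, [3, 22, 42, 48]),
    (70, 140, [31, 61]),
    (76, 152, [13, 21, 29, 33, 41, 53]),
    (80, 160, [7, 23]),
    (93, 186, [5, 37, 56, 88]),
    (95, 190, [7, 49, 64, 68, 83, 87]),
    (99, 198, [1, 10, 23, 34, 43, 56, 67, 76, 89])]

theorem lifts_ok : (lifts.all fun e => liftq (tbL ++ tbl) e.1 e.2.1 e.2.2) = true := by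
  decide +kernel

/-- the degrees up to `100` with the multiples -/
theorem lifts_spec (hB : StBasic) (hR : StRank) {p m : ℕ} (hp : p.Prime) {e : ℕ × ℕ × List ℕ}
    (he : e ∈ lifts) (hm : e.1 = m) (hL : p % m ∈ e.2.2) (hcop : Nat.Coprime p e.2.1) :
    m ∣ e.2.1 ∧ (∀ f : ℕ, m ∣ p ^ f - 1 → e.2.1 ∣ p ^ f - 1) ∧ LPA e.2.1 p := by
  have h1 := lifts_ok
  rw [List.all_eq_true] at h1
  have h2 := h1 e he
  rw [hm] at h2
  exact liftq_spec hB hR (allTbl_append _ _ tbL_ok tbl_ok) h2 hcop hp.pos hL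

end Pool.Agent.Lib.MP81632f.Diag
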