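import Pool.Agent.Lib.MP_81632f_ag.Diag.Stmts2
import Pool.Agent.Lib.MP_81632f_ag.Diag.Basic

/-!
# Composite degrees: the lattice property from a generating set with the right number of elements
-/

set_option autoImplicit false

namespace Pool.Agent.Lib.MP81632f.Diag.Comp

open Finset

/-- the generators and the pure elements -/
def GP (M p f : ℕ) : Set (ZMod M → ℤ) :=
  cnt '' Gen M p f ∪ {v | ∃ y : ZMod M, y ≠ 0 ∧ (∀ t : (ZMod M)ˣ, saw M p f t y = 0) ∧
    v = Pi.single y 1}

section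

variable {M p f : ℕ} [NeZero M]

/-- the functional -/
def phi (M p f : ℕ) [NeZero M] (t : (ZMod M)ˣ) : (ZMod M → ℤ) →+ ℤ where
  toFun v := ∑ x, v x * saw M p f t x
  map_zero' := by simp
  map_add' v w := by simp only [Pi.add_apply, add_mul, Finset.sum_add_distrib]

theorem phi_single (t : (ZMod M)ˣ) (x : ZMod M) : phi M p f t (Pi.single x 1) = saw M p f t x := by
  show ∑ y, (Pi.single x 1 : ZMod M → ℤ) y * saw M p f t y = _
  rw [Finset.sum_eq_single x]
  · rw [Pi.single_eq_same, one_mul]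
  · intro y _ hy
    rw [Pi.single_eq_of_ne hy, zero_mul]
  · intro h
    exact absurd (Finset.mem_univ x) h

omit [NeZero M] in
theorem cnt_eq_sum (X : Multiset (ZMod M)) : cnt X = (X.map fun x => Pi.single x (1 : ℤ)).sum := by
  induction X using Multiset.induction_on with
  | empty => rw [Basic.cnt_zero]; rfl
  | cons a s ih => rw [Basic.cnt_cons, Multiset.map_cons, Multiset.sum_cons, ih]

/-- combinations of generators and pure elements -/
theorem pure_part (hB : StBasic) (hM : 1 < M) (hf : 0 < f) (hp : (p : ZMod M) ^ f = 1)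
    {v : ZMod M → ℤ} (hv : v ∈ AddSubgroup.closure (GP M p f)) :
    (∀ t, phi M p f t v = 0) ∧ (v ∈ Sub M p f ∨ ∃ y : ZMod M, y ≠ 0 ∧
      (∀ t : (ZMod M)ˣ, saw M p f t y = 0) ∧ v - Pi.single y 1 ∈ Sub M p f) := by
  obtain ⟨hb1, hb2, hb3, hb4, hb5⟩ := hB M p f hM hf hp
  have hphi : ∀ v ∈ Sub M p f, ∀ t, phi M p f t v = 0 := fun v hv t => (hb5 v hv).2.2 t
  induction hv using AddSubgroup.closure_induction with
  | mem v hv =>
    rcases hv with hv | ⟨y, hy, hpure, rfl⟩
    · have h1 : v ∈ Sub M p f := AddSubgroup.subset_closure hv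
      exact ⟨hphi v h1, Or.inl h1⟩
    · refine ⟨fun t => by rw [phi_single]; exact hpure t, Or.inr ⟨y, hy, hpure, ?_⟩⟩
      rw [sub_self]
      exact zero_mem _
  | zero => exact ⟨fun t => map_zero _, Or.inl (zero_mem _)⟩
  | add v w _ _ hv hw =>
    obtain ⟨hv1, hv2⟩ := hv
    obtain ⟨hw1, hw2⟩ := hw
    refine ⟨fun t => by rw [map_add, hv1, hw1, add_zero], ?_⟩
    rcases hv2 with hv2 | ⟨y, hy, hyp, hv2⟩
    · rcases hw2 with hw2 | ⟨z, hz, hzp, hw2⟩
      · exact Or.inl (add_mem hv2 hw2)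
      · refine Or.inr ⟨z, hz, hzp, ?_⟩
        have : v + w - Pi.single z 1 = v + (w - Pi.single z 1) := by abel
        rw [this]
        exact add_mem hv2 hw2
    · rcases hw2 with hw2 | ⟨z, hz, hzp, hw2⟩
      · refine Or.inr ⟨y, hy, hyp, ?_⟩
        have : v + w - Pi.single y 1 = (v - Pi.single y 1) + w := by abel
        rw [this]
        exact add_mem hv2 hw2
      · left
        have : v + w = (v - Pi.single y 1) + (w - Pi.single z 1) +
            (Pi.single y 1 + Pi.single z 1) := by abel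
        rw [this]
        exact add_mem (add_mem hv2 hw2) (hb3 y z hy hz hyp hzp)
  | neg v _ hv =>
    obtain ⟨hv1, hv2⟩ := hv
    refine ⟨fun t => by rw [map_neg, hv1, neg_zero], ?_⟩
    rcases hv2 with hv2 | ⟨y, hy, hyp, hv2⟩
    · exact Or.inl (neg_mem hv2)
    · refine Or.inr ⟨y, hy, hyp, ?_⟩
      have : -v - Pi.single y 1 = -(v - Pi.single y 1) - (Pi.single y 1 + Pi.single y 1) := by abel
      rw [this]
      exact sub_mem (neg_mem hv2) (hb3 y y hy hy hyp hyp)

omit [NeZero M] in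
theorem mem_range_closure {r : ℕ} (w : Fin r → ZMod M → ℤ) {v : ZMod M → ℤ}
    (hv : v ∈ AddSubgroup.closure (Set.range w)) : ∃ a : Fin r → ℤ, v = ∑ i, a i • w i := by
  induction hv using AddSubgroup.closure_induction with
  | mem v hv =>
    obtain ⟨i, rfl⟩ := hv
    refine ⟨Pi.single i 1, ?_⟩
    rw [Finset.sum_eq_single i]
    · rw [Pi.single_eq_same, one_smul]
    · intro j _ hj
      rw [Pi.single_eq_of_ne hj, zero_smul]
    · intro h
      exact absurd (Finset.mem_univ i) h
  | zero => exact ⟨0, by simp⟩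
  | add v w' _ _ hv hw =>
    obtain ⟨a, rfl⟩ := hv
    obtain ⟨b, rfl⟩ := hw
    exact ⟨a + b, by simp only [Pi.add_apply, add_smul, Finset.sum_add_distrib]⟩
  | neg v _ hv =>
    obtain ⟨a, rfl⟩ := hv
    exact ⟨-a, by simp only [Pi.neg_apply, neg_smul, Finset.sum_neg_distrib]⟩

/-- the lattice property from a generating set -/
theorem lp_of_span (hB : StBasic) (hR : StRank) (hM : 1 < M) (hf : 0 < f) (u : (ZMod M)ˣ)
    (hu : (u : ZMod M) = p) (huf : u ^ f = 1) (hneg : (-1 : (ZMod M)ˣ) ∉ Subgroup.zpowers u)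
    (r : ℕ) (w : Fin r → ZMod M → ℤ) (hr : 2 * r * orderOf u ≤ M.totient)
    (hspan : ∀ x : ZMod M, x ≠ 0 → Pi.single x 1 ∈
      AddSubgroup.closure (GP M p f ∪ Set.range w)) : LP M p f := by
  have hp : (p : ZMod M) ^ f = 1 := by
    rw [← hu, ← Units.val_pow_eq_pow_val, huf, Units.val_one]
  -- decomposition
  have hdec : ∀ v ∈ AddSubgroup.closure (GP M p f ∪ Set.range w),
      ∃ s ∈ AddSubgroup.closure (GP M p f), ∃ a : Fin r → ℤ, v = s + ∑ i, a i • w i := by
    intro v hv
    rw [AddSubgroup.closure_union] at hv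
    obtain ⟨s, hs, t, ht, rfl⟩ := AddSubgroup.mem_sup.mp hv
    obtain ⟨a, rfl⟩ := mem_range_closure w ht
    exact ⟨s, hs, a, rfl⟩
  have hphi : ∀ (t : (ZMod M)ˣ) (a : Fin r → ℤ), phi M p f t (∑ i, a i • w i) =
      ∑ i, a i * phi M p f t (w i) := by
    intro t a
    rw [map_sum]
    refine Finset.sum_congr rfl fun i _ => ?_
    rw [map_zsmul, smul_eq_mul]
  have hindep := hR M p f hM hf u hu huf hneg r (fun i t => phi M p f t (w i)) hr (by
    intro x hx
    obtain ⟨s, hs, a, ha⟩ := hdec _ (hspan x hx)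
    refine ⟨a, fun t => ?_⟩
    have h1 := (pure_part hB hM hf hp hs).1 t
    rw [← phi_single, ha, map_add, h1, zero_add, hphi])
  intro X hX0 hbal heven
  have hX : cnt X ∈ AddSubgroup.closure (GP M p f ∪ Set.range w) := by
    rw [cnt_eq_sum]
    refine AddSubgroup.multiset_sum_mem _ _ ?_
    intro v hv
    obtain ⟨x, hx, rfl⟩ := Multiset.mem_map.mp hv
    exact hspan x fun h => hX0 (h ▸ hx)
  obtain ⟨s, hs, a, ha⟩ := hdec _ hX
  have ha0 : a = 0 := by
    refine hindep a fun t => ?_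
    have h1 := (pure_part hB hM hf hp hs).1 t
    have h2 : phi M p f t (cnt X) = 0 := by
      show ∑ x, cnt X x * saw M p f t x = 0
      rw [Basic.sum_cnt_mul]
      exact hbal t
    rw [ha, map_add, h1, zero_add, hphi] at h2
    exact h2
  have hXs : cnt X = s := by
    rw [ha, ha0]
    simp
  rw [hXs]
  rcases (pure_part hB hM hf hp hs).2 with h | ⟨y, hy, hyp, h⟩
  · exact h
  · exfalso
    have h5 := ((hB M p f hM hf hp).2.2.2.2 _ h).2.1
    rw [← hXs] at h5
    have h6 : ∑ x, (cnt X - Pi.single y 1 : ZMod M → ℤ) x = (Multiset.card X : ℤ) - 1 := by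
      simp only [Pi.sub_apply, Finset.sum_sub_distrib]
      rw [Basic.sum_cnt, Finset.sum_pi_single']
      simp
    rw [h6] at h5
    obtain ⟨c, hc⟩ := h5
    obtain ⟨d, hd⟩ := heven
    omega

end

end Pool.Agent.Lib.MP81632f.Diag.Comp
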