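import Pool.Agent.Lib.MP_81632f_ag.Diag.CompCover

/-!
# Composite degrees: tables of classes
-/

set_option autoImplicit false

namespace Pool.Agent.Lib.MP81632f.Diag.Comp

open Finset

def AllTbl : List (ℕ × List (ℕ × ℕ)) → Prop
  | [] => True
  | e :: l => AllGood e.1 e.2 ∧ AllTbl l

/-- the classes of `M` in the table -/
def lk (M : ℕ) : List (ℕ × List (ℕ × ℕ)) → List (ℕ × ℕ)
  | [] => []
  | e :: l => bif Nat.beq e.1 M then e.2 else lk M l

theorem lk_spec (M : ℕ) : ∀ T : List (ℕ × List (ℕ × ℕ)), AllTbl T → AllGood M (lk M T)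
  | [], _ => trivial
  | e :: l, h => by
      show AllGood M (bif Nat.beq e.1 M then e.2 else lk M l)
      cases hb : Nat.beq e.1 M with
      | true =>
        rw [cond_true, ← Nat.eq_of_beq_eq_true hb]
        exact h.1
      | false =>
        rw [cond_false]
        exact lk_spec M l h.2

theorem allTbl_append : ∀ T T' : List (ℕ × List (ℕ × ℕ)), AllTbl T → AllTbl T' → AllTbl (T ++ T')
  | [], _, _, h' => h'
  | _ :: l, T', h, h' => ⟨h.1, allTbl_append l T' h.2 h'⟩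

def anyBelow (P : ℕ → Bool) : ℕ → Bool
  | 0 => false
  | n + 1 => P n || anyBelow P n

theorem anyBelow_spec (P : ℕ → Bool) : ∀ n : ℕ, anyBelow P n = true → ∃ t < n, P t = true
  | 0, h => absurd h (by simp [anyBelow])
  | n + 1, h => by
      have h' : (P n || anyBelow P n) = true := h
      rw [Bool.or_eq_true] at h'
      rcases h' with h1 | h1
      · exact ⟨n, Nat.lt_succ_self n, h1⟩
      · obtain ⟨t, ht, h2⟩ := anyBelow_spec P n h1
        exact ⟨t, Nat.lt_succ_of_lt ht, h2⟩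

/-- primality by trial division -/
def prq (l : ℕ) : Bool :=
  Nat.ble 2 l && allBelow (fun d => Nat.ble d 1 || !(Nat.beq (l % d) 0)) l

theorem prq_spec {l : ℕ} (h : prq l = true) : l.Prime := by
  unfold prq at h
  rw [Bool.and_eq_true] at h
  obtain ⟨h1, h2⟩ := h
  rw [Nat.prime_def_lt]
  refine ⟨Nat.le_of_ble_eq_true h1, fun m hm hdvd => ?_⟩
  have h3 := allBelow_spec _ l h2 m hm
  rw [Nat.mod_eq_zero_of_dvd hdvd] at h3
  have h4 : Nat.ble m 1 = true := by simpa using h3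
  have h5 : m ≤ 1 := Nat.le_of_ble_eq_true h4
  have h6 : m ≠ 0 := by
    rintro rfl
    rw [zero_dvd_iff] at hdvd
    have := Nat.le_of_ble_eq_true h1
    omega
  omega

/-- is it a prime power or twice a prime power? -/
def ppq (M : ℕ) : Bool :=
  anyBelow (fun l => Nat.beq (M % l) 0 &&
    anyBelow (fun a => Nat.beq M (l ^ a) || Nat.beq M (2 * l ^ a)) 11 && prq l) (M + 1)

theorem ppq_spec {M : ℕ} (h : ppq M = true) : IsPP M := by
  obtain ⟨l, -, h1⟩ := anyBelow_spec _ _ h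
  rw [Bool.and_eq_true, Bool.and_eq_true] at h1
  obtain ⟨⟨-, h2⟩, h3⟩ := h1
  obtain ⟨a, -, h4⟩ := anyBelow_spec _ _ h2
  rw [Bool.or_eq_true] at h4
  refine ⟨l, a, prq_spec h3, ?_⟩
  rcases h4 with h4 | h4
  · exact Or.inl (Nat.eq_of_beq_eq_true h4)
  · exact Or.inr (Nat.eq_of_beq_eq_true h4)

theorem isPP_dvd {M d : ℕ} (h : IsPP M) (hd : d ∣ M) : IsPP d := by
  obtain ⟨l, a, hl, h1⟩ := h
  rcases h1 with rfl | rfl
  · obtain ⟨b, -, hb⟩ := (Nat.dvd_prime_pow hl).mp hd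
    exact ⟨l, b, hl, Or.inl hb⟩
  · obtain ⟨d1, d2, h2, h3, rfl⟩ := (Nat.dvd_mul).mp hd
    obtain ⟨b, -, hb⟩ := (Nat.dvd_prime_pow hl).mp h3
    rcases (Nat.dvd_prime Nat.prime_two).mp h2 with rfl | rfl
    · exact ⟨l, b, hl, Or.inl (by rw [one_mul, hb])⟩
    · exact ⟨l, b, hl, Or.inr (by rw [hb])⟩

theorem lp_pp (hPP : StPP) {M p f : ℕ} (hM : 1 < M) (hf : 0 < f) (hp : (p : ZMod M) ^ f = 1)
    (h : IsPP M) : LP M p f := by
  have : NeZero M := ⟨(Nat.lt_trans Nat.zero_lt_one hM).ne'⟩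
  intro X hX0 hbal heven
  refine hPP M p f hM hf hp X (fun x hx => ⟨fun h0 => hX0 (h0 ▸ hx), isPP_dvd h ?_⟩) hbal heven
  have h1 := addOrderOf_dvd_card (x := x)
  rwa [ZMod.card] at h1

theorem lp_one (p f : ℕ) : LP 1 p f := by
  intro X hX0 _ _
  have hX : X = 0 := by
    rw [Multiset.eq_zero_iff_forall_notMem]
    intro x hx
    exact hX0 (Subsingleton.elim x 0 ▸ hx)
  rw [hX, Basic.cnt_zero]
  exact zero_mem _

theorem lp_cov1' (hB : StBasic) (hR : StRank) {M p f : ℕ} (E : List (ℕ × ℕ)) (hE : AllGood M E)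
    (hc : cov1 M (p % M) E = true) (hM : 1 < M) (hf : 0 < f) (h1 : (p : ZMod M) ^ f = 1) :
    LP M p f := by
  rcases cov1_spec E hc hE with ⟨j, hj⟩ | ⟨u, k, hG, i, hi, hv⟩
  · rw [ZMod.natCast_mod, cast_pred (Nat.lt_trans Nat.zero_lt_one hM)] at hj
    exact lp_ss hB hM hf h1 j hj
  · rw [ZMod.natCast_mod] at hv
    exact lp_good hB hR hG hM hf h1 i hi hv

theorem coprime_of_pow {M p f : ℕ} (hf : 0 < f) (hp : (p : ZMod M) ^ f = 1) :
    Nat.gcd (p % M) M = 1 := by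
  have h1 : IsUnit (p : ZMod M) := IsUnit.of_pow_eq_one hp hf.ne'
  rw [ZMod.isUnit_iff_coprime] at h1
  rw [← Nat.gcd_rec, Nat.gcd_comm]
  exact h1

/-- is `M`, `v` covered by the table? -/
def okq (T : List (ℕ × List (ℕ × ℕ))) (M v : ℕ) : Bool :=
  Nat.beq M 1 || ppq M || cov1 M v (lk M T)

theorem lp_okq (hB : StBasic) (hR : StRank) (hPP : StPP) {T : List (ℕ × List (ℕ × ℕ))}
    (hT : AllTbl T) {M p f : ℕ} (h : okq T M (p % M) = true) (hM : 0 < M) (hf : 0 < f)
    (hp : (p : ZMod M) ^ f = 1) : LP M p f := by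
  unfold okq at h
  rw [Bool.or_eq_true, Bool.or_eq_true] at h
  by_cases hM1 : M = 1
  · subst hM1
    exact lp_one p f
  · have hM' : 1 < M := by omega
    rcases h with (h | h) | h
    · exact absurd (Nat.eq_of_beq_eq_true h) hM1
    · exact lp_pp hPP hM' hf hp (ppq_spec h)
    · exact lp_cov1' hB hR _ (lk_spec M T hT) h hM' hf hp

/-- membership in a list of exceptions -/
def excq (M u : ℕ) : List (ℕ × List ℕ) → Bool
  | [] => false
  | e :: l => (Nat.beq e.1 M && e.2.any fun v => Nat.beq v u) || excq M u l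

theorem excq_spec {M u : ℕ} : ∀ l : List (ℕ × List ℕ), excq M u l = true → ∃ e ∈ l, e.1 = M ∧ u ∈ e.2
  | [], h => absurd h (by simp [excq])
  | e :: l, h => by
      have h' : ((Nat.beq e.1 M && e.2.any fun v => Nat.beq v u) || excq M u l) = true := h
      rw [Bool.or_eq_true, Bool.and_eq_true] at h'
      rcases h' with ⟨h1, h2⟩ | h1
      · rw [List.any_eq_true] at h2
        obtain ⟨v, hv, h3⟩ := h2
        exact ⟨e, List.mem_cons_self, Nat.eq_of_beq_eq_true h1, Nat.eq_of_beq_eq_true h3 ▸ hv⟩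
      · obtain ⟨e', he', h2⟩ := excq_spec l h1
        exact ⟨e', List.mem_cons_of_mem _ he', h2⟩

/-- all `M < n` outside the exceptions -/
def tblq (T : List (ℕ × List (ℕ × ℕ))) (exc : List (ℕ × List ℕ)) (n : ℕ) : Bool :=
  allBelow (fun M => Nat.beq M 0 || Nat.beq M 1 || ppq M ||
    allBelow (fun u => !(Nat.beq (Nat.gcd u M) 1) || excq M u exc || cov1 M u (lk M T)) M) n

theorem lp_tblq (hB : StBasic) (hR : StRank) (hPP : StPP) {T : List (ℕ × List (ℕ × ℕ))}
    (hT : AllTbl T) {exc : List (ℕ × List ℕ)} {n : ℕ} (h : tblq T exc n = true) {M p f : ℕ}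
    (hM : 0 < M) (hMn : M < n) (hexc : ∀ e ∈ exc, e.1 = M → p % M ∉ e.2) (hf : 0 < f)
    (hp : (p : ZMod M) ^ f = 1) : LP M p f := by
  refine lp_okq hB hR hPP hT ?_ hM hf hp
  have h1 := allBelow_spec _ n h M hMn
  have h0 : Nat.beq M 0 = false := by
    cases hb : Nat.beq M 0 with
    | false => rfl
    | true => exact absurd (Nat.eq_of_beq_eq_true hb) hM.ne'
  unfold okq
  rw [Bool.or_eq_true, Bool.or_eq_true]
  simp only [h0, Bool.false_or, Bool.or_eq_true] at h1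
  rcases h1 with h1 | h1
  · exact Or.inl h1
  · right
    have h2 := allBelow_spec _ M h1 (p % M) (Nat.mod_lt _ hM)
    have h3 := coprime_of_pow hf hp
    rw [h3] at h2
    simp only [Bool.or_eq_true] at h2
    rcases h2 with (h2 | h2) | h2
    · exact absurd h2 (by decide)
    · obtain ⟨e, he, h4, h5⟩ := excq_spec exc h2
      exact absurd h5 (hexc e he h4)
    · exact h2

/-- all `M < n` prime to `p` outside the exceptions -/
def pq (T : List (ℕ × List (ℕ × ℕ))) (p : ℕ) (exl : List ℕ) (n : ℕ) : Bool :=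
  allBelow (fun M => Nat.beq M 0 || !(Nat.beq (Nat.gcd p M) 1) || (exl.any fun v => Nat.beq v M) ||
    okq T M (p % M)) n

theorem lp_pq (hB : StBasic) (hR : StRank) (hPP : StPP) {T : List (ℕ × List (ℕ × ℕ))}
    (hT : AllTbl T) {p : ℕ} {exl : List ℕ} {n : ℕ} (h : pq T p exl n = true) {M f : ℕ}
    (hM : 0 < M) (hMn : M < n) (hexc : M ∉ exl) (hf : 0 < f)
    (hp : (p : ZMod M) ^ f = 1) : LP M p f := by
  refine lp_okq hB hR hPP hT ?_ hM hf hp
  have h1 := allBelow_spec _ n h M hMn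
  have h3 := coprime_of_pow hf hp
  rw [← Nat.gcd_rec, Nat.gcd_comm] at h3
  simp only [h3, Bool.or_eq_true] at h1
  rcases h1 with ((h1 | h1) | h1) | h1
  · exact absurd (Nat.eq_of_beq_eq_true h1) hM.ne'
  · exact absurd h1 (by decide)
  · rw [List.any_eq_true] at h1
    obtain ⟨v, hv, h4⟩ := h1
    exact absurd (Nat.eq_of_beq_eq_true h4 ▸ hv) hexc
  · exact h1

/-- `M` is good for all `p` -/
def degq (T : List (ℕ × List (ℕ × ℕ))) (M : ℕ) : Bool :=
  Nat.ble 2 M && Nat.beq (30030 ^ 10 % M) 0 &&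
  allBelow (fun u => !(Nat.beq (Nat.gcd u M) 1) || cov1 M u (lk M T)) M &&
  [2, 3, 5, 7, 11, 13].all fun q => !(Nat.beq (M % q) 0) ||
    anyBelow (fun a => Nat.beq (q ^ a * (M / q ^ a)) M && !(Nat.beq (M / q ^ a % q) 0) &&
      okq T (M / q ^ a) (q % (M / q ^ a))) 11

theorem lp_degq (hB : StBasic) (hR : StRank) (hPP : StPP) {T : List (ℕ × List (ℕ × ℕ))}
    (hT : AllTbl T) {M : ℕ} (h : degq T M = true) {p f : ℕ} (hp : p.Prime) (hf : 0 < f)
    (hdvd : ordCompl[p] M ∣ p ^ f - 1) : LP (ordCompl[p] M) p f := by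
  unfold degq at h
  rw [Bool.and_eq_true, Bool.and_eq_true, Bool.and_eq_true] at h
  obtain ⟨⟨⟨h1, h2⟩, h3⟩, h4⟩ := h
  have hM : 1 < M := Nat.le_of_ble_eq_true h1
  by_cases hpM : p ∣ M
  · have h5 : p = 2 ∨ p = 3 ∨ p = 5 ∨ p = 7 ∨ p = 11 ∨ p = 13 := by
      refine prime_cases hp hpM 10 ?_
      rw [show 2 * (3 * (5 * (7 * (11 * 13)))) = 30030 from rfl]
      exact Nat.dvd_of_mod_eq_zero (Nat.eq_of_beq_eq_true h2)
    have h6 : p ∈ [2, 3, 5, 7, 11, 13] := by
      simpa using h5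
    rw [List.all_eq_true] at h4
    have h7 := h4 p h6
    rw [Nat.mod_eq_zero_of_dvd hpM] at h7
    have h8 : anyBelow (fun a => Nat.beq (p ^ a * (M / p ^ a)) M && !(Nat.beq (M / p ^ a % p) 0) &&
      okq T (M / p ^ a) (p % (M / p ^ a))) 11 = true := by
      simpa using h7
    obtain ⟨a, -, h9⟩ := anyBelow_spec _ _ h8
    rw [Bool.and_eq_true, Bool.and_eq_true] at h9
    obtain ⟨⟨h9, h10⟩, h11⟩ := h9
    have h12 : ¬ p ∣ M / p ^ a := by
      intro hd
      rw [Nat.mod_eq_zero_of_dvd hd] at h10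
      exact absurd h10 (by decide)
    have h13 : ordCompl[p] M = M / p ^ a :=
      oc hp M a _ (Nat.eq_of_beq_eq_true h9).symm h12
    rw [h13] at hdvd ⊢
    have h14 : 0 < M / p ^ a := Nat.pos_of_ne_zero fun h0 => h12 (by rw [h0]; exact dvd_zero p)
    exact lp_okq hB hR hPP hT h11 h14 hf (pow_one_of_dvd hp.pos hdvd)
  · rw [Nat.factorization_eq_zero_of_not_dvd hpM, pow_zero, Nat.div_one] at hdvd ⊢
    have h5 := pow_one_of_dvd hp.pos hdvd
    refine lp_cov1' hB hR _ (lk_spec M T hT) ?_ hM hf h5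
    have h6 := allBelow_spec _ M h3 (p % M) (Nat.mod_lt _ (Nat.lt_trans Nat.zero_lt_one hM))
    rw [coprime_of_pow hf h5] at h6
    simpa using h6

/-- all classes of `M` are in the table -/
def allq (T : List (ℕ × List (ℕ × ℕ))) (M : ℕ) : Bool :=
  Nat.ble 2 M && allBelow (fun u => !(Nat.beq (Nat.gcd u M) 1) || cov1 M u (lk M T)) M

theorem lp_allq (hB : StBasic) (hR : StRank) {T : List (ℕ × List (ℕ × ℕ))}
    (hT : AllTbl T) {M : ℕ} (h : allq T M = true) {p f : ℕ} (hf : 0 < f)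
    (hp : (p : ZMod M) ^ f = 1) : LP M p f := by
  unfold allq at h
  rw [Bool.and_eq_true] at h
  obtain ⟨h1, h3⟩ := h
  have hM : 1 < M := Nat.le_of_ble_eq_true h1
  refine lp_cov1' hB hR _ (lk_spec M T hT) ?_ hM hf hp
  have h6 := allBelow_spec _ M h3 (p % M) (Nat.mod_lt _ (Nat.lt_trans Nat.zero_lt_one hM))
  rw [coprime_of_pow hf hp] at h6
  simpa using h6

end Pool.Agent.Lib.MP81632f.Diag.Comp
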