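import Pool.Agent.Lib.MP_81632f_ag.Diag.CompData01
import Pool.Agent.Lib.MP_81632f_ag.Diag.CompData02
import Pool.Agent.Lib.MP_81632f_ag.Diag.CompData03
import Pool.Agent.Lib.MP_81632f_ag.Diag.CompData04
import Pool.Agent.Lib.MP_81632f_ag.Diag.CompData05
import Pool.Agent.Lib.MP_81632f_ag.Diag.CompData06
import Pool.Agent.Lib.MP_81632f_ag.Diag.CompData07
import Pool.Agent.Lib.MP_81632f_ag.Diag.CompData08
import Pool.Agent.Lib.MP_81632f_ag.Diag.CompData09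
import Pool.Agent.Lib.MP_81632f_ag.Diag.CompData10
import Pool.Agent.Lib.MP_81632f_ag.Diag.CompData11
import Pool.Agent.Lib.MP_81632f_ag.Diag.CompData12
import Pool.Agent.Lib.MP_81632f_ag.Diag.CompData13
import Pool.Agent.Lib.MP_81632f_ag.Diag.CompData14
import Pool.Agent.Lib.MP_81632f_ag.Diag.CompData15
import Pool.Agent.Lib.MP_81632f_ag.Diag.CompData16
import Pool.Agent.Lib.MP_81632f_ag.Diag.CompData17
import Pool.Agent.Lib.MP_81632f_ag.Diag.CompData18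
import Pool.Agent.Lib.MP_81632f_ag.Diag.CompData19
import Pool.Agent.Lib.MP_81632f_ag.Diag.CompData20
import Pool.Agent.Lib.MP_81632f_ag.Diag.CompData21
import Pool.Agent.Lib.MP_81632f_ag.Diag.CompData22
import Pool.Agent.Lib.MP_81632f_ag.Diag.CompData23
import Pool.Agent.Lib.MP_81632f_ag.Diag.CompData24

/-!
# Composite degrees: the table
-/

set_option autoImplicit false

namespace Pool.Agent.Lib.MP81632f.Diag.Comp

def tb0 : List (ℕ × List (ℕ × ℕ)) :=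
  [(12, [(5, 2), (7, 2), (1, 1)]),
    (15, [(2, 4), (7, 4), (4, 2), (11, 2), (1, 1)]),
    (20, [(3, 4), (13, 4), (9, 2), (11, 2), (1, 1)]),
    (21, [(2, 6), (10, 6), (4, 3), (8, 2), (13, 2), (1, 1)]),
    (24, [(5, 2), (7, 2), (11, 2), (13, 2), (17, 2), (19, 2), (1, 1)]),
    (28, [(5, 6), (11, 6), (9, 3), (13, 2), (15, 2), (1, 1)]),
    (30, [(7, 4), (17, 4), (11, 2), (19, 2), (1, 1)]),
    (33, [(5, 10), (7, 10), (4, 5)]),
    (35, [(2, 12), (3, 12), (4, 6), (13, 4)]),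
    (36, [(5, 6), (7, 6), (13, 3), (17, 2), (19, 2), (1, 1)]),
    (39, [(2, 12), (7, 12), (4, 6), (29, 6), (5, 4), (31, 4), (16, 3), (14, 2), (25, 2), (1, 1)]),
    (40, [(3, 4), (7, 4), (13, 4), (17, 4), (9, 2), (11, 2), (19, 2), (21, 2), (29, 2), (31, 2), (1, 1)])]

theorem tb0_ok : AllTbl tb0 :=
  ⟨⟨c_12_5, c_12_7, c_12_1, trivial⟩,
    ⟨c_15_2, c_15_7, c_15_4, c_15_11, c_15_1, trivial⟩,
    ⟨c_20_3, c_20_13, c_20_9, c_20_11, c_20_1, trivial⟩,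
    ⟨c_21_2, c_21_10, c_21_4, c_21_8, c_21_13, c_21_1, trivial⟩,
    ⟨c_24_5, c_24_7, c_24_11, c_24_13, c_24_17, c_24_19, c_24_1, trivial⟩,
    ⟨c_28_5, c_28_11, c_28_9, c_28_13, c_28_15, c_28_1, trivial⟩,
    ⟨c_30_7, c_30_17, c_30_11, c_30_19, c_30_1, trivial⟩,
    ⟨c_33_5, c_33_7, c_33_4, trivial⟩,
    ⟨c_35_2, c_35_3, c_35_4, c_35_13, trivial⟩,
    ⟨c_36_5, c_36_7, c_36_13, c_36_17, c_36_19, c_36_1, trivial⟩,
    ⟨c_39_2, c_39_7, c_39_4, c_39_29, c_39_5, c_39_31, c_39_16, c_39_14, c_39_25, c_39_1, trivial⟩,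
    ⟨c_40_3, c_40_7, c_40_13, c_40_17, c_40_9, c_40_11, c_40_19, c_40_21, c_40_29, c_40_31, c_40_1, trivial⟩, trivial⟩

def tb1 : List (ℕ × List (ℕ × ℕ)) :=
  [(42, [(11, 6), (19, 6), (25, 3), (13, 2), (29, 2), (1, 1)]),
    (44, [(3, 10)]),
    (45, [(2, 12), (7, 12), (4, 6), (11, 6), (8, 4), (28, 4), (16, 3), (19, 2), (26, 2), (1, 1)]),
    (48, [(5, 4), (11, 4), (13, 4), (19, 4), (7, 2), (17, 2), (23, 2), (25, 2), (31, 2), (41, 2), (1, 1)]),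
    (51, [(5, 16), (2, 8), (38, 4)]),
    (52, [(7, 12), (33, 12), (3, 6), (17, 6), (5, 4), (31, 4), (9, 3)]),
    (55, [(2, 20), (3, 20), (4, 10), (6, 10), (16, 5), (32, 4)]),
    (56, [(3, 6), (5, 6), (11, 6), (23, 6), (37, 6), (9, 3), (13, 2), (15, 2), (27, 2), (29, 2), (43, 2), (1, 1)]),
    (57, [(5, 18), (10, 18), (4, 9), (11, 6), (31, 6), (7, 3)]),
    (60, [(7, 4), (13, 4), (17, 4), (23, 4), (11, 2), (19, 2), (29, 2), (31, 2), (41, 2), (49, 2), (1, 1)]),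
    (63, [(2, 6), (10, 6), (11, 6), (13, 6), (29, 6), (31, 6), (40, 6), (44, 6), (4, 3), (22, 3), (25, 3), (37, 3), (8, 2), (55, 2), (1, 1)]),
    (65, [(17, 12), (19, 12), (12, 4), (34, 4)])]

theorem tb1_ok : AllTbl tb1 :=
  ⟨⟨c_42_11, c_42_19, c_42_25, c_42_13, c_42_29, c_42_1, trivial⟩,
    ⟨c_44_3, trivial⟩,
    ⟨c_45_2, c_45_7, c_45_4, c_45_11, c_45_8, c_45_28, c_45_16, c_45_19, c_45_26, c_45_1, trivial⟩,
    ⟨c_48_5, c_48_11, c_48_13, c_48_19, c_48_7, c_48_17, c_48_23, c_48_25, c_48_31, c_48_41, c_48_1, trivial⟩,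
    ⟨c_51_5, c_51_2, c_51_38, trivial⟩,
    ⟨c_52_7, c_52_33, c_52_3, c_52_17, c_52_5, c_52_31, c_52_9, trivial⟩,
    ⟨c_55_2, c_55_3, c_55_4, c_55_6, c_55_16, c_55_32, trivial⟩,
    ⟨c_56_3, c_56_5, c_56_11, c_56_23, c_56_37, c_56_9, c_56_13, c_56_15, c_56_27, c_56_29, c_56_43, c_56_1, trivial⟩,
    ⟨c_57_5, c_57_10, c_57_4, c_57_11, c_57_31, c_57_7, trivial⟩,
    ⟨c_60_7, c_60_13, c_60_17, c_60_23, c_60_11, c_60_19, c_60_29, c_60_31, c_60_41, c_60_49, c_60_1, trivial⟩,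
    ⟨c_63_2, c_63_10, c_63_11, c_63_13, c_63_29, c_63_31, c_63_40, c_63_44, c_63_4, c_63_22, c_63_25, c_63_37, c_63_8, c_63_55, c_63_1, trivial⟩,
    ⟨c_65_17, c_65_19, c_65_12, c_65_34, trivial⟩, trivial⟩

def tb2 : List (ℕ × List (ℕ × ℕ)) :=
  [(66, [(5, 10), (7, 10), (25, 5), (23, 2), (43, 2), (1, 1)]),
    (68, [(3, 16), (5, 16), (9, 8), (15, 8), (13, 4), (47, 4), (35, 2)]),
    (69, [(2, 22)]),
    (70, [(3, 12), (23, 12), (9, 6), (13, 4)]),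
    (72, [(5, 6), (7, 6), (11, 6), (13, 6), (41, 6), (43, 6), (25, 3), (17, 2), (19, 2), (35, 2), (37, 2), (53, 2), (55, 2), (1, 1)]),
    (75, [(2, 20), (13, 20), (4, 10), (11, 10), (16, 5), (7, 4), (32, 4), (26, 2), (49, 2), (1, 1)]),
    (76, [(23, 18), (7, 6)]),
    (77, [(2, 30), (3, 30), (4, 15), (8, 10), (20, 10), (15, 5)]),
    (78, [(7, 12), (11, 12), (29, 6), (43, 6), (5, 4), (31, 4), (55, 3), (25, 2), (53, 2), (1, 1)]),
    (80, [(3, 4), (11, 4), (13, 4), (17, 4), (19, 4), (21, 4), (29, 4), (43, 4), (47, 4), (53, 4), (57, 4), (9, 2), (31, 2), (39, 2), (41, 2), (49, 2), (71, 2), (1, 1)]),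
    (84, [(5, 6), (11, 6), (19, 6), (53, 6), (61, 6), (67, 6), (25, 3), (13, 2), (29, 2), (41, 2), (43, 2), (55, 2), (71, 2), (1, 1)]),
    (85, [(3, 16), (12, 16), (14, 16), (2, 8), (9, 8), (42, 8), (4, 4), (33, 4)])]

theorem tb2_ok : AllTbl tb2 :=
  ⟨⟨c_66_5, c_66_7, c_66_25, c_66_23, c_66_43, c_66_1, trivial⟩,
    ⟨c_68_3, c_68_5, c_68_9, c_68_15, c_68_13, c_68_47, c_68_35, trivial⟩,
    ⟨c_69_2, trivial⟩,
    ⟨c_70_3, c_70_23, c_70_9, c_70_13, trivial⟩,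
    ⟨c_72_5, c_72_7, c_72_11, c_72_13, c_72_41, c_72_43, c_72_25, c_72_17, c_72_19, c_72_35, c_72_37, c_72_53, c_72_55, c_72_1, trivial⟩,
    ⟨c_75_2, c_75_13, c_75_4, c_75_11, c_75_16, c_75_7, c_75_32, c_75_26, c_75_49, c_75_1, trivial⟩,
    ⟨c_76_23, c_76_7, trivial⟩,
    ⟨c_77_2, c_77_3, c_77_4, c_77_8, c_77_20, c_77_15, trivial⟩,
    ⟨c_78_7, c_78_11, c_78_29, c_78_43, c_78_5, c_78_31, c_78_55, c_78_25, c_78_53, c_78_1, trivial⟩,
    ⟨c_80_3, c_80_11, c_80_13, c_80_17, c_80_19, c_80_21, c_80_29, c_80_43, c_80_47, c_80_53, c_80_57, c_80_9, c_80_31, c_80_39, c_80_41, c_80_49, c_80_71, c_80_1, trivial⟩,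
    ⟨c_84_5, c_84_11, c_84_19, c_84_53, c_84_61, c_84_67, c_84_25, c_84_13, c_84_29, c_84_41, c_84_43, c_84_55, c_84_71, c_84_1, trivial⟩,
    ⟨c_85_3, c_85_12, c_85_14, c_85_2, c_85_9, c_85_42, c_85_4, c_85_33, trivial⟩, trivial⟩

def tb3 : List (ℕ × List (ℕ × ℕ)) :=
  [(87, [(2, 28), (20, 14), (17, 4)]),
    (88, [(3, 10), (5, 10), (13, 10), (15, 10), (17, 10), (19, 10), (9, 5), (21, 2), (43, 2)]),
    (90, [(7, 12), (23, 12), (11, 6), (49, 6), (17, 4), (37, 4), (31, 3), (19, 2), (71, 2), (1, 1)]),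
    (91, [(5, 12), (6, 12), (19, 12), (45, 12), (34, 4)]),
    (92, [(3, 22)]),
    (93, [(13, 30), (14, 30), (7, 15), (2, 10), (46, 10), (4, 5)]),
    (95, [(2, 36), (17, 36), (4, 18), (8, 12), (18, 4)]),
    (96, [(5, 8), (11, 8), (13, 8), (19, 8), (7, 4), (23, 4), (25, 4), (41, 4), (17, 2), (31, 2), (47, 2), (49, 2), (65, 2), (79, 2), (1, 1)]),
    (99, [(5, 30), (7, 30), (4, 15), (19, 10), (26, 10), (37, 5)]),
    (100, [(3, 20), (13, 20), (9, 10), (11, 10), (21, 5), (7, 4), (57, 4), (49, 2), (51, 2), (1, 1)]),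
    (104, [(3, 6)]),
    (105, [(2, 12)])]

theorem tb3_ok : AllTbl tb3 :=
  ⟨⟨c_87_2, c_87_20, c_87_17, trivial⟩,
    ⟨c_88_3, c_88_5, c_88_13, c_88_15, c_88_17, c_88_19, c_88_9, c_88_21, c_88_43, trivial⟩,
    ⟨c_90_7, c_90_23, c_90_11, c_90_49, c_90_17, c_90_37, c_90_31, c_90_19, c_90_71, c_90_1, trivial⟩,
    ⟨c_91_5, c_91_6, c_91_19, c_91_45, c_91_34, trivial⟩,
    ⟨c_92_3, trivial⟩,
    ⟨c_93_13, c_93_14, c_93_7, c_93_2, c_93_46, c_93_4, trivial⟩,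
    ⟨c_95_2, c_95_17, c_95_4, c_95_8, c_95_18, trivial⟩,
    ⟨c_96_5, c_96_11, c_96_13, c_96_19, c_96_7, c_96_23, c_96_25, c_96_41, c_96_17, c_96_31, c_96_47, c_96_49, c_96_65, c_96_79, c_96_1, trivial⟩,
    ⟨c_99_5, c_99_7, c_99_4, c_99_19, c_99_26, c_99_37, trivial⟩,
    ⟨c_100_3, c_100_13, c_100_9, c_100_11, c_100_21, c_100_7, c_100_57, c_100_49, c_100_51, c_100_1, trivial⟩,
    ⟨c_104_3, trivial⟩,
    ⟨c_105_2, trivial⟩, trivial⟩

def tb4 : List (ℕ × List (ℕ × ℕ)) :=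
  [(110, [(3, 20)]),
    (111, [(2, 36)]),
    (112, [(3, 12)]),
    (115, [(2, 44)]),
    (116, [(3, 28)]),
    (117, [(2, 12)]),
    (119, [(3, 48)]),
    (123, [(2, 20)]),
    (130, [(3, 12)]),
    (135, [(2, 36)]),
    (136, [(3, 16)]),
    (140, [(3, 12)])]

theorem tb4_ok : AllTbl tb4 :=
  ⟨⟨c_110_3, trivial⟩,
    ⟨c_111_2, trivial⟩,
    ⟨c_112_3, trivial⟩,
    ⟨c_115_2, trivial⟩,
    ⟨c_116_3, trivial⟩,
    ⟨c_117_2, trivial⟩,
    ⟨c_119_3, trivial⟩,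
    ⟨c_123_2, trivial⟩,
    ⟨c_130_3, trivial⟩,
    ⟨c_135_2, trivial⟩,
    ⟨c_136_3, trivial⟩,
    ⟨c_140_3, trivial⟩, trivial⟩

def tb5 : List (ℕ × List (ℕ × ℕ)) :=
  [(141, [(2, 46)]),
    (143, [(2, 60)]),
    (147, [(2, 42)]),
    (152, [(3, 18)]),
    (153, [(2, 24)]),
    (154, [(3, 30)]),
    (155, [(3, 60), (2, 20)]),
    (159, [(2, 52)]),
    (160, [(3, 8)]),
    (161, [(3, 66), (2, 33)]),
    (164, [(3, 8)]),
    (170, [(3, 16)])]

theorem tb5_ok : AllTbl tb5 :=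
  ⟨⟨c_141_2, trivial⟩,
    ⟨c_143_2, trivial⟩,
    ⟨c_147_2, trivial⟩,
    ⟨c_152_3, trivial⟩,
    ⟨c_153_2, trivial⟩,
    ⟨c_154_3, trivial⟩,
    ⟨c_155_3, c_155_2, trivial⟩,
    ⟨c_159_2, trivial⟩,
    ⟨c_160_3, trivial⟩,
    ⟨c_161_3, c_161_2, trivial⟩,
    ⟨c_164_3, trivial⟩,
    ⟨c_170_3, trivial⟩, trivial⟩

def tb6 : List (ℕ × List (ℕ × ℕ)) :=
  [(175, [(2, 60), (3, 60)]),
    (176, [(3, 20)]),
    (180, [(7, 12), (13, 12), (23, 12), (77, 12), (11, 6), (29, 6), (31, 6), (41, 6), (49, 6), (79, 6), (17, 4), (37, 4), (107, 4), (127, 4), (61, 3), (19, 2), (71, 2), (89, 2), (91, 2), (109, 2), (161, 2), (1, 1)]),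
    (183, [(2, 60)]),
    (185, [(3, 36)]),
    (187, [(2, 40)]),
    (188, [(3, 46)]),
    (189, [(2, 18)]),
    (190, [(3, 36)]),
    (198, [(5, 30), (7, 30), (25, 15), (19, 10), (53, 10), (23, 6), (43, 6), (37, 5), (67, 3), (89, 2), (109, 2), (1, 1)]),
    (200, [(3, 20), (13, 20), (17, 20), (23, 20), (9, 10), (11, 10), (19, 10), (21, 10), (29, 10), (31, 10), (41, 5), (7, 4), (43, 4), (57, 4), (93, 4), (49, 2), (51, 2), (99, 2), (101, 2), (149, 2), (151, 2), (1, 1)]),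
    (203, [(2, 84)])]

theorem tb6_ok : AllTbl tb6 :=
  ⟨⟨c_175_2, c_175_3, trivial⟩,
    ⟨c_176_3, trivial⟩,
    ⟨c_180_7, c_180_13, c_180_23, c_180_77, c_180_11, c_180_29, c_180_31, c_180_41, c_180_49, c_180_79, c_180_17, c_180_37, c_180_107, c_180_127, c_180_61, c_180_19, c_180_71, c_180_89, c_180_91, c_180_109, c_180_161, c_180_1, trivial⟩,
    ⟨c_183_2, trivial⟩,
    ⟨c_185_3, trivial⟩,
    ⟨c_187_2, trivial⟩,
    ⟨c_188_3, trivial⟩,
    ⟨c_189_2, trivial⟩,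
    ⟨c_190_3, trivial⟩,
    ⟨c_198_5, c_198_7, c_198_25, c_198_19, c_198_53, c_198_23, c_198_43, c_198_37, c_198_67, c_198_89, c_198_109, c_198_1, trivial⟩,
    ⟨c_200_3, c_200_13, c_200_17, c_200_23, c_200_9, c_200_11, c_200_19, c_200_21, c_200_29, c_200_31, c_200_41, c_200_7, c_200_43, c_200_57, c_200_93, c_200_49, c_200_51, c_200_99, c_200_101, c_200_149, c_200_151, c_200_1, trivial⟩,
    ⟨c_203_2, trivial⟩, trivial⟩

def tb7 : List (ℕ × List (ℕ × ℕ)) :=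
  [(207, [(2, 66)]),
    (213, [(2, 70)]),
    (215, [(2, 28)]),
    (221, [(2, 24)]),
    (225, [(2, 60)]),
    (231, [(2, 30)]),
    (234, [(5, 12), (7, 12), (11, 12), (19, 12), (31, 12), (41, 12), (71, 12), (85, 12), (25, 6), (29, 6), (35, 6), (43, 6), (121, 6), (127, 6), (131, 6), (185, 6), (73, 4), (125, 4), (55, 3), (61, 3), (79, 3), (133, 3), (53, 2), (181, 2), (1, 1)]),
    (235, [(2, 92)]),
    (237, [(2, 78)]),
    (245, [(2, 84)]),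
    (247, [(2, 36)]),
    (253, [(2, 110)])]

theorem tb7_ok : AllTbl tb7 :=
  ⟨⟨c_207_2, trivial⟩,
    ⟨c_213_2, trivial⟩,
    ⟨c_215_2, trivial⟩,
    ⟨c_221_2, trivial⟩,
    ⟨c_225_2, trivial⟩,
    ⟨c_231_2, trivial⟩,
    ⟨c_234_5, c_234_7, c_234_11, c_234_19, c_234_31, c_234_41, c_234_71, c_234_85, c_234_25, c_234_29, c_234_35, c_234_43, c_234_121, c_234_127, c_234_131, c_234_185, c_234_73, c_234_125, c_234_55, c_234_61, c_234_79, c_234_133, c_234_53, c_234_181, c_234_1, trivial⟩,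
    ⟨c_235_2, trivial⟩,
    ⟨c_237_2, trivial⟩,
    ⟨c_245_2, trivial⟩,
    ⟨c_247_2, trivial⟩,
    ⟨c_253_2, trivial⟩, trivial⟩

def tb8 : List (ℕ × List (ℕ × ℕ)) :=
  [(259, [(2, 36)]),
    (261, [(2, 84)]),
    (275, [(2, 20)]),
    (279, [(2, 30)]),
    (285, [(2, 36)]),
    (291, [(2, 48)]),
    (295, [(2, 116)]),
    (299, [(2, 132)]),
    (300, [(13, 20), (17, 20), (23, 20), (67, 20), (11, 10), (19, 10), (29, 10), (31, 10), (41, 10), (109, 10), (61, 5), (7, 4), (107, 4), (157, 4), (257, 4), (49, 2), (101, 2), (149, 2), (151, 2), (199, 2), (251, 2), (1, 1)]),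
    (378, [(11, 18), (13, 18), (29, 18), (31, 18), (65, 18), (103, 18), (25, 9), (43, 9), (67, 9), (19, 6), (53, 6), (71, 6), (73, 6), (179, 6), (181, 6), (233, 6), (271, 6), (37, 3), (109, 3), (127, 3), (289, 3), (55, 2), (323, 2), (1, 1)]),
    (384, [(5, 32), (11, 32), (13, 32), (19, 32), (7, 16), (23, 16), (25, 16), (41, 16), (17, 8), (47, 8), (49, 8), (79, 8), (31, 4), (95, 4), (97, 4), (161, 4), (65, 2), (127, 2), (191, 2), (193, 2), (257, 2), (319, 2), (1, 1)]),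
    (441, [(2, 42), (10, 42), (11, 42), (13, 42), (29, 42), (40, 42), (44, 42), (61, 42), (4, 21), (22, 21), (25, 21), (37, 21), (8, 14), (55, 14), (64, 7), (19, 6), (31, 6), (50, 6), (97, 6), (116, 6), (128, 6), (166, 6), (263, 6), (67, 3), (148, 3), (214, 3), (226, 3), (197, 2), (244, 2), (1, 1)])]

theorem tb8_ok : AllTbl tb8 :=
  ⟨⟨c_259_2, trivial⟩,
    ⟨c_261_2, trivial⟩,
    ⟨c_275_2, trivial⟩,
    ⟨c_279_2, trivial⟩,
    ⟨c_285_2, trivial⟩,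
    ⟨c_291_2, trivial⟩,
    ⟨c_295_2, trivial⟩,
    ⟨c_299_2, trivial⟩,
    ⟨c_300_13, c_300_17, c_300_23, c_300_67, c_300_11, c_300_19, c_300_29, c_300_31, c_300_41, c_300_109, c_300_61, c_300_7, c_300_107, c_300_157, c_300_257, c_300_49, c_300_101, c_300_149, c_300_151, c_300_199, c_300_251, c_300_1, trivial⟩,
    ⟨c_378_11, c_378_13, c_378_29, c_378_31, c_378_65, c_378_103, c_378_25, c_378_43, c_378_67, c_378_19, c_378_53, c_378_71, c_378_73, c_378_179, c_378_181, c_378_233, c_378_271, c_378_37, c_378_109, c_378_127, c_378_289, c_378_55, c_378_323, c_378_1, trivial⟩,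
    ⟨c_384_5, c_384_11, c_384_13, c_384_19, c_384_7, c_384_23, c_384_25, c_384_41, c_384_17, c_384_47, c_384_49, c_384_79, c_384_31, c_384_95, c_384_97, c_384_161, c_384_65, c_384_127, c_384_191, c_384_193, c_384_257, c_384_319, c_384_1, trivial⟩,
    ⟨c_441_2, c_441_10, c_441_11, c_441_13, c_441_29, c_441_40, c_441_44, c_441_61, c_441_4, c_441_22, c_441_25, c_441_37, c_441_8, c_441_55, c_441_64, c_441_19, c_441_31, c_441_50, c_441_97, c_441_116, c_441_128, c_441_166, c_441_263, c_441_67, c_441_148, c_441_214, c_441_226, c_441_197, c_441_244, c_441_1, trivial⟩, trivial⟩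

def tb9 : List (ℕ × List (ℕ × ℕ)) :=
  [(507, [(2, 156), (7, 156), (4, 78), (29, 78), (5, 52), (31, 52), (16, 39), (14, 26), (25, 26), (40, 13), (19, 12), (80, 12), (146, 6), (316, 6), (70, 4), (239, 4), (22, 3), (170, 2), (337, 2), (1, 1)]),
    (567, [(2, 54), (11, 54), (13, 54), (29, 54), (31, 54), (40, 54), (4, 27), (22, 27), (25, 27), (8, 18), (10, 18), (44, 18), (73, 18), (118, 18), (170, 18), (37, 9), (64, 9), (100, 9), (53, 6), (55, 6), (82, 6), (134, 6), (136, 6), (242, 6), (296, 6), (460, 6), (109, 3), (163, 3), (190, 3), (298, 3), (244, 2), (323, 2), (1, 1)]),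
    (576, [(5, 48), (11, 48), (13, 48), (43, 48), (7, 24), (23, 24), (25, 24), (41, 24), (19, 16), (35, 16), (37, 16), (53, 16), (47, 12), (49, 12), (79, 12), (113, 12), (55, 8), (71, 8), (73, 8), (89, 8), (31, 6), (65, 6), (95, 6), (97, 6), (319, 6), (353, 6), (17, 4), (143, 4), (145, 4), (271, 4), (193, 3), (127, 2), (161, 2), (287, 2), (289, 2), (415, 2), (449, 2), (1, 1)]),
    (588, [(5, 42), (11, 42), (53, 42), (61, 42), (103, 42), (151, 42), (25, 21), (13, 14), (29, 14), (41, 14), (43, 14), (55, 14), (71, 14), (85, 7), (19, 6), (67, 6), (263, 6), (313, 6), (509, 6), (557, 6), (361, 3), (97, 2), (197, 2), (293, 2), (295, 2), (391, 2), (491, 2), (1, 1)])]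

theorem tb9_ok : AllTbl tb9 :=
  ⟨⟨c_507_2, c_507_7, c_507_4, c_507_29, c_507_5, c_507_31, c_507_16, c_507_14, c_507_25, c_507_40, c_507_19, c_507_80, c_507_146, c_507_316, c_507_70, c_507_239, c_507_22, c_507_170, c_507_337, c_507_1, trivial⟩,
    ⟨c_567_2, c_567_11, c_567_13, c_567_29, c_567_31, c_567_40, c_567_4, c_567_22, c_567_25, c_567_8, c_567_10, c_567_44, c_567_73, c_567_118, c_567_170, c_567_37, c_567_64, c_567_100, c_567_53, c_567_55, c_567_82, c_567_134, c_567_136, c_567_242, c_567_296, c_567_460, c_567_109, c_567_163, c_567_190, c_567_298, c_567_244, c_567_323, c_567_1, trivial⟩,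
    ⟨c_576_5, c_576_11, c_576_13, c_576_43, c_576_7, c_576_23, c_576_25, c_576_41, c_576_19, c_576_35, c_576_37, c_576_53, c_576_47, c_576_49, c_576_79, c_576_113, c_576_55, c_576_71, c_576_73, c_576_89, c_576_31, c_576_65, c_576_95, c_576_97, c_576_319, c_576_353, c_576_17, c_576_143, c_576_145, c_576_271, c_576_193, c_576_127, c_576_161, c_576_287, c_576_289, c_576_415, c_576_449, c_576_1, trivial⟩,
    ⟨c_588_5, c_588_11, c_588_53, c_588_61, c_588_103, c_588_151, c_588_25, c_588_13, c_588_29, c_588_41, c_588_43, c_588_55, c_588_71, c_588_85, c_588_19, c_588_67, c_588_263, c_588_313, c_588_509, c_588_557, c_588_361, c_588_97, c_588_197, c_588_293, c_588_295, c_588_391, c_588_491, c_588_1, trivial⟩, trivial⟩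

def tbl : List (ℕ × List (ℕ × ℕ)) :=
  tb0 ++ (tb1 ++ (tb2 ++ (tb3 ++ (tb4 ++ (tb5 ++ (tb6 ++ (tb7 ++ (tb8 ++ (tb9)))))))))

theorem tbl_ok : AllTbl tbl :=
  allTbl_append _ _ tb0_ok (allTbl_append _ _ tb1_ok (allTbl_append _ _ tb2_ok (allTbl_append _ _ tb3_ok (allTbl_append _ _ tb4_ok (allTbl_append _ _ tb5_ok (allTbl_append _ _ tb6_ok (allTbl_append _ _ tb7_ok (allTbl_append _ _ tb8_ok (tb9_ok)))))))))

end Pool.Agent.Lib.MP81632f.Diag.Comp
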