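import Pool.Agent.Lib.MP_81632f_ag.Diag.Stmts

/-!
# C2: reduction to the top level
-/

set_option autoImplicit false

noncomputable section

namespace Pool.Agent.Lib.MP81632f.Diag

open Finset

namespace Red

/-- the elements of the top levels -/
def Good (M : ℕ) (y : ZMod M) : Prop :=
  (2 * y = 0 ∧ y ≠ 0) ∨ ∃ ℓ : ℕ, ℓ.Prime ∧ ℓ ∣ M ∧ addOrderOf y = ℓ ^ (M.factorization ℓ)

/-- functions supported on the top levels -/
def GG (M : ℕ) : AddSubgroup (ZMod M → ℤ) where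
  carrier := {v | ∀ y, v y ≠ 0 → Good M y}
  zero_mem' := fun y hy => absurd rfl hy
  add_mem' := by
    intro v w hv hw y hy
    by_cases h : v y = 0
    · refine hw y fun h' => hy ?_
      rw [Pi.add_apply, h, h', add_zero]
    · exact hv y h
  neg_mem' := by
    intro v hv y hy
    refine hv y fun h => hy ?_
    rw [Pi.neg_apply, h, neg_zero]

/-- the basis vector -/
abbrev ev {M : ℕ} (x : ZMod M) : ZMod M → ℤ := Pi.single x 1

theorem ev_good {M : ℕ} {x : ZMod M} (h : Good M x) : ev x ∈ GG M := by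
  intro y hy
  by_cases hxy : y = x
  · rwa [hxy]
  · exact absurd (Pi.single_eq_of_ne hxy _) hy

theorem cnt_add {M : ℕ} (s t : Multiset (ZMod M)) : cnt (s + t) = cnt s + cnt t := by
  funext x
  simp [cnt]

theorem cnt_single {M : ℕ} (x : ZMod M) : cnt {x} = ev x := by
  funext y
  simp only [cnt, ev, Multiset.count_singleton, Pi.single_apply]
  split_ifs <;> simp

theorem cnt_map {M : ℕ} (n : ℕ) (F : ℕ → ZMod M) :
    cnt ((Multiset.range n).map F) = ∑ j ∈ range n, ev (F j) := by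
  induction n with
  | zero =>
    funext x
    simp [cnt]
  | succ n ih =>
    rw [Multiset.range_succ, Multiset.map_cons, sum_range_succ, ← ih, ← Multiset.singleton_add,
      cnt_add, cnt_single, add_comm]

theorem dhZ_eq (M ℓ : ℕ) (x : ZMod M) : dhZ M ℓ x =
    (Multiset.range ℓ).map (fun j : ℕ => x + (j : ZMod M) * ((M / ℓ : ℕ) : ZMod M)) +
      {-((ℓ : ZMod M) * x)} +
      (Multiset.range (ℓ - 1)).map fun j : ℕ => ((j + 1 : ℕ) : ZMod M) * ((M / ℓ : ℕ) : ZMod M) := by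
  unfold dhZ
  congr 2
  rw [bind_pure_comp, Multiset.fmap_def, Multiset.map_map]
  rfl

variable {M : ℕ} [NeZero M] {p f : ℕ}

omit [NeZero M] in
/-- the Davenport-Hasse relation -/
theorem dh_mem {ℓ : ℕ} {y : ZMod M} (hℓ : ℓ.Prime) (hd : ℓ ∣ M) (hy : (ℓ : ZMod M) * y ≠ 0) :
    ∑ j ∈ range ℓ, ev (y + (j : ZMod M) * ((M / ℓ : ℕ) : ZMod M)) + ev (-((ℓ : ZMod M) * y)) +
      ∑ j ∈ range (ℓ - 1), ev (((j + 1 : ℕ) : ZMod M) * ((M / ℓ : ℕ) : ZMod M)) ∈ Sub M p f := by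
  have h : cnt (dhZ M ℓ y) ∈ Sub M p f :=
    AddSubgroup.subset_closure ⟨_, Or.inr ⟨ℓ, y, hℓ, hd, hy, rfl⟩, rfl⟩
  rw [dhZ_eq, cnt_add, cnt_add, cnt_map, cnt_single, cnt_map] at h
  exact h

omit [NeZero M] in
/-- `ℓ * (M / ℓ) = 0` -/
theorem mul_quot {ℓ : ℕ} (hd : ℓ ∣ M) : (ℓ : ZMod M) * ((M / ℓ : ℕ) : ZMod M) = 0 := by
  rw [← Nat.cast_mul, Nat.mul_div_cancel' hd, ZMod.natCast_self]

theorem quot_ne {ℓ j : ℕ} (hℓ : ℓ.Prime) (hd : ℓ ∣ M) (h0 : 0 < j) (h1 : j < ℓ) :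
    (j : ZMod M) * ((M / ℓ : ℕ) : ZMod M) ≠ 0 := by
  rw [← Nat.cast_mul, Ne, ZMod.natCast_eq_zero_iff]
  intro h
  have hM : 0 < M := Nat.pos_of_ne_zero (NeZero.ne M)
  have hq : 0 < M / ℓ := Nat.div_pos (Nat.le_of_dvd hM hd) hℓ.pos
  have h2 : j * (M / ℓ) < M := by
    calc j * (M / ℓ) < ℓ * (M / ℓ) := Nat.mul_lt_mul_of_pos_right h1 hq
      _ = M := Nat.mul_div_cancel' hd
  exact absurd (Nat.le_of_dvd (Nat.mul_pos h0 hq) h) (not_le.mpr h2)

theorem two_torsion (hd : 2 ∣ M) {u : ZMod M} (h : 2 • u = 0) (h0 : u ≠ 0) :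
    u = ((M / 2 : ℕ) : ZMod M) := by
  have h1 : M ∣ 2 * u.val := by
    rw [← ZMod.natCast_eq_zero_iff, Nat.cast_mul, ZMod.natCast_zmod_val, ← nsmul_eq_mul]
    exact h
  have h2 : u.val < M := ZMod.val_lt u
  have h3 : 0 < u.val := Nat.pos_of_ne_zero fun h => h0 ((ZMod.val_eq_zero u).mp h)
  obtain ⟨k, hk⟩ := h1
  have h4 : k = 1 := by
    have h5 : k < 2 := by
      by_contra h6
      have := Nat.mul_le_mul_left M (not_lt.mp h6)
      omega
    have h6 : k ≠ 0 := by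
      rintro rfl
      omega
    omega
  rw [h4, mul_one] at hk
  have h5 : M / 2 = u.val := by omega
  rw [h5, ZMod.natCast_zmod_val]

variable (hB : StBasic) (hM : 1 < M) (hf : 0 < f) (hp : (p : ZMod M) ^ f = 1)

include hB hM hf hp

theorem ev_neg {x : ZMod M} (hx : x ≠ 0) : ev x + ev (-x) ∈ Sub M p f :=
  (hB M p f hM hf hp).1 x hx

/-- the sum over the multiples of `M / ℓ` -/
theorem third {ℓ : ℕ} (hℓ : ℓ.Prime) (hd : ℓ ∣ M) :
    ∑ j ∈ range (ℓ - 1), ev (((j + 1 : ℕ) : ZMod M) * ((M / ℓ : ℕ) : ZMod M)) ∈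
      Sub M p f ⊔ GG M := by
  rcases hℓ.eq_two_or_odd' with rfl | hodd
  · refine (le_sup_right : GG M ≤ _) ?_
    rw [show 2 - 1 = 1 from rfl, sum_range_one]
    refine ev_good (Or.inl ⟨?_, quot_ne hℓ hd (by norm_num) (by norm_num)⟩)
    rw [zero_add, Nat.cast_one, one_mul]
    exact mul_quot hd
  · refine (le_sup_left : Sub M p f ≤ _) ?_
    obtain ⟨m, hm⟩ := hodd
    have h1 : ℓ - 1 = m + m := by omega
    rw [h1, sum_range_add, ← sum_range_reflect (fun x => ev (((m + x + 1 : ℕ) : ZMod M) *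
      ((M / ℓ : ℕ) : ZMod M))) m, ← sum_add_distrib]
    refine AddSubgroup.sum_mem _ fun j hj => ?_
    rw [mem_range] at hj
    have h2 : ((m + (m - 1 - j) + 1 : ℕ) : ZMod M) * ((M / ℓ : ℕ) : ZMod M) =
        -(((j + 1 : ℕ) : ZMod M) * ((M / ℓ : ℕ) : ZMod M)) := by
      have h3 : m + (m - 1 - j) + 1 + (j + 1) = ℓ := by omega
      have h4 : ((m + (m - 1 - j) + 1 : ℕ) : ZMod M) + ((j + 1 : ℕ) : ZMod M) = (ℓ : ZMod M) := by
        rw [← Nat.cast_add, h3]
      have h5 := mul_quot (M := M) hd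
      rw [← h4, add_mul] at h5
      exact eq_neg_of_add_eq_zero_left h5
    rw [h2]
    exact ev_neg hB hM hf hp (quot_ne hℓ hd (by omega) (by omega))

/-- elements of prime power order -/
theorem prime_pow {ℓ : ℕ} (hℓ : ℓ.Prime) (hd : ℓ ∣ M) (d : ℕ) : ∀ (b : ℕ) (x : ZMod M), 1 ≤ b →
    M.factorization ℓ = b + d → addOrderOf x = ℓ ^ b → ev x ∈ Sub M p f ⊔ GG M := by
  have : Fact ℓ.Prime := ⟨hℓ⟩
  induction d with
  | zero =>
    intro b x hb hA hx
    refine (le_sup_right : GG M ≤ _) (ev_good (Or.inr ⟨ℓ, hℓ, hd, ?_⟩))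
    rw [hA, add_zero, hx]
  | succ d ih =>
    intro b x hb hA hx
    have hx0 : x ≠ 0 := by
      rintro rfl
      rw [addOrderOf_zero] at hx
      exact absurd hx.symm (Nat.one_lt_pow (by omega) hℓ.one_lt).ne'
    -- divide `x` by `ℓ`
    obtain ⟨y, hy⟩ : ∃ y : ZMod M, (ℓ : ZMod M) * y = x := by
      have h1 : M ∣ ℓ ^ b * x.val := by
        rw [← ZMod.natCast_eq_zero_iff, Nat.cast_mul, ZMod.natCast_zmod_val, ← nsmul_eq_mul, ← hx]
        exact addOrderOf_nsmul_eq_zero x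
      have h2 : ℓ ^ (b + 1) ∣ M := by
        rw [hℓ.pow_dvd_iff_le_factorization (NeZero.ne M), hA]
        omega
      have h3 : ℓ ∣ x.val := by
        have h4 : ℓ ^ b * ℓ ∣ ℓ ^ b * x.val := by
          rw [← pow_succ]
          exact h2.trans h1
        exact Nat.dvd_of_mul_dvd_mul_left (pow_pos hℓ.pos b) h4
      obtain ⟨c, hc⟩ := h3
      refine ⟨(c : ZMod M), ?_⟩
      rw [← Nat.cast_mul, ← hc, ZMod.natCast_zmod_val]
    have hord : ∀ y : ZMod M, (ℓ : ZMod M) * y = x → addOrderOf y = ℓ ^ (b + 1) := by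
      intro y hy
      have h1 : ℓ ^ (b + 1) • y = 0 := by
        rw [pow_succ, mul_smul, nsmul_eq_mul ℓ y, hy, ← hx, addOrderOf_nsmul_eq_zero]
      have h2 : ¬ ℓ ^ b • y = 0 := by
        intro h
        have h3 : ℓ ^ (b - 1) • x = 0 := by
          rw [← hy, ← nsmul_eq_mul, smul_smul, ← pow_succ, Nat.sub_add_cancel hb, h]
        have h4 := addOrderOf_dvd_of_nsmul_eq_zero h3
        rw [hx] at h4
        have h5 := (Nat.pow_dvd_pow_iff_le_right hℓ.one_lt).mp h4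
        omega
      exact addOrderOf_eq_prime_pow h2 h1
    have h1 := dh_mem (p := p) (f := f) hℓ hd (y := y) (by rw [hy]; exact hx0)
    rw [hy] at h1
    have h2 := ev_neg hB hM hf hp hx0
    have h3 := third hB hM hf hp hℓ hd
    have h4 : ∑ j ∈ range ℓ, ev (y + (j : ZMod M) * ((M / ℓ : ℕ) : ZMod M)) ∈
        Sub M p f ⊔ GG M := by
      refine AddSubgroup.sum_mem _ fun j _ => ?_
      refine ih (b + 1) _ (by omega) (by omega) (hord _ ?_)
      rw [mul_add, hy]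
      have h5 : (ℓ : ZMod M) * ((j : ZMod M) * ((M / ℓ : ℕ) : ZMod M)) = 0 := by
        rw [mul_left_comm, mul_quot hd, mul_zero]
      rw [h5, add_zero]
    have h5 : ev x = (∑ j ∈ range ℓ, ev (y + (j : ZMod M) * ((M / ℓ : ℕ) : ZMod M)) +
        ∑ j ∈ range (ℓ - 1), ev (((j + 1 : ℕ) : ZMod M) * ((M / ℓ : ℕ) : ZMod M))) +
        ((ev x + ev (-x)) -
        (∑ j ∈ range ℓ, ev (y + (j : ZMod M) * ((M / ℓ : ℕ) : ZMod M)) + ev (-x) +
          ∑ j ∈ range (ℓ - 1), ev (((j + 1 : ℕ) : ZMod M) * ((M / ℓ : ℕ) : ZMod M)))) := by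
      abel
    rw [h5]
    exact add_mem (add_mem h4 h3) ((le_sup_left : Sub M p f ≤ _) (sub_mem h2 h1))

end Red

open Red

/-- C2 -/
theorem stRed (h : StBasic) : StRed := by
  intro M p f _ hM hf hp x hx hpp
  -- it is enough that the basis vector is in the sum of the two groups
  suffices hmem : ev x ∈ Sub M p f ⊔ GG M by
    obtain ⟨w, hw, v, hv, hwv⟩ := AddSubgroup.mem_sup.mp hmem
    refine ⟨v, ?_, hv⟩
    have h1 : Pi.single x 1 - v = w := by
      rw [sub_eq_iff_eq_add]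
      exact hwv.symm
    rw [h1]
    exact hw
  obtain ⟨ℓ, a, hℓ, ho⟩ := hpp
  have hdM : ∀ z : ZMod M, addOrderOf z ∣ M := by
    intro z
    apply addOrderOf_dvd_of_nsmul_eq_zero
    rw [nsmul_eq_mul, ZMod.natCast_self, zero_mul]
  have key : ∀ (b : ℕ) (z : ZMod M), 1 ≤ b → addOrderOf z = ℓ ^ b → ev z ∈ Sub M p f ⊔ GG M := by
    intro b z hb hz
    have h1 : ℓ ^ b ∣ M := hz ▸ hdM z
    have h2 : ℓ ∣ M := (dvd_pow_self ℓ (by omega)).trans h1
    rw [hℓ.pow_dvd_iff_le_factorization (NeZero.ne M)] at h1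
    exact prime_pow h hM hf hp hℓ h2 (M.factorization ℓ - b) b z hb (by omega) hz
  rcases ho with ho | ho
  · refine key a x ?_ ho
    by_contra ha
    have : a = 0 := by omega
    rw [this, pow_zero, AddMonoid.addOrderOf_eq_one_iff] at ho
    exact hx ho
  · have two : ∀ z : ZMod M, 2 • z = 0 → z ≠ 0 → ev z ∈ Sub M p f ⊔ GG M := by
      intro z hz hz0
      refine (le_sup_right : GG M ≤ _) (ev_good (Or.inl ⟨?_, hz0⟩))
      rw [nsmul_eq_mul] at hz
      exact_mod_cast hz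
    rcases Nat.eq_zero_or_pos a with rfl | ha
    · refine two x ?_ hx
      have := addOrderOf_nsmul_eq_zero x
      rwa [ho, pow_zero, mul_one] at this
    rcases hℓ.eq_two_or_odd' with rfl | hodd
    · refine key (a + 1) x (by omega) ?_
      rw [ho, pow_succ, mul_comm]
    -- order `2 ℓ ^ a` with `ℓ` odd
    have h2M : 2 ∣ M := (Dvd.intro _ rfl : 2 ∣ 2 * ℓ ^ a).trans (ho ▸ hdM x)
    have hh2 := mul_quot (M := M) h2M
    have hh0 : ((M / 2 : ℕ) : ZMod M) ≠ 0 := by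
      have := quot_ne (M := M) Nat.prime_two h2M (j := 1) (by norm_num) (by norm_num)
      rwa [Nat.cast_one, one_mul] at this
    set c : ZMod M := ((M / 2 : ℕ) : ZMod M) with hc
    have hh2' : 2 • c = 0 := by
      rw [nsmul_eq_mul]
      exact hh2
    -- `ℓ ^ a x = M / 2`
    have hxa : ℓ ^ a • x = c := by
      refine two_torsion h2M ?_ ?_
      · rw [smul_smul, ← ho]
        exact addOrderOf_nsmul_eq_zero x
      · intro h0
        have h1 := addOrderOf_dvd_of_nsmul_eq_zero h0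
        rw [ho] at h1
        have h2 := Nat.le_of_dvd (pow_pos hℓ.pos a) h1
        have h3 := pow_pos hℓ.pos a
        omega
    have hca : ℓ ^ a • c = c := by
      obtain ⟨m, hm⟩ := hodd.pow (n := a)
      rw [hm, add_smul, one_smul, mul_comm, mul_smul, hh2', smul_zero, zero_add]
    have hord2 : addOrderOf (2 • x) = ℓ ^ a := by
      rw [addOrderOf_nsmul_of_dvd (by norm_num) (by rw [ho]; exact dvd_mul_right _ _), ho,
        Nat.mul_div_cancel_left _ (by norm_num)]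
    have h2y : 2 • (x + c) = 2 • x := by rw [smul_add, hh2', add_zero]
    have hordy : addOrderOf (x + c) = ℓ ^ a := by
      apply Nat.dvd_antisymm
      · apply addOrderOf_dvd_of_nsmul_eq_zero
        rw [smul_add, hxa, hca, ← two_smul ℕ, hh2']
      · rw [← hord2, ← h2y]
        exact addOrderOf_smul_dvd 2
    have hy0 : (2 : ℕ) • (x + c) ≠ 0 := by
      intro h0
      rw [h2y] at h0
      rw [h0, addOrderOf_zero] at hord2
      exact absurd hord2 (Nat.one_lt_pow (by omega) hℓ.one_lt).ne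
    have h1 := dh_mem (p := p) (f := f) Nat.prime_two h2M (y := x + c) (by
      rw [← nsmul_eq_mul]
      exact hy0)
    rw [← nsmul_eq_mul] at h1
    have h2 : ev (x + c) ∈ Sub M p f ⊔ GG M := key a _ ha hordy
    have h3 : ev (-(2 • (x + c))) ∈ Sub M p f ⊔ GG M := by
      refine key a _ ha ?_
      rw [addOrderOf_neg, h2y, hord2]
    have h4 : ev c ∈ Sub M p f ⊔ GG M := two c hh2' hh0
    have h5 : ∑ j ∈ range 2, ev (x + c + (j : ZMod M) * ((M / 2 : ℕ) : ZMod M)) =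
        ev (x + c) + ev x := by
      rw [sum_range_succ, sum_range_one, Nat.cast_zero, zero_mul, add_zero, Nat.cast_one, one_mul,
        add_assoc, ← two_smul ℕ c, hh2', add_zero]
    have h6 : ∑ j ∈ range (2 - 1), ev (((j + 1 : ℕ) : ZMod M) * ((M / 2 : ℕ) : ZMod M)) =
        ev c := by
      rw [show 2 - 1 = 1 from rfl, sum_range_one, zero_add, Nat.cast_one, one_mul]
    rw [h5, h6] at h1
    have h7 : ev x = (ev (x + c) + ev x + ev (-(2 • (x + c))) + ev c) - ev (x + c) -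
        ev (-(2 • (x + c))) - ev c := by abel
    rw [h7]
    exact sub_mem (sub_mem (sub_mem ((le_sup_left : Sub M p f ≤ _) h1) h2) h3) h4

end Pool.Agent.Lib.MP81632f.Diag
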