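import Pool.Agent.Lib.MP_81632f_ag.Diag.CompArith
import Pool.Agent.Lib.MP_81632f_ag.Diag.CompSpan
import Pool.Agent.Lib.MP_81632f_ag.Diag.Red

/-!
# Composite degrees: soundness of the steps of the checker
-/

set_option autoImplicit false

namespace Pool.Agent.Lib.MP81632f.Diag.Comp

open Finset

/-! ### vectors -/

/-- value of a vector -/
def ev {A : Type*} [AddCommGroup A] : List A → List ℤ → A
  | b :: bs, x :: xs => x • b + ev bs xs
  | _, _ => 0

section

variable {A : Type*} [AddCommGroup A]

theorem ev_nil_left (v : List ℤ) : ev ([] : List A) v = 0 := by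
  cases v <;> rfl

theorem ev_nil_right (bs : List A) : ev bs [] = 0 := by
  cases bs <;> rfl

theorem ev_vadd : ∀ (bs : List A) (v w : List ℤ), ev bs (vadd v w) = ev bs v + ev bs w
  | [], v, w => by rw [ev_nil_left, ev_nil_left, ev_nil_left, add_zero]
  | b :: bs, [], w => by
      show ev (b :: bs) w = 0 + ev (b :: bs) w
      rw [zero_add]
  | b :: bs, x :: xs, [] => by
      show ev (b :: bs) (x :: xs) = ev (b :: bs) (x :: xs) + 0
      rw [add_zero]
  | b :: bs, x :: xs, y :: ys => by
      show (x + y) • b + ev bs (vadd xs ys) = (x • b + ev bs xs) + (y • b + ev bs ys)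
      rw [ev_vadd bs xs ys, add_smul]
      abel

theorem ev_vsmul (c : ℤ) : ∀ (bs : List A) (v : List ℤ), ev bs (vsmul c v) = c • ev bs v
  | [], v => by rw [ev_nil_left, ev_nil_left, smul_zero]
  | b :: bs, [] => by
      show (0 : A) = c • (0 : A)
      rw [smul_zero]
  | b :: bs, x :: xs => by
      show (c * x) • b + ev bs (vsmul c xs) = c • (x • b + ev bs xs)
      rw [ev_vsmul c bs xs, smul_add, mul_smul]

theorem ev_vzero : ∀ (bs : List A) (v : List ℤ), vzero v = true → ev bs v = 0
  | [], v, _ => ev_nil_left v
  | b :: bs, [], _ => rfl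
  | b :: bs, x :: xs, h => by
      have h' : (decide (x = 0) && vzero xs) = true := h
      rw [Bool.and_eq_true] at h'
      have hx : x = 0 := of_decide_eq_true h'.1
      show x • b + ev bs xs = 0
      rw [ev_vzero bs xs h'.2, hx, zero_smul, add_zero]

theorem ev_vunit : ∀ (bs : List A) (i : ℕ) (h : i < bs.length), ev bs (vunit i) = bs[i]
  | b :: bs, 0, _ => by
      show (1 : ℤ) • b + ev bs [] = b
      rw [one_smul, ev_nil_right, add_zero]
  | b :: bs, i + 1, h => by
      show (0 : ℤ) • b + ev bs (vunit i) = _
      rw [zero_smul, zero_add, ev_vunit bs i (Nat.lt_of_succ_lt_succ h)]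
      rfl

theorem ev_mem (G : AddSubgroup A) : ∀ (bs : List A) (v : List ℤ), (∀ b ∈ bs, b ∈ G) → ev bs v ∈ G
  | [], v, _ => by rw [ev_nil_left]; exact zero_mem G
  | b :: bs, [], _ => zero_mem G
  | b :: bs, x :: xs, h => add_mem (zsmul_mem (h b List.mem_cons_self) x)
      (ev_mem G bs xs fun b' hb => h b' (List.mem_cons_of_mem _ hb))

theorem vcomb_mem (G : AddSubgroup A) (bs : List A) : ∀ (X : List ℤ) (L : List (List ℤ)),
    (∀ l ∈ L, ev bs l ∈ G) → ev bs (vcomb X L) ∈ G
  | [], L, _ => by
      have : vcomb [] L = [] := by cases L <;> rfl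
      rw [this, ev_nil_right]
      exact zero_mem G
  | x :: xs, [], _ => by
      show ev bs [] ∈ G
      rw [ev_nil_right]
      exact zero_mem G
  | x :: xs, l :: ls, h => by
      show ev bs (vadd (vsmul x l) (vcomb xs ls)) ∈ G
      rw [ev_vadd, ev_vsmul]
      exact add_mem (zsmul_mem (h l List.mem_cons_self) x)
        (vcomb_mem G bs xs ls fun l' hl => h l' (List.mem_cons_of_mem _ hl))

theorem rows_spec (G : AddSubgroup A) (bs : List A) (L : List (List ℤ))
    (hL : ∀ l ∈ L, ev bs l ∈ G) : ∀ (X : List (List ℤ)) (i : ℕ), rows L i X = true →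
    i + X.length ≤ bs.length → ∀ (j : ℕ) (_ : i ≤ j) (_ : j < i + X.length) (h : j < bs.length),
      bs[j] ∈ G
  | [], i, _, _, j, h1, h2, _ => by
      rw [List.length_nil, add_zero] at h2
      omega
  | X :: Xs, i, h, hlen, j, h1, h2, hj => by
      have h' : (vzero (vadd (vcomb X L) (vsmul (-1) (vunit i))) && rows L (i + 1) Xs) = true := h
      rw [Bool.and_eq_true] at h'
      rw [List.length_cons] at h2 hlen
      rcases Nat.eq_or_lt_of_le h1 with rfl | h3
      · have h4 := ev_vzero bs _ h'.1
        rw [ev_vadd, ev_vsmul, ev_vunit bs i hj, neg_smul, one_smul, add_neg_eq_zero] at h4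
        rw [← h4]
        exact vcomb_mem G bs X L hL
      · exact rows_spec G bs L hL Xs (i + 1) h'.2 (by omega) j h3 (by omega) hj

end

theorem bit_ins (m r r' : ℕ) : ((m ||| (1 <<< r)) >>> r') % 2 = 1 ↔ r' = r ∨ (m >>> r') % 2 = 1 := by
  have h : ∀ n i : ℕ, (n >>> i) % 2 = 1 ↔ n.testBit i = true := by
    intro n i
    rw [Nat.shiftRight_eq_div_pow, Nat.testBit_eq_decide_div_mod_eq, decide_eq_true_iff]
  rw [h, h, Nat.testBit_or, Nat.one_shiftLeft, Nat.testBit_two_pow, Bool.or_eq_true,
    decide_eq_true_iff]
  constructor
  · rintro (h1 | h1)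
    · exact Or.inr h1
    · exact Or.inl h1.symm
  · rintro (h1 | h1)
    · exact Or.inr h1.symm
    · exact Or.inl h1

theorem allBelow_spec (P : ℕ → Bool) : ∀ n : ℕ, allBelow P n = true → ∀ t < n, P t = true
  | 0, _, t, h => absurd h (Nat.not_lt_zero t)
  | n + 1, h, t, ht => by
      have h' : (P n && allBelow P n) = true := h
      rw [Bool.and_eq_true] at h'
      rcases Nat.eq_or_lt_of_le (Nat.le_of_lt_succ ht) with rfl | h1
      · exact h'.1
      · exact allBelow_spec P n h'.2 t h1

theorem inR_spec (M : ℕ) : ∀ l : List ℕ, inR M l = true → ∀ y ∈ l, 0 < y ∧ y < M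
  | [], _, y, h => absurd h List.not_mem_nil
  | a :: l, h, y, hy => by
      have h' : ((Nat.ble 1 a && Nat.ble (a + 1) M) && inR M l) = true := h
      rw [Bool.and_eq_true, Bool.and_eq_true] at h'
      rcases List.mem_cons.mp hy with rfl | hy
      · exact ⟨Nat.le_of_ble_eq_true h'.1.1, Nat.le_of_ble_eq_true h'.1.2⟩
      · exact inR_spec M l h'.2 y hy

theorem cast_ne {M : ℕ} {y : ℕ} (h : 0 < y ∧ y < M) : (y : ZMod M) ≠ 0 := by
  rw [Ne, ZMod.natCast_eq_zero_iff]
  intro h'
  exact absurd (Nat.le_of_dvd h.1 h') (Nat.not_le.mpr h.2)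

/-- sum of the basis vectors -/
def sg (M : ℕ) : List ℕ → (ZMod M → ℤ)
  | [] => 0
  | y :: l => Pi.single (y : ZMod M) 1 + sg M l

section

variable {M p f u k : ℕ} [NeZero M]

/-- invariant of the state -/
def Inv (G : AddSubgroup (ZMod M → ℤ)) (bs : List (ZMod M → ℤ)) (st : State) : Prop :=
  ∀ r v, find r st = some v → Pi.single (r : ZMod M) 1 - ev bs v ∈ G

omit [NeZero M] in
theorem ins_spec {G : AddSubgroup (ZMod M → ℤ)} {bs : List (ZMod M → ℤ)} {st : State}
    (hI : Inv G bs st) (r : ℕ) (v : List ℤ) (h : Pi.single (r : ZMod M) 1 - ev bs v ∈ G) :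
    Inv G bs (ins r v st) := by
  obtain ⟨m, l⟩ := st
  have hI' : ∀ r' v', (bif Nat.beq ((m >>> r') % 2) 1 then some [] else findL r' l) = some v' →
    Pi.single (r' : ZMod M) 1 - ev bs v' ∈ G := hI
  have hbeq : ∀ a b : ℕ, Nat.beq a b = true ↔ a = b := fun a b =>
    ⟨Nat.eq_of_beq_eq_true, fun h => by rw [h]; exact Nat.beq_refl b⟩
  intro r' v' hf
  unfold ins at hf
  cases hz : vzero v with
  | true =>
    simp only [hz, cond_true, force_eq, find] at hf
    cases hb : Nat.beq (((m ||| (1 <<< r)) >>> r') % 2) 1 with
    | true =>
      rw [hb, cond_true, Option.some.injEq] at hf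
      subst hf
      rcases (bit_ins m r r').mp ((hbeq _ _).mp hb) with h1 | h1
      · subst h1
        rw [ev_vzero bs v hz] at h
        rw [ev_nil_right]
        exact h
      · refine hI' r' [] ?_
        rw [(hbeq _ _).mpr h1, cond_true]
    | false =>
      rw [hb, cond_false] at hf
      refine hI' r' v' ?_
      cases hb' : Nat.beq ((m >>> r') % 2) 1 with
      | true =>
        exfalso
        have h1 := (bit_ins m r r').mpr (Or.inr ((hbeq _ _).mp hb'))
        rw [(hbeq _ _).mpr h1] at hb
        exact absurd hb (by decide)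
      | false =>
        rw [cond_false]
        exact hf
  | false =>
    simp only [hz, cond_false, find] at hf
    cases hb : Nat.beq ((m >>> r') % 2) 1 with
    | true =>
      rw [hb, cond_true] at hf
      refine hI' r' v' ?_
      rw [hb, cond_true]
      exact hf
    | false =>
      rw [hb, cond_false] at hf
      simp only [findL] at hf
      cases hr : Nat.beq r r' with
      | true =>
        rw [hr, cond_true, Option.some.injEq] at hf
        subst hf
        rw [← (hbeq _ _).mp hr]
        exact h
      | false =>
        rw [hr, cond_false] at hf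
        refine hI' r' v' ?_
        rw [hb, cond_false]
        exact hf

omit [NeZero M] in
theorem evl_spec {k E T : ℕ} (hTab : Tab M p f k E T)
    {G : AddSubgroup (ZMod M → ℤ)} (hG : Sub M p f ≤ G) {bs : List (ZMod M → ℤ)}
    {st : State} (hI : Inv G bs st) : ∀ (g : List ℕ), (∀ y ∈ g, 0 < y ∧ y < M) →
    ∀ acc r net, evl E st g = some (acc, r, net) →
      sg M g - ev bs acc - net • (Pi.single (r : ZMod M) 1 : ZMod M → ℤ) ∈ G
  | [], _, acc, r, net, h => by
      have h' : (some ([], 0, 0) : Option (List ℤ × ℕ × ℤ)) = some (acc, r, net) := h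
      have h1 := Option.some.inj h'
      rw [Prod.mk.injEq, Prod.mk.injEq] at h1
      obtain ⟨rfl, rfl, rfl⟩ := h1
      rw [ev_nil_right, zero_smul]
      show (0 : ZMod M → ℤ) - 0 - 0 ∈ G
      rw [sub_zero, sub_zero]
      exact zero_mem G
  | y :: g, hg, acc, r, net, h => by
      have ih := evl_spec hTab hG hI g fun y hy => hg y (List.mem_cons_of_mem _ hy)
      have hy := hg y List.mem_cons_self
      have hc := hTab.hc y hy.1 hy.2
      simp only [evl] at h
      cases h1 : evl E st g with
      | none => rw [h1] at h; exact absurd h (by simp)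
      | some q =>
        obtain ⟨acc', r', net'⟩ := q
        have ih' := ih acc' r' net' h1
        rw [h1] at h
        simp only [force_eq] at h
        revert h hc
        generalize look E y / 1024 = ρ
        cases hs : Nat.beq (look E y / 512 % 2) 0 with
        | true =>
          intro hc h
          have h4 := hG (hc.1 rfl)
          cases h2 : find ρ st with
          | some v =>
            rw [h2] at h
            simp only [cond_true, Option.some.injEq, Prod.mk.injEq] at h
            obtain ⟨rfl, rfl, rfl⟩ := h
            have h3 := hI _ _ h2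
            show Pi.single (y : ZMod M) 1 + sg M g - ev bs (vadd v acc') - _ ∈ G
            rw [ev_vadd]
            have e : Pi.single (y : ZMod M) 1 + sg M g - (ev bs v + ev bs acc') -
                net' • (Pi.single (r' : ZMod M) 1 : ZMod M → ℤ) =
              (Pi.single (y : ZMod M) 1 - Pi.single (ρ : ZMod M) 1) +
              (Pi.single (ρ : ZMod M) 1 - ev bs v) +
              (sg M g - ev bs acc' - net' • (Pi.single (r' : ZMod M) 1 : ZMod M → ℤ)) := by abel
            rw [e]
            exact add_mem (add_mem h4 h3) ih'
          | none =>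
            rw [h2] at h
            simp only at h
            cases h5 : (decide (net' = 0) || Nat.beq r' ρ) with
            | false => rw [h5] at h; exact absurd h (by simp)
            | true =>
              rw [h5] at h
              simp only [cond_true, Option.some.injEq, Prod.mk.injEq] at h
              obtain ⟨rfl, rfl, rfl⟩ := h
              have h6 : net' • (Pi.single (r' : ZMod M) 1 : ZMod M → ℤ) =
                  net' • (Pi.single (ρ : ZMod M) 1 : ZMod M → ℤ) := by
                rw [Bool.or_eq_true] at h5
                rcases h5 with h5 | h5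
                · rw [of_decide_eq_true h5, zero_smul, zero_smul]
                · rw [Nat.eq_of_beq_eq_true h5]
              rw [h6] at ih'
              show Pi.single (y : ZMod M) 1 + sg M g - ev bs acc' - (net' + 1) • _ ∈ G
              rw [add_smul, one_smul]
              have e : Pi.single (y : ZMod M) 1 + sg M g - ev bs acc' -
                  (net' • (Pi.single (ρ : ZMod M) 1 : ZMod M → ℤ) + Pi.single (ρ : ZMod M) 1) =
                (Pi.single (y : ZMod M) 1 - Pi.single (ρ : ZMod M) 1) +
                (sg M g - ev bs acc' -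
                  net' • (Pi.single (ρ : ZMod M) 1 : ZMod M → ℤ)) := by abel
              rw [e]
              exact add_mem h4 ih'
        | false =>
          intro hc h
          have h4 := hG (hc.2 rfl)
          cases h2 : find ρ st with
          | some v =>
            rw [h2] at h
            simp only [cond_false, Option.some.injEq, Prod.mk.injEq] at h
            obtain ⟨rfl, rfl, rfl⟩ := h
            have h3 := hI _ _ h2
            show Pi.single (y : ZMod M) 1 + sg M g - ev bs (vadd (vsmul (-1) v) acc') - _ ∈ G
            rw [ev_vadd, ev_vsmul, neg_smul, one_smul]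
            have e : Pi.single (y : ZMod M) 1 + sg M g - (-ev bs v + ev bs acc') -
                net' • (Pi.single (r' : ZMod M) 1 : ZMod M → ℤ) =
              (Pi.single (y : ZMod M) 1 + Pi.single (ρ : ZMod M) 1) -
              (Pi.single (ρ : ZMod M) 1 - ev bs v) +
              (sg M g - ev bs acc' - net' • (Pi.single (r' : ZMod M) 1 : ZMod M → ℤ)) := by abel
            rw [e]
            exact add_mem (sub_mem h4 h3) ih'
          | none =>
            rw [h2] at h
            simp only at h
            cases h5 : (decide (net' = 0) || Nat.beq r' ρ) with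
            | false => rw [h5] at h; exact absurd h (by simp)
            | true =>
              rw [h5] at h
              simp only [cond_true, cond_false, Option.some.injEq, Prod.mk.injEq] at h
              obtain ⟨rfl, rfl, rfl⟩ := h
              have h6 : net' • (Pi.single (r' : ZMod M) 1 : ZMod M → ℤ) =
                  net' • (Pi.single (ρ : ZMod M) 1 : ZMod M → ℤ) := by
                rw [Bool.or_eq_true] at h5
                rcases h5 with h5 | h5
                · rw [of_decide_eq_true h5, zero_smul, zero_smul]
                · rw [Nat.eq_of_beq_eq_true h5]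
              rw [h6] at ih'
              show Pi.single (y : ZMod M) 1 + sg M g - ev bs acc' - (net' + -1) • _ ∈ G
              rw [add_smul, neg_smul, one_smul]
              have e : Pi.single (y : ZMod M) 1 + sg M g - ev bs acc' -
                  (net' • (Pi.single (ρ : ZMod M) 1 : ZMod M → ℤ) + -Pi.single (ρ : ZMod M) 1) =
                (Pi.single (y : ZMod M) 1 + Pi.single (ρ : ZMod M) 1) +
                (sg M g - ev bs acc' -
                  net' • (Pi.single (ρ : ZMod M) 1 : ZMod M → ℤ)) := by abel
              rw [e]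
              exact add_mem h4 ih'

end

end Pool.Agent.Lib.MP81632f.Diag.Comp
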