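import Pool.Agent.Lib.MP_81632f_ag.Diag.Adj4

/-!
# Covered degrees
-/

set_option autoImplicit false

noncomputable section

namespace Pool.Agent.Lib.MP81632f.Diag

open Finset

/-- The degrees covered by the theorem, for the characteristic `p`, starting from a table `S` of
pairs (`p`, degree): prime powers; degrees modulo which `-1` is a power of `p`; products of two
prime powers modulo each of which `-1` is a power of `p`; the degrees `2 ^ a r ^ b` with conditions
on `p`, `r`; multiples with the same prime divisors, with an odd quotient, if the condition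
`StepHyp` is satisfied; `2 N` for odd `N`; `N r ^ b` if `r` is a power of `p` modulo `N` and all
residues prime to `r` modulo `r ^ b` come from powers of `p` which are `1` modulo `N`; and `3 N`,
`4 N` under similar conditions. -/
inductive Cov (S : ℕ → ℕ → Prop) (p : ℕ) : ℕ → Prop
  | small {m : ℕ} : S p m → Cov S p m
  | pp {l a : ℕ} : l.Prime → Cov S p (l ^ a)
  | neg {m : ℕ} : m ≠ 0 → NegPow p m → Cov S p m
  | two {l r a b : ℕ} : l.Prime → r.Prime → l ≠ r → NegPow p (l ^ a) → NegPow p (r ^ b) →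
      Cov S p (l ^ a * r ^ b)
  | pow {r a b : ℕ} : r.Prime → Odd r → 2 ≤ a → NegPow p (r ^ b) → GenBy p (2 ^ a * r) (2 ^ a) →
      (∃ k : ℕ, Odd k ∧ ∀ j : ℕ, (p : ZMod (2 ^ a)) ^ j = 1 → r ∣ p ^ (k * j) - 1) →
      Cov S p (2 ^ a * r ^ b)
  | transfer {m M : ℕ} : Cov S p m → M ≠ 0 → m ∣ M → 1 < m → Odd (M / m) →
      (∀ r : ℕ, r.Prime → r ∣ M → r ∣ m) → (Odd M ∨ 4 ∣ M) → StepHyp p M → Cov S p M
  | double {N : ℕ} : Cov S p N → Odd N → Cov S p (2 * N)
  | adj {N r b : ℕ} : Cov S p N → N ≠ 0 → r.Prime → ¬ r ∣ N →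
      (∃ j : ℕ, (p : ZMod N) ^ j = (r : ZMod N)) →
      (∀ c : ℕ, Nat.Coprime c r →
        ∃ k : ℕ, (p : ZMod N) ^ k = 1 ∧ (p : ZMod (r ^ b)) ^ k = (c : ZMod (r ^ b))) →
      Cov S p (N * r ^ b)
  | adj3 {N : ℕ} : Cov S p N → N ≠ 0 → ¬ 3 ∣ N → (∃ j : ℕ, (p : ZMod N) ^ j + 3 = 0) →
      (∃ k : ℕ, (p : ZMod N) ^ k = 1 ∧ (p : ZMod 3) ^ k = -1) → Cov S p (N * 3)
  | adj4 {N : ℕ} : Cov S p N → Odd N →
      (∃ j : ℕ, (p : ZMod N) ^ j = 2 ∨ (p : ZMod N) ^ j + 2 = 0) →
      (∃ k : ℕ, (p : ZMod N) ^ k = 1 ∧ (p : ZMod 4) ^ k = -1) → Cov S p (N * 4)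

/-- two prime powers modulo which `-1` is a power of `p` -/
theorem lpa_two (hB : StBasic) (hL : StLval) (hPP : StPP) {p l r a b : ℕ} (hl : l.Prime)
    (hr : r.Prime) (hlr : l ≠ r) (h1 : NegPow p (l ^ a)) (h2 : NegPow p (r ^ b)) :
    LPA (l ^ a * r ^ b) p := by
  rcases Nat.eq_zero_or_pos a with ha | ha
  · rw [ha, pow_zero, one_mul]
    exact lpa_pp hPP hr b p
  · intro f hf hp
    have : NeZero (l ^ a * r ^ b) := ⟨by have := hl.pos; have := hr.pos; positivity⟩
    refine stTwo hB (stRank hL) _ p f ?_ hf hp l r a b hl hr hlr (Or.inl rfl) h1 h2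
    have h3 : 1 < l ^ a := Nat.one_lt_pow ha.ne' hl.one_lt
    have h4 : 1 ≤ r ^ b := Nat.one_le_pow _ _ hr.pos
    nlinarith

/-- covered degrees have the lattice property -/
theorem cov_lpa (hB : StBasic) (hL : StLval) (hPP : StPP) {S : ℕ → ℕ → Prop}
    (hS : ∀ p m, S p m → LPA m p) {p m : ℕ} (h : Cov S p m) : LPA m p := by
  induction h with
  | small h => exact hS _ _ h
  | pp hl => exact lpa_pp hPP hl _ p
  | neg h0 h => exact lpa_neg hB h0 h
  | two hl hr hlr h1 h2 => exact lpa_two hB hL hPP hl hr hlr h1 h2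
  | pow hr hro ha h1 h2 h3 => exact lpa_pow_two hB hL hPP hr hro ha h1 h2 h3
  | transfer _ hM hm hm1 hk hr hE hyp ih => exact lpa_transfer hB hL hM hm hm1 hk hr hE hyp ih
  | double _ hN ih => exact lpa_double hB hN ih
  | adj _ h0 hr hrN h1 h2 ih => exact lpa_adj hB hPP h0 hr hrN h1 h2 ih
  | adj3 _ h0 h3 h1 h2 ih => exact lpa_adj3 hB h0 h3 h1 h2 ih
  | adj4 _ hN h1 h2 ih => exact lpa_adj4 hB hN h1 h2 ih

namespace Fam

open Gn

theorem gens_three {S : Set ℕ} (h : Gens 9 S) (i : ℕ) : Gens (3 ^ i) S := by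
  have h1 := Gens.raise_odd (l := 3) (c := 1) (by decide) one_ne_zero (S := S)
    (by rw [mul_one]; exact h) i
  rwa [mul_one] at h1

theorem gens_five {S : Set ℕ} (h : Gens 25 S) (i : ℕ) : Gens (5 ^ i) S := by
  have h1 := Gens.raise_odd (l := 5) (c := 1) (by decide) one_ne_zero (S := S)
    (by rw [mul_one]; exact h) i
  rwa [mul_one] at h1

theorem gens_seven {S : Set ℕ} (h : Gens 49 S) (i : ℕ) : Gens (7 ^ i) S := by
  have h1 := Gens.raise_odd (l := 7) (c := 1) (by decide) one_ne_zero (S := S)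
    (by rw [mul_one]; exact h) i
  rwa [mul_one] at h1

theorem gens_two {S : Set ℕ} (h : Gens 8 S) (i : ℕ) : Gens (2 ^ i) S := by
  have h1 := Gens.raise_two (c := 1) one_ne_zero (S := S) (by rw [mul_one]; exact h) i
  rwa [mul_one] at h1

/-- raising two odd primes -/
theorem gens_pair {l r : ℕ} (hl : Odd l) (hr : Odd r) {S : Set ℕ} (h : Gens (l ^ 2 * r ^ 2) S)
    (i j : ℕ) : Gens (l ^ i * r ^ j) S := by
  have hl0 : l ≠ 0 := by rintro rfl; exact absurd hl (by decide)
  have hr0 : r ≠ 0 := by rintro rfl; exact absurd hr (by decide)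
  have h1 : Gens (l ^ i * r ^ 2) S := Gens.raise_odd hl (pow_ne_zero 2 hr0) h i
  rw [mul_comm] at h1
  have h2 := Gens.raise_odd hr (pow_ne_zero i hl0) h1 j
  rwa [mul_comm] at h2

theorem Gens.congr {d : ℕ} {S T : Set ℕ} (h : Gens d S)
    (hST : ∀ a ∈ S, ∃ b ∈ T, (a : ZMod d) = (b : ZMod d)) : Gens d T := by
  intro H hH
  refine h H fun a ha u hu => ?_
  obtain ⟨b, hb, hab⟩ := hST a ha
  exact hH b hb u (by rw [hu, hab])

theorem not_dvd_pow {q l i : ℕ} (hq : q.Prime) (hl : l.Prime) (hql : q ≠ l) : ¬ q ∣ l ^ i :=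
  fun h => hql ((Nat.prime_dvd_prime_iff_eq hq hl).mp (hq.dvd_of_dvd_pow h))

theorem not_dvd_two {q l r i j : ℕ} (hq : q.Prime) (hl : l.Prime) (hr : r.Prime) (h1 : q ≠ l)
    (h2 : q ≠ r) : ¬ q ∣ l ^ i * r ^ j := fun h =>
  ((hq.dvd_mul).mp h).elim (not_dvd_pow hq hl h1) (not_dvd_pow hq hr h2)

/-- powers of a prime modulo which `-1` is a power of `p` -/
theorem negPow_pow {p l i : ℕ} (hl : Odd l) (h : l ∣ p ^ i + 1) (b : ℕ) : NegPow p (l ^ b) := by
  rcases Nat.eq_zero_or_pos b with hb | hb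
  · exact ⟨0, by rw [hb, pow_zero]; exact one_dvd _⟩
  · obtain ⟨k, rfl⟩ : ∃ k, b = k + 1 := ⟨b - 1, by omega⟩
    have h1 : (l : ℤ) ∣ ((p ^ i : ℕ) : ℤ) - (-1) := by
      rw [sub_neg_eq_add]
      exact_mod_cast h
    have h2 := dvd_sub_pow_of_dvd_sub h1 k
    rw [(hl.pow : Odd (l ^ k)).neg_one_pow, sub_neg_eq_add] at h2
    refine ⟨i * l ^ k, ?_⟩
    rw [pow_mul]
    exact_mod_cast h2

/-- the general step for two odd primes -/
theorem two_primes {S : ℕ → ℕ → Prop} {p l r : ℕ} (hl : l.Prime) (hr : r.Prime)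
    (hlo : Odd l) (hro : Odd r) (h : Cov S p (l * r))
    (h1 : ∀ a b, 0 < b → NegPow p (l ^ a) ∨ GenBy p (l ^ a * r ^ b) (l ^ a))
    (h2 : ∀ a b, 0 < a → NegPow p (r ^ b) ∨ GenBy p (l ^ a * r ^ b) (r ^ b)) (a b : ℕ) :
    Cov S p (l ^ a * r ^ b) := by
  rcases Nat.eq_zero_or_pos a with ha | ha
  · rw [ha, pow_zero, one_mul]
    exact Cov.pp hr
  rcases Nat.eq_zero_or_pos b with hb | hb
  · rw [hb, pow_zero, mul_one]
    exact Cov.pp hl
  have hlp := hl.one_lt
  have hrp := hr.one_lt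
  obtain ⟨a', rfl⟩ : ∃ a', a = a' + 1 := ⟨a - 1, by omega⟩
  obtain ⟨b', rfl⟩ : ∃ b', b = b' + 1 := ⟨b - 1, by omega⟩
  have hM : l ^ (a' + 1) * r ^ (b' + 1) = l * r * (l ^ a' * r ^ b') := by ring
  refine Cov.transfer h (by positivity) ⟨_, hM⟩ (by nlinarith) ?_ ?_ ?_ ?_
  · rw [hM, Nat.mul_div_cancel_left _ (by positivity)]
    exact hlo.pow.mul hro.pow
  · intro q hq hqM
    rcases (hq.dvd_mul).mp hqM with h3 | h3
    · exact (hq.dvd_of_dvd_pow h3).trans (Dvd.intro _ rfl)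
    · exact (hq.dvd_of_dvd_pow h3).trans (Dvd.intro_left _ rfl)
  · left
    exact hlo.pow.mul hro.pow
  · exact stepHyp_two hl hr (h1 _ _ (by omega)) (h2 _ _ (by omega))

/-- The degrees `3 ^ a 5 ^ b`. -/
theorem f35 {S : ℕ → ℕ → Prop} {p : ℕ} (h : Cov S p 15) (a b : ℕ) : Cov S p (3 ^ a * 5 ^ b) := by
  refine two_primes (by norm_num) (by norm_num) (by decide) (by decide) h ?_ ?_ a b
  · intro a b hb
    right
    refine genBy_of (S := {5}) ?_ (gens_three (g9a (Set.mem_singleton 5)) a)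
    intro q hq
    rw [Set.mem_singleton_iff] at hq
    subst hq
    right
    exact ⟨by norm_num, (dvd_pow_self 5 hb.ne').trans (Dvd.intro_left _ rfl),
      not_dvd_pow (by norm_num) (by norm_num) (by norm_num)⟩
  · intro a b ha
    right
    refine genBy_of (S := {3}) ?_ (gens_five (g25a (Set.mem_singleton 3)) b)
    intro q hq
    rw [Set.mem_singleton_iff] at hq
    subst hq
    right
    exact ⟨by norm_num, (dvd_pow_self 3 ha.ne').trans (Dvd.intro _ rfl),
      not_dvd_pow (by norm_num) (by norm_num) (by norm_num)⟩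

/-- The degrees `3 ^ a 7 ^ b`, `p = 2` modulo `3`. -/
theorem f37 {S : ℕ → ℕ → Prop} {p : ℕ} (hp : p % 3 = 2) (h : Cov S p 21) (a b : ℕ) :
    Cov S p (3 ^ a * 7 ^ b) := by
  refine two_primes (by norm_num) (by norm_num) (by decide) (by decide) h ?_ ?_ a b
  · intro a b hb
    right
    have hS : Gens 9 ({7, p} : Set ℕ) := by
      have h9 : p % 9 = 2 ∨ p % 9 = 5 ∨ p % 9 = 8 := by omega
      have hcast : ∀ c : ℕ, p % 9 = c → (c : ZMod 9) = (p : ZMod 9) := by
        intro c hc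
        rw [← hc, ZMod.natCast_mod]
      rcases h9 with h9 | h9 | h9
      · refine Gens.congr (g9c (S := {7, 2}) (by simp) (by simp)) ?_
        intro q hq
        rcases hq with rfl | hq
        · exact ⟨7, by simp, rfl⟩
        · rw [Set.mem_singleton_iff] at hq
          subst hq
          exact ⟨p, by simp, hcast 2 h9⟩
      · refine Gens.congr (g9d (S := {7, 5}) (by simp) (by simp)) ?_
        intro q hq
        rcases hq with rfl | hq
        · exact ⟨7, by simp, rfl⟩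
        · rw [Set.mem_singleton_iff] at hq
          subst hq
          exact ⟨p, by simp, hcast 5 h9⟩
      · refine Gens.congr (g9e (S := {7, 8}) (by simp) (by simp)) ?_
        intro q hq
        rcases hq with rfl | hq
        · exact ⟨7, by simp, rfl⟩
        · rw [Set.mem_singleton_iff] at hq
          subst hq
          exact ⟨p, by simp, hcast 8 h9⟩
    refine genBy_of (S := {7, p}) ?_ (gens_three hS a)
    intro q hq
    rcases hq with rfl | hq
    · right
      exact ⟨by norm_num, (dvd_pow_self 7 hb.ne').trans (Dvd.intro_left _ rfl),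
        not_dvd_pow (by norm_num) (by norm_num) (by norm_num)⟩
    · left
      exact hq
  · intro a b ha
    right
    refine genBy_of (S := {3}) ?_ (gens_seven (g49a (Set.mem_singleton 3)) b)
    intro q hq
    rw [Set.mem_singleton_iff] at hq
    subst hq
    right
    exact ⟨by norm_num, (dvd_pow_self 3 ha.ne').trans (Dvd.intro _ rfl),
      not_dvd_pow (by norm_num) (by norm_num) (by norm_num)⟩

/-- The degrees `5 ^ a 7 ^ b`, `p = 2`. -/
theorem f57 {S : ℕ → ℕ → Prop} (h : Cov S 2 35) (a b : ℕ) : Cov S 2 (5 ^ a * 7 ^ b) := by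
  refine two_primes (by norm_num) (by norm_num) (by decide) (by decide) h ?_ ?_ a b
  · intro a b _
    left
    exact negPow_pow (i := 2) (by decide) (by norm_num) a
  · intro a b ha
    right
    refine genBy_of (S := {5}) ?_ (gens_seven (g49b (Set.mem_singleton 5)) b)
    intro q hq
    rw [Set.mem_singleton_iff] at hq
    subst hq
    right
    exact ⟨by norm_num, (dvd_pow_self 5 ha.ne').trans (Dvd.intro _ rfl),
      not_dvd_pow (by norm_num) (by norm_num) (by norm_num)⟩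

/-- The degrees `3 ^ a 5 ^ b 7 ^ c`, `p = 2`. -/
theorem f357 {S : ℕ → ℕ → Prop} (h15 : Cov S 2 15) (h21 : Cov S 2 21) (h35 : Cov S 2 35)
    (h105 : Cov S 2 105) (a b c : ℕ) : Cov S 2 (3 ^ a * 5 ^ b * 7 ^ c) := by
  rcases Nat.eq_zero_or_pos a with ha | ha
  · rw [ha, pow_zero, one_mul]
    exact f57 h35 b c
  rcases Nat.eq_zero_or_pos b with hb | hb
  · rw [hb, pow_zero, mul_one]
    exact f37 (by norm_num) h21 a c
  rcases Nat.eq_zero_or_pos c with hc | hc
  · rw [hc, pow_zero, mul_one]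
    exact f35 h15 a b
  obtain ⟨a', rfl⟩ : ∃ a', a = a' + 1 := ⟨a - 1, by omega⟩
  obtain ⟨b', rfl⟩ : ∃ b', b = b' + 1 := ⟨b - 1, by omega⟩
  obtain ⟨c', rfl⟩ : ∃ c', c = c' + 1 := ⟨c - 1, by omega⟩
  have hM : 3 ^ (a' + 1) * 5 ^ (b' + 1) * 7 ^ (c' + 1) = 105 * (3 ^ a' * 5 ^ b' * 7 ^ c') := by
    ring
  have o3 : Odd 3 := by decide
  have o5 : Odd 5 := by decide
  have o7 : Odd 7 := by decide
  have hprimes : ∀ q : ℕ, q.Prime → q ∣ 3 ^ (a' + 1) * 5 ^ (b' + 1) * 7 ^ (c' + 1) →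
      q = 3 ∨ q = 5 ∨ q = 7 := by
    intro q hq h
    rcases (hq.dvd_mul).mp h with h1 | h1
    · rcases (hq.dvd_mul).mp h1 with h2 | h2
      · exact Or.inl ((Nat.prime_dvd_prime_iff_eq hq (by norm_num)).mp (hq.dvd_of_dvd_pow h2))
      · exact Or.inr (Or.inl
          ((Nat.prime_dvd_prime_iff_eq hq (by norm_num)).mp (hq.dvd_of_dvd_pow h2)))
    · exact Or.inr (Or.inr
        ((Nat.prime_dvd_prime_iff_eq hq (by norm_num)).mp (hq.dvd_of_dvd_pow h1)))
  refine Cov.transfer h105 (by positivity) ⟨_, hM⟩ (by norm_num) ?_ ?_ ?_ ?_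
  · rw [hM, Nat.mul_div_cancel_left _ (by norm_num)]
    exact (o3.pow.mul o5.pow).mul o7.pow
  · intro q hq hqM
    rcases hprimes q hq hqM with rfl | rfl | rfl <;> norm_num
  · left
    exact (o3.pow.mul o5.pow).mul o7.pow
  · rintro d hd hd1 ⟨q, hq, hqM, hqd⟩
    right
    rcases hprimes q hq hqM with rfl | rfl | rfl
    · -- `3` does not divide `d`
      have h1 : d ∣ 5 ^ (b' + 1) * 7 ^ (c' + 1) := by
        have h2 : d.Coprime (3 ^ (a' + 1)) :=
          (Nat.Coprime.pow_left _ ((Nat.Prime.coprime_iff_not_dvd hq).mpr hqd)).symm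
        rw [mul_assoc] at hd
        exact h2.dvd_of_dvd_mul_left hd
      have : NeZero (5 ^ (b' + 1) * 7 ^ (c' + 1)) := ⟨by positivity⟩
      refine GenBy.dvd (M := 3 ^ (a' + 1) * 5 ^ (b' + 1) * 7 ^ (c' + 1)) ?_ h1 (fun _ _ h => h)
      refine genBy_of (S := {2, 3}) ?_ (gens_pair o5 o7
        (g1225 (Set.mem_insert 2 {3}) (Set.mem_insert_of_mem 2 (Set.mem_singleton 3))) _ _)
      intro q hq
      rcases hq with rfl | hq
      · left; rfl
      · rw [Set.mem_singleton_iff] at hq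
        subst hq
        right
        refine ⟨by norm_num, ?_, not_dvd_two (by norm_num) (by norm_num) (by norm_num)
          (by norm_num) (by norm_num)⟩
        exact ((dvd_pow_self 3 (by omega)).trans (Dvd.intro _ rfl)).trans (Dvd.intro _ rfl)
    · have h1 : d ∣ 3 ^ (a' + 1) * 7 ^ (c' + 1) := by
        have h2 : d.Coprime (5 ^ (b' + 1)) :=
          (Nat.Coprime.pow_left _ ((Nat.Prime.coprime_iff_not_dvd hq).mpr hqd)).symm
        have e : 3 ^ (a' + 1) * 5 ^ (b' + 1) * 7 ^ (c' + 1) =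
            5 ^ (b' + 1) * (3 ^ (a' + 1) * 7 ^ (c' + 1)) := by ring
        rw [e] at hd
        exact h2.dvd_of_dvd_mul_left hd
      have : NeZero (3 ^ (a' + 1) * 7 ^ (c' + 1)) := ⟨by positivity⟩
      refine GenBy.dvd (M := 3 ^ (a' + 1) * 5 ^ (b' + 1) * 7 ^ (c' + 1)) ?_ h1 (fun _ _ h => h)
      refine genBy_of (S := {2, 5}) ?_ (gens_pair o3 o7
        (g441 (Set.mem_insert 2 {5}) (Set.mem_insert_of_mem 2 (Set.mem_singleton 5))) _ _)
      intro q hq
      rcases hq with rfl | hq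
      · left; rfl
      · rw [Set.mem_singleton_iff] at hq
        subst hq
        right
        refine ⟨by norm_num, ?_, not_dvd_two (by norm_num) (by norm_num) (by norm_num)
          (by norm_num) (by norm_num)⟩
        exact ((dvd_pow_self 5 (by omega)).trans (Dvd.intro_left _ rfl)).trans (Dvd.intro _ rfl)
    · have h1 : d ∣ 3 ^ (a' + 1) * 5 ^ (b' + 1) := by
        have h2 : d.Coprime (7 ^ (c' + 1)) :=
          (Nat.Coprime.pow_left _ ((Nat.Prime.coprime_iff_not_dvd hq).mpr hqd)).symm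
        exact h2.dvd_of_dvd_mul_right hd
      have : NeZero (3 ^ (a' + 1) * 5 ^ (b' + 1)) := ⟨by positivity⟩
      refine GenBy.dvd (M := 3 ^ (a' + 1) * 5 ^ (b' + 1) * 7 ^ (c' + 1)) ?_ h1 (fun _ _ h => h)
      refine genBy_of (S := {2, 7}) ?_ (gens_pair o3 o5
        (g225 (Set.mem_insert 2 {7}) (Set.mem_insert_of_mem 2 (Set.mem_singleton 7))) _ _)
      intro q hq
      rcases hq with rfl | hq
      · left; rfl
      · rw [Set.mem_singleton_iff] at hq
        subst hq
        right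
        refine ⟨by norm_num, ?_, not_dvd_two (by norm_num) (by norm_num) (by norm_num)
          (by norm_num) (by norm_num)⟩
        exact (dvd_pow_self 7 (by omega)).trans (Dvd.intro_left _ rfl)

/-- The degrees `4 3 ^ b`. -/
theorem f43 {S : ℕ → ℕ → Prop} {p : ℕ} (h : Cov S p 12) (b : ℕ) : Cov S p (2 ^ 2 * 3 ^ b) := by
  rcases Nat.eq_zero_or_pos b with hb | hb
  · rw [hb, pow_zero, mul_one]
    exact Cov.pp (by norm_num)
  obtain ⟨b', rfl⟩ : ∃ b', b = b' + 1 := ⟨b - 1, by omega⟩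
  have hM : 2 ^ 2 * 3 ^ (b' + 1) = 12 * 3 ^ b' := by ring
  have o3 : Odd 3 := by decide
  refine Cov.transfer h (by positivity) ⟨_, hM⟩ (by norm_num) ?_ ?_ ?_ ?_
  · rw [hM, Nat.mul_div_cancel_left _ (by norm_num)]
    exact o3.pow
  · intro q hq hqM
    rcases (hq.dvd_mul).mp hqM with h1 | h1
    · exact (hq.dvd_of_dvd_pow h1).trans (by norm_num)
    · exact (hq.dvd_of_dvd_pow h1).trans (by norm_num)
  · right
    exact ⟨3 ^ (b' + 1), by norm_num⟩
  · refine stepHyp_two (by norm_num) (by norm_num) (Or.inr ?_) (Or.inr ?_)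
    · have h4 : Gens (2 ^ 2) ({3} : Set ℕ) := g4 (Set.mem_singleton 3)
      refine genBy_of (S := {3}) ?_ h4
      intro q hq
      rw [Set.mem_singleton_iff] at hq
      subst hq
      right
      exact ⟨by norm_num, (dvd_pow_self 3 (by omega)).trans (Dvd.intro_left _ rfl),
        not_dvd_pow (by norm_num) (by norm_num) (by norm_num)⟩
    · refine genBy_of (S := {2}) ?_ (gens_three (g9b (Set.mem_singleton 2)) _)
      intro q hq
      rw [Set.mem_singleton_iff] at hq
      subst hq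
      right
      exact ⟨by norm_num, (dvd_pow_self 2 (by norm_num)).trans (Dvd.intro _ rfl),
        not_dvd_pow (by norm_num) (by norm_num) (by norm_num)⟩

/-- the `GenBy` condition for `2 ^ a` -/
theorem genBy_two {p r b : ℕ} (hr : r.Prime) (hr2 : r ≠ 2) (hb : 0 < b)
    (h : Gens 8 ({p, r} : Set ℕ)) (a : ℕ) : GenBy p (2 ^ a * r ^ b) (2 ^ a) := by
  refine genBy_of (S := {p, r}) ?_ (gens_two h a)
  intro q hq
  rcases hq with rfl | hq
  · left; rfl
  · rw [Set.mem_singleton_iff] at hq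
    subst hq
    right
    exact ⟨hr, (dvd_pow_self q hb.ne').trans (Dvd.intro_left _ rfl),
      not_dvd_pow hr (by norm_num) hr2⟩

/-- The degrees `2 ^ a 5 ^ b`, `p = 3`. -/
theorem f25 {S : ℕ → ℕ → Prop} (h : Cov S 3 40) (a b : ℕ) : Cov S 3 (2 ^ a * 5 ^ b) := by
  have o5 : Odd 5 := by decide
  have hneg : ∀ b, NegPow 3 (5 ^ b) := fun b => negPow_pow (i := 2) o5 (by norm_num) b
  have hg8 : Gens 8 ({3, 5} : Set ℕ) := g8 (by simp) (by simp)
  have ha : a = 0 ∨ a = 1 ∨ a = 2 ∨ a = 3 ∨ 4 ≤ a := by omega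
  rcases ha with rfl | rfl | rfl | rfl | ha
  · rw [pow_zero, one_mul]
    exact Cov.pp (by norm_num)
  · rw [pow_one]
    exact Cov.double (Cov.pp (by norm_num)) o5.pow
  · exact Cov.two (by norm_num) (by norm_num) (by norm_num) ⟨1, by norm_num⟩ (hneg b)
  · rcases Nat.eq_zero_or_pos b with hb | hb
    · rw [hb, pow_zero, mul_one]
      exact Cov.pp (by norm_num)
    obtain ⟨b', rfl⟩ : ∃ b', b = b' + 1 := ⟨b - 1, by omega⟩
    have hM : 2 ^ 3 * 5 ^ (b' + 1) = 40 * 5 ^ b' := by ring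
    refine Cov.transfer h (by positivity) ⟨_, hM⟩ (by norm_num) ?_ ?_ ?_ ?_
    · rw [hM, Nat.mul_div_cancel_left _ (by norm_num)]
      exact o5.pow
    · intro q hq hqM
      rcases (hq.dvd_mul).mp hqM with h1 | h1
      · exact (hq.dvd_of_dvd_pow h1).trans (by norm_num)
      · exact (hq.dvd_of_dvd_pow h1).trans (by norm_num)
    · right
      exact ⟨2 * 5 ^ (b' + 1), by ring⟩
    · exact stepHyp_two (by norm_num) (by norm_num)
        (Or.inr (genBy_two (by norm_num) (by norm_num) (by omega) hg8 3)) (Or.inl (hneg _))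
  · refine Cov.pow (by norm_num) o5 (by omega) (hneg b) ?_ ⟨1, by decide, fun j hj => ?_⟩
    · have h1 := genBy_two (p := 3) (r := 5) (b := 1) (by norm_num) (by norm_num) (by norm_num)
        hg8 a
      rwa [pow_one] at h1
    · rw [one_mul]
      have h16 : (3 : ZMod 16) ^ j = 1 := by
        have hd : 16 ∣ 2 ^ a := by
          have h2 : (2 : ℕ) ^ 4 ∣ 2 ^ a := pow_dvd_pow 2 ha
          exact h2
        have h1 := congrArg (ZMod.castHom hd (ZMod 16)) hj
        rw [map_pow, map_natCast, map_one] at h1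
        exact_mod_cast h1
      have h4 : 4 ∣ j := by
        have h1 : orderOf (3 : ZMod 16) = 4 := by
          have h2 : orderOf (3 : ZMod 16) = 2 ^ (1 + 1) :=
            orderOf_eq_prime_pow (by decide) (by decide)
          rw [h2]
          norm_num
        rw [← h1]
        exact orderOf_dvd_of_pow_eq_one h16
      obtain ⟨q, rfl⟩ := h4
      have h5 : 3 ^ 4 - 1 ∣ (3 ^ 4) ^ q - 1 ^ q := Nat.sub_dvd_pow_sub_pow _ _ q
      rw [one_pow, ← pow_mul] at h5
      exact (by norm_num : 5 ∣ 3 ^ 4 - 1).trans h5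

/-- The degrees `2 ^ a 3 ^ b`, `p = 5`. -/
theorem f23 {S : ℕ → ℕ → Prop} (h : Cov S 5 12) (a b : ℕ) : Cov S 5 (2 ^ a * 3 ^ b) := by
  have o3 : Odd 3 := by decide
  have hneg : ∀ b, NegPow 5 (3 ^ b) := fun b => negPow_pow (i := 1) o3 (by norm_num) b
  have hg8 : Gens 8 ({5, 3} : Set ℕ) := g8 (by simp) (by simp)
  have ha : a = 0 ∨ a = 1 ∨ a = 2 ∨ 3 ≤ a := by omega
  rcases ha with rfl | rfl | rfl | ha
  · rw [pow_zero, one_mul]
    exact Cov.pp (by norm_num)
  · rw [pow_one]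
    exact Cov.double (Cov.pp (by norm_num)) o3.pow
  · exact f43 h b
  · refine Cov.pow (by norm_num) o3 (by omega) (hneg b) ?_ ⟨1, by decide, fun j hj => ?_⟩
    · have h1 := genBy_two (p := 5) (r := 3) (b := 1) (by norm_num) (by norm_num) (by norm_num)
        hg8 a
      rwa [pow_one] at h1
    · rw [one_mul]
      have h8 : (5 : ZMod 8) ^ j = 1 := by
        have hd : 8 ∣ 2 ^ a := by
          have h2 : (2 : ℕ) ^ 3 ∣ 2 ^ a := pow_dvd_pow 2 ha
          exact h2
        have h1 := congrArg (ZMod.castHom hd (ZMod 8)) hj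
        rw [map_pow, map_natCast, map_one] at h1
        exact_mod_cast h1
      have h4 : 2 ∣ j := by
        have h1 : orderOf (5 : ZMod 8) = 2 := orderOf_eq_prime (by decide) (by decide)
        rw [← h1]
        exact orderOf_dvd_of_pow_eq_one h8
      obtain ⟨q, rfl⟩ := h4
      have h5 : 5 ^ 2 - 1 ∣ (5 ^ 2) ^ q - 1 ^ q := Nat.sub_dvd_pow_sub_pow _ _ q
      rw [one_pow, ← pow_mul] at h5
      exact (by norm_num : 3 ∣ 5 ^ 2 - 1).trans h5

end Fam

end Pool.Agent.Lib.MP81632f.Diag
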