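import Pool.Agent.Lib.MP_81632f_ag.Diag.Cov

/-!
# Covered degrees: three and four times a prime power
-/

set_option autoImplicit false

noncomputable section

namespace Pool.Agent.Lib.MP81632f.Diag

open Finset

namespace Fam

/-- square roots of `1` modulo an odd prime power -/
theorem sq_one {l b : ℕ} (hl : l.Prime) (hlo : Odd l) {x : ZMod (l ^ b)} (hx : x * x = 1) :
    x = 1 ∨ x = -1 := by
  have : NeZero (l ^ b) := ⟨(pow_pos hl.pos b).ne'⟩
  rcases Nat.eq_zero_or_pos b with hb | hb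
  · left
    have : Subsingleton (ZMod (l ^ b)) := by
      rw [hb, pow_zero]
      infer_instance
    exact Subsingleton.elim _ _
  have h1 : ((x.val : ℤ) : ZMod (l ^ b)) = x := by
    rw [Int.cast_natCast]
    exact ZMod.natCast_zmod_val x
  have h2 : ((l ^ b : ℕ) : ℤ) ∣ ((x.val : ℤ) - 1) * ((x.val : ℤ) + 1) := by
    rw [← ZMod.intCast_zmod_eq_zero_iff_dvd]
    push_cast
    rw [ZMod.natCast_zmod_val]
    linear_combination hx
  by_cases h3 : (l : ℤ) ∣ (x.val : ℤ) - 1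
  · left
    have h4 : ¬ (l : ℤ) ∣ (x.val : ℤ) + 1 := by
      intro h5
      have h6 : (l : ℤ) ∣ 2 := by
        have h7 := dvd_sub h5 h3
        have h8 : ((x.val : ℤ) + 1) - ((x.val : ℤ) - 1) = 2 := by ring
        rwa [h8] at h7
      have h7 : l ∣ 2 := by exact_mod_cast h6
      have h8 := (Nat.prime_dvd_prime_iff_eq hl Nat.prime_two).mp h7
      rw [h8] at hlo
      exact absurd hlo (by decide)
    have h5 : IsCoprime ((l ^ b : ℕ) : ℤ) ((x.val : ℤ) + 1) := by
      push_cast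
      exact ((Nat.prime_iff_prime_int.mp hl).irreducible.coprime_iff_not_dvd.mpr h4).pow_left
    have h6 := h5.dvd_of_dvd_mul_right h2
    rw [← ZMod.intCast_zmod_eq_zero_iff_dvd] at h6
    push_cast at h6
    rw [ZMod.natCast_zmod_val] at h6
    linear_combination h6
  · right
    have h5 : IsCoprime ((l ^ b : ℕ) : ℤ) ((x.val : ℤ) - 1) := by
      push_cast
      exact ((Nat.prime_iff_prime_int.mp hl).irreducible.coprime_iff_not_dvd.mpr h3).pow_left
    have h6 := h5.dvd_of_dvd_mul_left h2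
    rw [← ZMod.intCast_zmod_eq_zero_iff_dvd] at h6
    push_cast at h6
    rw [ZMod.natCast_zmod_val] at h6
    linear_combination h6

/-- Modulo an odd prime power either `-1` is a power of `p`, or the order of `p` is odd. -/
theorem neg_or_odd {p l b : ℕ} (hl : l.Prime) (hlo : Odd l) {f : ℕ} (hf : 0 < f)
    (hp : (p : ZMod (l ^ b)) ^ f = 1) :
    NegPow p (l ^ b) ∨ ∃ k : ℕ, Odd k ∧ (p : ZMod (l ^ b)) ^ k = 1 := by
  induction f using Nat.strong_induction_on with
  | _ f ih =>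
    rcases Nat.even_or_odd f with h | h
    · obtain ⟨i, hi⟩ := h
      have hx : (p : ZMod (l ^ b)) ^ i * (p : ZMod (l ^ b)) ^ i = 1 := by
        rw [← pow_add, ← hi]; exact hp
      rcases sq_one hl hlo hx with h1 | h1
      · exact ih i (by omega) (by omega) h1
      · left
        refine ⟨i, ?_⟩
        rw [← ZMod.natCast_eq_zero_iff]
        push_cast
        rw [h1]
        ring
    · exact Or.inr ⟨f, h, hp⟩

theorem exists_fin {p l b : ℕ} (hpl : Nat.Coprime p l) (hl : l.Prime) :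
    ∃ f : ℕ, 0 < f ∧ (p : ZMod (l ^ b)) ^ f = 1 := by
  have : NeZero (l ^ b) := ⟨(pow_pos hl.pos b).ne'⟩
  obtain ⟨u, hu⟩ := (ZMod.isUnit_iff_coprime p (l ^ b)).mpr (hpl.pow_right b)
  refine ⟨orderOf u, orderOf_pos u, ?_⟩
  rw [← hu, ← Units.val_pow_eq_pow_val, pow_orderOf_eq_one, Units.val_one]

/-- The degrees `3 l ^ b`, if `p = 2` modulo `3` and `3` is `± p ^ j` modulo `l ^ b`. -/
theorem f3l {S : ℕ → ℕ → Prop} {p l b : ℕ} (hp : p % 3 = 2) (hl : l.Prime) (hlo : Odd l)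
    (hl3 : l ≠ 3) (hpl : Nat.Coprime p l) (hgen : ∃ j : ℕ, (p : ZMod (l ^ b)) ^ j = 3 ∨
        (p : ZMod (l ^ b)) ^ j + 3 = 0) : Cov S p (l ^ b * 3) := by
  have h3 : Nat.Prime 3 := by norm_num
  have hpp : Cov S p (l ^ b) := Cov.pp hl
  have hl0 : l ^ b ≠ 0 := (pow_pos hl.pos b).ne'
  have h3l : ¬ 3 ∣ l ^ b := not_dvd_pow h3 hl (Ne.symm hl3)
  have hneg3 : NegPow p 3 := ⟨1, by rw [pow_one]; omega⟩
  have hp3 : (p : ZMod 3) = -1 := by
    have h1 : ((p % 3 : ℕ) : ZMod 3) = (p : ZMod 3) := ZMod.natCast_mod p 3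
    rw [← h1, hp]
    decide
  obtain ⟨f, hf, hpf⟩ := exists_fin (b := b) hpl hl
  rcases neg_or_odd hl hlo hf hpf with h1 | ⟨k, hk, hk1⟩
  · have h2 := Cov.two (S := S) (a := b) (b := 1) hl h3 hl3 h1 (by rw [pow_one]; exact hneg3)
    rwa [pow_one] at h2
  · have hk2 : (p : ZMod 3) ^ k = -1 := by rw [hp3]; exact hk.neg_one_pow
    obtain ⟨j, hj⟩ := hgen
    rcases hj with hj | hj
    · have h2 := Cov.adj (S := S) (p := p) (N := l ^ b) (r := 3) (b := 1) hpp hl0 h3 h3l
        ⟨j, by rw [hj]; push_cast; rfl⟩ (by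
          intro c hc
          have h4 : c % 3 = 1 ∨ c % 3 = 2 := by
            have h5 : ¬ 3 ∣ c := by
              intro h6
              have h7 := Nat.dvd_gcd h6 (dvd_refl 3)
              rw [hc] at h7
              omega
            omega
          rw [pow_one]
          have h5 : ((c % 3 : ℕ) : ZMod 3) = (c : ZMod 3) := ZMod.natCast_mod c 3
          rcases h4 with h4 | h4
          · refine ⟨0, pow_zero _, ?_⟩
            rw [pow_zero, ← h5, h4, Nat.cast_one]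
          · refine ⟨k, hk1, ?_⟩
            rw [hk2, ← h5, h4]
            decide)
      rwa [pow_one] at h2
    · exact Cov.adj3 hpp hl0 h3l ⟨j, hj⟩ ⟨k, hk1, hk2⟩

/-- The degrees `4 l ^ b`, if `p = 3` modulo `4` and `2` is `± p ^ j` modulo `l ^ b`. -/
theorem f4l {S : ℕ → ℕ → Prop} {p l b : ℕ} (hp : p % 4 = 3) (hl : l.Prime) (hlo : Odd l)
    (hpl : Nat.Coprime p l) (hgen : ∃ j : ℕ, (p : ZMod (l ^ b)) ^ j = 2 ∨
        (p : ZMod (l ^ b)) ^ j + 2 = 0) : Cov S p (l ^ b * 4) := by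
  have hpp : Cov S p (l ^ b) := Cov.pp hl
  have hl2 : l ≠ 2 := by
    rintro rfl
    exact absurd hlo (by decide)
  have hneg4 : NegPow p (2 ^ 2) := ⟨1, by rw [pow_one]; omega⟩
  have hp4 : (p : ZMod 4) = -1 := by
    have h1 : ((p % 4 : ℕ) : ZMod 4) = (p : ZMod 4) := ZMod.natCast_mod p 4
    rw [← h1, hp]
    decide
  obtain ⟨f, hf, hpf⟩ := exists_fin (b := b) hpl hl
  rcases neg_or_odd hl hlo hf hpf with h1 | ⟨k, hk, hk1⟩
  · exact Cov.two (S := S) (a := b) (b := 2) hl (by norm_num) hl2 h1 hneg4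
  · have hk2 : (p : ZMod 4) ^ k = -1 := by rw [hp4]; exact hk.neg_one_pow
    exact Cov.adj4 hpp hlo.pow hgen ⟨k, hk1, hk2⟩

end Fam

end Pool.Agent.Lib.MP81632f.Diag
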