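import Pool.Agent.Lib.MP_81632f_ag.Diag.Stmts2
import Pool.Agent.Lib.MP_81632f_ag.Diag.Basic
import Pool.Agent.Lib.MP_81632f_ag.Diag.Red

/-!
# A criterion for the lattice property
-/

set_option autoImplicit false

noncomputable section

namespace Pool.Agent.Lib.MP81632f.Diag

open Finset

namespace Crit

open Red (ev)

variable {M : ℕ} [NeZero M] {p f : ℕ}

/-- the pairing of a function with the sawtooth functions -/
def pair (M p f : ℕ) [NeZero M] (t : (ZMod M)ˣ) : (ZMod M → ℤ) →+ ℤ where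
  toFun v := ∑ x, v x * saw M p f t x
  map_zero' := by simp
  map_add' v w := by simp [add_mul, Finset.sum_add_distrib]

theorem pair_ev (t : (ZMod M)ˣ) (x : ZMod M) : pair M p f t (ev x) = saw M p f t x := by
  change ∑ y, (Pi.single x 1 : ZMod M → ℤ) y * saw M p f t y = _
  rw [Finset.sum_eq_single x]
  · simp
  · intro b _ hb
    simp [Pi.single_eq_of_ne hb]
  · simp

/-- the sum of the values -/
def tot (M : ℕ) [NeZero M] : (ZMod M → ℤ) →+ ℤ where
  toFun v := ∑ x, v x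
  map_zero' := by simp
  map_add' v w := by simp [Finset.sum_add_distrib]

theorem tot_ev (x : ZMod M) : tot M (ev x) = 1 := by
  change ∑ y, (Pi.single x 1 : ZMod M → ℤ) y = 1
  rw [Finset.sum_eq_single x]
  · simp
  · intro b _ hb
    simp [Pi.single_eq_of_ne hb]
  · simp

/-- supersingular elements -/
def SSel (M p f : ℕ) (y : ZMod M) : Prop := y ≠ 0 ∧ ∀ t : (ZMod M)ˣ, saw M p f t y = 0

/-- the group of the supersingular elements -/
def SS (M p f : ℕ) : AddSubgroup (ZMod M → ℤ) := AddSubgroup.closure {v | ∃ y, SSel M p f y ∧ v = ev y}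

/-- the group of the elements `c t`, `t` a unit -/
def Top (M : ℕ) (c : ZMod M) : AddSubgroup (ZMod M → ℤ) :=
  AddSubgroup.closure {v | ∃ t : (ZMod M)ˣ, v = ev (c * (t : ZMod M))}

theorem ss_mem {y : ZMod M} (hy : SSel M p f y) : ev y ∈ SS M p f :=
  AddSubgroup.subset_closure ⟨y, hy, rfl⟩

theorem top_mem (c : ZMod M) (t : (ZMod M)ˣ) : ev (c * (t : ZMod M)) ∈ Top M c :=
  AddSubgroup.subset_closure ⟨t, rfl⟩

theorem pair_ss (t : (ZMod M)ˣ) {v : ZMod M → ℤ} (hv : v ∈ SS M p f) : pair M p f t v = 0 := by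
  induction hv using AddSubgroup.closure_induction with
  | mem v hv =>
    obtain ⟨y, hy, rfl⟩ := hv
    rw [pair_ev, hy.2 t]
  | zero => exact map_zero _
  | add v w _ _ hv hw => rw [map_add, hv, hw, add_zero]
  | neg v _ hv => rw [map_neg, hv, neg_zero]

theorem pair_sub (hB : StBasic) (hM : 1 < M) (hf : 0 < f) (hp : (p : ZMod M) ^ f = 1)
    (t : (ZMod M)ˣ) {v : ZMod M → ℤ} (hv : v ∈ Sub M p f) : pair M p f t v = 0 :=
  ((hB M p f hM hf hp).2.2.2.2 v hv).2.2 t

theorem tot_sub (hB : StBasic) (hM : 1 < M) (hf : 0 < f) (hp : (p : ZMod M) ^ f = 1)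
    {v : ZMod M → ℤ} (hv : v ∈ Sub M p f) : Even (tot M v) :=
  ((hB M p f hM hf hp).2.2.2.2 v hv).2.1

/-- combinations of supersingular elements with even sum are in `Sub` -/
theorem ss_even (hB : StBasic) (hM : 1 < M) (hf : 0 < f) (hp : (p : ZMod M) ^ f = 1)
    {v : ZMod M → ℤ} (hv : v ∈ SS M p f) (he : Even (tot M v)) : v ∈ Sub M p f := by
  by_cases hex : ∃ y, SSel M p f y
  · obtain ⟨y₀, hy₀⟩ := hex
    have h3 := (hB M p f hM hf hp).2.2.1
    have h2 : (2 : ℤ) • ev y₀ ∈ Sub M p f := by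
      have h := h3 y₀ y₀ hy₀.1 hy₀.1 hy₀.2 hy₀.2
      rw [two_smul]
      exact h
    have key : v - tot M v • ev y₀ ∈ Sub M p f := by
      clear he
      induction hv using AddSubgroup.closure_induction with
      | mem v hv =>
        obtain ⟨y, hy, rfl⟩ := hv
        rw [tot_ev, one_smul]
        have h := h3 y y₀ hy.1 hy₀.1 hy.2 hy₀.2
        have h4 : ev y - ev y₀ = (ev y + ev y₀) - (2 : ℤ) • ev y₀ := by
          rw [two_smul]; abel
        rw [h4]
        exact sub_mem h h2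
      | zero => simp
      | add v w _ _ hv hw =>
        have h4 : v + w - tot M (v + w) • ev y₀ = (v - tot M v • ev y₀) + (w - tot M w • ev y₀) := by
          rw [map_add, add_smul]; abel
        rw [h4]
        exact add_mem hv hw
      | neg v _ hv =>
        have h4 : -v - tot M (-v) • ev y₀ = -(v - tot M v • ev y₀) := by
          rw [map_neg, neg_smul]; abel
        rw [h4]
        exact neg_mem hv
    obtain ⟨k, hk⟩ := he
    have h5 : tot M v • ev y₀ ∈ Sub M p f := by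
      rw [hk, ← two_mul, mul_comm, mul_smul]
      exact AddSubgroup.zsmul_mem _ h2 k
    have h6 : v = (v - tot M v • ev y₀) + tot M v • ev y₀ := by abel
    rw [h6]
    exact add_mem key h5
  · have h1 : v = 0 := by
      clear he
      induction hv using AddSubgroup.closure_induction with
      | mem v hv =>
        obtain ⟨y, hy, rfl⟩ := hv
        exact absurd ⟨y, hy⟩ hex
      | zero => rfl
      | add v w _ _ hv hw => rw [hv, hw, add_zero]
      | neg v _ hv => rw [hv, neg_zero]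
    rw [h1]
    exact zero_mem _

/-- the subgroup generated by `u` and `-1` -/
def KK (u : (ZMod M)ˣ) : Subgroup (ZMod M)ˣ := Subgroup.closure {u, -1}

noncomputable instance (u : (ZMod M)ˣ) : Fintype ((ZMod M)ˣ ⧸ KK u) := Fintype.ofFinite _

theorem kk_card (u : (ZMod M)ˣ) (hneg : (-1 : (ZMod M)ˣ) ∉ Subgroup.zpowers u) :
    2 * Nat.card ((ZMod M)ˣ ⧸ KK u) * orderOf u ≤ M.totient := by
  have h1 : Nat.card (ZMod M)ˣ = Nat.card ((ZMod M)ˣ ⧸ KK u) * Nat.card (KK u) :=
    Subgroup.card_eq_card_quotient_mul_card_subgroup (KK u)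
  have h2 : Nat.card (ZMod M)ˣ = M.totient := by
    rw [Nat.card_eq_fintype_card, ZMod.card_units_eq_totient]
  have hle : Subgroup.zpowers u ≤ KK u := by
    rw [Subgroup.zpowers_le]
    exact Subgroup.subset_closure (Set.mem_insert _ _)
  have hmem : (-1 : (ZMod M)ˣ) ∈ KK u :=
    Subgroup.subset_closure (Set.mem_insert_of_mem _ rfl)
  have h3 : Nat.card (Subgroup.zpowers u) ∣ Nat.card (KK u) :=
    Subgroup.card_dvd_of_le hle
  rw [Nat.card_zpowers] at h3
  obtain ⟨k, hk⟩ := h3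
  have hk1 : 2 ≤ k := by
    rcases Nat.lt_or_ge k 2 with h | h
    · exfalso
      have hpos : 0 < Nat.card (KK u) := Nat.card_pos
      have hk0 : k ≠ 0 := by
        rintro rfl
        rw [mul_zero] at hk
        omega
      have hk1 : k = 1 := by omega
      rw [hk1, mul_one] at hk
      have h4 : Nat.card (KK u) ≤ Nat.card (Subgroup.zpowers u) := by
        rw [Nat.card_zpowers, hk]
      have h5 : Subgroup.zpowers u = KK u := Subgroup.eq_of_le_of_card_ge hle h4
      exact hneg (h5 ▸ hmem)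
    · exact h
  rw [← h2, h1, hk]
  calc 2 * Nat.card ((ZMod M)ˣ ⧸ KK u) * orderOf u
      = Nat.card ((ZMod M)ˣ ⧸ KK u) * (orderOf u * 2) := by ring
    _ ≤ Nat.card ((ZMod M)ˣ ⧸ KK u) * (orderOf u * k) := by gcongr

/-- modulo `Sub`, multiplication by an element of `KK` is a sign -/
theorem kk_sign (hB : StBasic) (hM : 1 < M) (hf : 0 < f) (hp : (p : ZMod M) ^ f = 1)
    (u : (ZMod M)ˣ) (hu : (u : ZMod M) = p) {k : (ZMod M)ˣ} (hk : k ∈ KK u) :
    ∃ e : ℤ, ∀ x : ZMod M, x ≠ 0 → ev ((k : ZMod M) * x) - e • ev x ∈ Sub M p f := by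
  obtain ⟨b1, b2, -⟩ := hB M p f hM hf hp
  have hne : ∀ (k : (ZMod M)ˣ) {x : ZMod M}, x ≠ 0 → (k : ZMod M) * x ≠ 0 := fun k x hx h =>
    hx ((Units.mul_right_eq_zero k).1 h)
  have hinv : ∀ (k : (ZMod M)ˣ) (e : ℤ), (e = 1 ∨ e = -1) →
      (∀ x : ZMod M, x ≠ 0 → ev ((k : ZMod M) * x) - e • ev x ∈ Sub M p f) →
      ∀ x : ZMod M, x ≠ 0 → ev (((k⁻¹ : (ZMod M)ˣ) : ZMod M) * x) - e • ev x ∈ Sub M p f := by
    intro k e he h x hx
    have h1 := h (((k⁻¹ : (ZMod M)ˣ) : ZMod M) * x) (hne _ hx)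
    rw [Units.mul_inv_cancel_left] at h1
    have h2 : ev (((k⁻¹ : (ZMod M)ˣ) : ZMod M) * x) - e • ev x =
        (-e) • (ev x - e • ev (((k⁻¹ : (ZMod M)ˣ) : ZMod M) * x)) := by
      rcases he with rfl | rfl
      · rw [one_smul, one_smul, neg_smul, one_smul]; abel
      · simp only [neg_smul, one_smul, neg_neg]; abel
    rw [h2]
    exact AddSubgroup.zsmul_mem _ h1 _
  have hmul : ∀ (k l : (ZMod M)ˣ) (e e' : ℤ),
      (∀ x : ZMod M, x ≠ 0 → ev ((k : ZMod M) * x) - e • ev x ∈ Sub M p f) →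
      (∀ x : ZMod M, x ≠ 0 → ev ((l : ZMod M) * x) - e' • ev x ∈ Sub M p f) →
      ∀ x : ZMod M, x ≠ 0 → ev (((k * l : (ZMod M)ˣ) : ZMod M) * x) - (e * e') • ev x ∈
        Sub M p f := by
    intro k l e e' h h' x hx
    have h1 := h ((l : ZMod M) * x) (hne l hx)
    have h2 := AddSubgroup.zsmul_mem _ (h' x hx) e
    have h3 : ev (((k * l : (ZMod M)ˣ) : ZMod M) * x) - (e * e') • ev x =
        (ev ((k : ZMod M) * ((l : ZMod M) * x)) - e • ev ((l : ZMod M) * x)) +
        e • (ev ((l : ZMod M) * x) - e' • ev x) := by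
      rw [Units.val_mul, mul_assoc, smul_sub, smul_smul]; abel
    rw [h3]
    exact add_mem h1 h2
  suffices h : ∃ e : ℤ, (e = 1 ∨ e = -1) ∧ ∀ x : ZMod M, x ≠ 0 →
      ev ((k : ZMod M) * x) - e • ev x ∈ Sub M p f by
    obtain ⟨e, -, he⟩ := h
    exact ⟨e, he⟩
  induction hk using Subgroup.closure_induction with
  | mem k hk =>
    rcases hk with rfl | hk
    · refine ⟨1, Or.inl rfl, fun x hx => ?_⟩
      rw [hu, one_smul]
      exact b2 x hx
    · rw [Set.mem_singleton_iff] at hk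
      subst hk
      refine ⟨-1, Or.inr rfl, fun x hx => ?_⟩
      rw [Units.val_neg, Units.val_one, neg_one_mul, neg_smul, one_smul, sub_neg_eq_add, add_comm]
      exact b1 x hx
  | one =>
    refine ⟨1, Or.inl rfl, fun x _ => ?_⟩
    rw [Units.val_one, one_mul, one_smul, sub_self]
    exact zero_mem _
  | mul k l _ _ hk hl =>
    obtain ⟨e, he, h⟩ := hk
    obtain ⟨e', he', h'⟩ := hl
    refine ⟨e * e', ?_, hmul k l e e' h h'⟩
    rcases he with rfl | rfl <;> rcases he' with rfl | rfl <;> simp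
  | inv k _ hk =>
    obtain ⟨e, he, h⟩ := hk
    exact ⟨e, he, hinv k e he h⟩

/-- the representatives of the classes of units -/
def rp (u : (ZMod M)ˣ) (i : (ZMod M)ˣ ⧸ KK u) : (ZMod M)ˣ := Quotient.out i

/-- `Top` is generated by the representatives, modulo `Sub` -/
theorem top_rep (hB : StBasic) (hM : 1 < M) (hf : 0 < f) (hp : (p : ZMod M) ^ f = 1)
    (u : (ZMod M)ˣ) (hu : (u : ZMod M) = p) {c : ZMod M} (hc : c ≠ 0)
    {v : ZMod M → ℤ} (hv : v ∈ Top M c) :
    ∃ a : (ZMod M)ˣ ⧸ KK u → ℤ,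
      v - ∑ i, a i • ev (c * ((rp u i : (ZMod M)ˣ) : ZMod M)) ∈ Sub M p f := by
  classical
  induction hv using AddSubgroup.closure_induction with
  | mem v hv =>
    obtain ⟨t, rfl⟩ := hv
    obtain ⟨k, hk⟩ := QuotientGroup.mk_out_eq_mul (KK u) t
    -- `out (mk t) = t * k`
    obtain ⟨e, he⟩ := kk_sign hB hM hf hp u hu ((KK u).inv_mem k.2)
    refine ⟨fun i => if i = (QuotientGroup.mk t : (ZMod M)ˣ ⧸ KK u) then e else 0, ?_⟩
    have h1 : ∑ i, (if i = (QuotientGroup.mk t : (ZMod M)ˣ ⧸ KK u) then e else 0) •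
        ev (c * ((rp u i : (ZMod M)ˣ) : ZMod M)) =
        e • ev (c * ((rp u (QuotientGroup.mk t) : (ZMod M)ˣ) : ZMod M)) := by
      rw [Finset.sum_eq_single (QuotientGroup.mk t : (ZMod M)ˣ ⧸ KK u)]
      · rw [if_pos rfl]
      · intro b _ hb
        rw [if_neg hb, zero_smul]
      · intro h
        exact absurd (Finset.mem_univ _) h
    rw [h1]
    have h2 : rp u (QuotientGroup.mk t) = t * (k : (ZMod M)ˣ) := hk
    rw [h2]
    have hne : c * (((t * (k : (ZMod M)ˣ) : (ZMod M)ˣ)) : ZMod M) ≠ 0 := fun h =>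
      hc ((Units.mul_left_eq_zero (t * (k : (ZMod M)ˣ))).1 h)
    have h3 := he _ hne
    have h4 : (((k : (ZMod M)ˣ)⁻¹ : (ZMod M)ˣ) : ZMod M) * (c * (((t * (k : (ZMod M)ˣ) : (ZMod M)ˣ)) : ZMod M)) =
        c * (t : ZMod M) := by
      have h5 : (((k : (ZMod M)ˣ)⁻¹ : (ZMod M)ˣ) : ZMod M) * ((k : (ZMod M)ˣ) : ZMod M) = 1 := by
        rw [← Units.val_mul, inv_mul_cancel, Units.val_one]
      rw [Units.val_mul]
      linear_combination (c * (t : ZMod M)) * h5
    rw [h4] at h3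
    exact h3
  | zero => exact ⟨0, by simp⟩
  | add v w _ _ hv hw =>
    obtain ⟨a, ha⟩ := hv
    obtain ⟨b, hb⟩ := hw
    refine ⟨a + b, ?_⟩
    have h : v + w - ∑ i, (a + b) i • ev (c * ((rp u i : (ZMod M)ˣ) : ZMod M)) =
        (v - ∑ i, a i • ev (c * ((rp u i : (ZMod M)ˣ) : ZMod M))) +
        (w - ∑ i, b i • ev (c * ((rp u i : (ZMod M)ˣ) : ZMod M))) := by
      simp only [Pi.add_apply, add_smul, Finset.sum_add_distrib]; abel
    rw [h]
    exact add_mem ha hb
  | neg v _ hv =>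
    obtain ⟨a, ha⟩ := hv
    refine ⟨-a, ?_⟩
    have h : -v - ∑ i, (-a) i • ev (c * ((rp u i : (ZMod M)ˣ) : ZMod M)) =
        -(v - ∑ i, a i • ev (c * ((rp u i : (ZMod M)ˣ) : ZMod M))) := by
      simp only [Pi.neg_apply, neg_smul, Finset.sum_neg_distrib]; abel
    rw [h]
    exact neg_mem ha

/-- every function vanishing at `0` is in a subgroup containing the basis vectors -/
theorem all_mem (W : AddSubgroup (ZMod M → ℤ)) (h : ∀ x : ZMod M, x ≠ 0 → ev x ∈ W)
    {v : ZMod M → ℤ} (h0 : v 0 = 0) : v ∈ W := by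
  classical
  have h1 : v = ∑ x, v x • ev x := by
    funext y
    rw [Finset.sum_apply, Finset.sum_eq_single y]
    · simp
    · intro b _ hb
      simp [Pi.single_eq_of_ne (Ne.symm hb)]
    · simp
  rw [h1]
  refine AddSubgroup.sum_mem _ fun x _ => ?_
  by_cases hx : x = 0
  · rw [hx, h0, zero_smul]
    exact zero_mem _
  · exact AddSubgroup.zsmul_mem _ (h x hx) _

/-- The functions `t ↦ saw t (c tᵢ)` are linearly independent. -/
theorem indep (hB : StBasic) (hR : StRank) (hM : 1 < M) (hf : 0 < f) (hp : (p : ZMod M) ^ f = 1)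
    (u : (ZMod M)ˣ) (hu : (u : ZMod M) = p) (hneg : (-1 : (ZMod M)ˣ) ∉ Subgroup.zpowers u)
    {c : ZMod M} (hc : c ≠ 0)
    (hW : ∀ x : ZMod M, x ≠ 0 → ev x ∈ Sub M p f ⊔ Top M c ⊔ SS M p f)
    (a : (ZMod M)ˣ ⧸ KK u → ℤ)
    (ha : ∀ t : (ZMod M)ˣ, ∑ i, a i * saw M p f t (c * ((rp u i : (ZMod M)ˣ) : ZMod M)) = 0) :
    a = 0 := by
  classical
  let r := Fintype.card ((ZMod M)ˣ ⧸ KK u)
  let e : Fin r ≃ ((ZMod M)ˣ ⧸ KK u) := (Fintype.equivFin _).symm
  have huf : u ^ f = 1 := by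
    apply Units.ext
    rw [Units.val_pow_eq_pow_val, hu, hp, Units.val_one]
  have h := hR M p f hM hf u hu huf hneg r
    (fun i t => saw M p f t (c * ((rp u (e i) : (ZMod M)ˣ) : ZMod M))) (by
      have h1 := kk_card u hneg
      rw [Nat.card_eq_fintype_card] at h1
      exact h1) (by
      intro x hx
      have h1 := hW x hx
      obtain ⟨y, hy, z, hz, hyz⟩ := AddSubgroup.mem_sup.mp h1
      obtain ⟨y1, hy1, y2, hy2, hy12⟩ := AddSubgroup.mem_sup.mp hy
      obtain ⟨b, hb⟩ := top_rep hB hM hf hp u hu hc hy2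
      refine ⟨fun i => b (e i), fun t => ?_⟩
      have h2 : pair M p f t (ev x) = pair M p f t y2 := by
        rw [← hyz, ← hy12, map_add, map_add, pair_ss t hz, pair_sub hB hM hf hp t hy1]
        ring
      have h3 : pair M p f t y2 =
          ∑ i, b i * saw M p f t (c * ((rp u i : (ZMod M)ˣ) : ZMod M)) := by
        have h4 := pair_sub hB hM hf hp t hb
        rw [map_sub, map_sum, sub_eq_zero] at h4
        rw [h4]
        refine Finset.sum_congr rfl fun i _ => ?_
        rw [map_zsmul, pair_ev, smul_eq_mul]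
      rw [← pair_ev, h2, h3]
      exact (Equiv.sum_comp e
        (fun i => b i * saw M p f t (c * ((rp u i : (ZMod M)ˣ) : ZMod M)))).symm)
    (fun i => a (e i)) (by
      intro t
      rw [← ha t]
      exact Equiv.sum_comp e
        (fun i => a i * saw M p f t (c * ((rp u i : (ZMod M)ˣ) : ZMod M))))
  funext i
  have h1 := congrFun h (e.symm i)
  simpa using h1

/-- supersingular primes -/
theorem lp_ss (hB : StBasic) (hM : 1 < M) (hf : 0 < f) (hp : (p : ZMod M) ^ f = 1)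
    (h : ∀ x : ZMod M, x ≠ 0 → ev x ∈ Sub M p f ⊔ SS M p f) : LP M p f := by
  intro X h0 _ he
  have h1 := all_mem _ h (v := cnt X) (Basic.cnt_apply_zero h0)
  obtain ⟨s, hs, z, hz, hsz⟩ := AddSubgroup.mem_sup.mp h1
  have h2 : Even (tot M (cnt X)) := by
    change Even (∑ x, cnt X x)
    rw [Basic.sum_cnt]
    exact_mod_cast he
  rw [← hsz, map_add] at h2
  have h3 : Even (tot M z) := by
    rw [Int.even_add] at h2
    exact h2.mp (tot_sub hB hM hf hp hs)
  rw [← hsz]
  exact add_mem hs (ss_even hB hM hf hp hz h3)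

/-- the criterion -/
theorem crit (hB : StBasic) (hR : StRank) (hM : 1 < M) (hf : 0 < f) (hp : (p : ZMod M) ^ f = 1)
    (u : (ZMod M)ˣ) (hu : (u : ZMod M) = p) (hneg : (-1 : (ZMod M)ˣ) ∉ Subgroup.zpowers u)
    {c : ZMod M} (hc : c ≠ 0)
    (hW : ∀ x : ZMod M, x ≠ 0 → ev x ∈ Sub M p f ⊔ Top M c ⊔ SS M p f) : LP M p f := by
  intro X h0 hbal he
  have h1 := all_mem _ hW (v := cnt X) (Basic.cnt_apply_zero h0)
  obtain ⟨y, hy, z, hz, hyz⟩ := AddSubgroup.mem_sup.mp h1
  obtain ⟨y1, hy1, y2, hy2, hy12⟩ := AddSubgroup.mem_sup.mp hy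
  obtain ⟨b, hb⟩ := top_rep hB hM hf hp u hu hc hy2
  have hb0 : b = 0 := by
    refine indep hB hR hM hf hp u hu hneg hc hW b fun t => ?_
    have h2 : pair M p f t (cnt X) = 0 := by
      change ∑ x, cnt X x * saw M p f t x = 0
      rw [Basic.sum_cnt_mul]
      exact hbal t
    have h4 := pair_sub hB hM hf hp t hb
    rw [map_sub, map_sum, sub_eq_zero] at h4
    have h5 : ∑ i, b i * saw M p f t (c * ((rp u i : (ZMod M)ˣ) : ZMod M)) =
        pair M p f t y2 := by
      rw [h4]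
      refine Finset.sum_congr rfl fun i _ => ?_
      rw [map_zsmul, pair_ev, smul_eq_mul]
    rw [h5]
    rw [← hyz, ← hy12, map_add, map_add, pair_ss t hz, pair_sub hB hM hf hp t hy1] at h2
    linarith
  have hy2' : y2 ∈ Sub M p f := by
    simpa [hb0] using hb
  have h2 : Even (tot M (cnt X)) := by
    change Even (∑ x, cnt X x)
    rw [Basic.sum_cnt]
    exact_mod_cast he
  have hyS : y ∈ Sub M p f := by
    rw [← hy12]
    exact add_mem hy1 hy2'
  rw [← hyz, map_add] at h2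
  have h3 : Even (tot M z) := by
    rw [Int.even_add] at h2
    exact h2.mp (tot_sub hB hM hf hp hyS)
  rw [← hyz]
  exact add_mem hyS (ss_even hB hM hf hp hz h3)

end Crit

end Pool.Agent.Lib.MP81632f.Diag
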