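import Mathlib

/-!
# Tate sets of Gauss sums: definitions of the hand-in
-/

set_option autoImplicit false

namespace Pool.Agent.Lib.MP81632f.Diag

section Defs

variable {F : Type} [Field F] [Fintype F]

/-- A Tate set: a multiset `s` of nontrivial multiplicative characters of the finite field `F` with
`q` elements, such that some power of the product of the Gauss sums is a power of `q`:
`(∏ g(χ)) ^ (2 N) = q ^ (N |s|)` for some `N > 0`. -/
def IsTateSet (ψ : AddChar F ℂ) (s : Multiset (MulChar F ℂ)) : Prop :=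
  (∀ χ ∈ s, χ ≠ 1) ∧ ∃ N : ℕ, 0 < N ∧
    (s.map fun χ => gaussSum χ ψ).prod ^ (2 * N) = (Fintype.card F : ℂ) ^ (N * Multiset.card s)

/-- One character, or three characters with product `1`. -/
def IsAtom (A : Multiset (MulChar F ℂ)) : Prop :=
  (∃ χ, A = {χ}) ∨ ∃ χ₁ χ₂ χ₃, A = {χ₁, χ₂, χ₃} ∧ χ₁ * χ₂ * χ₃ = 1

/-- The Davenport-Hasse set of the prime number `ℓ`, the character `ρ` of order `ℓ` and the
character `χ`: the characters `χ ρ ^ j` (`0 ≤ j < ℓ`), `χ ^ (-ℓ)` and `ρ ^ j` (`0 < j < ℓ`). -/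
noncomputable def dhSet (ℓ : ℕ) (ρ χ : MulChar F ℂ) : Multiset (MulChar F ℂ) :=
  (Multiset.range ℓ).map (fun j => χ * ρ ^ j) + {(χ ^ ℓ)⁻¹} +
    (Multiset.range (ℓ - 1)).map fun j => ρ ^ (j + 1)

/-- A cycle family: contains the empty multiset, the Tate sets `A + B` with atoms `A` and `B`, the
Davenport-Hasse sets, and is closed under sums and under removing a pair `χ`, `χ⁻¹`. -/
structure IsCycleFamily (ψ : AddChar F ℂ) (𝒜 : Set (Multiset (MulChar F ℂ))) : Prop where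
  zero : 0 ∈ 𝒜
  atoms : ∀ A B, IsAtom A → IsAtom B → IsTateSet ψ (A + B) → A + B ∈ 𝒜
  dh : ∀ (ℓ : ℕ) (ρ χ : MulChar F ℂ), ℓ.Prime → orderOf ρ = ℓ → χ ^ ℓ ≠ 1 → dhSet ℓ ρ χ ∈ 𝒜
  add : ∀ s ∈ 𝒜, ∀ t ∈ 𝒜, s + t ∈ 𝒜
  remove : ∀ (s : Multiset (MulChar F ℂ)) (χ : MulChar F ℂ), χ ≠ 1 → s + {χ, χ⁻¹} ∈ 𝒜 → s ∈ 𝒜

end Defs

/-- prime powers and twice prime powers -/
def IsPP (m : ℕ) : Prop := ∃ ℓ a : ℕ, ℓ.Prime ∧ (m = ℓ ^ a ∨ m = 2 * ℓ ^ a)

/-- the composite degrees -/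
def degs : List ℕ := [84, 126, 180, 189, 192, 196, 198, 200, 225, 234, 270, 288, 294, 300, 324]

end Pool.Agent.Lib.MP81632f.Diag
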