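import Pool.Agent.Lib.MP_81632f_ag.Diag.Stmts

/-!
# Module D3: digit sums
-/

set_option autoImplicit false

namespace Pool.Agent.Lib.MP81632f.Diag

open Finset

namespace DigAux

lemma rot {p f a j : ℕ} (hp : 1 < p) (ha : a < p ^ f - 1) (hj : j < f) :
    (p ^ j * a) % (p ^ f - 1) + (p ^ f - 1) * (a / p ^ (f - j)) = p ^ j * a := by
  have hp0 : 0 < p := by omega
  have hu : 0 < p ^ j := Nat.pow_pos hp0
  have hv : 0 < p ^ (f - j) := Nat.pow_pos hp0
  have huv : p ^ j * p ^ (f - j) = p ^ f := by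
    rw [← pow_add]
    congr 1
    omega
  have h1 : p ^ (f - j) * (a / p ^ (f - j)) + a % p ^ (f - j) = a := Nat.div_add_mod _ _
  have h2 : a % p ^ (f - j) < p ^ (f - j) := Nat.mod_lt _ hv
  have h3 : a / p ^ (f - j) < p ^ j := by
    rw [Nat.div_lt_iff_lt_mul hv, huv]
    omega
  generalize p ^ j = u at *
  generalize p ^ (f - j) = v at *
  generalize a / v = e at *
  generalize a % v = r at *
  have hq : 0 < p ^ f := Nat.pow_pos hp0
  obtain ⟨Q, hQ⟩ : ∃ Q, p ^ f = Q + 1 := ⟨p ^ f - 1, by omega⟩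
  rw [hQ] at ha huv ⊢
  rw [Nat.add_sub_cancel] at ha ⊢
  have h4 : u * a = Q * e + (e + u * r) := by
    calc u * a = u * (v * e + r) := by rw [h1]
      _ = (u * v) * e + u * r := by ring
      _ = Q * e + (e + u * r) := by rw [huv]; ring
  have h5 : e + u * r < Q := by
    by_contra hcon
    push Not at hcon
    have h6 : u * r + u ≤ Q + 1 := by
      rw [← huv]
      calc u * r + u = u * (r + 1) := by ring
        _ ≤ u * v := Nat.mul_le_mul_left _ h2
    have h7 : e + 1 = u := by omega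
    have h8 : u * r + u = Q + 1 := by omega
    have h9 : u * (r + 1) = u * v := by rw [huv, ← h8]; ring
    have h10 : r + 1 = v := Nat.eq_of_mul_eq_mul_left hu h9
    have h11 : a + 1 = Q + 1 := by
      rw [← huv, ← h1, ← h7, ← h10]
      ring
    omega
  rw [h4, Nat.mul_add_mod, Nat.mod_eq_of_lt h5]
  ring

lemma sum_div {p f a : ℕ} (hp : 1 < p) (ha : a < p ^ f) :
    (p - 1) * ∑ j ∈ range f, a / p ^ (f - j) + (Nat.digits p a).sum = a := by
  have h1 : ∑ j ∈ range f, a / p ^ (f - j) = ∑ i ∈ range f, a / p ^ (i + 1) := by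
    rw [← Finset.sum_range_reflect]
    refine Finset.sum_congr rfl fun j hj => ?_
    rw [Finset.mem_range] at hj
    congr 2
    omega
  rw [h1]
  have h2 := Nat.sub_one_mul_sum_log_div_pow_eq_sub_sum_digits (p := p) a
  have h3 : (Nat.digits p a).sum ≤ a := Nat.digit_sum_le p a
  rcases Nat.eq_zero_or_pos a with rfl | ha0
  · simp
  have h4 : Nat.log p a < f := Nat.log_lt_of_lt_pow ha0.ne' ha
  have h5 : ∑ i ∈ range (Nat.log p a).succ, a / p ^ (i + 1) = ∑ i ∈ range f, a / p ^ (i + 1) := by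
    apply Finset.sum_subset (Finset.range_mono h4)
    intro i _ hi
    rw [Finset.mem_range, not_lt] at hi
    apply Nat.div_eq_of_lt
    calc a < p ^ (Nat.log p a).succ := Nat.lt_pow_succ_log_self hp a
      _ ≤ p ^ (i + 1) := Nat.pow_le_pow_right (by omega) (by omega)
  have h6 : (p - 1) * ∑ i ∈ range f, a / p ^ (i + 1) = a - (Nat.digits p a).sum := by
    rw [← h5]
    exact h2
  omega

lemma first {p f a : ℕ} (hp : 1 < p) (ha : a < p ^ f - 1) :
    (p - 1) * ∑ j ∈ range f, (p ^ j * a) % (p ^ f - 1) =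
      (p ^ f - 1) * (Nat.digits p a).sum := by
  have h1 : ∑ j ∈ range f, (p ^ j * a) % (p ^ f - 1) +
      (p ^ f - 1) * ∑ j ∈ range f, a / p ^ (f - j) = (∑ j ∈ range f, p ^ j) * a := by
    rw [Finset.mul_sum, ← Finset.sum_add_distrib, Finset.sum_mul]
    exact Finset.sum_congr rfl fun j hj => rot hp ha (Finset.mem_range.1 hj)
  have h2 := sum_div hp (show a < p ^ f by omega)
  have h3 : (p - 1) * ∑ j ∈ range f, p ^ j = p ^ f - 1 := by
    have h := Nat.geomSum_eq (m := p) (by omega) f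
    rw [h]
    exact Nat.mul_div_cancel' (Nat.sub_one_dvd_pow_sub_one p f)
  generalize ∑ j ∈ range f, (p ^ j * a) % (p ^ f - 1) = A at *
  generalize ∑ j ∈ range f, a / p ^ (f - j) = B at *
  generalize ∑ j ∈ range f, p ^ j = C at *
  generalize (Nat.digits p a).sum = s at *
  generalize p ^ f - 1 = Q at *
  generalize p - 1 = P at *
  have h4 : P * A + Q * (P * B) = Q * a := by
    calc P * A + Q * (P * B) = P * (A + Q * B) := by ring
      _ = (P * C) * a := by rw [h1]; ring
      _ = Q * a := by rw [h3]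
  have h5 : Q * a = Q * (P * B) + Q * s := by
    rw [← h2]
    ring
  omega

lemma residues {p f a b j : ℕ} (hp : 1 < p) (hf : 0 < f) (ha : 0 < a) (hb : 0 < b)
    (hab : a + b = p ^ f - 1) :
    (p ^ j * a) % (p ^ f - 1) + (p ^ j * b) % (p ^ f - 1) = p ^ f - 1 := by
  have hq : 0 < p ^ f := Nat.pow_pos (by omega)
  have hc : Nat.Coprime (p ^ f - 1) (p ^ j) := by
    apply Nat.Coprime.pow_right
    rw [← Nat.coprime_pow_right_iff hf]
    obtain ⟨Q, hQ⟩ : ∃ Q, p ^ f = Q + 1 := ⟨p ^ f - 1, by omega⟩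
    rw [hQ, Nat.add_sub_cancel, Nat.coprime_self_add_right]
    exact Nat.coprime_one_right _
  have h1 : ((p ^ j * a) % (p ^ f - 1) + (p ^ j * b) % (p ^ f - 1)) % (p ^ f - 1) = 0 := by
    rw [← Nat.add_mod, ← mul_add, hab, Nat.mul_mod_left]
  have h2 : 0 < (p ^ j * a) % (p ^ f - 1) := by
    rw [Nat.pos_iff_ne_zero]
    intro h0
    have h3 : (p ^ f - 1) ∣ a := hc.dvd_of_dvd_mul_left (Nat.dvd_of_mod_eq_zero h0)
    have := Nat.le_of_dvd ha h3
    omega
  have h3 : (p ^ j * a) % (p ^ f - 1) < p ^ f - 1 := Nat.mod_lt _ (by omega)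
  have h4 : (p ^ j * b) % (p ^ f - 1) < p ^ f - 1 := Nat.mod_lt _ (by omega)
  generalize (p ^ j * a) % (p ^ f - 1) = x at *
  generalize (p ^ j * b) % (p ^ f - 1) = y at *
  generalize p ^ f - 1 = Q at *
  obtain ⟨c, hc⟩ := Nat.dvd_of_mod_eq_zero h1
  have h5 : c < 2 := by
    by_contra hcon
    push Not at hcon
    have : Q * 2 ≤ Q * c := Nat.mul_le_mul_left _ hcon
    omega
  interval_cases c
  · omega
  · omega

end DigAux

open DigAux

theorem stDig : StDig := by
  intro p f a hp ha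
  refine ⟨first hp ha, fun ha0 => ?_⟩
  have hf : 0 < f := by
    rcases Nat.eq_zero_or_pos f with rfl | h
    · simp at ha
    · exact h
  have h1 := first hp ha
  have h2 := first hp (show p ^ f - 1 - a < p ^ f - 1 by omega)
  have h3 : ∑ j ∈ range f, (p ^ j * a) % (p ^ f - 1) +
      ∑ j ∈ range f, (p ^ j * (p ^ f - 1 - a)) % (p ^ f - 1) = f * (p ^ f - 1) := by
    rw [← Finset.sum_add_distrib, Finset.sum_congr rfl fun j _ =>
      residues (j := j) hp hf ha0 (show 0 < p ^ f - 1 - a by omega) (by omega)]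
    rw [Finset.sum_const, Finset.card_range, smul_eq_mul]
  have hQ : 0 < p ^ f - 1 := by omega
  apply Nat.eq_of_mul_eq_mul_left hQ
  rw [mul_add, ← h1, ← h2, ← mul_add, h3]
  ring

end Pool.Agent.Lib.MP81632f.Diag
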