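import Pool.Agent.Lib.MP_81632f_ag.Diag.Stmts

/-!
# Tate sets of Gauss sums: assembly of the theorem
-/

set_option autoImplicit false

noncomputable section

namespace Pool.Agent.Lib.MP81632f.Diag

namespace Final

variable {F : Type} [Field F] [Fintype F]

/-- The group of multiplicative characters is cyclic. -/
lemma exists_gen : ∃ θ : MulChar F ℂ, orderOf θ = Fintype.card F - 1 ∧
    ∀ χ : MulChar F ℂ, ∃ k : ℕ, χ = θ ^ k := by
  classical
  have e := (MulChar.mulEquiv_units F ℂ).some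
  have hcyc : IsCyclic (MulChar F ℂ) := isCyclic_of_surjective e.symm e.symm.surjective
  obtain ⟨θ, hθ⟩ := hcyc.exists_generator
  have : Finite (MulChar F ℂ) := Finite.of_equiv _ e.symm.toEquiv
  refine ⟨θ, ?_, ?_⟩
  · rw [orderOf_eq_card_of_forall_mem_zpowers hθ, Nat.card_congr e.toEquiv,
      Nat.card_eq_fintype_card, Fintype.card_units]
  · intro χ
    obtain ⟨k, hk⟩ := (mem_powers_iff_mem_zpowers).mpr (hθ χ)
    exact ⟨k, hk.symm⟩

/-- For every divisor `M` of the order there is a character of order `M`, and its powers are the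
characters with `χ ^ M = 1`. -/
lemma exists_order (M : ℕ) (hM : M ∣ Fintype.card F - 1) : ∃ θ : MulChar F ℂ, orderOf θ = M ∧
    ∀ χ : MulChar F ℂ, χ ^ M = 1 → ∃ k : ℕ, χ = θ ^ k := by
  obtain ⟨θ, hθ, hgen⟩ := exists_gen (F := F)
  have hq : 0 < Fintype.card F - 1 := by
    have := Fintype.one_lt_card (α := F)
    omega
  obtain ⟨d, hd⟩ := hM
  have hd0 : d ≠ 0 := by
    rintro rfl
    omega
  have hM0 : 0 < M := by
    rcases Nat.eq_zero_or_pos M with h | h
    · rw [h] at hd
      omega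
    · exact h
  refine ⟨θ ^ d, ?_, ?_⟩
  · rw [orderOf_pow_of_dvd hd0 (by rw [hθ, hd]; exact Dvd.intro_left M rfl), hθ, hd,
      Nat.mul_div_cancel _ (Nat.pos_of_ne_zero hd0)]
  · intro χ hχ
    obtain ⟨k, rfl⟩ := hgen χ
    rw [← pow_mul] at hχ
    have h1 : d * M ∣ k * M := by
      have := orderOf_dvd_of_pow_eq_one hχ
      rwa [hθ, hd, mul_comm M d] at this
    obtain ⟨e, rfl⟩ := Nat.dvd_of_mul_dvd_mul_right hM0 h1
    exact ⟨e, by rw [pow_mul]⟩

omit [Fintype F] in
/-- Writing a multiset of powers of `θ` with exponents in `ZMod M`. -/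
lemma exists_map (M : ℕ) [NeZero M] (θ : MulChar F ℂ) (hθ : orderOf θ = M)
    (s : Multiset (MulChar F ℂ)) (hs : ∀ χ ∈ s, ∃ k : ℕ, χ = θ ^ k) :
    ∃ X : Multiset (ZMod M), s = X.map fun x => θ ^ x.val := by
  classical
  choose! k hk using hs
  refine ⟨s.map fun χ => (k χ : ZMod M), ?_⟩
  rw [Multiset.map_map]
  conv_lhs => rw [← Multiset.map_id s]
  refine Multiset.map_congr rfl fun χ hχ => ?_
  rw [id, Function.comp_apply, ZMod.val_natCast]
  conv_lhs => rw [hk χ hχ, ← pow_mod_orderOf, hθ]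

omit [Fintype F] in
lemma orderOf_pow_val (M : ℕ) [NeZero M] (θ : MulChar F ℂ) (hθ : orderOf θ = M) (x : ZMod M) :
    orderOf (θ ^ x.val) = addOrderOf x := by
  have hM : 0 < M := Nat.pos_of_ne_zero (NeZero.ne M)
  have hfin : 0 < orderOf θ := by rw [hθ]; exact hM
  conv_rhs => rw [← ZMod.natCast_zmod_val x]
  rw [ZMod.addOrderOf_coe _ (NeZero.ne M),
    IsOfFinOrder.orderOf_pow θ x.val (orderOf_pos_iff.mp hfin), hθ]

end Final

theorem stFinal (hT : StTrans) (hC : StClose) (hPP : StPP) (hComp : StComp) : StFinal := by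
  intro p _ F _ _ _ ψ hψ 𝒜 h𝒜 s hs hev hdisj
  have hp : p.Prime := Fact.out
  obtain ⟨n, -, hcard⟩ := FiniteField.card F p
  obtain ⟨f, hf⟩ := n
  change Fintype.card F = p ^ f at hcard
  have hq : 1 < Fintype.card F := Fintype.one_lt_card
  -- the general step
  have key : ∀ (M : ℕ) [NeZero M] (θ : MulChar F ℂ), orderOf θ = M →
      (∀ χ ∈ s, ∃ k : ℕ, χ = θ ^ k) →
      (∀ X : Multiset (ZMod M), s = X.map (fun x => θ ^ x.val) → 0 ∉ X → BalM M p f X →
        Even (Multiset.card X) → cnt X ∈ Sub M p f) → s ∈ 𝒜 := by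
    intro M _ θ hθ hk hX
    obtain ⟨X, hX'⟩ := Final.exists_map M θ hθ s hk
    have h0 : (0 : ZMod M) ∉ X := by
      intro h0
      apply hs.1 1 _ rfl
      rw [hX', Multiset.mem_map]
      exact ⟨0, h0, by rw [ZMod.val_zero, pow_zero]⟩
    have hb : BalM M p f X := hT p F f hcard M θ hθ ψ hψ X (by rw [← hX']; exact hs)
    have he : Even (Multiset.card X) := by
      rw [hX', Multiset.card_map] at hev
      exact hev
    rw [hX']
    exact hC p F f hcard M θ hθ ψ hψ 𝒜 h𝒜 X h0 (hX X hX' h0 hb he)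
  rcases hdisj with h | ⟨M0, hM0, hdvd, hpow⟩
  · by_cases hM1 : Fintype.card F - 1 = 1
    · -- two elements
      have hs0 : s = 0 := by
        rw [Multiset.eq_zero_iff_forall_notMem]
        intro χ hχ
        obtain ⟨θ, hθ, hgen⟩ := Final.exists_gen (F := F)
        rw [hM1, orderOf_eq_one_iff] at hθ
        obtain ⟨k, hk⟩ := hgen χ
        exact hs.1 χ hχ (by rw [hk, hθ, one_pow])
      rw [hs0]
      exact h𝒜.zero
    · obtain ⟨θ, hθ, hgen⟩ := Final.exists_gen (F := F)
      have : NeZero (Fintype.card F - 1) := ⟨by omega⟩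
      refine key (Fintype.card F - 1) θ hθ (fun χ _ => hgen χ) ?_
      intro X hX h0 hb he
      refine hPP _ p f (by omega) hf ?_ X ?_ hb he
      · have h1 : ((Fintype.card F - 1 + 1 : ℕ) : ZMod (Fintype.card F - 1)) = 1 := by
          rw [Nat.cast_add, ZMod.natCast_self, zero_add, Nat.cast_one]
        rw [← Nat.cast_pow, ← hcard]
        rw [Nat.sub_add_cancel hq.le] at h1
        exact h1
      · intro x hx
        refine ⟨fun h' => h0 (h' ▸ hx), ?_⟩
        rw [← Final.orderOf_pow_val _ θ hθ x]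
        apply h
        rw [hX, Multiset.mem_map]
        exact ⟨x, hx, rfl⟩
  · have hM0' : M0 ≠ 0 := by
      rintro rfl
      revert hM0
      decide
    have : NeZero (ordCompl[p] M0) := ⟨(Nat.ordCompl_pos p hM0').ne'⟩
    obtain ⟨θ, hθ, hgen⟩ := Final.exists_order (F := F) _ hdvd
    refine key (ordCompl[p] M0) θ hθ ?_ ?_
    · intro χ hχ
      apply hgen
      -- the order of `χ` is prime to `p`
      have h1 : orderOf χ ∣ M0 := orderOf_dvd_of_pow_eq_one (hpow χ hχ)
      obtain ⟨θ', hθ', hgen'⟩ := Final.exists_gen (F := F)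
      obtain ⟨k, hk⟩ := hgen' χ
      have h2 : orderOf χ ∣ Fintype.card F - 1 := by
        apply orderOf_dvd_of_pow_eq_one
        rw [hk, ← pow_mul, mul_comm, pow_mul, ← hθ', pow_orderOf_eq_one, one_pow]
      have h3 : Nat.Coprime (orderOf χ) p := by
        rw [Nat.coprime_comm, hp.coprime_iff_not_dvd]
        intro h4
        have h5 : p ∣ Fintype.card F - 1 := h4.trans h2
        have h6 : p ∣ Fintype.card F := by
          rw [hcard]
          exact dvd_pow_self p (by omega)
        have h7 := (Nat.dvd_sub h6 h5)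
        rw [Nat.sub_sub_self hq.le] at h7
        exact hp.one_lt.ne' (Nat.dvd_one.mp h7)
      have h4 : orderOf χ ∣ ordCompl[p] M0 := by
        rw [← Nat.ordProj_mul_ordCompl_eq_self M0 p] at h1
        exact (h3.pow_right _).dvd_of_dvd_mul_left h1
      exact orderOf_dvd_iff_pow_eq_one.mp h4
    · intro X _ h0 hb he
      exact hComp p M0 f hp hM0 hf (by rw [← hcard]; exact hdvd) X h0 hb he

end Pool.Agent.Lib.MP81632f.Diag
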