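import Pool.Agent.Lib.MP_81632f_ag.Diag.Final

/-!
# Tate sets of Gauss sums: the last step
-/

set_option autoImplicit false

noncomputable section

namespace Pool.Agent.Lib.MP81632f.Diag

/-- From the lattice property to the theorem. -/
theorem final_lp (hT : StTrans) (hC : StClose) {p : ℕ} [Fact p.Prime] {F : Type} [Field F]
    [Fintype F] [CharP F p] {ψ : AddChar F ℂ} (hψ : ψ ≠ 1) {𝒜 : Set (Multiset (MulChar F ℂ))}
    (h𝒜 : IsCycleFamily ψ 𝒜) {s : Multiset (MulChar F ℂ)} (hs : IsTateSet ψ s)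
    (hev : Even (Multiset.card s)) {m : ℕ} (hm : m ∣ Fintype.card F - 1)
    (hpow : ∀ χ ∈ s, χ ^ m = 1)
    (hLP : ∀ f : ℕ, 0 < f → (p : ZMod m) ^ f = 1 → LP m p f) : s ∈ 𝒜 := by
  obtain ⟨n, -, hcard⟩ := FiniteField.card F p
  obtain ⟨f, hf⟩ := n
  change Fintype.card F = p ^ f at hcard
  have hq : 1 < Fintype.card F := Fintype.one_lt_card
  have hm0 : m ≠ 0 := by
    rintro rfl
    rw [zero_dvd_iff] at hm
    omega
  have : NeZero m := ⟨hm0⟩
  obtain ⟨θ, hθ, hgen⟩ := Final.exists_order (F := F) _ hm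
  obtain ⟨X, hX'⟩ := Final.exists_map m θ hθ s fun χ hχ => hgen χ (hpow χ hχ)
  have h0 : (0 : ZMod m) ∉ X := by
    intro h0
    apply hs.1 1 _ rfl
    rw [hX', Multiset.mem_map]
    exact ⟨0, h0, by rw [ZMod.val_zero, pow_zero]⟩
  have hb : BalM m p f X := hT p F f hcard m θ hθ ψ hψ X (by rw [← hX']; exact hs)
  have he : Even (Multiset.card X) := by
    rw [hX', Multiset.card_map] at hev
    exact hev
  have hpf : (p : ZMod m) ^ f = 1 := by
    have h1 : ((Fintype.card F - 1 : ℕ) : ZMod m) = 0 := (ZMod.natCast_eq_zero_iff _ _).mpr hm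
    rw [Nat.cast_sub hq.le, hcard, Nat.cast_pow, Nat.cast_one, sub_eq_zero] at h1
    exact h1
  rw [hX']
  exact hC p F f hcard m θ hθ ψ hψ 𝒜 h𝒜 X h0 (hLP f hf hpf X h0 hb he)

/-- The prime power case. -/
theorem final_pp (hT : StTrans) (hC : StClose) (hPP : StPP) {p : ℕ} [Fact p.Prime] {F : Type}
    [Field F] [Fintype F] [CharP F p] {ψ : AddChar F ℂ} (hψ : ψ ≠ 1)
    {𝒜 : Set (Multiset (MulChar F ℂ))} (h𝒜 : IsCycleFamily ψ 𝒜) {s : Multiset (MulChar F ℂ)}
    (hs : IsTateSet ψ s) (hev : Even (Multiset.card s)) (h : ∀ χ ∈ s, IsPP (orderOf χ)) :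
    s ∈ 𝒜 := by
  obtain ⟨n, -, hcard⟩ := FiniteField.card F p
  obtain ⟨f, hf⟩ := n
  change Fintype.card F = p ^ f at hcard
  have hq : 1 < Fintype.card F := Fintype.one_lt_card
  by_cases hM1 : Fintype.card F - 1 = 1
  · -- two elements
    have hs0 : s = 0 := by
      rw [Multiset.eq_zero_iff_forall_notMem]
      intro χ hχ
      obtain ⟨θ, hθ, hgen⟩ := Final.exists_gen (F := F)
      rw [hM1, orderOf_eq_one_iff] at hθ
      obtain ⟨k, hk⟩ := hgen χ
      exact hs.1 χ hχ (by rw [hk, hθ, one_pow])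
    rw [hs0]
    exact h𝒜.zero
  · obtain ⟨θ, hθ, hgen⟩ := Final.exists_gen (F := F)
    have : NeZero (Fintype.card F - 1) := ⟨by omega⟩
    obtain ⟨X, hX'⟩ := Final.exists_map (Fintype.card F - 1) θ hθ s fun χ _ => hgen χ
    have h0 : (0 : ZMod (Fintype.card F - 1)) ∉ X := by
      intro h0
      apply hs.1 1 _ rfl
      rw [hX', Multiset.mem_map]
      exact ⟨0, h0, by rw [ZMod.val_zero, pow_zero]⟩
    have hb : BalM (Fintype.card F - 1) p f X :=
      hT p F f hcard _ θ hθ ψ hψ X (by rw [← hX']; exact hs)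
    have he : Even (Multiset.card X) := by
      rw [hX', Multiset.card_map] at hev
      exact hev
    rw [hX']
    refine hC p F f hcard _ θ hθ ψ hψ 𝒜 h𝒜 X h0 (hPP _ p f (by omega) hf ?_ X ?_ hb he)
    · have h1 : ((Fintype.card F - 1 + 1 : ℕ) : ZMod (Fintype.card F - 1)) = 1 := by
        rw [Nat.cast_add, ZMod.natCast_self, zero_add, Nat.cast_one]
      rw [← Nat.cast_pow, ← hcard]
      rw [Nat.sub_add_cancel hq.le] at h1
      exact h1
    · intro x hx
      refine ⟨fun h' => h0 (h' ▸ hx), ?_⟩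
      rw [← Final.orderOf_pow_val _ θ hθ x]
      apply h
      rw [hX', Multiset.mem_map]
      exact ⟨x, hx, rfl⟩

end Pool.Agent.Lib.MP81632f.Diag
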