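import Pool.Agent.Lib.MP_81632f_ag.Diag.Stmts

/-!
# B3: Fourier analysis on `(ℤ/ℓ^A)ˣ`
-/

set_option autoImplicit false

noncomputable section

namespace Pool.Agent.Lib.MP81632f.Diag

namespace Four

open Finset

variable {M : ℕ} [NeZero M]

omit [NeZero M] in
theorem saw_mul (p f : ℕ) (t x : ZMod M) : saw M p f t x = saw M p f 1 (t * x) := by
  unfold saw
  simp only [mul_one, mul_assoc]

theorem sum_units (χ : DirichletCharacter ℂ M) (g : ZMod M → ℂ) :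
    ∑ a : ZMod M, χ a * g a = ∑ s : (ZMod M)ˣ, χ s * g s := by
  classical
  have h1 : ∑ s : (ZMod M)ˣ, χ s * g s = ∑ a ∈ univ.image (fun s : (ZMod M)ˣ => (s : ZMod M)),
      χ a * g a := by
    rw [sum_image]
    intro s _ t _ h
    exact Units.ext h
  rw [h1]
  symm
  apply sum_subset (subset_univ _)
  intro a _ ha
  have : ¬ IsUnit a := by
    rintro ⟨s, rfl⟩
    exact ha (mem_image_of_mem _ (mem_univ s))
  rw [χ.map_nonunit this, zero_mul]

omit [NeZero M] in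
theorem chi_ne (χ : DirichletCharacter ℂ M) (s : (ZMod M)ˣ) : χ s ≠ 0 :=
  (s.isUnit.map χ).ne_zero

omit [NeZero M] in
theorem inv_apply (χ : DirichletCharacter ℂ M) (s : (ZMod M)ˣ) :
    χ⁻¹ (s : ZMod M) = (χ s)⁻¹ := by
  rw [MulChar.inv_apply_eq_inv, Ring.inverse_eq_inv']

/-- the sum against a character -/
theorem sum_char (p f : ℕ) (u : (ZMod M)ˣ) (hu : (u : ZMod M) = p) (χ : DirichletCharacter ℂ M)
    (hodd : χ.Odd) (hχu : χ u = 1) :
    ∑ s : (ZMod M)ˣ, χ s * (saw M p f 1 s : ℂ) = 2 * f * ∑ a : ZMod M, χ a * (a.val : ℂ) := by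
  have h0 : ∑ s : (ZMod M)ˣ, χ s = 0 := by
    have h1 : ∑ s : (ZMod M)ˣ, χ s = ∑ s : (ZMod M)ˣ, χ (-1 * s : ZMod M) :=
      (Fintype.sum_equiv (Equiv.mulLeft (-1 : (ZMod M)ˣ)) _ _ (fun s => by
        rw [Equiv.coe_mulLeft]; push_cast; ring_nf)).symm
    have h2 : ∑ s : (ZMod M)ˣ, χ (-1 * s : ZMod M) = - ∑ s : (ZMod M)ˣ, χ s := by
      rw [← sum_neg_distrib]
      refine sum_congr rfl fun s _ => ?_
      rw [map_mul, hodd, neg_one_mul]
    rw [h2] at h1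
    linear_combination h1 / 2
  have h1 : ∀ j : ℕ, ∑ s : (ZMod M)ˣ, χ s * (((2 * (((p : ZMod M) ^ j * 1 * (s : ZMod M)).val : ℤ) -
      (M : ℤ) : ℤ)) : ℂ) = 2 * ∑ a : ZMod M, χ a * (a.val : ℂ) := by
    intro j
    rw [sum_units χ (fun a => (a.val : ℂ))]
    have h2 : ∀ s : (ZMod M)ˣ, χ s * (((2 * (((p : ZMod M) ^ j * 1 * (s : ZMod M)).val : ℤ) -
      (M : ℤ) : ℤ)) : ℂ) = 2 * (χ (((u ^ j * s : (ZMod M)ˣ)) : ZMod M) *
        ((((u ^ j * s : (ZMod M)ˣ)) : ZMod M).val : ℂ)) - M * χ s := by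
      intro s
      have h3 : χ (((u ^ j * s : (ZMod M)ˣ)) : ZMod M) = χ s := by
        rw [Units.val_mul, Units.val_pow_eq_pow_val, map_mul, map_pow, hχu, one_pow, one_mul]
      rw [h3]
      push_cast
      rw [hu, mul_one]
      ring
    rw [sum_congr rfl fun s _ => h2 s, sum_sub_distrib, ← mul_sum, ← mul_sum, h0, mul_zero,
      sub_zero]
    congr 1
    exact Fintype.sum_equiv (Equiv.mulLeft (u ^ j)) _ _ (fun s => rfl)
  have h4 : ∑ s : (ZMod M)ˣ, χ s * (saw M p f 1 s : ℂ) =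
      ∑ j ∈ range f, ∑ s : (ZMod M)ˣ, χ s * (((2 * (((p : ZMod M) ^ j * 1 * (s : ZMod M)).val : ℤ) -
      (M : ℤ) : ℤ)) : ℂ) := by
    rw [sum_comm]
    refine sum_congr rfl fun s _ => ?_
    rw [saw, Int.cast_sum, mul_sum]
  rw [h4, sum_congr rfl fun j _ => h1 j, sum_const, card_range, nsmul_eq_mul]
  ring

/-- the sum of `c` against an odd character trivial on `u` -/
theorem sum_c {ℓ A : ℕ} (hL : StLvalPP) (hl : ℓ.Prime) [NeZero (ℓ ^ A)] (p f : ℕ)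
    (u : (ZMod (ℓ ^ A))ˣ) (hu : (u : ZMod (ℓ ^ A)) = p) (hf : 0 < f) (c : (ZMod (ℓ ^ A))ˣ → ℤ)
    (hc : ∀ t : (ZMod (ℓ ^ A))ˣ, ∑ x, c x * saw (ℓ ^ A) p f t x = 0)
    (χ : DirichletCharacter ℂ (ℓ ^ A)) (hodd : χ.Odd) (hχu : χ u = 1) :
    ∑ x : (ZMod (ℓ ^ A))ˣ, (c x : ℂ) * χ x = 0 := by
  have hodd' : χ⁻¹.Odd := by
    have h := inv_apply χ (-1)
    rw [Units.val_neg, Units.val_one, hodd] at h
    rw [DirichletCharacter.Odd, h]
    norm_num
  have hu' : χ⁻¹ u = 1 := by rw [inv_apply, hχu, inv_one]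
  have h1 := sum_char p f u hu χ⁻¹ hodd' hu'
  have h2 : ∑ s : (ZMod (ℓ ^ A))ˣ, χ⁻¹ s * (saw (ℓ ^ A) p f 1 s : ℂ) ≠ 0 := by
    rw [h1]
    refine mul_ne_zero (mul_ne_zero two_ne_zero (by exact_mod_cast hf.ne')) (hL ℓ A hl χ⁻¹ hodd')
  have h3 : (∑ x : (ZMod (ℓ ^ A))ˣ, (c x : ℂ) * χ x) *
      ∑ s : (ZMod (ℓ ^ A))ˣ, χ⁻¹ s * (saw (ℓ ^ A) p f 1 s : ℂ) = 0 := by
    have h4 : ∀ t : (ZMod (ℓ ^ A))ˣ, χ⁻¹ t * ∑ x, (c x : ℂ) * (saw (ℓ ^ A) p f 1 ((t * x :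
        (ZMod (ℓ ^ A))ˣ) : ZMod (ℓ ^ A)) : ℂ) = 0 := by
      intro t
      have h5 := hc t
      have h6 : ∑ x, (c x : ℂ) * (saw (ℓ ^ A) p f 1 ((t * x :
        (ZMod (ℓ ^ A))ˣ) : ZMod (ℓ ^ A)) : ℂ) = ((∑ x, c x * saw (ℓ ^ A) p f t x : ℤ) : ℂ) := by
        rw [Int.cast_sum]
        refine sum_congr rfl fun x _ => ?_
        rw [Int.cast_mul, saw_mul p f (t : ZMod (ℓ ^ A)) (x : ZMod (ℓ ^ A)), Units.val_mul]
      rw [h6, h5, Int.cast_zero, mul_zero]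
    have h7 : ∑ t : (ZMod (ℓ ^ A))ˣ, χ⁻¹ t * ∑ x, (c x : ℂ) * (saw (ℓ ^ A) p f 1 ((t * x :
        (ZMod (ℓ ^ A))ˣ) : ZMod (ℓ ^ A)) : ℂ) = 0 := sum_eq_zero fun t _ => h4 t
    rw [← h7, sum_mul_sum]
    simp only [mul_sum]
    rw [sum_comm]
    conv_rhs => rw [sum_comm]
    rw [sum_comm]
    refine sum_congr rfl fun x _ => ?_
    refine (Fintype.sum_equiv (Equiv.mulRight x) _ _ (fun t => ?_)).symm
    rw [Equiv.coe_mulRight]
    have h8 : χ⁻¹ (((t * x : (ZMod (ℓ ^ A))ˣ)) : ZMod (ℓ ^ A)) * χ x = χ⁻¹ t := by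
      rw [Units.val_mul, map_mul, mul_assoc, inv_apply χ x, inv_mul_cancel₀ (chi_ne χ x), mul_one]
    rw [← h8]
    ring
  exact (mul_eq_zero.1 h3).resolve_right h2

/-- a function on the units orthogonal to all characters vanishes -/
theorem eq_zero_of_orth (D : (ZMod M)ˣ → ℂ)
    (h : ∀ χ : DirichletCharacter ℂ M, ∑ y : (ZMod M)ˣ, D y * χ y = 0) (y : (ZMod M)ˣ) :
    D y = 0 := by
  have h1 : ∑ χ : DirichletCharacter ℂ M, χ (y : ZMod M)⁻¹ * ∑ z : (ZMod M)ˣ, D z * χ z = 0 :=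
    sum_eq_zero fun χ _ => by rw [h χ, mul_zero]
  simp only [mul_sum] at h1
  rw [sum_comm] at h1
  have h2 : ∀ z : (ZMod M)ˣ, ∑ χ : DirichletCharacter ℂ M, χ (y : ZMod M)⁻¹ * (D z * χ z) =
      D z * if (y : ZMod M) = z then (M.totient : ℂ) else 0 := by
    intro z
    rw [← DirichletCharacter.sum_char_inv_mul_char_eq ℂ y.isUnit (z : ZMod M), mul_sum]
    exact sum_congr rfl fun χ _ => by ring
  rw [sum_congr rfl fun z _ => h2 z, sum_eq_single y] at h1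
  · rw [if_pos rfl] at h1
    refine (mul_eq_zero.1 h1).resolve_right ?_
    exact_mod_cast (Nat.totient_pos.2 (NeZero.pos M)).ne'
  · intro z _ hz
    rw [if_neg (fun h => hz (Units.ext h).symm), mul_zero]
  · intro h
    exact absurd (mem_univ y) h

end Four

open Four Finset in
open Classical in
theorem stFour (hL : StLvalPP) : StFour := by
  intro ℓ A hl _ p f u hu hf huf c hc y
  set H := Subgroup.zpowers u with hH
  have key : ∀ y : (ZMod (ℓ ^ A))ˣ,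
      (((∑ h with h ∈ H, c (h * y) - ∑ h with h ∈ H, c (-(h * y)) : ℤ)) : ℂ) = 0 := by
    apply eq_zero_of_orth
    intro χ
    have e1 : ∀ (s : (ZMod (ℓ ^ A))ˣ), ∑ y : (ZMod (ℓ ^ A))ˣ, (((∑ h with h ∈ H, c (s * (h * y)) : ℤ)) : ℂ) * χ y =
        (χ s)⁻¹ * ((∑ h with h ∈ H, (χ (h : ZMod (ℓ ^ A)))⁻¹) * ∑ z, (c z : ℂ) * χ z) := by
      intro s
      rw [sum_mul_sum, mul_sum]
      have e2 : ∀ y : (ZMod (ℓ ^ A))ˣ, (((∑ h with h ∈ H, c (s * (h * y)) : ℤ)) : ℂ) * χ y =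
          ∑ h with h ∈ H, (c (s * (h * y)) : ℂ) * χ y := by
        intro y
        rw [Int.cast_sum, sum_mul]
      rw [sum_congr rfl fun y _ => e2 y, sum_comm]
      refine sum_congr rfl fun h _ => ?_
      rw [mul_sum]
      refine Fintype.sum_equiv (Equiv.mulLeft (s * h)) _ _ (fun y => ?_)
      change _ = (χ s)⁻¹ * ((χ h)⁻¹ * ((c (s * h * y) : ℂ) * χ ((s * h * y : (ZMod (ℓ ^ A))ˣ) :
        ZMod (ℓ ^ A))))
      rw [mul_assoc s h y, Units.val_mul, Units.val_mul, map_mul, map_mul]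
      have h1 := chi_ne χ s
      have h2 := chi_ne χ h
      field_simp
    have e3 : ∑ y : (ZMod (ℓ ^ A))ˣ, (((∑ h with h ∈ H, c (h * y) -
        ∑ h with h ∈ H, c (-(h * y)) : ℤ)) : ℂ) * χ y =
        (1 - (χ (-1))⁻¹) * ((∑ h with h ∈ H, (χ (h : ZMod (ℓ ^ A)))⁻¹) *
          ∑ z, (c z : ℂ) * χ z) := by
      have e4 := e1 1
      have e5 := e1 (-1)
      simp only [one_mul, neg_mul, Units.val_one, Units.val_neg, map_one, inv_one] at e4 e5
      simp only [Int.cast_sub, sub_mul, sum_sub_distrib]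
      rw [e4, e5]
      ring
    rw [e3]
    rcases χ.even_or_odd with hev | hodd
    · rw [hev, inv_one, sub_self, zero_mul]
    · by_cases hχu : χ u = 1
      · rw [sum_c hL hl p f u hu hf c hc χ hodd hχu, mul_zero, mul_zero]
      · have e6 : ∑ h with h ∈ H, (χ (h : ZMod (ℓ ^ A)))⁻¹ = 0 := by
          have e7 : (χ u)⁻¹ * ∑ h with h ∈ H, (χ (h : ZMod (ℓ ^ A)))⁻¹ =
              ∑ h with h ∈ H, (χ (h : ZMod (ℓ ^ A)))⁻¹ := by
            rw [mul_sum]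
            refine sum_bij (fun h _ => u * h) ?_ ?_ ?_ ?_
            · intro h hh
              rw [mem_filter] at hh ⊢
              exact ⟨mem_univ _, H.mul_mem (Subgroup.mem_zpowers u) hh.2⟩
            · intro a _ b _ hab
              exact mul_left_cancel hab
            · intro b hb
              rw [mem_filter] at hb
              refine ⟨u⁻¹ * b, ?_, by rw [mul_inv_cancel_left]⟩
              rw [mem_filter]
              exact ⟨mem_univ _, H.mul_mem (H.inv_mem (Subgroup.mem_zpowers u)) hb.2⟩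
            · intro h _
              rw [Units.val_mul, map_mul, mul_inv]
          have e8 : ((χ u)⁻¹ - 1) * ∑ h with h ∈ H, (χ (h : ZMod (ℓ ^ A)))⁻¹ = 0 := by
            rw [sub_mul, e7, one_mul, sub_self]
          refine (mul_eq_zero.1 e8).resolve_left ?_
          intro h0
          apply hχu
          rw [sub_eq_zero, inv_eq_one] at h0
          exact h0
        rw [e6, zero_mul, mul_zero]
  have h9 := key y
  rw [Int.cast_eq_zero, sub_eq_zero] at h9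
  exact h9

end Pool.Agent.Lib.MP81632f.Diag
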