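import Pool.Agent.Lib.MP_81632f_ag.Diag.Raise

/-!
# The transfer theorem and the step from `N` to `2 N`
-/

set_option autoImplicit false

noncomputable section

namespace Pool.Agent.Lib.MP81632f.Diag

open Finset

namespace Transfer

open Crit Two Push
open Red (ev dh_mem mul_quot quot_ne)

/-- the hypothesis passes to divisors with the same prime divisors -/
theorem stepHyp_of_dvd {p M m : ℕ} (hm : m ∣ M) (hr : ∀ r : ℕ, r.Prime → r ∣ M → r ∣ m)
    (h : StepHyp p M) : StepHyp p m := by
  rintro d hd hd1 ⟨r₀, h1, h2, h3⟩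
  rcases h d (hd.trans hm) hd1 ⟨r₀, h1, h2.trans hm, h3⟩ with h4 | h4
  · exact Or.inl h4
  · right
    intro H hH1 hH2
    exact h4 H hH1 fun r hr1 hrM hrd u hu => hH2 r hr1 (hr r hr1 hrM) hrd u hu

/-- the transfer theorem -/
theorem transfer (hB : StBasic) (hR : StRankTwo) {p f : ℕ} (hf : 0 < f) {m : ℕ} [NeZero m]
    (hm1 : 1 < m) (hLP : LP m p f) :
    ∀ (k M : ℕ) [NeZero M], M = k * m → Odd k → (∀ r : ℕ, r.Prime → r ∣ M → r ∣ m) →
      (Odd M ∨ 4 ∣ M) → (p : ZMod M) ^ f = 1 → StepHyp p M → LP M p f := by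
  intro k
  induction k using Nat.strong_induction_on with
  | _ k ih =>
    intro M _ hM hk hr hE hp hyp
    by_cases hk1 : k = 1
    · rw [hk1, one_mul] at hM
      subst hM
      have h1 : LP M p f := hLP
      exact h1
    · obtain ⟨l, hl, hlk⟩ := Nat.exists_prime_and_dvd hk1
      obtain ⟨k', rfl⟩ := hlk
      have hlo : Odd l := hk.of_dvd_nat (Dvd.intro _ rfl)
      have hk' : Odd k' := hk.of_dvd_nat (Dvd.intro_left _ rfl)
      have hk'0 : 0 < k' := by
        rcases Nat.eq_zero_or_pos k' with h | h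
        · rw [h] at hk'
          exact absurd hk' (by decide)
        · exact h
      have hlM : l ∣ M := by
        rw [hM, mul_assoc]
        exact Dvd.intro _ rfl
      have hMm' : M = l * (k' * m) := by rw [hM, mul_assoc]
      have : NeZero (k' * m) := ⟨by
        have := hm1
        positivity⟩
      have hdvd : k' * m ∣ M := ⟨l, by rw [hMm', mul_comm]⟩
      have hlm' : l ∣ k' * m := (hr l hl hlM).trans (Dvd.intro_left _ rfl)
      have hpm : (p : ZMod (k' * m)) ^ f = 1 := by
        have h1 := congrArg (ZMod.castHom hdvd (ZMod (k' * m))) hp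
        rw [map_pow, map_natCast, map_one] at h1
        exact h1
      refine raise hB hR hl hlo hlm' hMm' hE hf hp hyp ?_
      refine ih k' ?_ (k' * m) rfl hk' ?_ ?_ hpm ?_
      · have := hl.one_lt
        nlinarith
      · intro r hr1 hr2
        exact hr r hr1 (hr2.trans hdvd)
      · rcases hE with h | h
        · left
          exact h.of_dvd_nat hdvd
        · right
          rw [hMm'] at h
          have hc : Nat.Coprime 4 l := by
            have h2 : Nat.Coprime 2 l := (Nat.coprime_two_left).mpr hlo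
            exact Nat.Coprime.pow_left 2 h2
          exact hc.dvd_of_dvd_mul_left h
      · refine stepHyp_of_dvd hdvd ?_ hyp
        intro r hr1 hr2
        exact (hr r hr1 hr2).trans (Dvd.intro_left _ rfl)

/-- sums over multiples of the order -/
theorem saw_mul {M : ℕ} {p f₀ : ℕ} (hp : (p : ZMod M) ^ f₀ = 1) (t x : ZMod M) (k : ℕ) :
    saw M p (k * f₀) t x = (k : ℤ) * saw M p f₀ t x := by
  induction k with
  | zero => simp [saw]
  | succ k ih =>
    rw [Nat.succ_mul]
    unfold saw at ih ⊢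
    rw [sum_range_add, ih]
    have h1 : ∀ j ∈ range f₀, (2 * (((p : ZMod M) ^ (k * f₀ + j) * t * x).val : ℤ) - (M : ℤ)) =
        (2 * (((p : ZMod M) ^ j * t * x).val : ℤ) - (M : ℤ)) := by
      intro j _
      rw [pow_add, mul_comm k f₀, pow_mul, hp, one_pow, one_mul]
    rw [Finset.sum_congr rfl h1]
    push_cast
    ring

/-- if no element is supersingular, then the order of `p` is odd -/
theorem odd_order {N : ℕ} [NeZero N] {p f : ℕ} (hf : 0 < f) (hp : (p : ZMod N) ^ f = 1)
    (u : (ZMod N)ˣ) (hu : (u : ZMod N) = p) (hno : ∀ x : ZMod N, ¬ SSel N p f x) :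
    Odd (orderOf u) := by
  rw [← Nat.not_even_iff_odd]
  rintro ⟨i, hi⟩
  have hpos : 0 < orderOf u := orderOf_pos u
  have hi0 : 0 < i := by omega
  have h1 : u ^ i ≠ 1 := by
    intro h
    have := orderOf_le_of_pow_eq_one hi0 h
    omega
  have h2 : u ^ i * u ^ i = 1 := by
    rw [← pow_add, ← hi]
    exact pow_orderOf_eq_one u
  have h3 : ((u ^ i : (ZMod N)ˣ) : ZMod N) = (p : ZMod N) ^ i := by
    rw [Units.val_pow_eq_pow_val, hu]
  refine hno ((p : ZMod N) ^ i - 1) (ss_of_pow hf hp ?_ (i := i) ?_)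
  · rw [sub_ne_zero, ← h3]
    intro h
    exact h1 (Units.ext h)
  · have h4 : (p : ZMod N) ^ i * (p : ZMod N) ^ i = 1 := by
      rw [← h3, ← Units.val_mul, h2, Units.val_one]
    linear_combination h4

/-- if no element is supersingular, then balanced functions have even sums (`N` odd) -/
theorem even_tot {N : ℕ} [NeZero N] (hN : Odd N) {p f : ℕ} (hf : 0 < f)
    (hp : (p : ZMod N) ^ f = 1) (hno : ∀ x : ZMod N, ¬ SSel N p f x) {w : ZMod N → ℤ}
    (hw : ∀ t : (ZMod N)ˣ, pair N p f t w = 0) : Even (tot N w) := by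
  obtain ⟨u, hu⟩ := exists_unit hf hp
  have hodd := odd_order hf hp u hu hno
  have huf : u ^ f = 1 := by
    apply Units.ext
    rw [Units.val_pow_eq_pow_val, hu, hp, Units.val_one]
  obtain ⟨k, hk⟩ := orderOf_dvd_of_pow_eq_one huf
  have hp0 : (p : ZMod N) ^ orderOf u = 1 := by
    rw [← hu, ← Units.val_pow_eq_pow_val, pow_orderOf_eq_one, Units.val_one]
  have h1 : ∑ x, w x * saw N p f ((1 : (ZMod N)ˣ) : ZMod N) x = 0 := hw 1
  have hk' : f = k * orderOf u := by rw [hk, mul_comm]
  have h2 : (k : ℤ) * ∑ x, w x * saw N p (orderOf u) ((1 : (ZMod N)ˣ) : ZMod N) x = 0 := by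
    rw [Finset.mul_sum, ← h1]
    refine Finset.sum_congr rfl fun x _ => ?_
    rw [hk', saw_mul hp0]
    ring
  have hk0 : (k : ℤ) ≠ 0 := by
    intro h
    have h3 : k = 0 := by exact_mod_cast h
    rw [h3, zero_mul] at hk'
    omega
  have h3 : ∑ x, w x * saw N p (orderOf u) ((1 : (ZMod N)ˣ) : ZMod N) x = 0 :=
    (mul_eq_zero.mp h2).resolve_left hk0
  have h4 : ∀ x : ZMod N, Odd (saw N p (orderOf u) ((1 : (ZMod N)ˣ) : ZMod N) x) := by
    intro x
    unfold saw
    rw [Finset.sum_sub_distrib, Finset.sum_const, card_range, ← Finset.mul_sum]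
    have h5 : Odd (orderOf u • (N : ℤ)) := by
      rw [nsmul_eq_mul]
      exact_mod_cast hodd.mul hN
    exact (even_two_mul _).sub_odd h5
  have h5 : Even (∑ x, w x - ∑ x, w x * saw N p (orderOf u) ((1 : (ZMod N)ˣ) : ZMod N) x) := by
    rw [← Finset.sum_sub_distrib]
    refine Finset.even_sum _ fun x _ => ?_
    have h6 : w x - w x * saw N p (orderOf u) ((1 : (ZMod N)ˣ) : ZMod N) x =
        w x * (1 - saw N p (orderOf u) ((1 : (ZMod N)ˣ) : ZMod N) x) := by ring
    rw [h6]
    exact (odd_one.sub_odd (h4 x)).mul_left _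
  rw [h3, sub_zero] at h5
  exact h5

/-- from `N` to `2 N`, `N` odd -/
theorem lp_double (hB : StBasic) {N M : ℕ} [NeZero N] [NeZero M] (hN : Odd N) (hN1 : 1 < N)
    (hMN : M = 2 * N) {p f : ℕ} (hf : 0 < f) (hp : (p : ZMod M) ^ f = 1)
    (hLP : LP N p f) : LP M p f := by
  classical
  have hM : 1 < M := by omega
  have hNM : N ∣ M := ⟨2, by rw [hMN, mul_comm]⟩
  have hMN2 : M / N = 2 := by rw [hMN, Nat.mul_div_cancel _ (by omega)]
  have hpN : (p : ZMod N) ^ f = 1 := by
    have h1 := congrArg (ZMod.castHom hNM (ZMod N)) hp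
    rw [map_pow, map_natCast, map_one] at h1
    exact h1
  let K : AddSubgroup (ZMod N → ℤ) :=
    { carrier := {w | w 0 = 0}
      add_mem' := by
        intro a b ha hb
        have ha' : a 0 = 0 := ha
        have hb' : b 0 = 0 := hb
        change (a + b) 0 = 0
        rw [Pi.add_apply, ha', hb', add_zero]
      zero_mem' := rfl
      neg_mem' := by
        intro a ha
        have ha' : a 0 = 0 := ha
        change (-a) 0 = 0
        rw [Pi.neg_apply, ha', neg_zero] }
  let W : AddSubgroup (ZMod M → ℤ) := Sub M p f ⊔ SS M p f ⊔ K.map (push M N)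
  have hW : ∀ x : ZMod M, x ≠ 0 → ev x ∈ W := by
    refine double hB hM hf hp W (le_sup_left.trans le_sup_left) (le_sup_right.trans le_sup_left)
      hN hMN ?_
    intro x hx hxo
    refine (le_sup_right : K.map (push M N) ≤ W) ?_
    have h1 : N • x = 0 := addOrderOf_dvd_iff_nsmul_eq_zero.mp hxo
    have h2 : M ∣ N * x.val := by
      rw [← ZMod.natCast_eq_zero_iff, Nat.cast_mul, ZMod.natCast_zmod_val, ← nsmul_eq_mul]
      exact h1
    have h3 : N * 2 ∣ N * x.val := by
      have h4 : N * 2 = M := by rw [hMN, mul_comm]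
      exact (dvd_of_eq h4).trans h2
    obtain ⟨a, ha⟩ := Nat.dvd_of_mul_dvd_mul_left (by omega : 0 < N) h3
    have hinc : inc M N (a : ZMod N) = x := by
      rw [inc_nat hNM, hMN2, ← Nat.cast_mul, ← ha, ZMod.natCast_zmod_val]
    refine ⟨ev (a : ZMod N), ?_, ?_⟩
    · change (ev (a : ZMod N) : ZMod N → ℤ) 0 = 0
      refine Pi.single_eq_of_ne ?_ _
      intro h
      apply hx
      rw [← hinc, ← h, inc_zero hNM]
    · rw [push_ev, hinc]
  intro X h0 hbal he
  set v := cnt X with hv
  have hv0 : v 0 = 0 := Basic.cnt_apply_zero h0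
  have hvb : ∀ t : (ZMod M)ˣ, pair M p f t v = 0 := by
    intro t
    change ∑ x, cnt X x * saw M p f t x = 0
    rw [Basic.sum_cnt_mul]
    exact hbal t
  have hve : Even (tot M v) := by
    change Even (∑ x, cnt X x)
    rw [Basic.sum_cnt]
    exact_mod_cast he
  have h1 := all_mem W hW hv0
  obtain ⟨y, hy, z, hz, hyz⟩ := AddSubgroup.mem_sup.mp h1
  obtain ⟨s, hs, s', hs', hss⟩ := AddSubgroup.mem_sup.mp hy
  obtain ⟨w, hw0, hw⟩ := hz
  have hw0' : w 0 = 0 := hw0
  have hwb : ∀ t : (ZMod N)ˣ, pair N p f t w = 0 := by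
    refine bal_of_push hNM fun t => ?_
    have h2 := hvb t
    rw [← hyz, ← hss, map_add, map_add, pair_sub hB hM hf hp t hs, pair_ss t hs'] at h2
    have h3 : pair M p f t z = 0 := by linarith
    rw [← h3, hw]
  have hte : Even (tot M s' + tot N w) := by
    have h2 := hve
    rw [← hyz, ← hss, map_add, map_add, ← hw, tot_push] at h2
    have h3 := tot_sub hB hM hf hp hs
    have h4 : tot M s' + tot N w = (tot M s + tot M s' + tot N w) - tot M s := by ring
    rw [h4]
    exact h2.sub h3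
  -- the final step: a supersingular part with even sum
  have hfin : ∀ (w' : ZMod N → ℤ) (z' : ZMod M → ℤ), w' 0 = 0 →
      (∀ t : (ZMod N)ˣ, pair N p f t w' = 0) → Even (tot N w') → z' ∈ SS M p f →
      Even (tot M z') → s' + z = z' + push M N w' → v ∈ Sub M p f := by
    intro w' z' hw' hb' ht' hz' htz h
    have h2 := lp_fun hB hN1 hf hpN hLP hw' hb' ht'
    have h3 : v = s + (z' + push M N w') := by
      rw [← h, ← hyz, ← hss]
      abel
    rw [h3]
    exact add_mem hs (add_mem (ss_even hB hM hf hp hz' htz) (push_sub hNM h2))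
  by_cases hwe : Even (tot N w)
  · refine hfin w s' hw0' hwb hwe hs' ?_ (by rw [hw])
    rw [Int.even_add] at hte
    exact hte.mpr hwe
  · by_cases hex : ∃ x₀ : ZMod N, SSel N p f x₀
    · obtain ⟨x₀, hx₀, hsx⟩ := hex
      refine hfin (w - ev x₀) (s' + ev (inc M N x₀)) ?_ ?_ ?_ ?_ ?_ ?_
      · have h2 : (ev x₀ : ZMod N → ℤ) 0 = 0 := Pi.single_eq_of_ne hx₀.symm _
        rw [Pi.sub_apply, hw0', h2, sub_zero]
      · intro t
        rw [map_sub, hwb, pair_ev, hsx t, sub_zero]
      · rw [map_sub, tot_ev]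
        rw [Int.even_sub]
        simp [hwe]
      · refine add_mem hs' (ss_mem ⟨inc_ne hNM hx₀, fun t => ?_⟩)
        rw [saw_inc hNM, hsx, mul_zero]
      · rw [map_add, tot_ev]
        rw [Int.even_add] at hte ⊢
        simp only [hwe, iff_false] at hte
        simp [hte]
      · rw [map_sub, push_ev, hw]
        abel
    · push Not at hex
      exact absurd (even_tot hN hf hpN hex hwb) hwe

end Transfer

/-- `StTransfer`: the transfer theorem. -/
def StTransfer : Prop :=
  ∀ (M m p f : ℕ) [NeZero M] [NeZero m], m ∣ M → 1 < m → Odd (M / m) →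
    (∀ r : ℕ, r.Prime → r ∣ M → r ∣ m) → (Odd M ∨ 4 ∣ M) → 0 < f → (p : ZMod M) ^ f = 1 →
    StepHyp p M → LP m p f → LP M p f

/-- `StDouble`: from `N` to `2 N`. -/
def StDouble : Prop :=
  ∀ (N p f : ℕ) [NeZero N], Odd N → 1 < N → 0 < f → (p : ZMod (2 * N)) ^ f = 1 → LP N p f →
    LP (2 * N) p f

theorem stTransfer (hB : StBasic) (hR : StRankTwo) : StTransfer := by
  intro M m p f _ _ hmM hm1 hk hr hE hf hp hyp hLP
  exact Transfer.transfer hB hR hf hm1 hLP (M / m) M (Nat.div_mul_cancel hmM).symm hk hr hE hp hyp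

theorem stDouble (hB : StBasic) : StDouble := by
  intro N p f _ hN hN1 hf hp hLP
  have : NeZero (2 * N) := ⟨by omega⟩
  exact Transfer.lp_double hB hN hN1 rfl hf hp hLP

end Pool.Agent.Lib.MP81632f.Diag
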