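import Pool.Agent.Lib.MP_81632f_ag.Diag.Stmts

/-!
# Tate sets of Gauss sums: balanced multisets give Tate sets (Kronecker's theorem)
-/

set_option autoImplicit false

noncomputable section

namespace Pool.Agent.Lib.MP81632f.Diag

namespace Kron

open Polynomial NNReal Finset

set_option linter.unusedSectionVars false

/-! ### Integrality from local absolute values -/

theorem norm_le_one_of_isIntegral {l : ℕ} [Fact l.Prime] {x : PadicAlgCl l}
    (hx : IsIntegral ℤ x) : ‖x‖ ≤ 1 := by
  have hv := Valuation.integer.integers (Valued.v : Valuation (PadicAlgCl l) ℝ≥0)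
  have h1 : IsIntegral (Valued.v : Valuation (PadicAlgCl l) ℝ≥0).integer x := hx.tower_top
  have h2 := hv.isIntegral_iff_v_le_one.mp h1
  rw [← PadicAlgCl.valuation_coe]
  exact_mod_cast h2

theorem den_eq_one {c : ℚ} (h : ∀ l : ℕ, ∀ _ : Fact l.Prime, ‖(c : ℚ_[l])‖ ≤ 1) : c.den = 1 := by
  by_contra hc
  obtain ⟨l, hl, hd⟩ := Nat.exists_prime_and_dvd hc
  have : Fact l.Prime := ⟨hl⟩
  have h1 := PadicInt.isUnit_den c (h l ⟨hl⟩)
  rw [PadicInt.isUnit_iff] at h1
  have h2 : ‖((c.den : ℤ) : ℤ_[l])‖ < 1 := by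
    rw [PadicInt.norm_int_lt_one_iff_dvd]
    exact_mod_cast hd
  rw [Int.cast_natCast] at h2
  rw [h1] at h2
  exact lt_irrefl _ h2

theorem isIntegral_of_norm {E : Type} [Field E] [NumberField E] (α : E)
    (h : ∀ l : ℕ, ∀ _ : Fact l.Prime, ∀ φ : E →+* PadicAlgCl l, ‖φ α‖ ≤ 1) :
    IsIntegral ℤ α := by
  classical
  have hint : IsIntegral ℚ α := Algebra.IsIntegral.isIntegral α
  set f := minpoly ℚ α with hf
  have hmon : f.Monic := minpoly.monic hint
  have hcoeff : ∀ i, (f.coeff i).den = 1 := by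
    intro i
    apply den_eq_one
    intro l hl
    set O := (Valued.v : Valuation (PadicAlgCl l) ℝ≥0).integer with hO
    have hroots : ∀ r ∈ (f.map (algebraMap ℚ (PadicAlgCl l))).roots, r ∈ O := by
      intro r hr
      have h1 : r ∈ f.rootSet (PadicAlgCl l) := by
        rw [mem_rootSet]
        refine ⟨hmon.ne_zero, ?_⟩
        have h2 := (mem_roots'.mp hr).2
        rwa [IsRoot, eval_map, ← aeval_def] at h2
      rw [hf, ← NumberField.Embeddings.range_eval_eq_rootSet_minpoly E (PadicAlgCl l) α] at h1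
      obtain ⟨φ, rfl⟩ := h1
      have h3 := h l hl φ
      change (Valued.v (φ α) : ℝ≥0) ≤ 1
      rw [← PadicAlgCl.valuation_coe] at h3
      exact_mod_cast h3
    have hprod : f.map (algebraMap ℚ (PadicAlgCl l))
        = ((f.map (algebraMap ℚ (PadicAlgCl l))).roots.map (fun r => X - C r)).prod := by
      have h1 : ((f.map (algebraMap ℚ (PadicAlgCl l)))).Splits := IsAlgClosed.splits _
      exact h1.eq_prod_roots_of_monic (hmon.map _)
    have hlift : f.map (algebraMap ℚ (PadicAlgCl l)) ∈ lifts O.subtype := by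
      rw [hprod]
      refine Subsemiring.multiset_prod_mem _ _ ?_
      intro g hg
      obtain ⟨r, hr, rfl⟩ := Multiset.mem_map.mp hg
      rw [mem_lifts]
      exact ⟨X - C ⟨r, hroots r hr⟩, by simp⟩
    rw [lifts_iff_coeff_lifts] at hlift
    obtain ⟨y, hy⟩ := hlift i
    rw [coeff_map] at hy
    have h4 : (Valued.v ((f.coeff i : ℚ) : PadicAlgCl l) : ℝ≥0) ≤ 1 := by
      have h5 := y.2
      have h6 : ((f.coeff i : ℚ) : PadicAlgCl l) = (y : PadicAlgCl l) := by
        rw [← eq_ratCast (algebraMap ℚ (PadicAlgCl l)), ← hy]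
        rfl
      rw [h6]
      exact h5
    have h7 : ‖((f.coeff i : ℚ) : PadicAlgCl l)‖ ≤ 1 := by
      rw [← PadicAlgCl.valuation_coe]
      exact_mod_cast h4
    have h8 : ((f.coeff i : ℚ) : PadicAlgCl l) = (((f.coeff i : ℚ) : ℚ_[l]) : PadicAlgCl l) :=
      (map_ratCast (algebraMap ℚ_[l] (PadicAlgCl l)) _).symm
    rw [h8, PadicAlgCl.norm_extends] at h7
    exact h7
  have hlz : f ∈ lifts (Int.castRingHom ℚ) := by
    rw [lifts_iff_coeff_lifts]
    intro i
    exact ⟨(f.coeff i).num, by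
      have := Rat.num_div_den (f.coeff i)
      rw [hcoeff i] at this
      simpa using this⟩
  obtain ⟨g, hg, -, hgm⟩ := lifts_and_natDegree_eq_and_monic hlz hmon
  refine ⟨g, hgm, ?_⟩
  have h9 : aeval α f = 0 := minpoly.aeval ℚ α
  have h10 : (algebraMap ℚ E).comp (Int.castRingHom ℚ) = algebraMap ℤ E := RingHom.ext_int _ _
  rw [← hg, aeval_def, eval₂_map, h10] at h9
  exact h9

theorem norm_natCast_of_ne {p l : ℕ} (hp : p.Prime) [hl : Fact l.Prime] (hpl : p ≠ l) :
    ‖((p : ℕ) : PadicAlgCl l)‖ = 1 := by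
  have h1 : ((p : ℕ) : PadicAlgCl l) = (((p : ℕ) : ℚ_[l]) : PadicAlgCl l) :=
    (map_natCast (algebraMap ℚ_[l] (PadicAlgCl l)) _).symm
  rw [h1, PadicAlgCl.norm_extends, Padic.norm_natCast_eq_one_iff, Nat.coprime_primes hl.out hp]
  exact hpl.symm

theorem norm_natCast_self {p : ℕ} [hp : Fact p.Prime] :
    ‖((p : ℕ) : PadicAlgCl p)‖ = (p : ℝ)⁻¹ := by
  have h1 : ((p : ℕ) : PadicAlgCl p) = (((p : ℕ) : ℚ_[p]) : PadicAlgCl p) :=
    (map_natCast (algebraMap ℚ_[p] (PadicAlgCl p)) _).symm
  rw [h1, PadicAlgCl.norm_extends, Padic.norm_p]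

/-! ### Characters -/

section chars

variable {F : Type} [Field F] [Fintype F]

section map

variable {L L' : Type} [Field L] [Field L']

/-- additive character composed with a ring homomorphism -/
def addMap (φ : L →+* L') (ψ : AddChar F L) : AddChar F L' :=
  (φ : L →* L').compAddChar ψ

theorem addMap_apply (φ : L →+* L') (ψ : AddChar F L) (x : F) : addMap φ ψ x = φ (ψ x) := rfl

theorem addMap_ne_one (φ : L →+* L') {ψ : AddChar F L} (h : ψ ≠ 1) : addMap φ ψ ≠ 1 := by
  intro h1
  apply h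
  ext x
  have h2 := DFunLike.congr_fun h1 x
  rw [addMap_apply, AddChar.one_apply] at h2
  rw [AddChar.one_apply]
  exact φ.injective (by rw [h2, map_one])

theorem gs_map (φ : L →+* L') (χ : MulChar F L) (ψ : AddChar F L) :
    φ (gaussSum χ ψ) = gaussSum (χ.ringHomComp φ) (addMap φ ψ) := by
  simp only [gaussSum, map_sum, map_mul]
  rfl

theorem order_map (φ : L →+* L') (χ : MulChar F L) :
    orderOf (χ.ringHomComp φ) = orderOf χ :=
  orderOf_injective (MulChar.ringHomCompHom φ) (MulChar.injective_ringHomComp φ.injective) χ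

/-- the normalised product of Gauss sums -/
def Z {M : ℕ} (θ : MulChar F L) (ψ : AddChar F L) (X : Multiset (ZMod M)) : L :=
  (X.map fun x => gaussSum (θ ^ x.val) ψ).prod ^ 2 / (Fintype.card F : L) ^ Multiset.card X

theorem Z_map {M : ℕ} (φ : L →+* L') (θ : MulChar F L) (ψ : AddChar F L)
    (X : Multiset (ZMod M)) : φ (Z θ ψ X) = Z (θ.ringHomComp φ) (addMap φ ψ) X := by
  simp only [Z, map_div₀, map_pow, map_natCast, map_multiset_prod, Multiset.map_map,
    Function.comp_def, gs_map, MulChar.ringHomComp_pow]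

/-- characters of the same order -/
theorem same_order {M : ℕ} (hM : 0 < M) {θ θ' : MulChar F L} (h : orderOf θ = M)
    (h' : orderOf θ' = M) : ∃ t : ℕ, t.Coprime M ∧ θ' = θ ^ t := by
  obtain ⟨g, hg⟩ := IsCyclic.exists_generator (α := Fˣ)
  have key : ∀ η : MulChar F L, orderOf η = M → IsPrimitiveRoot (η g) M := by
    intro η hη
    rw [IsPrimitiveRoot.iff_def]
    constructor
    · rw [← MulChar.pow_apply_coe, ← hη, pow_orderOf_eq_one, MulChar.one_apply_coe]
    · intro l hl
      rw [← hη]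
      apply orderOf_dvd_of_pow_eq_one
      rw [MulChar.eq_iff hg, MulChar.pow_apply_coe, hl, MulChar.one_apply_coe]
  have : NeZero M := ⟨hM.ne'⟩
  obtain ⟨t, -, ht, ht'⟩ := (key θ h).isPrimitiveRoot_iff.1 (key θ' h')
  refine ⟨t, ht, ?_⟩
  rw [MulChar.eq_iff hg, MulChar.pow_apply_coe, ht']

theorem pow_val_ne_one {M : ℕ} [NeZero M] {θ : MulChar F L} (h : orderOf θ = M) {x : ZMod M}
    (hx : x ≠ 0) : θ ^ x.val ≠ 1 := by
  intro h1
  have h2 := orderOf_dvd_of_pow_eq_one h1
  rw [h] at h2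
  have h3 : 0 < x.val := ZMod.val_pos.2 hx
  exact absurd (Nat.le_of_dvd h3 h2) (not_le.2 (ZMod.val_lt x))

end map

/-- complex absolute value -/
theorem norm_gs {χ : MulChar F ℂ} {ψ : AddChar F ℂ} (hχ : χ ≠ 1) (hψ : ψ ≠ 1) :
    ‖gaussSum χ ψ‖ ^ 2 = (Fintype.card F : ℝ) := by
  have h1 := gaussSum_mul_gaussSum_eq_card hχ (AddChar.IsPrimitive.of_ne_one hψ)
  rw [← star_gaussSum_eq] at h1
  have h2 : (gaussSum χ ψ) * star (gaussSum χ ψ) = ((‖gaussSum χ ψ‖ ^ 2 : ℝ) : ℂ) := by
    rw [Complex.star_def, Complex.mul_conj, Complex.normSq_eq_norm_sq]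
  rw [h2] at h1
  exact_mod_cast h1

theorem norm_prod_map {L : Type} [NormedField L] {ι : Type} (X : Multiset ι) (f : ι → L) :
    ‖(X.map f).prod‖ = (X.map fun x => ‖f x‖).prod := by
  induction X using Multiset.induction with
  | empty => simp
  | cons a s ih => simp [ih]

theorem pow_prod_map {L : Type} [CommMonoid L] {ι : Type} (X : Multiset ι) (f : ι → L) (n : ℕ) :
    (X.map f).prod ^ n = (X.map fun x => f x ^ n).prod := by
  induction X using Multiset.induction with
  | empty => simp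
  | cons a s ih => simp [mul_pow, ih]

theorem norm_Z_complex {M : ℕ} [NeZero M] {θ : MulChar F ℂ} (hθ : orderOf θ = M)
    {ψ : AddChar F ℂ} (hψ : ψ ≠ 1) {X : Multiset (ZMod M)} (hX : 0 ∉ X) : ‖Z θ ψ X‖ = 1 := by
  have hq : (0 : ℝ) < Fintype.card F := by exact_mod_cast Fintype.card_pos
  rw [Z, norm_div, norm_pow, norm_pow, norm_prod_map, pow_prod_map, Complex.norm_natCast]
  have h1 : (X.map fun x => ‖gaussSum (θ ^ x.val) ψ‖ ^ 2) =
      X.map fun _ => (Fintype.card F : ℝ) := by
    apply Multiset.map_congr rfl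
    intro x hx
    exact norm_gs (pow_val_ne_one hθ (fun h => hX (h ▸ hx))) hψ
  rw [h1, Multiset.map_const', Multiset.prod_replicate, div_self (pow_ne_zero _ hq.ne')]

theorem integral_gs {L : Type} [Field L] [CharZero L] (p : ℕ) [hp : Fact p.Prime] [CharP F p]
    (χ : MulChar F L) (ψ : AddChar F L) : IsIntegral ℤ (gaussSum χ ψ) := by
  rw [gaussSum]
  apply IsIntegral.sum
  intro a _
  apply IsIntegral.mul
  · by_cases ha : a = 0
    · rw [ha, MulChar.map_zero]
      exact isIntegral_zero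
    · apply IsIntegral.of_pow (n := Fintype.card F - 1)
      · have := Fintype.one_lt_card (α := F)
        omega
      · have h1 : χ a ^ (Fintype.card F - 1) = 1 := by
          rw [← map_pow, FiniteField.pow_card_sub_one_eq_one a ha, map_one]
        rw [h1]
        exact isIntegral_one
  · apply IsIntegral.of_pow (n := p) hp.out.pos
    have h1 : ψ a ^ p = 1 := by
      rw [← AddChar.map_nsmul_eq_pow, nsmul_eq_mul, CharP.cast_eq_zero, zero_mul,
        AddChar.map_zero_eq_one]
    rw [h1]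
    exact isIntegral_one

theorem norm_Z_away {M : ℕ} (p : ℕ) [hp : Fact p.Prime] [CharP F p] (f : ℕ)
    (hf : Fintype.card F = p ^ f) (l : ℕ) [Fact l.Prime] (hpl : p ≠ l)
    (θ : MulChar F (PadicAlgCl l)) (ψ : AddChar F (PadicAlgCl l)) (X : Multiset (ZMod M)) :
    ‖Z θ ψ X‖ ≤ 1 := by
  rw [Z, norm_div, norm_pow, norm_pow, hf, Nat.cast_pow, norm_pow,
    norm_natCast_of_ne hp.out hpl, one_pow, one_pow, div_one]
  apply pow_le_one₀ (norm_nonneg _)
  apply norm_le_one_of_isIntegral
  apply IsIntegral.multiset_prod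
  intro x hx
  obtain ⟨y, -, rfl⟩ := Multiset.mem_map.1 hx
  exact integral_gs p _ _

theorem norm_Z_at (hS : StStick) {M : ℕ} [NeZero M] (p : ℕ) [hp : Fact p.Prime] [CharP F p]
    (f : ℕ) (hf : Fintype.card F = p ^ f) {θ : MulChar F (PadicAlgCl p)} (hθ : orderOf θ = M)
    {ψ : AddChar F (PadicAlgCl p)} (hψ : ψ ≠ 1) {X : Multiset (ZMod M)} (hX : 0 ∉ X)
    (hbal : BalM M p f X) : ‖Z θ ψ X‖ = 1 := by
  have hM : 0 < M := Nat.pos_of_ne_zero (NeZero.ne M)
  have hdvd : M ∣ p ^ f - 1 := by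
    rw [← hf, ← hθ]
    exact MulChar.orderOf_dvd_card_sub_one F θ
  obtain ⟨θ', hθ', hgs⟩ := hS p F f hf M hM hdvd
  obtain ⟨t, ht, rfl⟩ := same_order hM hθ' hθ
  have hb := hbal (ZMod.unitOfCoprime t ht)
  rw [ZMod.coe_unitOfCoprime] at hb
  have hp0 : (0 : ℝ) < (p : ℝ)⁻¹ := by
    have := hp.out.pos
    positivity
  -- the norm of one Gauss sum
  have h1 : ∀ x ∈ X, ‖gaussSum ((θ' ^ t) ^ x.val) ψ‖ ^ M =
      ((p : ℝ)⁻¹) ^ (∑ j ∈ range f, ((p : ZMod M) ^ j * (t : ZMod M) * x).val) := by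
    intro x hx
    have hx0 : x ≠ 0 := fun h => hX (h ▸ hx)
    have h2 : ¬ M ∣ t * x.val := by
      intro h
      have h3 := (Nat.Coprime.dvd_mul_left ht.symm).1 h
      have h4 : 0 < x.val := ZMod.val_pos.2 hx0
      exact absurd (Nat.le_of_dvd h4 h3) (not_le.2 (ZMod.val_lt x))
    rw [← pow_mul, hgs ψ hψ (t * x.val) h2]
    congr 1
    refine Finset.sum_congr rfl fun j _ => ?_
    rw [← ZMod.val_natCast, Nat.cast_mul, Nat.cast_pow, Nat.cast_mul, ZMod.natCast_zmod_val,
      mul_assoc]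
  have h5 : ‖Z (θ' ^ t) ψ X‖ ^ M = 1 := by
    rw [Z, norm_div, norm_pow, norm_pow, norm_prod_map, hf, Nat.cast_pow, norm_pow,
      norm_natCast_self, div_pow, ← pow_mul, mul_comm 2 M, pow_mul, pow_prod_map]
    have h6 : (X.map fun x => ‖gaussSum ((θ' ^ t) ^ x.val) ψ‖ ^ M).prod =
        ((p : ℝ)⁻¹) ^ (X.map fun x =>
          ∑ j ∈ range f, ((p : ZMod M) ^ j * (t : ZMod M) * x).val).sum := by
      rw [Multiset.map_congr rfl h1]
      clear h1 hX hbal hb
      induction X using Multiset.induction with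
      | empty => simp
      | cons a s ih =>
        rw [Multiset.map_cons, Multiset.prod_cons, Multiset.map_cons, Multiset.sum_cons, pow_add,
          ih]
    rw [h6, ← pow_mul, ← pow_mul]
    have h7 : (X.map fun x =>
          ∑ j ∈ range f, ((p : ZMod M) ^ j * (t : ZMod M) * x).val).sum * 2 =
        f * (Multiset.card X * M) := by
      have h8 : (X.map fun x => saw M p f (t : ZMod M) x).sum =
          2 * ((X.map fun x =>
            ∑ j ∈ range f, ((p : ZMod M) ^ j * (t : ZMod M) * x).val).sum : ℤ) -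
          (f * (Multiset.card X * M) : ℕ) := by
        clear h1 hX hbal hb h6
        induction X using Multiset.induction with
        | empty => simp
        | cons a s ih =>
          rw [Multiset.map_cons, Multiset.sum_cons, ih, Multiset.map_cons, Multiset.sum_cons,
            Multiset.card_cons, saw, Finset.sum_sub_distrib, Finset.sum_const, card_range,
            ← Finset.mul_sum]
          push_cast
          simp only [nsmul_eq_mul]
          ring
      rw [hb] at h8
      omega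
    rw [h7, ← pow_mul, div_self (pow_ne_zero _ hp0.ne')]
  exact (pow_eq_one_iff_of_nonneg (norm_nonneg _) hM.ne').1 h5

end chars

/-! ### Descent to a number field -/

section descent

variable {F : Type} [Field F] [Fintype F]

/-- the field generated by the values of the characters -/
abbrev E (θ : MulChar F ℂ) (ψ : AddChar F ℂ) : IntermediateField ℚ ℂ :=
  IntermediateField.adjoin ℚ (Set.range θ ∪ Set.range ψ)

/-- the multiplicative character with values in `E` -/
def θE (θ : MulChar F ℂ) (ψ : AddChar F ℂ) : MulChar F (E θ ψ) where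
  toFun a := ⟨θ a, IntermediateField.subset_adjoin _ _ (Or.inl ⟨a, rfl⟩)⟩
  map_one' := by
    apply Subtype.ext
    exact map_one θ
  map_mul' a b := by
    apply Subtype.ext
    exact map_mul θ a b
  map_nonunit' a ha := by
    apply Subtype.ext
    exact MulChar.map_nonunit θ ha

/-- the additive character with values in `E` -/
def ψE (θ : MulChar F ℂ) (ψ : AddChar F ℂ) : AddChar F (E θ ψ) where
  toFun a := ⟨ψ a, IntermediateField.subset_adjoin _ _ (Or.inr ⟨a, rfl⟩)⟩
  map_zero_eq_one' := by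
    apply Subtype.ext
    exact AddChar.map_zero_eq_one ψ
  map_add_eq_mul' a b := by
    apply Subtype.ext
    exact AddChar.map_add_eq_mul ψ a b

theorem θE_map (θ : MulChar F ℂ) (ψ : AddChar F ℂ) :
    (θE θ ψ).ringHomComp (algebraMap (E θ ψ) ℂ) = θ := by
  apply MulChar.ext'
  intro a
  rfl

theorem ψE_map (θ : MulChar F ℂ) (ψ : AddChar F ℂ) :
    addMap (algebraMap (E θ ψ) ℂ) (ψE θ ψ) = ψ := by
  ext a
  rfl

theorem E_finite (p : ℕ) [hp : Fact p.Prime] [CharP F p] (θ : MulChar F ℂ) (ψ : AddChar F ℂ) :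
    FiniteDimensional ℚ (E θ ψ) := by
  have hfin : (Set.range θ ∪ Set.range ψ).Finite := (Set.finite_range _).union (Set.finite_range _)
  have : Finite (Set.range θ ∪ Set.range ψ : Set ℂ) := hfin
  apply IntermediateField.finiteDimensional_adjoin
  rintro x (⟨a, rfl⟩ | ⟨a, rfl⟩)
  · by_cases ha : a = 0
    · rw [ha, MulChar.map_zero]
      exact isIntegral_zero
    · apply IsIntegral.of_pow (n := Fintype.card F - 1)
      · have := Fintype.one_lt_card (α := F)
        omega
      · have h1 : θ a ^ (Fintype.card F - 1) = 1 := by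
          rw [← map_pow, FiniteField.pow_card_sub_one_eq_one a ha, map_one]
        rw [h1]
        exact isIntegral_one
  · apply IsIntegral.of_pow (n := p) hp.out.pos
    have h1 : ψ a ^ p = 1 := by
      rw [← AddChar.map_nsmul_eq_pow, nsmul_eq_mul, CharP.cast_eq_zero, zero_mul,
        AddChar.map_zero_eq_one]
    rw [h1]
    exact isIntegral_one

end descent

end Kron

theorem stKron (hS : StStick) (_hSh : StShift) : StKron := by
  intro p _ F _ _ _ f hf M _ θ hθ ψ hψ X hX hbal
  have := Kron.E_finite (F := F) p θ ψ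
  have : NumberField (Kron.E θ ψ) := NumberField.mk
  have hθE : orderOf (Kron.θE θ ψ) = M := by
    rw [← Kron.order_map (algebraMap (Kron.E θ ψ) ℂ), Kron.θE_map, hθ]
  have hψE : Kron.ψE θ ψ ≠ 1 := by
    intro h
    apply hψ
    rw [← Kron.ψE_map θ ψ, h]
    ext a
    rw [Kron.addMap_apply, AddChar.one_apply, AddChar.one_apply, map_one]
  have hint : IsIntegral ℤ (Kron.Z (Kron.θE θ ψ) (Kron.ψE θ ψ) X) := by
    apply Kron.isIntegral_of_norm
    intro l hl φ
    rw [Kron.Z_map]
    by_cases hpl : p = l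
    · subst hpl
      exact (Kron.norm_Z_at hS p f hf ((Kron.order_map φ _).trans hθE)
        (Kron.addMap_ne_one φ hψE) hX hbal).le
    · exact Kron.norm_Z_away p f hf l hpl _ _ X
  obtain ⟨N, hN, hN1⟩ := NumberField.Embeddings.pow_eq_one_of_norm_eq_one (Kron.E θ ψ) ℂ hint
    (by
      intro φ
      rw [Kron.Z_map]
      exact Kron.norm_Z_complex ((Kron.order_map φ _).trans hθE) (Kron.addMap_ne_one φ hψE) hX)
  have h1 := congrArg (algebraMap (Kron.E θ ψ) ℂ) hN1
  rw [map_pow, map_one, Kron.Z_map, Kron.θE_map, Kron.ψE_map, Kron.Z, div_pow, ← pow_mul,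
    ← pow_mul] at h1
  have hq : (Fintype.card F : ℂ) ≠ 0 := by
    exact_mod_cast Fintype.card_ne_zero
  rw [div_eq_one_iff_eq (pow_ne_zero _ hq)] at h1
  refine ⟨?_, N, hN, ?_⟩
  · intro χ hχ
    obtain ⟨x, hx, rfl⟩ := Multiset.mem_map.1 hχ
    exact Kron.pow_val_ne_one hθ (fun h => hX (h ▸ hx))
  · rw [Multiset.map_map, Multiset.card_map, mul_comm N]
    exact h1

end Pool.Agent.Lib.MP81632f.Diag

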