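import Pool.Agent.Lib.MP_81632f_ag.Diag.Stmts

/-!
# Module B1: nonvanishing of `∑ χ(a) a` for odd primitive characters

`L(1, χ⁻¹) ≠ 0` and the functional equation give `L(0, χ) ≠ 0`; and
`Γ(s + 1) L(s, Φ) = mellin H (s + 1)`, where `H = -G'` and `G(t) = ∑ Φ(n) e ^ (-n t)`, which gives
`L(0, Φ) = G(0) = -(1/N) ∑ Φ(a) a` for a function `Φ` on `ℤ/N` with `Φ(0) = 0` and sum zero.
-/

set_option autoImplicit false

noncomputable section

open Complex Filter Topology Set

namespace Pool.Agent.Lib.MP81632f.Diag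

namespace Lval

variable {N : ℕ} [NeZero N] (Φ : ZMod N → ℂ)

/-- `e ^ (-t)` -/
def r (t : ℝ) : ℂ := ((Real.exp (-t) : ℝ) : ℂ)

theorem r_pow (k : ℕ) (t : ℝ) : r t ^ k = ((Real.exp (-(k : ℝ) * t) : ℝ) : ℂ) := by
  rw [r, ← ofReal_pow, ← Real.exp_nat_mul]
  congr 2
  ring

theorem hasDerivAt_r_pow (k : ℕ) (t : ℝ) :
    HasDerivAt (fun t : ℝ => r t ^ k) (-(k : ℂ) * r t ^ k) t := by
  have h1 : HasDerivAt (fun t : ℝ => Real.exp (-(k : ℝ) * t))
      (Real.exp (-(k : ℝ) * t) * (-(k : ℝ))) t := by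
    have := (Real.hasDerivAt_exp (-(k : ℝ) * t)).comp t
      ((hasDerivAt_id t).const_mul (-(k : ℝ)))
    simpa [Function.comp_def] using this
  have h2 := h1.ofReal_comp
  have h3 : (fun t : ℝ => r t ^ k) = fun t : ℝ => ((Real.exp (-(k : ℝ) * t) : ℝ) : ℂ) := by
    funext t; exact r_pow k t
  rw [h3, r_pow]
  convert h2 using 1
  push_cast
  ring

theorem contDiff_r : ContDiff ℝ 2 r := by
  unfold r
  exact ofRealCLM.contDiff.comp (Real.contDiff_exp.comp contDiff_neg)

/-- partial geometric sums -/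
def S (m : ℕ) (t : ℝ) : ℂ := ∑ k ∈ Finset.range m, r t ^ k

theorem contDiff_S (m : ℕ) : ContDiff ℝ 2 (S m) := by
  unfold S
  exact ContDiff.sum fun k _ => contDiff_r.pow k

theorem S_ne_zero (t : ℝ) : S N t ≠ 0 := by
  have h1 : S N t = ((∑ k ∈ Finset.range N, Real.exp (-t) ^ k : ℝ) : ℂ) := by
    simp only [S, r, ofReal_sum, ofReal_pow]
  rw [h1, ofReal_ne_zero]
  apply ne_of_gt
  apply Finset.sum_pos
  · intro k _; positivity
  · exact ⟨0, Finset.mem_range.2 (Nat.pos_of_ne_zero (NeZero.ne N))⟩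

theorem S_mul (m : ℕ) (t : ℝ) : S m t * (1 - r t) = 1 - r t ^ m := by
  have := geom_sum_mul (r t) m
  rw [S]
  linear_combination -this

theorem S_zero (m : ℕ) : S m 0 = m := by
  simp [S, r]

/-- the generating function of `Φ` -/
def G (t : ℝ) : ℂ := -(∑ a : ZMod N, Φ a * S a.val t) / S N t

theorem contDiff_G : ContDiff ℝ 2 (G Φ) := by
  have : G Φ = fun t => -(∑ a : ZMod N, Φ a * S a.val t) * (S N t)⁻¹ := by
    funext t
    rw [G, div_eq_mul_inv]
  rw [this]
  apply ContDiff.mul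
  · apply ContDiff.neg
    exact ContDiff.sum fun a _ => contDiff_const.mul (contDiff_S _)
  · exact (contDiff_S N).inv (fun t => S_ne_zero t)

theorem G_zero : G Φ 0 = -(∑ a : ZMod N, Φ a * (a.val : ℂ)) / N := by
  simp only [G, S_zero]

theorem r_lt_one {t : ℝ} (ht : 0 < t) : ‖r t‖ < 1 := by
  rw [r, norm_real, Real.norm_eq_abs, abs_of_pos (Real.exp_pos _), Real.exp_lt_one_iff]
  linarith

theorem one_sub_ne {t : ℝ} (ht : 0 < t) {k : ℕ} (hk : k ≠ 0) : 1 - r t ^ k ≠ 0 := by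
  intro h
  have h1 : ‖r t ^ k‖ < 1 := by
    rw [norm_pow]
    exact pow_lt_one₀ (norm_nonneg _) (r_lt_one ht) hk
  rw [← sub_eq_zero.1 h] at h1
  simp at h1

theorem G_eq (hΦ : ∑ a, Φ a = 0) {t : ℝ} (ht : 0 < t) :
    G Φ t = (∑ a : ZMod N, Φ a * r t ^ a.val) / (1 - r t ^ N) := by
  have h1 := one_sub_ne ht (one_ne_zero)
  rw [pow_one] at h1
  have h2 := one_sub_ne ht (NeZero.ne N)
  rw [G, div_eq_div_iff (S_ne_zero t) h2, ← S_mul N t]
  have h3 : (∑ a : ZMod N, Φ a * S a.val t) * (1 - r t) = - ∑ a : ZMod N, Φ a * r t ^ a.val := by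
    rw [Finset.sum_mul, ← sub_zero (-∑ a : ZMod N, Φ a * r t ^ a.val)]
    have : ∀ a : ZMod N, Φ a * S a.val t * (1 - r t) = Φ a - Φ a * r t ^ a.val := by
      intro a
      rw [mul_assoc, S_mul]
      ring
    rw [Finset.sum_congr rfl fun a _ => this a, Finset.sum_sub_distrib, hΦ]
    ring
  linear_combination -(S N t) * h3

/-- the derivative of the generating function, with the sign changed -/
def H (t : ℝ) : ℂ := -deriv (G Φ) t

/-- closed form -/
def K (t : ℝ) : ℂ := ∑ a : ZMod N, Φ a * r t ^ a.val *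
  (a.val / (1 - r t ^ N) + N * (r t ^ N / (1 - r t ^ N) ^ 2))

theorem H_eq (hΦ : ∑ a, Φ a = 0) {t : ℝ} (ht : 0 < t) : H Φ t = K Φ t := by
  have h2 := one_sub_ne ht (NeZero.ne N)
  have h3 : HasDerivAt (fun t => (∑ a : ZMod N, Φ a * r t ^ a.val) / (1 - r t ^ N))
      (((∑ a : ZMod N, Φ a * (-(a.val : ℂ) * r t ^ a.val)) * (1 - r t ^ N) -
        (∑ a : ZMod N, Φ a * r t ^ a.val) * -(-(N : ℂ) * r t ^ N)) / (1 - r t ^ N) ^ 2) t := by
    refine HasDerivAt.fun_div ?_ ?_ h2
    · exact HasDerivAt.fun_sum fun a _ => (hasDerivAt_r_pow a.val t).const_mul (Φ a)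
    · exact (hasDerivAt_r_pow N t).const_sub 1
  have h4 : G Φ =ᶠ[𝓝 t] fun t => (∑ a : ZMod N, Φ a * r t ^ a.val) / (1 - r t ^ N) := by
    filter_upwards [lt_mem_nhds ht] with s hs
    exact G_eq Φ hΦ hs
  rw [H, h4.deriv_eq, h3.deriv, K]
  simp only [Finset.sum_mul, ← Finset.sum_sub_distrib, Finset.sum_div, ← Finset.sum_neg_distrib]
  apply Finset.sum_congr rfl
  intro a _
  field_simp
  ring

theorem hasSum_H (hΦ : ∑ a, Φ a = 0) {t : ℝ} (ht : 0 < t) :
    HasSum (fun n : ℕ => ((n : ℂ) * Φ n) * Real.exp (-(n : ℝ) * t)) (H Φ t) := by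
  have hr := r_lt_one ht
  have hR : ‖r t ^ N‖ < 1 := by
    rw [norm_pow]
    exact pow_lt_one₀ (norm_nonneg _) hr (NeZero.ne N)
  have hs : Summable (fun n : ℕ => ((n : ℂ) * Φ n) * Real.exp (-(n : ℝ) * t)) := by
    obtain ⟨C, hC⟩ : ∃ C : ℝ, ∀ a : ZMod N, ‖Φ a‖ ≤ C := by
      refine ⟨∑ a, ‖Φ a‖, fun a => ?_⟩
      exact Finset.single_le_sum (f := fun a => ‖Φ a‖) (fun a _ => norm_nonneg _)
        (Finset.mem_univ a)
    have h1 : Summable (fun n : ℕ => ‖((n : ℂ) ^ 1 * r t ^ n)‖ * C) :=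
      (summable_norm_pow_mul_geometric_of_norm_lt_one 1 hr).mul_right C
    refine Summable.of_norm_bounded h1 fun n => ?_
    rw [← r_pow, pow_one, norm_mul, norm_mul, norm_mul]
    have := hC n
    have h2 : 0 ≤ ‖(n : ℂ)‖ * ‖r t ^ n‖ := by positivity
    nlinarith [mul_le_mul_of_nonneg_left this h2]
  have h1 := Nat.sumByResidueClasses hs N
  rw [H_eq Φ hΦ ht]
  convert hs.hasSum using 1
  rw [h1, K]
  apply Finset.sum_congr rfl
  intro a _
  have h2 : ∀ m : ℕ, (((a.val + N * m : ℕ) : ℂ) * Φ ((a.val + N * m : ℕ) : ZMod N)) *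
      Real.exp (-((a.val + N * m : ℕ) : ℝ) * t) =
      Φ a * r t ^ a.val * (a.val * (r t ^ N) ^ m + N * (m * (r t ^ N) ^ m)) := by
    intro m
    rw [← r_pow]
    have : ((a.val + N * m : ℕ) : ZMod N) = a := by
      push_cast
      rw [ZMod.natCast_self, zero_mul, add_zero, ZMod.natCast_val, ZMod.cast_id', id]
    rw [this, pow_add, pow_mul]
    push_cast
    ring
  rw [tsum_congr h2, tsum_mul_left, Summable.tsum_add, tsum_mul_left, tsum_mul_left,
    tsum_geometric_of_norm_lt_one hR, tsum_coe_mul_geometric_of_norm_lt_one hR]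
  · simp only [div_eq_mul_inv]
  · exact (summable_geometric_of_norm_lt_one hR).mul_left _
  · exact ((hasSum_coe_mul_geometric_of_norm_lt_one hR).summable).mul_left _

theorem continuous_H : Continuous (H Φ) := by
  unfold H
  exact ((contDiff_G Φ).continuous_deriv (by norm_num)).neg

theorem tendsto_r : Tendsto r atTop (𝓝 0) := by
  have h1 : Tendsto (fun t : ℝ => Real.exp (-t)) atTop (𝓝 0) := by
    exact Real.tendsto_exp_neg_atTop_nhds_zero
  have h2 := (continuous_ofReal.tendsto 0).comp h1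
  rw [ofReal_zero] at h2
  exact h2

theorem H_isBigO_top (hΦ : ∑ a, Φ a = 0) (h0 : Φ 0 = 0) :
    H Φ =O[atTop] fun t : ℝ => Real.exp (-(1 : ℝ) * t) := by
  let J : ℂ → ℂ := fun z => ∑ a : ZMod N, Φ a * z ^ (a.val - 1) *
    (a.val / (1 - z ^ N) + N * (z ^ N / (1 - z ^ N) ^ 2))
  have hJ : ContinuousAt J 0 := by
    have hN : (1 : ℂ) - 0 ^ N ≠ 0 := by
      rw [zero_pow (NeZero.ne N)]; norm_num
    have hN2 : ((1 : ℂ) - 0 ^ N) ^ 2 ≠ 0 := pow_ne_zero _ hN
    apply tendsto_finsetSum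
    intro a _
    apply ContinuousAt.mul (by fun_prop)
    apply ContinuousAt.add
    · exact ContinuousAt.div (by fun_prop) (by fun_prop) hN
    · exact continuousAt_const.mul (ContinuousAt.div (by fun_prop) (by fun_prop) hN2)
  have h1 : Tendsto (fun t => J (r t)) atTop (𝓝 (J 0)) := hJ.tendsto.comp tendsto_r
  have h2 : H Φ =ᶠ[atTop] fun t => J (r t) * r t := by
    filter_upwards [eventually_gt_atTop 0] with t ht
    rw [H_eq Φ hΦ ht, K]
    simp only [J, Finset.sum_mul]
    apply Finset.sum_congr rfl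
    intro a _
    by_cases ha : a = 0
    · rw [ha, h0]; simp
    · have : a.val ≠ 0 := by rwa [Ne, ZMod.val_eq_zero]
      have h3 : r t ^ a.val = r t ^ (a.val - 1) * r t := by
        rw [← pow_succ, Nat.sub_add_cancel (Nat.pos_of_ne_zero this)]
      rw [h3]
      ring
  refine h2.trans_isBigO ?_
  have h3 : (fun t => J (r t) * r t) =O[atTop] fun t => (1 : ℝ) * ‖r t‖ :=
    h1.isBigO_one ℝ |>.mul (Asymptotics.isBigO_refl _ _).norm_right
  refine h3.congr_right fun t => ?_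
  rw [r, norm_real, Real.norm_eq_abs, abs_of_pos (Real.exp_pos _)]
  simp

theorem H_isBigO_zero : H Φ =O[𝓝[>] 0] fun t : ℝ => t ^ (-(0 : ℝ)) := by
  have h1 : Tendsto (H Φ) (𝓝[>] 0) (𝓝 (H Φ 0)) :=
    ((continuous_H Φ).tendsto 0).mono_left nhdsWithin_le_nhds
  simpa using h1.isBigO_one ℝ

theorem mellin_differentiableAt (hΦ : ∑ a, Φ a = 0) (h0 : Φ 0 = 0) {s : ℂ} (hs : 0 < s.re) :
    DifferentiableAt ℂ (mellin (H Φ)) s :=
  mellin_differentiableAt_of_isBigO_rpow_exp one_pos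
    ((continuous_H Φ).locallyIntegrable.locallyIntegrableOn _)
    (H_isBigO_top Φ hΦ h0) (H_isBigO_zero Φ) hs

theorem mellinConvergent (hΦ : ∑ a, Φ a = 0) (h0 : Φ 0 = 0) {s : ℂ} (hs : 0 < s.re) :
    MellinConvergent (H Φ) s :=
  mellinConvergent_of_isBigO_rpow_exp one_pos
    ((continuous_H Φ).locallyIntegrable.locallyIntegrableOn _)
    (H_isBigO_top Φ hΦ h0) (H_isBigO_zero Φ) hs

theorem tendsto_G (hΦ : ∑ a, Φ a = 0) (h0 : Φ 0 = 0) : Tendsto (G Φ) atTop (𝓝 0) := by
  have h1 : Tendsto (fun t => (∑ a : ZMod N, Φ a * r t ^ a.val) / (1 - r t ^ N)) atTop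
      (𝓝 ((∑ a : ZMod N, Φ a * 0 ^ a.val) / (1 - 0 ^ N))) := by
    apply Tendsto.div
    · exact tendsto_finsetSum _ fun a _ => (tendsto_r.pow _).const_mul _
    · exact (tendsto_r.pow _).const_sub _
    · rw [zero_pow (NeZero.ne N)]; norm_num
  have h2 : ∑ a : ZMod N, Φ a * (0 : ℂ) ^ a.val = 0 := by
    apply Finset.sum_eq_zero
    intro a _
    by_cases ha : a = 0
    · rw [ha, h0, zero_mul]
    · rw [zero_pow (by rwa [Ne, ZMod.val_eq_zero]), mul_zero]
  rw [h2, zero_div] at h1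
  refine h1.congr' ?_
  filter_upwards [eventually_gt_atTop 0] with t ht
  exact (G_eq Φ hΦ ht).symm

theorem mellin_one (hΦ : ∑ a, Φ a = 0) (h0 : Φ 0 = 0) : mellin (H Φ) 1 = G Φ 0 := by
  have hc := mellinConvergent Φ hΦ h0 (s := 1) (by simp)
  rw [MellinConvergent] at hc
  simp only [sub_self, cpow_zero, one_smul] at hc
  rw [mellin]
  simp only [sub_self, cpow_zero, one_smul]
  have h1 : ∀ x ∈ Ici (0 : ℝ), HasDerivAt (fun t => -G Φ t) (H Φ x) x := by
    intro x _
    exact (((contDiff_G Φ).differentiable (by norm_num)).differentiableAt.hasDerivAt).neg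
  have h2 := MeasureTheory.integral_Ioi_of_hasDerivAt_of_tendsto' h1 hc (tendsto_G Φ hΦ h0).neg
  rw [h2]
  simp

theorem mellin_eq (hΦ : ∑ a, Φ a = 0) {s : ℂ} (hs : 1 < s.re) :
    mellin (H Φ) (s + 1) = Gamma (s + 1) * ZMod.LFunction Φ s := by
  have h1 := hasSum_mellin (a := fun n : ℕ => (n : ℂ) * Φ n) (p := fun n : ℕ => (n : ℝ))
    (F := H Φ) (s := s + 1) (fun n => by
      rcases Nat.eq_zero_or_pos n with rfl | hn
      · left; simp
      · right; exact_mod_cast hn)
    (by simp; linarith) (fun t ht => hasSum_H Φ hΦ ht) ?_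
  · rw [← h1.tsum_eq, ZMod.LFunction_eq_LSeries Φ hs, LSeries, ← tsum_mul_left]
    apply tsum_congr
    intro n
    rcases Nat.eq_zero_or_pos n with rfl | hn
    · simp
    · rw [LSeries.term_of_ne_zero hn.ne']
      have hn' : (n : ℂ) ≠ 0 := by exact_mod_cast hn.ne'
      rw [ofReal_natCast, cpow_add _ _ hn', cpow_one]
      have : (n : ℂ) ^ s ≠ 0 := by simp [cpow_eq_zero_iff, hn']
      field_simp
  · have h2 := (ZMod.LSeriesSummable_of_one_lt_re Φ hs).norm
    refine h2.congr fun n => ?_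
    rcases Nat.eq_zero_or_pos n with rfl | hn
    · simp
    · rw [LSeries.term_of_ne_zero hn.ne', norm_div, norm_mul, norm_natCast,
        norm_natCast_cpow_of_pos hn]
      have hn' : (0 : ℝ) < n := by exact_mod_cast hn
      simp only [add_re, one_re]
      rw [Real.rpow_add hn', Real.rpow_one]
      field_simp

theorem LFunction_zero (hΦ : ∑ a, Φ a = 0) (h0 : Φ 0 = 0) :
    ZMod.LFunction Φ 0 = -(∑ a : ZMod N, Φ a * (a.val : ℂ)) / N := by
  let U : Set ℂ := {s | -1 < s.re}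
  have hU : IsOpen U := isOpen_lt continuous_const continuous_re
  have hconv : Convex ℝ U := convex_halfSpace_re_gt _
  have hf : AnalyticOnNhd ℂ (fun s => mellin (H Φ) (s + 1)) U := by
    apply DifferentiableOn.analyticOnNhd _ hU
    intro s hs
    apply DifferentiableAt.differentiableWithinAt
    have h1 : 0 < (s + 1).re := by
      simp only [add_re, one_re]
      have : -1 < s.re := hs
      linarith
    exact DifferentiableAt.comp (f := fun s : ℂ => s + 1) (g := mellin (H Φ)) s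
      (mellin_differentiableAt Φ hΦ h0 h1) (by fun_prop)
  have hg : AnalyticOnNhd ℂ (fun s => Gamma (s + 1) * ZMod.LFunction Φ s) U := by
    apply DifferentiableOn.analyticOnNhd _ hU
    intro s hs
    apply DifferentiableAt.differentiableWithinAt
    have h1 : 0 < (s + 1).re := by
      simp only [add_re, one_re]
      have : -1 < s.re := hs
      linarith
    apply DifferentiableAt.mul
    · have hG : DifferentiableAt ℂ Gamma (s + 1) := by
        apply differentiableAt_Gamma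
        intro m hm
        rw [hm, neg_re, natCast_re] at h1
        linarith [Nat.cast_nonneg (α := ℝ) m]
      exact DifferentiableAt.comp (f := fun s : ℂ => s + 1) (g := Gamma) s hG (by fun_prop)
    · exact ZMod.differentiableAt_LFunction Φ s (Or.inr hΦ)
  have h2 : (2 : ℂ) ∈ U := by simp [U]; norm_num
  have heq : (fun s => mellin (H Φ) (s + 1)) =ᶠ[𝓝 2]
      (fun s => Gamma (s + 1) * ZMod.LFunction Φ s) := by
    have : {s : ℂ | 1 < s.re} ∈ 𝓝 (2 : ℂ) :=
      (isOpen_lt continuous_const continuous_re).mem_nhds (by simp)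
    filter_upwards [this] with s hs
    exact mellin_eq Φ hΦ hs
  have h3 := hf.eqOn_of_preconnected_of_eventuallyEq hg hconv.isPreconnected h2 heq
    (show (0 : ℂ) ∈ U by simp [U])
  simp only [zero_add, Gamma_one, one_mul] at h3
  rw [← h3, mellin_one Φ hΦ h0, G_zero]

theorem sum_ne_zero {χ : DirichletCharacter ℂ N} (hχ : χ.IsPrimitive) (ho : χ.Odd) :
    ∑ a : ZMod N, χ a * (a.val : ℂ) ≠ 0 := by
  have hodd : χ (-1) = -1 := ho
  have h1 : χ ≠ 1 := by
    rintro rfl
    rw [MulChar.one_apply (isUnit_one.neg)] at hodd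
    norm_num at hodd
  have hi1 : χ⁻¹ ≠ 1 := inv_ne_one.2 h1
  have hN : N ≠ 1 := by
    rintro rfl
    exact h1 (DirichletCharacter.level_one χ)
  have hc1 : DirichletCharacter.completedLFunction χ 1 ≠ 0 := by
    intro h
    apply DirichletCharacter.LFunction_apply_one_ne_zero h1
    rw [DirichletCharacter.LFunction_eq_completed_div_gammaFactor χ 1 (Or.inr hN), h, zero_div]
  have hc2 : DirichletCharacter.completedLFunction χ⁻¹ 1 ≠ 0 := by
    intro h
    apply DirichletCharacter.LFunction_apply_one_ne_zero hi1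
    rw [DirichletCharacter.LFunction_eq_completed_div_gammaFactor χ⁻¹ 1 (Or.inr hN), h, zero_div]
  have hroot : DirichletCharacter.rootNumber χ ≠ 0 := by
    intro h
    have := hχ.completedLFunction_one_sub 0
    rw [sub_zero, h, mul_zero, zero_mul] at this
    exact hc1 this
  have hN0 : (N : ℂ) ≠ 0 := by exact_mod_cast NeZero.ne N
  have hc0 : DirichletCharacter.completedLFunction χ 0 ≠ 0 := by
    have := hχ.completedLFunction_one_sub 1
    rw [sub_self] at this
    rw [this]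
    refine mul_ne_zero (mul_ne_zero ?_ hroot) hc2
    rw [Ne, cpow_eq_zero_iff]
    tauto
  have hL0 : DirichletCharacter.LFunction χ 0 ≠ 0 := by
    rw [DirichletCharacter.LFunction_eq_completed_div_gammaFactor χ 0 (Or.inr hN),
      ho.gammaFactor_def, zero_add, Gammaℝ_one, div_one]
    exact hc0
  intro hsum
  apply hL0
  rw [DirichletCharacter.LFunction, LFunction_zero (fun a => χ a)
    (MulChar.sum_eq_zero_of_ne_one h1) (χ.map_zero' hN), hsum]
  simp

end Lval

theorem stLval : StLval := fun _ _ _ hχ ho => Lval.sum_ne_zero hχ ho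

end Pool.Agent.Lib.MP81632f.Diag
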