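import Pool.Agent.Lib.MP_81632f_ag.Diag.Stmts

/-!
# Nonvanishing of `∑ χ(a) a` for odd characters modulo prime powers (module B2)
-/

set_option autoImplicit false

namespace Pool.Agent.Lib.MP81632f.Diag

namespace LvalPP

open Finset

/-- sums over `ZMod N` as sums over `range N` -/
theorem sum_zmod (N : ℕ) [NeZero N] (g : ZMod N → ℂ) :
    ∑ a : ZMod N, g a = ∑ n ∈ range N, g (n : ZMod N) := by
  refine Finset.sum_nbij' (fun a => a.val) (fun n => (n : ZMod N)) ?_ ?_ ?_ ?_ ?_
  · intro a _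
    exact Finset.mem_range.2 (ZMod.val_lt a)
  · intro n _
    exact Finset.mem_univ _
  · intro a _
    exact ZMod.natCast_zmod_val a
  · intro n hn
    exact ZMod.val_natCast_of_lt (Finset.mem_range.1 hn)
  · intro a _
    rw [ZMod.natCast_zmod_val]

/-- the weighted sum of a character as a sum over `range N` -/
theorem sum_val (N : ℕ) [NeZero N] (χ : DirichletCharacter ℂ N) :
    ∑ a : ZMod N, χ a * (a.val : ℂ) = ∑ n ∈ range N, χ (n : ZMod N) * (n : ℂ) := by
  rw [sum_zmod N fun a => χ a * (a.val : ℂ)]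
  refine Finset.sum_congr rfl fun n hn => ?_
  rw [ZMod.val_natCast_of_lt (Finset.mem_range.1 hn)]

/-- weighted sums over `k` periods -/
theorem sum_periods (N : ℕ) [NeZero N] (χ : DirichletCharacter ℂ N) (hχ : χ ≠ 1) (k : ℕ) :
    ∑ n ∈ range (N * k), χ (n : ZMod N) * (n : ℂ) =
      k * ∑ n ∈ range N, χ (n : ZMod N) * (n : ℂ) := by
  have h0 : ∑ n ∈ range N, χ (n : ZMod N) = 0 := by
    rw [← sum_zmod N fun a => χ a]
    exact MulChar.sum_eq_zero_of_ne_one hχ
  induction k with
  | zero => simp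
  | succ k ih =>
    rw [Nat.mul_succ, Finset.sum_range_add, ih]
    have h1 : ∀ n ∈ range N, χ ((N * k + n : ℕ) : ZMod N) * ((N * k + n : ℕ) : ℂ) =
        ((N : ℂ) * k) * χ (n : ZMod N) + χ (n : ZMod N) * (n : ℂ) := by
      intro n _
      have : ((N * k + n : ℕ) : ZMod N) = (n : ZMod N) := by
        push_cast
        rw [ZMod.natCast_self, zero_mul, zero_add]
      rw [this]
      push_cast
      ring
    rw [Finset.sum_congr rfl h1, Finset.sum_add_distrib, ← Finset.mul_sum, h0, mul_zero, zero_add]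
    push_cast
    ring

end LvalPP

open LvalPP in
theorem stLvalPP (h : StLval) : StLvalPP := by
  intro ℓ A hℓ _ χ hodd
  have hN0 : χ.conductor ≠ 0 := DirichletCharacter.conductor_ne_zero χ
  have : NeZero χ.conductor := ⟨hN0⟩
  have hχ1 : χ ≠ 1 := by
    rintro rfl
    have h1 : (1 : DirichletCharacter ℂ (ℓ ^ A)) (-1) = -1 := hodd
    rw [MulChar.one_apply (isUnit_one.neg)] at h1
    norm_num at h1
  have hc1 : χ.conductor ≠ 1 := fun hc => hχ1 (DirichletCharacter.eq_one_iff_conductor_eq_one.2 hc)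
  obtain ⟨c, -, hc⟩ := (Nat.dvd_prime_pow hℓ).1 (DirichletCharacter.conductor_dvd_level χ)
  have hc0 : c ≠ 0 := by
    rintro rfl
    exact hc1 (by rw [hc, pow_zero])
  have hℓc : ℓ ∣ χ.conductor := by
    rw [hc]
    exact dvd_pow_self ℓ hc0
  set χ₀ := χ.primitiveCharacter with hχ₀
  have happ : ∀ n : ℕ, χ (n : ZMod (ℓ ^ A)) = χ₀ (n : ZMod χ.conductor) := by
    intro n
    by_cases hn : n.Coprime (ℓ ^ A)
    · have := DirichletCharacter.primitiveCharacter_apply_of_isCoprime (χ := χ) (a := (n : ℤ))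
        (by exact_mod_cast Nat.isCoprime_iff_coprime.2 hn)
      simpa using this.symm
    · have hA : A ≠ 0 := by
        rintro rfl
        exact hn (by rw [pow_zero]; exact Nat.coprime_one_right n)
      have hn' : ¬ n.Coprime ℓ := fun hcop => hn (hcop.pow_right A)
      have hnc : ¬ n.Coprime χ.conductor := fun hcop => hn' (hcop.coprime_dvd_right hℓc)
      rw [MulChar.map_nonunit χ (by rwa [ZMod.isUnit_iff_coprime]),
        MulChar.map_nonunit χ₀ (by rwa [ZMod.isUnit_iff_coprime])]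
  have hodd0 : χ₀.Odd := by
    have h1 := DirichletCharacter.primitiveCharacter_apply_of_isCoprime (χ := χ) (a := (-1 : ℤ))
      (isCoprime_one_left.neg_left)
    have h2 : χ (-1) = -1 := hodd
    show χ₀ (-1) = -1
    rw [hχ₀]
    push_cast at h1
    rw [h1, h2]
  have hne : χ₀ ≠ 1 := by
    intro hc
    have h1 : χ₀ (-1) = -1 := hodd0
    rw [hc, MulChar.one_apply (isUnit_one.neg)] at h1
    norm_num at h1
  obtain ⟨k, hk⟩ := DirichletCharacter.conductor_dvd_level χ
  have hk0 : (k : ℂ) ≠ 0 := by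
    have : k ≠ 0 := by
      rintro rfl
      rw [mul_zero] at hk
      exact pow_ne_zero A hℓ.ne_zero hk
    exact_mod_cast this
  rw [sum_val (ℓ ^ A) χ]
  have h2 : ∑ n ∈ Finset.range (ℓ ^ A), χ (n : ZMod (ℓ ^ A)) * (n : ℂ) =
      ∑ n ∈ Finset.range (χ.conductor * k), χ₀ (n : ZMod χ.conductor) * (n : ℂ) := by
    rw [← hk]
    exact Finset.sum_congr rfl fun n _ => by rw [happ n]
  rw [h2, sum_periods χ.conductor χ₀ hne k, ← sum_val χ.conductor χ₀]
  exact mul_ne_zero hk0 (h χ.conductor χ₀ χ.primitiveCharacter_isPrimitive hodd0)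

end Pool.Agent.Lib.MP81632f.Diag
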