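import Pool.Agent.Lib.MP_81632f_ag.Diag.New2
import Pool.Agent.Lib.MP_81632f_ag.Diag.Pow2
import Pool.Agent.Lib.MP_81632f_ag.Diag.Final2

/-!
# Several coprime degrees
-/

set_option autoImplicit false

noncomputable section

namespace Pool.Agent.Lib.MP81632f.Diag

open Finset

namespace Multi

open Crit Two Push Transfer New
open Red (ev dh_mem mul_quot quot_ne two_torsion)

variable {M : ℕ} [NeZero M] {p f : ℕ}

/-- functions which vanish at `0`, with support in a set -/
def Lev (M : ℕ) (P : ZMod M → Prop) : AddSubgroup (ZMod M → ℤ) where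
  carrier := {v | v 0 = 0 ∧ ∀ x, v x ≠ 0 → P x}
  add_mem' := by
    rintro a b ⟨ha, ha'⟩ ⟨hb, hb'⟩
    refine ⟨by rw [Pi.add_apply, ha, hb, add_zero], fun x hx => ?_⟩
    by_cases h : a x = 0
    · exact hb' x fun h' => hx (by rw [Pi.add_apply, h, h', add_zero])
    · exact ha' x h
  zero_mem' := ⟨rfl, fun x hx => absurd rfl hx⟩
  neg_mem' := by
    rintro a ⟨ha, ha'⟩
    exact ⟨by rw [Pi.neg_apply, ha, neg_zero], fun x hx => ha' x fun h => hx (by
      rw [Pi.neg_apply, h, neg_zero])⟩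

omit [NeZero M] in
theorem lev_ev {P : ZMod M → Prop} {x : ZMod M} (hx : x ≠ 0) (h : P x) : ev x ∈ Lev M P := by
  refine ⟨Pi.single_eq_of_ne hx.symm _, fun y hy => ?_⟩
  by_cases hxy : y = x
  · rw [hxy]; exact h
  · exact absurd (Pi.single_eq_of_ne hxy _) hy

omit [NeZero M] in
theorem odd_smul {d : ℕ} (hd : Odd d) {z : ZMod M} (h : 2 • z = 0) : d • z = z := by
  obtain ⟨k, rfl⟩ := hd
  rw [add_smul, one_smul, mul_comm 2 k, mul_smul, h, smul_zero, zero_add]

theorem saw_unit (t γ : (ZMod M)ˣ) (x : ZMod M) :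
    saw M p f ((γ * t : (ZMod M)ˣ) : ZMod M) x = saw M p f t ((γ : ZMod M) * x) := by
  unfold saw
  refine Finset.sum_congr rfl fun j _ => ?_
  have h : (p : ZMod M) ^ j * ((γ * t : (ZMod M)ˣ) : ZMod M) * x =
      (p : ZMod M) ^ j * (t : ZMod M) * ((γ : ZMod M) * x) := by
    rw [Units.val_mul]; ring
  rw [h]

/-- a unit which is `-1` at the level `A` and `1` at the level `B` -/
theorem exists_sign {A B : ℕ} (hA : A ∣ M) (hB : B ∣ M) (hcop : Nat.Coprime A B) :
    ∃ γ : (ZMod M)ˣ, (∀ x : ZMod M, A • x = 0 → (γ : ZMod M) * x = -x) ∧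
      ∀ x : ZMod M, B • x = 0 → (γ : ZMod M) * x = x := by
  have hM0 : 0 < M := NeZero.pos M
  have hA0 : 0 < A := Nat.pos_of_dvd_of_pos hA hM0
  have hB0 : 0 < B := Nat.pos_of_dvd_of_pos hB hM0
  obtain ⟨n, hn1, hn2⟩ := Nat.chineseRemainder hcop (A - 1) 1
  have hAn : A ∣ n + 1 := by
    have h1 : n + 1 ≡ A - 1 + 1 [MOD A] := hn1.add_right 1
    rw [Nat.sub_add_cancel hA0] at h1
    exact (Nat.modEq_zero_iff_dvd).mp (h1.trans ((Nat.modEq_zero_iff_dvd).mpr (dvd_refl A)))
  have hc1 : Nat.Coprime n A := by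
    rw [Nat.coprime_iff_gcd_eq_one]
    have h1 : Nat.gcd n A ∣ n := Nat.gcd_dvd_left _ _
    have h2 : Nat.gcd n A ∣ n + 1 := (Nat.gcd_dvd_right _ _).trans hAn
    have h3 := (Nat.dvd_add_right h1).mp h2
    exact Nat.dvd_one.mp h3
  have hc2 : Nat.Coprime n B := by
    have h1 := hn2.gcd_eq
    rw [Nat.Coprime, h1, Nat.gcd_one_left]
  have hAB : A * B ∣ M := hcop.mul_dvd_of_dvd_of_dvd hA hB
  obtain ⟨γ, hγ⟩ := ZMod.unitsMap_surjective hAB (ZMod.unitOfCoprime n (hc1.mul_right hc2))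
  have key : ∀ x : ZMod M, (A * B) • x = 0 → (γ : ZMod M) * x = (n : ZMod M) * x := fun x hx =>
    smul_eq_of_map hAB hx γ n (by rw [hγ, ZMod.coe_unitOfCoprime])
  refine ⟨γ, fun x hx => ?_, fun x hx => ?_⟩
  · rw [key x (by rw [mul_comm, mul_smul, hx, smul_zero])]
    obtain ⟨c, hc⟩ := hAn
    have h1 : ((n + 1 : ℕ) : ZMod M) * x = 0 := by
      rw [hc, mul_comm A c, Nat.cast_mul, mul_assoc, ← nsmul_eq_mul A x, hx, mul_zero]
    push_cast at h1
    linear_combination h1
  · rw [key x (by rw [mul_smul, hx, smul_zero])]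
    obtain ⟨c, hc⟩ := Nat.modEq_iff_dvd.mp hn2
    have h7 : (n : ℤ) = 1 - B * c := by
      push_cast at hc
      linarith
    have h8 : ((n : ℤ) : ZMod M) * x = x := by
      rw [h7]
      push_cast
      have h9 : (B : ZMod M) * x = 0 := by rw [← nsmul_eq_mul]; exact hx
      linear_combination -(c : ZMod M) * h9
    rw [Int.cast_natCast] at h8
    exact h8

/-- separation of two coprime levels -/
theorem sep_two (hB : StBasic) (hM : 1 < M) (hf : 0 < f) (hp : (p : ZMod M) ^ f = 1) {A B : ℕ}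
    (hA : A ∣ M) (hBM : B ∣ M) (hcop : Nat.Coprime A B) {a b : ZMod M → ℤ} (ha0 : a 0 = 0)
    (ha : ∀ x, a x ≠ 0 → A • x = 0) (hb : ∀ x, b x ≠ 0 → B • x = 0)
    (h : ∀ t : (ZMod M)ˣ, pair M p f t (a + b) = 0) (t : (ZMod M)ˣ) : pair M p f t a = 0 := by
  obtain ⟨γ, h1, h2⟩ := exists_sign hA hBM hcop
  have hneg := (hB M p f hM hf hp).2.2.2.1
  have ea : pair M p f (γ * t) a = -pair M p f t a := by
    change ∑ x, a x * saw M p f ((γ * t : (ZMod M)ˣ) : ZMod M) x = -∑ x, a x * saw M p f t x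
    rw [← Finset.sum_neg_distrib]
    refine Finset.sum_congr rfl fun x _ => ?_
    by_cases hx : a x = 0
    · rw [hx, zero_mul, zero_mul, neg_zero]
    · have hx0 : x ≠ 0 := by
        rintro rfl
        exact hx ha0
      rw [saw_unit, h1 x (ha x hx), hneg _ _ t.isUnit hx0]
      ring
  have eb : pair M p f (γ * t) b = pair M p f t b := by
    change ∑ x, b x * saw M p f ((γ * t : (ZMod M)ˣ) : ZMod M) x = ∑ x, b x * saw M p f t x
    refine Finset.sum_congr rfl fun x _ => ?_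
    by_cases hx : b x = 0
    · rw [hx, zero_mul, zero_mul]
    · rw [saw_unit, h2 x (hb x hx)]
  have h3 := h t
  have h4 := h (γ * t)
  rw [map_add] at h3 h4
  rw [ea, eb] at h4
  linarith

/-- one level -/
theorem level (hB : StBasic) (hM : 1 < M) (hf : 0 < f) (hp : (p : ZMod M) ^ f = 1) {N : ℕ}
    [NeZero N] (hNM : N ∣ M) (hLP : LP N p f) {v : ZMod M → ℤ} (hv : v ∈ Inc M N)
    (hvb : ∀ t : (ZMod M)ˣ, pair M p f t v = 0) : ∃ z ∈ SS M p f, v - z ∈ Sub M p f := by
  obtain ⟨w, hw0, rfl⟩ := hv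
  have hw0' : w 0 = 0 := hw0
  by_cases hN1 : N = 1
  · have hw : w = 0 := by
      funext x
      have hx : x = 0 := by
        subst hN1
        exact Subsingleton.elim _ _
      rw [hx, hw0', Pi.zero_apply]
    refine ⟨0, zero_mem _, ?_⟩
    rw [hw, map_zero, sub_zero]
    exact zero_mem _
  have hN : 1 < N := by
    have := NeZero.pos N
    omega
  have hpN : (p : ZMod N) ^ f = 1 := by
    have h1 := congrArg (ZMod.castHom hNM (ZMod N)) hp
    rw [map_pow, map_natCast, map_one] at h1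
    exact h1
  have hwb : ∀ t : (ZMod N)ˣ, pair N p f t w = 0 := bal_of_push hNM hvb
  by_cases hwe : Even (tot N w)
  · refine ⟨0, zero_mem _, ?_⟩
    rw [sub_zero]
    exact push_sub hNM (lp_fun hB hN hf hpN hLP hw0' hwb hwe)
  have hex : ∃ x₀ : ZMod N, SSel N p f x₀ := by
    by_contra hno
    push Not at hno
    rcases Nat.even_or_odd N with hE | hO
    · have h2N : 2 ∣ N := even_iff_two_dvd.mp hE
      have hc := quot_ne (M := N) Nat.prime_two h2N (j := 1) (by norm_num) (by norm_num)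
      refine hno _ (ss_of_two hf hpN hc ?_)
      rw [Nat.cast_one, one_mul, nsmul_eq_mul]
      exact mul_quot h2N
    · exact hwe (even_tot hO hf hpN hno hwb)
  obtain ⟨x₀, hx₀, hsx⟩ := hex
  refine ⟨ev (inc M N x₀), ss_mem ⟨inc_ne hNM hx₀, fun t => by rw [saw_inc hNM, hsx, mul_zero]⟩, ?_⟩
  rw [← push_ev, ← map_sub]
  refine push_sub hNM (lp_fun hB hN hf hpN hLP ?_ ?_ ?_)
  · have h2 : (ev x₀ : ZMod N → ℤ) 0 = 0 := Pi.single_eq_of_ne hx₀.symm _
    rw [Pi.sub_apply, hw0', h2, sub_zero]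
  · intro t
    rw [map_sub, hwb, pair_ev, hsx t, sub_zero]
  · rw [map_sub, tot_ev, Int.even_sub]
    simp [hwe]

theorem prod_dvd {M : ℕ} (D : Finset ℕ) (hD : ∀ d ∈ D, d ∣ M)
    (hcop : ∀ d ∈ D, ∀ e ∈ D, d ≠ e → Nat.Coprime d e) : ∏ d ∈ D, d ∣ M := by
  classical
  induction D using Finset.induction_on with
  | empty => rw [Finset.prod_empty]; exact one_dvd _
  | insert a D ha ih =>
    rw [Finset.prod_insert ha]
    refine Nat.Coprime.mul_dvd_of_dvd_of_dvd ?_ (hD a (Finset.mem_insert_self _ _))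
      (ih (fun d hd => hD d (Finset.mem_insert_of_mem hd))
        fun d hd e he => hcop d (Finset.mem_insert_of_mem hd) e (Finset.mem_insert_of_mem he))
    refine Nat.Coprime.prod_right fun e he => hcop a (Finset.mem_insert_self _ _) e
      (Finset.mem_insert_of_mem he) ?_
    rintro rfl
    exact ha he

/-- several levels -/
theorem levels (hB : StBasic) (hM : 1 < M) (hf : 0 < f) (hp : (p : ZMod M) ^ f = 1)
    (D : Finset ℕ) (hD : ∀ d ∈ D, ∃ N : ℕ, d ∣ N ∧ N ∣ M ∧ LP N p f)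
    (hcop : ∀ d ∈ D, ∀ e ∈ D, d ≠ e → Nat.Coprime d e) {v : ZMod M → ℤ} (hv0 : v 0 = 0)
    (hv : ∀ x, v x ≠ 0 → ∃ d ∈ D, d • x = 0) (hvb : ∀ t : (ZMod M)ˣ, pair M p f t v = 0) :
    ∃ z ∈ SS M p f, v - z ∈ Sub M p f := by
  classical
  induction D using Finset.induction_on generalizing v with
  | empty =>
    have h0 : v = 0 := by
      funext x
      by_contra h
      obtain ⟨d, hd, -⟩ := hv x h
      exact absurd hd (Finset.notMem_empty d)
    refine ⟨0, zero_mem _, ?_⟩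
    rw [h0, sub_zero]
    exact zero_mem _
  | insert d D hd ih =>
    let a : ZMod M → ℤ := fun x => if d • x = 0 then v x else 0
    let b : ZMod M → ℤ := fun x => if d • x = 0 then 0 else v x
    have hab : a + b = v := by
      funext x
      change (if d • x = 0 then v x else 0) + (if d • x = 0 then 0 else v x) = v x
      split_ifs <;> simp
    have ha0 : a 0 = 0 := by
      change (if d • (0 : ZMod M) = 0 then v 0 else 0) = 0
      rw [hv0, ite_self]
    have ha : ∀ x, a x ≠ 0 → d • x = 0 := by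
      intro x hx
      by_contra h
      exact hx (if_neg h)
    have hb0 : b 0 = 0 := by
      change (if d • (0 : ZMod M) = 0 then 0 else v 0) = 0
      rw [hv0, ite_self]
    have hb : ∀ x, b x ≠ 0 → ∃ e ∈ D, e • x = 0 := by
      intro x hx
      have h1 : ¬ d • x = 0 := fun h => hx (if_pos h)
      have h2 : v x ≠ 0 := fun h => hx (by
        change (if d • x = 0 then 0 else v x) = 0
        rw [if_neg h1, h])
      obtain ⟨e, he, h3⟩ := hv x h2
      rcases Finset.mem_insert.mp he with rfl | he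
      · exact absurd h3 h1
      · exact ⟨e, he, h3⟩
    have hcopD : ∀ e ∈ D, Nat.Coprime d e := fun e he => hcop d (Finset.mem_insert_self _ _) e
      (Finset.mem_insert_of_mem he) (by rintro rfl; exact hd he)
    obtain ⟨N, hdN, hNM, hLP⟩ := hD d (Finset.mem_insert_self _ _)
    have hdvd : ∀ e ∈ D, e ∣ M := by
      intro e he
      obtain ⟨N', h1, h2, -⟩ := hD e (Finset.mem_insert_of_mem he)
      exact h1.trans h2
    have hcop' : ∀ d ∈ D, ∀ e ∈ D, d ≠ e → Nat.Coprime d e := fun d hd e he =>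
      hcop d (Finset.mem_insert_of_mem hd) e (Finset.mem_insert_of_mem he)
    have hab' : ∀ t : (ZMod M)ˣ, pair M p f t (a + b) = 0 := by rw [hab]; exact hvb
    have hA : ∀ t : (ZMod M)ˣ, pair M p f t a = 0 :=
      sep_two hB hM hf hp (hdN.trans hNM) (prod_dvd D hdvd hcop')
        (Nat.Coprime.prod_right hcopD) ha0 ha (fun x hx => by
          obtain ⟨e, he, h1⟩ := hb x hx
          obtain ⟨c, hc⟩ := Finset.dvd_prod_of_mem (fun e => e) he
          rw [hc, mul_comm, mul_smul, h1, smul_zero]) hab'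
    have hBb : ∀ t : (ZMod M)ˣ, pair M p f t b = 0 := by
      intro t
      have h1 := hab' t
      rw [map_add, hA t, zero_add] at h1
      exact h1
    have : NeZero N := ⟨by
      rintro rfl
      exact NeZero.ne M (zero_dvd_iff.mp hNM)⟩
    have hinc : a ∈ Inc M N := by
      rw [sum_ev a]
      refine AddSubgroup.sum_mem _ fun x _ => ?_
      by_cases hx : a x = 0
      · rw [hx, zero_smul]
        exact zero_mem _
      · refine AddSubgroup.zsmul_mem _ (inc_of_smul hNM ?_ ?_) _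
        · rintro rfl
          exact hx ha0
        · obtain ⟨c, hc⟩ := hdN
          rw [hc, mul_comm, mul_smul, ha x hx, smul_zero]
    obtain ⟨z1, hz1, h1⟩ := level hB hM hf hp hNM hLP hinc hA
    obtain ⟨z2, hz2, h2⟩ := ih (fun e he => hD e (Finset.mem_insert_of_mem he)) hcop' hb0 hb hBb
    refine ⟨z1 + z2, add_mem hz1 hz2, ?_⟩
    have h3 : v - (z1 + z2) = (a - z1) + (b - z2) := by
      rw [← hab]; abel
    rw [h3]
    exact add_mem h1 h2

/-- several coprime levels and their doubles -/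
theorem lp_multi (hB : StBasic) (hM : 1 < M) (hf : 0 < f) (hp : (p : ZMod M) ^ f = 1)
    (D : Finset ℕ) (hD : ∀ d ∈ D, ∃ N : ℕ, d ∣ N ∧ N ∣ M ∧ LP N p f)
    (hcop : ∀ d ∈ D, ∀ e ∈ D, d ≠ e → Nat.Coprime d e) {v : ZMod M → ℤ} (hv0 : v 0 = 0)
    (hv : ∀ x, v x ≠ 0 → ∃ d ∈ D, d • x = 0 ∨ (Odd d ∧ (2 * d) • x = 0))
    (hvb : ∀ t : (ZMod M)ˣ, pair M p f t v = 0) (he : Even (tot M v)) : v ∈ Sub M p f := by
  set L := Lev M (fun x => ∃ d ∈ D, d • x = 0) with hL
  let W : AddSubgroup (ZMod M → ℤ) := Sub M p f ⊔ SS M p f ⊔ L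
  have hSW : Sub M p f ≤ W := le_sup_left.trans le_sup_left
  have hZW : SS M p f ≤ W := le_sup_right.trans le_sup_left
  have hLW : L ≤ W := le_sup_right
  have hmem : ∀ x : ZMod M, v x ≠ 0 → ev x ∈ W := by
    intro x hx
    have hx0 : x ≠ 0 := by
      rintro rfl
      exact hx hv0
    obtain ⟨d, hd, h | ⟨hdo, h⟩⟩ := hv x hx
    · exact hLW (lev_ev hx0 ⟨d, hd, h⟩)
    by_cases hc0 : d • x = 0
    · exact hLW (lev_ev hx0 ⟨d, hd, hc0⟩)
    have h2c : 2 • (d • x) = 0 := by rw [← mul_smul]; exact h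
    have h2M : 2 ∣ M := by
      have h1 : addOrderOf (d • x) = 2 := addOrderOf_eq_prime h2c hc0
      rw [← h1]
      exact order_dvd _
    have hcW : ev (d • x) ∈ W := hZW (ss_mem (ss_of_two hf hp hc0 h2c))
    have hdy : d • (x + d • x) = 0 := by
      rw [smul_add, odd_smul hdo h2c, ← two_smul ℕ (d • x)]
      exact h2c
    have hxy : x + d • x + d • x = x := by
      rw [add_assoc, ← two_smul ℕ (d • x), h2c, add_zero]
    by_cases hy0 : x + d • x = 0
    · rw [hy0, zero_add] at hxy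
      rw [← hxy]
      exact hcW
    have h2y : ((2 : ℕ) : ZMod M) * (x + d • x) ≠ 0 := by
      intro h1
      rw [← nsmul_eq_mul] at h1
      exact hy0 (by rw [← odd_smul hdo h1]; exact hdy)
    have h4 := dh_mem (p := p) (f := f) Nat.prime_two h2M (y := x + d • x) h2y
    have hs2 : ∑ j ∈ range 2, ev (x + d • x + (j : ZMod M) * ((M / 2 : ℕ) : ZMod M)) =
        ev (x + d • x) + ev (x + d • x + ((M / 2 : ℕ) : ZMod M)) := by
      rw [sum_range_succ, sum_range_one, Nat.cast_zero, zero_mul, add_zero, Nat.cast_one, one_mul]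
    have hs1 : ∑ j ∈ range (2 - 1), ev (((j + 1 : ℕ) : ZMod M) * ((M / 2 : ℕ) : ZMod M)) =
        ev ((M / 2 : ℕ) : ZMod M) := by
      rw [show 2 - 1 = 1 from rfl, sum_range_one, zero_add, Nat.cast_one, one_mul]
    rw [hs2, hs1, ← two_torsion h2M h2c hc0, hxy] at h4
    have hyL : ev (x + d • x) ∈ W := hLW (lev_ev hy0 ⟨d, hd, hdy⟩)
    have h2yL : ev (-(((2 : ℕ) : ZMod M) * (x + d • x))) ∈ W :=
      hLW (lev_ev (neg_ne_zero.mpr h2y) ⟨d, hd, by
        rw [smul_neg, ← nsmul_eq_mul, smul_comm, hdy, smul_zero, neg_zero]⟩)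
    have h5 : ev x = (ev (x + d • x) + ev x + ev (-(((2 : ℕ) : ZMod M) * (x + d • x))) +
        ev (d • x)) - ev (x + d • x) - ev (-(((2 : ℕ) : ZMod M) * (x + d • x))) - ev (d • x) := by
      abel
    rw [h5]
    exact sub_mem (sub_mem (sub_mem (hSW h4) hyL) h2yL) hcW
  have hvW : v ∈ W := by
    rw [sum_ev v]
    refine AddSubgroup.sum_mem _ fun x _ => ?_
    by_cases hx : v x = 0
    · rw [hx, zero_smul]
      exact zero_mem _
    · exact AddSubgroup.zsmul_mem _ (hmem x hx) _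
  obtain ⟨y, hy, v', hv', hyv⟩ := AddSubgroup.mem_sup.mp hvW
  obtain ⟨s, hs, z, hz, hsz⟩ := AddSubgroup.mem_sup.mp hy
  have hb' : ∀ t : (ZMod M)ˣ, pair M p f t v' = 0 := by
    intro t
    have h1 := hvb t
    rw [← hyv, ← hsz, map_add, map_add, pair_sub hB hM hf hp t hs, pair_ss t hz, zero_add,
      zero_add] at h1
    exact h1
  obtain ⟨z', hz', h1⟩ := levels hB hM hf hp D hD hcop hv'.1 hv'.2 hb'
  have h2 : v = s + (v' - z') + (z + z') := by
    rw [← hyv, ← hsz]; abel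
  have h3 : s + (v' - z') ∈ Sub M p f := add_mem hs h1
  have h4 : Even (tot M (z + z')) := by
    rw [h2, map_add] at he
    exact (Int.even_add.mp he).mp (tot_sub hB hM hf hp h3)
  rw [h2]
  exact add_mem h3 (ss_even hB hM hf hp (add_mem hz hz') h4)

end Multi

open Multi in
/-- The theorem for several coprime degrees. -/
theorem final_multi (hB : StBasic) (hT : StTrans) (hC : StClose) {p : ℕ} [Fact p.Prime] {F : Type}
    [Field F] [Fintype F] [CharP F p] {ψ : AddChar F ℂ} (hψ : ψ ≠ 1)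
    {𝒜 : Set (Multiset (MulChar F ℂ))} (h𝒜 : IsCycleFamily ψ 𝒜) {s : Multiset (MulChar F ℂ)}
    (hs : IsTateSet ψ s) (hev : Even (Multiset.card s)) (D : Finset ℕ)
    (hD : ∀ d ∈ D, ∃ N : ℕ, d ∣ N ∧ N ∣ Fintype.card F - 1 ∧ LPA N p)
    (hcop : ∀ d ∈ D, ∀ e ∈ D, d ≠ e → Nat.Coprime d e)
    (h : ∀ χ ∈ s, ∃ d ∈ D, χ ^ d = 1 ∨ (Odd d ∧ χ ^ (2 * d) = 1)) : s ∈ 𝒜 := by
  obtain ⟨n, -, hcard⟩ := FiniteField.card F p
  obtain ⟨f, hf⟩ := n
  change Fintype.card F = p ^ f at hcard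
  have hq : 1 < Fintype.card F := Fintype.one_lt_card
  by_cases hM1 : Fintype.card F - 1 = 1
  · -- two elements
    have hs0 : s = 0 := by
      rw [Multiset.eq_zero_iff_forall_notMem]
      intro χ hχ
      obtain ⟨θ, hθ, hgen⟩ := Final.exists_gen (F := F)
      rw [hM1, orderOf_eq_one_iff] at hθ
      obtain ⟨k, hk⟩ := hgen χ
      exact hs.1 χ hχ (by rw [hk, hθ, one_pow])
    rw [hs0]
    exact h𝒜.zero
  · obtain ⟨θ, hθ, hgen⟩ := Final.exists_gen (F := F)
    have : NeZero (Fintype.card F - 1) := ⟨by omega⟩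
    obtain ⟨X, hX'⟩ := Final.exists_map (Fintype.card F - 1) θ hθ s fun χ _ => hgen χ
    have h0 : (0 : ZMod (Fintype.card F - 1)) ∉ X := by
      intro h0
      apply hs.1 1 _ rfl
      rw [hX', Multiset.mem_map]
      exact ⟨0, h0, by rw [ZMod.val_zero, pow_zero]⟩
    have hb : BalM (Fintype.card F - 1) p f X :=
      hT p F f hcard _ θ hθ ψ hψ X (by rw [← hX']; exact hs)
    have he : Even (Multiset.card X) := by
      rw [hX', Multiset.card_map] at hev
      exact hev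
    have hpf : (p : ZMod (Fintype.card F - 1)) ^ f = 1 := by
      have h1 : ((Fintype.card F - 1 + 1 : ℕ) : ZMod (Fintype.card F - 1)) = 1 := by
        rw [Nat.cast_add, ZMod.natCast_self, zero_add, Nat.cast_one]
      rw [← Nat.cast_pow, ← hcard]
      rw [Nat.sub_add_cancel hq.le] at h1
      exact h1
    have hpow : ∀ (x : ZMod (Fintype.card F - 1)) (d : ℕ), (θ ^ x.val) ^ d = 1 → d • x = 0 := by
      intro x d hd
      rw [← pow_mul] at hd
      have h1 := orderOf_dvd_of_pow_eq_one hd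
      rw [hθ] at h1
      have h2 := (ZMod.natCast_eq_zero_iff (x.val * d) (Fintype.card F - 1)).mpr h1
      rw [Nat.cast_mul, ZMod.natCast_zmod_val, mul_comm, ← nsmul_eq_mul] at h2
      exact h2
    rw [hX']
    refine hC p F f hcard _ θ hθ ψ hψ 𝒜 h𝒜 X h0 ?_
    refine lp_multi hB (by omega) hf hpf D ?_ hcop (Basic.cnt_apply_zero h0) ?_ ?_ ?_
    · intro d hd
      obtain ⟨N, h1, h2, h3⟩ := hD d hd
      refine ⟨N, h1, h2, h3 f hf ?_⟩
      have h4 := congrArg (ZMod.castHom h2 (ZMod N)) hpf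
      rw [map_pow, map_natCast, map_one] at h4
      exact h4
    · intro x hx
      have hxX : x ∈ X := by
        by_contra hn
        apply hx
        change ((X.count x : ℕ) : ℤ) = 0
        rw [Multiset.count_eq_zero_of_notMem hn, Nat.cast_zero]
      have hχ : θ ^ x.val ∈ s := by
        rw [hX', Multiset.mem_map]
        exact ⟨x, hxX, rfl⟩
      obtain ⟨d, hd, h1 | ⟨h1, h2⟩⟩ := h _ hχ
      · exact ⟨d, hd, Or.inl (hpow x d h1)⟩
      · exact ⟨d, hd, Or.inr ⟨h1, hpow x (2 * d) h2⟩⟩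
    · intro t
      change ∑ x, cnt X x * saw (Fintype.card F - 1) p f t x = 0
      rw [Basic.sum_cnt_mul]
      exact hb t
    · change Even (∑ x, cnt X x)
      rw [Basic.sum_cnt]
      exact_mod_cast he

end Pool.Agent.Lib.MP81632f.Diag
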