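import Pool.Agent.Lib.MP_81632f_ag.Diag.Iter

/-!
# A new prime
-/

set_option autoImplicit false

noncomputable section

namespace Pool.Agent.Lib.MP81632f.Diag

open Finset

namespace New

open Crit Two Push Transfer
open Red (ev dh_mem mul_quot quot_ne two_torsion)

section Level

variable {M : ℕ} [NeZero M] {p f : ℕ}

/-- functions on the units -/
def Phi (c : (ZMod M)ˣ → ℤ) : ZMod M → ℤ := ∑ g, c g • ev (g : ZMod M)

theorem phi_pair (t : (ZMod M)ˣ) (c : (ZMod M)ˣ → ℤ) :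
    pair M p f t (Phi c) = ∑ g, c g * saw M p f t (g : ZMod M) := by
  unfold Phi
  rw [map_sum]
  refine Finset.sum_congr rfl fun g _ => ?_
  rw [map_zsmul, pair_ev, smul_eq_mul]

theorem top_phi {v : ZMod M → ℤ} (hv : v ∈ Top M 1) : ∃ c, v = Phi c := by
  classical
  induction hv using AddSubgroup.closure_induction with
  | mem v hv =>
    obtain ⟨t, rfl⟩ := hv
    refine ⟨fun g => if g = t then 1 else 0, ?_⟩
    unfold Phi
    rw [Finset.sum_eq_single t]
    · beta_reduce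
      rw [if_pos rfl, one_smul, one_mul]
    · intro b _ hb
      beta_reduce
      rw [if_neg hb, zero_smul]
    · intro h
      exact absurd (Finset.mem_univ _) h
  | zero => exact ⟨0, by simp [Phi]⟩
  | add v w _ _ hv hw =>
    obtain ⟨a, rfl⟩ := hv
    obtain ⟨b, rfl⟩ := hw
    exact ⟨a + b, by simp [Phi, add_smul, Finset.sum_add_distrib]⟩
  | neg v _ hv =>
    obtain ⟨a, rfl⟩ := hv
    exact ⟨-a, by simp [Phi, neg_smul, Finset.sum_neg_distrib]⟩

open Classical in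
/-- the powers of `u` -/
def ZZ (u : (ZMod M)ˣ) : Finset (ZMod M)ˣ := univ.filter fun h => h ∈ Subgroup.zpowers u

theorem mem_zz {u h : (ZMod M)ˣ} : h ∈ ZZ u ↔ h ∈ Subgroup.zpowers u := by
  unfold ZZ
  rw [mem_filter]
  exact ⟨fun h => h.2, fun h => ⟨mem_univ _, h⟩⟩

/-- the class sums with signs -/
def DD (u : (ZMod M)ˣ) (c : (ZMod M)ˣ → ℤ) (g : (ZMod M)ˣ) : ℤ :=
  ∑ h ∈ ZZ u, (c (h * g) - c (-(h * g)))

theorem dd_u (u : (ZMod M)ˣ) (c : (ZMod M)ˣ → ℤ) (g : (ZMod M)ˣ) :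
    DD u c (u * g) = DD u c g := by
  unfold DD
  refine Finset.sum_equiv (Equiv.mulRight u) ?_ ?_
  · intro h
    rw [mem_zz, mem_zz, Equiv.coe_mulRight]
    exact (Subgroup.mul_mem_cancel_right _ (Subgroup.mem_zpowers u)).symm
  · intro h _
    rw [Equiv.coe_mulRight, mul_assoc]

theorem dd_neg (u : (ZMod M)ˣ) (c : (ZMod M)ˣ → ℤ) (g : (ZMod M)ˣ) :
    DD u c (-1 * g) = -DD u c g := by
  unfold DD
  rw [← Finset.sum_neg_distrib]
  refine Finset.sum_congr rfl fun h _ => ?_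
  have h1 : h * (-1 * g) = -(h * g) := by rw [neg_one_mul, mul_neg]
  rw [h1, neg_neg]
  ring

theorem ev_u (hB : StBasic) (hM : 1 < M) (hf : 0 < f) (hp : (p : ZMod M) ^ f = 1)
    (u : (ZMod M)ˣ) (hu : (u : ZMod M) = p) {h : (ZMod M)ˣ} (hh : h ∈ Subgroup.zpowers u)
    (x : ZMod M) (hx : x ≠ 0) : ev ((h : ZMod M) * x) - ev x ∈ Sub M p f := by
  obtain ⟨n, hn⟩ := (mem_powers_iff_mem_zpowers).mpr hh
  have hn' : u ^ n = h := hn
  subst hn'
  clear hn hh
  induction n with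
  | zero => rw [pow_zero, Units.val_one, one_mul, sub_self]; exact zero_mem _
  | succ n ih =>
    have h1 : ((u ^ (n + 1) : (ZMod M)ˣ) : ZMod M) * x =
        (p : ZMod M) * (((u ^ n : (ZMod M)ˣ) : ZMod M) * x) := by
      rw [pow_succ', Units.val_mul, hu, mul_assoc]
    have h2 := (hB M p f hM hf hp).2.1 (((u ^ n : (ZMod M)ˣ) : ZMod M) * x)
      (fun h => hx ((Units.mul_right_eq_zero (u ^ n)).1 h))
    rw [h1]
    have h3 := add_mem h2 ih
    rw [sub_add_sub_cancel] at h3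
    exact h3

theorem saw_u (hp : (p : ZMod M) ^ f = 1)
    (u : (ZMod M)ˣ) (hu : (u : ZMod M) = p) {h : (ZMod M)ˣ} (hh : h ∈ Subgroup.zpowers u)
    (t x : ZMod M) : saw M p f t ((h : ZMod M) * x) = saw M p f t x := by
  obtain ⟨n, hn⟩ := (mem_powers_iff_mem_zpowers).mpr hh
  have hn' : u ^ n = h := hn
  rw [← hn', Units.val_pow_eq_pow_val, hu]
  exact saw_pow hp t x n

omit [NeZero M] in
theorem unit_ne (hM : 1 < M) (g : (ZMod M)ˣ) : (g : ZMod M) ≠ 0 := by
  have : Fact (1 < M) := ⟨hM⟩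
  exact g.ne_zero

/-- multiplication by an element of `KK` is a sign -/
theorem dd_sign (hM : 1 < M) (hf : 0 < f) (hp : (p : ZMod M) ^ f = 1)
    (u : (ZMod M)ˣ) (hu : (u : ZMod M) = p) {k : (ZMod M)ˣ} (hk : k ∈ KK u) :
    ∃ e : ℤ, e * e = 1 ∧ (∀ c g, DD u c (k * g) = e * DD u c g) ∧
      ∀ t g : (ZMod M)ˣ, saw M p f t ((k * g : (ZMod M)ˣ) : ZMod M) = e * saw M p f t g := by
  induction hk using Subgroup.closure_induction with
  | mem k hk =>
    rcases hk with rfl | hk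
    · refine ⟨1, by norm_num, fun c g => ?_, fun t g => ?_⟩
      · rw [dd_u, one_mul]
      · rw [Units.val_mul, hu, Basic.saw_p hp, one_mul]
    · rw [Set.mem_singleton_iff] at hk
      subst hk
      refine ⟨-1, by norm_num, fun c g => ?_, fun t g => ?_⟩
      · rw [dd_neg]; ring
      · rw [neg_one_mul, Units.val_neg, Basic.saw_neg hf hp t.isUnit (unit_ne hM g)]
        ring
  | one => exact ⟨1, by norm_num, fun c g => by rw [one_mul, one_mul], fun t g => by
      rw [one_mul, one_mul]⟩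
  | mul k l _ _ hk hl =>
    obtain ⟨e, he, h1, h2⟩ := hk
    obtain ⟨e', he', h1', h2'⟩ := hl
    refine ⟨e * e', ?_, fun c g => ?_, fun t g => ?_⟩
    · linear_combination e' * e' * he + he'
    · rw [mul_assoc, h1, h1']; ring
    · rw [mul_assoc, h2, h2']; ring
  | inv k _ hk =>
    obtain ⟨e, he, h1, h2⟩ := hk
    refine ⟨e, he, fun c g => ?_, fun t g => ?_⟩
    · have h3 := h1 c (k⁻¹ * g)
      rw [mul_inv_cancel_left] at h3
      rw [h3, ← mul_assoc, he, one_mul]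
    · have h3 := h2 t (k⁻¹ * g)
      rw [mul_inv_cancel_left] at h3
      rw [h3, ← mul_assoc, he, one_mul]

/-- independence -/
theorem indepD (hB : StBasic) (hR : StRankTwo) (hM : 1 < M) (hf : 0 < f)
    (hp : (p : ZMod M) ^ f = 1)
    (u : (ZMod M)ˣ) (hu : (u : ZMod M) = p) (hneg : (-1 : (ZMod M)ˣ) ∉ Subgroup.zpowers u)
    (hW : ∀ x : ZMod M, x ≠ 0 → (2 : ℤ) • ev x ∈ WW M p f)
    {c : (ZMod M)ˣ → ℤ} (hc : ∀ t : (ZMod M)ˣ, pair M p f t (Phi c) = 0) (g : (ZMod M)ˣ) :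
    DD u c g = 0 := by
  classical
  have : Fact (1 < M) := ⟨hM⟩
  have hne1 : (1 : ZMod M) ≠ 0 := one_ne_zero
  let a : (ZMod M)ˣ ⧸ KK u → ℤ := fun i =>
    ((univ.filter fun g : (ZMod M)ˣ => (QuotientGroup.mk g : (ZMod M)ˣ ⧸ KK u) = i).card : ℤ) *
      DD u c (rp u i)
  -- representatives
  have hrep : ∀ g : (ZMod M)ˣ, ∃ k ∈ KK u, g = k * rp u (QuotientGroup.mk g) := by
    intro g
    obtain ⟨k, hk⟩ := QuotientGroup.mk_out_eq_mul (KK u) g
    refine ⟨(k : (ZMod M)ˣ)⁻¹, (KK u).inv_mem k.2, ?_⟩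
    have h2 : rp u (QuotientGroup.mk g) = g * (k : (ZMod M)ˣ) := hk
    rw [h2, mul_comm g, inv_mul_cancel_left]
  have ha : a = 0 := by
    refine indep_two hB hR hM hf hp u hu hneg hne1 hW a fun t => ?_
    have h1 : ∀ i, a i * saw M p f t (1 * ((rp u i : (ZMod M)ˣ) : ZMod M)) =
        ∑ g ∈ univ.filter fun g : (ZMod M)ˣ => (QuotientGroup.mk g : (ZMod M)ˣ ⧸ KK u) = i,
          DD u c g * saw M p f t (g : ZMod M) := by
      intro i
      have h2 : ∀ g ∈ univ.filter fun g : (ZMod M)ˣ =>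
          (QuotientGroup.mk g : (ZMod M)ˣ ⧸ KK u) = i,
          DD u c g * saw M p f t (g : ZMod M) =
            DD u c (rp u i) * saw M p f t ((rp u i : (ZMod M)ˣ) : ZMod M) := by
        intro g hg
        rw [mem_filter] at hg
        obtain ⟨k, hk, hgk⟩ := hrep g
        rw [hg.2] at hgk
        obtain ⟨e, he, h3, h4⟩ := dd_sign hM hf hp u hu hk
        rw [hgk, h3, h4]
        linear_combination DD u c (rp u i) * saw M p f t ((rp u i : (ZMod M)ˣ) : ZMod M) * he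
      rw [Finset.sum_congr rfl h2, Finset.sum_const, nsmul_eq_mul, one_mul]
      change _ * _ * _ = _
      ring
    rw [Finset.sum_congr rfl fun i _ => h1 i, Finset.sum_fiberwise]
    have h2 : ∀ h ∈ ZZ u, ∑ g : (ZMod M)ˣ, (c (h * g) - c (-(h * g))) * saw M p f t (g : ZMod M) =
        0 := by
      intro h hh
      rw [mem_zz] at hh
      let F : (ZMod M)ˣ → ℤ := fun g => c g * saw M p f t (g : ZMod M)
      have h3 : ∀ g : (ZMod M)ˣ, (c (h * g) - c (-(h * g))) * saw M p f t (g : ZMod M) =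
          F (h * g) + F (-h * g) := by
        intro g
        have h4 := saw_u hp u hu hh (t : ZMod M) (g : ZMod M)
        have h5 := Basic.saw_neg hf hp t.isUnit (unit_ne hM (h * g))
        change _ = c (h * g) * saw M p f t ((h * g : (ZMod M)ˣ) : ZMod M) +
          c (-h * g) * saw M p f t ((-h * g : (ZMod M)ˣ) : ZMod M)
        have h6 : -h * g = -(h * g) := neg_mul h g
        rw [h6, Units.val_neg, h5, Units.val_mul, h4]
        ring
      rw [Finset.sum_congr rfl fun g _ => h3 g, Finset.sum_add_distrib]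
      have h4 : ∑ g, F (h * g) = ∑ g, F g := Equiv.sum_comp (Equiv.mulLeft h) F
      have h5 : ∑ g, F (-h * g) = ∑ g, F g := Equiv.sum_comp (Equiv.mulLeft (-h)) F
      have h6 : ∑ g, F g = 0 := by
        have h7 := hc t
        rw [phi_pair] at h7
        exact h7
      rw [h4, h5, h6, add_zero]
    have h3 : ∑ g : (ZMod M)ˣ, DD u c g * saw M p f t (g : ZMod M) =
        ∑ h ∈ ZZ u, ∑ g : (ZMod M)ˣ, (c (h * g) - c (-(h * g))) * saw M p f t (g : ZMod M) := by
      unfold DD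
      rw [Finset.sum_comm]
      refine Finset.sum_congr rfl fun g _ => ?_
      rw [Finset.sum_mul]
    rw [h3]
    exact Finset.sum_eq_zero h2
  obtain ⟨k, hk, hgk⟩ := hrep g
  obtain ⟨e, he, h3, h4⟩ := dd_sign hM hf hp u hu hk
  have h5 : a (QuotientGroup.mk g) = 0 := congrFun ha _
  have h6 : DD u c (rp u (QuotientGroup.mk g)) = 0 := by
    rcases mul_eq_zero.mp h5 with h7 | h7
    · exfalso
      have h8 : (univ.filter fun g' : (ZMod M)ˣ => (QuotientGroup.mk g' : (ZMod M)ˣ ⧸ KK u) =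
          QuotientGroup.mk g).card = 0 := by exact_mod_cast h7
      rw [Finset.card_eq_zero] at h8
      have h9 : g ∈ univ.filter fun g' : (ZMod M)ˣ => (QuotientGroup.mk g' : (ZMod M)ˣ ⧸ KK u) =
          QuotientGroup.mk g := mem_filter.mpr ⟨mem_univ _, rfl⟩
      rw [h8] at h9
      exact absurd h9 (Finset.notMem_empty _)
    · exact h7
  rw [hgk, h3, h6, mul_zero]

/-- moving the weights -/
theorem weights (hB : StBasic) (hM : 1 < M) (hf : 0 < f) (hp : (p : ZMod M) ^ f = 1)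
    (u : (ZMod M)ˣ) (hu : (u : ZMod M) = p) (c x : (ZMod M)ˣ → ℤ) (k : ℤ)
    (hk : ∀ g, ∑ h ∈ ZZ u, (x (h⁻¹ * g) + x (-(h⁻¹ * g))) = k) :
    ∑ g : (ZMod M)ˣ, (x g * DD u c g) • ev (g : ZMod M) - k • Phi c ∈ Sub M p f := by
  classical
  have h1 : ∑ g : (ZMod M)ˣ, (x g * DD u c g) • ev (g : ZMod M) =
      ∑ h ∈ ZZ u, ∑ g : (ZMod M)ˣ, ((x (h⁻¹ * g) * c g) • ev ((h⁻¹ * g : (ZMod M)ˣ) : ZMod M) -
        (x (-(h⁻¹ * g)) * c g) • ev ((-(h⁻¹ * g) : (ZMod M)ˣ) : ZMod M)) := by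
    have h2 : ∀ h ∈ ZZ u, ∑ g : (ZMod M)ˣ,
        ((x (h⁻¹ * g) * c g) • ev ((h⁻¹ * g : (ZMod M)ˣ) : ZMod M) -
        (x (-(h⁻¹ * g)) * c g) • ev ((-(h⁻¹ * g) : (ZMod M)ˣ) : ZMod M)) =
        ∑ g : (ZMod M)ˣ, (x g * (c (h * g) - c (-(h * g)))) • ev (g : ZMod M) := by
      intro h _
      have h3 : ∑ g : (ZMod M)ˣ, (x (h⁻¹ * g) * c g) • ev ((h⁻¹ * g : (ZMod M)ˣ) : ZMod M) =
          ∑ g : (ZMod M)ˣ, (x g * c (h * g)) • ev (g : ZMod M) := by
        rw [← Equiv.sum_comp (Equiv.mulLeft h) (fun g : (ZMod M)ˣ =>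
          (x (h⁻¹ * g) * c g) • ev ((h⁻¹ * g : (ZMod M)ˣ) : ZMod M))]
        refine Finset.sum_congr rfl fun g _ => ?_
        rw [Equiv.coe_mulLeft, inv_mul_cancel_left]
      have h4 : ∑ g : (ZMod M)ˣ, (x (-(h⁻¹ * g)) * c g) •
          ev ((-(h⁻¹ * g) : (ZMod M)ˣ) : ZMod M) =
          ∑ g : (ZMod M)ˣ, (x g * c (-(h * g))) • ev (g : ZMod M) := by
        rw [← Equiv.sum_comp (Equiv.mulLeft (-h)) (fun g : (ZMod M)ˣ =>
          (x (-(h⁻¹ * g)) * c g) • ev ((-(h⁻¹ * g) : (ZMod M)ˣ) : ZMod M))]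
        refine Finset.sum_congr rfl fun g _ => ?_
        have h5 : -(h⁻¹ * (-h * g)) = g := by rw [neg_mul, mul_neg, inv_mul_cancel_left, neg_neg]
        rw [Equiv.coe_mulLeft, h5]
        beta_reduce
        rw [neg_mul]
      rw [Finset.sum_sub_distrib, h3, h4, ← Finset.sum_sub_distrib]
      refine Finset.sum_congr rfl fun g _ => ?_
      rw [← sub_smul]
      congr 1
      ring
    rw [Finset.sum_congr rfl h2, Finset.sum_comm]
    refine Finset.sum_congr rfl fun g _ => ?_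
    unfold DD
    rw [Finset.mul_sum, Finset.sum_smul]
  have h2 : k • Phi c = ∑ h ∈ ZZ u, ∑ g : (ZMod M)ˣ,
      ((x (h⁻¹ * g) * c g) • ev (g : ZMod M) + (x (-(h⁻¹ * g)) * c g) • ev (g : ZMod M)) := by
    rw [Finset.sum_comm]
    unfold Phi
    rw [Finset.smul_sum]
    refine Finset.sum_congr rfl fun g _ => ?_
    rw [← hk g, smul_smul, Finset.sum_mul, Finset.sum_smul]
    refine Finset.sum_congr rfl fun h _ => ?_
    rw [← add_smul]
    congr 1
    ring
  rw [h1, h2, ← Finset.sum_sub_distrib]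
  refine AddSubgroup.sum_mem _ fun h hh => ?_
  rw [mem_zz] at hh
  rw [← Finset.sum_sub_distrib]
  refine AddSubgroup.sum_mem _ fun g _ => ?_
  have hh' : h⁻¹ ∈ Subgroup.zpowers u := inv_mem hh
  have e1 := ev_u hB hM hf hp u hu hh' (g : ZMod M) (unit_ne hM g)
  have e2 := (hB M p f hM hf hp).1 ((h⁻¹ * g : (ZMod M)ˣ) : ZMod M) (unit_ne hM _)
  rw [← Units.val_mul] at e1
  have h3 : (x (h⁻¹ * g) * c g) • ev ((h⁻¹ * g : (ZMod M)ˣ) : ZMod M) -
      (x (-(h⁻¹ * g)) * c g) • ev ((-(h⁻¹ * g) : (ZMod M)ˣ) : ZMod M) -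
      ((x (h⁻¹ * g) * c g) • ev (g : ZMod M) + (x (-(h⁻¹ * g)) * c g) • ev (g : ZMod M)) =
      (x (h⁻¹ * g) * c g) • (ev ((h⁻¹ * g : (ZMod M)ˣ) : ZMod M) - ev (g : ZMod M)) +
      (x (-(h⁻¹ * g)) * c g) • ((ev ((h⁻¹ * g : (ZMod M)ˣ) : ZMod M) - ev (g : ZMod M)) -
        (ev ((h⁻¹ * g : (ZMod M)ˣ) : ZMod M) + ev (-((h⁻¹ * g : (ZMod M)ˣ) : ZMod M)))) := by
    rw [Units.val_neg]
    module
  rw [h3]
  exact add_mem (AddSubgroup.zsmul_mem _ e1 _)
    (AddSubgroup.zsmul_mem _ (sub_mem e1 e2) _)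

omit [NeZero M] in
/-- elements of `KK` -/
theorem mem_kk {u k : (ZMod M)ˣ} (hk : k ∈ KK u) :
    ∃ h ∈ Subgroup.zpowers u, k = h ∨ k = -h := by
  induction hk using Subgroup.closure_induction with
  | mem k hk =>
    rcases hk with rfl | hk
    · exact ⟨k, Subgroup.mem_zpowers k, Or.inl rfl⟩
    · rw [Set.mem_singleton_iff] at hk
      exact ⟨1, one_mem _, Or.inr hk⟩
  | one => exact ⟨1, one_mem _, Or.inl rfl⟩
  | mul k l _ _ hk hl =>
    obtain ⟨a, ha, h1⟩ := hk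
    obtain ⟨b, hb, h2⟩ := hl
    refine ⟨a * b, mul_mem ha hb, ?_⟩
    rcases h1 with rfl | rfl <;> rcases h2 with rfl | rfl
    · left; rfl
    · right; rw [mul_neg]
    · right; rw [neg_mul]
    · left; rw [neg_mul_neg]
  | inv k _ hk =>
    obtain ⟨a, ha, h1⟩ := hk
    refine ⟨a⁻¹, inv_mem ha, ?_⟩
    rcases h1 with rfl | rfl
    · left; rfl
    · right; rw [inv_neg]

end Level

section Two

variable {M N : ℕ} [NeZero M] [NeZero N] {p f : ℕ}

/-- functions of level `N` vanishing at `0` -/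
def K0 (N : ℕ) : AddSubgroup (ZMod N → ℤ) where
  carrier := {w | w 0 = 0}
  add_mem' := by
    intro a b ha hb
    have ha' : a 0 = 0 := ha
    have hb' : b 0 = 0 := hb
    change (a + b) 0 = 0
    rw [Pi.add_apply, ha', hb', add_zero]
  zero_mem' := rfl
  neg_mem' := by
    intro a ha
    have ha' : a 0 = 0 := ha
    change (-a) 0 = 0
    rw [Pi.neg_apply, ha', neg_zero]

/-- the image of the functions of level `N` -/
def Inc (M N : ℕ) [NeZero N] : AddSubgroup (ZMod M → ℤ) := (K0 N).map (push M N)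

omit [NeZero M] in
theorem inc_ev {y : ZMod N} (hy : y ≠ 0) : ev (inc M N y) ∈ Inc M N := by
  refine ⟨ev y, ?_, push_ev y⟩
  change (ev y : ZMod N → ℤ) 0 = 0
  exact Pi.single_eq_of_ne hy.symm _

/-- balanced elements coming from level `N` -/
theorem of_inc (hB : StBasic) (hM : 1 < M) (hN1 : 1 < N) (hNM : N ∣ M) (hf : 0 < f)
    (hp : (p : ZMod M) ^ f = 1) (hpN : (p : ZMod N) ^ f = 1)
    (hLP : LP N p f) {x₀ : ZMod N} (hx : SSel N p f x₀) {v : ZMod M → ℤ}
    (hv : v ∈ Sub M p f ⊔ SS M p f ⊔ Inc M N) (hvb : ∀ t : (ZMod M)ˣ, pair M p f t v = 0)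
    (hve : Even (tot M v)) : v ∈ Sub M p f := by
  obtain ⟨y, hy, z, hz, hyz⟩ := AddSubgroup.mem_sup.mp hv
  obtain ⟨s, hs, s', hs', hss⟩ := AddSubgroup.mem_sup.mp hy
  obtain ⟨w, hw0, hw⟩ := hz
  have hw0' : w 0 = 0 := hw0
  have hwb : ∀ t : (ZMod N)ˣ, pair N p f t w = 0 := by
    refine bal_of_push hNM fun t => ?_
    have h2 := hvb t
    rw [← hyz, ← hss, map_add, map_add, pair_sub hB hM hf hp t hs, pair_ss t hs'] at h2
    have h3 : pair M p f t z = 0 := by linarith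
    rw [← h3, hw]
  have hte : Even (tot M s' + tot N w) := by
    have h2 := hve
    rw [← hyz, ← hss, map_add, map_add, ← hw, tot_push] at h2
    have h3 := tot_sub hB hM hf hp hs
    have h4 : tot M s' + tot N w = (tot M s + tot M s' + tot N w) - tot M s := by ring
    rw [h4]
    exact h2.sub h3
  -- the final step: a supersingular part with even sum
  have hfin : ∀ (w' : ZMod N → ℤ) (z' : ZMod M → ℤ), w' 0 = 0 →
      (∀ t : (ZMod N)ˣ, pair N p f t w' = 0) → Even (tot N w') → z' ∈ SS M p f →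
      Even (tot M z') → s' + z = z' + push M N w' → v ∈ Sub M p f := by
    intro w' z' hw' hb' ht' hz' htz h
    have h2 := lp_fun hB hN1 hf hpN hLP hw' hb' ht'
    have h3 : v = s + (z' + push M N w') := by
      rw [← h, ← hyz, ← hss]
      abel
    rw [h3]
    exact add_mem hs (add_mem (ss_even hB hM hf hp hz' htz) (push_sub hNM h2))
  by_cases hwe : Even (tot N w)
  · refine hfin w s' hw0' hwb hwe hs' ?_ (by rw [hw])
    rw [Int.even_add] at hte
    exact hte.mpr hwe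
  · obtain ⟨hx₀, hsx⟩ := hx
    refine hfin (w - ev x₀) (s' + ev (inc M N x₀)) ?_ ?_ ?_ ?_ ?_ ?_
    · have h2 : (ev x₀ : ZMod N → ℤ) 0 = 0 := Pi.single_eq_of_ne hx₀.symm _
      rw [Pi.sub_apply, hw0', h2, sub_zero]
    · intro t
      rw [map_sub, hwb, pair_ev, hsx t, sub_zero]
    · rw [map_sub, tot_ev]
      rw [Int.even_sub]
      simp [hwe]
    · refine add_mem hs' (ss_mem ⟨inc_ne hNM hx₀, fun t => ?_⟩)
      rw [saw_inc hNM, hsx, mul_zero]
    · rw [map_add, tot_ev]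
      rw [Int.even_add] at hte ⊢
      simp only [hwe, iff_false] at hte
      simp [hte]
    · rw [map_sub, push_ev, hw]
      abel

/-- the sum over the fibre of a unit of level `N`, `M = N r` -/
theorem fib_sum (hB : StBasic) (hM : 1 < M) (hN1 : 1 < N) {r : ℕ} (hr : r.Prime) (hro : Odd r)
    (hNr : Nat.Coprime N r) (hMN : M = N * r) (hNM : N ∣ M) (hf : 0 < f)
    (hp : (p : ZMod M) ^ f = 1) [DecidableEq (ZMod N)ˣ] (τ : (ZMod N)ˣ) :
    ∑ g ∈ univ.filter (fun g : (ZMod M)ˣ => ZMod.unitsMap hNM g = τ), ev (g : ZMod M) ∈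
      Sub M p f ⊔ Inc M N := by
  have hr0 := hr.pos
  have hrM : r ∣ M := ⟨N, by rw [hMN, mul_comm]⟩
  have hMr : M / r = N := by rw [hMN, Nat.mul_div_cancel _ hr0]
  have hMN' : M / N = r := by rw [hMN, Nat.mul_div_cancel_left _ (by omega)]
  -- `x₁` is divisible by `r` and has the image `τ`
  obtain ⟨n, hn1, hn2⟩ := Nat.chineseRemainder hNr (τ : ZMod N).val 0
  have hτ : Nat.Coprime (τ : ZMod N).val N := ZMod.val_coe_unit_coprime τ
  have hrn : r ∣ n := (Nat.modEq_zero_iff_dvd).mp hn2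
  obtain ⟨y, hy⟩ := hrn
  have hnN : Nat.Coprime n N := by
    have := hn1.gcd_eq
    rw [Nat.Coprime, this]
    exact hτ
  have hyN : Nat.Coprime y N := Nat.Coprime.coprime_dvd_left ⟨r, by rw [hy, mul_comm]⟩ hnN
  have hnτ : ((n : ℕ) : ZMod N) = (τ : ZMod N) := by
    have h1 : ((n : ℕ) : ZMod N) = (((τ : ZMod N).val : ℕ) : ZMod N) :=
      (ZMod.natCast_eq_natCast_iff _ _ _).mpr hn1
    rw [h1]
    exact ZMod.natCast_zmod_val _
  have hinc1 : inc M N (y : ZMod N) = (n : ZMod M) := by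
    rw [inc_nat hNM, hMN', hy, Nat.cast_mul]
  have hinc2 : inc M N (n : ZMod N) = (r : ZMod M) * (n : ZMod M) := by
    rw [inc_nat hNM, hMN']
  have hne : ∀ a : ℕ, Nat.Coprime a N → (a : ZMod N) ≠ 0 := by
    intro a ha h
    rw [ZMod.natCast_eq_zero_iff] at h
    have h1 : N ∣ 1 := by
      have h2 := Nat.dvd_gcd h dvd_rfl
      rwa [ha] at h2
    have := Nat.dvd_one.mp h1
    omega
  have hm1 : ev (n : ZMod M) ∈ Inc M N := hinc1 ▸ inc_ev (hne y hyN)
  have hm2 : ev ((r : ZMod M) * (n : ZMod M)) ∈ Inc M N := hinc2 ▸ inc_ev (hne n hnN)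
  have hrn0 : (r : ZMod M) * (n : ZMod M) ≠ 0 := by
    rw [← hinc2]
    exact inc_ne hNM (hne n hnN)
  -- the fibre
  have hcop : ∀ j : ℕ, j + 1 < r → Nat.Coprime (n + (j + 1) * N) M := by
    intro j hj
    rw [hMN]
    refine Nat.Coprime.mul_right ?_ ?_
    · rw [Nat.coprime_add_mul_right_left]
      exact hnN
    · refine ((Nat.Prime.coprime_iff_not_dvd hr).mpr ?_).symm
      intro h
      rw [hy, Nat.dvd_add_right (Dvd.intro _ rfl)] at h
      rcases (hr.dvd_mul).mp h with h1 | h1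
      · have := Nat.le_of_dvd (by omega) h1
        omega
      · have h2 := Nat.dvd_gcd h1 dvd_rfl
        rw [hNr] at h2
        exact hr.one_lt.ne' (Nat.dvd_one.mp h2)
  have hsum : ∑ g ∈ univ.filter (fun g : (ZMod M)ˣ => ZMod.unitsMap hNM g = τ),
      ev (g : ZMod M) = ∑ j ∈ range (r - 1), ev ((n : ZMod M) +
        ((j + 1 : ℕ) : ZMod M) * (N : ZMod M)) := by
    symm
    refine Finset.sum_bij (fun j hj => ZMod.unitOfCoprime (n + (j + 1) * N) (hcop j (by
      rw [mem_range] at hj; omega))) ?_ ?_ ?_ ?_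
    · intro j hj
      rw [mem_filter]
      refine ⟨mem_univ _, ?_⟩
      apply Units.ext
      rw [ZMod.unitsMap_val, ZMod.coe_unitOfCoprime, ZMod.cast_natCast hNM]
      push_cast
      rw [ZMod.natCast_self, mul_zero, add_zero, hnτ]
    · intro i hi j hj hij
      rw [mem_range] at hi hj
      have h1 := congrArg (fun z : (ZMod M)ˣ => (z : ZMod M)) hij
      simp only [ZMod.coe_unitOfCoprime] at h1
      rw [ZMod.natCast_eq_natCast_iff] at h1
      have h2 : (i + 1) * N ≡ (j + 1) * N [MOD M] := Nat.ModEq.add_left_cancel' n h1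
      rw [hMN, mul_comm N r] at h2
      have h3 : i + 1 ≡ j + 1 [MOD r] := Nat.ModEq.mul_right_cancel' (by omega) h2
      have h4 := Nat.ModEq.eq_of_lt_of_lt h3 (by omega) (by omega)
      omega
    · intro g hg
      rw [mem_filter] at hg
      -- `g = n + j N`
      have h1 : (((g : ZMod M).val : ℕ) : ZMod N) = ((n : ℕ) : ZMod N) := by
        rw [hnτ, ← hg.2, ZMod.unitsMap_val, ZMod.cast_eq_val]
      have h2 : (n : ZMod N) = (((g : ZMod M).val : ℕ) : ZMod N) := h1.symm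
      obtain ⟨c, hc⟩ := (ZMod.intCast_eq_intCast_iff_dvd_sub (n : ℤ) ((g : ZMod M).val : ℤ) N).mp
        (by push_cast; exact h2)
      have hr' : (r : ℤ) ≠ 0 := by exact_mod_cast hr.ne_zero
      have h3 : 0 ≤ c % r := Int.emod_nonneg c hr'
      have h4 : c % r < r := Int.emod_lt_of_pos c (by exact_mod_cast hr0)
      obtain ⟨j, hj⟩ := Int.eq_ofNat_of_zero_le h3
      have hjr : j < r := by
        rw [hj] at h4
        exact_mod_cast h4
      have h5 : (g : ZMod M) = (n : ZMod M) + (j : ZMod M) * (N : ZMod M) := by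
        have h6 : (g : ZMod M) = (((g : ZMod M).val : ℤ) : ZMod M) := by
          rw [Int.cast_natCast]
          exact (ZMod.natCast_zmod_val _).symm
        have h7 : ((g : ZMod M).val : ℤ) = n + N * (r * (c / r) + j) := by
          rw [← hj, Int.mul_ediv_add_emod]
          linarith
        have h8 : (N : ZMod M) * (r : ZMod M) = 0 := by
          rw [← Nat.cast_mul, ← hMN, ZMod.natCast_self]
        rw [h6, h7]
        push_cast
        linear_combination ((c / r : ℤ) : ZMod M) * h8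
      have hj0 : j ≠ 0 := by
        rintro rfl
        rw [Nat.cast_zero, zero_mul, add_zero] at h5
        have h6 : IsUnit ((n : ℕ) : ZMod M) := by rw [← h5]; exact g.isUnit
        have h7 := (ZMod.isUnit_iff_coprime n M).mp h6
        have h8 : r ∣ Nat.gcd n M := Nat.dvd_gcd ⟨y, hy⟩ hrM
        rw [h7] at h8
        exact hr.one_lt.ne' (Nat.dvd_one.mp h8)
      refine ⟨j - 1, mem_range.mpr (by omega), ?_⟩
      apply Units.ext
      rw [ZMod.coe_unitOfCoprime, h5]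
      have h6 : j - 1 + 1 = j := by omega
      rw [h6]
      push_cast
      ring
    · intro j hj
      rw [ZMod.coe_unitOfCoprime]
      push_cast
      rfl
  rw [hsum]
  have h2 := dh_mem (p := p) (f := f) hr hrM (y := (n : ZMod M)) hrn0
  rw [hMr] at h2
  have h3 := Red.ev_neg hB hM hf hp hrn0
  have h4 := third_odd hB hM hf hp hr hro hrM
  rw [hMr] at h4
  have h5 : ∑ j ∈ range r, ev ((n : ZMod M) + (j : ZMod M) * (N : ZMod M)) =
      ∑ j ∈ range (r - 1), ev ((n : ZMod M) + ((j + 1 : ℕ) : ZMod M) * (N : ZMod M)) +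
        ev (n : ZMod M) := by
    obtain ⟨q, hq⟩ : ∃ q, r = q + 1 := ⟨r - 1, by omega⟩
    have hq' : r - 1 = q := by omega
    rw [hq']
    have h6 := Finset.sum_range_succ' (fun j : ℕ =>
      ev ((n : ZMod M) + (j : ZMod M) * (N : ZMod M))) q
    rw [← hq] at h6
    rw [h6, Nat.cast_zero, zero_mul, add_zero]
  have h6 : ∑ j ∈ range (r - 1), ev ((n : ZMod M) + ((j + 1 : ℕ) : ZMod M) * (N : ZMod M)) =
      ((∑ j ∈ range r, ev ((n : ZMod M) + (j : ZMod M) * (N : ZMod M)) +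
        ev (-((r : ZMod M) * (n : ZMod M))) +
        ∑ j ∈ range (r - 1), ev (((j + 1 : ℕ) : ZMod M) * (N : ZMod M))) -
      (ev ((r : ZMod M) * (n : ZMod M)) + ev (-((r : ZMod M) * (n : ZMod M)))) -
      ∑ j ∈ range (r - 1), ev (((j + 1 : ℕ) : ZMod M) * (N : ZMod M))) +
      (ev ((r : ZMod M) * (n : ZMod M)) - ev (n : ZMod M)) := by
    rw [h5]
    abel
  rw [h6]
  exact add_mem ((le_sup_left : Sub M p f ≤ _) (sub_mem (sub_mem h2 h3) h4))
    ((le_sup_right : Inc M N ≤ _) (sub_mem hm2 hm1))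

end Two

end New

end Pool.Agent.Lib.MP81632f.Diag
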