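import Pool.Agent.Lib.MP_81632f_ag.Diag.New

/-!
# A new prime: the theorem
-/

set_option autoImplicit false

noncomputable section

namespace Pool.Agent.Lib.MP81632f.Diag

open Finset

namespace New

open Crit Two Push Transfer
open Red (ev dh_mem mul_quot quot_ne two_torsion)

variable {M N : ℕ} [NeZero M] [NeZero N] {p f : ℕ}

omit [NeZero M] [NeZero N] in
theorem unitsMap_neg (hNM : N ∣ M) (g : (ZMod M)ˣ) :
    ZMod.unitsMap hNM (-g) = -ZMod.unitsMap hNM g := by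
  apply Units.ext
  rw [Units.val_neg, ZMod.unitsMap_val, ZMod.unitsMap_val, Units.val_neg, ZMod.cast_neg hNM]

open Classical in
/-- the weights -/
def xx (hNM : N ∣ M) (u' : (ZMod N)ˣ) (g : (ZMod M)ˣ) : ℤ :=
  if rp u' (QuotientGroup.mk (ZMod.unitsMap hNM g)) = ZMod.unitsMap hNM g then 1 else 0

open Classical in
/-- the number of powers of `u` over `1` -/
def kk (hNM : N ∣ M) (u : (ZMod M)ˣ) : ℕ :=
  ((ZZ u).filter fun h => ZMod.unitsMap hNM h = 1).card

theorem xx_sum (hNM : N ∣ M) (u : (ZMod M)ˣ)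
    (hneg : (-1 : (ZMod N)ˣ) ∉ Subgroup.zpowers (ZMod.unitsMap hNM u)) (g : (ZMod M)ˣ) :
    ∑ h ∈ ZZ u, (xx hNM (ZMod.unitsMap hNM u) (h⁻¹ * g) +
      xx hNM (ZMod.unitsMap hNM u) (-(h⁻¹ * g))) = (kk hNM u : ℤ) := by
  classical
  set π := ZMod.unitsMap hNM with hπ
  set u' := π u with hu'
  have hz : ∀ {h : (ZMod M)ˣ}, h ∈ Subgroup.zpowers u → π h ∈ Subgroup.zpowers u' := by
    rintro h ⟨n, rfl⟩
    exact ⟨n, by rw [hu']; exact (map_zpow π u n).symm⟩
  have hle : Subgroup.zpowers u' ≤ KK u' := by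
    rw [Subgroup.zpowers_le]
    exact Subgroup.subset_closure (Set.mem_insert _ _)
  have hm1 : (-1 : (ZMod N)ˣ) ∈ KK u' :=
    Subgroup.subset_closure (Set.mem_insert_of_mem _ rfl)
  obtain ⟨k0, hk0⟩ := QuotientGroup.mk_out_eq_mul (KK u') (π g)
  have hτ : rp u' (QuotientGroup.mk (π g)) = π g * (k0 : (ZMod N)ˣ) := hk0
  -- the classes
  have hc1 : ∀ h ∈ ZZ u, (QuotientGroup.mk (π (h⁻¹ * g)) : (ZMod N)ˣ ⧸ KK u') =
      QuotientGroup.mk (π g) := by
    intro h hh
    rw [mem_zz] at hh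
    rw [QuotientGroup.eq, map_mul, map_inv, mul_inv_rev, inv_inv]
    have h1 : (π g)⁻¹ * π h * π g = π h := by
      rw [mul_comm (π g)⁻¹, inv_mul_cancel_right]
    rw [h1]
    exact hle (hz hh)
  have hc2 : ∀ h ∈ ZZ u, (QuotientGroup.mk (π (-(h⁻¹ * g))) : (ZMod N)ˣ ⧸ KK u') =
      QuotientGroup.mk (π g) := by
    intro h hh
    rw [← hc1 h hh, QuotientGroup.eq]
    have h1 : π (-(h⁻¹ * g)) = -π (h⁻¹ * g) := unitsMap_neg hNM _
    have h2 : (-π (h⁻¹ * g))⁻¹ * π (h⁻¹ * g) = -1 := by rw [inv_neg, neg_mul, inv_mul_cancel]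
    rw [h1, h2]
    exact hm1
  have hx1 : ∀ h ∈ ZZ u, xx hNM u' (h⁻¹ * g) =
      if π g * (k0 : (ZMod N)ˣ) = (π h)⁻¹ * π g then 1 else 0 := by
    intro h hh
    unfold xx
    rw [hc1 h hh, hτ, map_mul, map_inv]
  have hx2 : ∀ h ∈ ZZ u, xx hNM u' (-(h⁻¹ * g)) =
      if π g * (k0 : (ZMod N)ˣ) = -((π h)⁻¹ * π g) then 1 else 0 := by
    intro h hh
    unfold xx
    rw [hc2 h hh, hτ, hπ, unitsMap_neg, map_mul, map_inv]
  obtain ⟨h0, hh0, hk⟩ := mem_kk k0.2
  obtain ⟨n0, hn0⟩ := hh0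
  have hn0' : u' ^ n0 = h0 := hn0
  set h1 : (ZMod M)ˣ := u ^ n0 with hh1
  have hπ1 : π h1 = h0 := by rw [hh1, map_zpow, ← hu']; exact hn0'
  have hh1z : h1 ∈ Subgroup.zpowers u := ⟨n0, rfl⟩
  -- the count
  have hcount : ((ZZ u).filter fun h => π (h * h1) = 1).card = kk hNM u := by
    unfold kk
    refine Finset.card_bij (fun h _ => h * h1) ?_ ?_ ?_
    · intro h hh
      rw [mem_filter, mem_zz] at hh ⊢
      exact ⟨mul_mem hh.1 hh1z, hh.2⟩
    · intro a _ b _ hab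
      exact mul_right_cancel hab
    · intro b hb
      rw [mem_filter, mem_zz] at hb
      refine ⟨b * h1⁻¹, ?_, by rw [inv_mul_cancel_right]⟩
      rw [mem_filter, mem_zz, inv_mul_cancel_right]
      exact ⟨mul_mem hb.1 (inv_mem hh1z), hb.2⟩
  have key : ∀ h ∈ ZZ u, xx hNM u' (h⁻¹ * g) + xx hNM u' (-(h⁻¹ * g)) =
      if π (h * h1) = 1 then 1 else 0 := by
    intro h hh
    have hhz : h ∈ Subgroup.zpowers u := mem_zz.mp hh
    have hno : π (h * h1) ≠ -1 := by
      intro h2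
      apply hneg
      rw [← h2]
      exact hz (mul_mem hhz hh1z)
    rw [hx1 h hh, hx2 h hh]
    have e1 : (π g * h0 = (π h)⁻¹ * π g) ↔ π (h * h1) = 1 := by
      rw [map_mul, hπ1, eq_inv_mul_iff_mul_eq]
      constructor
      · intro h2
        have h3 : π h * h0 * π g = π g := by rw [mul_assoc, mul_comm h0]; exact h2
        exact mul_eq_right.mp h3
      · intro h2
        rw [mul_left_comm, h2, mul_one]
    have e2 : (π g * h0 = -((π h)⁻¹ * π g)) ↔ π (h * h1) = -1 := by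
      rw [map_mul, hπ1]
      constructor
      · intro h2
        have h3 : π h * h0 * π g = -1 * π g := by
          rw [mul_assoc, mul_comm h0, h2, mul_neg, mul_inv_cancel_left, neg_one_mul]
        exact mul_right_cancel h3
      · intro h2
        have h3 : h0 = -(π h)⁻¹ := by
          rw [← mul_neg_one, ← h2, inv_mul_cancel_left]
        rw [h3, mul_neg, mul_comm (π g)]
    rcases hk with hk | hk
    · rw [hk]
      by_cases h2 : π (h * h1) = 1
      · rw [if_pos h2, if_pos (e1.mpr h2), if_neg (fun h3 => hno (e2.mp h3)), add_zero]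
      · rw [if_neg h2, if_neg (fun h3 => h2 (e1.mp h3)), if_neg (fun h3 => hno (e2.mp h3)),
          add_zero]
    · have e1' : (π g * -h0 = (π h)⁻¹ * π g) ↔ π (h * h1) = -1 := by
        rw [← e2, mul_neg, neg_eq_iff_eq_neg]
      have e2' : (π g * -h0 = -((π h)⁻¹ * π g)) ↔ π (h * h1) = 1 := by
        rw [← e1, mul_neg, neg_inj]
      rw [hk]
      by_cases h2 : π (h * h1) = 1
      · rw [if_pos h2, if_neg (fun h3 => hno (e1'.mp h3)), if_pos (e2'.mpr h2), zero_add]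
      · rw [if_neg h2, if_neg (fun h3 => hno (e1'.mp h3)), if_neg (fun h3 => h2 (e2'.mp h3)),
          add_zero]
  rw [Finset.sum_congr rfl key, ← hcount, Finset.card_filter]
  push_cast
  rfl

theorem kk_odd (hNM : N ∣ M) (u : (ZMod M)ˣ) (hu : (u : ZMod M) = p)
    (hodd : ∃ k0 : ℕ, Odd k0 ∧ ∀ j : ℕ, (p : ZMod N) ^ j = 1 → (p : ZMod M) ^ (k0 * j) = 1) :
    Odd (kk hNM u) := by
  classical
  obtain ⟨k0, hk0, hj⟩ := hodd
  let L : Subgroup (ZMod M)ˣ := Subgroup.zpowers u ⊓ (ZMod.unitsMap hNM).ker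
  have hcard : kk hNM u = Nat.card L := by
    rw [Nat.card_eq_fintype_card, Fintype.card_subtype]
    unfold kk
    congr 1
    ext h
    rw [mem_filter, mem_filter, mem_zz]
    constructor
    · rintro ⟨h1, h2⟩
      exact ⟨mem_univ _, h1, h2⟩
    · rintro ⟨-, h1, h2⟩
      exact ⟨h1, h2⟩
  rw [hcard, ← Nat.not_even_iff_odd, even_iff_two_dvd]
  intro h2
  have : Fact (Nat.Prime 2) := ⟨Nat.prime_two⟩
  obtain ⟨y, hy⟩ := exists_prime_orderOf_dvd_card' 2 h2
  have hxo : orderOf (y : (ZMod M)ˣ) = 2 := by rw [Subgroup.orderOf_coe]; exact hy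
  obtain ⟨hx1, hx2⟩ := Subgroup.mem_inf.mp y.2
  set x : (ZMod M)ˣ := (y : (ZMod M)ˣ) with hx
  obtain ⟨n, hn⟩ := (mem_powers_iff_mem_zpowers).mpr hx1
  have hn' : u ^ n = x := hn
  have h3 : (p : ZMod N) ^ n = 1 := by
    have h4 : ZMod.unitsMap hNM x = 1 := hx2
    have h5 := congrArg (fun z : (ZMod N)ˣ => (z : ZMod N)) h4
    simp only [ZMod.unitsMap_val, Units.val_one] at h5
    rw [← hn', Units.val_pow_eq_pow_val, hu, ← Nat.cast_pow, ZMod.cast_natCast hNM,
      Nat.cast_pow] at h5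
    exact h5
  have h4 := hj n h3
  have h5 : x ^ k0 = 1 := by
    apply Units.ext
    rw [← hn', ← pow_mul, Units.val_pow_eq_pow_val, hu, mul_comm n k0, h4, Units.val_one]
  have h6 := orderOf_dvd_of_pow_eq_one h5
  rw [hxo] at h6
  exact (Nat.not_even_iff_odd.mpr hk0) (even_iff_two_dvd.mpr h6)

theorem inc_of_smul (hNM : N ∣ M) {x : ZMod M} (hx : x ≠ 0) (h : N • x = 0) :
    ev x ∈ Inc M N := by
  have hN0 : 0 < N := NeZero.pos N
  have h2 : M ∣ N * x.val := by
    rw [← ZMod.natCast_eq_zero_iff, Nat.cast_mul, ZMod.natCast_zmod_val, ← nsmul_eq_mul]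
    exact h
  have h3 : N * (M / N) ∣ N * x.val := by rw [Nat.mul_div_cancel' hNM]; exact h2
  obtain ⟨a, ha⟩ := Nat.dvd_of_mul_dvd_mul_left hN0 h3
  have hinc : inc M N (a : ZMod N) = x := by
    rw [inc_nat hNM, ← Nat.cast_mul, ← ha, ZMod.natCast_zmod_val]
  have h4 : (a : ZMod N) ≠ 0 := by
    intro h5
    apply hx
    rw [← hinc, h5, inc_zero hNM]
  have h5 := inc_ev (M := M) h4
  rw [hinc] at h5
  exact h5

/-- the theorem for a new prime -/
theorem new_prime (hB : StBasic) (hR : StRankTwo) {r : ℕ} (hr : r.Prime) (hro : Odd r)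
    (hNr : Nat.Coprime N r) (hMN : M = N * r) (hN1 : 1 < N) (hf : 0 < f)
    (hp : (p : ZMod M) ^ f = 1) {x₀ : ZMod N} (hx₀ : SSel N p f x₀)
    (hNM : N ∣ M) (u : (ZMod M)ˣ) (hu : (u : ZMod M) = p)
    (hneg : (-1 : (ZMod N)ˣ) ∉ Subgroup.zpowers (ZMod.unitsMap hNM u))
    (hodd : ∃ k0 : ℕ, Odd k0 ∧ ∀ j : ℕ, (p : ZMod N) ^ j = 1 → (p : ZMod M) ^ (k0 * j) = 1)
    (hW1 : ∀ x : ZMod M, x ≠ 0 → N • x = 0 ∨ ev x ∈ WW M p f)
    (hW2 : ∀ x : ZMod M, x ≠ 0 → (2 : ℤ) • ev x ∈ WW M p f)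
    (hLP : LP N p f) : LP M p f := by
  classical
  have hM : 1 < M := lt_of_lt_of_le hN1 (Nat.le_of_dvd (NeZero.pos M) hNM)
  have hpN : (p : ZMod N) ^ f = 1 := by
    have h1 := congrArg (ZMod.castHom hNM (ZMod N)) hp
    rw [map_pow, map_natCast, map_one] at h1
    exact h1
  have hnegM : (-1 : (ZMod M)ˣ) ∉ Subgroup.zpowers u := by
    rintro ⟨n, hn⟩
    apply hneg
    refine ⟨n, ?_⟩
    have hn' : u ^ n = -1 := hn
    have h1 : ZMod.unitsMap hNM (u ^ n) = -1 := by rw [hn', unitsMap_neg, map_one]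
    change (ZMod.unitsMap hNM u) ^ n = -1
    rw [← map_zpow]
    exact h1
  intro X h0 hbal he
  set v := cnt X with hv
  have hv0 : v 0 = 0 := Basic.cnt_apply_zero h0
  have hvb : ∀ t : (ZMod M)ˣ, pair M p f t v = 0 := by
    intro t
    change ∑ x, cnt X x * saw M p f t x = 0
    rw [Basic.sum_cnt_mul]
    exact hbal t
  have hve : Even (tot M v) := by
    change Even (∑ x, cnt X x)
    rw [Basic.sum_cnt]
    exact_mod_cast he
  have h2v : (2 : ℤ) • v ∈ Sub M p f := by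
    refine bal_ww hB hR hM hf hp u hu hnegM hW2 ?_
      (fun t => by rw [map_zsmul, hvb, smul_zero]) ?_
    · rw [sum_ev v, Finset.smul_sum]
      refine AddSubgroup.sum_mem _ fun x _ => ?_
      by_cases hx : x = 0
      · rw [hx, hv0, zero_smul, smul_zero]
        exact zero_mem _
      · rw [smul_comm]
        exact AddSubgroup.zsmul_mem _ (hW2 x hx) _
    · rw [map_zsmul, smul_eq_mul]
      exact even_two_mul _
  -- decomposition
  have hvW : v ∈ WW M p f ⊔ Inc M N := by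
    rw [sum_ev v]
    refine AddSubgroup.sum_mem _ fun x _ => ?_
    by_cases hx : x = 0
    · rw [hx, hv0, zero_smul]
      exact zero_mem _
    · refine AddSubgroup.zsmul_mem _ ?_ _
      rcases hW1 x hx with h1 | h1
      · exact (le_sup_right : Inc M N ≤ _) (inc_of_smul hNM hx h1)
      · exact (le_sup_left : WW M p f ≤ _) h1
  obtain ⟨w0, hw0, i0, hi0, hvi⟩ := AddSubgroup.mem_sup.mp hvW
  obtain ⟨y, hy, z1, hz1, hyz⟩ := AddSubgroup.mem_sup.mp hw0
  obtain ⟨s1, hs1, t1, ht1, hst⟩ := AddSubgroup.mem_sup.mp hy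
  obtain ⟨c, rfl⟩ := top_phi ht1
  obtain ⟨w, hw1, hw⟩ := hi0
  have hpair : ∀ t : (ZMod M)ˣ, pair M p f t (Phi c) =
      -(((M / N : ℕ) : ℤ) * pair N p f (ZMod.unitsMap hNM t) w) := by
    intro t
    have h1 := hvb t
    rw [← hvi, ← hyz, ← hst, map_add, map_add, map_add, pair_sub hB hM hf hp t hs1,
      pair_ss t hz1, ← hw, pair_push hNM] at h1
    linarith
  -- invariance
  have hinv : ∀ g g' : (ZMod M)ˣ, ZMod.unitsMap hNM g = ZMod.unitsMap hNM g' →
      DD u c g = DD u c g' := by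
    intro g g' hgg
    obtain ⟨s, hs⟩ : ∃ s : (ZMod M)ˣ, s = g * g'⁻¹ := ⟨_, rfl⟩
    have hs1' : ZMod.unitsMap hNM s = 1 := by
      rw [hs, map_mul, map_inv, hgg, mul_inv_cancel]
    have h1 := indepD hB hR hM hf hp u hu hnegM hW2 (c := fun g => c (s⁻¹ * g) - c g) (by
      intro t
      have h2 : pair M p f t (Phi fun g => c (s⁻¹ * g) - c g) =
          pair M p f (t * s) (Phi c) - pair M p f t (Phi c) := by
        rw [phi_pair, phi_pair, phi_pair]
        have h3 : ∑ g : (ZMod M)ˣ, c (s⁻¹ * g) * saw M p f t (g : ZMod M) =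
            ∑ g : (ZMod M)ˣ, c g * saw M p f ((t * s : (ZMod M)ˣ) : ZMod M) (g : ZMod M) := by
          rw [← Equiv.sum_comp (Equiv.mulLeft s)
            (fun g : (ZMod M)ˣ => c (s⁻¹ * g) * saw M p f t (g : ZMod M))]
          refine Finset.sum_congr rfl fun g _ => ?_
          have h4 : saw M p f t ((s * g : (ZMod M)ˣ) : ZMod M) =
              saw M p f ((t * s : (ZMod M)ˣ) : ZMod M) (g : ZMod M) := by
            unfold saw
            refine Finset.sum_congr rfl fun j _ => ?_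
            have h5 : (p : ZMod M) ^ j * (t : ZMod M) * ((s * g : (ZMod M)ˣ) : ZMod M) =
                (p : ZMod M) ^ j * ((t * s : (ZMod M)ˣ) : ZMod M) * (g : ZMod M) := by
              rw [Units.val_mul s g, Units.val_mul t s]
              ring
            rw [h5]
          rw [Equiv.coe_mulLeft, inv_mul_cancel_left, h4]
        rw [← h3, ← Finset.sum_sub_distrib]
        refine Finset.sum_congr rfl fun g _ => ?_
        ring
      rw [h2, hpair, hpair, map_mul, hs1', mul_one, sub_self]) g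
    have h2 : DD u (fun g => c (s⁻¹ * g) - c g) g = DD u c (s⁻¹ * g) - DD u c g := by
      unfold DD
      rw [← Finset.sum_sub_distrib]
      refine Finset.sum_congr rfl fun h _ => ?_
      have e1 : s⁻¹ * (h * g) = h * (s⁻¹ * g) := mul_left_comm _ _ _
      have e2 : s⁻¹ * -(h * g) = -(h * (s⁻¹ * g)) := by rw [mul_neg, e1]
      beta_reduce
      rw [e1, e2]
      ring
    have h3 : s⁻¹ * g = g' := by
      rw [hs, mul_inv_rev, inv_inv, inv_mul_cancel_right]
    rw [h2, h3] at h1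
    linarith
  -- the multiple `k w0`
  set u' := ZMod.unitsMap hNM u with hu'
  have hwt := weights hB hM hf hp u hu c (xx hNM u') (kk hNM u : ℤ)
    (fun g => xx_sum hNM u hneg g)
  have hY : ∑ g : (ZMod M)ˣ, (xx hNM u' g * DD u c g) • ev (g : ZMod M) ∈
      Sub M p f ⊔ Inc M N := by
    rw [← Finset.sum_fiberwise univ (fun g : (ZMod M)ˣ => ZMod.unitsMap hNM g)
      (fun g : (ZMod M)ˣ => (xx hNM u' g * DD u c g) • ev (g : ZMod M))]
    refine AddSubgroup.sum_mem _ fun τ _ => ?_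
    obtain ⟨g₀, hg₀⟩ := ZMod.unitsMap_surjective hNM τ
    have h1 : ∀ g ∈ univ.filter (fun g : (ZMod M)ˣ => ZMod.unitsMap hNM g = τ),
        (xx hNM u' g * DD u c g) • ev (g : ZMod M) =
          (xx hNM u' g₀ * DD u c g₀) • ev (g : ZMod M) := by
      intro g hg
      rw [mem_filter] at hg
      have h2 : ZMod.unitsMap hNM g = ZMod.unitsMap hNM g₀ := by rw [hg.2, hg₀]
      rw [hinv g g₀ h2]
      unfold xx
      rw [h2]
    rw [Finset.sum_congr rfl h1, ← Finset.smul_sum]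
    exact AddSubgroup.zsmul_mem _
      (fib_sum hB hM hN1 hr hro hNr hMN hNM hf hp τ) _
  have hkv : (kk hNM u : ℤ) • v ∈ Sub M p f := by
    refine of_inc hB hM hN1 hNM hf hp hpN hLP hx₀ ?_ (fun t => by rw [map_zsmul, hvb, smul_zero])
      ?_
    · have h1 : (kk hNM u : ℤ) • v = (kk hNM u : ℤ) • s1 + (kk hNM u : ℤ) • z1 +
          (kk hNM u : ℤ) • i0 +
          (∑ g : (ZMod M)ˣ, (xx hNM u' g * DD u c g) • ev (g : ZMod M) -
          (∑ g : (ZMod M)ˣ, (xx hNM u' g * DD u c g) • ev (g : ZMod M) -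
            (kk hNM u : ℤ) • Phi c)) := by
        rw [← hvi, ← hyz, ← hst]
        module
      rw [h1]
      have hsub : Sub M p f ≤ Sub M p f ⊔ SS M p f ⊔ Inc M N := le_sup_left.trans le_sup_left
      have hss : SS M p f ≤ Sub M p f ⊔ SS M p f ⊔ Inc M N := le_sup_right.trans le_sup_left
      have hinc : Inc M N ≤ Sub M p f ⊔ SS M p f ⊔ Inc M N := le_sup_right
      refine add_mem (add_mem (add_mem (hsub (AddSubgroup.zsmul_mem _ hs1 _))
        (hss (AddSubgroup.zsmul_mem _ hz1 _))) (hinc (AddSubgroup.zsmul_mem _ ?_ _))) ?_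
      · exact ⟨w, hw1, hw⟩
      · exact sub_mem ((sup_le hsub hinc) hY) (hsub hwt)
    · rw [map_zsmul, smul_eq_mul]
      exact hve.mul_left _
  obtain ⟨m, hm⟩ := kk_odd hNM u hu hodd
  have h1 : v = (kk hNM u : ℤ) • v - (m : ℤ) • ((2 : ℤ) • v) := by
    rw [hm]
    push_cast
    module
  rw [h1]
  exact sub_mem hkv (AddSubgroup.zsmul_mem _ h2v _)

end New

end Pool.Agent.Lib.MP81632f.Diag
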