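import Pool.Agent.Lib.MP_81632f_ag.Diag.Stmts

/-!
# Tate sets of Gauss sums: one prime (module C4)
-/

set_option autoImplicit false

namespace Pool.Agent.Lib.MP81632f.Diag

open Finset

namespace One

/-! ### Groups -/

/-- A sum over a finite abelian group vanishes if all sums over the cosets of `K` vanish. -/
theorem sum_eq_zero_of_cosets {G Q : Type} [CommGroup G] [Fintype G] [AddCommGroup Q]
    (K : Subgroup G) [DecidablePred fun x => x ∈ K] (w : G → Q)
    (h : ∀ s, ∑ k with k ∈ K, w (k * s) = 0) : ∑ s, w s = 0 := by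
  classical
  rw [← Finset.sum_fiberwise univ (fun x => (QuotientGroup.mk x : G ⧸ K)) w]
  refine Finset.sum_eq_zero fun q _ => ?_
  induction q using QuotientGroup.induction_on with
  | H s =>
    rw [← h s]
    refine Finset.sum_nbij' (fun x => x * s⁻¹) (fun k => k * s) (fun x hx => ?_) (fun k hk => ?_)
      (fun x _ => ?_) (fun k _ => ?_) (fun x _ => ?_)
    · rw [Finset.mem_filter] at hx ⊢
      refine ⟨Finset.mem_univ _, ?_⟩
      have h1 := K.inv_mem (QuotientGroup.eq.1 hx.2)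
      rwa [mul_inv_rev, inv_inv, mul_comm] at h1
    · rw [Finset.mem_filter] at hk ⊢
      refine ⟨Finset.mem_univ _, QuotientGroup.eq.2 ?_⟩
      rw [mul_inv_rev, mul_comm, ← mul_assoc, mul_inv_cancel, one_mul]
      exact K.inv_mem hk.2
    · exact inv_mul_cancel_right x s
    · exact mul_inv_cancel_right k s
    · exact congrArg w (inv_mul_cancel_right x s).symm

/-- The subgroup generated by `H` and `-1`. -/
def pm {G : Type} [CommGroup G] [HasDistribNeg G] (H : Subgroup G) : Subgroup G where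
  carrier := {x | x ∈ H ∨ -x ∈ H}
  one_mem' := Or.inl H.one_mem
  mul_mem' := by
    rintro a b (ha | ha) (hb | hb)
    · exact Or.inl (H.mul_mem ha hb)
    · exact Or.inr (by rw [← mul_neg]; exact H.mul_mem ha hb)
    · exact Or.inr (by rw [← neg_mul]; exact H.mul_mem ha hb)
    · exact Or.inl (by rw [← neg_mul_neg]; exact H.mul_mem ha hb)
  inv_mem' := by
    rintro a (ha | ha)
    · exact Or.inl (H.inv_mem ha)
    · have h1 : (-a)⁻¹ = -a⁻¹ := inv_eq_of_mul_eq_one_right (by rw [neg_mul_neg, mul_inv_cancel])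
      exact Or.inr (by rw [← h1]; exact H.inv_mem ha)

theorem sum_eq_zero {G Q : Type} [CommGroup G] [HasDistribNeg G] [Fintype G] [AddCommGroup Q]
    (H : Subgroup G) [DecidablePred fun x => x ∈ H] (hneg : (-1 : G) ∉ H) (c : G → ℤ) (E : G → Q)
    (hE1 : ∀ h ∈ H, ∀ s, E (h * s) = E s) (hE2 : ∀ s, E (-s) = - E s)
    (hF : ∀ y, ∑ h with h ∈ H, c (h * y) = ∑ h with h ∈ H, c (-(h * y))) :
    ∑ s, c s • E s = 0 := by
  classical
  refine sum_eq_zero_of_cosets (pm H) (fun s => c s • E s) fun s => ?_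
  have h1 : (univ.filter fun k => k ∈ pm H) =
      (univ.filter fun k => k ∈ H) ∪ (univ.filter fun k => -k ∈ H) := by
    ext k
    rw [Finset.mem_union, Finset.mem_filter, Finset.mem_filter, Finset.mem_filter]
    constructor
    · rintro ⟨h, h1 | h1⟩
      · exact Or.inl ⟨h, h1⟩
      · exact Or.inr ⟨h, h1⟩
    · rintro (h1 | h1)
      · exact ⟨h1.1, Or.inl h1.2⟩
      · exact ⟨h1.1, Or.inr h1.2⟩
  have hd : Disjoint (univ.filter fun k => k ∈ H) (univ.filter fun k => -k ∈ H) := by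
    rw [Finset.disjoint_filter]
    intro k _ h2 h3
    apply hneg
    have h4 := H.mul_mem h3 (H.inv_mem h2)
    rwa [neg_mul, mul_inv_cancel] at h4
  rw [h1, Finset.sum_union hd]
  have h2 : ∑ k with k ∈ H, c (k * s) • E (k * s) = (∑ k with k ∈ H, c (k * s)) • E s := by
    rw [Finset.sum_smul]
    refine Finset.sum_congr rfl fun k hk => ?_
    rw [hE1 k (Finset.mem_filter.1 hk).2 s]
  have h3 : ∑ k with -k ∈ H, c (k * s) • E (k * s) =
      ∑ k with k ∈ H, -(c (-(k * s)) • E s) := by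
    refine Finset.sum_nbij' (fun k => -k) (fun k => -k) (fun k hk => ?_) (fun k hk => ?_)
      (fun k _ => neg_neg k) (fun k _ => neg_neg k) (fun k hk => ?_)
    · rw [Finset.mem_filter] at hk ⊢
      exact ⟨Finset.mem_univ _, hk.2⟩
    · rw [Finset.mem_filter] at hk ⊢
      refine ⟨Finset.mem_univ _, ?_⟩
      rw [neg_neg]
      exact hk.2
    · have h4 := hE1 (-k) (Finset.mem_filter.1 hk).2 s
      have h5 : k * s = -(-k * s) := by rw [neg_mul, neg_neg]
      rw [← h5, h5, hE2, h4, smul_neg]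
  rw [h2, h3, Finset.sum_neg_distrib, ← Finset.sum_smul, hF s, add_neg_cancel]

theorem const_sum {G Q : Type} [Fintype G] [AddCommGroup Q] (c : G → ℤ) (E : G → Q) (e : Q)
    (hE : ∀ s, E s = e) (he : e + e = 0) : ∑ s, c s • E s = 0 ∨ ∑ s, c s • E s = e := by
  have h1 : ∑ s, c s • E s = (∑ s, c s) • e := by
    rw [Finset.sum_smul]
    exact Finset.sum_congr rfl fun s _ => by rw [hE s]
  rw [h1]
  rcases Int.even_or_odd' (∑ s, c s) with ⟨k, hk | hk⟩
  · left
    rw [hk, mul_comm, mul_smul, two_smul, he, smul_zero]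
  · right
    rw [hk, add_smul, mul_comm, mul_smul, two_smul, he, smul_zero, zero_add, one_smul]

theorem zpowers_inv {G α : Type} [CommGroup G] (u : G) (Φ : G → α)
    (h : ∀ s, Φ (u * s) = Φ s) : ∀ k ∈ Subgroup.zpowers u, ∀ s, Φ (k * s) = Φ s := by
  intro k hk
  let K : Subgroup G :=
    { carrier := {k | ∀ s, Φ (k * s) = Φ s}
      one_mem' := fun s => by rw [one_mul]
      mul_mem' := fun {a b} ha hb s => by rw [mul_assoc, ha, hb]
      inv_mem' := fun {a} ha s => by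
        have h1 := ha (a⁻¹ * s)
        rw [mul_inv_cancel_left] at h1
        exact h1.symm }
  have h1 : Subgroup.zpowers u ≤ K := by
    rw [Subgroup.zpowers_le]
    exact h
  exact h1 hk

/-! ### The embedding of `ℤ/N` -/

section J

variable {M N g : ℕ} (hM : g * N = M)

include hM in
theorem cast_mod (k : ℕ) : ((g * (k % N) : ℕ) : ZMod M) = ((g * k : ℕ) : ZMod M) := by
  rw [ZMod.natCast_eq_natCast_iff', ← hM, Nat.mul_mod_mul_left, Nat.mul_mod_mul_left, Nat.mod_mod]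

/-- Multiplication by `g` as a map from `ℤ/N` to `ℤ/gN`. -/
def J [NeZero N] : ZMod N →+ ZMod M where
  toFun a := ((g * a.val : ℕ) : ZMod M)
  map_zero' := by rw [ZMod.val_zero, mul_zero, Nat.cast_zero]
  map_add' a b := by
    rw [ZMod.val_add, cast_mod hM]
    push_cast
    ring

include hM in
theorem g_pos (h0 : M ≠ 0) : 0 < g := by
  rcases Nat.eq_zero_or_pos g with h | h
  · exfalso
    rw [h, zero_mul] at hM
    exact h0 hM.symm
  · exact h

variable [NeZero N]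

theorem J_natCast (k : ℕ) : J hM (k : ZMod N) = ((g * k : ℕ) : ZMod M) := by
  change ((g * (k : ZMod N).val : ℕ) : ZMod M) = _
  rw [ZMod.val_natCast, cast_mod hM]

theorem J_mul (m : ℕ) (a : ZMod N) : J hM ((m : ZMod N) * a) = (m : ZMod M) * J hM a := by
  rw [← nsmul_eq_mul, map_nsmul, nsmul_eq_mul]

variable [NeZero M]

theorem val_J (a : ZMod N) : (J hM a).val = g * a.val := by
  change ((g * a.val : ℕ) : ZMod M).val = _
  rw [ZMod.val_natCast, Nat.mod_eq_of_lt]
  have h1 := ZMod.val_lt a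
  calc g * a.val < g * N := (Nat.mul_lt_mul_left (g_pos hM (NeZero.ne M))).2 h1
    _ = M := hM

theorem J_inj : Function.Injective (J hM) := by
  intro a b h
  have h1 := congrArg ZMod.val h
  rw [val_J, val_J] at h1
  exact ZMod.val_injective N (Nat.eq_of_mul_eq_mul_left (g_pos hM (NeZero.ne M)) h1)

theorem saw_J (p f : ℕ) (t : ZMod M) (t' : ZMod N) (ht : t' = (t.val : ZMod N)) (a : ZMod N) :
    saw M p f t (J hM a) = (g : ℤ) * saw N p f t' a := by
  unfold saw
  rw [Finset.mul_sum]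
  refine Finset.sum_congr rfl fun j _ => ?_
  have h1 : (p : ZMod M) ^ j * t * J hM a = J hM ((p : ZMod N) ^ j * t' * a) := by
    have h2 : (p : ZMod N) ^ j * t' = ((p ^ j * t.val : ℕ) : ZMod N) := by
      rw [ht]
      push_cast
      ring
    have h3 : (p : ZMod M) ^ j * t = ((p ^ j * t.val : ℕ) : ZMod M) := by
      rw [Nat.cast_mul, Nat.cast_pow, ZMod.natCast_zmod_val]
    rw [h2, h3, J_mul]
  rw [h1, val_J, ← hM]
  push_cast
  ring

/-- The elements of order `N`. -/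
theorem exists_unit (y : ZMod M) (hy : addOrderOf y = N) : ∃ s : (ZMod N)ˣ, J hM s = y := by
  have h1 : ((N * y.val : ℕ) : ZMod M) = 0 := by
    have h2 := addOrderOf_nsmul_eq_zero y
    rw [hy, nsmul_eq_mul] at h2
    rw [Nat.cast_mul, ZMod.natCast_zmod_val]
    exact h2
  rw [ZMod.natCast_eq_zero_iff] at h1
  have h2 : g * N ∣ y.val * N := by
    rw [hM, mul_comm y.val]
    exact h1
  obtain ⟨k, hk⟩ := Nat.dvd_of_mul_dvd_mul_right (Nat.pos_of_ne_zero (NeZero.ne N)) h2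
  have h3 : y = ((g * k : ℕ) : ZMod M) := by rw [← hk, ZMod.natCast_zmod_val]
  have h4 : N / N.gcd k = N := by
    have h5 := ZMod.addOrderOf_coe (g * k) (NeZero.ne M)
    rw [← h3, hy] at h5
    have h6 : M.gcd (g * k) = g * N.gcd k := by rw [← hM, Nat.gcd_mul_left]
    rw [h6] at h5
    conv_rhs at h5 => rw [← hM]
    rw [Nat.mul_div_mul_left _ _ (g_pos hM (NeZero.ne M))] at h5
    exact h5.symm
  have h5 : k.Coprime N := by
    have h6 : N.gcd k ∣ N := Nat.gcd_dvd_left N k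
    have h7 : N.gcd k * N = N := by
      conv_lhs => rw [← h4]
      rw [h4]
      have := Nat.mul_div_cancel' h6
      rwa [h4] at this
    have h8 : N.gcd k = 1 := by
      have h9 : N.gcd k * N = 1 * N := by rw [h7, one_mul]
      exact Nat.eq_of_mul_eq_mul_right (Nat.pos_of_ne_zero (NeZero.ne N)) h9
    rw [Nat.coprime_comm]
    exact h8
  refine ⟨ZMod.unitOfCoprime k h5, ?_⟩
  rw [ZMod.coe_unitOfCoprime, J_natCast, h3]

end J

end One

open Pool.Agent.Lib.MP81632f.Diag.One in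
/-- Module C4. -/
theorem stOne (h : StBasic) (h4 : StFour) : StOne := by
  intro M p f _ hM1 hf hp ℓ hℓ hℓM v hv hbal
  obtain ⟨hb1, hb2, hb3, hb4, hb5⟩ := h M p f hM1 hf hp
  have hM0 : M ≠ 0 := NeZero.ne M
  have hA : 0 < M.factorization ℓ := hℓ.factorization_pos_of_dvd hM0 hℓM
  have hdvd : ℓ ^ M.factorization ℓ ∣ M := Nat.ordProj_dvd M ℓ
  revert hv hA hdvd
  generalize M.factorization ℓ = A
  intro hv hA hdvd
  have hN0 : ℓ ^ A ≠ 0 := pow_ne_zero _ hℓ.ne_zero
  have : NeZero (ℓ ^ A) := ⟨hN0⟩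
  have hN1 : 1 < ℓ ^ A := Nat.one_lt_pow hA.ne' hℓ.one_lt
  have : Fact (1 < ℓ ^ A) := ⟨hN1⟩
  obtain ⟨g, hg⟩ := hdvd
  have hg' : g * ℓ ^ A = M := by rw [hg, mul_comm]
  have hdvd : ℓ ^ A ∣ M := ⟨g, hg⟩
  -- the unit `p`
  have hpN : (p : ZMod (ℓ ^ A)) ^ f = 1 := by
    have h1 := congrArg (ZMod.castHom hdvd (ZMod (ℓ ^ A))) hp
    rwa [map_pow, map_natCast, map_one] at h1
  obtain ⟨u, hu⟩ : ∃ u : (ZMod (ℓ ^ A))ˣ, (u : ZMod (ℓ ^ A)) = p :=
    ⟨Units.ofPowEqOne (p : ZMod (ℓ ^ A)) f hpN hf.ne', rfl⟩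
  have huf : u ^ f = 1 := Units.ext (by rw [Units.val_pow_eq_pow_val, hu, hpN, Units.val_one])
  -- the embedding
  have hinj : Function.Injective fun s : (ZMod (ℓ ^ A))ˣ => J hg' (s : ZMod (ℓ ^ A)) :=
    fun a b hab => Units.ext (J_inj hg' hab)
  have hrange : ∀ x : ZMod M, x ∉ Set.range (fun s : (ZMod (ℓ ^ A))ˣ => J hg' (s : ZMod (ℓ ^ A))) →
      v x = 0 := by
    intro x hx
    by_contra h1
    exact hx (exists_unit hg' x (hv x h1))
  have hne : ∀ s : (ZMod (ℓ ^ A))ˣ, J hg' (s : ZMod (ℓ ^ A)) ≠ 0 := by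
    intro s hs
    rw [← map_zero (J hg')] at hs
    exact s.ne_zero (J_inj hg' hs)
  have hJu : ∀ s : (ZMod (ℓ ^ A))ˣ, J hg' ((u * s : (ZMod (ℓ ^ A))ˣ) : ZMod (ℓ ^ A)) =
      (p : ZMod M) * J hg' (s : ZMod (ℓ ^ A)) := by
    intro s
    rw [Units.val_mul, hu, J_mul]
  have hJneg : ∀ s : (ZMod (ℓ ^ A))ˣ, J hg' ((-s : (ZMod (ℓ ^ A))ˣ) : ZMod (ℓ ^ A)) =
      - J hg' (s : ZMod (ℓ ^ A)) := by
    intro s
    rw [Units.val_neg, map_neg]
  -- the classes
  obtain ⟨E, hE⟩ : ∃ E : (ZMod (ℓ ^ A))ˣ → (ZMod M → ℤ) ⧸ Sub M p f,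
      ∀ s, E s = QuotientAddGroup.mk (Pi.single (J hg' (s : ZMod (ℓ ^ A))) 1) := ⟨_, fun _ => rfl⟩
  have hEu : ∀ s, E (u * s) = E s := by
    intro s
    rw [hE, hE, hJu, eq_comm, QuotientAddGroup.eq, neg_add_eq_sub]
    exact hb2 _ (hne s)
  have hEneg : ∀ s, E (-s) = - E s := by
    intro s
    rw [hE, hE, hJneg, eq_neg_iff_add_eq_zero, add_comm, ← QuotientAddGroup.mk_add,
      QuotientAddGroup.eq_zero_iff]
    exact hb1 _ (hne s)
  have hEv : (QuotientAddGroup.mk v : (ZMod M → ℤ) ⧸ Sub M p f) =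
      ∑ s : (ZMod (ℓ ^ A))ˣ, v (J hg' (s : ZMod (ℓ ^ A))) • E s := by
    have h1 : v = ∑ x, v x • (Pi.single x (1 : ℤ) : ZMod M → ℤ) := by
      conv_lhs => rw [← Finset.univ_sum_single v]
      refine Finset.sum_congr rfl fun x _ => ?_
      rw [← Pi.single_smul, smul_eq_mul, mul_one]
    have h2 : (QuotientAddGroup.mk' (Sub M p f)) v =
        ∑ x, v x • (QuotientAddGroup.mk' (Sub M p f)) (Pi.single x (1 : ℤ) : ZMod M → ℤ) := by
      conv_lhs => rw [h1]
      rw [map_sum]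
      exact Finset.sum_congr rfl fun x _ => map_zsmul _ _ _
    refine h2.trans ?_
    symm
    refine Fintype.sum_of_injective _ hinj _ _ (fun x hx => ?_) (fun s => ?_)
    · rw [hrange x hx, zero_smul]
    · rw [hE]
      rfl
  by_cases hneg : (-1 : (ZMod (ℓ ^ A))ˣ) ∈ Subgroup.zpowers u
  · -- all sums vanish
    have hsaw : ∀ (s : (ZMod (ℓ ^ A))ˣ) (t : (ZMod M)ˣ),
        saw M p f t (J hg' (s : ZMod (ℓ ^ A))) = 0 := by
      intro s t
      have h1 := zpowers_inv u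
        (fun s : (ZMod (ℓ ^ A))ˣ => saw M p f t (J hg' (s : ZMod (ℓ ^ A)))) (fun s => ?_) _ hneg s
      · change saw M p f t (J hg' ((-1 * s : (ZMod (ℓ ^ A))ˣ) : ZMod (ℓ ^ A))) =
          saw M p f t (J hg' (s : ZMod (ℓ ^ A))) at h1
        rw [neg_mul, one_mul, hJneg, hb4 _ _ t.isUnit (hne s)] at h1
        omega
      · change saw M p f t (J hg' ((u * s : (ZMod (ℓ ^ A))ˣ) : ZMod (ℓ ^ A))) =
          saw M p f t (J hg' (s : ZMod (ℓ ^ A)))
        have h2 := (hb5 _ (hb2 _ (hne s))).2.2 t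
        rw [hJu]
        have h3 : ∀ (a : ZMod M), ∑ x, (Pi.single a (1 : ℤ) : ZMod M → ℤ) x * saw M p f t x =
            saw M p f t a := by
          intro a
          rw [Finset.sum_eq_single a, Pi.single_eq_same, one_mul]
          · intro b _ hb
            rw [Pi.single_eq_of_ne hb, zero_mul]
          · intro hb
            exact absurd (Finset.mem_univ a) hb
        have h4 : ∑ x, (Pi.single ((p : ZMod M) * J hg' (s : ZMod (ℓ ^ A))) (1 : ℤ) -
            Pi.single (J hg' (s : ZMod (ℓ ^ A))) 1 : ZMod M → ℤ) x * saw M p f t x =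
            saw M p f t ((p : ZMod M) * J hg' (s : ZMod (ℓ ^ A))) -
              saw M p f t (J hg' (s : ZMod (ℓ ^ A))) := by
          rw [← h3, ← h3 (J hg' (s : ZMod (ℓ ^ A))), ← Finset.sum_sub_distrib]
          refine Finset.sum_congr rfl fun x _ => ?_
          rw [Pi.sub_apply, sub_mul]
        rw [h4] at h2
        exact sub_eq_zero.1 h2
    have hE1 : ∀ s, E s = E 1 := by
      intro s
      have h1 : ∀ s, E s + E 1 = 0 := by
        intro s
        rw [hE, hE, ← QuotientAddGroup.mk_add, QuotientAddGroup.eq_zero_iff]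
        exact hb3 _ _ (hne s) (hne 1) (hsaw s) (hsaw 1)
      exact (eq_neg_of_add_eq_zero_left (h1 s)).trans (eq_neg_of_add_eq_zero_left (h1 1)).symm
    have hE2 : E 1 + E 1 = 0 := by
      rw [hE, ← QuotientAddGroup.mk_add, QuotientAddGroup.eq_zero_iff]
      exact hb3 _ _ (hne 1) (hne 1) (hsaw 1) (hsaw 1)
    rcases const_sum (fun s : (ZMod (ℓ ^ A))ˣ => v (J hg' (s : ZMod (ℓ ^ A)))) E (E 1) hE1 hE2 with
      hk | hk
    · left
      rw [← QuotientAddGroup.eq_zero_iff]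
      exact hEv.trans hk
    · right
      refine ⟨J hg' ((1 : (ZMod (ℓ ^ A))ˣ) : ZMod (ℓ ^ A)), hne 1, hsaw 1, ?_⟩
      rw [← QuotientAddGroup.eq_zero_iff, QuotientAddGroup.mk_sub, ← hE, sub_eq_zero]
      exact hEv.trans hk
  · left
    have hc : ∀ t : (ZMod (ℓ ^ A))ˣ,
        ∑ x : (ZMod (ℓ ^ A))ˣ, v (J hg' (x : ZMod (ℓ ^ A))) * saw (ℓ ^ A) p f t x = 0 := by
      intro t
      obtain ⟨t', ht'⟩ := ZMod.unitsMap_surjective hdvd t
      have ht : (t : ZMod (ℓ ^ A)) = (((t' : ZMod M).val : ℕ) : ZMod (ℓ ^ A)) := by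
        rw [← ht', ZMod.unitsMap_val, ZMod.cast_eq_val]
      have h1 := hbal t'
      have h2 : ∑ s : (ZMod (ℓ ^ A))ˣ, v (J hg' (s : ZMod (ℓ ^ A))) *
          ((g : ℤ) * saw (ℓ ^ A) p f t s) = ∑ x, v x * saw M p f t' x := by
        refine Fintype.sum_of_injective _ hinj _ _ (fun x hx => ?_) (fun s => ?_)
        · rw [hrange x hx, zero_mul]
        · rw [saw_J hg' p f _ _ ht]
      rw [h1] at h2
      have h3 : (g : ℤ) * ∑ x : (ZMod (ℓ ^ A))ˣ, v (J hg' (x : ZMod (ℓ ^ A))) *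
          saw (ℓ ^ A) p f t x = 0 := by
        rw [Finset.mul_sum, ← h2]
        refine Finset.sum_congr rfl fun x _ => ?_
        ring
      rcases mul_eq_zero.1 h3 with h4 | h4
      · have h5 := g_pos hg' hM0
        omega
      · exact h4
    rw [← QuotientAddGroup.eq_zero_iff, hEv]
    exact sum_eq_zero (Subgroup.zpowers u) hneg _ E (zpowers_inv u E hEu) hEneg
      (h4 ℓ A hℓ p f u hu hf huf (fun s => v (J hg' (s : ZMod (ℓ ^ A)))) hc)

end Pool.Agent.Lib.MP81632f.Diag
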