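import Pool.Agent.Lib.MP_81632f_ag.Diag.Stmts

/-!
# D2: the Gauss sum of the inverse of the Teichmueller character
-/

set_option autoImplicit false

noncomputable section

namespace Pool.Agent.Lib.MP81632f.Diag

open Finset

namespace OneG

variable {p : ℕ} [hp : Fact p.Prime]

theorem norm_p : ‖((p : ℕ) : PadicAlgCl p)‖ = (p : ℝ)⁻¹ := by
  have h := PadicAlgCl.norm_extends p ((p : ℕ) : ℚ_[p])
  rw [Padic.norm_p] at h
  rw [← h]
  exact congrArg norm (map_natCast (algebraMap ℚ_[p] (PadicAlgCl p)) p).symm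

theorem norm_of_pow {x : PadicAlgCl p} {n : ℕ} (h : x ^ n = 1) (hn : n ≠ 0) : ‖x‖ = 1 := by
  have h1 : ‖x‖ ^ n = 1 := by rw [← norm_pow, h, norm_one]
  exact (pow_eq_one_iff_of_nonneg (norm_nonneg _) hn).1 h1

theorem norm_nat_le (n : ℕ) : ‖(n : PadicAlgCl p)‖ ≤ 1 :=
  IsUltrametricDist.norm_natCast_le_one (PadicAlgCl p) n

theorem add_lt {a b : PadicAlgCl p} (ha : ‖a‖ < 1) (hb : ‖b‖ < 1) : ‖a + b‖ < 1 :=
  (IsUltrametricDist.norm_add_le_max a b).trans_lt (max_lt ha hb)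

theorem add_le {a b : PadicAlgCl p} {r : ℝ} (ha : ‖a‖ ≤ r) (hb : ‖b‖ ≤ r) : ‖a + b‖ ≤ r :=
  (IsUltrametricDist.norm_add_le_max a b).trans (max_le ha hb)

theorem sum_le {ι : Type*} (s : Finset ι) (g : ι → PadicAlgCl p) {r : ℝ} (hr : 0 ≤ r)
    (h : ∀ i ∈ s, ‖g i‖ ≤ r) : ‖∑ i ∈ s, g i‖ ≤ r := by
  classical
  induction s using Finset.induction_on with
  | empty => simpa using hr
  | insert a s ha ih =>
    rw [Finset.sum_insert ha]
    exact add_le (h a (Finset.mem_insert_self a s))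
      (ih fun i hi => h i (Finset.mem_insert_of_mem hi))

theorem sum_lt {ι : Type*} (s : Finset ι) (g : ι → PadicAlgCl p)
    (h : ∀ i ∈ s, ‖g i‖ < 1) : ‖∑ i ∈ s, g i‖ < 1 := by
  classical
  induction s using Finset.induction_on with
  | empty => simp
  | insert a s ha ih =>
    rw [Finset.sum_insert ha]
    exact add_lt (h a (Finset.mem_insert_self a s))
      (ih fun i hi => h i (Finset.mem_insert_of_mem hi))

theorem one_sub_pow_le {x : PadicAlgCl p} (hx : ‖x‖ = 1) (m : ℕ) : ‖1 - x ^ m‖ ≤ ‖1 - x‖ := by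
  rw [← mul_neg_geom_sum x m, norm_mul]
  have h : ‖∑ i ∈ range m, x ^ i‖ ≤ 1 :=
    sum_le _ _ zero_le_one fun i _ => by rw [norm_pow, hx, one_pow]
  calc ‖1 - x‖ * ‖∑ i ∈ range m, x ^ i‖ ≤ ‖1 - x‖ * 1 :=
        mul_le_mul_of_nonneg_left h (norm_nonneg _)
    _ = ‖1 - x‖ := mul_one _

theorem norm_one_sub_pow {ζ : PadicAlgCl p} (hζ : IsPrimitiveRoot ζ p) {k : ℕ} (hk : k + 1 < p) :
    ‖1 - ζ ^ (k + 1)‖ = ‖1 - ζ‖ := by
  have hz : ‖ζ‖ = 1 := norm_of_pow hζ.pow_eq_one hp.out.ne_zero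
  refine le_antisymm (one_sub_pow_le hz _) ?_
  have hcop : (k + 1).Coprime p := Nat.Coprime.symm
    ((Nat.Prime.coprime_iff_not_dvd hp.out).2 (Nat.not_dvd_of_pos_of_lt (Nat.succ_pos k) hk))
  have hprim : IsPrimitiveRoot (ζ ^ (k + 1)) p := hζ.pow_of_coprime _ hcop
  have : NeZero p := ⟨hp.out.ne_zero⟩
  obtain ⟨i, -, hi⟩ := hprim.eq_pow_of_pow_eq_one hζ.pow_eq_one
  have h1 : ‖ζ ^ (k + 1)‖ = 1 := by rw [norm_pow, hz, one_pow]
  have h2 := one_sub_pow_le h1 i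
  rw [hi] at h2
  exact h2

theorem norm_pi {ζ : PadicAlgCl p} (hζ : IsPrimitiveRoot ζ p) :
    ‖ζ - 1‖ ^ (p - 1) = (p : ℝ)⁻¹ := by
  obtain ⟨n, hn⟩ : ∃ n, p = n + 1 := ⟨p - 1, by have := hp.out.one_lt; omega⟩
  have hζ' : IsPrimitiveRoot ζ (n + 1) := hn ▸ hζ
  have h := hζ'.prod_one_sub_pow_eq_order
  have h2 : ‖∏ k ∈ range n, (1 - ζ ^ (k + 1))‖ = ‖1 - ζ‖ ^ n := by
    rw [norm_prod]
    rw [Finset.prod_congr rfl (g := fun _ => ‖1 - ζ‖)
      (fun k hk => norm_one_sub_pow hζ (by have := Finset.mem_range.1 hk; omega))]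
    simp
  have h3 : ((n : PadicAlgCl p) + 1) = ((p : ℕ) : PadicAlgCl p) := by
    have h5 : ((n + 1 : ℕ) : PadicAlgCl p) = ((p : ℕ) : PadicAlgCl p) :=
      congrArg (fun k : ℕ => (k : PadicAlgCl p)) hn.symm
    rw [← h5, Nat.cast_add, Nat.cast_one]
  have h4 : p - 1 = n := by omega
  rw [h3] at h
  rw [h4, norm_sub_rev, ← h2, h, norm_p]

theorem pow_approx {ζ : PadicAlgCl p} (hz : ‖ζ‖ = 1) (m : ℕ) :
    ‖ζ ^ m - 1 - m * (ζ - 1)‖ ≤ ‖ζ - 1‖ ^ 2 := by
  induction m with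
  | zero => simp
  | succ m ih =>
    have h : ζ ^ (m + 1) - 1 - ((m + 1 : ℕ) : PadicAlgCl p) * (ζ - 1) =
        (m : PadicAlgCl p) * (ζ - 1) ^ 2 + ζ * (ζ ^ m - 1 - m * (ζ - 1)) := by
      push_cast; ring
    rw [h]
    refine add_le ?_ ?_
    · rw [norm_mul, norm_pow]
      calc ‖(m : PadicAlgCl p)‖ * ‖ζ - 1‖ ^ 2 ≤ 1 * ‖ζ - 1‖ ^ 2 :=
            mul_le_mul_of_nonneg_right (norm_nat_le m) (by positivity)
        _ = ‖ζ - 1‖ ^ 2 := one_mul _
    · rw [norm_mul, hz, one_mul]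
      exact ih

section Field

variable {F : Type} [Field F] [Fintype F]

theorem norm_apply (χ : MulChar F (PadicAlgCl p)) {c : F} (hc : c ≠ 0) : ‖χ c‖ = 1 := by
  have h : χ c ^ (Fintype.card F - 1) = 1 := by
    rw [← map_pow, FiniteField.pow_card_sub_one_eq_one c hc, map_one]
  have h1 : 1 < Fintype.card F := Fintype.one_lt_card
  exact norm_of_pow h (by omega)

theorem norm_apply_le (χ : MulChar F (PadicAlgCl p)) (c : F) : ‖χ c‖ ≤ 1 := by
  by_cases hc : c = 0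
  · rw [hc, MulChar.map_zero, norm_zero]; exact zero_le_one
  · exact (norm_apply χ hc).le

variable {ω : MulChar F (PadicAlgCl p)}

theorem nat_approx (h : ∀ x y : F, ‖ω x + ω y - ω (x + y)‖ < 1) (n : ℕ) :
    ‖(n : PadicAlgCl p) - ω (n : F)‖ < 1 := by
  induction n with
  | zero =>
    rw [Nat.cast_zero, Nat.cast_zero, MulChar.map_zero, sub_zero, norm_zero]
    exact one_pos
  | succ n ih =>
    have e : ((n + 1 : ℕ) : PadicAlgCl p) - ω ((n + 1 : ℕ) : F) =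
        ((n : PadicAlgCl p) - ω (n : F)) + (ω (n : F) + ω 1 - ω ((n : F) + 1)) := by
      push_cast
      rw [map_one]
      ring
    rw [e]
    exact add_lt ih (h _ _)

theorem sum_approx (h : ∀ x y : F, ‖ω x + ω y - ω (x + y)‖ < 1) {ι : Type*} (s : Finset ι)
    (g : ι → F) : ‖∑ i ∈ s, ω (g i) - ω (∑ i ∈ s, g i)‖ < 1 := by
  classical
  induction s using Finset.induction_on with
  | empty =>
    rw [Finset.sum_empty, Finset.sum_empty, MulChar.map_zero, sub_zero, norm_zero]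
    exact one_pos
  | insert a s ha ih =>
    rw [Finset.sum_insert ha, Finset.sum_insert ha]
    have e : ω (g a) + ∑ i ∈ s, ω (g i) - ω (g a + ∑ i ∈ s, g i) =
        (∑ i ∈ s, ω (g i) - ω (∑ i ∈ s, g i)) +
          (ω (g a) + ω (∑ i ∈ s, g i) - ω (g a + ∑ i ∈ s, g i)) := by ring
    rw [e]
    exact add_lt ih (h _ _)

/-- the main computation: the character sum of the traces is a unit -/
theorem norm_A [Algebra (ZMod p) F] (hω : orderOf ω = Fintype.card F - 1)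
    (hq : 2 < Fintype.card F) (h : ∀ x y : F, ‖ω x + ω y - ω (x + y)‖ < 1) :
    ‖∑ x : F, ω⁻¹ x * (((Algebra.trace (ZMod p) F x).val : ℕ) : PadicAlgCl p)‖ = 1 := by
  classical
  set f := Module.finrank (ZMod p) F with hf
  have hcard : Fintype.card F = p ^ f := by
    have := Module.card_eq_pow_finrank (K := ZMod p) (V := F)
    rw [ZMod.card] at this
    exact this
  have hpos : 0 < f := Module.finrank_pos
  -- the approximation of the trace
  have key : ∀ x : F, ‖(((Algebra.trace (ZMod p) F x).val : ℕ) : PadicAlgCl p) -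
      ∑ i ∈ range f, ω x ^ (p ^ i)‖ < 1 := by
    intro x
    set m := (Algebra.trace (ZMod p) F x).val with hm
    have h1 : ((m : ℕ) : F) = ∑ i ∈ range f, x ^ (p ^ i) := by
      have h2 := FiniteField.algebraMap_trace_eq_sum_pow (ZMod p) F x
      rw [Nat.card_zmod] at h2
      rw [← h2, hm]
      rw [← map_natCast (algebraMap (ZMod p) F), ZMod.natCast_zmod_val]
    have h3 := nat_approx h m
    have h4 := sum_approx h (range f) (fun i => x ^ (p ^ i))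
    rw [← h1] at h4
    have e : ((m : ℕ) : PadicAlgCl p) - ∑ i ∈ range f, ω x ^ (p ^ i) =
        ((m : PadicAlgCl p) - ω (m : F)) + -(∑ i ∈ range f, ω (x ^ (p ^ i)) - ω (m : F)) := by
      simp only [map_pow]
      ring
    rw [e]
    refine add_lt h3 ?_
    rw [norm_neg]
    exact h4
  -- the main term
  have main : ∑ x : F, ω⁻¹ x * ∑ i ∈ range f, ω x ^ (p ^ i) = (Fintype.card F : PadicAlgCl p) - 1 := by
    have e1 : ∀ x : F, ω⁻¹ x * ∑ i ∈ range f, ω x ^ (p ^ i) =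
        ∑ i ∈ range f, (ω ^ (p ^ i - 1)) x := by
      intro x
      rw [Finset.mul_sum]
      refine Finset.sum_congr rfl fun i _ => ?_
      have hpi : 0 < p ^ i := pow_pos hp.out.pos i
      have e2 : ω⁻¹ * ω ^ (p ^ i) = ω ^ (p ^ i - 1) := by
        obtain ⟨k, hk⟩ : ∃ k, p ^ i = k + 1 := ⟨p ^ i - 1, by omega⟩
        rw [hk, Nat.add_sub_cancel, pow_succ', inv_mul_cancel_left]
      rw [← e2, MulChar.mul_apply, MulChar.pow_apply' _ hpi.ne']
    rw [Finset.sum_congr rfl fun x _ => e1 x, Finset.sum_comm]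
    obtain ⟨g, hg⟩ : ∃ g, f = g + 1 := ⟨f - 1, by omega⟩
    rw [hg, Finset.sum_range_succ', pow_zero, Nat.sub_self, pow_zero, MulChar.sum_one_eq_card_units,
      Finset.sum_eq_zero, zero_add, Fintype.card_units]
    · rw [Nat.cast_sub Fintype.card_pos, Nat.cast_one]
    · intro i hi
      apply MulChar.sum_eq_zero_of_ne_one
      intro hone
      have hd := orderOf_dvd_of_pow_eq_one hone
      rw [hω, hcard] at hd
      have hi' : i + 1 < f := by have := Finset.mem_range.1 hi; omega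
      have h1 : p ^ (i + 1) < p ^ f := Nat.pow_lt_pow_right hp.out.one_lt hi'
      have h2 : 1 < p ^ (i + 1) := Nat.one_lt_pow (Nat.succ_ne_zero i) hp.out.one_lt
      have h3 := Nat.le_of_dvd (by omega) hd
      omega
  have herr : ‖∑ x : F, ω⁻¹ x * ((((Algebra.trace (ZMod p) F x).val : ℕ) : PadicAlgCl p) -
      ∑ i ∈ range f, ω x ^ (p ^ i))‖ < 1 := by
    refine sum_lt _ _ fun x _ => ?_
    rw [norm_mul]
    calc ‖ω⁻¹ x‖ * _ ≤ 1 * ‖(((Algebra.trace (ZMod p) F x).val : ℕ) : PadicAlgCl p) -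
          ∑ i ∈ range f, ω x ^ (p ^ i)‖ :=
          mul_le_mul_of_nonneg_right (norm_apply_le _ _) (norm_nonneg _)
      _ < 1 := by rw [one_mul]; exact key x
  have hq1 : ‖(Fintype.card F : PadicAlgCl p)‖ < 1 := by
    rw [hcard, Nat.cast_pow, norm_pow, norm_p]
    exact pow_lt_one₀ (by positivity) (inv_lt_one_of_one_lt₀ (by exact_mod_cast hp.out.one_lt))
      hpos.ne'
  have etot : ∑ x : F, ω⁻¹ x * (((Algebra.trace (ZMod p) F x).val : ℕ) : PadicAlgCl p) =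
      -1 + ((Fintype.card F : PadicAlgCl p) + ∑ x : F, ω⁻¹ x *
        ((((Algebra.trace (ZMod p) F x).val : ℕ) : PadicAlgCl p) -
        ∑ i ∈ range f, ω x ^ (p ^ i))) := by
    simp only [mul_sub, Finset.sum_sub_distrib]
    rw [main]
    ring
  rw [etot]
  have h5 := add_lt hq1 herr
  have h6 : ‖(-1 : PadicAlgCl p)‖ = 1 := by rw [norm_neg, norm_one]
  rw [IsUltrametricDist.norm_add_eq_max_of_norm_ne_norm (by rw [h6]; exact h5.ne'), h6]
  exact max_eq_left h5.le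

end Field

end OneG

open OneG in
theorem stOneG (hSh : StShift) : StOneG := by
  intro p hp F _ _ _ ω hω h ψ hψ
  classical
  let _ : Algebra (ZMod p) F := ZMod.algebra F p
  by_cases hq : Fintype.card F = 2
  · have h1 : ω = 1 := by
      rw [← orderOf_eq_one_iff, hω, hq]
    rw [h1, inv_one, gaussSum_one_left hψ, norm_neg, norm_one, one_pow]
    exact inv_le_one_of_one_le₀ (by exact_mod_cast hp.out.one_lt.le)
  have hq2 : 2 < Fintype.card F := by
    have : 1 < Fintype.card F := Fintype.one_lt_card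
    omega
  obtain ⟨ζ, hζ⟩ : ∃ ζ : PadicAlgCl p, IsPrimitiveRoot ζ p := by
    have : NeZero ((p : ℕ) : PadicAlgCl p) := ⟨Nat.cast_ne_zero.2 hp.out.ne_zero⟩
    have : NeZero p := ⟨hp.out.ne_zero⟩
    exact HasEnoughRootsOfUnity.exists_primitiveRoot (PadicAlgCl p) p
  have hz : ‖ζ‖ = 1 := norm_of_pow hζ.pow_eq_one hp.out.ne_zero
  have : NeZero p := ⟨hp.out.ne_zero⟩
  set ψ₀ : AddChar F (PadicAlgCl p) :=
    (AddChar.zmodChar p hζ.pow_eq_one).compAddMonoidHom (Algebra.trace (ZMod p) F).toAddMonoidHom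
    with hψ₀
  have hval : ∀ x, ψ₀ x = ζ ^ (Algebra.trace (ZMod p) F x).val := fun x => rfl
  have hne : ψ₀ ≠ 1 := by
    obtain ⟨x, hx⟩ := Algebra.trace_surjective (ZMod p) F 1
    intro h1
    have h2 : ψ₀ x = 1 := by rw [h1]; rfl
    have : Fact (1 < p) := ⟨hp.out.one_lt⟩
    rw [hval, hx, ZMod.val_one, pow_one] at h2
    exact hζ.ne_one hp.out.one_lt h2
  obtain ⟨c, hc, rfl⟩ := hSh F (PadicAlgCl p) ψ₀ ψ hne hψ
  have e1 : ‖gaussSum ω⁻¹ (AddChar.mulShift ψ₀ c)‖ = ‖gaussSum ω⁻¹ ψ₀‖ := by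
    have h1 := gaussSum_mulShift ω⁻¹ ψ₀ (Units.mk0 c hc)
    rw [Units.val_mk0] at h1
    rw [← h1, norm_mul, norm_apply _ hc, one_mul]
  rw [e1]
  have hpi := norm_pi hζ
  have hpipos : 0 < ‖ζ - 1‖ := by
    rw [norm_pos_iff, sub_ne_zero]
    exact hζ.ne_one hp.out.one_lt
  have hpilt : ‖ζ - 1‖ < 1 := by
    by_contra hcon
    rw [not_lt] at hcon
    have h1 : (1 : ℝ) ≤ ‖ζ - 1‖ ^ (p - 1) := one_le_pow₀ hcon
    rw [hpi] at h1
    have h2 : (p : ℝ)⁻¹ < 1 := inv_lt_one_of_one_lt₀ (by exact_mod_cast hp.out.one_lt)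
    linarith
  have hω1 : ω⁻¹ ≠ 1 := by
    intro h1
    rw [inv_eq_one] at h1
    rw [h1, orderOf_one] at hω
    omega
  have e2 : gaussSum ω⁻¹ ψ₀ =
      (ζ - 1) * (∑ x : F, ω⁻¹ x * (((Algebra.trace (ZMod p) F x).val : ℕ) : PadicAlgCl p)) +
      ∑ x : F, ω⁻¹ x * (ζ ^ (Algebra.trace (ZMod p) F x).val - 1 -
        ((Algebra.trace (ZMod p) F x).val : PadicAlgCl p) * (ζ - 1)) := by
    have h0 := MulChar.sum_eq_zero_of_ne_one hω1
    rw [gaussSum, Finset.mul_sum, ← Finset.sum_add_distrib, ← sub_eq_zero, ← Finset.sum_sub_distrib,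
      ← h0]
    refine Finset.sum_congr rfl fun x _ => ?_
    rw [hval]
    ring
  have hsmall : ‖∑ x : F, ω⁻¹ x * (ζ ^ (Algebra.trace (ZMod p) F x).val - 1 -
        ((Algebra.trace (ZMod p) F x).val : PadicAlgCl p) * (ζ - 1))‖ ≤ ‖ζ - 1‖ ^ 2 := by
    refine sum_le _ _ (by positivity) fun x _ => ?_
    rw [norm_mul]
    calc ‖ω⁻¹ x‖ * _ ≤ 1 * ‖ζ ^ (Algebra.trace (ZMod p) F x).val - 1 -
        ((Algebra.trace (ZMod p) F x).val : PadicAlgCl p) * (ζ - 1)‖ :=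
          mul_le_mul_of_nonneg_right (norm_apply_le _ _) (norm_nonneg _)
      _ ≤ ‖ζ - 1‖ ^ 2 := by rw [one_mul]; exact pow_approx hz _
  have hmain : ‖(ζ - 1) * (∑ x : F, ω⁻¹ x *
      (((Algebra.trace (ZMod p) F x).val : ℕ) : PadicAlgCl p))‖ = ‖ζ - 1‖ := by
    rw [norm_mul, norm_A hω hq2 h, mul_one]
  have hlt : ‖ζ - 1‖ ^ 2 < ‖ζ - 1‖ := by nlinarith
  have e3 : ‖gaussSum ω⁻¹ ψ₀‖ = ‖ζ - 1‖ := by
    rw [e2, IsUltrametricDist.norm_add_eq_max_of_norm_ne_norm, hmain]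
    · exact max_eq_left (hsmall.trans hlt.le)
    · rw [hmain]
      exact (hsmall.trans_lt hlt).ne'
  rw [e3, hpi]

end Pool.Agent.Lib.MP81632f.Diag
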