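import Pool.Agent.Lib.MP_81632f_ag.Diag.Stmts

/-!
# C5: prime powers and twice prime powers (assembly of the lattice theorem)
-/

set_option autoImplicit false

noncomputable section

namespace Pool.Agent.Lib.MP81632f.Diag

open Finset

namespace PP

variable {M : ℕ}

lemma cnt_zero : cnt (0 : Multiset (ZMod M)) = 0 := by
  funext y; simp [cnt]

lemma cnt_cons (x : ZMod M) (X : Multiset (ZMod M)) :
    cnt (x ::ₘ X) = Pi.single x 1 + cnt X := by
  funext y
  simp only [cnt, Pi.add_apply, Multiset.count_cons, Pi.single_apply]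
  push_cast
  split_ifs <;> ring

lemma sum_single_mul [NeZero M] (x : ZMod M) (g : ZMod M → ℤ) :
    ∑ y, (Pi.single x (1 : ℤ) : ZMod M → ℤ) y * g y = g x := by
  rw [Finset.sum_eq_single x]
  · simp
  · intro b _ hb
    simp [Pi.single_eq_of_ne hb]
  · intro h; exact absurd (Finset.mem_univ x) h

lemma sum_single [NeZero M] (x : ZMod M) :
    ∑ y, (Pi.single x (1 : ℤ) : ZMod M → ℤ) y = 1 := by
  have := sum_single_mul x (fun _ => 1)
  simpa using this

lemma sum_cnt_mul [NeZero M] (X : Multiset (ZMod M)) (g : ZMod M → ℤ) :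
    ∑ y, cnt X y * g y = (X.map g).sum := by
  induction X using Multiset.induction with
  | empty => simp [cnt_zero]
  | cons a s ih =>
    rw [cnt_cons, Multiset.map_cons, Multiset.sum_cons, ← ih]
    simp only [Pi.add_apply, add_mul, Finset.sum_add_distrib]
    rw [sum_single_mul]

lemma sum_cnt [NeZero M] (X : Multiset (ZMod M)) :
    ∑ y, cnt X y = (Multiset.card X : ℤ) := by
  have := sum_cnt_mul X (fun _ => 1)
  simpa using this

/-- the support condition -/
def Top (M : ℕ) (y : ZMod M) : Prop :=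
  (2 * y = 0 ∧ y ≠ 0) ∨ ∃ ℓ : ℕ, ℓ.Prime ∧ ℓ ∣ M ∧ addOrderOf y = ℓ ^ (M.factorization ℓ)

/-- elements of `Sub` and `Sub` plus one element with vanishing sawtooth sums -/
def Gd (M p f : ℕ) : Set (ZMod M → ℤ) :=
  {v | v ∈ Sub M p f ∨ ∃ y : ZMod M, y ≠ 0 ∧ (∀ t : (ZMod M)ˣ, saw M p f t y = 0) ∧
    v - Pi.single y 1 ∈ Sub M p f}

lemma gd_add (p f : ℕ) (h3 : ∀ x y : ZMod M, x ≠ 0 → y ≠ 0 →
      (∀ t : (ZMod M)ˣ, saw M p f t x = 0) → (∀ t : (ZMod M)ˣ, saw M p f t y = 0) →
      Pi.single x 1 + Pi.single y 1 ∈ Sub M p f) {v w : ZMod M → ℤ}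
    (hv : v ∈ Gd M p f) (hw : w ∈ Gd M p f) : v + w ∈ Gd M p f := by
  rcases hv with hv | ⟨y, hy, hys, hv⟩
  · rcases hw with hw | ⟨z, hz, hzs, hw⟩
    · exact Or.inl (AddSubgroup.add_mem _ hv hw)
    · refine Or.inr ⟨z, hz, hzs, ?_⟩
      have := AddSubgroup.add_mem _ hv hw
      rwa [← add_sub_assoc] at this
  · rcases hw with hw | ⟨z, hz, hzs, hw⟩
    · refine Or.inr ⟨y, hy, hys, ?_⟩
      have := AddSubgroup.add_mem _ hv hw
      rwa [sub_add_eq_add_sub] at this
    · refine Or.inl ?_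
      have h1 := AddSubgroup.add_mem _ (AddSubgroup.add_mem _ hv hw) (h3 y z hy hz hys hzs)
      have h2 : (v - Pi.single y 1 + (w - Pi.single z 1) + (Pi.single y 1 + Pi.single z 1)
          : ZMod M → ℤ) = v + w := by abel
      rwa [h2] at h1

lemma gd_neg (p f : ℕ) (h3 : ∀ x y : ZMod M, x ≠ 0 → y ≠ 0 →
      (∀ t : (ZMod M)ˣ, saw M p f t x = 0) → (∀ t : (ZMod M)ˣ, saw M p f t y = 0) →
      Pi.single x 1 + Pi.single y 1 ∈ Sub M p f) {v : ZMod M → ℤ}
    (hv : v ∈ Gd M p f) : -v ∈ Gd M p f := by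
  rcases hv with hv | ⟨y, hy, hys, hv⟩
  · exact Or.inl (AddSubgroup.neg_mem _ hv)
  · refine Or.inr ⟨y, hy, hys, ?_⟩
    have h1 := AddSubgroup.sub_mem _ (AddSubgroup.neg_mem _ hv) (h3 y y hy hy hys hys)
    have h2 : (-(v - Pi.single y 1) - (Pi.single y 1 + Pi.single y 1) : ZMod M → ℤ) =
        -v - Pi.single y 1 := by abel
    rwa [h2] at h1

/-- `Gd` as a subgroup -/
def GdSub (p f : ℕ) (h3 : ∀ x y : ZMod M, x ≠ 0 → y ≠ 0 →
      (∀ t : (ZMod M)ˣ, saw M p f t x = 0) → (∀ t : (ZMod M)ˣ, saw M p f t y = 0) →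
      Pi.single x 1 + Pi.single y 1 ∈ Sub M p f) : AddSubgroup (ZMod M → ℤ) where
  carrier := Gd M p f
  zero_mem' := Or.inl (AddSubgroup.zero_mem _)
  add_mem' := fun hv hw => gd_add p f h3 hv hw
  neg_mem' := fun hv => gd_neg p f h3 hv

/-- reduction of multisets to the top levels -/
lemma red (hR : StRed) (p f : ℕ) [NeZero M] (hM : 1 < M) (hf : 0 < f) (hp : (p : ZMod M) ^ f = 1)
    (X : Multiset (ZMod M)) (hX : ∀ x ∈ X, x ≠ 0 ∧ IsPP (addOrderOf x)) :
    ∃ w : ZMod M → ℤ, cnt X - w ∈ Sub M p f ∧ ∀ y, w y ≠ 0 → Top M y := by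
  induction X using Multiset.induction with
  | empty =>
    refine ⟨0, ?_, fun y hy => absurd rfl hy⟩
    rw [cnt_zero, sub_zero]
    exact AddSubgroup.zero_mem _
  | cons a s ih =>
    obtain ⟨w, hw, hwt⟩ := ih (fun x hx => hX x (Multiset.mem_cons_of_mem hx))
    obtain ⟨ha0, haP⟩ := hX a (Multiset.mem_cons_self a s)
    obtain ⟨v, hv, hvt⟩ := hR M p f hM hf hp a ha0 haP
    refine ⟨v + w, ?_, ?_⟩
    · have h1 := AddSubgroup.add_mem _ hv hw
      have h2 : (Pi.single a 1 - v + (cnt s - w) : ZMod M → ℤ) = cnt (a ::ₘ s) - (v + w) := by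
        rw [cnt_cons]; abel
      rwa [h2] at h1
    · intro y hy
      by_cases h : v y = 0
      · apply hwt
        intro h0
        apply hy
        rw [Pi.add_apply, h, h0, add_zero]
      · exact hvt y h

lemma top_unique [NeZero M] {ℓ ℓ' : ℕ} (hl : ℓ.Prime) (hlM : ℓ ∣ M) (hl' : ℓ'.Prime)
    (h : ℓ ^ (M.factorization ℓ) = ℓ' ^ (M.factorization ℓ')) : ℓ = ℓ' := by
  have hM : M ≠ 0 := NeZero.ne M
  have h1 : 0 < M.factorization ℓ := hl.factorization_pos_of_dvd hM hlM
  have h2 : ℓ ∣ ℓ' ^ (M.factorization ℓ') := by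
    rw [← h]; exact dvd_pow_self ℓ h1.ne'
  exact (Nat.prime_dvd_prime_iff_eq hl hl').mp (hl.dvd_of_dvd_pow h2)

end PP

open PP in
theorem stPP (hB : StBasic) (hR : StRed) (hS : StSep) (hO : StOne) : StPP := by
  intro M p f _ hM hf hp X hX hbal heven
  obtain ⟨-, -, h3, h4, h5⟩ := hB M p f hM hf hp
  obtain ⟨w, hw, hwt⟩ := red hR p f hM hf hp X hX
  obtain ⟨-, hev, hbw⟩ := h5 _ hw
  -- balanced
  have hwb : ∀ t : (ZMod M)ˣ, ∑ x, w x * saw M p f t x = 0 := by
    intro t
    have h1 := hbw t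
    simp only [Pi.sub_apply, sub_mul, Finset.sum_sub_distrib] at h1
    rw [sum_cnt_mul X (fun x => saw M p f t x), hbal t, zero_sub, neg_eq_zero] at h1
    exact h1
  -- even
  have hwe : Even (∑ x, w x) := by
    simp only [Pi.sub_apply, Finset.sum_sub_distrib] at hev
    rw [sum_cnt X] at hev
    have h1 : Even ((Multiset.card X : ℕ) : ℤ) := (Int.even_coe_nat _).mpr heven
    rcases hev with ⟨a, ha⟩
    rcases h1 with ⟨b, hb⟩
    exact ⟨b - a, by omega⟩
  have hsep := hS M p f hM hf hp w hwt hwb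
  -- membership in the subgroup
  set G := GdSub p f h3 with hG
  have hwG : w ∈ G := by
    -- pieces
    let wl : ℕ → ZMod M → ℤ := fun ℓ y =>
      if addOrderOf y = ℓ ^ (M.factorization ℓ) then w y else 0
    let w0 : ZMod M → ℤ := fun y =>
      if ∃ ℓ ∈ M.primeFactors, addOrderOf y = ℓ ^ (M.factorization ℓ) then 0 else w y
    have hdec : w = w0 + ∑ ℓ ∈ M.primeFactors, wl ℓ := by
      funext y
      rw [Pi.add_apply, Finset.sum_apply]
      by_cases hy : ∃ ℓ ∈ M.primeFactors, addOrderOf y = ℓ ^ (M.factorization ℓ)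
      · have h0 : w0 y = 0 := if_pos hy
        obtain ⟨ℓ, hl, hly⟩ := hy
        rw [h0, zero_add, Finset.sum_eq_single ℓ]
        · exact (if_pos hly).symm
        · intro ℓ' hl' hne
          apply if_neg
          intro h
          apply hne
          have hp1 := (Nat.mem_primeFactors.mp hl).1
          have hd1 := (Nat.mem_primeFactors.mp hl).2.1
          have hp2 := (Nat.mem_primeFactors.mp hl').1
          exact (top_unique hp1 hd1 hp2 (hly.symm.trans h)).symm
        · intro h; exact absurd hl h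
      · have h0 : w0 y = w y := if_neg hy
        rw [h0, Finset.sum_eq_zero, add_zero]
        intro ℓ hl
        apply if_neg
        intro h
        exact hy ⟨ℓ, hl, h⟩
    rw [hdec]
    apply AddSubgroup.add_mem
    · -- the part of order two
      have hsum : w0 = ∑ y, w0 y • (Pi.single y (1 : ℤ) : ZMod M → ℤ) := by
        funext z
        rw [Finset.sum_apply, Finset.sum_eq_single z]
        · simp
        · intro b _ hb
          simp [Pi.single_eq_of_ne hb.symm]
        · intro h; exact absurd (Finset.mem_univ z) h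
      rw [hsum]
      apply AddSubgroup.sum_mem
      intro y _
      by_cases hy0 : w0 y = 0
      · rw [hy0, zero_smul]; exact AddSubgroup.zero_mem _
      · have hnot : ¬ ∃ ℓ ∈ M.primeFactors, addOrderOf y = ℓ ^ (M.factorization ℓ) := by
          intro h
          exact hy0 (if_pos h)
        have hwy : w y ≠ 0 := by
          have : w0 y = w y := if_neg hnot
          rwa [this] at hy0
        have h2y : 2 * y = 0 ∧ y ≠ 0 := by
          rcases hwt y hwy with h | ⟨ℓ, hl, hd, ho⟩
          · exact h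
          · exact absurd ⟨ℓ, Nat.mem_primeFactors.mpr ⟨hl, hd, NeZero.ne M⟩, ho⟩ hnot
        have hneg : -y = y := by
          have h1 : y + y = 0 := by rw [← two_mul]; exact h2y.1
          exact neg_eq_of_add_eq_zero_left h1
        apply AddSubgroup.zsmul_mem
        refine Or.inr ⟨y, h2y.2, ?_, ?_⟩
        · intro t
          have h1 := h4 t y t.isUnit h2y.2
          rw [hneg] at h1
          omega
        · rw [sub_self]; exact AddSubgroup.zero_mem _
    · apply AddSubgroup.sum_mem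
      intro ℓ hl
      have hpl := (Nat.mem_primeFactors.mp hl).1
      have hdl := (Nat.mem_primeFactors.mp hl).2.1
      have h1 := hO M p f hM hf hp ℓ hpl hdl (wl ℓ) ?_ ?_
      · exact h1
      · intro y hy
        by_contra hne
        exact hy (if_neg hne)
      · intro t
        have h2 := hsep ℓ hpl hdl t
        rw [← h2, Finset.sum_filter]
        apply Finset.sum_congr rfl
        intro x _
        by_cases hx : addOrderOf x = ℓ ^ (M.factorization ℓ)
        · have : wl ℓ x = w x := if_pos hx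
          rw [this, if_pos hx]
        · have : wl ℓ x = 0 := if_neg hx
          rw [this, if_neg hx, zero_mul]
  rcases hwG with h | ⟨y, hy, hys, h⟩
  · have h1 := AddSubgroup.add_mem _ hw h
    rwa [sub_add_cancel] at h1
  · exfalso
    obtain ⟨-, hev', -⟩ := h5 _ h
    simp only [Pi.sub_apply, Finset.sum_sub_distrib] at hev'
    rw [sum_single] at hev'
    rcases hev' with ⟨a, ha⟩
    rcases hwe with ⟨b, hb⟩
    omega

end Pool.Agent.Lib.MP81632f.Diag
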