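import Pool.Agent.Lib.MP_81632f_ag.Diag.Stmts2
import Pool.Agent.Lib.MP_81632f_ag.Diag.Four

/-!
# B4: the rank of the space of sawtooth functions
-/

set_option autoImplicit false

noncomputable section

namespace Pool.Agent.Lib.MP81632f.Diag

namespace RankAux

open Finset Four

theorem val_lift {M N : ℕ} [NeZero M] [NeZero N] (hNM : N ∣ M) (y : ZMod M) :
    (((M / N : ℕ) : ZMod M) * y).val = (M / N) * (ZMod.castHom hNM (ZMod N) y).val := by
  have h1 : (ZMod.castHom hNM (ZMod N) y).val = y.val % N := by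
    rw [ZMod.castHom_apply, ZMod.cast_eq_val, ZMod.val_natCast]
  have h2 : ((M / N : ℕ) : ZMod M) * y = ((M / N * y.val : ℕ) : ZMod M) := by
    rw [Nat.cast_mul, ZMod.natCast_zmod_val]
  rw [h1, h2, ZMod.val_natCast, ← Nat.mul_mod_mul_left, Nat.div_mul_cancel hNM]

theorem saw_lift {M N : ℕ} [NeZero M] [NeZero N] (hNM : N ∣ M) (p f : ℕ) (t : (ZMod M)ˣ)
    (s : ZMod N) :
    saw M p f t (((M / N : ℕ) : ZMod M) * (s.val : ZMod M)) =
      ((M / N : ℕ) : ℤ) * saw N p f 1 ((ZMod.unitsMap hNM t : (ZMod N)ˣ) * s) := by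
  unfold saw
  rw [mul_sum]
  refine sum_congr rfl fun j _ => ?_
  have h1 : (p : ZMod M) ^ j * (t : ZMod M) * (((M / N : ℕ) : ZMod M) * (s.val : ZMod M)) =
      ((M / N : ℕ) : ZMod M) * ((p : ZMod M) ^ j * (t : ZMod M) * (s.val : ZMod M)) := by ring
  have h2 : ZMod.castHom hNM (ZMod N) ((p : ZMod M) ^ j * (t : ZMod M) * (s.val : ZMod M)) =
      (p : ZMod N) ^ j * 1 * (((ZMod.unitsMap hNM t : (ZMod N)ˣ) : ZMod N) * s) := by
    rw [map_mul, map_mul, map_pow, map_natCast, map_natCast, ZMod.natCast_zmod_val]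
    rw [ZMod.unitsMap_val]
    rw [ZMod.castHom_apply]
    ring
  have h3 : (M : ℤ) = ((M / N : ℕ) : ℤ) * (N : ℤ) := by
    exact_mod_cast (Nat.div_mul_cancel hNM).symm
  rw [h1, val_lift hNM, h2, Nat.cast_mul]
  linear_combination -h3

theorem mem_of_saw {M : ℕ} [NeZero M] (hL : StLval) (p f : ℕ) (hf : 0 < f)
    (u : (ZMod M)ˣ) (hu : (u : ZMod M) = p) (W : Submodule ℂ ((ZMod M)ˣ → ℂ))
    (hW : ∀ x : ZMod M, x ≠ 0 → (fun t : (ZMod M)ˣ => (saw M p f t x : ℂ)) ∈ W)
    (χ : DirichletCharacter ℂ M) (hodd : χ.Odd) (hχu : χ u = 1) :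
    (fun t : (ZMod M)ˣ => χ⁻¹ (t : ZMod M)) ∈ W := by
  classical
  have hNM := χ.conductor_dvd_level
  set N := χ.conductor with hN
  have hN0 : N ≠ 0 := fun h => by
    rw [h] at hNM
    exact NeZero.ne M (zero_dvd_iff.mp hNM)
  have : NeZero N := ⟨hN0⟩
  have hN1 : N ≠ 1 := by
    intro h
    have h1 : χ = 1 := DirichletCharacter.eq_one_iff_conductor_eq_one.mpr h
    rw [h1, DirichletCharacter.Odd] at hodd
    have h2 := MulChar.one_apply_coe (R' := ℂ) (-1 : (ZMod M)ˣ)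
    rw [Units.val_neg, Units.val_one] at h2
    rw [h2] at hodd
    norm_num at hodd
  have hcast : ∀ y : ZMod M, (y.cast : ZMod N) = ZMod.castHom hNM (ZMod N) y := fun y => rfl
  let χ0 : DirichletCharacter ℂ N := χ.primitiveCharacter
  have hχ0 : ∀ t : (ZMod M)ˣ, χ (t : ZMod M) = χ0 ((ZMod.unitsMap hNM t : (ZMod N)ˣ) : ZMod N) := by
    intro t
    conv_lhs => rw [← χ.changeLevel_primitiveCharacter]
    rw [DirichletCharacter.changeLevel_eq_cast_of_dvd, ZMod.unitsMap_val]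
  have hodd0 : χ0.Odd := by
    have h1 := hχ0 (-1)
    rw [Units.val_neg, Units.val_one, hodd] at h1
    rw [DirichletCharacter.Odd, h1]
    congr 1
    rw [ZMod.unitsMap_val, Units.val_neg, Units.val_one, hcast, map_neg, map_one]
  let u0 : (ZMod N)ˣ := ZMod.unitsMap hNM u
  have hu0 : (u0 : ZMod N) = p := by
    change ((ZMod.unitsMap hNM u : (ZMod N)ˣ) : ZMod N) = p
    rw [ZMod.unitsMap_val, hu, hcast, map_natCast]
  have hχu0 : χ0 u0 = 1 := by rw [← hχ0 u, hχu]
  have hsum := sum_char p f u0 hu0 χ0 hodd0 hχu0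
  have hc := hL N χ0 χ.primitiveCharacter_isPrimitive hodd0
  set c : ℂ := ((M / N : ℕ) : ℂ) * (2 * f * ∑ a : ZMod N, χ0 a * (a.val : ℂ)) with hcdef
  have hMN : M / N ≠ 0 := (Nat.div_pos (Nat.le_of_dvd (NeZero.pos M) hNM) (NeZero.pos N)).ne'
  have hc0 : c ≠ 0 := by
    refine mul_ne_zero (by exact_mod_cast hMN) (mul_ne_zero (mul_ne_zero two_ne_zero ?_) hc)
    exact_mod_cast hf.ne'
  have hx : ∀ s : (ZMod N)ˣ, (((M / N : ℕ) : ZMod M) * (((s : ZMod N).val : ℕ) : ZMod M)) ≠ 0 := by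
    intro s h
    have h1 := congrArg ZMod.val h
    rw [val_lift hNM, ZMod.val_zero] at h1
    have h2 := (mul_eq_zero.mp h1).resolve_left hMN
    rw [map_natCast, ZMod.natCast_zmod_val, ZMod.val_eq_zero] at h2
    have : Nontrivial (ZMod N) := ZMod.nontrivial_iff.mpr hN1
    exact s.ne_zero h2
  have hmem : (c • fun t : (ZMod M)ˣ => χ⁻¹ (t : ZMod M)) ∈ W := by
    have h1 : (c • fun t : (ZMod M)ˣ => χ⁻¹ (t : ZMod M)) = ∑ s : (ZMod N)ˣ, χ0 s •
        (fun t : (ZMod M)ˣ => (saw M p f t (((M / N : ℕ) : ZMod M) *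
          (((s : ZMod N).val : ℕ) : ZMod M)) : ℂ)) := by
      funext t
      rw [Finset.sum_apply]
      simp only [Pi.smul_apply, smul_eq_mul]
      have h2 : ∀ s : (ZMod N)ˣ, χ0 s * (saw M p f t (((M / N : ℕ) : ZMod M) *
          (((s : ZMod N).val : ℕ) : ZMod M)) : ℂ) = ((M / N : ℕ) : ℂ) * ((χ0
            ((ZMod.unitsMap hNM t : (ZMod N)ˣ) : ZMod N))⁻¹ *
            (χ0 (((ZMod.unitsMap hNM t * s : (ZMod N)ˣ)) : ZMod N) *
          (saw N p f 1 (((ZMod.unitsMap hNM t * s : (ZMod N)ˣ)) : ZMod N) : ℂ))) := by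
        intro s
        rw [saw_lift hNM, Units.val_mul, map_mul]
        have h3 := chi_ne χ0 (ZMod.unitsMap hNM t)
        rw [Int.cast_mul, Int.cast_natCast]
        field_simp
      have h4 : ∑ s : (ZMod N)ˣ, (χ0 (((ZMod.unitsMap hNM t * s : (ZMod N)ˣ)) : ZMod N) *
          (saw N p f 1 (((ZMod.unitsMap hNM t * s : (ZMod N)ˣ)) : ZMod N) : ℂ)) =
          ∑ s : (ZMod N)ˣ, χ0 s * (saw N p f 1 s : ℂ) :=
        Fintype.sum_equiv (Equiv.mulLeft (ZMod.unitsMap hNM t)) _ _ (fun s => rfl)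
      rw [sum_congr rfl fun s _ => h2 s, ← mul_sum, ← mul_sum, h4, hsum, ← hχ0 t,
        inv_apply, hcdef]
      ring
    rw [h1]
    exact W.sum_mem fun s _ => W.smul_mem _ (hW _ (hx s))
  exact (W.smul_mem_iff hc0).mp hmem

/-- the number of odd characters trivial on `u` -/
theorem card_odd {M : ℕ} [NeZero M] (u : (ZMod M)ˣ) (hu : (-1 : (ZMod M)ˣ) ∉ Subgroup.zpowers u)
    (X : Finset (DirichletCharacter ℂ M)) (hX : ∀ χ, χ ∈ X ↔ χ.Odd ∧ χ u = 1) :
    2 * X.card * orderOf u = M.totient := by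
  classical
  have h1 : ∀ b : ZMod M, ∑ χ : DirichletCharacter ℂ M, χ b =
      if 1 = b then (M.totient : ℂ) else 0 := by
    intro b
    have h := DirichletCharacter.sum_char_inv_mul_char_eq ℂ (n := M) (a := 1) isUnit_one b
    rw [← h]
    refine sum_congr rfl fun χ _ => ?_
    have h2 : χ (1 : ZMod M)⁻¹ = 1 := by
      have h3 : (1 : ZMod M)⁻¹ = 1 := by
        rw [← Units.val_one, ZMod.inv_coe_unit, inv_one]
      rw [h3, map_one]
    rw [h2, one_mul]
  have h2 : ∀ χ : DirichletCharacter ℂ M, (1 - χ (-1)) * ∑ j ∈ range (orderOf u), χ u ^ j =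
      if χ ∈ X then 2 * (orderOf u : ℂ) else 0 := by
    intro χ
    rcases χ.even_or_odd with hev | hodd
    · have h3 : χ ∉ X := by
        rw [hX]
        rintro ⟨h4, -⟩
        rw [DirichletCharacter.Odd, hev] at h4
        norm_num at h4
      rw [hev, if_neg h3, sub_self, zero_mul]
    · rw [hodd]
      by_cases h3 : χ u = 1
      · rw [if_pos ((hX χ).mpr ⟨hodd, h3⟩), h3]
        simp only [one_pow, sum_const, card_range, nsmul_eq_mul, mul_one]
        ring
      · rw [if_neg (fun h4 => h3 ((hX χ).mp h4).2)]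
        have h4 : (χ u - 1) * ∑ j ∈ range (orderOf u), χ u ^ j = 0 := by
          rw [mul_geom_sum, ← map_pow, ← Units.val_pow_eq_pow_val, pow_orderOf_eq_one,
            Units.val_one, map_one, sub_self]
        rw [(mul_eq_zero.mp h4).resolve_left (sub_ne_zero.mpr h3), mul_zero]
  have h3 : ∑ χ : DirichletCharacter ℂ M, (1 - χ (-1)) * ∑ j ∈ range (orderOf u), χ u ^ j =
      X.card * (2 * (orderOf u : ℂ)) := by
    rw [sum_congr rfl fun χ _ => h2 χ, sum_ite_mem, univ_inter, sum_const, nsmul_eq_mul]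
  have h4 : ∑ χ : DirichletCharacter ℂ M, (1 - χ (-1)) * ∑ j ∈ range (orderOf u), χ u ^ j =
      M.totient := by
    have h5 : ∀ χ : DirichletCharacter ℂ M, (1 - χ (-1)) * ∑ j ∈ range (orderOf u), χ u ^ j =
        ∑ j ∈ range (orderOf u), (χ ((u ^ j : (ZMod M)ˣ) : ZMod M) -
          χ ((-u ^ j : (ZMod M)ˣ) : ZMod M)) := by
      intro χ
      rw [mul_sum]
      refine sum_congr rfl fun j _ => ?_
      rw [Units.val_neg, ← neg_one_mul (((u ^ j : (ZMod M)ˣ) : ZMod M)), map_mul,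
        Units.val_pow_eq_pow_val, map_pow]
      ring
    rw [sum_congr rfl fun χ _ => h5 χ, sum_comm]
    simp only [sum_sub_distrib]
    simp only [h1]
    have h6 : ∀ j ∈ range (orderOf u), (if (1 : ZMod M) = ((-u ^ j : (ZMod M)ˣ) : ZMod M) then
        (M.totient : ℂ) else 0) = 0 := by
      intro j _
      rw [if_neg]
      intro h
      apply hu
      have h7 : (1 : (ZMod M)ˣ) = -u ^ j := Units.ext h
      exact Subgroup.mem_zpowers_iff.mpr ⟨j, by rw [zpow_natCast, h7, neg_neg]⟩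
    rw [sum_eq_zero h6, sub_zero, sum_eq_single 0]
    · rw [pow_zero, Units.val_one, if_pos rfl]
    · intro j hj hj0
      rw [if_neg]
      intro h
      have h7 : u ^ j = 1 := (Units.ext h).symm
      have h8 := orderOf_dvd_of_pow_eq_one h7
      exact absurd (Nat.le_of_dvd (Nat.pos_of_ne_zero hj0) h8) (not_le.mpr (mem_range.mp hj))
    · intro h
      exact absurd (mem_range.mpr (orderOf_pos u)) h
  rw [h3] at h4
  have h5 : ((2 * X.card * orderOf u : ℕ) : ℂ) = (M.totient : ℂ) := by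
    push_cast
    rw [← h4]
    ring
  exact_mod_cast h5

end RankAux

open RankAux Finset in
theorem stRank (hL : StLval) : StRank := by
  classical
  intro M p f _ hM hf u hu huf hneg r w hr hw a ha
  let w' : Fin r → (ZMod M)ˣ → ℂ := fun i t => (w i t : ℂ)
  let W : Submodule ℂ ((ZMod M)ˣ → ℂ) := Submodule.span ℂ (Set.range w')
  have hW : ∀ x : ZMod M, x ≠ 0 → (fun t : (ZMod M)ˣ => (saw M p f t x : ℂ)) ∈ W := by
    intro x hx
    obtain ⟨b, hb⟩ := hw x hx
    have h1 : (fun t : (ZMod M)ˣ => (saw M p f t x : ℂ)) = ∑ i, (b i : ℂ) • w' i := by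
      funext t
      rw [hb t, Finset.sum_apply]
      push_cast
      rfl
    rw [h1]
    exact W.sum_mem fun i _ => W.smul_mem _ (Submodule.subset_span ⟨i, rfl⟩)
  let X : Finset (DirichletCharacter ℂ M) := univ.filter fun χ => χ.Odd ∧ χ u = 1
  have hX : ∀ χ, χ ∈ X ↔ χ.Odd ∧ χ u = 1 := fun χ => by simp [X]
  have hcard := card_odd u hneg X hX
  have hrX : r ≤ X.card := by
    have h1 : 2 * r * orderOf u ≤ 2 * X.card * orderOf u := by rw [hcard]; exact hr
    have h2 := Nat.le_of_mul_le_mul_right h1 (orderOf_pos u)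
    omega
  -- the characters as vectors of `W`
  let g : X → ((ZMod M)ˣ →* ℂ) := fun χ =>
    ((χ.1⁻¹ : DirichletCharacter ℂ M) : ZMod M →* ℂ).comp (Units.coeHom (ZMod M))
  have hg : Function.Injective g := by
    intro χ χ' h
    apply Subtype.ext
    apply inv_injective
    apply MulChar.ext
    intro t
    exact DFunLike.congr_fun h t
  have hlin : LinearIndependent ℂ (fun χ : X => (g χ : (ZMod M)ˣ → ℂ)) :=
    (linearIndependent_monoidHom (ZMod M)ˣ ℂ).comp g hg
  have hgW : ∀ χ : X, (g χ : (ZMod M)ˣ → ℂ) ∈ W := fun χ =>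
    mem_of_saw hL p f hf u hu W hW χ.1 ((hX _).mp χ.2).1 ((hX _).mp χ.2).2
  have hlin' : LinearIndependent ℂ (fun χ : X => (⟨g χ, hgW χ⟩ : W)) := by
    apply LinearIndependent.of_comp W.subtype
    exact hlin
  have hfin : X.card ≤ Module.finrank ℂ W := by
    have h1 := hlin'.fintype_card_le_finrank
    rwa [Fintype.card_coe] at h1
  have hind : LinearIndependent ℂ w' := by
    rw [linearIndependent_iff_card_le_finrank_span, Fintype.card_fin]
    exact hrX.trans hfin
  rw [Fintype.linearIndependent_iff] at hind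
  have h0 := hind (fun i => (a i : ℂ)) (by
    funext t
    rw [Finset.sum_apply]
    have h1 := congrArg (fun z : ℤ => (z : ℂ)) (ha t)
    push_cast at h1
    simpa [w'] using h1)
  funext i
  exact_mod_cast h0 i

end Pool.Agent.Lib.MP81632f.Diag
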