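import Pool.Agent.Lib.MP_81632f_ag.Diag.Crit
import Pool.Agent.Lib.MP_81632f_ag.Diag.Rank

/-!
# The inclusion of a lower level
-/

set_option autoImplicit false

noncomputable section

namespace Pool.Agent.Lib.MP81632f.Diag

open Finset

namespace Push

open Red (ev)
open Crit

variable {M m : ℕ} [NeZero M] [NeZero m] {p f : ℕ}

/-- the inclusion `ℤ / m → ℤ / M`, multiplication by `M / m` -/
def inc (M m : ℕ) (y : ZMod m) : ZMod M := ((M / m : ℕ) : ZMod M) * ((y.val : ℕ) : ZMod M)

omit [NeZero M] [NeZero m] in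
theorem inc_nat (h : m ∣ M) (n : ℕ) : inc M m (n : ZMod m) = ((M / m : ℕ) : ZMod M) * (n : ZMod M) := by
  unfold inc
  rw [ZMod.val_natCast, ← Nat.cast_mul, ← Nat.cast_mul, ZMod.natCast_eq_natCast_iff',
    ← Nat.mul_mod_mul_left, Nat.div_mul_cancel h, Nat.mod_mod]

omit [NeZero M] [NeZero m] in
theorem inc_zero (h : m ∣ M) : inc M m 0 = 0 := by
  have := inc_nat (M := M) h 0
  rw [Nat.cast_zero, Nat.cast_zero, mul_zero] at this
  exact this

omit [NeZero M] in
theorem inc_add (h : m ∣ M) (x y : ZMod m) : inc M m (x + y) = inc M m x + inc M m y := by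
  have h1 : x + y = ((x.val + y.val : ℕ) : ZMod m) := by
    rw [Nat.cast_add, ZMod.natCast_zmod_val, ZMod.natCast_zmod_val]
  rw [h1, inc_nat h]
  unfold inc
  push_cast
  ring

/-- the inclusion as a homomorphism -/
def incHom (h : m ∣ M) : ZMod m →+ ZMod M where
  toFun := inc M m
  map_zero' := inc_zero h
  map_add' := inc_add h

omit [NeZero M] in
theorem inc_neg (h : m ∣ M) (x : ZMod m) : inc M m (-x) = -inc M m x := (incHom h).map_neg x

omit [NeZero M] in
theorem inc_natCast_mul (h : m ∣ M) (n : ℕ) (x : ZMod m) :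
    inc M m ((n : ZMod m) * x) = (n : ZMod M) * inc M m x := by
  have h1 := (incHom (M := M) h).map_nsmul n x
  rw [nsmul_eq_mul, nsmul_eq_mul] at h1
  exact h1

theorem inc_inj (h : m ∣ M) : Function.Injective (inc M m) := by
  have h0 : ∀ x : ZMod m, inc M m x = 0 → x = 0 := by
    intro x hx
    unfold inc at hx
    rw [← Nat.cast_mul, ZMod.natCast_eq_zero_iff] at hx
    have hMm : 0 < M / m := Nat.div_pos (Nat.le_of_dvd (NeZero.pos M) h) (NeZero.pos m)
    have h1 : M / m * m ∣ M / m * x.val := by rwa [Nat.div_mul_cancel h]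
    have h2 := Nat.dvd_of_mul_dvd_mul_left hMm h1
    have h3 := Nat.eq_zero_of_dvd_of_lt h2 (ZMod.val_lt x)
    exact (ZMod.val_eq_zero x).mp h3
  intro x y hxy
  have h1 : inc M m (x - y) = 0 := by
    have := (incHom (M := M) h).map_sub x y
    have h2 : inc M m (x - y) = inc M m x - inc M m y := this
    rw [h2, hxy, sub_self]
  exact sub_eq_zero.mp (h0 _ h1)

theorem inc_ne (h : m ∣ M) {x : ZMod m} (hx : x ≠ 0) : inc M m x ≠ 0 := fun h1 =>
  hx (inc_inj h (by rw [h1, inc_zero h]))

theorem inc_div (h : m ∣ M) {q : ℕ} (hq : q ∣ m) :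
    inc M m ((m / q : ℕ) : ZMod m) = ((M / q : ℕ) : ZMod M) := by
  rw [inc_nat h, ← Nat.cast_mul]
  congr 1
  obtain ⟨a, rfl⟩ := h
  obtain ⟨b, rfl⟩ := hq
  have hm : 0 < q * b := NeZero.pos _
  have hq0 : 0 < q := Nat.pos_of_mul_pos_right hm
  rw [Nat.mul_div_cancel_left _ hm, Nat.mul_div_cancel_left _ hq0, mul_assoc,
    Nat.mul_div_cancel_left _ hq0, mul_comm]

theorem saw_inc (h : m ∣ M) (t : (ZMod M)ˣ) (x : ZMod m) :
    saw M p f t (inc M m x) =
      ((M / m : ℕ) : ℤ) * saw m p f ((ZMod.unitsMap h t : (ZMod m)ˣ) : ZMod m) x := by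
  have h1 := RankAux.saw_lift h p f t x
  unfold inc
  rw [h1]
  congr 1
  unfold saw
  refine Finset.sum_congr rfl fun j _ => ?_
  congr 3
  ring_nf

/-- the inclusion of functions -/
def push (M m : ℕ) [NeZero m] : (ZMod m → ℤ) →+ (ZMod M → ℤ) where
  toFun v := ∑ y, v y • ev (inc M m y)
  map_zero' := by simp
  map_add' v w := by simp [add_smul, Finset.sum_add_distrib]

omit [NeZero M] in
theorem push_ev (y : ZMod m) : push M m (ev y) = ev (inc M m y) := by
  change ∑ z, (Pi.single y 1 : ZMod m → ℤ) z • ev (inc M m z) = _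
  rw [Finset.sum_eq_single y]
  · simp
  · intro b _ hb
    simp [Pi.single_eq_of_ne hb]
  · simp

omit [NeZero M] in
theorem push_cnt (X : Multiset (ZMod m)) : push M m (cnt X) = cnt (X.map (inc M m)) := by
  induction X using Multiset.induction_on with
  | empty => simp [Basic.cnt_zero]
  | cons a s ih =>
    rw [Basic.cnt_cons, map_add, ih, Multiset.map_cons, Basic.cnt_cons]
    congr 1
    exact push_ev a

omit [NeZero M] in
theorem map_dh (h : m ∣ M) {q : ℕ} (hq : q ∣ m) (hM : (inc M m ((m / q : ℕ) : ZMod m)) = ((M / q : ℕ) : ZMod M))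
    (x : ZMod m) : (dhZ m q x).map (inc M m) = dhZ M q (inc M m x) := by
  rw [Basic.dhZ_eq, Basic.dhZ_eq, Multiset.map_add, Multiset.map_add, Multiset.map_map,
    Multiset.map_singleton, Multiset.map_map]
  congr 1
  · congr 1
    · refine Multiset.map_congr rfl fun j _ => ?_
      rw [Function.comp_apply, inc_add h, inc_natCast_mul h, hM]
    · rw [inc_neg h, inc_natCast_mul h]
  · refine Multiset.map_congr rfl fun j _ => ?_
    rw [Function.comp_apply, inc_natCast_mul h, hM]

theorem bal_inc (h : m ∣ M) {X : Multiset (ZMod m)} (hX : BalM m p f X) :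
    BalM M p f (X.map (inc M m)) := by
  intro t
  rw [Multiset.map_map]
  have h1 : X.map ((fun x => saw M p f t x) ∘ inc M m) =
      X.map (fun x => ((M / m : ℕ) : ℤ) *
        saw m p f ((ZMod.unitsMap h t : (ZMod m)ˣ) : ZMod m) x) :=
    Multiset.map_congr rfl fun x _ => by rw [Function.comp_apply, saw_inc h]
  rw [h1, Multiset.sum_map_mul_left, hX, mul_zero]

theorem atom_inc (h : m ∣ M) {A : Multiset (ZMod m)} (hA : IsAtomZ A) :
    IsAtomZ (A.map (inc M m)) := by
  rcases hA with ⟨a, ha, rfl⟩ | ⟨a, b, c, ha, hb, hc, hs, rfl⟩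
  · left
    exact ⟨inc M m a, inc_ne h ha, by rw [Multiset.map_singleton]⟩
  · right
    refine ⟨inc M m a, inc M m b, inc M m c, inc_ne h ha, inc_ne h hb, inc_ne h hc, ?_, ?_⟩
    · rw [← inc_add h, ← inc_add h, hs, inc_zero h]
    · simp [Multiset.insert_eq_cons]

theorem gen_inc (h : m ∣ M) {s : Multiset (ZMod m)} (hs : s ∈ Gen m p f) :
    s.map (inc M m) ∈ Gen M p f := by
  rcases hs with ⟨A, B, hA, hB, rfl, hbal⟩ | ⟨q, x, hq, hd, hx, rfl⟩
  · left
    refine ⟨A.map (inc M m), B.map (inc M m), atom_inc h hA, atom_inc h hB,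
      by rw [Multiset.map_add], ?_⟩
    exact bal_inc h hbal
  · right
    refine ⟨q, inc M m x, hq, hd.trans h, ?_, ?_⟩
    · rw [← inc_natCast_mul h]
      exact inc_ne h hx
    · exact map_dh h hd (inc_div h hd) x

theorem push_sub (h : m ∣ M) {v : ZMod m → ℤ} (hv : v ∈ Sub m p f) : push M m v ∈ Sub M p f := by
  induction hv using AddSubgroup.closure_induction with
  | mem v hv =>
    obtain ⟨s, hs, rfl⟩ := hv
    rw [push_cnt]
    exact AddSubgroup.subset_closure ⟨_, gen_inc h hs, rfl⟩
  | zero => rw [map_zero]; exact zero_mem _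
  | add v w _ _ hv hw => rw [map_add]; exact add_mem hv hw
  | neg v _ hv => rw [map_neg]; exact neg_mem hv

theorem tot_push (v : ZMod m → ℤ) : tot M (push M m v) = tot m v := by
  change tot M (∑ y, v y • ev (inc M m y)) = ∑ y, v y
  rw [map_sum]
  refine Finset.sum_congr rfl fun y _ => ?_
  rw [map_zsmul, tot_ev, smul_eq_mul, mul_one]

theorem pair_push (h : m ∣ M) (t : (ZMod M)ˣ) (v : ZMod m → ℤ) :
    pair M p f t (push M m v) = ((M / m : ℕ) : ℤ) * pair m p f (ZMod.unitsMap h t) v := by
  change pair M p f t (∑ y, v y • ev (inc M m y)) =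
    ((M / m : ℕ) : ℤ) * ∑ y, v y * saw m p f ((ZMod.unitsMap h t : (ZMod m)ˣ) : ZMod m) y
  rw [map_sum, Finset.mul_sum]
  refine Finset.sum_congr rfl fun y _ => ?_
  rw [map_zsmul, pair_ev, saw_inc h, smul_eq_mul]
  ring

/-- a function is balanced if its image is balanced -/
theorem bal_of_push (h : m ∣ M) {v : ZMod m → ℤ}
    (hv : ∀ t : (ZMod M)ˣ, pair M p f t (push M m v) = 0) (t : (ZMod m)ˣ) :
    pair m p f t v = 0 := by
  obtain ⟨t', rfl⟩ := ZMod.unitsMap_surjective h t
  have h1 := hv t'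
  rw [pair_push h] at h1
  have hMm : 0 < M / m := Nat.div_pos (Nat.le_of_dvd (NeZero.pos M) h) (NeZero.pos m)
  rcases mul_eq_zero.mp h1 with h2 | h2
  · exfalso
    have : M / m = 0 := by exact_mod_cast h2
    omega
  · exact h2

/-- the lattice property for functions -/
theorem lp_fun (hB : StBasic) (hM : 1 < M) (hf : 0 < f) (hp : (p : ZMod M) ^ f = 1)
    (hLP : LP M p f) {v : ZMod M → ℤ} (h0 : v 0 = 0)
    (hbal : ∀ t : (ZMod M)ˣ, pair M p f t v = 0) (he : Even (tot M v)) : v ∈ Sub M p f := by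
  classical
  obtain ⟨b1, -, -, b4, b5⟩ := hB M p f hM hf hp
  -- `w` is `v` with the negative parts moved to the negatives
  let X : Multiset (ZMod M) := ∑ x : ZMod M, ((v x).toNat • {x} + (-(v x)).toNat • {-x})
  have hX0 : (0 : ZMod M) ∉ X := by
    intro h
    rw [Multiset.mem_sum] at h
    obtain ⟨x, -, hx⟩ := h
    rw [Multiset.mem_add] at hx
    rcases hx with hx | hx
    · have h1 := Multiset.mem_of_mem_nsmul hx
      rw [Multiset.mem_singleton] at h1
      subst h1
      rw [h0] at hx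
      simp at hx
    · have h1 := Multiset.mem_of_mem_nsmul hx
      rw [Multiset.mem_singleton, eq_comm, neg_eq_zero] at h1
      subst h1
      rw [h0] at hx
      simp at hx
  have hcn : ∀ (n : ℕ) (x : ZMod M), cnt (n • ({x} : Multiset (ZMod M))) = (n : ℤ) • ev x := by
    intro n x
    induction n with
    | zero => simp [Basic.cnt_zero]
    | succ n ih =>
      rw [succ_nsmul, Basic.cnt_add, ih, Basic.cnt_singleton]
      push_cast
      rw [add_smul, one_smul]
  have hcs : ∀ (s : Finset (ZMod M)) (g : ZMod M → Multiset (ZMod M)),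
      cnt (∑ x ∈ s, g x) = ∑ x ∈ s, cnt (g x) := by
    intro s g
    induction s using Finset.induction_on with
    | empty => simp [Basic.cnt_zero]
    | insert a s ha ih => rw [Finset.sum_insert ha, Finset.sum_insert ha, Basic.cnt_add, ih]
  have hX : cnt X = ∑ x : ZMod M, (((v x).toNat : ℤ) • ev x + ((-(v x)).toNat : ℤ) • ev (-x)) := by
    change cnt (∑ x : ZMod M, _) = _
    rw [hcs]
    refine Finset.sum_congr rfl fun x _ => ?_
    rw [Basic.cnt_add, hcn, hcn]
  have hv : v = ∑ x : ZMod M, v x • ev x := by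
    funext y
    rw [Finset.sum_apply, Finset.sum_eq_single y]
    · simp
    · intro b _ hb
      simp [Pi.single_eq_of_ne (Ne.symm hb)]
    · simp
  have hdiff : cnt X - v ∈ Sub M p f := by
    have e1 : cnt X - v = ∑ x : ZMod M, ((((v x).toNat : ℤ) • ev x +
        ((-(v x)).toNat : ℤ) • ev (-x)) - v x • ev x) := by
      rw [Finset.sum_sub_distrib, ← hX, ← hv]
    rw [e1]
    refine AddSubgroup.sum_mem _ fun x _ => ?_
    by_cases hx : x = 0
    · subst hx
      rw [h0]
      simp
    · have h1 : (((v x).toNat : ℤ) • ev x + ((-(v x)).toNat : ℤ) • ev (-x)) - v x • ev x =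
          ((-(v x)).toNat : ℤ) • (ev x + ev (-x)) := by
        have h2 : v x = ((v x).toNat : ℤ) - ((-(v x)).toNat : ℤ) := by omega
        conv_lhs => rw [h2]
        rw [smul_add, sub_smul]
        have h3 : (((v x).toNat : ℤ) - ((-(v x)).toNat : ℤ)).toNat = (v x).toNat := by omega
        have h4 : (-(((v x).toNat : ℤ) - ((-(v x)).toNat : ℤ))).toNat = (-(v x)).toNat := by omega
        rw [h3, h4]
        abel
      rw [h1]
      exact AddSubgroup.zsmul_mem _ (b1 x hx) _
  have hXS : cnt X ∈ Sub M p f := by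
    refine hLP X hX0 ?_ ?_
    · intro t
      have h1 := (b5 _ hdiff).2.2 t
      have h2 : pair M p f t (cnt X) = 0 := by
        have h3 : pair M p f t (cnt X - v) = 0 := h1
        rw [map_sub, hbal t, sub_zero] at h3
        exact h3
      rw [← Basic.sum_cnt_mul]
      exact h2
    · have h1 : Even (tot M (cnt X - v)) := (b5 _ hdiff).2.1
      rw [map_sub] at h1
      have h2 : Even (tot M (cnt X)) := by
        have := (Int.even_sub.mp h1).mpr he
        exact this
      have h3 : tot M (cnt X) = (Multiset.card X : ℤ) := Basic.sum_cnt X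
      rw [h3] at h2
      exact_mod_cast h2
  have h1 : v = cnt X - (cnt X - v) := by abel
  rw [h1]
  exact sub_mem hXS hdiff

end Push

end Pool.Agent.Lib.MP81632f.Diag
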