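import Pool.Agent.Lib.MP_81632f_ag.Diag.Transfer

/-!
# The transfer theorem
-/

set_option autoImplicit false

noncomputable section

namespace Pool.Agent.Lib.MP81632f.Diag

open Finset

namespace Transfer

open Crit Two Push
open Red (ev dh_mem mul_quot quot_ne)

variable {M : ℕ} [NeZero M] {p f : ℕ}

/-- independence, when only the doubles of the basis vectors are generated -/
theorem indep_two (hB : StBasic) (hR : StRankTwo) (hM : 1 < M) (hf : 0 < f)
    (hp : (p : ZMod M) ^ f = 1)
    (u : (ZMod M)ˣ) (hu : (u : ZMod M) = p) (hneg : (-1 : (ZMod M)ˣ) ∉ Subgroup.zpowers u)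
    {c : ZMod M} (hc : c ≠ 0)
    (hW : ∀ x : ZMod M, x ≠ 0 → (2 : ℤ) • ev x ∈ Sub M p f ⊔ Top M c ⊔ SS M p f)
    (a : (ZMod M)ˣ ⧸ KK u → ℤ)
    (ha : ∀ t : (ZMod M)ˣ, ∑ i, a i * saw M p f t (c * ((rp u i : (ZMod M)ˣ) : ZMod M)) = 0) :
    a = 0 := by
  classical
  let r := Fintype.card ((ZMod M)ˣ ⧸ KK u)
  let e : Fin r ≃ ((ZMod M)ˣ ⧸ KK u) := (Fintype.equivFin _).symm
  have huf : u ^ f = 1 := by
    apply Units.ext
    rw [Units.val_pow_eq_pow_val, hu, hp, Units.val_one]
  have h := hR M p f hM hf u hu huf hneg r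
    (fun i t => saw M p f t (c * ((rp u (e i) : (ZMod M)ˣ) : ZMod M))) (by
      have h1 := kk_card u hneg
      rw [Nat.card_eq_fintype_card] at h1
      exact h1) (by
      intro x hx
      have h1 := hW x hx
      obtain ⟨y, hy, z, hz, hyz⟩ := AddSubgroup.mem_sup.mp h1
      obtain ⟨y1, hy1, y2, hy2, hy12⟩ := AddSubgroup.mem_sup.mp hy
      obtain ⟨b, hb⟩ := top_rep hB hM hf hp u hu hc hy2
      refine ⟨fun i => b (e i), fun t => ?_⟩
      have h2 : pair M p f t ((2 : ℤ) • ev x) = pair M p f t y2 := by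
        rw [← hyz, ← hy12, map_add, map_add, pair_ss t hz, pair_sub hB hM hf hp t hy1]
        ring
      have h3 : pair M p f t y2 =
          ∑ i, b i * saw M p f t (c * ((rp u i : (ZMod M)ˣ) : ZMod M)) := by
        have h4 := pair_sub hB hM hf hp t hb
        rw [map_sub, map_sum, sub_eq_zero] at h4
        rw [h4]
        refine Finset.sum_congr rfl fun i _ => ?_
        rw [map_zsmul, pair_ev, smul_eq_mul]
      rw [map_zsmul, pair_ev, smul_eq_mul] at h2
      rw [h2, h3]
      exact (Equiv.sum_comp e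
        (fun i => b i * saw M p f t (c * ((rp u i : (ZMod M)ˣ) : ZMod M)))).symm)
    (fun i => a (e i)) (by
      intro t
      rw [← ha t]
      exact Equiv.sum_comp e
        (fun i => a i * saw M p f t (c * ((rp u i : (ZMod M)ˣ) : ZMod M))))
  funext i
  have h1 := congrFun h (e.symm i)
  simpa using h1

/-- balanced elements of `WW` with even sum are in `Sub` -/
theorem bal_ww (hB : StBasic) (hR : StRankTwo) (hM : 1 < M) (hf : 0 < f)
    (hp : (p : ZMod M) ^ f = 1)
    (u : (ZMod M)ˣ) (hu : (u : ZMod M) = p) (hneg : (-1 : (ZMod M)ˣ) ∉ Subgroup.zpowers u)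
    (hW : ∀ x : ZMod M, x ≠ 0 → (2 : ℤ) • ev x ∈ WW M p f)
    {w : ZMod M → ℤ} (hw : w ∈ WW M p f) (hbal : ∀ t : (ZMod M)ˣ, pair M p f t w = 0)
    (he : Even (tot M w)) : w ∈ Sub M p f := by
  have : Fact (1 < M) := ⟨hM⟩
  have hc : (1 : ZMod M) ≠ 0 := one_ne_zero
  obtain ⟨y, hy, z, hz, hyz⟩ := AddSubgroup.mem_sup.mp hw
  obtain ⟨y1, hy1, y2, hy2, hy12⟩ := AddSubgroup.mem_sup.mp hy
  obtain ⟨b, hb⟩ := top_rep hB hM hf hp u hu hc hy2
  have hb0 : b = 0 := by
    refine indep_two hB hR hM hf hp u hu hneg hc hW b fun t => ?_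
    have h2 := hbal t
    have h4 := pair_sub hB hM hf hp t hb
    rw [map_sub, map_sum, sub_eq_zero] at h4
    have h5 : ∑ i, b i * saw M p f t (1 * ((rp u i : (ZMod M)ˣ) : ZMod M)) =
        pair M p f t y2 := by
      rw [h4]
      refine Finset.sum_congr rfl fun i _ => ?_
      rw [map_zsmul, pair_ev, smul_eq_mul]
    rw [h5]
    rw [← hyz, ← hy12, map_add, map_add, pair_ss t hz, pair_sub hB hM hf hp t hy1] at h2
    linarith
  have hy2' : y2 ∈ Sub M p f := by
    simpa [hb0] using hb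
  have hyS : y ∈ Sub M p f := by
    rw [← hy12]
    exact add_mem hy1 hy2'
  rw [← hyz, map_add] at he
  have h3 : Even (tot M z) := by
    rw [Int.even_add] at he
    exact he.mp (tot_sub hB hM hf hp hyS)
  rw [← hyz]
  exact add_mem hyS (ss_even hB hM hf hp hz h3)

/-- the action of a unit on functions -/
def act (M : ℕ) [NeZero M] (g : (ZMod M)ˣ) : (ZMod M → ℤ) →+ (ZMod M → ℤ) where
  toFun v := ∑ x, v x • ev ((g : ZMod M) * x)
  map_zero' := by simp
  map_add' v w := by simp [add_smul, Finset.sum_add_distrib]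

theorem act_ev (g : (ZMod M)ˣ) (x : ZMod M) : act M g (ev x) = ev ((g : ZMod M) * x) := by
  change ∑ z, (Pi.single x 1 : ZMod M → ℤ) z • ev ((g : ZMod M) * z) = _
  rw [Finset.sum_eq_single x]
  · simp
  · intro b _ hb
    simp [Pi.single_eq_of_ne hb]
  · simp

theorem act_eq (g : (ZMod M)ˣ) (v : ZMod M → ℤ) : act M g v = ∑ x, v x • ev ((g : ZMod M) * x) :=
  rfl

theorem sum_ev (v : ZMod M → ℤ) : v = ∑ x, v x • ev x := by
  funext y
  rw [Finset.sum_apply, Finset.sum_eq_single y]
  · simp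
  · intro b _ hb
    simp [Pi.single_eq_of_ne (Ne.symm hb)]
  · simp

theorem tot_act (g : (ZMod M)ˣ) (v : ZMod M → ℤ) : tot M (act M g v) = tot M v := by
  conv_rhs => rw [sum_ev v]
  rw [act_eq, map_sum, map_sum]
  refine Finset.sum_congr rfl fun x _ => ?_
  rw [map_zsmul, map_zsmul, tot_ev, tot_ev]

theorem pair_act (t g : (ZMod M)ˣ) (v : ZMod M → ℤ) :
    pair M p f t (act M g v) = pair M p f (t * g) v := by
  rw [act_eq, map_sum]
  change _ = ∑ x, v x * saw M p f ((t * g : (ZMod M)ˣ) : ZMod M) x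
  refine Finset.sum_congr rfl fun x _ => ?_
  rw [map_zsmul, pair_ev, smul_eq_mul]
  congr 1
  unfold saw
  refine Finset.sum_congr rfl fun j _ => ?_
  rw [Units.val_mul]
  congr 3
  ring_nf

/-- the sum over the multiples of `M / q`, `q` odd -/
theorem third_odd (hB : StBasic) (hM : 1 < M) (hf : 0 < f) (hp : (p : ZMod M) ^ f = 1)
    {q : ℕ} (hq : q.Prime) (hodd : Odd q) (hd : q ∣ M) :
    ∑ j ∈ range (q - 1), ev (((j + 1 : ℕ) : ZMod M) * ((M / q : ℕ) : ZMod M)) ∈ Sub M p f := by
  obtain ⟨m, hm⟩ := hodd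
  have h1 : q - 1 = m + m := by omega
  rw [h1, sum_range_add, ← sum_range_reflect (fun x => ev (((m + x + 1 : ℕ) : ZMod M) *
    ((M / q : ℕ) : ZMod M))) m, ← sum_add_distrib]
  refine AddSubgroup.sum_mem _ fun j hj => ?_
  rw [mem_range] at hj
  have h2 : ((m + (m - 1 - j) + 1 : ℕ) : ZMod M) * ((M / q : ℕ) : ZMod M) =
      -(((j + 1 : ℕ) : ZMod M) * ((M / q : ℕ) : ZMod M)) := by
    have h3 : m + (m - 1 - j) + 1 + (j + 1) = q := by omega
    have h4 : ((m + (m - 1 - j) + 1 : ℕ) : ZMod M) + ((j + 1 : ℕ) : ZMod M) = (q : ZMod M) := by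
      rw [← Nat.cast_add, h3]
    have h5 := mul_quot (M := M) hd
    rw [← h4, add_mul] at h5
    exact eq_neg_of_add_eq_zero_left h5
  rw [h2]
  exact Red.ev_neg hB hM hf hp (quot_ne hq hd (by omega) (by omega))

/-- the elements `γ_j = 1 + j m` and their action -/
theorem fibre (hB : StBasic) {m l : ℕ} [NeZero m] (hl : l.Prime) (hlo : Odd l)
    (hlm : l ∣ m) (hMm : M = l * m) (hM : 1 < M) (hf : 0 < f) (hp : (p : ZMod M) ^ f = 1)
    (γ : ℕ → (ZMod M)ˣ) (hγ : ∀ j, (γ j : ZMod M) = 1 + (j : ZMod M) * (m : ZMod M))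
    (x : ZMod M) (hx : x ≠ 0) :
    ∃ (y : ZMod m) (c : ℤ), y ≠ 0 ∧
      ∑ j ∈ range l, ev ((γ j : ZMod M) * x) - c • ev (inc M m y) ∈ Sub M p f := by
  have hmM : m ∣ M := ⟨l, by rw [hMm, mul_comm]⟩
  have hm0 : 0 < m := NeZero.pos m
  have hlM : l ∣ M := ⟨m, hMm⟩
  have hMdm : M / m = l := by rw [hMm, Nat.mul_div_cancel _ hm0]
  have hMdl : M / l = m := by rw [hMm, Nat.mul_div_cancel_left _ hl.pos]
  have hlm0 : (m : ZMod M) * (l : ZMod M) = 0 := by
    rw [← Nat.cast_mul, mul_comm, ← hMm, ZMod.natCast_self]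
  by_cases hlx : l ∣ x.val
  · -- the elements of the lower level
    obtain ⟨a, ha⟩ := hlx
    have hxa : x = (l : ZMod M) * (a : ZMod M) := by
      rw [← Nat.cast_mul, ← ha, ZMod.natCast_zmod_val]
    have hinc : inc M m (a : ZMod m) = x := by
      rw [inc_nat hmM, hMdm, hxa]
    refine ⟨(a : ZMod m), (l : ℤ), ?_, ?_⟩
    · intro h
      apply hx
      rw [← hinc, h, inc_zero hmM]
    · have h1 : ∀ j ∈ range l, ev ((γ j : ZMod M) * x) = ev x := by
        intro j _
        congr 1
        rw [hγ, hxa]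
        linear_combination (j : ZMod M) * (a : ZMod M) * hlm0
      rw [Finset.sum_congr rfl h1, Finset.sum_const, card_range, hinc, natCast_zsmul, sub_self]
      exact zero_mem _
  · -- the other elements
    have hlx0 : (l : ZMod M) * x ≠ 0 := by
      intro h
      apply hlx
      have h1 : M ∣ l * x.val := by
        rw [← ZMod.natCast_eq_zero_iff, Nat.cast_mul, ZMod.natCast_zmod_val]
        exact h
      have h2 : l * m ∣ l * x.val := (dvd_of_eq hMm.symm).trans h1
      exact hlm.trans (Nat.dvd_of_mul_dvd_mul_left hl.pos h2)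
    have hinc : inc M m (x.val : ZMod m) = (l : ZMod M) * x := by
      rw [inc_nat hmM, hMdm, ZMod.natCast_zmod_val]
    refine ⟨(x.val : ZMod m), 1, ?_, ?_⟩
    · intro h
      apply hlx0
      rw [← hinc, h, inc_zero hmM]
    · rw [one_smul, hinc]
      have h2 := dh_mem (p := p) (f := f) hl hlM (y := x) hlx0
      rw [hMdl] at h2
      have h3 := Red.ev_neg hB hM hf hp hlx0
      have h4 : ∑ j ∈ range (l - 1), ev (((j + 1 : ℕ) : ZMod M) * (m : ZMod M)) ∈ Sub M p f := by
        have h5 := third_odd hB hM hf hp hl hlo hlM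
        rw [hMdl] at h5
        exact h5
      -- the two sums agree
      have h5 : ∑ j ∈ range l, ev ((γ j : ZMod M) * x) =
          ∑ j ∈ range l, ev (x + (j : ZMod M) * (m : ZMod M)) := by
        have hcop : Nat.Coprime x.val l := ((Nat.Prime.coprime_iff_not_dvd hl).mpr hlx).symm
        have hmod : ∀ a b : ℕ, a ≡ b [MOD l] → (a : ZMod M) * (m : ZMod M) =
            (b : ZMod M) * (m : ZMod M) := by
          intro a b hab
          rw [← Nat.cast_mul, ← Nat.cast_mul, ZMod.natCast_eq_natCast_iff, hMm]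
          exact Nat.ModEq.mul_right' m hab
        refine Finset.sum_bij (fun j _ => (j * x.val) % l) ?_ ?_ ?_ ?_
        · intro j _
          exact mem_range.mpr (Nat.mod_lt _ hl.pos)
        · intro i hi j hj hij
          rw [mem_range] at hi hj
          have h6 : i * x.val ≡ j * x.val [MOD l] := hij
          have h7 := Nat.ModEq.cancel_right_of_coprime
            (by rw [Nat.gcd_comm]; exact hcop) h6
          exact Nat.ModEq.eq_of_lt_of_lt h7 hi hj
        · intro b hb
          rw [mem_range] at hb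
          obtain ⟨c, -, hc⟩ := Nat.exists_mul_mod_eq_of_coprime b hcop hl.ne_zero
          refine ⟨c % l, mem_range.mpr (Nat.mod_lt _ hl.pos), ?_⟩
          have h6 : c % l * x.val ≡ b [MOD l] := by
            have h7 : x.val * c ≡ b [MOD l] := hc
            refine Nat.ModEq.trans ?_ h7
            rw [mul_comm x.val c]
            exact Nat.ModEq.mul_right _ (Nat.mod_modEq c l)
          have h7 : c % l * x.val % l = b % l := h6
          rw [h7, Nat.mod_eq_of_lt hb]
        · intro j _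
          congr 1
          rw [hγ, hmod _ _ (Nat.mod_modEq (j * x.val) l), Nat.cast_mul, ZMod.natCast_zmod_val]
          ring
      rw [h5]
      have h6 : ∑ j ∈ range l, ev (x + (j : ZMod M) * (m : ZMod M)) - ev ((l : ZMod M) * x) =
          (∑ j ∈ range l, ev (x + (j : ZMod M) * (m : ZMod M)) + ev (-((l : ZMod M) * x)) +
            ∑ j ∈ range (l - 1), ev (((j + 1 : ℕ) : ZMod M) * (m : ZMod M))) -
          (ev ((l : ZMod M) * x) + ev (-((l : ZMod M) * x))) -
          ∑ j ∈ range (l - 1), ev (((j + 1 : ℕ) : ZMod M) * (m : ZMod M)) := by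
        abel
      rw [h6]
      exact sub_mem (sub_mem h2 h3) h4

/-- one step of the transfer theorem -/
theorem raise (hB : StBasic) (hR : StRankTwo) {m l : ℕ} [NeZero m] (hl : l.Prime) (hlo : Odd l)
    (hlm : l ∣ m) (hMm : M = l * m) (hE : Odd M ∨ 4 ∣ M) (hf : 0 < f)
    (hp : (p : ZMod M) ^ f = 1) (hyp : StepHyp p M) (hLP : LP m p f) : LP M p f := by
  classical
  have hmM : m ∣ M := ⟨l, by rw [hMm, mul_comm]⟩
  have hm0 : 0 < m := NeZero.pos m
  have hlM : l ∣ M := ⟨m, hMm⟩
  have hM : 1 < M := by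
    have := hl.one_lt
    rw [hMm]
    nlinarith
  have hm1 : 1 < m := lt_of_lt_of_le hl.one_lt (Nat.le_of_dvd hm0 hlm)
  have hpm : (p : ZMod m) ^ f = 1 := by
    have h1 := congrArg (ZMod.castHom hmM (ZMod m)) hp
    rw [map_pow, map_natCast, map_one] at h1
    exact h1
  obtain ⟨u, hu⟩ := exists_unit hf hp
  by_cases hneg : (-1 : (ZMod M)ˣ) ∈ Subgroup.zpowers u
  · exact lp_of_neg hB hM hf hp u hu hneg
  have hdvd : ∀ x : ZMod M, ∃ k, addOrderOf x * k = M := by
    intro x
    obtain ⟨k, hk⟩ := order_dvd x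
    exact ⟨k, hk.symm⟩
  have hmain : ∀ x : ZMod M, x ≠ 0 → (2 : ℤ) • ev x ∈ WW M p f ∧
      ∀ g : (ZMod M)ˣ, ev ((g : ZMod M) * x) - ev x ∈ WW M p f := by
    intro x hx
    obtain ⟨k, hk⟩ := hdvd x
    exact main hB hM hE hf hp hyp k x hx hk
  have hW : ∀ x : ZMod M, x ≠ 0 → (2 : ℤ) • ev x ∈ WW M p f := fun x hx => (hmain x hx).1
  intro X h0 hbal he
  set v := cnt X with hv
  have hv0 : v 0 = 0 := Basic.cnt_apply_zero h0
  have hvb : ∀ t : (ZMod M)ˣ, pair M p f t v = 0 := by
    intro t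
    change ∑ x, cnt X x * saw M p f t x = 0
    rw [Basic.sum_cnt_mul]
    exact hbal t
  have hve : Even (tot M v) := by
    change Even (∑ x, cnt X x)
    rw [Basic.sum_cnt]
    exact_mod_cast he
  -- `2 v` is in `Sub`
  have h2v : (2 : ℤ) • v ∈ Sub M p f := by
    refine bal_ww hB hR hM hf hp u hu hneg hW ?_ (fun t => by rw [map_zsmul, hvb, smul_zero]) ?_
    · rw [sum_ev v, Finset.smul_sum]
      refine AddSubgroup.sum_mem _ fun x _ => ?_
      by_cases hx : x = 0
      · rw [hx, hv0, zero_smul, smul_zero]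
        exact zero_mem _
      · rw [smul_comm]
        exact AddSubgroup.zsmul_mem _ (hW x hx) _
    · rw [map_zsmul, smul_eq_mul]
      exact even_two_mul _
  -- the units act trivially on `v`
  have hact : ∀ g : (ZMod M)ˣ, act M g v - v ∈ Sub M p f := by
    intro g
    refine bal_ww hB hR hM hf hp u hu hneg hW ?_ (fun t => by
      rw [map_sub, pair_act, hvb, hvb, sub_zero]) ?_
    · have h1 : act M g v - v = ∑ x, (v x • ev ((g : ZMod M) * x) - v x • ev x) := by
        rw [Finset.sum_sub_distrib, ← act_eq, ← sum_ev v]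
      rw [h1]
      refine AddSubgroup.sum_mem _ fun x _ => ?_
      by_cases hx : x = 0
      · rw [hx, hv0, zero_smul, zero_smul, sub_zero]
        exact zero_mem _
      · rw [← smul_sub]
        exact AddSubgroup.zsmul_mem _ ((hmain x hx).2 g) _
    · rw [map_sub, tot_act, sub_self]
      exact Even.zero
  -- the units `1 + j m`
  have hcopj : ∀ j : ℕ, Nat.Coprime (1 + j * m) M := by
    intro j
    have h1 : Nat.Coprime (1 + j * m) m :=
      (Nat.coprime_add_mul_right_left 1 m j).mpr (Nat.coprime_one_left m)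
    rw [hMm]
    exact Nat.Coprime.mul_right (h1.coprime_dvd_right hlm) h1
  let γ : ℕ → (ZMod M)ˣ := fun j => ZMod.unitOfCoprime (1 + j * m) (hcopj j)
  have hγ : ∀ j, (γ j : ZMod M) = 1 + (j : ZMod M) * (m : ZMod M) := by
    intro j
    change ((ZMod.unitOfCoprime (1 + j * m) (hcopj j) : (ZMod M)ˣ) : ZMod M) = _
    rw [ZMod.coe_unitOfCoprime]
    push_cast
    ring
  have hfib := fibre (p := p) (f := f) hB hl hlo hlm hMm hM hf hp γ hγ
  choose! yy cc hyy hcc using hfib
  let w : ZMod m → ℤ := ∑ x : ZMod M, (v x * cc x) • ev (yy x)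
  have hw0 : w 0 = 0 := by
    change (∑ x : ZMod M, (v x * cc x) • ev (yy x)) 0 = 0
    rw [Finset.sum_apply]
    refine Finset.sum_eq_zero fun x _ => ?_
    by_cases hx : x = 0
    · rw [hx, hv0, zero_mul, zero_smul, Pi.zero_apply]
    · have h1 : (ev (yy x) : ZMod m → ℤ) 0 = 0 := Pi.single_eq_of_ne (hyy x hx).symm _
      rw [Pi.smul_apply, h1, smul_zero]
  have hpw : push M m w = ∑ x : ZMod M, (v x * cc x) • ev (inc M m (yy x)) := by
    change push M m (∑ x : ZMod M, (v x * cc x) • ev (yy x)) = _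
    rw [map_sum]
    refine Finset.sum_congr rfl fun x _ => ?_
    rw [map_zsmul, push_ev]
  have hsum : ∑ j ∈ range l, act M (γ j) v - push M m w ∈ Sub M p f := by
    have h1 : ∑ j ∈ range l, act M (γ j) v - push M m w =
        ∑ x : ZMod M, v x • (∑ j ∈ range l, ev ((γ j : ZMod M) * x) -
          cc x • ev (inc M m (yy x))) := by
      rw [hpw]
      simp only [act_eq]
      rw [Finset.sum_comm, ← Finset.sum_sub_distrib]
      refine Finset.sum_congr rfl fun x _ => ?_
      rw [smul_sub, Finset.smul_sum, smul_smul]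
    rw [h1]
    refine AddSubgroup.sum_mem _ fun x _ => ?_
    by_cases hx : x = 0
    · rw [hx, hv0, zero_smul]
      exact zero_mem _
    · exact AddSubgroup.zsmul_mem _ (hcc x hx) _
  have hlv : (l : ℤ) • v - push M m w ∈ Sub M p f := by
    have h1 : (l : ℤ) • v - push M m w = (∑ j ∈ range l, act M (γ j) v - push M m w) -
        ∑ j ∈ range l, (act M (γ j) v - v) := by
      rw [Finset.sum_sub_distrib, Finset.sum_const, card_range, natCast_zsmul]
      abel
    rw [h1]
    exact sub_mem hsum (AddSubgroup.sum_mem _ fun j _ => hact (γ j))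
  have hvw : v - push M m w ∈ Sub M p f := by
    obtain ⟨k, hk⟩ := hlo
    have h1 : v - push M m w = ((l : ℤ) • v - push M m w) - (k : ℤ) • ((2 : ℤ) • v) := by
      rw [smul_smul, hk]
      push_cast
      rw [show (k : ℤ) * 2 = 2 * (k : ℤ) by ring, add_smul, one_smul]
      abel
    rw [h1]
    exact sub_mem hlv (AddSubgroup.zsmul_mem _ h2v _)
  have hwb : ∀ t : (ZMod m)ˣ, pair m p f t w = 0 := by
    refine bal_of_push hmM fun t => ?_
    have h1 := pair_sub hB hM hf hp t hvw
    rw [map_sub, hvb, zero_sub, neg_eq_zero] at h1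
    exact h1
  have hwe : Even (tot m w) := by
    have h1 := tot_sub hB hM hf hp hvw
    rw [map_sub, tot_push] at h1
    exact (Int.even_sub.mp h1).mp hve
  have hwS := lp_fun hB hm1 hf hpm hLP hw0 hwb hwe
  have h1 : v = (v - push M m w) + push M m w := by abel
  rw [h1]
  exact add_mem hvw (push_sub hmM hwS)

end Transfer

end Pool.Agent.Lib.MP81632f.Diag
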