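import Pool.Agent.Lib.MP_81632f_ag.Diag.Rank

/-!
# A variant of the rank statement
-/

set_option autoImplicit false

noncomputable section

namespace Pool.Agent.Lib.MP81632f.Diag

/-- `StRank` with the doubled sawtooth functions in the hypothesis -/
def StRankTwo : Prop :=
  ∀ (M p f : ℕ) [NeZero M], 1 < M → 0 < f → ∀ u : (ZMod M)ˣ, (u : ZMod M) = p → u ^ f = 1 →
    (-1 : (ZMod M)ˣ) ∉ Subgroup.zpowers u → ∀ (r : ℕ) (w : Fin r → (ZMod M)ˣ → ℤ),
    2 * r * orderOf u ≤ M.totient →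
    (∀ x : ZMod M, x ≠ 0 → ∃ a : Fin r → ℤ, ∀ t : (ZMod M)ˣ,
      2 * saw M p f t x = ∑ i, a i * w i t) →
    ∀ a : Fin r → ℤ, (∀ t : (ZMod M)ˣ, ∑ i, a i * w i t = 0) → a = 0

open RankAux Finset in
theorem stRankTwo (hL : StLval) : StRankTwo := by
  classical
  intro M p f _ hM hf u hu huf hneg r w hr hw a ha
  let w' : Fin r → (ZMod M)ˣ → ℂ := fun i t => (w i t : ℂ)
  let W : Submodule ℂ ((ZMod M)ˣ → ℂ) := Submodule.span ℂ (Set.range w')
  have hW : ∀ x : ZMod M, x ≠ 0 → (fun t : (ZMod M)ˣ => (saw M p f t x : ℂ)) ∈ W := by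
    intro x hx
    obtain ⟨b, hb⟩ := hw x hx
    have h1 : (2 : ℂ) • (fun t : (ZMod M)ˣ => (saw M p f t x : ℂ)) = ∑ i, (b i : ℂ) • w' i := by
      funext t
      rw [Finset.sum_apply, Pi.smul_apply, smul_eq_mul]
      have h2 := congrArg (fun z : ℤ => (z : ℂ)) (hb t)
      push_cast at h2
      rw [h2]
      rfl
    have h2 : (2 : ℂ) • (fun t : (ZMod M)ˣ => (saw M p f t x : ℂ)) ∈ W := by
      rw [h1]
      exact W.sum_mem fun i _ => W.smul_mem _ (Submodule.subset_span ⟨i, rfl⟩)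
    exact (W.smul_mem_iff (two_ne_zero)).mp h2
  let X : Finset (DirichletCharacter ℂ M) := univ.filter fun χ => χ.Odd ∧ χ u = 1
  have hX : ∀ χ, χ ∈ X ↔ χ.Odd ∧ χ u = 1 := fun χ => by simp [X]
  have hcard := card_odd u hneg X hX
  have hrX : r ≤ X.card := by
    have h1 : 2 * r * orderOf u ≤ 2 * X.card * orderOf u := by rw [hcard]; exact hr
    have h2 := Nat.le_of_mul_le_mul_right h1 (orderOf_pos u)
    omega
  -- the characters as vectors of `W`
  let g : X → ((ZMod M)ˣ →* ℂ) := fun χ =>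
    ((χ.1⁻¹ : DirichletCharacter ℂ M) : ZMod M →* ℂ).comp (Units.coeHom (ZMod M))
  have hg : Function.Injective g := by
    intro χ χ' h
    apply Subtype.ext
    apply inv_injective
    apply MulChar.ext
    intro t
    exact DFunLike.congr_fun h t
  have hlin : LinearIndependent ℂ (fun χ : X => (g χ : (ZMod M)ˣ → ℂ)) :=
    (linearIndependent_monoidHom (ZMod M)ˣ ℂ).comp g hg
  have hgW : ∀ χ : X, (g χ : (ZMod M)ˣ → ℂ) ∈ W := fun χ =>
    mem_of_saw hL p f hf u hu W hW χ.1 ((hX _).mp χ.2).1 ((hX _).mp χ.2).2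
  have hlin' : LinearIndependent ℂ (fun χ : X => (⟨g χ, hgW χ⟩ : W)) := by
    apply LinearIndependent.of_comp W.subtype
    exact hlin
  have hfin : X.card ≤ Module.finrank ℂ W := by
    have h1 := hlin'.fintype_card_le_finrank
    rwa [Fintype.card_coe] at h1
  have hind : LinearIndependent ℂ w' := by
    rw [linearIndependent_iff_card_le_finrank_span, Fintype.card_fin]
    exact hrX.trans hfin
  rw [Fintype.linearIndependent_iff] at hind
  have h0 := hind (fun i => (a i : ℂ)) (by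
    funext t
    rw [Finset.sum_apply]
    have h1 := congrArg (fun z : ℤ => (z : ℂ)) (ha t)
    push_cast at h1
    simpa [w'] using h1)
  funext i
  exact_mod_cast h0 i

end Pool.Agent.Lib.MP81632f.Diag
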