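import Pool.Agent.Lib.MP_81632f_ag.Diag.Stmts

/-!
# Separation of the primes (module C3)
-/

set_option autoImplicit false

noncomputable section

namespace Pool.Agent.Lib.MP81632f.Diag

open Finset

namespace SepAux

theorem saw_congr (M p f : ℕ) {t t' x x' : ZMod M} (h : t' * x' = t * x) :
    saw M p f t' x' = saw M p f t x := by
  unfold saw
  apply Finset.sum_congr rfl
  intro j _
  rw [mul_assoc, mul_assoc, h]

end SepAux

open SepAux in
theorem stSep (hB : StBasic) : StSep := by
  intro M p f hM hM1 hf hp v hv hbal ℓ hℓ hℓM t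
  obtain ⟨-, -, -, hneg, -⟩ := hB M p f hM1 hf hp
  set q := ℓ ^ M.factorization ℓ with hq
  set m' := M / q with hm'
  have hM0 : M ≠ 0 := by omega
  have hqm : q * m' = M := Nat.ordProj_mul_ordCompl_eq_self M ℓ
  have hcop : Nat.Coprime q m' := (Nat.coprime_ordCompl hℓ hM0).pow_left _
  obtain ⟨a, b, hab⟩ := Nat.isCoprime_iff_coprime.2 hcop
  have hab' : (a : ZMod M) * q + b * m' = 1 := by
    have := congrArg (fun z : ℤ => (z : ZMod M)) hab
    push_cast at this
    exact this
  have hM' : (q : ZMod M) * m' = 0 := by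
    rw [← Nat.cast_mul, hqm, ZMod.natCast_self]
  -- the unit `c`, which is `1` modulo `q` and `-1` modulo `m'`
  set c : ZMod M := 1 - 2 * (a * q) with hc
  have hc2 : c * c = 1 := by
    rw [hc]
    linear_combination (4 * (a : ZMod M) * q) * hab' - (4 * (a : ZMod M) * b) * hM'
  let cu : (ZMod M)ˣ := ⟨c, c, hc2, hc2⟩
  have hc1 : ∀ x : ZMod M, (q : ZMod M) * x = 0 → c * x = x := by
    intro x hx
    rw [hc]
    linear_combination (-2 * (a : ZMod M)) * hx
  have hcn : ∀ x : ZMod M, (m' : ZMod M) * x = 0 → c * x = -x := by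
    intro x hx
    rw [hc]
    linear_combination (-2 * x) * hab' + (2 * (b : ZMod M)) * hx
  have hord : ∀ (x : ZMod M) (n : ℕ), addOrderOf x ∣ n → (n : ZMod M) * x = 0 := by
    intro x n hn
    rw [← nsmul_eq_mul]
    exact addOrderOf_dvd_iff_nsmul_eq_zero.1 hn
  have hself : ∀ x : ZMod M, addOrderOf x = q →
      saw M p f (t * cu : (ZMod M)ˣ) x = saw M p f t x := by
    intro x hx
    apply saw_congr
    rw [Units.val_mul]
    change (t : ZMod M) * c * x = t * x
    rw [mul_assoc, hc1 x (hord x q (by rw [hx]))]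
  have hother : ∀ x : ZMod M, addOrderOf x ≠ q → v x ≠ 0 →
      saw M p f (t * cu : (ZMod M)ˣ) x = - saw M p f t x := by
    intro x hx hvx
    rcases hv x hvx with ⟨h1, h2⟩ | ⟨ℓ', hℓ', hℓ'M, h1⟩
    · have h3 : -x = x := by
        linear_combination (-1 : ZMod M) * h1
      have h4 : ∀ s : (ZMod M)ˣ, saw M p f s x = 0 := by
        intro s
        have h5 := hneg s x s.isUnit h2
        rw [h3] at h5
        omega
      rw [h4, h4, neg_zero]
    · have hx0 : x ≠ 0 := by
        rintro rfl
        rw [addOrderOf_zero] at h1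
        have h2 : 0 < M.factorization ℓ' := hℓ'.factorization_pos_of_dvd hM0 hℓ'M
        have h3 := Nat.one_lt_pow h2.ne' hℓ'.one_lt
        omega
      have hne : ℓ' ≠ ℓ := by
        rintro rfl
        exact hx h1
      have hdvd : addOrderOf x ∣ m' := by
        rw [h1]
        have h2 : ℓ' ^ M.factorization ℓ' ∣ q * m' := by
          rw [hqm]
          exact Nat.ordProj_dvd M ℓ'
        apply Nat.Coprime.dvd_of_dvd_mul_left _ h2
        exact ((Nat.coprime_primes hℓ' hℓ).2 hne).pow _ _
      rw [← hneg t x t.isUnit hx0]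
      apply saw_congr
      rw [Units.val_mul]
      change (t : ZMod M) * c * x = t * -x
      rw [mul_assoc, hcn x (hord x m' hdvd)]
  have e1 := hbal t
  have e2 := hbal (t * cu)
  have e3 : ∑ x, (v x * saw M p f t x + v x * saw M p f (t * cu : (ZMod M)ˣ) x) =
      ∑ x, if addOrderOf x = q then 2 * (v x * saw M p f t x) else 0 := by
    apply Finset.sum_congr rfl
    intro x _
    split_ifs with h
    · rw [hself x h]
      ring
    · by_cases hvx : v x = 0
      · rw [hvx]
        ring
      · rw [hother x h hvx]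
        ring
  rw [Finset.sum_add_distrib, e1, e2, ← Finset.sum_filter, ← Finset.mul_sum] at e3
  omega

end Pool.Agent.Lib.MP81632f.Diag
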