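import Pool.Agent.Lib.MP_81632f_ag.Diag.Stmts

/-!
# D0: all nontrivial additive characters of a finite field are shifts of each other
-/

set_option autoImplicit false

namespace Pool.Agent.Lib.MP81632f.Diag

open Finset

theorem stShift : StShift := by
  intro F _ _ L _ _ ψ ψ' hψ hψ'
  classical
  by_contra hcon
  have hall : ∀ c : F, ψ' ≠ AddChar.mulShift ψ c := by
    intro c h
    by_cases hc : c = 0
    · apply hψ'
      rw [h, hc, AddChar.mulShift_zero]
    · exact hcon ⟨c, hc, h⟩
  have hprim : ψ.IsPrimitive := AddChar.IsPrimitive.of_ne_one hψ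
  have h1 : ∀ c : F, ∑ x, ψ' x * ψ (c * -x) = 0 := by
    intro c
    have h2 : ψ' * (AddChar.mulShift ψ c)⁻¹ ≠ 1 := by
      intro h3
      exact hall c (mul_inv_eq_one.1 h3)
    have h4 := AddChar.sum_eq_zero_of_ne_one h2
    rw [← h4]
    refine Finset.sum_congr rfl fun x _ => ?_
    rw [AddChar.mul_apply, AddChar.inv_apply, AddChar.mulShift_apply]
  have h5 : ∑ c : F, ∑ x, ψ' x * ψ (c * -x) = 0 := Finset.sum_eq_zero fun c _ => h1 c
  rw [Finset.sum_comm] at h5
  have h6 : ∀ x : F, ∑ c : F, ψ' x * ψ (c * -x) = if x = 0 then (Fintype.card F : L) else 0 := by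
    intro x
    rw [← Finset.mul_sum, AddChar.sum_mulShift (-x) hprim]
    by_cases hx : x = 0
    · simp [hx]
    · simp [hx]
  rw [Finset.sum_congr rfl fun x _ => h6 x, Finset.sum_ite_eq' Finset.univ (0 : F)] at h5
  simp only [Finset.mem_univ, if_true] at h5
  exact (Nat.cast_ne_zero.2 Fintype.card_ne_zero) h5

end Pool.Agent.Lib.MP81632f.Diag
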