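import Pool.Agent.Lib.MP_81632f_ag.Diag.Stmts

/-!
# D4: Stickelberger's theorem on the valuations of Gauss sums
-/

set_option autoImplicit false

noncomputable section

namespace Pool.Agent.Lib.MP81632f.Diag

open Finset

namespace Stick

variable {p : ℕ} [Fact p.Prime] {F : Type} [Field F] [Fintype F]

theorem norm_p : ‖(p : PadicAlgCl p)‖ = (p : ℝ)⁻¹ := by
  rw [← map_natCast (algebraMap ℚ_[p] (PadicAlgCl p)), PadicAlgCl.norm_extends, Padic.norm_p]

theorem norm_char_unit (χ : MulChar F (PadicAlgCl p)) {c : F} (hc : c ≠ 0) : ‖χ c‖ = 1 := by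
  classical
  have h1 : (χ c) ^ (Fintype.card Fˣ) = 1 := by
    rw [← MulChar.pow_apply' χ Fintype.card_ne_zero c, MulChar.pow_card_eq_one]
    exact MulChar.one_apply (isUnit_iff_ne_zero.2 hc)
  have h2 : ‖χ c‖ ^ (Fintype.card Fˣ) = 1 := by rw [← norm_pow, h1, norm_one]
  exact (pow_eq_one_iff_of_nonneg (norm_nonneg _) Fintype.card_ne_zero).1 h2

theorem norm_char_le (χ : MulChar F (PadicAlgCl p)) (c : F) : ‖χ c‖ ≤ 1 := by
  by_cases hc : c = 0
  · rw [hc, MulChar.map_zero, norm_zero]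
    exact zero_le_one
  · exact (norm_char_unit χ hc).le

theorem norm_jacobi (χ φ : MulChar F (PadicAlgCl p)) : ‖jacobiSum χ φ‖ ≤ 1 := by
  unfold jacobiSum
  refine IsUltrametricDist.norm_sum_le_of_forall_le_of_nonneg zero_le_one fun x _ => ?_
  rw [norm_mul]
  exact mul_le_one₀ (norm_char_le _ _) (norm_nonneg _) (norm_char_le _ _)

/-- The absolute value of a Gauss sum does not depend on the additive character. -/
theorem norm_shift (hSh : StShift) (χ : MulChar F (PadicAlgCl p))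
    {ψ ψ' : AddChar F (PadicAlgCl p)} (hψ : ψ ≠ 1) (hψ' : ψ' ≠ 1) :
    ‖gaussSum χ ψ'‖ = ‖gaussSum χ ψ‖ := by
  obtain ⟨c, hc, rfl⟩ := hSh F (PadicAlgCl p) ψ ψ' hψ hψ'
  have h := gaussSum_mulShift χ ψ (Units.mk0 c hc)
  rw [← h, norm_mul, Units.val_mk0, norm_char_unit χ hc, one_mul]

theorem norm_mul_inv (hSh : StShift) {f : ℕ} (hcard : Fintype.card F = p ^ f)
    {χ : MulChar F (PadicAlgCl p)} (hχ : χ ≠ 1) {ψ : AddChar F (PadicAlgCl p)} (hψ : ψ ≠ 1) :
    ‖gaussSum χ ψ‖ * ‖gaussSum χ⁻¹ ψ‖ = ((p : ℝ)⁻¹) ^ f := by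
  have h1 := gaussSum_mul_gaussSum_eq_card hχ (AddChar.IsPrimitive.of_ne_one hψ)
  have h2 : ψ⁻¹ ≠ 1 := fun h => hψ (inv_eq_one.1 h)
  have h3 := congrArg norm h1
  rwa [norm_mul, norm_shift hSh χ⁻¹ hψ h2, hcard, Nat.cast_pow, norm_pow, norm_p] at h3

theorem norm_frob [CharP F p] (hSh : StShift) (χ : MulChar F (PadicAlgCl p))
    {ψ : AddChar F (PadicAlgCl p)} (hψ : ψ ≠ 1) :
    ‖gaussSum (χ ^ p) ψ‖ = ‖gaussSum χ ψ‖ := by
  let ψ' : AddChar F (PadicAlgCl p) := ψ.compAddMonoidHom (frobenius F p : F →+ F)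
  have hp0 : p ≠ 0 := (Fact.out : p.Prime).ne_zero
  have hbij : Function.Bijective (frobenius F p) :=
    Finite.injective_iff_bijective.1 (frobenius_inj F p)
  have hψ'a : ∀ x, ψ' x = ψ (frobenius F p x) := fun x => rfl
  have hψ' : ψ' ≠ 1 := by
    intro h
    apply hψ
    refine DFunLike.ext _ _ fun x => ?_
    obtain ⟨y, rfl⟩ := hbij.2 x
    rw [← hψ'a, h]
    rfl
  have h1 : gaussSum (χ ^ p) ψ' = gaussSum χ ψ := by
    unfold gaussSum
    refine Fintype.sum_bijective _ hbij _ _ fun x => ?_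
    rw [MulChar.pow_apply' χ hp0, hψ'a, frobenius_def, map_pow χ]
  rw [← h1, norm_shift hSh (χ ^ p) hψ hψ']

/-- The digits of `b + 1` if `p` does not divide `b + 1`. -/
theorem digits_succ {q b : ℕ} (hq : 1 < q) (hb : 0 < b) (h : ¬ q ∣ b + 1) :
    (Nat.digits q (b + 1)).sum = (Nat.digits q b).sum + 1 := by
  have h1 : (b + 1) % q = b % q + 1 ∧ (b + 1) / q = b / q := by
    have h2 : b % q < q := Nat.mod_lt _ (by omega)
    have h3 : b % q + 1 ≠ q := by
      intro h4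
      apply h
      refine ⟨b / q + 1, ?_⟩
      have h5 := Nat.div_add_mod b q
      rw [mul_add, mul_one]
      omega
    have h6 := (Nat.div_mod_unique (a := b + 1) (b := q) (c := b % q + 1) (d := b / q)
      (by omega)).2 ⟨by have h5 := Nat.div_add_mod b q; omega, by omega⟩
    exact ⟨h6.2, h6.1⟩
  rw [Nat.digits_def' hq (by omega), Nat.digits_def' hq hb, List.sum_cons, List.sum_cons, h1.1,
    h1.2]
  omega

theorem lower [CharP F p] (hSh : StShift) {f : ℕ} {η : MulChar F (PadicAlgCl p)}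
    (hord : orderOf η = p ^ f - 1) {ψ : AddChar F (PadicAlgCl p)} (hψ : ψ ≠ 1)
    (h1 : (p : ℝ)⁻¹ ≤ ‖gaussSum η ψ‖ ^ (p - 1)) (a : ℕ) :
    0 < a → a < p ^ f - 1 →
      ((p : ℝ)⁻¹) ^ (Nat.digits p a).sum ≤ ‖gaussSum (η ^ a) ψ‖ ^ (p - 1) := by
  have hp : p.Prime := Fact.out
  have hp1 : 1 < p := hp.one_lt
  have hP : (0 : ℝ) ≤ (p : ℝ)⁻¹ := by positivity
  induction a using Nat.strong_induction_on with
  | _ a ih =>
  intro ha0 ha
  by_cases hd : p ∣ a
  · obtain ⟨b, rfl⟩ := hd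
    have hb0 : 0 < b := Nat.pos_of_mul_pos_left ha0
    have hb : b < p * b := by nlinarith
    have h2 := ih b hb hb0 (by omega)
    rw [Nat.digits_base_mul hp1 hb0, List.sum_cons, zero_add, mul_comm p b, pow_mul,
      norm_frob hSh _ hψ]
    exact h2
  · obtain ⟨b, rfl⟩ : ∃ b, a = b + 1 := ⟨a - 1, by omega⟩
    by_cases hb0 : b = 0
    · subst hb0
      rw [zero_add, pow_one, Nat.digits_of_lt p 1 one_ne_zero hp1, List.sum_singleton, pow_one]
      exact h1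
    · have h2 := ih b (by omega) (by omega) (by omega)
      rw [digits_succ hp1 (by omega) hd, pow_succ]
      have hne : η ^ b * η ≠ 1 := by
        rw [← pow_succ]
        exact pow_ne_one_of_lt_orderOf (by omega) (by omega)
      have h3 := congrArg norm (jacobiSum_mul_nontrivial hne ψ)
      rw [norm_mul, norm_mul] at h3
      have h4 : ‖gaussSum (η ^ b) ψ‖ * ‖gaussSum η ψ‖ ≤ ‖gaussSum (η ^ b * η) ψ‖ := by
        rw [← h3]
        exact mul_le_of_le_one_right (norm_nonneg _) (norm_jacobi _ _)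
      rw [pow_succ η b]
      calc ((p : ℝ)⁻¹) ^ (Nat.digits p b).sum * (p : ℝ)⁻¹
          ≤ ‖gaussSum (η ^ b) ψ‖ ^ (p - 1) * ‖gaussSum η ψ‖ ^ (p - 1) :=
            mul_le_mul h2 h1 hP (by positivity)
        _ = (‖gaussSum (η ^ b) ψ‖ * ‖gaussSum η ψ‖) ^ (p - 1) := (mul_pow _ _ _).symm
        _ ≤ ‖gaussSum (η ^ b * η) ψ‖ ^ (p - 1) := pow_le_pow_left₀ (by positivity) h4 _

theorem exact_norm [CharP F p] (hSh : StShift) (hd : StDig) {f : ℕ}
    (hcard : Fintype.card F = p ^ f) {η : MulChar F (PadicAlgCl p)}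
    (hord : orderOf η = p ^ f - 1) {ψ : AddChar F (PadicAlgCl p)} (hψ : ψ ≠ 1)
    (h1 : (p : ℝ)⁻¹ ≤ ‖gaussSum η ψ‖ ^ (p - 1)) {a : ℕ} (ha0 : 0 < a) (ha : a < p ^ f - 1) :
    ‖gaussSum (η ^ a) ψ‖ ^ (p - 1) = ((p : ℝ)⁻¹) ^ (Nat.digits p a).sum := by
  have hp : p.Prime := Fact.out
  have hp1 : 1 < p := hp.one_lt
  have hP : (0 : ℝ) < (p : ℝ)⁻¹ := by
    have : (0 : ℝ) < p := by exact_mod_cast hp.pos
    positivity
  have hA := lower hSh hord hψ h1 a ha0 ha
  have hB := lower hSh hord hψ h1 (p ^ f - 1 - a) (by omega) (by omega)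
  have hs := (hd p f a hp1 ha).2 ha0
  have hinv : (η ^ a)⁻¹ = η ^ (p ^ f - 1 - a) := by
    apply inv_eq_of_mul_eq_one_right
    rw [← pow_add, show a + (p ^ f - 1 - a) = p ^ f - 1 by omega, ← hord, pow_orderOf_eq_one]
  have hne : η ^ a ≠ 1 := pow_ne_one_of_lt_orderOf (by omega) (by omega)
  have hm := norm_mul_inv hSh hcard hne hψ
  rw [hinv] at hm
  have hm' : ‖gaussSum (η ^ a) ψ‖ ^ (p - 1) * ‖gaussSum (η ^ (p ^ f - 1 - a)) ψ‖ ^ (p - 1) =
      ((p : ℝ)⁻¹) ^ (Nat.digits p a).sum * ((p : ℝ)⁻¹) ^ (Nat.digits p (p ^ f - 1 - a)).sum := by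
    rw [← mul_pow, hm, ← pow_add, hs, pow_mul]
  refine le_antisymm ?_ hA
  have hBpos : 0 < ‖gaussSum (η ^ (p ^ f - 1 - a)) ψ‖ ^ (p - 1) := lt_of_lt_of_le (by positivity) hB
  refine le_of_mul_le_mul_right ?_ hBpos
  rw [hm']
  exact mul_le_mul_of_nonneg_left hB (by positivity)

end Stick

open Stick in
/-- D4: Stickelberger's theorem. -/
theorem stStick (hT : StTeich) (h1 : StOneG) (hd : StDig) (hSh : StShift) : StStick := by
  intro p _ F _ _ _ f hcard m hm0 hmd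
  have hp : p.Prime := Fact.out
  have hp1 : 1 < p := hp.one_lt
  obtain ⟨ω, hω, hωadd⟩ := hT p F
  have hord : orderOf ω⁻¹ = p ^ f - 1 := by rw [orderOf_inv, hω, hcard]
  obtain ⟨k, hk⟩ := hmd
  have hq : 0 < p ^ f - 1 := by
    have h2 : 1 < Fintype.card F := Fintype.one_lt_card
    omega
  have hk0 : 0 < k := by
    rcases Nat.eq_zero_or_pos k with h | h
    · rw [h, mul_zero] at hk
      omega
    · exact h
  refine ⟨(ω⁻¹) ^ k, ?_, ?_⟩
  · rw [orderOf_pow_of_dvd hk0.ne' ⟨m, by rw [hord, hk, mul_comm]⟩, hord, hk,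
      Nat.mul_div_cancel _ hk0]
  · intro ψ hψ x hx
    have hr0 : 0 < x % m := Nat.pos_of_ne_zero fun h => hx (Nat.dvd_of_mod_eq_zero h)
    have hrm : x % m < m := Nat.mod_lt _ hm0
    have ha0 : 0 < k * (x % m) := Nat.mul_pos hk0 hr0
    have ha : k * (x % m) < p ^ f - 1 := by
      rw [hk, mul_comm m k]
      exact Nat.mul_lt_mul_of_pos_left hrm hk0
    have hpow : ((ω⁻¹) ^ k) ^ x = (ω⁻¹) ^ (k * (x % m)) := by
      rw [← pow_mul, ← pow_mod_orderOf ω⁻¹ (k * x), hord, hk, mul_comm m k,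
        Nat.mul_mod_mul_left]
    rw [hpow]
    have hE := exact_norm hSh hd hcard hord hψ (h1 p F ω hω hωadd ψ hψ) ha0 ha
    have hD := (hd p f (k * (x % m)) hp1 ha).1
    have hsum : ∑ j ∈ range f, (p ^ j * (k * (x % m))) % (p ^ f - 1) =
        k * ∑ j ∈ range f, (p ^ j * x) % m := by
      rw [Finset.mul_sum]
      refine Finset.sum_congr rfl fun j _ => ?_
      rw [hk, mul_left_comm, mul_comm m k, Nat.mul_mod_mul_left]
      congr 1
      rw [Nat.mul_mod, Nat.mod_mod, ← Nat.mul_mod]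
    rw [hsum, hk] at hD
    have hD' : (p - 1) * ∑ j ∈ range f, (p ^ j * x) % m = m * (Nat.digits p (k * (x % m))).sum := by
      apply Nat.eq_of_mul_eq_mul_left hk0
      calc k * ((p - 1) * ∑ j ∈ range f, (p ^ j * x) % m)
          = (p - 1) * (k * ∑ j ∈ range f, (p ^ j * x) % m) := by ring
        _ = m * k * (Nat.digits p (k * (x % m))).sum := hD
        _ = k * (m * (Nat.digits p (k * (x % m))).sum) := by ring
    have hP : (0 : ℝ) ≤ (p : ℝ)⁻¹ := by positivity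
    refine (pow_left_inj₀ (by positivity) (by positivity) (n := p - 1) (by omega)).1 ?_
    rw [← pow_mul, mul_comm m (p - 1), pow_mul, hE, ← pow_mul, ← pow_mul]
    congr 1
    rw [mul_comm (∑ j ∈ range f, (p ^ j * x) % m) (p - 1), hD', mul_comm]

end Pool.Agent.Lib.MP81632f.Diag
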