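import Pool.Agent.Lib.MP_81632f_ag.Diag.Stmts

/-!
# Tate sets of Gauss sums: one more statement (for the composite degrees)
-/

set_option autoImplicit false

noncomputable section

namespace Pool.Agent.Lib.MP81632f.Diag

open Finset

/-- B4 (the rank of the space of sawtooth functions): `r` functions, `2 r ord(p) ≤ φ(M)`, whose
integral combinations contain all functions `t ↦ saw t x`, are linearly independent. -/
def StRank : Prop :=
  ∀ (M p f : ℕ) [NeZero M], 1 < M → 0 < f → ∀ u : (ZMod M)ˣ, (u : ZMod M) = p → u ^ f = 1 →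
    (-1 : (ZMod M)ˣ) ∉ Subgroup.zpowers u → ∀ (r : ℕ) (w : Fin r → (ZMod M)ˣ → ℤ),
    2 * r * orderOf u ≤ M.totient →
    (∀ x : ZMod M, x ≠ 0 → ∃ a : Fin r → ℤ, ∀ t : (ZMod M)ˣ,
      saw M p f t x = ∑ i, a i * w i t) →
    ∀ a : Fin r → ℤ, (∀ t : (ZMod M)ˣ, ∑ i, a i * w i t = 0) → a = 0

end Pool.Agent.Lib.MP81632f.Diag
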