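import Pool.Agent.Lib.MP_81632f_ag.Diag.Pow2

/-!
# Two primes: distributions
-/

set_option autoImplicit false

noncomputable section

namespace Pool.Agent.Lib.MP81632f.Diag

open Finset

namespace TP

open Crit Two
open Red (ev dh_mem mul_quot quot_ne two_torsion)

/-- `Sub` and the supersingular elements -/
def WS (M p f : ℕ) [NeZero M] : AddSubgroup (ZMod M → ℤ) := Sub M p f ⊔ SS M p f

/-- the quotient -/
abbrev QA (M p f : ℕ) [NeZero M] : Type := (ZMod M → ℤ) ⧸ WS M p f

/-- the classes of the basis vectors -/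
def E (M p f : ℕ) [NeZero M] (x : ZMod M) : QA M p f :=
  if x = 0 then 0 else QuotientAddGroup.mk (ev x)

/-- odd distributions of level `M`, invariant under `p` -/
structure IsD {A : Type} [AddCommGroup A] (M p : ℕ) (F : ZMod M → A) : Prop where
  zero : F 0 = 0
  neg : ∀ x, F (-x) = -F x
  frob : ∀ x, F ((p : ZMod M) * x) = F x
  dist : ∀ l : ℕ, l.Prime → l ∣ M → ∀ x,
    ∑ j ∈ range l, F (x + (j : ZMod M) * ((M / l : ℕ) : ZMod M)) = F ((l : ZMod M) * x)

section Basics

variable {M : ℕ} [NeZero M] {p f : ℕ}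

theorem E_zero : E M p f 0 = 0 := if_pos rfl

theorem E_of {x : ZMod M} (hx : x ≠ 0) : E M p f x = QuotientAddGroup.mk (ev x) := if_neg hx

theorem mk_zero {v : ZMod M → ℤ} : (QuotientAddGroup.mk v : QA M p f) = 0 ↔ v ∈ WS M p f :=
  QuotientAddGroup.eq_zero_iff v

theorem E_ss {x : ZMod M} (hx : SSel M p f x) : E M p f x = 0 := by
  rw [E_of hx.1, mk_zero]
  exact (le_sup_right : SS M p f ≤ _) (ss_mem hx)

theorem mk_sum {ι : Type} (s : Finset ι) (g : ι → ZMod M → ℤ) :
    (QuotientAddGroup.mk (∑ i ∈ s, g i) : QA M p f) = ∑ i ∈ s, QuotientAddGroup.mk (g i) :=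
  map_sum (QuotientAddGroup.mk' (WS M p f)) g s

/-- the class of a function vanishing at `0` -/
theorem mk_fun {v : ZMod M → ℤ} (h0 : v 0 = 0) :
    (QuotientAddGroup.mk v : QA M p f) = ∑ x, v x • E M p f x := by
  have h1 : v = ∑ x, v x • ev x := Transfer.sum_ev v
  conv_lhs => rw [h1]
  rw [mk_sum]
  refine Finset.sum_congr rfl fun x _ => ?_
  by_cases hx : x = 0
  · rw [hx, h0, zero_smul, zero_smul]
    rfl
  · rw [E_of hx]
    rfl

omit [NeZero M] in
/-- elements killed by `n` -/
theorem exists_mul {n : ℕ} (hn : n ∣ M) (hn0 : n ≠ 0) [NeZero M] {x : ZMod M}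
    (hx : (n : ZMod M) * x = 0) : ∃ j < n, x = (j : ZMod M) * ((M / n : ℕ) : ZMod M) := by
  have h1 : M ∣ n * x.val := by
    rw [← ZMod.natCast_eq_zero_iff, Nat.cast_mul, ZMod.natCast_zmod_val]
    exact hx
  have h2 : n * (M / n) ∣ n * x.val := by rw [Nat.mul_div_cancel' hn]; exact h1
  obtain ⟨j, hj⟩ := Nat.dvd_of_mul_dvd_mul_left (Nat.pos_of_ne_zero hn0) h2
  have hq : 0 < M / n := Nat.div_pos (Nat.le_of_dvd (NeZero.pos M) hn) (Nat.pos_of_ne_zero hn0)
  refine ⟨j, ?_, ?_⟩
  · have h3 : x.val < M := ZMod.val_lt x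
    rw [hj] at h3
    have h4 : M / n * j < M / n * n := by rw [Nat.div_mul_cancel hn]; exact h3
    exact Nat.lt_of_mul_lt_mul_left h4
  · rw [← Nat.cast_mul, mul_comm j, ← hj, ZMod.natCast_zmod_val]

/-- sums over the multiples of `M / l` -/
theorem sum_ker {A : Type} [AddCommGroup A] (F : ZMod M → A) {l : ℕ} (hl : l.Prime) (hd : l ∣ M)
    (x : ZMod M) : ∑ j ∈ range l, F (x + (j : ZMod M) * ((M / l : ℕ) : ZMod M)) =
      ∑ y ∈ univ.filter (fun y : ZMod M => (l : ZMod M) * y = 0), F (x + y) := by
  refine Finset.sum_bij (fun j _ => (j : ZMod M) * ((M / l : ℕ) : ZMod M)) ?_ ?_ ?_ ?_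
  · intro j _
    rw [mem_filter]
    exact ⟨mem_univ _, by rw [mul_left_comm, mul_quot hd, mul_zero]⟩
  · intro i hi j hj hij
    rw [mem_range] at hi hj
    by_contra hne
    rcases lt_or_gt_of_ne hne with h | h
    · refine quot_ne (M := M) hl hd (j := j - i) (by omega) (by omega) ?_
      rw [Nat.cast_sub h.le, sub_mul, ← hij, sub_self]
    · refine quot_ne (M := M) hl hd (j := i - j) (by omega) (by omega) ?_
      rw [Nat.cast_sub h.le, sub_mul, ← hij, sub_self]
  · intro y hy
    rw [mem_filter] at hy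
    obtain ⟨j, hj, h⟩ := exists_mul hd hl.ne_zero hy.2
    exact ⟨j, mem_range.mpr hj, h.symm⟩
  · intro j _
    rfl

theorem E_isD (hB : StBasic) (hM : 1 < M) (hf : 0 < f) (hp : (p : ZMod M) ^ f = 1) :
    IsD M p (E M p f) := by
  have hpu : IsUnit (p : ZMod M) := IsUnit.of_pow_eq_one hp hf.ne'
  have hneg : ∀ x, E M p f (-x) = -E M p f x := by
    intro x
    by_cases hx : x = 0
    · rw [hx, neg_zero, E_zero, neg_zero]
    · rw [E_of hx, E_of (neg_ne_zero.mpr hx), eq_neg_iff_add_eq_zero]
      have h1 := (hB M p f hM hf hp).1 x hx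
      have h2 : (QuotientAddGroup.mk (ev (-x) + ev x) : QA M p f) = 0 := by
        rw [mk_zero, add_comm]
        exact (le_sup_left : Sub M p f ≤ _) h1
      exact h2
  refine ⟨E_zero, hneg, ?_, ?_⟩
  · intro x
    by_cases hx : x = 0
    · rw [hx, mul_zero]
    · have hpx : (p : ZMod M) * x ≠ 0 := by
        intro h
        apply hx
        exact (hpu.mul_right_eq_zero).mp h
      rw [E_of hx, E_of hpx, ← sub_eq_zero]
      have h2 : (QuotientAddGroup.mk (ev ((p : ZMod M) * x) - ev x) : QA M p f) = 0 := by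
        rw [mk_zero]
        exact (le_sup_left : Sub M p f ≤ _) ((hB M p f hM hf hp).2.1 x hx)
      exact h2
  · intro l hl hd
    have hthird : ∑ j ∈ range (l - 1), E M p f (((j + 1 : ℕ) : ZMod M) * ((M / l : ℕ) : ZMod M)) =
        0 := by
      have h1 := Two.third hB hM hf hp hl hd
      have h2 : (QuotientAddGroup.mk (∑ j ∈ range (l - 1),
          ev (((j + 1 : ℕ) : ZMod M) * ((M / l : ℕ) : ZMod M))) : QA M p f) = 0 := by
        rw [mk_zero]
        exact h1
      rw [mk_sum] at h2
      rw [← h2]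
      refine Finset.sum_congr rfl fun j hj => ?_
      rw [mem_range] at hj
      exact E_of (quot_ne hl hd (by omega) (by omega))
    have hker : ∑ y ∈ univ.filter (fun y : ZMod M => (l : ZMod M) * y = 0), E M p f y = 0 := by
      have h1 := sum_ker (E M p f) hl hd 0
      have h2 : ∀ y : ZMod M, E M p f (0 + y) = E M p f y := fun y => by rw [zero_add]
      rw [Finset.sum_congr rfl fun y _ => h2 y] at h1
      rw [← h1]
      obtain ⟨q, hq⟩ : ∃ q, l = q + 1 := ⟨l - 1, by have := hl.pos; omega⟩
      have h3 := Finset.sum_range_succ' (fun j : ℕ =>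
        E M p f (0 + (j : ZMod M) * ((M / l : ℕ) : ZMod M))) q
      rw [← hq] at h3
      rw [h3, Nat.cast_zero, zero_mul, zero_add, E_zero, add_zero, ← hthird]
      have h4 : l - 1 = q := by omega
      rw [h4]
      exact Finset.sum_congr rfl fun j _ => by rw [zero_add]
    intro x
    by_cases hlx : (l : ZMod M) * x = 0
    · rw [sum_ker _ hl hd, hlx, E_zero, ← hker]
      refine Finset.sum_bij (fun y _ => x + y) ?_ ?_ ?_ ?_
      · intro y hy
        rw [mem_filter] at hy ⊢
        exact ⟨mem_univ _, by rw [mul_add, hlx, hy.2, add_zero]⟩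
      · intro a _ b _ hab
        exact add_left_cancel hab
      · intro y hy
        rw [mem_filter] at hy
        refine ⟨y - x, ?_, by abel⟩
        rw [mem_filter]
        exact ⟨mem_univ _, by rw [mul_sub, hlx, hy.2, sub_zero]⟩
      · intro y _
        rfl
    · have h1 := dh_mem (p := p) (f := f) hl hd (y := x) hlx
      have h2 : (QuotientAddGroup.mk (∑ j ∈ range l,
          ev (x + (j : ZMod M) * ((M / l : ℕ) : ZMod M)) + ev (-((l : ZMod M) * x)) +
          ∑ j ∈ range (l - 1), ev (((j + 1 : ℕ) : ZMod M) * ((M / l : ℕ) : ZMod M))) :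
          QA M p f) = 0 := by
        rw [mk_zero]
        exact (le_sup_left : Sub M p f ≤ _) h1
      rw [QuotientAddGroup.mk_add, QuotientAddGroup.mk_add, mk_sum, mk_sum] at h2
      have h3 : ∀ j ∈ range (l - 1), (QuotientAddGroup.mk
          (ev (((j + 1 : ℕ) : ZMod M) * ((M / l : ℕ) : ZMod M))) : QA M p f) =
          E M p f (((j + 1 : ℕ) : ZMod M) * ((M / l : ℕ) : ZMod M)) := by
        intro j hj
        rw [mem_range] at hj
        exact (E_of (quot_ne hl hd (by omega) (by omega))).symm
      rw [Finset.sum_congr rfl h3, hthird, add_zero, ← E_of (neg_ne_zero.mpr hlx), hneg,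
        ← sub_eq_add_neg, sub_eq_zero] at h2
      rw [← h2]
      refine Finset.sum_congr rfl fun j _ => ?_
      refine E_of fun h => hlx ?_
      have h4 := congrArg (fun z => (l : ZMod M) * z) h
      simp only [mul_add, mul_zero] at h4
      rw [mul_left_comm, mul_quot hd, mul_zero, add_zero] at h4
      exact h4

end Basics

/-- the distribution relation for all divisors -/
theorem IsD.distn {A : Type} [AddCommGroup A] {M p : ℕ} [NeZero M] {F : ZMod M → A}
    (h : IsD M p F) : ∀ n : ℕ, n ∣ M → ∀ x : ZMod M,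
      ∑ y ∈ univ.filter (fun y : ZMod M => (n : ZMod M) * y = 0), F (x + y) =
        F ((n : ZMod M) * x) := by
  intro n
  induction n using Nat.strong_induction_on with
  | _ n ih =>
    intro hn x
    rcases Nat.lt_or_ge 1 n with h1 | h1
    · obtain ⟨l, hl, n', rfl⟩ := Nat.exists_prime_and_dvd h1.ne'
      have hn'0 : 0 < n' := Nat.pos_of_ne_zero (by rintro rfl; omega)
      have hlM : l ∣ M := (Dvd.intro _ rfl).trans hn
      have hn'M : n' ∣ M := (Dvd.intro_left _ rfl).trans hn
      have hlt : n' < l * n' := by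
        have := hl.one_lt
        nlinarith
      have h2 := ih n' hlt hn'M
      rw [← Finset.sum_fiberwise_of_maps_to (t := univ.filter
        (fun w : ZMod M => (l : ZMod M) * w = 0)) (g := fun y => (n' : ZMod M) * y)]
      · have h3 : ∀ w ∈ univ.filter (fun w : ZMod M => (l : ZMod M) * w = 0),
            ∑ y ∈ (univ.filter (fun y : ZMod M => ((l * n' : ℕ) : ZMod M) * y = 0)).filter
              (fun y => (n' : ZMod M) * y = w), F (x + y) = F ((n' : ZMod M) * x + w) := by
          intro w hw
          rw [mem_filter] at hw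
          obtain ⟨j, hj, hjw⟩ := exists_mul hlM hl.ne_zero hw.2
          -- `w = n' y₀`
          obtain ⟨c, hc⟩ := hn
          have hq : M / l = n' * c := by
            rw [hc, mul_assoc, Nat.mul_div_cancel_left _ hl.pos]
          have hy₀ : (n' : ZMod M) * ((j : ZMod M) * (c : ZMod M)) = w := by
            rw [hjw, hq, Nat.cast_mul]
            ring
          have h4 := h2 (x + (j : ZMod M) * (c : ZMod M))
          rw [mul_add, hy₀] at h4
          rw [← h4]
          symm
          refine Finset.sum_bij (fun y _ => (j : ZMod M) * (c : ZMod M) + y) ?_ ?_ ?_ ?_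
          · intro y hy
            rw [mem_filter] at hy
            have h5 : (n' : ZMod M) * ((j : ZMod M) * (c : ZMod M) + y) = w := by
              rw [mul_add, hy₀, hy.2, add_zero]
            rw [mem_filter, mem_filter]
            refine ⟨⟨mem_univ _, ?_⟩, h5⟩
            rw [Nat.cast_mul, mul_assoc, h5]
            exact hw.2
          · intro a _ b _ hab
            exact add_left_cancel hab
          · intro y hy
            rw [mem_filter] at hy
            refine ⟨y - (j : ZMod M) * (c : ZMod M), ?_, by abel⟩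
            rw [mem_filter]
            exact ⟨mem_univ _, by rw [mul_sub, hy₀, hy.2, sub_self]⟩
          · intro y _
            rw [add_assoc]
        rw [Finset.sum_congr rfl h3, ← sum_ker (fun w => F w) hl hlM, h.dist l hl hlM,
          Nat.cast_mul, mul_assoc]
      · intro y hy
        rw [mem_filter] at hy ⊢
        refine ⟨mem_univ _, ?_⟩
        rw [← hy.2, Nat.cast_mul, mul_assoc]
    · have hn1 : n = 1 := by
        rcases Nat.eq_zero_or_pos n with h2 | h2
        · rw [h2, zero_dvd_iff] at hn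
          exact absurd hn (NeZero.ne M)
        · omega
      rw [hn1, Nat.cast_one, one_mul]
      have h2 : univ.filter (fun y : ZMod M => (1 : ZMod M) * y = 0) = {0} := by
        ext y
        rw [mem_filter, mem_singleton, one_mul]
        exact ⟨fun h => h.2, fun h => ⟨mem_univ _, h⟩⟩
      rw [h2, sum_singleton, add_zero]

end TP

end Pool.Agent.Lib.MP81632f.Diag
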