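import Pool.Agent.Lib.MP_81632f_ag.Diag.TPa

/-!
# Two primes: the components
-/

set_option autoImplicit false

noncomputable section

namespace Pool.Agent.Lib.MP81632f.Diag

open Finset

namespace TP

/-- odd distributions in two variables -/
structure IsD2 {A : Type} [AddCommGroup A] (L R p : ℕ) [NeZero L] [NeZero R]
    (F : ZMod L → ZMod R → A) : Prop where
  zero : F 0 0 = 0
  neg : ∀ y z, F (-y) (-z) = -F y z
  frob : ∀ y z, F ((p : ZMod L) * y) ((p : ZMod R) * z) = F y z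
  dL : ∀ n : ℕ, n ∣ L → ∀ y z, ∑ w ∈ univ.filter (fun w : ZMod L => (n : ZMod L) * w = 0),
    F (y + w) z = F ((n : ZMod L) * y) ((n : ZMod R) * z)
  dR : ∀ n : ℕ, n ∣ R → ∀ y z, ∑ w ∈ univ.filter (fun w : ZMod R => (n : ZMod R) * w = 0),
    F y (z + w) = F ((n : ZMod L) * y) ((n : ZMod R) * z)

theorem IsD2.swap {A : Type} [AddCommGroup A] {L R p : ℕ} [NeZero L] [NeZero R]
    {F : ZMod L → ZMod R → A} (h : IsD2 L R p F) : IsD2 R L p (fun z y => F y z) :=
  ⟨h.zero, fun z y => h.neg y z, fun z y => h.frob y z, fun n hn z y => h.dR n hn y z,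
    fun n hn z y => h.dL n hn y z⟩

theorem IsD.two {A : Type} [AddCommGroup A] {L R p : ℕ} [NeZero L] [NeZero R] [NeZero (L * R)]
    (hc : Nat.Coprime L R) {F : ZMod (L * R) → A} (h : IsD (L * R) p F) :
    IsD2 L R p (fun y z => F ((ZMod.chineseRemainder hc).symm (y, z))) := by
  have hmul : ∀ (n : ℕ) (y : ZMod L) (z : ZMod R), (ZMod.chineseRemainder hc).symm
      ((n : ZMod L) * y, (n : ZMod R) * z) =
      (n : ZMod (L * R)) * (ZMod.chineseRemainder hc).symm (y, z) := by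
    intro n y z
    have h1 : (((n : ZMod L) * y, (n : ZMod R) * z) : ZMod L × ZMod R) =
        ((n : ℕ) : ZMod L × ZMod R) * (y, z) := rfl
    rw [h1, map_mul, map_natCast]
  have hsym0 : ∀ (w : ZMod L), (ZMod.chineseRemainder hc).symm (w, 0) = 0 → w = 0 := by
    intro w hw
    have h1 : ((w, 0) : ZMod L × ZMod R) = 0 := by
      have := congrArg (ZMod.chineseRemainder hc) hw
      rwa [RingEquiv.apply_symm_apply, map_zero] at this
    exact congrArg Prod.fst h1
  refine ⟨?_, ?_, ?_, ?_, ?_⟩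
  · have h1 : ((0, 0) : ZMod L × ZMod R) = 0 := rfl
    change F ((ZMod.chineseRemainder hc).symm (0, 0)) = 0
    rw [h1, map_zero]
    exact h.zero
  · intro y z
    have h1 : ((-y, -z) : ZMod L × ZMod R) = -(y, z) := rfl
    change F ((ZMod.chineseRemainder hc).symm (-y, -z)) = _
    rw [h1, map_neg, h.neg]
  · intro y z
    change F ((ZMod.chineseRemainder hc).symm ((p : ZMod L) * y, (p : ZMod R) * z)) = _
    rw [hmul, h.frob]
  · intro n hn y z
    have hnR : Nat.Coprime n R := hc.coprime_dvd_left hn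
    have hnu : IsUnit ((n : ℕ) : ZMod R) := (ZMod.isUnit_iff_coprime n R).mpr hnR
    change ∑ w ∈ univ.filter (fun w : ZMod L => (n : ZMod L) * w = 0),
      F ((ZMod.chineseRemainder hc).symm (y + w, z)) =
      F ((ZMod.chineseRemainder hc).symm ((n : ZMod L) * y, (n : ZMod R) * z))
    rw [hmul, ← h.distn n (hn.mul_right R)]
    refine Finset.sum_bij (fun w _ => (ZMod.chineseRemainder hc).symm (w, 0)) ?_ ?_ ?_ ?_
    · intro w hw
      rw [mem_filter] at hw ⊢
      refine ⟨mem_univ _, ?_⟩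
      rw [← hmul, hw.2, mul_zero]
      exact map_zero (ZMod.chineseRemainder hc).symm
    · intro a _ b _ hab
      have h1 := (ZMod.chineseRemainder hc).symm.injective hab
      exact congrArg Prod.fst h1
    · intro x hx
      rw [mem_filter] at hx
      have h1 := congrArg (ZMod.chineseRemainder hc) hx.2
      rw [map_mul, map_natCast, map_zero] at h1
      have h2 : (n : ZMod L) * (ZMod.chineseRemainder hc x).1 = 0 := congrArg Prod.fst h1
      have h3 : (n : ZMod R) * (ZMod.chineseRemainder hc x).2 = 0 := congrArg Prod.snd h1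
      have h4 : (ZMod.chineseRemainder hc x).2 = 0 := (hnu.mul_right_eq_zero).mp h3
      refine ⟨(ZMod.chineseRemainder hc x).1, ?_, ?_⟩
      · rw [mem_filter]
        exact ⟨mem_univ _, h2⟩
      · rw [RingEquiv.symm_apply_eq]
        exact Prod.ext rfl h4.symm
    · intro w _
      rw [← map_add]
      have h1 : ((y, z) + (w, 0) : ZMod L × ZMod R) = (y + w, z) := by
        rw [Prod.mk_add_mk, add_zero]
      rw [h1]
  · intro n hn y z
    have hnL : Nat.Coprime n L := hc.symm.coprime_dvd_left hn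
    have hnu : IsUnit ((n : ℕ) : ZMod L) := (ZMod.isUnit_iff_coprime n L).mpr hnL
    change ∑ w ∈ univ.filter (fun w : ZMod R => (n : ZMod R) * w = 0),
      F ((ZMod.chineseRemainder hc).symm (y, z + w)) =
      F ((ZMod.chineseRemainder hc).symm ((n : ZMod L) * y, (n : ZMod R) * z))
    rw [hmul, ← h.distn n (hn.mul_left L)]
    refine Finset.sum_bij (fun w _ => (ZMod.chineseRemainder hc).symm (0, w)) ?_ ?_ ?_ ?_
    · intro w hw
      rw [mem_filter] at hw ⊢
      refine ⟨mem_univ _, ?_⟩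
      rw [← hmul, hw.2, mul_zero]
      exact map_zero (ZMod.chineseRemainder hc).symm
    · intro a _ b _ hab
      have h1 := (ZMod.chineseRemainder hc).symm.injective hab
      exact congrArg Prod.snd h1
    · intro x hx
      rw [mem_filter] at hx
      have h1 := congrArg (ZMod.chineseRemainder hc) hx.2
      rw [map_mul, map_natCast, map_zero] at h1
      have h2 : (n : ZMod L) * (ZMod.chineseRemainder hc x).1 = 0 := congrArg Prod.fst h1
      have h3 : (n : ZMod R) * (ZMod.chineseRemainder hc x).2 = 0 := congrArg Prod.snd h1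
      have h4 : (ZMod.chineseRemainder hc x).1 = 0 := (hnu.mul_right_eq_zero).mp h2
      refine ⟨(ZMod.chineseRemainder hc x).2, ?_, ?_⟩
      · rw [mem_filter]
        exact ⟨mem_univ _, h3⟩
      · rw [RingEquiv.symm_apply_eq]
        exact Prod.ext h4.symm rfl
    · intro w _
      rw [← map_add]
      have h1 : ((y, z) + (0, w) : ZMod L × ZMod R) = (y, z + w) := by
        rw [Prod.mk_add_mk, add_zero]
      rw [h1]

section PrimePower

variable {l k : ℕ}

theorem not_coprime_iff (hl : l.Prime) (n : ℕ) :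
    ¬ Nat.Coprime n (l ^ (k + 1)) ↔ l ^ (k + 1) ∣ l ^ k * n := by
  have h1 : l ^ (k + 1) ∣ l ^ k * n ↔ l ∣ n := by
    rw [pow_succ, Nat.mul_dvd_mul_iff_left (pow_pos hl.pos k)]
  rw [h1, Nat.coprime_comm, Nat.coprime_pow_left_iff (Nat.succ_pos k),
    Nat.Prime.coprime_iff_not_dvd hl, not_not]

/-- units modulo a prime power -/
theorem not_unit_iff (hl : l.Prime) [NeZero (l ^ (k + 1))] (w : ZMod (l ^ (k + 1))) :
    ¬ IsUnit w ↔ ((l ^ k : ℕ) : ZMod (l ^ (k + 1))) * w = 0 := by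
  have hw : w = ((w.val : ℕ) : ZMod (l ^ (k + 1))) := (ZMod.natCast_zmod_val w).symm
  rw [hw, ZMod.isUnit_iff_coprime, ← Nat.cast_mul, ZMod.natCast_eq_zero_iff]
  exact not_coprime_iff hl _

theorem exists_unit_mul (hl : l.Prime) [NeZero (l ^ (k + 1))] {y : ZMod (l ^ (k + 1))}
    (hy : y ≠ 0) : ∃ i ≤ k, ∃ y₀ : (ZMod (l ^ (k + 1)))ˣ,
      y = ((l ^ i : ℕ) : ZMod (l ^ (k + 1))) * y₀ := by
  have hv : y.val ≠ 0 := fun h => hy ((ZMod.val_eq_zero y).mp h)
  obtain ⟨i, m, hm, him⟩ := Nat.exists_eq_pow_mul_and_not_dvd hv l hl.ne_one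
  have hm0 : 0 < m := Nat.pos_of_ne_zero (by rintro rfl; exact hm (dvd_zero l))
  have hc : Nat.Coprime m (l ^ (k + 1)) :=
    Nat.Coprime.pow_right _ ((Nat.Prime.coprime_iff_not_dvd hl).mpr hm).symm
  refine ⟨i, ?_, ZMod.unitOfCoprime m hc, ?_⟩
  · by_contra hik
    have h1 : l ^ (k + 1) ≤ l ^ i := Nat.pow_le_pow_right hl.pos (by omega)
    have h2 : y.val < l ^ (k + 1) := ZMod.val_lt y
    have h3 : l ^ i * 1 ≤ l ^ i * m := Nat.mul_le_mul_left _ hm0
    omega
  · rw [ZMod.coe_unitOfCoprime, ← Nat.cast_mul, ← him, ZMod.natCast_zmod_val]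

theorem unit_add (hl : l.Prime) [NeZero (l ^ (k + 1))] (y₀ : (ZMod (l ^ (k + 1)))ˣ) {i : ℕ}
    (hi : i ≤ k) {w : ZMod (l ^ (k + 1))} (hw : ((l ^ i : ℕ) : ZMod (l ^ (k + 1))) * w = 0) :
    IsUnit ((y₀ : ZMod (l ^ (k + 1))) + w) := by
  by_contra h
  rw [not_unit_iff hl] at h
  have h1 : ((l ^ k : ℕ) : ZMod (l ^ (k + 1))) * w = 0 := by
    have h2 : l ^ k = l ^ (k - i) * l ^ i := by
      rw [← pow_add, Nat.sub_add_cancel hi]
    have h3 : ((l ^ k : ℕ) : ZMod (l ^ (k + 1))) =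
        ((l ^ (k - i) : ℕ) : ZMod (l ^ (k + 1))) * ((l ^ i : ℕ) : ZMod (l ^ (k + 1))) := by
      rw [← Nat.cast_mul, ← h2]
    rw [h3, mul_assoc, hw, mul_zero]
  rw [mul_add, h1, add_zero] at h
  exact (not_unit_iff hl _).mpr h y₀.isUnit

variable {A : Type} [AddCommGroup A] {R p : ℕ} [NeZero R] [NeZero (l ^ (k + 1))]
  {F : ZMod (l ^ (k + 1)) → ZMod R → A}

theorem sum_units (G : ZMod (l ^ (k + 1)) → A) :
    ∑ w : (ZMod (l ^ (k + 1)))ˣ, G w = ∑ w ∈ univ.filter (fun w => IsUnit w), G w := by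
  refine Finset.sum_bij (fun w _ => (w : ZMod (l ^ (k + 1)))) ?_ ?_ ?_ ?_
  · intro w _
    rw [mem_filter]
    exact ⟨mem_univ _, w.isUnit⟩
  · intro a _ b _ hab
    exact Units.ext hab
  · intro w hw
    rw [mem_filter] at hw
    exact ⟨hw.2.unit, mem_univ _, hw.2.unit_spec⟩
  · intro w _
    rfl

/-- the sum over the units -/
theorem unit_sum (hl : l.Prime) (h : IsD2 (l ^ (k + 1)) R p F) (z : ZMod R) :
    ∑ w : (ZMod (l ^ (k + 1)))ˣ, F w z =
      F 0 (((l ^ (k + 1) : ℕ) : ZMod R) * z) - F 0 (((l ^ k : ℕ) : ZMod R) * z) := by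
  have h1 := h.dL (l ^ (k + 1)) dvd_rfl 0 z
  have h2 := h.dL (l ^ k) (pow_dvd_pow l (Nat.le_succ k)) 0 z
  rw [mul_zero] at h1 h2
  have h3 : ∀ w : ZMod (l ^ (k + 1)), F (0 + w) z = F w z := fun w => by rw [zero_add]
  rw [Finset.sum_congr rfl fun w _ => h3 w] at h1 h2
  rw [← h1, ← h2, sum_units (fun w => F w z)]
  have h4 : univ.filter (fun w : ZMod (l ^ (k + 1)) =>
      ((l ^ (k + 1) : ℕ) : ZMod (l ^ (k + 1))) * w = 0) = univ := by
    refine Finset.filter_true_of_mem fun w _ => ?_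
    rw [ZMod.natCast_self, zero_mul]
  have h5 : univ.filter (fun w : ZMod (l ^ (k + 1)) =>
      ((l ^ k : ℕ) : ZMod (l ^ (k + 1))) * w = 0) = univ.filter (fun w => ¬ IsUnit w) :=
    Finset.filter_congr fun w _ => (not_unit_iff hl w).symm
  rw [h4, h5, ← Finset.sum_filter_add_sum_filter_not univ (fun w => IsUnit w)]
  abel

/-- generation by units in the first component -/
theorem gen_left (hl : l.Prime) (h : IsD2 (l ^ (k + 1)) R p F) (Z : Set (ZMod R))
    (hZ : ∀ z ∈ Z, ∀ i : ℕ, ∃ z₀ ∈ Z, ((l ^ i : ℕ) : ZMod R) * z₀ = z) (S : AddSubgroup A)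
    (hS : ∀ (y : (ZMod (l ^ (k + 1)))ˣ), ∀ z ∈ Z, F y z ∈ S) {y : ZMod (l ^ (k + 1))} (hy : y ≠ 0)
    {z : ZMod R} (hz : z ∈ Z) : F y z ∈ S := by
  obtain ⟨i, hi, y₀, rfl⟩ := exists_unit_mul hl hy
  obtain ⟨z₀, hz₀, rfl⟩ := hZ z hz i
  rw [← h.dL (l ^ i) (pow_dvd_pow l (by omega)) (y₀ : ZMod (l ^ (k + 1))) z₀]
  refine AddSubgroup.sum_mem _ fun w hw => ?_
  rw [mem_filter] at hw
  obtain ⟨v, hv⟩ := unit_add hl y₀ hi hw.2
  rw [← hv]
  exact hS v z₀ hz₀

end PrimePower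

end TP

end Pool.Agent.Lib.MP81632f.Diag
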