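import Pool.Agent.Lib.MP_81632f_ag.Diag.TPb

/-!
# Criteria for the lattice property by numbers of generators
-/

set_option autoImplicit false

noncomputable section

namespace Pool.Agent.Lib.MP81632f.Diag

open Finset

namespace TP

open Crit Two New
open Red (ev)

variable {M : ℕ} [NeZero M] {p f : ℕ}

/-- integral combinations -/
theorem mem_range_closure {A ι : Type} [AddCommGroup A] [Fintype ι] (b : ι → A) {x : A}
    (hx : x ∈ AddSubgroup.closure (Set.range b)) : ∃ a : ι → ℤ, x = ∑ i, a i • b i := by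
  classical
  induction hx using AddSubgroup.closure_induction with
  | mem x hx =>
    obtain ⟨i, rfl⟩ := hx
    refine ⟨Pi.single i 1, ?_⟩
    rw [Finset.sum_eq_single i]
    · rw [Pi.single_eq_same, one_smul]
    · intro j _ hj
      rw [Pi.single_eq_of_ne hj, zero_smul]
    · intro h
      exact absurd (Finset.mem_univ _) h
  | zero => exact ⟨0, by simp⟩
  | add x y _ _ hx hy =>
    obtain ⟨a, rfl⟩ := hx
    obtain ⟨c, rfl⟩ := hy
    exact ⟨a + c, by simp [add_smul, Finset.sum_add_distrib]⟩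
  | neg x _ hx =>
    obtain ⟨a, rfl⟩ := hx
    exact ⟨-a, by simp [neg_smul, Finset.sum_neg_distrib]⟩

theorem pair_ws (hB : StBasic) (hM : 1 < M) (hf : 0 < f) (hp : (p : ZMod M) ^ f = 1)
    (t : (ZMod M)ˣ) {v : ZMod M → ℤ} (hv : v ∈ WS M p f) : pair M p f t v = 0 := by
  obtain ⟨y, hy, z, hz, rfl⟩ := AddSubgroup.mem_sup.mp hv
  rw [map_add, pair_sub hB hM hf hp t hy, pair_ss t hz, add_zero]

/-- the pairing is defined on classes -/
theorem pair_mk (hB : StBasic) (hM : 1 < M) (hf : 0 < f) (hp : (p : ZMod M) ^ f = 1)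
    (t : (ZMod M)ˣ) {v w : ZMod M → ℤ}
    (h : (QuotientAddGroup.mk v : QA M p f) = QuotientAddGroup.mk w) :
    pair M p f t v = pair M p f t w := by
  rw [← sub_eq_zero, ← map_sub]
  refine pair_ws hB hM hf hp t ?_
  rw [← mk_zero, QuotientAddGroup.mk_sub, h, sub_self]

/-- even elements of `WS` are in `Sub` -/
theorem ws_even (hB : StBasic) (hM : 1 < M) (hf : 0 < f) (hp : (p : ZMod M) ^ f = 1)
    {v : ZMod M → ℤ} (hv : v ∈ WS M p f) (he : Even (tot M v)) : v ∈ Sub M p f := by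
  obtain ⟨y, hy, z, hz, rfl⟩ := AddSubgroup.mem_sup.mp hv
  refine add_mem hy (ss_even hB hM hf hp hz ?_)
  rw [map_add, Int.even_add] at he
  exact he.mp (tot_sub hB hM hf hp hy)

/-- a criterion: few generators -/
theorem crit_gen (hB : StBasic) (hR : StRank) (hM : 1 < M) (hf : 0 < f)
    (hp : (p : ZMod M) ^ f = 1) (u : (ZMod M)ˣ) (hu : (u : ZMod M) = p)
    (hneg : (-1 : (ZMod M)ˣ) ∉ Subgroup.zpowers u) {ι : Type} [Fintype ι] (b : ι → ZMod M → ℤ)
    (hcard : 2 * Fintype.card ι * orderOf u ≤ M.totient)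
    (hW : ∀ x : ZMod M, E M p f x ∈ AddSubgroup.closure
      (Set.range fun i => (QuotientAddGroup.mk (b i) : QA M p f))) : LP M p f := by
  classical
  have hall : ∀ v : ZMod M → ℤ, v 0 = 0 → ∃ a : ι → ℤ,
      (QuotientAddGroup.mk v : QA M p f) = QuotientAddGroup.mk (∑ i, a i • b i) := by
    intro v hv
    have h1 : (QuotientAddGroup.mk v : QA M p f) ∈ AddSubgroup.closure
        (Set.range fun i => (QuotientAddGroup.mk (b i) : QA M p f)) := by
      rw [mk_fun hv]
      exact AddSubgroup.sum_mem _ fun x _ => AddSubgroup.zsmul_mem _ (hW x) _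
    obtain ⟨a, ha⟩ := mem_range_closure _ h1
    exact ⟨a, by rw [ha, mk_sum]; rfl⟩
  have hpair : ∀ (t : (ZMod M)ˣ) (a : ι → ℤ), pair M p f t (∑ i, a i • b i) =
      ∑ i, a i * pair M p f t (b i) := by
    intro t a
    rw [map_sum]
    exact Finset.sum_congr rfl fun i _ => by rw [map_zsmul, smul_eq_mul]
  have huf : u ^ f = 1 := by
    apply Units.ext
    rw [Units.val_pow_eq_pow_val, hu, hp, Units.val_one]
  let r := Fintype.card ι
  let e : Fin r ≃ ι := (Fintype.equivFin _).symm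
  have h := hR M p f hM hf u hu huf hneg r (fun i t => pair M p f t (b (e i))) hcard (by
    intro x hx
    obtain ⟨a, ha⟩ := hall (ev x) (Pi.single_eq_of_ne hx.symm _)
    refine ⟨fun i => a (e i), fun t => ?_⟩
    have h1 := pair_mk hB hM hf hp t ha
    rw [pair_ev, hpair] at h1
    rw [h1]
    exact (Equiv.sum_comp e (fun i => a i * pair M p f t (b i))).symm)
  intro X h0 hbal he
  obtain ⟨a, ha⟩ := hall (cnt X) (Basic.cnt_apply_zero h0)
  have ha0 : ∀ t : (ZMod M)ˣ, ∑ i, a i * pair M p f t (b i) = 0 := by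
    intro t
    have h1 := pair_mk hB hM hf hp t ha
    rw [hpair] at h1
    rw [← h1]
    change ∑ x, cnt X x * saw M p f t x = 0
    rw [Basic.sum_cnt_mul]
    exact hbal t
  have h1 := h (fun i => a (e i)) (by
    intro t
    rw [← ha0 t]
    exact Equiv.sum_comp e (fun i => a i * pair M p f t (b i)))
  have h2 : ∀ i, a i = 0 := by
    intro i
    have h3 := congrFun h1 (e.symm i)
    simpa using h3
  have h3 : (QuotientAddGroup.mk (cnt X) : QA M p f) = 0 := by
    rw [ha, mk_sum]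
    refine Finset.sum_eq_zero fun i _ => ?_
    rw [h2 i, zero_smul]
    rfl
  rw [mk_zero] at h3
  refine ws_even hB hM hf hp h3 ?_
  change Even (∑ x, cnt X x)
  rw [Basic.sum_cnt]
  exact_mod_cast he

/-- multiplication by an element of `KK` is a sign -/
theorem kk_sign2 {A : Type} [AddCommGroup A] {F : ZMod M → A} (hF : IsD M p F)
    (u : (ZMod M)ˣ) (hu : (u : ZMod M) = p) {k : (ZMod M)ˣ} (hk : k ∈ KK u) :
    ∃ e : ℤ, e * e = 1 ∧ (∀ c g, DD u c (k * g) = e * DD u c g) ∧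
      ∀ x, F ((k : ZMod M) * x) = e • F x := by
  induction hk using Subgroup.closure_induction with
  | mem k hk =>
    rcases hk with rfl | hk
    · refine ⟨1, by norm_num, fun c g => ?_, fun x => ?_⟩
      · rw [dd_u, one_mul]
      · rw [hu, hF.frob, one_smul]
    · rw [Set.mem_singleton_iff] at hk
      subst hk
      refine ⟨-1, by norm_num, fun c g => ?_, fun x => ?_⟩
      · rw [dd_neg]; ring
      · rw [Units.val_neg, Units.val_one, neg_one_mul, hF.neg, neg_one_zsmul]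
  | one => exact ⟨1, by norm_num, fun c g => by rw [one_mul, one_mul], fun x => by
      rw [Units.val_one, one_mul, one_smul]⟩
  | mul k l _ _ hk hl =>
    obtain ⟨e, he, h1, h2⟩ := hk
    obtain ⟨e', he', h1', h2'⟩ := hl
    refine ⟨e * e', ?_, fun c g => ?_, fun x => ?_⟩
    · linear_combination e' * e' * he + he'
    · rw [mul_assoc, h1, h1']; ring
    · rw [Units.val_mul, mul_assoc, h2, h2', smul_smul]
  | inv k _ hk =>
    obtain ⟨e, he, h1, h2⟩ := hk
    refine ⟨e, he, fun c g => ?_, fun x => ?_⟩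
    · have h3 := h1 c (k⁻¹ * g)
      rw [mul_inv_cancel_left] at h3
      rw [h3, ← mul_assoc, he, one_mul]
    · have h3 := h2 (((k⁻¹ : (ZMod M)ˣ) : ZMod M) * x)
      rw [Units.mul_inv_cancel_left] at h3
      rw [h3, smul_smul, he, one_smul]

open Classical in
/-- the representatives, as weights -/
def xr (u : (ZMod M)ˣ) (g : (ZMod M)ˣ) : ℤ := if rp u (QuotientGroup.mk g) = g then 1 else 0

theorem xr_sum (u : (ZMod M)ˣ) (hneg : (-1 : (ZMod M)ˣ) ∉ Subgroup.zpowers u) (g : (ZMod M)ˣ) :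
    ∑ h ∈ ZZ u, (xr u (h⁻¹ * g) + xr u (-(h⁻¹ * g))) = 1 := by
  have h1 := xx_sum (dvd_refl M) u (by rw [ZMod.unitsMap_self]; exact hneg) g
  have h2 : ∀ g : (ZMod M)ˣ, xx (dvd_refl M) (ZMod.unitsMap (dvd_refl M) u) g = xr u g := by
    intro g
    unfold xx xr
    rw [ZMod.unitsMap_self]
    rfl
  have h3 : kk (dvd_refl M) u = 1 := by
    unfold kk
    rw [ZMod.unitsMap_self]
    have h4 : (ZZ u).filter (fun h => (MonoidHom.id (ZMod M)ˣ) h = 1) = {1} := by
      ext h
      rw [mem_filter, mem_singleton, mem_zz]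
      constructor
      · exact fun h5 => h5.2
      · rintro rfl
        exact ⟨one_mem _, rfl⟩
    rw [h4, card_singleton]
  rw [h3] at h1
  simp only [h2] at h1
  exact_mod_cast h1

/-- the sum over the representatives -/
theorem sum_xr {A : Type} [AddCommGroup A] (u : (ZMod M)ˣ) (G : (ZMod M)ˣ → A) :
    ∑ g, xr u g • G g = ∑ i, G (rp u i) := by
  classical
  have h1 : ∑ g, xr u g • G g = ∑ g ∈ univ.filter (fun g : (ZMod M)ˣ =>
      rp u (QuotientGroup.mk g) = g), G g := by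
    rw [Finset.sum_filter]
    refine Finset.sum_congr rfl fun g _ => ?_
    unfold xr
    split_ifs
    · rw [one_smul]
    · rw [zero_smul]
  rw [h1]
  symm
  refine Finset.sum_bij (fun i _ => rp u i) ?_ ?_ ?_ ?_
  · intro i _
    rw [mem_filter]
    refine ⟨mem_univ _, ?_⟩
    have h2 : (QuotientGroup.mk (rp u i) : (ZMod M)ˣ ⧸ KK u) = i := Quotient.out_eq i
    rw [h2]
  · intro i _ j _ hij
    have h2 : (QuotientGroup.mk (rp u i) : (ZMod M)ˣ ⧸ KK u) = i := Quotient.out_eq i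
    have h3 : (QuotientGroup.mk (rp u j) : (ZMod M)ˣ ⧸ KK u) = j := Quotient.out_eq j
    rw [← h2, ← h3]
    exact congrArg _ hij
  · intro g hg
    rw [mem_filter] at hg
    exact ⟨QuotientGroup.mk g, mem_univ _, hg.2⟩
  · intro i _
    rfl

/-- a combination of the units in terms of the class sums -/
theorem phi_rep (hB : StBasic) (hM : 1 < M) (hf : 0 < f) (hp : (p : ZMod M) ^ f = 1)
    (u : (ZMod M)ˣ) (hu : (u : ZMod M) = p) (hneg : (-1 : (ZMod M)ˣ) ∉ Subgroup.zpowers u)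
    (c : (ZMod M)ˣ → ℤ) :
    ∑ g, c g • E M p f (g : ZMod M) = ∑ g, (xr u g * DD u c g) • E M p f (g : ZMod M) := by
  have h1 := weights hB hM hf hp u hu c (xr u) 1 (fun g => xr_sum u hneg g)
  have h2 : (QuotientAddGroup.mk (∑ g : (ZMod M)ˣ, (xr u g * DD u c g) • ev (g : ZMod M) -
      (1 : ℤ) • Phi c) : QA M p f) = 0 := by
    rw [mk_zero]
    exact (le_sup_left : Sub M p f ≤ _) h1
  rw [one_smul, QuotientAddGroup.mk_sub, sub_eq_zero] at h2
  have h3 : ∀ c' : (ZMod M)ˣ → ℤ, (QuotientAddGroup.mk (∑ g : (ZMod M)ˣ, c' g •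
      ev (g : ZMod M)) : QA M p f) = ∑ g, c' g • E M p f (g : ZMod M) := by
    intro c'
    rw [mk_sum]
    refine Finset.sum_congr rfl fun g _ => ?_
    rw [E_of (unit_ne hM g)]
    rfl
  rw [← h3, ← h3, h2]
  rfl

/-- the group generated by the units -/
def TT {A : Type} [AddCommGroup A] (M : ℕ) (F : ZMod M → A) : AddSubgroup A :=
  AddSubgroup.closure (Set.range fun g : (ZMod M)ˣ => F g)

omit [NeZero M] in
theorem tt_mem {A : Type} [AddCommGroup A] (F : ZMod M → A) (g : (ZMod M)ˣ) : F g ∈ TT M F :=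
  AddSubgroup.subset_closure ⟨g, rfl⟩

/-- the second criterion: the units and one more generator, and a relation -/
theorem crit2 (hB : StBasic) (hR : StRank) (hM : 1 < M) (hf : 0 < f)
    (hp : (p : ZMod M) ^ f = 1) (u : (ZMod M)ˣ) (hu : (u : ZMod M) = p)
    (hneg : (-1 : (ZMod M)ˣ) ∉ Subgroup.zpowers u) (a₁ : QA M p f)
    (hW : ∀ x : ZMod M, E M p f x ∈ TT M (E M p f) ⊔ AddSubgroup.zmultiples a₁)
    (c : (ZMod M)ˣ → ℤ) (hc : ∑ g, c g • E M p f (g : ZMod M) ∈ AddSubgroup.zmultiples a₁)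
    (g₀ : (ZMod M)ˣ) (hg₀ : DD u c g₀ = 1) : LP M p f := by
  classical
  obtain ⟨w₁, hw₁⟩ := QuotientAddGroup.mk_surjective a₁
  set i₀ : (ZMod M)ˣ ⧸ KK u := QuotientGroup.mk g₀ with hi₀
  let b : ((ZMod M)ˣ ⧸ KK u) → ZMod M → ℤ := fun i =>
    if i = i₀ then w₁ else ev ((rp u i : (ZMod M)ˣ) : ZMod M)
  have hF := E_isD hB hM hf hp
  have hb0 : (QuotientAddGroup.mk (b i₀) : QA M p f) = a₁ := by
    change (QuotientAddGroup.mk (if i₀ = i₀ then w₁ else _) : QA M p f) = a₁
    rw [if_pos rfl, hw₁]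
  have hbi : ∀ i, i ≠ i₀ → (QuotientAddGroup.mk (b i) : QA M p f) =
      E M p f ((rp u i : (ZMod M)ˣ) : ZMod M) := by
    intro i hi
    change (QuotientAddGroup.mk (if i = i₀ then w₁ else _) : QA M p f) = _
    rw [if_neg hi, E_of (unit_ne hM _)]
  set C : AddSubgroup (QA M p f) := AddSubgroup.closure
    (Set.range fun i => (QuotientAddGroup.mk (b i) : QA M p f)) with hC
  have hbC : ∀ i, (QuotientAddGroup.mk (b i) : QA M p f) ∈ C := fun i =>
    AddSubgroup.subset_closure ⟨i, rfl⟩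
  have ha₁ : a₁ ∈ C := by rw [← hb0]; exact hbC i₀
  have hrep : ∀ g : (ZMod M)ˣ, ∃ k ∈ KK u, g = k * rp u (QuotientGroup.mk g) := by
    intro g
    obtain ⟨k, hk⟩ := QuotientGroup.mk_out_eq_mul (KK u) g
    refine ⟨(k : (ZMod M)ˣ)⁻¹, (KK u).inv_mem k.2, ?_⟩
    have h2 : rp u (QuotientGroup.mk g) = g * (k : (ZMod M)ˣ) := hk
    rw [h2, mul_comm g, inv_mul_cancel_left]
  have hE0 : E M p f ((rp u i₀ : (ZMod M)ˣ) : ZMod M) ∈ C := by
    obtain ⟨k, hk, hgk⟩ := hrep g₀
    obtain ⟨e, he, h1, -⟩ := kk_sign2 hF u hu hk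
    have h2 := h1 c (rp u (QuotientGroup.mk g₀))
    rw [← hgk, hg₀] at h2
    have h3 : DD u c (rp u i₀) = e := by
      have h4 : e * (e * DD u c (rp u i₀)) = e * 1 := by rw [h2]
      rw [← mul_assoc, he, one_mul, mul_one] at h4
      exact h4
    have h4 : ∑ i, DD u c (rp u i) • E M p f ((rp u i : (ZMod M)ˣ) : ZMod M) ∈ C := by
      have h5 := phi_rep hB hM hf hp u hu hneg c
      have h6 : ∀ g : (ZMod M)ˣ, (xr u g * DD u c g) • E M p f (g : ZMod M) =
          xr u g • (DD u c g • E M p f (g : ZMod M)) := fun g => mul_smul _ _ _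
      rw [Finset.sum_congr rfl fun g _ => h6 g, sum_xr] at h5
      rw [← h5]
      exact (AddSubgroup.zmultiples_le_of_mem ha₁) hc
    rw [← Finset.add_sum_erase univ _ (mem_univ i₀)] at h4
    have h5 : ∑ i ∈ univ.erase i₀, DD u c (rp u i) •
        E M p f ((rp u i : (ZMod M)ˣ) : ZMod M) ∈ C := by
      refine AddSubgroup.sum_mem _ fun i hi => AddSubgroup.zsmul_mem _ ?_ _
      rw [← hbi i (Finset.ne_of_mem_erase hi)]
      exact hbC i
    have h6 := sub_mem h4 h5
    rw [add_sub_cancel_right, h3] at h6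
    have h7 := AddSubgroup.zsmul_mem _ h6 e
    rwa [smul_smul, he, one_smul] at h7
  have hT : TT M (E M p f) ≤ C := by
    unfold TT
    rw [AddSubgroup.closure_le]
    rintro _ ⟨g, rfl⟩
    obtain ⟨k, hk, hgk⟩ := hrep g
    obtain ⟨e, -, -, h2⟩ := kk_sign2 hF u hu hk
    change E M p f (g : ZMod M) ∈ C
    rw [hgk, Units.val_mul, h2]
    refine AddSubgroup.zsmul_mem _ ?_ _
    by_cases hi : (QuotientGroup.mk g : (ZMod M)ˣ ⧸ KK u) = i₀
    · rw [hi]; exact hE0
    · rw [← hbi _ hi]; exact hbC _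
  refine crit_gen hB hR hM hf hp u hu hneg b ?_ fun x => ?_
  · have h1 := kk_card u hneg
    rwa [Nat.card_eq_fintype_card] at h1
  · exact (sup_le hT (AddSubgroup.zmultiples_le_of_mem ha₁)) (hW x)

/-- the units alone -/
theorem crit1 (hB : StBasic) (hR : StRank) (hM : 1 < M) (hf : 0 < f)
    (hp : (p : ZMod M) ^ f = 1) (u : (ZMod M)ˣ) (hu : (u : ZMod M) = p)
    (hneg : (-1 : (ZMod M)ˣ) ∉ Subgroup.zpowers u)
    (hW : ∀ x : ZMod M, E M p f x ∈ TT M (E M p f)) : LP M p f := by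
  classical
  have hF := E_isD hB hM hf hp
  refine crit_gen hB hR hM hf hp u hu hneg
    (fun i : (ZMod M)ˣ ⧸ KK u => ev ((rp u i : (ZMod M)ˣ) : ZMod M)) ?_ fun x => ?_
  · have h1 := kk_card u hneg
    rwa [Nat.card_eq_fintype_card] at h1
  · refine (?_ : TT M (E M p f) ≤ _) (hW x)
    unfold TT
    rw [AddSubgroup.closure_le]
    rintro _ ⟨g, rfl⟩
    obtain ⟨k, hk⟩ := QuotientGroup.mk_out_eq_mul (KK u) g
    have hgk : g = (k : (ZMod M)ˣ)⁻¹ * rp u (QuotientGroup.mk g) := by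
      have h2 : rp u (QuotientGroup.mk g) = g * (k : (ZMod M)ˣ) := hk
      rw [h2, mul_comm g, inv_mul_cancel_left]
    obtain ⟨e, -, -, h2⟩ := kk_sign2 hF u hu ((KK u).inv_mem k.2)
    change E M p f (g : ZMod M) ∈ _
    rw [hgk, Units.val_mul, h2]
    refine AddSubgroup.zsmul_mem _ ?_ _
    rw [E_of (unit_ne hM _)]
    exact AddSubgroup.subset_closure ⟨QuotientGroup.mk g, rfl⟩

end TP

end Pool.Agent.Lib.MP81632f.Diag
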