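import Pool.Agent.Lib.MP_81632f_ag.Diag.TPc

/-!
# Two primes: generators
-/

set_option autoImplicit false

noncomputable section

namespace Pool.Agent.Lib.MP81632f.Diag

open Finset

namespace TP

open Crit Two New

section General

variable {L R : ℕ} [NeZero L] [NeZero R] [NeZero (L * R)]

/-- the units of `ℤ / L R` -/
def cu (hc : Nat.Coprime L R) : (ZMod (L * R))ˣ ≃* (ZMod L)ˣ × (ZMod R)ˣ :=
  (Units.mapEquiv (ZMod.chineseRemainder hc).toMulEquiv).trans MulEquiv.prodUnits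

omit [NeZero L] [NeZero R] [NeZero (L * R)] in
theorem cu_symm_val (hc : Nat.Coprime L R) (y : (ZMod L)ˣ) (z : (ZMod R)ˣ) :
    (((cu hc).symm (y, z) : (ZMod (L * R))ˣ) : ZMod (L * R)) =
      (ZMod.chineseRemainder hc).symm ((y : ZMod L), (z : ZMod R)) := rfl

omit [NeZero L] [NeZero R] [NeZero (L * R)] in
theorem crt_fst (hc : Nat.Coprime L R) (x : ZMod (L * R)) :
    (ZMod.chineseRemainder hc x).1 = ZMod.castHom (dvd_mul_right L R) (ZMod L) x := by
  have h : (RingHom.fst (ZMod L) (ZMod R)).comp (ZMod.chineseRemainder hc).toRingHom =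
      ZMod.castHom (dvd_mul_right L R) (ZMod L) := Subsingleton.elim _ _
  exact DFunLike.congr_fun h x

omit [NeZero L] [NeZero R] [NeZero (L * R)] in
theorem crt_snd (hc : Nat.Coprime L R) (x : ZMod (L * R)) :
    (ZMod.chineseRemainder hc x).2 = ZMod.castHom (dvd_mul_left R L) (ZMod R) x := by
  have h : (RingHom.snd (ZMod L) (ZMod R)).comp (ZMod.chineseRemainder hc).toRingHom =
      ZMod.castHom (dvd_mul_left R L) (ZMod R) := Subsingleton.elim _ _
  exact DFunLike.congr_fun h x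

omit [NeZero L] [NeZero R] [NeZero (L * R)] in
theorem cu_fst (hc : Nat.Coprime L R) (g : (ZMod (L * R))ˣ) :
    (cu hc g).1 = ZMod.unitsMap (dvd_mul_right L R) g := by
  apply Units.ext
  exact crt_fst hc (g : ZMod (L * R))

omit [NeZero L] [NeZero R] [NeZero (L * R)] in
theorem cu_snd (hc : Nat.Coprime L R) (g : (ZMod (L * R))ˣ) :
    (cu hc g).2 = ZMod.unitsMap (dvd_mul_left R L) g := by
  apply Units.ext
  exact crt_snd hc (g : ZMod (L * R))

omit [NeZero L] [NeZero R] [NeZero (L * R)] in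
theorem map_cu_symm (hc : Nat.Coprime L R) (y : (ZMod L)ˣ) (z : (ZMod R)ˣ) :
    ZMod.unitsMap (dvd_mul_right L R) ((cu hc).symm (y, z)) = y := by
  rw [← cu_fst hc, MulEquiv.apply_symm_apply]

/-- sums over the units -/
theorem sum_cu {A : Type} [AddCommGroup A] (hc : Nat.Coprime L R) (F : ZMod (L * R) → A)
    (c : (ZMod L)ˣ → ℤ) :
    ∑ g : (ZMod (L * R))ˣ, c (ZMod.unitsMap (dvd_mul_right L R) g) • F (g : ZMod (L * R)) =
      ∑ y : (ZMod L)ˣ, c y • ∑ z : (ZMod R)ˣ,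
        F ((ZMod.chineseRemainder hc).symm ((y : ZMod L), (z : ZMod R))) := by
  rw [← Equiv.sum_comp (cu hc).symm.toEquiv
    (fun g : (ZMod (L * R))ˣ => c (ZMod.unitsMap (dvd_mul_right L R) g) • F (g : ZMod (L * R))),
    Fintype.sum_prod_type]
  refine Finset.sum_congr rfl fun y _ => ?_
  rw [Finset.smul_sum]
  refine Finset.sum_congr rfl fun z _ => ?_
  change c (ZMod.unitsMap (dvd_mul_right L R) ((cu hc).symm (y, z))) •
    F (((cu hc).symm (y, z) : (ZMod (L * R))ˣ) : ZMod (L * R)) = _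
  rw [map_cu_symm, cu_symm_val]

end General

/-- inverse of `l ^ i` modulo `R` -/
theorem exists_pow_mul {l R : ℕ} [NeZero R] (h : Nat.Coprime l R) (i : ℕ) (z : ZMod R) :
    ∃ z₀ : ZMod R, ((l ^ i : ℕ) : ZMod R) * z₀ = z := by
  have h1 : IsUnit ((l ^ i : ℕ) : ZMod R) :=
    (ZMod.isUnit_iff_coprime _ _).mpr (Nat.Coprime.pow_left i h)
  obtain ⟨v, hv⟩ := h1
  exact ⟨((v⁻¹ : (ZMod R)ˣ) : ZMod R) * z, by rw [← hv, Units.mul_inv_cancel_left]⟩

section Pair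

variable {l r k k' : ℕ}

theorem cop_l (hc : Nat.Coprime (l ^ (k + 1)) (r ^ (k' + 1))) :
    Nat.Coprime l (r ^ (k' + 1)) :=
  Nat.Coprime.coprime_dvd_left (dvd_pow_self l (Nat.succ_ne_zero k)) hc

theorem cop_r (hc : Nat.Coprime (l ^ (k + 1)) (r ^ (k' + 1))) :
    Nat.Coprime r (l ^ (k + 1)) :=
  Nat.Coprime.coprime_dvd_left (dvd_pow_self r (Nat.succ_ne_zero k')) hc.symm

/-- `r` as a unit modulo `l ^ (k + 1)` -/
def rho (hc : Nat.Coprime (l ^ (k + 1)) (r ^ (k' + 1))) : (ZMod (l ^ (k + 1)))ˣ :=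
  ZMod.unitOfCoprime r (cop_r hc)

variable [NeZero (l ^ (k + 1))] [NeZero (r ^ (k' + 1))] {A : Type} [AddCommGroup A] {p : ℕ}
  {G : ZMod (l ^ (k + 1)) → ZMod (r ^ (k' + 1)) → A}

/-- the sum over the units modulo `r ^ (k' + 1)` -/
theorem sum_right (hr : r.Prime) (hc : Nat.Coprime (l ^ (k + 1)) (r ^ (k' + 1)))
    (hG : IsD2 (l ^ (k + 1)) (r ^ (k' + 1)) p G) (y : (ZMod (l ^ (k + 1)))ˣ) :
    ∑ z : (ZMod (r ^ (k' + 1)))ˣ, G y z =
      G ((rho hc ^ (k' + 1) * y : (ZMod (l ^ (k + 1)))ˣ) : ZMod (l ^ (k + 1))) 0 -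
      G ((rho hc ^ k' * y : (ZMod (l ^ (k + 1)))ˣ) : ZMod (l ^ (k + 1))) 0 := by
  have h1 := unit_sum hr hG.swap (y : ZMod (l ^ (k + 1)))
  rw [h1]
  have h2 : ∀ i : ℕ, ((rho hc ^ i * y : (ZMod (l ^ (k + 1)))ˣ) : ZMod (l ^ (k + 1))) =
      ((r ^ i : ℕ) : ZMod (l ^ (k + 1))) * y := by
    intro i
    rw [Units.val_mul, Units.val_pow_eq_pow_val, rho, ZMod.coe_unitOfCoprime, Nat.cast_pow]
  rw [h2, h2]

theorem rho_step (hr : r.Prime) (hc : Nat.Coprime (l ^ (k + 1)) (r ^ (k' + 1)))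
    (hG : IsD2 (l ^ (k + 1)) (r ^ (k' + 1)) p G) (T : AddSubgroup A)
    (hT : ∀ (y : (ZMod (l ^ (k + 1)))ˣ) (z : (ZMod (r ^ (k' + 1)))ˣ), G y z ∈ T)
    (y : (ZMod (l ^ (k + 1)))ˣ) :
    G ((rho hc * y : (ZMod (l ^ (k + 1)))ˣ) : ZMod (l ^ (k + 1))) 0 - G y 0 ∈ T := by
  have h1 := sum_right hr hc hG ((rho hc ^ k')⁻¹ * y)
  have e1 : rho hc ^ (k' + 1) * ((rho hc ^ k')⁻¹ * y) = rho hc * y := by
    rw [pow_succ (rho hc) k', mul_assoc, mul_left_comm (rho hc) _ y, mul_inv_cancel_left]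
  have e2 : rho hc ^ k' * ((rho hc ^ k')⁻¹ * y) = y := mul_inv_cancel_left _ _
  rw [e1, e2] at h1
  rw [← h1]
  exact AddSubgroup.sum_mem _ fun z _ => hT _ _

/-- one orbit of `⟨-1, p, r⟩` -/
theorem orbit_left (hr : r.Prime) (hc : Nat.Coprime (l ^ (k + 1)) (r ^ (k' + 1)))
    (hG : IsD2 (l ^ (k + 1)) (r ^ (k' + 1)) p G) (T : AddSubgroup A)
    (hT : ∀ (y : (ZMod (l ^ (k + 1)))ˣ) (z : (ZMod (r ^ (k' + 1)))ˣ), G y z ∈ T)
    (v : (ZMod (l ^ (k + 1)))ˣ) (hv : (v : ZMod (l ^ (k + 1))) = p)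
    (hgen : ∀ H : Subgroup (ZMod (l ^ (k + 1)))ˣ, -1 ∈ H → v ∈ H → rho hc ∈ H → H = ⊤)
    (y y' : (ZMod (l ^ (k + 1)))ˣ) :
    G y 0 ∈ T ⊔ AddSubgroup.zmultiples (G y' 0) := by
  have htr : ∀ a b c : A, a ∈ T ⊔ AddSubgroup.zmultiples b → b ∈ T ⊔ AddSubgroup.zmultiples c →
      a ∈ T ⊔ AddSubgroup.zmultiples c := by
    intro a b c ha hb
    exact (sup_le le_sup_left (AddSubgroup.zmultiples_le_of_mem hb) :
      T ⊔ AddSubgroup.zmultiples b ≤ T ⊔ AddSubgroup.zmultiples c) ha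
  have hd : ∀ a b : A, a - b ∈ T → a ∈ T ⊔ AddSubgroup.zmultiples b := by
    intro a b h
    have h1 : a = (a - b) + b := by abel
    rw [h1]
    exact add_mem ((le_sup_left : T ≤ _) h)
      ((le_sup_right : AddSubgroup.zmultiples b ≤ _) (AddSubgroup.mem_zmultiples b))
  let H : Subgroup (ZMod (l ^ (k + 1)))ˣ :=
    { carrier := {h | ∀ y : (ZMod (l ^ (k + 1)))ˣ,
        G ((h * y : (ZMod (l ^ (k + 1)))ˣ) : ZMod (l ^ (k + 1))) 0 ∈
          T ⊔ AddSubgroup.zmultiples (G y 0) ∧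
        G y 0 ∈ T ⊔ AddSubgroup.zmultiples
          (G ((h * y : (ZMod (l ^ (k + 1)))ˣ) : ZMod (l ^ (k + 1))) 0)}
      one_mem' := by
        intro y
        rw [one_mul]
        have h1 : G y 0 ∈ T ⊔ AddSubgroup.zmultiples (G y 0) :=
          (le_sup_right : AddSubgroup.zmultiples _ ≤ _) (AddSubgroup.mem_zmultiples _)
        exact ⟨h1, h1⟩
      mul_mem' := by
        intro a b ha hb y
        have h1 := hb y
        have h3 := ha (b * y)
        rw [mul_assoc]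
        exact ⟨htr _ _ _ h3.1 h1.1, htr _ _ _ h1.2 h3.2⟩
      inv_mem' := by
        intro a ha y
        have h1 := ha (a⁻¹ * y)
        rw [mul_inv_cancel_left] at h1
        exact ⟨h1.2, h1.1⟩ }
  have hH : H = ⊤ := by
    refine hgen H ?_ ?_ ?_
    · intro y
      have h3 := hG.neg (y : ZMod (l ^ (k + 1))) 0
      rw [neg_zero] at h3
      have h4 : G ((-1 * y : (ZMod (l ^ (k + 1)))ˣ) : ZMod (l ^ (k + 1))) 0 = -G y 0 := by
        rw [neg_one_mul, Units.val_neg]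
        exact h3
      rw [h4]
      constructor
      · exact (le_sup_right : AddSubgroup.zmultiples _ ≤ _)
          (neg_mem (AddSubgroup.mem_zmultiples _))
      · have h5 := (le_sup_right : AddSubgroup.zmultiples (-G y 0) ≤
          T ⊔ AddSubgroup.zmultiples (-G y 0)) (neg_mem (AddSubgroup.mem_zmultiples _))
        rwa [neg_neg] at h5
    · intro y
      have h3 := hG.frob (y : ZMod (l ^ (k + 1))) 0
      rw [mul_zero] at h3
      have h4 : G ((v * y : (ZMod (l ^ (k + 1)))ˣ) : ZMod (l ^ (k + 1))) 0 = G y 0 := by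
        rw [Units.val_mul, hv]
        exact h3
      rw [h4]
      have h1 : G y 0 ∈ T ⊔ AddSubgroup.zmultiples (G y 0) :=
        (le_sup_right : AddSubgroup.zmultiples _ ≤ _) (AddSubgroup.mem_zmultiples _)
      exact ⟨h1, h1⟩
    · intro y
      have h3 := rho_step hr hc hG T hT y
      refine ⟨hd _ _ h3, hd _ _ ?_⟩
      rw [← neg_sub]
      exact neg_mem h3
  have h3 : y * y'⁻¹ ∈ H := by rw [hH]; exact Subgroup.mem_top _
  have h4 := (h3 y').1
  rwa [inv_mul_cancel_right] at h4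

/-- one orbit of `⟨p, r⟩` : all values are congruent -/
theorem orbit_left' (hr : r.Prime) (hc : Nat.Coprime (l ^ (k + 1)) (r ^ (k' + 1)))
    (hG : IsD2 (l ^ (k + 1)) (r ^ (k' + 1)) p G) (T : AddSubgroup A)
    (hT : ∀ (y : (ZMod (l ^ (k + 1)))ˣ) (z : (ZMod (r ^ (k' + 1)))ˣ), G y z ∈ T)
    (v : (ZMod (l ^ (k + 1)))ˣ) (hv : (v : ZMod (l ^ (k + 1))) = p)
    (hgen : ∀ H : Subgroup (ZMod (l ^ (k + 1)))ˣ, v ∈ H → rho hc ∈ H → H = ⊤)
    (y y' : (ZMod (l ^ (k + 1)))ˣ) : G y 0 - G y' 0 ∈ T := by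
  let H : Subgroup (ZMod (l ^ (k + 1)))ˣ :=
    { carrier := {h | ∀ y : (ZMod (l ^ (k + 1)))ˣ,
        G ((h * y : (ZMod (l ^ (k + 1)))ˣ) : ZMod (l ^ (k + 1))) 0 - G y 0 ∈ T}
      one_mem' := by
        intro y
        rw [one_mul, sub_self]
        exact zero_mem _
      mul_mem' := by
        intro a b ha hb y
        have h1 := add_mem (ha (b * y)) (hb y)
        rw [sub_add_sub_cancel] at h1
        rw [mul_assoc]
        exact h1
      inv_mem' := by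
        intro a ha y
        have h1 := ha (a⁻¹ * y)
        rw [mul_inv_cancel_left] at h1
        rw [← neg_sub]
        exact neg_mem h1 }
  have hH : H = ⊤ := by
    refine hgen H ?_ ?_
    · intro y
      have h3 := hG.frob (y : ZMod (l ^ (k + 1))) 0
      rw [mul_zero] at h3
      have h4 : G ((v * y : (ZMod (l ^ (k + 1)))ˣ) : ZMod (l ^ (k + 1))) 0 = G y 0 := by
        rw [Units.val_mul, hv]
        exact h3
      rw [h4, sub_self]
      exact zero_mem _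
    · intro y
      exact rho_step hr hc hG T hT y
  have h3 : y * y'⁻¹ ∈ H := by rw [hH]; exact Subgroup.mem_top _
  have h4 := h3 y'
  rwa [inv_mul_cancel_right] at h4

end Pair

section Level

variable {l r k k' : ℕ} [NeZero (l ^ (k + 1))] [NeZero (r ^ (k' + 1))]
  [NeZero (l ^ (k + 1) * r ^ (k' + 1))]
  {A : Type} [AddCommGroup A] {p : ℕ} {F : ZMod (l ^ (k + 1) * r ^ (k' + 1)) → A}

/-- the values on the components -/
abbrev F2 (hc : Nat.Coprime (l ^ (k + 1)) (r ^ (k' + 1)))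
    (F : ZMod (l ^ (k + 1) * r ^ (k' + 1)) → A) (y : ZMod (l ^ (k + 1)))
    (z : ZMod (r ^ (k' + 1))) : A := F ((ZMod.chineseRemainder hc).symm (y, z))

theorem both_mem (hl : l.Prime) (hr : r.Prime) (hc : Nat.Coprime (l ^ (k + 1)) (r ^ (k' + 1)))
    (hF : IsD (l ^ (k + 1) * r ^ (k' + 1)) p F) {y : ZMod (l ^ (k + 1))} (hy : y ≠ 0)
    {z : ZMod (r ^ (k' + 1))} (hz : z ≠ 0) :
    F2 hc F y z ∈ TT (l ^ (k + 1) * r ^ (k' + 1)) F := by
  have h2 := hF.two hc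
  refine gen_left hl h2 {z | z ≠ 0} ?_ _ ?_ hy hz
  · intro z hz i
    obtain ⟨z₀, hz₀⟩ := exists_pow_mul (cop_l hc) i z
    refine ⟨z₀, ?_, hz₀⟩
    rintro rfl
    rw [mul_zero] at hz₀
    exact hz hz₀.symm
  · intro v z hz
    refine gen_left hr h2.swap (Set.range fun v : (ZMod (l ^ (k + 1)))ˣ => (v : ZMod (l ^ (k + 1))))
      ?_ _ ?_ hz ⟨v, rfl⟩
    · rintro _ ⟨v, rfl⟩ i
      obtain ⟨z₀, hz₀⟩ := exists_pow_mul (cop_r hc) i (v : ZMod (l ^ (k + 1)))
      refine ⟨z₀, ?_, hz₀⟩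
      have h3 : IsUnit z₀ := isUnit_of_mul_isUnit_right (by rw [hz₀]; exact v.isUnit)
      exact ⟨h3.unit, h3.unit_spec⟩
    · rintro w _ ⟨v, rfl⟩
      have h3 := tt_mem F ((cu hc).symm (v, w))
      rw [cu_symm_val] at h3
      exact h3

theorem units_mem (hc : Nat.Coprime (l ^ (k + 1)) (r ^ (k' + 1)))
    (F : ZMod (l ^ (k + 1) * r ^ (k' + 1)) → A) (y : (ZMod (l ^ (k + 1)))ˣ)
    (z : (ZMod (r ^ (k' + 1)))ˣ) : F2 hc F y z ∈ TT (l ^ (k + 1) * r ^ (k' + 1)) F := by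
  have h3 := tt_mem F ((cu hc).symm (y, z))
  rw [cu_symm_val] at h3
  exact h3

/-- generation of everything -/
theorem all_mem (hl : l.Prime) (hr : r.Prime) (hc : Nat.Coprime (l ^ (k + 1)) (r ^ (k' + 1)))
    (hF : IsD (l ^ (k + 1) * r ^ (k' + 1)) p F) (S : AddSubgroup A)
    (hT : TT (l ^ (k + 1) * r ^ (k' + 1)) F ≤ S)
    (hL : ∀ y : (ZMod (l ^ (k + 1)))ˣ, F2 hc F y 0 ∈ S)
    (hR : ∀ z : (ZMod (r ^ (k' + 1)))ˣ, F2 hc F 0 z ∈ S)
    (x : ZMod (l ^ (k + 1) * r ^ (k' + 1))) : F x ∈ S := by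
  have h2 := hF.two hc
  have hx : x = (ZMod.chineseRemainder hc).symm (ZMod.chineseRemainder hc x) :=
    ((ZMod.chineseRemainder hc).symm_apply_apply x).symm
  rw [hx]
  obtain ⟨y, z⟩ := ZMod.chineseRemainder hc x
  by_cases hy : y = 0
  · by_cases hz : z = 0
    · rw [hy, hz]
      have h3 := h2.zero
      beta_reduce at h3
      rw [h3]
      exact zero_mem _
    · rw [hy]
      refine gen_left hr h2.swap {0} ?_ S ?_ hz (Set.mem_singleton 0)
      · rintro z hz i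
        rw [Set.mem_singleton_iff] at hz
        exact ⟨0, rfl, by rw [mul_zero, hz]⟩
      · rintro z y hy
        rw [Set.mem_singleton_iff] at hy
        rw [hy]
        exact hR z
  · by_cases hz : z = 0
    · rw [hz]
      refine gen_left hl h2 {0} ?_ S ?_ hy (Set.mem_singleton 0)
      · rintro z hz i
        rw [Set.mem_singleton_iff] at hz
        exact ⟨0, rfl, by rw [mul_zero, hz]⟩
      · rintro z y hy
        rw [Set.mem_singleton_iff] at hy
        rw [hy]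
        exact hL z
    · exact hT (both_mem hl hr hc hF hy hz)

end Level

end TP

end Pool.Agent.Lib.MP81632f.Diag
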