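import Pool.Agent.Lib.MP_81632f_ag.Diag.TPd

/-!
# Two primes: the first relation
-/

set_option autoImplicit false

noncomputable section

namespace Pool.Agent.Lib.MP81632f.Diag

open Finset

namespace TP

open Crit Two New
open Red (ev)

theorem zsmul_sum' {A ι : Type} [AddCommGroup A] (s : Finset ι) (n : ℤ) (G : ι → A) :
    ∑ i ∈ s, n • G i = n • ∑ i ∈ s, G i := (Finset.smul_sum).symm

/-- class sums of functions of a lower level -/
theorem dd_pull {M N : ℕ} [NeZero M] [NeZero N] (hNM : N ∣ M) (u : (ZMod M)ˣ)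
    (hneg : (-1 : (ZMod N)ˣ) ∉ Subgroup.zpowers (ZMod.unitsMap hNM u)) (ν : (ZMod N)ˣ → ℤ)
    (hν1 : ∀ y, ν (-y) = -ν y) (hν2 : ∀ y, ν (ZMod.unitsMap hNM u * y) = ν y) (g : (ZMod M)ˣ) :
    DD u (fun g => xr (ZMod.unitsMap hNM u) (ZMod.unitsMap hNM g) * ν (ZMod.unitsMap hNM g)) g =
      kk hNM u * ν (ZMod.unitsMap hNM g) := by
  set π := ZMod.unitsMap hNM with hπ
  have hz : ∀ h ∈ Subgroup.zpowers u, ∀ y, ν (π h * y) = ν y := by
    intro h hh
    rw [← mem_powers_iff_mem_zpowers] at hh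
    obtain ⟨n, rfl⟩ := hh
    beta_reduce
    induction n with
    | zero => intro y; rw [pow_zero, map_one, one_mul]
    | succ n ih => intro y; rw [pow_succ', map_mul, mul_assoc, hν2, ih]
  have h1 := xx_sum hNM u hneg g
  have h2 : ∑ h ∈ ZZ u, (xx hNM (π u) (h⁻¹ * g) + xx hNM (π u) (-(h⁻¹ * g))) =
      ∑ h ∈ ZZ u, (xr (π u) (π (h * g)) + xr (π u) (-π (h * g))) := by
    refine Finset.sum_equiv (Equiv.inv _) ?_ ?_
    · intro h
      rw [mem_zz, mem_zz, Equiv.inv_apply, inv_mem_iff]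
    · intro h _
      rw [Equiv.inv_apply, ← unitsMap_neg]
      rfl
  rw [h2] at h1
  unfold DD
  rw [← h1, Finset.sum_mul]
  refine Finset.sum_congr rfl fun h hh => ?_
  rw [mem_zz] at hh
  have h3 : π (-(h * g)) = -π (h * g) := unitsMap_neg hNM _
  have h4 : ν (π (h * g)) = ν (π g) := by rw [map_mul]; exact hz h hh _
  beta_reduce
  rw [h3, hν1, h4]
  ring

section

variable {l r k k' : ℕ} [NeZero (l ^ (k + 1))] [NeZero (r ^ (k' + 1))]
  [NeZero (l ^ (k + 1) * r ^ (k' + 1))]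

theorem zz_of_map {M N : ℕ} (hNM : N ∣ M) (u h : (ZMod M)ˣ) (hh : h ∈ Subgroup.zpowers u) :
    ZMod.unitsMap hNM h ∈ Subgroup.zpowers (ZMod.unitsMap hNM u) := by
  obtain ⟨n, rfl⟩ := hh
  exact ⟨n, (map_zpow _ u n).symm⟩

/-- the relation in the case that `-1` is in `⟨p, r⟩` -/
theorem rel_minus {A : Type} [AddCommGroup A] {p : ℕ}
    {F : ZMod (l ^ (k + 1) * r ^ (k' + 1)) → A} (hr : r.Prime)
    (hc : Nat.Coprime (l ^ (k + 1)) (r ^ (k' + 1)))
    (hF : IsD (l ^ (k + 1) * r ^ (k' + 1)) p F) (u : (ZMod (l ^ (k + 1) * r ^ (k' + 1)))ˣ)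
    (hu : (u : ZMod (l ^ (k + 1) * r ^ (k' + 1))) = p)
    (hneg : (-1 : (ZMod (l ^ (k + 1)))ˣ) ∉ Subgroup.zpowers
      (ZMod.unitsMap (dvd_mul_right (l ^ (k + 1)) (r ^ (k' + 1))) u))
    (hminus : ∃ n : ℕ, ∃ h ∈ Subgroup.zpowers
      (ZMod.unitsMap (dvd_mul_right (l ^ (k + 1)) (r ^ (k' + 1))) u), rho hc ^ n = -h) :
    ∃ c : (ZMod (l ^ (k + 1) * r ^ (k' + 1)))ˣ → ℤ,
      ∑ g, c g • F (g : ZMod (l ^ (k + 1) * r ^ (k' + 1))) =
        (-2 : ℤ) • F2 hc F ((rho hc ^ k' : (ZMod (l ^ (k + 1)))ˣ) : ZMod (l ^ (k + 1))) 0 ∧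
      DD u c 1 = kk (dvd_mul_right (l ^ (k + 1)) (r ^ (k' + 1))) u := by
  classical
  set hL := dvd_mul_right (l ^ (k + 1)) (r ^ (k' + 1)) with hhL
  set v := ZMod.unitsMap hL u with hv
  set ρ := rho hc with hρ
  have hle : Subgroup.zpowers v ≤ KK v := by
    rw [Subgroup.zpowers_le]
    exact Subgroup.subset_closure (Set.mem_insert _ _)
  have hm1 : (-1 : (ZMod (l ^ (k + 1)))ˣ) ∈ KK v :=
    Subgroup.subset_closure (Set.mem_insert_of_mem _ rfl)
  obtain ⟨n, h, hh, hn⟩ := hminus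
  have hnK : ρ ^ n ∈ KK v := by
    rw [hn, ← neg_one_mul]
    exact mul_mem hm1 (hle hh)
  have hn0 : 0 < n := by
    rcases Nat.eq_zero_or_pos n with h1 | h1
    · exfalso
      rw [h1, pow_zero] at hn
      apply hneg
      have h2 : -1 = h := by rw [← neg_neg h, ← hn]
      rw [h2]
      exact hh
    · exact h1
  have hex : ∃ j, 0 < j ∧ ρ ^ j ∈ KK v := ⟨n, hn0, hnK⟩
  obtain ⟨j, ⟨hj0, hjK⟩, hmin⟩ : ∃ j, (0 < j ∧ ρ ^ j ∈ KK v) ∧ ∀ i < j, ρ ^ i ∈ KK v → i = 0 := by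
    refine ⟨Nat.find hex, Nat.find_spec hex, fun i hi hiK => ?_⟩
    by_contra hi0
    exact Nat.find_min hex hi ⟨Nat.pos_of_ne_zero hi0, hiK⟩
  -- the sign of `ρ ^ j`
  obtain ⟨h', hh', hjs⟩ := mem_kk hjK
  have hjm : ρ ^ j = -h' := by
    rcases hjs with hjs | hjs
    · exfalso
      have h1 : ρ ^ (n % j) * (ρ ^ j) ^ (n / j) = -h := by
        rw [← pow_mul, ← pow_add, Nat.mod_add_div]
        exact hn
      have h2 : ρ ^ (n % j) = -(h * ((ρ ^ j) ^ (n / j))⁻¹) := by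
        rw [eq_comm, ← neg_mul, ← h1, mul_inv_cancel_right]
      have h3 : h * ((ρ ^ j) ^ (n / j))⁻¹ ∈ Subgroup.zpowers v := by
        rw [hjs]
        exact mul_mem hh (inv_mem (pow_mem hh' _))
      have h4 := hmin (n % j) (Nat.mod_lt _ hj0) (by
        rw [h2, ← neg_one_mul]
        exact mul_mem hm1 (hle h3))
      rw [h4, pow_zero] at h2
      apply hneg
      rw [h2, neg_neg]
      exact h3
    · exact hjs
  let c' : (ZMod (l ^ (k + 1)))ˣ → ℤ := fun y => ∑ i ∈ range j, if y = ρ ^ i then 1 else 0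
  refine ⟨fun g => c' (ZMod.unitsMap hL g), ?_, ?_⟩
  · rw [sum_cu hc F c']
    have h1 : ∀ y : (ZMod (l ^ (k + 1)))ˣ, c' y • ∑ z : (ZMod (r ^ (k' + 1)))ˣ,
        F ((ZMod.chineseRemainder hc).symm ((y : ZMod (l ^ (k + 1))), (z : ZMod (r ^ (k' + 1))))) =
        ∑ i ∈ range j, (if y = ρ ^ i then (1 : ℤ) else 0) •
          ∑ z : (ZMod (r ^ (k' + 1)))ˣ, F2 hc F (y : ZMod (l ^ (k + 1))) z := by
      intro y
      rw [← Finset.sum_smul]
    rw [Finset.sum_congr rfl fun y _ => h1 y, Finset.sum_comm]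
    have h2 : ∀ i ∈ range j, ∑ y : (ZMod (l ^ (k + 1)))ˣ, (if y = ρ ^ i then (1 : ℤ) else 0) •
          ∑ z : (ZMod (r ^ (k' + 1)))ˣ, F2 hc F (y : ZMod (l ^ (k + 1))) z =
        F2 hc F ((ρ ^ (k' + (i + 1)) : (ZMod (l ^ (k + 1)))ˣ) : ZMod (l ^ (k + 1))) 0 -
        F2 hc F ((ρ ^ (k' + i) : (ZMod (l ^ (k + 1)))ˣ) : ZMod (l ^ (k + 1))) 0 := by
      intro i _
      rw [Finset.sum_eq_single (ρ ^ i)]
      · rw [if_pos rfl, one_smul, sum_right hr hc (hF.two hc) (ρ ^ i), ← hρ, ← pow_add, ← pow_add]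
        have e1 : k' + 1 + i = k' + (i + 1) := by ring
        rw [e1]
      · intro b _ hb
        rw [if_neg hb, zero_smul]
      · intro h
        exact absurd (mem_univ _) h
    rw [Finset.sum_congr rfl h2, Finset.sum_range_sub (fun i => F2 hc F
      ((ρ ^ (k' + i) : (ZMod (l ^ (k + 1)))ˣ) : ZMod (l ^ (k + 1))) 0), add_zero]
    have h3 : F2 hc F ((ρ ^ (k' + j) : (ZMod (l ^ (k + 1)))ˣ) : ZMod (l ^ (k + 1))) 0 =
        -F2 hc F ((ρ ^ k' : (ZMod (l ^ (k + 1)))ˣ) : ZMod (l ^ (k + 1))) 0 := by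
      have h2' := hF.two hc
      rw [pow_add ρ k' j, hjm, mul_neg, Units.val_neg]
      have h4 := h2'.neg ((ρ ^ k' * h' : (ZMod (l ^ (k + 1)))ˣ) : ZMod (l ^ (k + 1))) 0
      beta_reduce at h4
      rw [neg_zero] at h4
      change F ((ZMod.chineseRemainder hc).symm (_, 0)) = _
      rw [h4]
      congr 1
      -- powers of `v` act trivially
      rw [← mem_powers_iff_mem_zpowers] at hh'
      obtain ⟨m, rfl⟩ := hh'
      beta_reduce
      have hvp : (v : ZMod (l ^ (k + 1))) = p := by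
        rw [hv, ZMod.unitsMap_val, hu, ZMod.cast_natCast hL]
      have key : ∀ (m : ℕ) (y : ZMod (l ^ (k + 1))),
          F ((ZMod.chineseRemainder hc).symm (y * ((v ^ m : (ZMod (l ^ (k + 1)))ˣ) :
            ZMod (l ^ (k + 1))), 0)) = F ((ZMod.chineseRemainder hc).symm (y, 0)) := by
        intro m
        induction m with
        | zero => intro y; rw [pow_zero, Units.val_one, mul_one]
        | succ m ih =>
          intro y
          have h5 := h2'.frob (y * ((v ^ m : (ZMod (l ^ (k + 1)))ˣ) : ZMod (l ^ (k + 1)))) 0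
          beta_reduce at h5
          rw [mul_zero] at h5
          have h6 : y * ((v ^ (m + 1) : (ZMod (l ^ (k + 1)))ˣ) : ZMod (l ^ (k + 1))) =
              (p : ZMod (l ^ (k + 1))) *
                (y * ((v ^ m : (ZMod (l ^ (k + 1)))ˣ) : ZMod (l ^ (k + 1)))) := by
            rw [pow_succ v m, Units.val_mul, hvp]
            ring
          rw [h6, h5, ih]
      have h5 := key m ((ρ ^ k' : (ZMod (l ^ (k + 1)))ˣ) : ZMod (l ^ (k + 1)))
      rw [Units.val_mul]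
      exact h5
    rw [h3]
    module
  · -- the class sum
    have hc1 : ∀ y ∈ KK v, c' y = if y = 1 then 1 else 0 := by
      intro y hy
      change ∑ i ∈ range j, (if y = ρ ^ i then (1 : ℤ) else 0) = _
      rw [Finset.sum_eq_single 0]
      · rw [pow_zero]
      · intro i hi hi0
        rw [mem_range] at hi
        rw [if_neg]
        rintro rfl
        exact hi0 (hmin i hi hy)
      · intro h
        exact absurd (mem_range.mpr hj0) h
    unfold DD kk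
    rw [Finset.card_filter]
    push_cast
    refine Finset.sum_congr rfl fun g hg => ?_
    rw [mem_zz] at hg
    have hgz := zz_of_map hL u g hg
    rw [mul_one, unitsMap_neg, hc1 _ (hle hgz), hc1 _ (by
      rw [← neg_one_mul]
      exact mul_mem hm1 (hle hgz))]
    have h1 : ¬ (-ZMod.unitsMap hL g = 1) := by
      intro h2
      apply hneg
      rw [← h2, neg_neg]
      exact hgz
    rw [if_neg h1, sub_zero]

theorem dd_single {M : ℕ} [NeZero M] (u : (ZMod M)ˣ)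
    (hneg : (-1 : (ZMod M)ˣ) ∉ Subgroup.zpowers u) [DecidableEq (ZMod M)ˣ] :
    DD u (fun g => if g = 1 then 1 else 0) 1 = 1 := by
  unfold DD
  beta_reduce
  have h1 : ¬ (-(1 : (ZMod M)ˣ) = 1) := by
    intro h
    apply hneg
    rw [h]
    exact one_mem _
  rw [Finset.sum_eq_single 1]
  · rw [mul_one, if_pos rfl, if_neg h1, sub_zero]
  · intro b hb hb1
    rw [mem_zz] at hb
    have h2 : ¬ (-b = 1) := by
      intro h
      apply hneg
      rw [← h, neg_neg]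
      exact hb
    rw [mul_one, if_neg hb1, if_neg h2, sub_zero]
  · intro h
    exact absurd (mem_zz.mpr (one_mem _)) h

theorem dd_add {M : ℕ} [NeZero M] (u : (ZMod M)ˣ) (c c' : (ZMod M)ˣ → ℤ) (n : ℤ)
    (g : (ZMod M)ˣ) : DD u (fun g => c g - n * c' g) g = DD u c g - n * DD u c' g := by
  unfold DD
  rw [Finset.mul_sum, ← Finset.sum_sub_distrib]
  refine Finset.sum_congr rfl fun h _ => ?_
  ring

/-- the case that `-1` is in `⟨p, r⟩` -/
theorem tp_minus (hB : StBasic) (hR : StRank) {p f : ℕ} (hl : l.Prime) (hr : r.Prime)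
    (hc : Nat.Coprime (l ^ (k + 1)) (r ^ (k' + 1))) (hf : 0 < f)
    (hp : (p : ZMod (l ^ (k + 1) * r ^ (k' + 1))) ^ f = 1)
    (u : (ZMod (l ^ (k + 1) * r ^ (k' + 1)))ˣ)
    (hu : (u : ZMod (l ^ (k + 1) * r ^ (k' + 1))) = p)
    (hneg : (-1 : (ZMod (l ^ (k + 1)))ˣ) ∉ Subgroup.zpowers
      (ZMod.unitsMap (dvd_mul_right (l ^ (k + 1)) (r ^ (k' + 1))) u))
    (hminus : ∃ n : ℕ, ∃ h ∈ Subgroup.zpowers
      (ZMod.unitsMap (dvd_mul_right (l ^ (k + 1)) (r ^ (k' + 1))) u), rho hc ^ n = -h)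
    (hodd : Odd (kk (dvd_mul_right (l ^ (k + 1)) (r ^ (k' + 1))) u))
    (hgen : ∀ H : Subgroup (ZMod (l ^ (k + 1)))ˣ, -1 ∈ H →
      ZMod.unitsMap (dvd_mul_right (l ^ (k + 1)) (r ^ (k' + 1))) u ∈ H → rho hc ∈ H → H = ⊤)
    (hright : ∀ z : (ZMod (r ^ (k' + 1)))ˣ,
      F2 hc (E (l ^ (k + 1) * r ^ (k' + 1)) p f) 0 z ∈
        TT (l ^ (k + 1) * r ^ (k' + 1)) (E (l ^ (k + 1) * r ^ (k' + 1)) p f) ⊔
        AddSubgroup.zmultiples (F2 hc (E (l ^ (k + 1) * r ^ (k' + 1)) p f) 1 0)) :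
    LP (l ^ (k + 1) * r ^ (k' + 1)) p f := by
  classical
  have hM : 1 < l ^ (k + 1) * r ^ (k' + 1) :=
    Nat.one_lt_mul_iff.mpr ⟨pow_pos hl.pos _, pow_pos hr.pos _,
      Or.inl (Nat.one_lt_pow (Nat.succ_ne_zero k) hl.one_lt)⟩
  have hF := E_isD hB hM hf hp
  set F := E (l ^ (k + 1) * r ^ (k' + 1)) p f with hFdef
  set T := TT (l ^ (k + 1) * r ^ (k' + 1)) F with hTdef
  have hvp : ((ZMod.unitsMap (dvd_mul_right (l ^ (k + 1)) (r ^ (k' + 1))) u :
      (ZMod (l ^ (k + 1)))ˣ) : ZMod (l ^ (k + 1))) = p := by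
    rw [ZMod.unitsMap_val, hu, ZMod.cast_natCast (dvd_mul_right (l ^ (k + 1)) (r ^ (k' + 1)))]
  obtain ⟨c, hc1, hc2⟩ := rel_minus hr hc hF u hu hneg hminus
  obtain ⟨n, hn⟩ := hodd
  have horb := fun y y' => orbit_left hr hc (hF.two hc) T (fun y z => units_mem hc F y z)
    _ hvp hgen y y'
  set a' := F2 hc F ((rho hc ^ k' : (ZMod (l ^ (k + 1)))ˣ) : ZMod (l ^ (k + 1))) 0 with ha'
  set a₁ := a' + (n : ℤ) • F 1 with ha₁
  have hnegM : (-1 : (ZMod (l ^ (k + 1) * r ^ (k' + 1)))ˣ) ∉ Subgroup.zpowers u := by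
    intro h
    apply hneg
    have h1 := zz_of_map (dvd_mul_right (l ^ (k + 1)) (r ^ (k' + 1))) u (-1) h
    rwa [unitsMap_neg, map_one] at h1
  have h1T : F 1 ∈ T := by
    have := tt_mem F (1 : (ZMod (l ^ (k + 1) * r ^ (k' + 1)))ˣ)
    rwa [Units.val_one] at this
  have ha'S : a' ∈ T ⊔ AddSubgroup.zmultiples a₁ := by
    have h1 : a' = a₁ - (n : ℤ) • F 1 := by rw [ha₁]; abel
    rw [h1]
    exact sub_mem ((le_sup_right : AddSubgroup.zmultiples a₁ ≤ _) (AddSubgroup.mem_zmultiples a₁))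
      ((le_sup_left : T ≤ _) (AddSubgroup.zsmul_mem _ h1T _))
  have hle : T ⊔ AddSubgroup.zmultiples a' ≤ T ⊔ AddSubgroup.zmultiples a₁ :=
    sup_le le_sup_left (AddSubgroup.zmultiples_le_of_mem ha'S)
  have hL : ∀ y : (ZMod (l ^ (k + 1)))ˣ, F2 hc F y 0 ∈ T ⊔ AddSubgroup.zmultiples a₁ :=
    fun y => hle (horb y _)
  refine crit2 hB hR hM hf hp u hu hnegM a₁ ?_ (fun g => c g - (2 * n : ℤ) *
    (if g = 1 then 1 else 0)) ?_ 1 ?_
  · intro x
    refine all_mem hl hr hc hF _ le_sup_left hL (fun z => ?_) x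
    have h2 := hL 1
    rw [Units.val_one] at h2
    exact (sup_le le_sup_left (AddSubgroup.zmultiples_le_of_mem h2) : T ⊔
      AddSubgroup.zmultiples (F2 hc F 1 0) ≤ _) (hright z)
  · have h2 : ∑ g : (ZMod (l ^ (k + 1) * r ^ (k' + 1)))ˣ,
        (c g - (2 * n : ℤ) * (if g = 1 then 1 else 0)) •
          F (g : ZMod (l ^ (k + 1) * r ^ (k' + 1))) = (-2 : ℤ) • a₁ := by
      have h3 : ∀ g : (ZMod (l ^ (k + 1) * r ^ (k' + 1)))ˣ,
          (c g - (2 * n : ℤ) * (if g = 1 then 1 else 0)) •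
          F (g : ZMod (l ^ (k + 1) * r ^ (k' + 1))) =
          c g • F (g : ZMod (l ^ (k + 1) * r ^ (k' + 1))) -
          (2 * n : ℤ) • ((if g = 1 then (1 : ℤ) else 0) •
            F (g : ZMod (l ^ (k + 1) * r ^ (k' + 1)))) := by
        intro g
        rw [sub_smul, mul_smul]
      have h4 : ∑ g : (ZMod (l ^ (k + 1) * r ^ (k' + 1)))ˣ, (if g = 1 then (1 : ℤ) else 0) •
            F (g : ZMod (l ^ (k + 1) * r ^ (k' + 1))) = F 1 := by
        rw [Finset.sum_eq_single 1]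
        · rw [if_pos rfl, one_smul, Units.val_one]
        · intro b _ hb
          rw [if_neg hb, zero_smul]
        · intro h
          exact absurd (mem_univ _) h
      rw [Finset.sum_congr rfl fun g _ => h3 g, Finset.sum_sub_distrib, hc1, zsmul_sum',
        h4, ha₁]
      module
    rw [h2]
    exact AddSubgroup.zsmul_mem _ (AddSubgroup.mem_zmultiples a₁) _
  · rw [dd_add u c (fun g => if g = 1 then 1 else 0), hc2, dd_single u hnegM, hn]
    push_cast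
    ring

end

end TP

end Pool.Agent.Lib.MP81632f.Diag
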