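import Pool.Agent.Lib.MP_81632f_ag.Diag.TPe

/-!
# Two primes: the second relation
-/

set_option autoImplicit false

noncomputable section

namespace Pool.Agent.Lib.MP81632f.Diag

open Finset

namespace TP

open Crit Two New Push
open Red (ev)

section General

variable {M : ℕ} [NeZero M] {p f : ℕ}

/-- the class sums of the weights `xr` -/
theorem dd_self (u : (ZMod M)ˣ) (hneg : (-1 : (ZMod M)ˣ) ∉ Subgroup.zpowers u)
    (ν : (ZMod M)ˣ → ℤ) (hν1 : ∀ y, ν (-y) = -ν y) (hν2 : ∀ y, ν (u * y) = ν y)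
    (g : (ZMod M)ˣ) : DD u (fun g => xr u g * ν g) g = ν g := by
  have hz : ∀ h ∈ Subgroup.zpowers u, ∀ y, ν (h * y) = ν y := by
    intro h hh
    rw [← mem_powers_iff_mem_zpowers] at hh
    obtain ⟨n, rfl⟩ := hh
    beta_reduce
    induction n with
    | zero => intro y; rw [pow_zero, one_mul]
    | succ n ih => intro y; rw [pow_succ', mul_assoc, hν2, ih]
  have h1 := xr_sum u hneg g
  have h2 : ∑ h ∈ ZZ u, (xr u (h⁻¹ * g) + xr u (-(h⁻¹ * g))) =
      ∑ h ∈ ZZ u, (xr u (h * g) + xr u (-(h * g))) := by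
    refine Finset.sum_equiv (Equiv.inv _) ?_ ?_
    · intro h
      rw [mem_zz, mem_zz, Equiv.inv_apply, inv_mem_iff]
    · intro h _
      rw [Equiv.inv_apply]
  rw [h2] at h1
  unfold DD
  have h3 : ν g = (∑ h ∈ ZZ u, (xr u (h * g) + xr u (-(h * g)))) * ν g := by rw [h1, one_mul]
  rw [h3, Finset.sum_mul]
  refine Finset.sum_congr rfl fun h hh => ?_
  rw [mem_zz] at hh
  have h4 : ν (h * g) = ν g := hz h hh _
  beta_reduce
  rw [hν1, h4]
  ring

/-- sums over the classes -/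
theorem cls_sum {A : Type} [AddCommGroup A] (v : (ZMod M)ˣ) (H : (ZMod M)ˣ → A)
    (h1 : ∀ y, H (-y) = H y) (h2 : ∀ y, H (v * y) = H y) (ρ : (ZMod M)ˣ) :
    ∑ y, xr v y • H (ρ * y) = ∑ y, xr v y • H y := by
  have hz : ∀ h ∈ Subgroup.zpowers v, ∀ y, H (h * y) = H y := by
    intro h hh
    rw [← mem_powers_iff_mem_zpowers] at hh
    obtain ⟨n, rfl⟩ := hh
    beta_reduce
    induction n with
    | zero => intro y; rw [pow_zero, one_mul]
    | succ n ih => intro y; rw [pow_succ', mul_assoc, h2, ih]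
  have hk : ∀ k ∈ KK v, ∀ y, H (k * y) = H y := by
    intro k hk
    obtain ⟨h, hh, hs⟩ := mem_kk hk
    have h3 : ∀ y, H (h * y) = H y := hz h hh
    rcases hs with rfl | rfl
    · exact h3
    · intro y
      rw [neg_mul, h1, h3]
  have hcl : ∀ a b : (ZMod M)ˣ, (QuotientGroup.mk a : (ZMod M)ˣ ⧸ KK v) = QuotientGroup.mk b →
      H a = H b := by
    intro a b hab
    rw [QuotientGroup.eq] at hab
    have h3 := hk _ hab a
    rw [mul_comm a⁻¹ b, inv_mul_cancel_right] at h3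
    exact h3.symm
  rw [sum_xr v (fun y => H (ρ * y)), sum_xr v H]
  refine Finset.sum_equiv (Equiv.mulLeft (QuotientGroup.mk ρ : (ZMod M)ˣ ⧸ KK v)) (by simp) ?_
  intro i _
  apply hcl
  rw [Equiv.coe_mulLeft]
  have h3 : (QuotientGroup.mk (rp v i) : (ZMod M)ˣ ⧸ KK v) = i := Quotient.out_eq i
  have h4 : (QuotientGroup.mk (rp v (QuotientGroup.mk ρ * i)) : (ZMod M)ˣ ⧸ KK v) =
      QuotientGroup.mk ρ * i := Quotient.out_eq _
  rw [h4, QuotientGroup.mk_mul, h3]

/-- coprimality -/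
theorem kk_coprime {N N' : ℕ} [NeZero N] [NeZero N'] (hN : N ∣ M) (hN' : N' ∣ M)
    (h : ∀ g : (ZMod M)ˣ, ZMod.unitsMap hN g = 1 → ZMod.unitsMap hN' g = 1 → g = 1)
    (u : (ZMod M)ˣ) : Nat.Coprime (kk hN u) (kk hN' u) := by
  classical
  have hcard : ∀ {N : ℕ} (hN : N ∣ M), kk hN u =
      Nat.card (Subgroup.zpowers u ⊓ (ZMod.unitsMap hN).ker : Subgroup (ZMod M)ˣ) := by
    intro N hN
    rw [Nat.card_eq_fintype_card, Fintype.card_subtype]
    unfold kk
    congr 1
    ext h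
    rw [mem_filter, mem_filter, mem_zz]
    constructor
    · rintro ⟨h1, h2⟩
      exact ⟨mem_univ _, h1, h2⟩
    · rintro ⟨-, h1, h2⟩
      exact ⟨h1, h2⟩
  rw [hcard hN, hcard hN']
  set K₁ : Subgroup (ZMod M)ˣ := Subgroup.zpowers u ⊓ (ZMod.unitsMap hN).ker with hK₁
  set K₂ : Subgroup (ZMod M)ˣ := Subgroup.zpowers u ⊓ (ZMod.unitsMap hN').ker with hK₂
  let φ : K₁ × K₂ →* Subgroup.zpowers u :=
    { toFun := fun x => ⟨(x.1 : (ZMod M)ˣ) * (x.2 : (ZMod M)ˣ), mul_mem x.1.2.1 x.2.2.1⟩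
      map_one' := by
        apply Subtype.ext
        change (1 : (ZMod M)ˣ) * 1 = 1
        rw [one_mul]
      map_mul' := by
        intro a b
        apply Subtype.ext
        change ((a.1 : (ZMod M)ˣ) * b.1) * (a.2 * b.2) = (a.1 * a.2) * (b.1 * b.2)
        exact mul_mul_mul_comm _ _ _ _ }
  have hφ : Function.Injective φ := by
    rw [injective_iff_map_eq_one]
    rintro ⟨a, b⟩ hab
    have h1 : (a : (ZMod M)ˣ) * (b : (ZMod M)ˣ) = 1 := congrArg Subtype.val hab
    have h2 : (b : (ZMod M)ˣ) = (a : (ZMod M)ˣ)⁻¹ := (inv_eq_of_mul_eq_one_right h1).symm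
    have ha1 : ZMod.unitsMap hN a = 1 := a.2.2
    have ha2 : ZMod.unitsMap hN' a = 1 := by
      have hb : ZMod.unitsMap hN' (b : (ZMod M)ˣ) = 1 := b.2.2
      rw [h2, map_inv, inv_eq_one] at hb
      exact hb
    have ha := h _ ha1 ha2
    have hb : (b : (ZMod M)ˣ) = 1 := by rw [h2, ha, inv_one]
    exact Prod.ext (Subtype.ext ha) (Subtype.ext hb)
  have hcyc : IsCyclic (K₁ × K₂) := isCyclic_of_injective φ hφ
  exact (Group.isCyclic_prod_iff.mp hcyc).2.2

/-- balanced functions of a level with the lattice property -/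
theorem ws_of_bal (hB : StBasic) (hM : 1 < M) (hf : 0 < f) (hp : (p : ZMod M) ^ f = 1)
    (hLP : LP M p f) {w : ZMod M → ℤ} (h0 : w 0 = 0)
    (hb : ∀ t : (ZMod M)ˣ, pair M p f t w = 0) : w ∈ WS M p f := by
  have hsub : Sub M p f ≤ WS M p f := le_sup_left
  have hss : SS M p f ≤ WS M p f := le_sup_right
  by_cases hex : ∃ x, SSel M p f x
  · obtain ⟨x, hx⟩ := hex
    by_cases he : Even (tot M w)
    · exact hsub (lp_fun hB hM hf hp hLP h0 hb he)
    · have h1 : w - ev x ∈ Sub M p f := by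
        refine lp_fun hB hM hf hp hLP ?_ (fun t => ?_) ?_
        · have h2 : (ev x : ZMod M → ℤ) 0 = 0 := Pi.single_eq_of_ne hx.1.symm _
          rw [Pi.sub_apply, h0, h2, sub_zero]
        · rw [map_sub, hb, pair_ev, hx.2 t, sub_zero]
        · rw [map_sub, tot_ev, Int.even_sub]
          simp [he]
      have h2 : w = (w - ev x) + ev x := by abel
      rw [h2]
      exact add_mem (hsub h1) (hss (ss_mem hx))
  · have hno : ∀ x, ¬ SSel M p f x := fun x hx => hex ⟨x, hx⟩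
    have hodd : Odd M := by
      by_contra h
      rw [Nat.not_odd_iff_even, even_iff_two_dvd] at h
      have h1 := Red.quot_ne (M := M) Nat.prime_two h (j := 1) (by norm_num) (by norm_num)
      rw [Nat.cast_one, one_mul] at h1
      refine hno _ (ss_of_two hf hp h1 ?_)
      rw [nsmul_eq_mul]
      exact Red.mul_quot h
    exact hsub (lp_fun hB hM hf hp hLP h0 hb (Transfer.even_tot hodd hf hp hno hb))

/-- relations of a lower level -/
theorem push_rel {m : ℕ} [NeZero m] (hm : m ∣ M) {w : ZMod m → ℤ} (h0 : w 0 = 0)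
    (hw : w ∈ WS m p f) : ∑ y, w y • E M p f (inc M m y) = 0 := by
  have h1 : push M m w ∈ WS M p f := by
    obtain ⟨a, ha, b, hb, rfl⟩ := AddSubgroup.mem_sup.mp hw
    rw [map_add]
    refine add_mem ((le_sup_left : Sub M p f ≤ _) (push_sub hm ha)) ?_
    refine (le_sup_right : SS M p f ≤ _) ?_
    clear h0 hw
    induction hb using AddSubgroup.closure_induction with
    | mem v hv =>
      obtain ⟨y, hy, rfl⟩ := hv
      rw [push_ev]
      refine ss_mem ⟨inc_ne hm hy.1, fun t => ?_⟩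
      rw [saw_inc hm, hy.2, mul_zero]
    | zero => rw [map_zero]; exact zero_mem _
    | add v w _ _ hv hw => rw [map_add]; exact add_mem hv hw
    | neg v _ hv => rw [map_neg]; exact neg_mem hv
  rw [← mk_zero] at h1
  rw [← h1]
  change _ = (QuotientAddGroup.mk (∑ y, w y • ev (inc M m y)) : QA M p f)
  rw [mk_sum]
  refine Finset.sum_congr rfl fun y _ => ?_
  by_cases hy : y = 0
  · rw [hy, h0, zero_smul, zero_smul]
    rfl
  · rw [E_of (inc_ne hm hy)]
    rfl

/-- the fibre of a unit -/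
theorem fiber {A : Type} [AddCommGroup A] {F : ZMod M → A} (hF : IsD M p F) {m : ℕ} [NeZero m]
    (hm : m ∣ M) (hpr : ∀ q : ℕ, q.Prime → q ∣ M → q ∣ m) [DecidableEq (ZMod m)ˣ]
    (g₀ : (ZMod m)ˣ) :
    F (inc M m g₀) = ∑ g ∈ univ.filter (fun g : (ZMod M)ˣ => ZMod.unitsMap hm g = g₀),
      F (g : ZMod M) := by
  have hn : M / m ∣ M := Nat.div_dvd_of_dvd hm
  obtain ⟨g₁, hg₁⟩ := ZMod.unitsMap_surjective hm g₀
  have h1 := hF.distn (M / m) hn (g₁ : ZMod M)
  have h2 : inc M m g₀ = ((M / m : ℕ) : ZMod M) * (g₁ : ZMod M) := by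
    have h3 := inc_nat (M := M) (m := m) hm (g₁ : ZMod M).val
    have h4 : (((g₁ : ZMod M).val : ℕ) : ZMod m) = (g₀ : ZMod m) := by
      rw [← hg₁, ZMod.unitsMap_val, ZMod.cast_eq_val]
    rw [h4, ZMod.natCast_zmod_val] at h3
    exact h3
  rw [h2, ← h1]
  have hunit : ∀ y : ZMod M, ((M / m : ℕ) : ZMod M) * y = 0 → IsUnit ((g₁ : ZMod M) + y) ∧
      ZMod.castHom hm (ZMod m) ((g₁ : ZMod M) + y) = (g₀ : ZMod m) := by
    intro y hy
    have hM0 : 0 < M := NeZero.pos M
    have hq0 : 0 < M / m := Nat.div_pos (Nat.le_of_dvd hM0 hm) (NeZero.pos m)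
    obtain ⟨j, -, hj⟩ := exists_mul hn hq0.ne' hy
    have hMm : M / (M / m) = m := Nat.div_div_self hm (NeZero.ne M)
    rw [hMm] at hj
    have h3 : ZMod.castHom hm (ZMod m) ((g₁ : ZMod M) + y) = (g₀ : ZMod m) := by
      rw [map_add, hj, map_mul, map_natCast, map_natCast, ZMod.natCast_self, mul_zero, add_zero,
        ← hg₁]
      rfl
    refine ⟨?_, h3⟩
    -- coprimality
    have h4 : (g₁ : ZMod M) + y = ((((g₁ : ZMod M) + y).val : ℕ) : ZMod M) :=
      (ZMod.natCast_zmod_val _).symm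
    rw [h4, ZMod.isUnit_iff_coprime]
    rw [h4, map_natCast] at h3
    have h5 : Nat.Coprime ((g₁ : ZMod M) + y).val m := by
      rw [← ZMod.isUnit_iff_coprime, h3]
      exact g₀.isUnit
    refine Nat.Coprime.symm (Nat.coprime_of_dvd fun q hq hqM hqv => ?_)
    have h6 := Nat.dvd_gcd hqv (hpr q hq hqM)
    rw [h5] at h6
    exact hq.one_lt.ne' (Nat.dvd_one.mp h6)
  refine Finset.sum_bij (fun y hy => (hunit y (mem_filter.mp hy).2).1.unit) ?_ ?_ ?_ ?_
  · intro y hy
    rw [mem_filter] at hy ⊢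
    refine ⟨mem_univ _, ?_⟩
    apply Units.ext
    exact (hunit y hy.2).2
  · intro a ha b hb hab
    have h3 := congrArg (fun z : (ZMod M)ˣ => (z : ZMod M)) hab
    simp only [IsUnit.unit_spec] at h3
    exact add_left_cancel h3
  · intro g hg
    rw [mem_filter] at hg
    refine ⟨(g : ZMod M) - g₁, ?_, ?_⟩
    · rw [mem_filter]
      refine ⟨mem_univ _, ?_⟩
      have h3 : ZMod.castHom hm (ZMod m) ((g : ZMod M) - g₁) = 0 := by
        rw [map_sub, sub_eq_zero]
        have h4 : ZMod.unitsMap hm g = ZMod.unitsMap hm g₁ := by rw [hg.2, hg₁]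
        exact congrArg (fun z : (ZMod m)ˣ => (z : ZMod m)) h4
      have h4 : (g : ZMod M) - g₁ = ((((g : ZMod M) - g₁).val : ℕ) : ZMod M) :=
        (ZMod.natCast_zmod_val _).symm
      rw [h4, map_natCast, ZMod.natCast_eq_zero_iff] at h3
      rw [h4, ← Nat.cast_mul, ZMod.natCast_eq_zero_iff]
      obtain ⟨c, hc⟩ := h3
      rw [hc, ← mul_assoc, Nat.div_mul_cancel hm]
      exact Dvd.intro _ rfl
    · apply Units.ext
      rw [IsUnit.unit_spec]
      abel
  · intro y hy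
    rw [IsUnit.unit_spec]

end General

end TP

end Pool.Agent.Lib.MP81632f.Diag
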