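import Pool.Agent.Lib.MP_81632f_ag.Diag.TPf

/-!
# Two primes: the case that `-1` is not in `⟨p, r⟩`
-/

set_option autoImplicit false

noncomputable section

namespace Pool.Agent.Lib.MP81632f.Diag

open Finset

namespace TP

open Crit Two New Push
open Red (ev)

theorem sum_zsmul' {A ι : Type} [AddCommGroup A] (s : Finset ι) (c : ι → ℤ) (x : A) :
    (∑ i ∈ s, c i) • x = ∑ i ∈ s, c i • x := Finset.sum_smul

theorem mul_zsmul' {A : Type} [AddCommGroup A] (a b : ℤ) (x : A) : (a * b) • x = a • b • x :=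
  mul_smul a b x

theorem bezout' {A : Type} [AddCommGroup A] {x : A} {a b c d : ℤ} (h1 : a • x = 0)
    (h2 : b • x = 0) (h : 1 = a * c + b * d) : x = 0 := by
  have h3 : x = (a * c + b * d) • x := by rw [← h, one_smul]
  rw [h3, add_smul, mul_comm a, mul_comm b, mul_smul, mul_smul, h1, h2, smul_zero, smul_zero,
    add_zero]

section

variable {l r k k' : ℕ} [NeZero (l ^ (k + 1))] [NeZero (r ^ (k' + 1))]
  [NeZero (l ^ (k + 1) * r ^ (k' + 1))]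

/-- the relation with the factor `k` -/
theorem rel_kR {A : Type} [AddCommGroup A] {p : ℕ}
    {F : ZMod (l ^ (k + 1) * r ^ (k' + 1)) → A} (hr : r.Prime)
    (hc : Nat.Coprime (l ^ (k + 1)) (r ^ (k' + 1)))
    (hF : IsD (l ^ (k + 1) * r ^ (k' + 1)) p F) (v : (ZMod (l ^ (k + 1)))ˣ)
    (hv : (v : ZMod (l ^ (k + 1))) = p) (ν : (ZMod (l ^ (k + 1)))ˣ → ℤ)
    (hν1 : ∀ y, ν (-y) = -ν y) (hν2 : ∀ y, ν (v * y) = ν y) (hν3 : ∀ y, ν (rho hc * y) = ν y) :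
    ∑ g : (ZMod (l ^ (k + 1) * r ^ (k' + 1)))ˣ,
      (xr v (ZMod.unitsMap (dvd_mul_right (l ^ (k + 1)) (r ^ (k' + 1))) g) *
        ν (ZMod.unitsMap (dvd_mul_right (l ^ (k + 1)) (r ^ (k' + 1))) g)) •
        F (g : ZMod (l ^ (k + 1) * r ^ (k' + 1))) = 0 := by
  have h2 := hF.two hc
  rw [sum_cu hc F (fun y => xr v y * ν y)]
  let H : (ZMod (l ^ (k + 1)))ˣ → A := fun y => ν y • F2 hc F (y : ZMod (l ^ (k + 1))) 0
  have hH1 : ∀ y, H (-y) = H y := by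
    intro y
    have h3 := h2.neg (y : ZMod (l ^ (k + 1))) 0
    beta_reduce at h3
    rw [neg_zero] at h3
    change ν (-y) • F2 hc F ((-y : (ZMod (l ^ (k + 1)))ˣ) : ZMod (l ^ (k + 1))) 0 =
      ν y • F2 hc F (y : ZMod (l ^ (k + 1))) 0
    have h4 : F2 hc F ((-y : (ZMod (l ^ (k + 1)))ˣ) : ZMod (l ^ (k + 1))) 0 =
        -F2 hc F (y : ZMod (l ^ (k + 1))) 0 := by
      rw [Units.val_neg]
      exact h3
    rw [hν1, h4, neg_smul, smul_neg, neg_neg]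
  have hH2 : ∀ y, H (v * y) = H y := by
    intro y
    have h3 := h2.frob (y : ZMod (l ^ (k + 1))) 0
    beta_reduce at h3
    rw [mul_zero] at h3
    change ν (v * y) • F2 hc F ((v * y : (ZMod (l ^ (k + 1)))ˣ) : ZMod (l ^ (k + 1))) 0 =
      ν y • F2 hc F (y : ZMod (l ^ (k + 1))) 0
    have h4 : F2 hc F ((v * y : (ZMod (l ^ (k + 1)))ˣ) : ZMod (l ^ (k + 1))) 0 =
        F2 hc F (y : ZMod (l ^ (k + 1))) 0 := by
      rw [Units.val_mul, hv]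
      exact h3
    rw [hν2, h4]
  have hρ : ∀ (i : ℕ) (y : (ZMod (l ^ (k + 1)))ˣ), ν (rho hc ^ i * y) = ν y := by
    intro i
    induction i with
    | zero => intro y; rw [pow_zero, one_mul]
    | succ i ih => intro y; rw [pow_succ' (rho hc) i, mul_assoc, hν3, ih]
  have h3 : ∀ y : (ZMod (l ^ (k + 1)))ˣ, (xr v y * ν y) • ∑ z : (ZMod (r ^ (k' + 1)))ˣ,
        F ((ZMod.chineseRemainder hc).symm ((y : ZMod (l ^ (k + 1))), (z : ZMod (r ^ (k' + 1))))) =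
      xr v y • H (rho hc ^ (k' + 1) * y) - xr v y • H (rho hc ^ k' * y) := by
    intro y
    have h4 := sum_right hr hc h2 y
    beta_reduce at h4
    rw [h4]
    change _ = xr v y • (ν (rho hc ^ (k' + 1) * y) • F2 hc F
      ((rho hc ^ (k' + 1) * y : (ZMod (l ^ (k + 1)))ˣ) : ZMod (l ^ (k + 1))) 0) -
      xr v y • (ν (rho hc ^ k' * y) • F2 hc F
      ((rho hc ^ k' * y : (ZMod (l ^ (k + 1)))ˣ) : ZMod (l ^ (k + 1))) 0)
    rw [hρ, hρ]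
    module
  rw [Finset.sum_congr rfl fun y _ => h3 y, Finset.sum_sub_distrib,
    cls_sum v H hH1 hH2, cls_sum v H hH1 hH2, sub_self]

theorem val_unitsMap {M N p : ℕ} (hNM : N ∣ M) (u : (ZMod M)ˣ) (hu : (u : ZMod M) = p) :
    ((ZMod.unitsMap hNM u : (ZMod N)ˣ) : ZMod N) = p := by
  rw [ZMod.unitsMap_val, hu, ZMod.cast_natCast hNM]

theorem unitsMap_unitsMap {M N d : ℕ} (hNM : N ∣ M) (hdN : d ∣ N) (hdM : d ∣ M)
    (g : (ZMod M)ˣ) : ZMod.unitsMap hdN (ZMod.unitsMap hNM g) = ZMod.unitsMap hdM g := by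
  have h := ZMod.unitsMap_comp hdN hNM
  exact DFunLike.congr_fun h g

/-- multiples of the relation -/
theorem theta_mul (hB : StBasic) {M N p f : ℕ} [NeZero M] (hM : 1 < M) (hf : 0 < f)
    (hp : (p : ZMod M) ^ f = 1) (u : (ZMod M)ˣ) (hu : (u : ZMod M) = p)
    (hneg : (-1 : (ZMod M)ˣ) ∉ Subgroup.zpowers u) (hNM : N ∣ M) (ν : (ZMod N)ˣ → ℤ)
    (c : (ZMod M)ˣ → ℤ) (n : ℤ) (hc : ∀ g, DD u c g = n * ν (ZMod.unitsMap hNM g)) :
    ∑ g, c g • E M p f (g : ZMod M) =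
      n • ∑ g, (xr u g * ν (ZMod.unitsMap hNM g)) • E M p f (g : ZMod M) := by
  rw [phi_rep hB hM hf hp u hu hneg c, ← zsmul_sum']
  refine Finset.sum_congr rfl fun g _ => ?_
  rw [hc, ← mul_zsmul']
  congr 1
  ring

/-- the relation, without the factor -/
theorem theta_zero (hB : StBasic) {p f k₀ : ℕ} (hl : l.Prime) (hr : r.Prime)
    (hc : Nat.Coprime (l ^ (k + 1)) (r ^ (k' + 1))) (hf : 0 < f)
    (hp : (p : ZMod (l ^ (k + 1) * r ^ (k' + 1))) ^ f = 1)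
    (u : (ZMod (l ^ (k + 1) * r ^ (k' + 1)))ˣ)
    (hu : (u : ZMod (l ^ (k + 1) * r ^ (k' + 1))) = p)
    (hk : k₀ ≤ k) (hd : l ^ (k₀ + 1) ∣ l ^ (k + 1) * r ^ (k' + 1)) (hdL : l ^ (k₀ + 1) ∣ l ^ (k + 1))
    (hneg : (-1 : (ZMod (l ^ (k₀ + 1)))ˣ) ∉ Subgroup.zpowers (ZMod.unitsMap hd u))
    (ν : (ZMod (l ^ (k₀ + 1)))ˣ → ℤ) (hν1 : ∀ y, ν (-y) = -ν y)
    (hν2 : ∀ y, ν (ZMod.unitsMap hd u * y) = ν y)
    (hν3 : ∀ y, ν (ZMod.unitsMap hdL (rho hc) * y) = ν y)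
    (hbase : kk (dvd_mul_right (l ^ (k + 1)) (r ^ (k' + 1))) u = 1 ∨
      LP (l ^ (k₀ + 1) * r ^ (k' + 1)) p f) :
    ∑ g, (xr u g * ν (ZMod.unitsMap hd g)) • E (l ^ (k + 1) * r ^ (k' + 1)) p f
      (g : ZMod (l ^ (k + 1) * r ^ (k' + 1))) = 0 := by
  classical
  have hM : 1 < l ^ (k + 1) * r ^ (k' + 1) :=
    Nat.one_lt_mul_iff.mpr ⟨pow_pos hl.pos _, pow_pos hr.pos _,
      Or.inl (Nat.one_lt_pow (Nat.succ_ne_zero k) hl.one_lt)⟩
  have hF := E_isD hB hM hf hp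
  have hnegM : (-1 : (ZMod (l ^ (k + 1) * r ^ (k' + 1)))ˣ) ∉ Subgroup.zpowers u := by
    intro h
    apply hneg
    have h1 := zz_of_map hd u (-1) h
    rwa [unitsMap_neg, map_one] at h1
  have hnegL : (-1 : (ZMod (l ^ (k + 1)))ˣ) ∉ Subgroup.zpowers
      (ZMod.unitsMap (dvd_mul_right (l ^ (k + 1)) (r ^ (k' + 1))) u) := by
    intro h
    apply hneg
    have h1 := zz_of_map hdL _ (-1) h
    rwa [unitsMap_neg, map_one, unitsMap_unitsMap _ _ hd] at h1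
  set hL := dvd_mul_right (l ^ (k + 1)) (r ^ (k' + 1)) with hhL
  set θ := ∑ g, (xr u g * ν (ZMod.unitsMap hd g)) • E (l ^ (k + 1) * r ^ (k' + 1)) p f
      (g : ZMod (l ^ (k + 1) * r ^ (k' + 1))) with hθ
  have hLd : ∀ g, ZMod.unitsMap hdL (ZMod.unitsMap hL g) = ZMod.unitsMap hd g :=
    fun g => unitsMap_unitsMap hL hdL hd g
  -- the factor `k_R`
  have h1 : (kk hL u : ℤ) • θ = 0 := by
    have e1 := dd_pull hL u hnegL (fun y => ν (ZMod.unitsMap hdL y))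
      (fun y => by rw [unitsMap_neg, hν1]) (fun y => by rw [map_mul, hLd, hν2])
    have e2 := theta_mul hB hM hf hp u hu hnegM hd ν _ (kk hL u : ℤ) (fun g => by
      rw [e1 g, hLd])
    rw [← hθ] at e2
    rw [← e2]
    exact rel_kR hr hc hF _ (val_unitsMap hL u hu) (fun y => ν (ZMod.unitsMap hdL y))
      (fun y => by rw [unitsMap_neg, hν1]) (fun y => by rw [map_mul, hLd, hν2])
      (fun y => by rw [map_mul, hν3])
  rcases hbase with hb | hLP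
  · rw [hb, Nat.cast_one, one_smul] at h1
    exact h1
  -- the lower level
  have : NeZero (l ^ (k₀ + 1)) := ⟨pow_ne_zero _ hl.ne_zero⟩
  have : NeZero (l ^ (k₀ + 1) * r ^ (k' + 1)) :=
    ⟨mul_ne_zero (pow_ne_zero _ hl.ne_zero) (pow_ne_zero _ hr.ne_zero)⟩
  have hm : l ^ (k₀ + 1) * r ^ (k' + 1) ∣ l ^ (k + 1) * r ^ (k' + 1) :=
    Nat.mul_dvd_mul_right hdL _
  have hm1 : 1 < l ^ (k₀ + 1) * r ^ (k' + 1) :=
    Nat.one_lt_mul_iff.mpr ⟨pow_pos hl.pos _, pow_pos hr.pos _,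
      Or.inl (Nat.one_lt_pow (Nat.succ_ne_zero k₀) hl.one_lt)⟩
  have hc₀ : Nat.Coprime (l ^ (k₀ + 1)) (r ^ (k' + 1)) := hc.coprime_dvd_left hdL
  have hpm : (p : ZMod (l ^ (k₀ + 1) * r ^ (k' + 1))) ^ f = 1 := by
    have h2 := congrArg (ZMod.castHom hm (ZMod (l ^ (k₀ + 1) * r ^ (k' + 1)))) hp
    rwa [map_pow, map_natCast, map_one] at h2
  set u₀ := ZMod.unitsMap hm u with hu₀
  have hu₀' := val_unitsMap hm u hu
  rw [← hu₀] at hu₀'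
  set hL₀ := dvd_mul_right (l ^ (k₀ + 1)) (r ^ (k' + 1)) with hhL₀
  have hmd : ∀ g, ZMod.unitsMap hL₀ (ZMod.unitsMap hm g) = ZMod.unitsMap hd g :=
    fun g => unitsMap_unitsMap hm hL₀ hd g
  have hneg₀L : (-1 : (ZMod (l ^ (k₀ + 1)))ˣ) ∉ Subgroup.zpowers (ZMod.unitsMap hL₀ u₀) := by
    rw [hu₀, hmd]
    exact hneg
  have hneg₀ : (-1 : (ZMod (l ^ (k₀ + 1) * r ^ (k' + 1)))ˣ) ∉ Subgroup.zpowers u₀ := by
    intro h
    apply hneg₀L
    have h2 := zz_of_map hL₀ u₀ (-1) h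
    rwa [unitsMap_neg, map_one] at h2
  have hF₀ := E_isD hB hm1 hf hpm
  have hν2' : ∀ y, ν (ZMod.unitsMap hL₀ u₀ * y) = ν y := by
    intro y
    rw [hu₀, hmd]
    exact hν2 y
  have hρ₀ : ZMod.unitsMap hdL (rho hc) = rho hc₀ := by
    apply Units.ext
    rw [ZMod.unitsMap_val, rho, rho, ZMod.coe_unitOfCoprime, ZMod.coe_unitOfCoprime,
      ZMod.cast_natCast hdL]
  -- balanced at the lower level
  let w₀ : ZMod (l ^ (k₀ + 1) * r ^ (k' + 1)) → ℤ :=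
    Phi (fun g => xr u₀ g * ν (ZMod.unitsMap hL₀ g))
  have hw₀0 : w₀ 0 = 0 := by
    change (∑ g : (ZMod (l ^ (k₀ + 1) * r ^ (k' + 1)))ˣ, (xr u₀ g * ν (ZMod.unitsMap hL₀ g)) •
      (ev (g : ZMod (l ^ (k₀ + 1) * r ^ (k' + 1))) :
        ZMod (l ^ (k₀ + 1) * r ^ (k' + 1)) → ℤ)) 0 = 0
    rw [Finset.sum_apply]
    refine Finset.sum_eq_zero fun g _ => ?_
    have h2 : (ev (g : ZMod (l ^ (k₀ + 1) * r ^ (k' + 1))) :
        ZMod (l ^ (k₀ + 1) * r ^ (k' + 1)) → ℤ) 0 = 0 :=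
      Pi.single_eq_of_ne (unit_ne hm1 g).symm _
    rw [Pi.smul_apply, h2, smul_zero]
  have hmk₀ : ∀ c : (ZMod (l ^ (k₀ + 1) * r ^ (k' + 1)))ˣ → ℤ,
      (QuotientAddGroup.mk (Phi c) : QA (l ^ (k₀ + 1) * r ^ (k' + 1)) p f) =
      ∑ g, c g • E (l ^ (k₀ + 1) * r ^ (k' + 1)) p f
        (g : ZMod (l ^ (k₀ + 1) * r ^ (k' + 1))) := by
    intro c
    unfold Phi
    rw [mk_sum]
    refine Finset.sum_congr rfl fun g _ => ?_
    rw [E_of (unit_ne hm1 g)]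
    rfl
  have h2 : (kk hL₀ u₀ : ℤ) • (QuotientAddGroup.mk w₀ :
      QA (l ^ (k₀ + 1) * r ^ (k' + 1)) p f) = 0 := by
    have e1 := dd_pull hL₀ u₀ hneg₀L ν hν1 hν2'
    have e2 := theta_mul hB hm1 hf hpm u₀ hu₀' hneg₀ hL₀ ν _ (kk hL₀ u₀ : ℤ) e1
    rw [← hmk₀] at e2
    change (kk hL₀ u₀ : ℤ) • (QuotientAddGroup.mk (Phi fun g => xr u₀ g *
      ν (ZMod.unitsMap hL₀ g)) : QA (l ^ (k₀ + 1) * r ^ (k' + 1)) p f) = 0
    rw [hmk₀, ← e2, hmk₀]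
    exact rel_kR hr hc₀ hF₀ _ (val_unitsMap hL₀ u₀ hu₀') ν hν1 hν2'
      (fun y => by rw [← hρ₀]; exact hν3 y)
  have hw₀b : ∀ t : (ZMod (l ^ (k₀ + 1) * r ^ (k' + 1)))ˣ,
      pair (l ^ (k₀ + 1) * r ^ (k' + 1)) p f t w₀ = 0 := by
    intro t
    have h3 : ((kk hL₀ u₀ : ℤ) • w₀) ∈ WS (l ^ (k₀ + 1) * r ^ (k' + 1)) p f := by
      rw [← mk_zero]
      exact h2
    have h4 := pair_ws hB hm1 hf hpm t h3
    rw [map_zsmul, smul_eq_mul] at h4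
    rcases mul_eq_zero.mp h4 with h5 | h5
    · exfalso
      have h6 : kk hL₀ u₀ = 0 := by exact_mod_cast h5
      unfold kk at h6
      rw [Finset.card_eq_zero] at h6
      have h7 : (1 : (ZMod (l ^ (k₀ + 1) * r ^ (k' + 1)))ˣ) ∈ (ZZ u₀).filter
          (fun h => ZMod.unitsMap hL₀ h = 1) := by
        rw [mem_filter, mem_zz]
        exact ⟨one_mem _, map_one _⟩
      rw [h6] at h7
      exact absurd h7 (Finset.notMem_empty _)
    · exact h5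
  have hw₀W := ws_of_bal hB hm1 hf hpm hLP hw₀0 hw₀b
  -- the push to the level `M`
  have h3 : (kk hm u : ℤ) • θ = 0 := by
    have e0 := push_rel (M := l ^ (k + 1) * r ^ (k' + 1)) hm hw₀0 hw₀W
    have hpr : ∀ q : ℕ, q.Prime → q ∣ l ^ (k + 1) * r ^ (k' + 1) →
        q ∣ l ^ (k₀ + 1) * r ^ (k' + 1) := by
      intro q hq hqM
      rcases (hq.dvd_mul).mp hqM with h4 | h4
      · have h5 := hq.dvd_of_dvd_pow h4
        exact (h5.trans (dvd_pow_self l (Nat.succ_ne_zero k₀))).trans (dvd_mul_right _ _)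
      · exact h4.trans (dvd_mul_left _ _)
    have hneg₀' : (-1 : (ZMod (l ^ (k₀ + 1) * r ^ (k' + 1)))ˣ) ∉
        Subgroup.zpowers (ZMod.unitsMap hm u) := by rw [← hu₀]; exact hneg₀
    have e1 := dd_pull hm u hneg₀' (fun y => ν (ZMod.unitsMap hL₀ y))
      (fun y => by rw [unitsMap_neg, hν1]) (fun y => by rw [map_mul, hmd, hν2])
    have e2 := theta_mul hB hM hf hp u hu hnegM hd ν _ (kk hm u : ℤ) (fun g => by
      rw [e1 g, hmd])
    rw [← hθ] at e2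
    rw [← e2]
    -- the sum over the fibres
    have e3 : ∑ y, w₀ y • E (l ^ (k + 1) * r ^ (k' + 1)) p f
        (inc (l ^ (k + 1) * r ^ (k' + 1)) (l ^ (k₀ + 1) * r ^ (k' + 1)) y) =
        ∑ g₀ : (ZMod (l ^ (k₀ + 1) * r ^ (k' + 1)))ˣ, (xr u₀ g₀ * ν (ZMod.unitsMap hL₀ g₀)) •
          E (l ^ (k + 1) * r ^ (k' + 1)) p f
            (inc (l ^ (k + 1) * r ^ (k' + 1)) (l ^ (k₀ + 1) * r ^ (k' + 1)) g₀) := by
      have e4 : ∀ y, w₀ y = ∑ g₀ : (ZMod (l ^ (k₀ + 1) * r ^ (k' + 1)))ˣ,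
          (xr u₀ g₀ * ν (ZMod.unitsMap hL₀ g₀)) *
            (if y = (g₀ : ZMod (l ^ (k₀ + 1) * r ^ (k' + 1))) then 1 else 0) := by
        intro y
        change (∑ g : (ZMod (l ^ (k₀ + 1) * r ^ (k' + 1)))ˣ,
          (xr u₀ g * ν (ZMod.unitsMap hL₀ g)) •
          (ev (g : ZMod (l ^ (k₀ + 1) * r ^ (k' + 1))) :
            ZMod (l ^ (k₀ + 1) * r ^ (k' + 1)) → ℤ)) y = _
        rw [Finset.sum_apply]
        refine Finset.sum_congr rfl fun g _ => ?_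
        have h8 : (ev (g : ZMod (l ^ (k₀ + 1) * r ^ (k' + 1))) :
            ZMod (l ^ (k₀ + 1) * r ^ (k' + 1)) → ℤ) y =
            if y = (g : ZMod (l ^ (k₀ + 1) * r ^ (k' + 1))) then 1 else 0 :=
          Pi.single_apply _ _ _
        rw [Pi.smul_apply, smul_eq_mul, h8]
      have e5 : ∀ y, w₀ y • E (l ^ (k + 1) * r ^ (k' + 1)) p f
          (inc (l ^ (k + 1) * r ^ (k' + 1)) (l ^ (k₀ + 1) * r ^ (k' + 1)) y) =
          ∑ g₀ : (ZMod (l ^ (k₀ + 1) * r ^ (k' + 1)))ˣ,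
          ((xr u₀ g₀ * ν (ZMod.unitsMap hL₀ g₀)) *
            (if y = (g₀ : ZMod (l ^ (k₀ + 1) * r ^ (k' + 1))) then 1 else 0)) •
          E (l ^ (k + 1) * r ^ (k' + 1)) p f
          (inc (l ^ (k + 1) * r ^ (k' + 1)) (l ^ (k₀ + 1) * r ^ (k' + 1)) y) := by
        intro y
        rw [e4, sum_zsmul']
      rw [Finset.sum_congr rfl fun y _ => e5 y, Finset.sum_comm]
      refine Finset.sum_congr rfl fun g₀ _ => ?_
      rw [Finset.sum_eq_single (g₀ : ZMod (l ^ (k₀ + 1) * r ^ (k' + 1)))]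
      · rw [if_pos rfl, mul_one]
      · intro b _ hb
        rw [if_neg hb, mul_zero, zero_smul]
      · intro h
        exact absurd (mem_univ _) h
    rw [e3] at e0
    rw [← e0, ← Finset.sum_fiberwise univ (fun g : (ZMod (l ^ (k + 1) * r ^ (k' + 1)))ˣ =>
      ZMod.unitsMap hm g)]
    refine Finset.sum_congr rfl fun g₀ _ => ?_
    rw [fiber hF hm hpr g₀, ← zsmul_sum']
    refine Finset.sum_congr rfl fun g hg => ?_
    rw [mem_filter] at hg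
    rw [← hg.2]
  -- Bezout
  have hcop : Nat.Coprime (kk hL u) (kk hm u) := by
    refine kk_coprime hL hm (fun g hg1 hg2 => ?_) u
    have h4 : (cu hc g) = 1 := by
      refine Prod.ext ?_ ?_
      · rw [cu_fst hc]
        exact hg1
      · rw [cu_snd hc]
        have h5 := unitsMap_unitsMap hm (dvd_mul_left (r ^ (k' + 1)) (l ^ (k₀ + 1)))
          (dvd_mul_left (r ^ (k' + 1)) (l ^ (k + 1))) g
        rw [← h5, hg2, map_one]
        rfl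
    have h5 := congrArg (cu hc).symm h4
    rwa [MulEquiv.symm_apply_apply, map_one] at h5
  have hbez := Nat.gcd_eq_gcd_ab (kk hL u) (kk hm u)
  rw [hcop] at hbez
  exact bezout' h1 h3 (by exact_mod_cast hbez)

/-- the case that `-1` is not in `⟨p, r⟩` -/
theorem tp_plus (hB : StBasic) (hR : StRank) {p f k₀ : ℕ} (hl : l.Prime) (hr : r.Prime)
    (hc : Nat.Coprime (l ^ (k + 1)) (r ^ (k' + 1))) (hf : 0 < f)
    (hp : (p : ZMod (l ^ (k + 1) * r ^ (k' + 1))) ^ f = 1)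
    (u : (ZMod (l ^ (k + 1) * r ^ (k' + 1)))ˣ)
    (hu : (u : ZMod (l ^ (k + 1) * r ^ (k' + 1))) = p)
    (hk : k₀ ≤ k) (hd : l ^ (k₀ + 1) ∣ l ^ (k + 1) * r ^ (k' + 1)) (hdL : l ^ (k₀ + 1) ∣ l ^ (k + 1))
    (hneg : (-1 : (ZMod (l ^ (k₀ + 1)))ˣ) ∉ Subgroup.zpowers (ZMod.unitsMap hd u))
    (ν : (ZMod (l ^ (k₀ + 1)))ˣ → ℤ) (hν0 : ν 1 = 1) (hν1 : ∀ y, ν (-y) = -ν y)
    (hν2 : ∀ y, ν (ZMod.unitsMap hd u * y) = ν y)
    (hν3 : ∀ y, ν (ZMod.unitsMap hdL (rho hc) * y) = ν y)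
    (hbase : kk (dvd_mul_right (l ^ (k + 1)) (r ^ (k' + 1))) u = 1 ∨
      LP (l ^ (k₀ + 1) * r ^ (k' + 1)) p f)
    (hgen : ∀ H : Subgroup (ZMod (l ^ (k + 1)))ˣ, -1 ∈ H →
      ZMod.unitsMap (dvd_mul_right (l ^ (k + 1)) (r ^ (k' + 1))) u ∈ H → rho hc ∈ H → H = ⊤)
    (hright : ∀ z : (ZMod (r ^ (k' + 1)))ˣ,
      F2 hc (E (l ^ (k + 1) * r ^ (k' + 1)) p f) 0 z ∈
        TT (l ^ (k + 1) * r ^ (k' + 1)) (E (l ^ (k + 1) * r ^ (k' + 1)) p f) ⊔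
        AddSubgroup.zmultiples (F2 hc (E (l ^ (k + 1) * r ^ (k' + 1)) p f) 1 0)) :
    LP (l ^ (k + 1) * r ^ (k' + 1)) p f := by
  have hM : 1 < l ^ (k + 1) * r ^ (k' + 1) :=
    Nat.one_lt_mul_iff.mpr ⟨pow_pos hl.pos _, pow_pos hr.pos _,
      Or.inl (Nat.one_lt_pow (Nat.succ_ne_zero k) hl.one_lt)⟩
  have hF := E_isD hB hM hf hp
  have hnegM : (-1 : (ZMod (l ^ (k + 1) * r ^ (k' + 1)))ˣ) ∉ Subgroup.zpowers u := by
    intro h
    apply hneg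
    have h1 := zz_of_map hd u (-1) h
    rwa [unitsMap_neg, map_one] at h1
  have hθ := theta_zero hB hl hr hc hf hp u hu hk hd hdL hneg ν hν1 hν2 hν3 hbase
  refine crit2 hB hR hM hf hp u hu hnegM
    (F2 hc (E (l ^ (k + 1) * r ^ (k' + 1)) p f) 1 0) (fun x => ?_)
    (fun g => xr u g * ν (ZMod.unitsMap hd g)) ?_ 1 ?_
  · refine all_mem hl hr hc hF _ le_sup_left (fun y => ?_) hright x
    have h1 := orbit_left hr hc (hF.two hc) (TT (l ^ (k + 1) * r ^ (k' + 1))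
      (E (l ^ (k + 1) * r ^ (k' + 1)) p f)) (fun y z => units_mem hc _ y z) _
      (val_unitsMap (dvd_mul_right (l ^ (k + 1)) (r ^ (k' + 1))) u hu) hgen y 1
    rw [Units.val_one] at h1
    exact h1
  · rw [hθ]
    exact zero_mem _
  · rw [dd_self u hnegM (fun g => ν (ZMod.unitsMap hd g)) (fun y => by rw [unitsMap_neg, hν1])
      (fun y => by rw [map_mul, hν2]), map_one, hν0]

/-- the case that `-1` is a power of `p` modulo `l ^ (k + 1)` -/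
theorem tp_ss (hB : StBasic) (hR : StRank) {p f : ℕ} (hl : l.Prime) (hr : r.Prime)
    (hc : Nat.Coprime (l ^ (k + 1)) (r ^ (k' + 1))) (hf : 0 < f)
    (hp : (p : ZMod (l ^ (k + 1) * r ^ (k' + 1))) ^ f = 1)
    (u : (ZMod (l ^ (k + 1) * r ^ (k' + 1)))ˣ)
    (hu : (u : ZMod (l ^ (k + 1) * r ^ (k' + 1))) = p)
    (hneg : (-1 : (ZMod (l ^ (k + 1) * r ^ (k' + 1)))ˣ) ∉ Subgroup.zpowers u)
    (hleft : ∀ y : (ZMod (l ^ (k + 1)))ˣ,
      F2 hc (E (l ^ (k + 1) * r ^ (k' + 1)) p f) y 0 = 0)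
    (hright : ∀ z : (ZMod (r ^ (k' + 1)))ˣ,
      F2 hc (E (l ^ (k + 1) * r ^ (k' + 1)) p f) 0 z ∈
        TT (l ^ (k + 1) * r ^ (k' + 1)) (E (l ^ (k + 1) * r ^ (k' + 1)) p f)) :
    LP (l ^ (k + 1) * r ^ (k' + 1)) p f := by
  have hM : 1 < l ^ (k + 1) * r ^ (k' + 1) :=
    Nat.one_lt_mul_iff.mpr ⟨pow_pos hl.pos _, pow_pos hr.pos _,
      Or.inl (Nat.one_lt_pow (Nat.succ_ne_zero k) hl.one_lt)⟩
  have hF := E_isD hB hM hf hp
  refine crit1 hB hR hM hf hp u hu hneg fun x => ?_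
  refine all_mem hl hr hc hF _ le_rfl (fun y => ?_) hright x
  rw [hleft y]
  exact zero_mem _

end

end TP

end Pool.Agent.Lib.MP81632f.Diag
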