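import Pool.Agent.Lib.MP_81632f_ag.Diag.TPg

/-!
# Two primes: the right component
-/

set_option autoImplicit false

noncomputable section

namespace Pool.Agent.Lib.MP81632f.Diag

open Finset

namespace TP

open Crit Two New Push
open Red (ev)

section Tau

variable {M : ℕ} [NeZero M] {p f : ℕ}

/-- relations from balanced sets of a lower level -/
theorem tau_rel {m : ℕ} [NeZero m] (hmM : m ∣ M) (hLP : LP m p f) (hf : 0 < f)
    (hpm : (p : ZMod m) ^ f = 1) (a b c d : ZMod m) (ha : a ≠ 0) (hb : b ≠ 0) (hc : c ≠ 0)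
    (hd : d ≠ 0) (hbal : ∀ t : ZMod m, Nat.Coprime t.val m →
      (t * a).val + (t * b).val + (t * c).val + (t * d).val = 2 * m) :
    E M p f (inc M m a) + E M p f (inc M m b) + E M p f (inc M m c) + E M p f (inc M m d) = 0 := by
  have h1 : cnt ({a, b, c, d} : Multiset (ZMod m)) ∈ Sub m p f := by
    refine hLP _ ?_ ?_ ?_
    · simp only [Multiset.insert_eq_cons, Multiset.mem_cons, Multiset.mem_singleton]
      rintro (h | h | h | h)
      · exact ha h.symm
      · exact hb h.symm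
      · exact hc h.symm
      · exact hd h.symm
    · intro t
      have h2 : ∀ x, saw m p f (t : ZMod m) x =
          ∑ j ∈ range f, (2 * (((p : ZMod m) ^ j * t * x).val : ℤ) - (m : ℤ)) := fun x => rfl
      simp only [Multiset.insert_eq_cons, Multiset.map_cons, Multiset.map_singleton,
        Multiset.sum_cons, Multiset.sum_singleton, h2]
      rw [← Finset.sum_add_distrib, ← Finset.sum_add_distrib, ← Finset.sum_add_distrib]
      refine Finset.sum_eq_zero fun j _ => ?_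
      have h3 : Nat.Coprime ((p : ZMod m) ^ j * t).val m := by
        have h4 : IsUnit ((p : ZMod m) ^ j * (t : ZMod m)) :=
          ((IsUnit.of_pow_eq_one hpm hf.ne').pow j).mul t.isUnit
        have h5 : (p : ZMod m) ^ j * (t : ZMod m) =
            ((((p : ZMod m) ^ j * (t : ZMod m)).val : ℕ) : ZMod m) :=
          (ZMod.natCast_zmod_val _).symm
        rw [h5] at h4
        exact (ZMod.isUnit_iff_coprime _ _).mp h4
      have h4 := hbal _ h3
      have h5 : (((((p : ZMod m) ^ j * t * a).val : ℕ) : ℤ)) + (((p : ZMod m) ^ j * t * b).val : ℤ) +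
          (((p : ZMod m) ^ j * t * c).val : ℤ) + (((p : ZMod m) ^ j * t * d).val : ℤ) =
          2 * (m : ℤ) := by exact_mod_cast h4
      linarith
    · exact ⟨2, rfl⟩
  have h2 : cnt ({a, b, c, d} : Multiset (ZMod m)) = ev a + (ev b + (ev c + ev d)) := by
    have h3 : ({a, b, c, d} : Multiset (ZMod m)) = {a} + ({b} + ({c} + {d})) := rfl
    rw [h3, Basic.cnt_add, Basic.cnt_add, Basic.cnt_add, Basic.cnt_singleton,
      Basic.cnt_singleton, Basic.cnt_singleton, Basic.cnt_singleton]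
  have h3 := push_sub (M := M) hmM h1
  rw [h2, map_add, map_add, map_add, push_ev, push_ev, push_ev, push_ev] at h3
  have h4 : (QuotientAddGroup.mk (ev (inc M m a) + (ev (inc M m b) + (ev (inc M m c) +
      ev (inc M m d)))) : QA M p f) = 0 := by
    rw [mk_zero]
    exact (le_sup_left : Sub M p f ≤ _) h3
  rw [E_of (inc_ne hmM ha), E_of (inc_ne hmM hb), E_of (inc_ne hmM hc), E_of (inc_ne hmM hd)]
  rw [← h4, add_assoc, add_assoc]
  rfl

end Tau

section

variable {l r k k' : ℕ} [NeZero (l ^ (k + 1))] [NeZero (r ^ (k' + 1))]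
  [NeZero (l ^ (k + 1) * r ^ (k' + 1))]

/-- supersingular right components -/
theorem right_ss {p f : ℕ} (hc : Nat.Coprime (l ^ (k + 1)) (r ^ (k' + 1))) (hf : 0 < f)
    (hp : (p : ZMod (l ^ (k + 1) * r ^ (k' + 1))) ^ f = 1) (hneg : NegPow p (r ^ (k' + 1)))
    (z : ZMod (r ^ (k' + 1))) : F2 hc (E (l ^ (k + 1) * r ^ (k' + 1)) p f) 0 z = 0 := by
  by_cases hz : z = 0
  · rw [hz]
    have h1 : ((0, 0) : ZMod (l ^ (k + 1)) × ZMod (r ^ (k' + 1))) = 0 := rfl
    change E (l ^ (k + 1) * r ^ (k' + 1)) p f ((ZMod.chineseRemainder hc).symm (0, 0)) = 0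
    rw [h1, map_zero, E_zero]
  · refine E_ss (ss_of_negPow hf hp hneg ?_ ?_)
    · intro h
      have h1 := congrArg (ZMod.chineseRemainder hc) h
      rw [RingEquiv.apply_symm_apply, map_zero] at h1
      exact hz (congrArg Prod.snd h1)
    · rw [← map_nsmul]
      have h1 : (r ^ (k' + 1)) • ((0, z) : ZMod (l ^ (k + 1)) × ZMod (r ^ (k' + 1))) = 0 := by
        rw [Prod.smul_mk, smul_zero, nsmul_eq_mul, ZMod.natCast_self, zero_mul]
        rfl
      rw [h1, map_zero]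

/-- supersingular left components -/
theorem left_ss {p f : ℕ} (hc : Nat.Coprime (l ^ (k + 1)) (r ^ (k' + 1))) (hf : 0 < f)
    (hp : (p : ZMod (l ^ (k + 1) * r ^ (k' + 1))) ^ f = 1) (hneg : NegPow p (l ^ (k + 1)))
    (z : ZMod (l ^ (k + 1))) : F2 hc (E (l ^ (k + 1) * r ^ (k' + 1)) p f) z 0 = 0 := by
  by_cases hz : z = 0
  · rw [hz]
    have h1 : ((0, 0) : ZMod (l ^ (k + 1)) × ZMod (r ^ (k' + 1))) = 0 := rfl
    change E (l ^ (k + 1) * r ^ (k' + 1)) p f ((ZMod.chineseRemainder hc).symm (0, 0)) = 0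
    rw [h1, map_zero, E_zero]
  · refine E_ss (ss_of_negPow hf hp hneg ?_ ?_)
    · intro h
      have h1 := congrArg (ZMod.chineseRemainder hc) h
      rw [RingEquiv.apply_symm_apply, map_zero] at h1
      exact hz (congrArg Prod.fst h1)
    · rw [← map_nsmul]
      have h1 : (l ^ (k + 1)) • ((z, 0) : ZMod (l ^ (k + 1)) × ZMod (r ^ (k' + 1))) = 0 := by
        rw [Prod.smul_mk, smul_zero, nsmul_eq_mul, ZMod.natCast_self, zero_mul]
        rfl
      rw [h1, map_zero]

variable {A : Type} [AddCommGroup A] {p : ℕ} {F : ZMod (l ^ (k + 1) * r ^ (k' + 1)) → A}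

/-- elements with a nonzero left component -/
theorem left_mem (hl : l.Prime) (hr : r.Prime) (hc : Nat.Coprime (l ^ (k + 1)) (r ^ (k' + 1)))
    (hF : IsD (l ^ (k + 1) * r ^ (k' + 1)) p F) (S : AddSubgroup A)
    (hT : TT (l ^ (k + 1) * r ^ (k' + 1)) F ≤ S)
    (hL : ∀ y : (ZMod (l ^ (k + 1)))ˣ, F2 hc F y 0 ∈ S)
    (x : ZMod (l ^ (k + 1) * r ^ (k' + 1)))
    (hx : ZMod.castHom (dvd_mul_right (l ^ (k + 1)) (r ^ (k' + 1))) (ZMod (l ^ (k + 1))) x ≠ 0) :
    F x ∈ S := by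
  have h2 := hF.two hc
  have hx' : x = (ZMod.chineseRemainder hc).symm (ZMod.chineseRemainder hc x) :=
    ((ZMod.chineseRemainder hc).symm_apply_apply x).symm
  rw [← crt_fst hc] at hx
  obtain ⟨y₀, hy₀⟩ : ∃ y₀, y₀ = ZMod.chineseRemainder hc x := ⟨_, rfl⟩
  rw [← hy₀] at hx hx'
  clear hy₀
  rw [hx']
  obtain ⟨y, z⟩ := y₀
  by_cases hz : z = 0
  · rw [hz]
    refine gen_left hl h2 {0} ?_ S ?_ hx (Set.mem_singleton 0)
    · rintro z hz i
      rw [Set.mem_singleton_iff] at hz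
      exact ⟨0, rfl, by rw [mul_zero, hz]⟩
    · rintro z y hy
      rw [Set.mem_singleton_iff] at hy
      rw [hy]
      exact hL z
  · exact hT (both_mem hl hr hc hF hx hz)

/-- the right components, from one of them -/
theorem right_mem (hl : l.Prime) (hr : r.Prime) (hro : Odd r)
    (hc : Nat.Coprime (l ^ (k + 1)) (r ^ (k' + 1)))
    (hF : IsD (l ^ (k + 1) * r ^ (k' + 1)) p F) (S : AddSubgroup A)
    (hT : TT (l ^ (k + 1) * r ^ (k' + 1)) F ≤ S) (v : (ZMod (r ^ (k' + 1)))ˣ)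
    (hv : (v : ZMod (r ^ (k' + 1))) = p)
    (hgen : ∀ H : Subgroup (ZMod (r ^ (k' + 1)))ˣ, v ∈ H → rho hc.symm ∈ H → H = ⊤)
    (x : ZMod (l ^ (k + 1) * r ^ (k' + 1))) (hx0 : x ≠ 0)
    (hx : ZMod.castHom (dvd_mul_right (l ^ (k + 1)) (r ^ (k' + 1))) (ZMod (l ^ (k + 1))) x = 0)
    (hxS : F x ∈ S) (z : (ZMod (r ^ (k' + 1)))ˣ) : F2 hc F 0 z ∈ S := by
  have h2 := hF.two hc
  set T := TT (l ^ (k + 1) * r ^ (k' + 1)) F with hTdef
  have horb : ∀ z z' : (ZMod (r ^ (k' + 1)))ˣ, F2 hc F 0 z - F2 hc F 0 z' ∈ T :=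
    orbit_left' hl hc.symm h2.swap T (fun z y => units_mem hc F y z) v hv hgen
  have h2T : (2 : ℤ) • F2 hc F 0 ((1 : (ZMod (r ^ (k' + 1)))ˣ) : ZMod (r ^ (k' + 1))) ∈ T := by
    have h3 := horb 1 (-1)
    have h4 := h2.neg 0 ((1 : (ZMod (r ^ (k' + 1)))ˣ) : ZMod (r ^ (k' + 1)))
    beta_reduce at h4
    rw [neg_zero] at h4
    have h5 : F2 hc F 0 ((-1 : (ZMod (r ^ (k' + 1)))ˣ) : ZMod (r ^ (k' + 1))) =
        -F2 hc F 0 ((1 : (ZMod (r ^ (k' + 1)))ˣ) : ZMod (r ^ (k' + 1))) := by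
      rw [Units.val_neg]
      exact h4
    rw [h5, sub_neg_eq_add] at h3
    rw [two_smul]
    exact h3
  set c := F2 hc F 0 ((1 : (ZMod (r ^ (k' + 1)))ˣ) : ZMod (r ^ (k' + 1))) with hcdef
  -- all nonzero right components
  have hall : ∀ z : ZMod (r ^ (k' + 1)), z ≠ 0 → F2 hc F 0 z - c ∈ T := by
    intro z hz
    obtain ⟨i, hi, z₁, rfl⟩ := exists_unit_mul hr hz
    have h3 := h2.dR (r ^ i) (pow_dvd_pow r (by omega)) 0 (z₁ : ZMod (r ^ (k' + 1)))
    beta_reduce at h3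
    rw [mul_zero] at h3
    have h4 : F2 hc F 0 (((r ^ i : ℕ) : ZMod (r ^ (k' + 1))) * z₁) =
        ∑ w ∈ univ.filter (fun w : ZMod (r ^ (k' + 1)) =>
          ((r ^ i : ℕ) : ZMod (r ^ (k' + 1))) * w = 0), F2 hc F 0 (z₁ + w) := h3.symm
    have hcard : Odd (univ.filter (fun w : ZMod (r ^ (k' + 1)) =>
          ((r ^ i : ℕ) : ZMod (r ^ (k' + 1))) * w = 0)).card := by
      let K : AddSubgroup (ZMod (r ^ (k' + 1))) :=
        { carrier := {w | ((r ^ i : ℕ) : ZMod (r ^ (k' + 1))) * w = 0}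
          zero_mem' := mul_zero _
          add_mem' := by
            intro a b ha hb
            have ha' : ((r ^ i : ℕ) : ZMod (r ^ (k' + 1))) * a = 0 := ha
            have hb' : ((r ^ i : ℕ) : ZMod (r ^ (k' + 1))) * b = 0 := hb
            change ((r ^ i : ℕ) : ZMod (r ^ (k' + 1))) * (a + b) = 0
            rw [mul_add, ha', hb', add_zero]
          neg_mem' := by
            intro a ha
            have ha' : ((r ^ i : ℕ) : ZMod (r ^ (k' + 1))) * a = 0 := ha
            change ((r ^ i : ℕ) : ZMod (r ^ (k' + 1))) * (-a) = 0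
            rw [mul_neg, ha', neg_zero] }
      have h5 : Nat.card K ∣ r ^ (k' + 1) := by
        have h6 := K.card_addSubgroup_dvd_card
        rwa [Nat.card_zmod] at h6
      have h6 : (univ.filter (fun w : ZMod (r ^ (k' + 1)) =>
          ((r ^ i : ℕ) : ZMod (r ^ (k' + 1))) * w = 0)).card = Nat.card K := by
        have h7 : Nat.card K = Nat.card {w : ZMod (r ^ (k' + 1)) //
          ((r ^ i : ℕ) : ZMod (r ^ (k' + 1))) * w = 0} := rfl
        rw [h7, Nat.card_eq_fintype_card, Fintype.card_subtype]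
      rw [h6]
      exact (hro.pow).of_dvd_nat h5
    obtain ⟨n, hn⟩ := hcard
    have h5 : F2 hc F 0 (((r ^ i : ℕ) : ZMod (r ^ (k' + 1))) * z₁) - c =
        ∑ w ∈ univ.filter (fun w : ZMod (r ^ (k' + 1)) =>
          ((r ^ i : ℕ) : ZMod (r ^ (k' + 1))) * w = 0), (F2 hc F 0 (z₁ + w) - c) +
        (n : ℤ) • (2 : ℤ) • c := by
      rw [Finset.sum_sub_distrib, Finset.sum_const, ← h4, hn]
      module
    rw [h5]
    refine add_mem (AddSubgroup.sum_mem _ fun w hw => ?_) (AddSubgroup.zsmul_mem _ h2T _)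
    rw [mem_filter] at hw
    obtain ⟨z₂, hz₂⟩ := unit_add hr z₁ hi hw.2
    rw [← hz₂]
    exact horb z₂ 1
  have hx' : x = (ZMod.chineseRemainder hc).symm (ZMod.chineseRemainder hc x) :=
    ((ZMod.chineseRemainder hc).symm_apply_apply x).symm
  rw [← crt_fst hc] at hx
  have hcS : c ∈ S := by
    obtain ⟨y₀, hy₀⟩ : ∃ y₀, y₀ = ZMod.chineseRemainder hc x := ⟨_, rfl⟩
    rw [← hy₀] at hx hx'
    have h3 : y₀.2 ≠ 0 := by
      intro h
      apply hx0
      have h4 : y₀ = 0 := Prod.ext hx h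
      rw [hx', h4, map_zero]
    have h4 := hT (hall y₀.2 h3)
    have h5 : F2 hc F 0 y₀.2 = F x := by
      have h6 : ((0 : ZMod (l ^ (k + 1))), y₀.2) = y₀ := Prod.ext hx.symm rfl
      change F ((ZMod.chineseRemainder hc).symm (0, y₀.2)) = F x
      rw [h6, ← hx']
    rw [h5] at h4
    have h6 := sub_mem hxS h4
    rwa [sub_sub_cancel] at h6
  have h3 := add_mem (hT (horb z 1)) hcS
  rwa [sub_add_cancel] at h3

end

end TP

end Pool.Agent.Lib.MP81632f.Diag
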