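import Pool.Agent.Lib.MP_81632f_ag.Diag.TPh
import Pool.Agent.Lib.MP_81632f_ag.Diag.Cov2

/-!
# Two primes: the general theorem
-/

set_option autoImplicit false

noncomputable section

namespace Pool.Agent.Lib.MP81632f.Diag

open Finset

namespace TP

open Crit Two New Push
open Red (ev)

section

variable {l r k k' : ℕ}

/-- a relation which expresses a right component by elements with a nonzero left component -/
def Tau (l r k k' p f : ℕ) [NeZero (l ^ (k + 1) * r ^ (k' + 1))] : Prop :=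
  ∃ x b c d : ZMod (l ^ (k + 1) * r ^ (k' + 1)), x ≠ 0 ∧
    ZMod.castHom (dvd_mul_right (l ^ (k + 1)) (r ^ (k' + 1))) (ZMod (l ^ (k + 1))) x = 0 ∧
    ZMod.castHom (dvd_mul_right (l ^ (k + 1)) (r ^ (k' + 1))) (ZMod (l ^ (k + 1))) b ≠ 0 ∧
    ZMod.castHom (dvd_mul_right (l ^ (k + 1)) (r ^ (k' + 1))) (ZMod (l ^ (k + 1))) c ≠ 0 ∧
    ZMod.castHom (dvd_mul_right (l ^ (k + 1)) (r ^ (k' + 1))) (ZMod (l ^ (k + 1))) d ≠ 0 ∧
    E (l ^ (k + 1) * r ^ (k' + 1)) p f x + E (l ^ (k + 1) * r ^ (k' + 1)) p f b +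
      E (l ^ (k + 1) * r ^ (k' + 1)) p f c + E (l ^ (k + 1) * r ^ (k' + 1)) p f d = 0

variable [NeZero (l ^ (k + 1))] [NeZero (r ^ (k' + 1))] [NeZero (l ^ (k + 1) * r ^ (k' + 1))]

/-- all right components, from the left components -/
theorem right_all {p f : ℕ} (hl : l.Prime) (hr : r.Prime) (hro : Odd r)
    (hc : Nat.Coprime (l ^ (k + 1)) (r ^ (k' + 1)))
    (hF : IsD (l ^ (k + 1) * r ^ (k' + 1)) p (E (l ^ (k + 1) * r ^ (k' + 1)) p f))
    (hτ : Tau l r k k' p f)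
    (S : AddSubgroup (QA (l ^ (k + 1) * r ^ (k' + 1)) p f))
    (hT : TT (l ^ (k + 1) * r ^ (k' + 1)) (E (l ^ (k + 1) * r ^ (k' + 1)) p f) ≤ S)
    (hL : ∀ y : (ZMod (l ^ (k + 1)))ˣ, F2 hc (E (l ^ (k + 1) * r ^ (k' + 1)) p f) y 0 ∈ S)
    (v : (ZMod (r ^ (k' + 1)))ˣ) (hv : (v : ZMod (r ^ (k' + 1))) = p)
    (hgen : ∀ H : Subgroup (ZMod (r ^ (k' + 1)))ˣ, v ∈ H → rho hc.symm ∈ H → H = ⊤)
    (z : (ZMod (r ^ (k' + 1)))ˣ) :
    F2 hc (E (l ^ (k + 1) * r ^ (k' + 1)) p f) 0 z ∈ S := by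
  obtain ⟨x, b, c, d, hx, hx0, hb, hc', hd, hrel⟩ := hτ
  refine right_mem hl hr hro hc hF S hT v hv hgen x hx hx0 ?_ z
  have h1 := left_mem hl hr hc hF S hT hL b hb
  have h2 := left_mem hl hr hc hF S hT hL c hc'
  have h3 := left_mem hl hr hc hF S hT hL d hd
  have h4 : E (l ^ (k + 1) * r ^ (k' + 1)) p f x = -(E (l ^ (k + 1) * r ^ (k' + 1)) p f b +
      E (l ^ (k + 1) * r ^ (k' + 1)) p f c + E (l ^ (k + 1) * r ^ (k' + 1)) p f d) := by
    rw [eq_neg_iff_add_eq_zero, ← hrel]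
    abel
  rw [h4]
  exact neg_mem (add_mem (add_mem h1 h2) h3)

omit [NeZero (l ^ (k + 1))] [NeZero (r ^ (k' + 1))] [NeZero (l ^ (k + 1) * r ^ (k' + 1))] in
/-- generators -/
theorem gen_of {N : ℕ} [NeZero N] {p q : ℕ} (v w : (ZMod N)ˣ) (hv : (v : ZMod N) = p)
    (hw : (w : ZMod N) = q) (hg : Gn.Gens N {p, q, N - 1}) (H : Subgroup (ZMod N)ˣ)
    (h1 : -1 ∈ H) (h2 : v ∈ H) (h3 : w ∈ H) : H = ⊤ := by
  refine hg H fun a ha u hu => ?_
  rcases ha with rfl | rfl | ha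
  · have : u = v := Units.ext (by rw [hu, hv])
    rw [this]
    exact h2
  · have : u = w := Units.ext (by rw [hu, hw])
    rw [this]
    exact h3
  · rw [Set.mem_singleton_iff] at ha
    have : u = -1 := by
      apply Units.ext
      rw [hu, ha, Units.val_neg, Units.val_one, Nat.cast_sub (NeZero.pos N), ZMod.natCast_self,
        Nat.cast_one, zero_sub]
    rw [this]
    exact h1

omit [NeZero (l ^ (k + 1))] [NeZero (r ^ (k' + 1))] [NeZero (l ^ (k + 1) * r ^ (k' + 1))] in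
/-- generators -/
theorem gen_of' {N : ℕ} {p q : ℕ} (v w : (ZMod N)ˣ) (hv : (v : ZMod N) = p)
    (hw : (w : ZMod N) = q) (hg : Gn.Gens N {p, q}) (H : Subgroup (ZMod N)ˣ)
    (h2 : v ∈ H) (h3 : w ∈ H) : H = ⊤ := by
  refine hg H fun a ha u hu => ?_
  rcases ha with rfl | ha
  · have : u = v := Units.ext (by rw [hu, hv])
    rw [this]
    exact h2
  · rw [Set.mem_singleton_iff] at ha
    have : u = w := Units.ext (by rw [hu, hw, ha])
    rw [this]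
    exact h3

omit [NeZero (l ^ (k + 1))] [NeZero (r ^ (k' + 1))] [NeZero (l ^ (k + 1) * r ^ (k' + 1))] in
theorem negPow_of {N : ℕ} {p : ℕ} (v : (ZMod N)ˣ) [NeZero N] (hv : (v : ZMod N) = p) :
    (-1 : (ZMod N)ˣ) ∈ Subgroup.zpowers v ↔ NegPow p N := by
  constructor
  · intro h
    obtain ⟨n, hn⟩ := (mem_powers_iff_mem_zpowers).mpr h
    refine ⟨n, ?_⟩
    have hn' : v ^ n = -1 := hn
    have h1 := congrArg (fun z : (ZMod N)ˣ => (z : ZMod N)) hn'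
    simp only [Units.val_pow_eq_pow_val, Units.val_neg, Units.val_one] at h1
    rw [hv] at h1
    rw [← ZMod.natCast_eq_zero_iff]
    push_cast
    rw [h1]
    ring
  · rintro ⟨n, hn⟩
    rw [← ZMod.natCast_eq_zero_iff] at hn
    push_cast at hn
    have h1 : v ^ n = -1 := by
      apply Units.ext
      rw [Units.val_pow_eq_pow_val, hv, Units.val_neg, Units.val_one]
      linear_combination hn
    rw [← h1]
    exact ⟨n, by simp⟩

omit [NeZero (l ^ (k + 1))] [NeZero (r ^ (k' + 1))] [NeZero (l ^ (k + 1) * r ^ (k' + 1))] in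
theorem minus_of {N : ℕ} [NeZero N] {p q : ℕ} (v w : (ZMod N)ˣ) (hv : (v : ZMod N) = p)
    (hw : (w : ZMod N) = q) (hg : Gn.Gens N {p, q}) :
    ∃ n : ℕ, ∃ h ∈ Subgroup.zpowers v, w ^ n = -h := by
  have h1 : Subgroup.closure ({v, w} : Set (ZMod N)ˣ) = ⊤ :=
    gen_of' v w hv hw hg _ (Subgroup.subset_closure (by simp)) (Subgroup.subset_closure (by simp))
  have h2 : (-1 : (ZMod N)ˣ) ∈ Subgroup.closure ({v, w} : Set (ZMod N)ˣ) := by
    rw [h1]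
    exact Subgroup.mem_top _
  rw [Subgroup.mem_closure_pair] at h2
  obtain ⟨m, n, hmn⟩ := h2
  have h3 : (w ^ (-n) : (ZMod N)ˣ) ∈ Subgroup.zpowers w := ⟨-n, rfl⟩
  obtain ⟨j, hj⟩ := (mem_powers_iff_mem_zpowers).mpr h3
  refine ⟨j, v ^ m, ⟨m, rfl⟩, ?_⟩
  have hj' : w ^ j = w ^ (-n) := hj
  rw [hj', zpow_neg, inv_eq_iff_mul_eq_one]
  rw [mul_neg, mul_comm, hmn, neg_neg]

/-- the general theorem, with everything as a hypothesis for the given `f` -/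
theorem pair_lp (hB : StBasic) (hL : StLval) {p f : ℕ} (hl : l.Prime) (hr : r.Prime)
    (hro : Odd r) (hlr : l ≠ r) (hf : 0 < f)
    (hp : (p : ZMod (l ^ (k + 1) * r ^ (k' + 1))) ^ f = 1)
    (hgR : Gn.Gens (r ^ (k' + 1)) {p, l})
    (hgL : Gn.Gens (l ^ (k + 1)) {p, r, l ^ (k + 1) - 1})
    (hτ : Tau l r k k' p f)
    (hsign : (Gn.Gens (l ^ (k + 1)) {p, r} ∧ ∃ k0 : ℕ, Odd k0 ∧ ∀ j : ℕ,
        (p : ZMod (l ^ (k + 1))) ^ j = 1 → (p : ZMod (l ^ (k + 1) * r ^ (k' + 1))) ^ (k0 * j) = 1) ∨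
      NegPow p (l ^ (k + 1)) ∨
      ∃ k₀ ≤ k, ∃ ν : ZMod (l ^ (k₀ + 1)) → ℤ, ν 1 = 1 ∧ (∀ y, ν (-y) = -ν y) ∧
        (∀ y, ν (p * y) = ν y) ∧ (∀ y, ν (r * y) = ν y) ∧
        LP (l ^ (k₀ + 1) * r ^ (k' + 1)) p f) :
    LP (l ^ (k + 1) * r ^ (k' + 1)) p f := by
  have hRk := stRank hL
  have hcop : Nat.Coprime l r := (Nat.coprime_primes hl hr).mpr hlr
  have hc : Nat.Coprime (l ^ (k + 1)) (r ^ (k' + 1)) := Nat.Coprime.pow _ _ hcop
  have hM : 1 < l ^ (k + 1) * r ^ (k' + 1) :=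
    Nat.one_lt_mul_iff.mpr ⟨pow_pos hl.pos _, pow_pos hr.pos _,
      Or.inl (Nat.one_lt_pow (Nat.succ_ne_zero k) hl.one_lt)⟩
  by_cases hA : NegPow p (l ^ (k + 1)) ∧ NegPow p (r ^ (k' + 1))
  · exact stTwo hB hRk _ p f hM hf hp l r (k + 1) (k' + 1) hl hr hlr (Or.inl rfl) hA.1 hA.2
  obtain ⟨u, hu⟩ := exists_unit hf hp
  have hF := E_isD hB hM hf hp
  have hvL : ((ZMod.unitsMap (dvd_mul_right (l ^ (k + 1)) (r ^ (k' + 1))) u :
      (ZMod (l ^ (k + 1)))ˣ) : ZMod (l ^ (k + 1))) = p := by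
    rw [ZMod.unitsMap_val, hu, ZMod.cast_natCast (dvd_mul_right (l ^ (k + 1)) (r ^ (k' + 1)))]
  have hvR : ((ZMod.unitsMap (dvd_mul_left (r ^ (k' + 1)) (l ^ (k + 1))) u :
      (ZMod (r ^ (k' + 1)))ˣ) : ZMod (r ^ (k' + 1))) = p := by
    rw [ZMod.unitsMap_val, hu, ZMod.cast_natCast (dvd_mul_left (r ^ (k' + 1)) (l ^ (k + 1)))]
  have hρL : ((rho hc : (ZMod (l ^ (k + 1)))ˣ) : ZMod (l ^ (k + 1))) = r := by
    rw [rho, ZMod.coe_unitOfCoprime]
  have hρR : ((rho hc.symm : (ZMod (r ^ (k' + 1)))ˣ) : ZMod (r ^ (k' + 1))) = l := by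
    rw [rho, ZMod.coe_unitOfCoprime]
  by_cases hN : NegPow p (l ^ (k + 1))
  · -- the left components vanish
    have hNR : ¬ NegPow p (r ^ (k' + 1)) := fun h => hA ⟨hN, h⟩
    have hleft : ∀ y : (ZMod (l ^ (k + 1)))ˣ,
        F2 hc (E (l ^ (k + 1) * r ^ (k' + 1)) p f) y 0 = 0 := fun y => left_ss hc hf hp hN _
    refine tp_ss hB hRk hl hr hc hf hp u hu ?_ hleft ?_
    · intro h
      apply hNR
      rw [← negPow_of _ hvR]
      have h1 := zz_of_map (dvd_mul_left (r ^ (k' + 1)) (l ^ (k + 1))) u (-1) h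
      rwa [unitsMap_neg, map_one] at h1
    · refine right_all hl hr hro hc hF hτ _ le_rfl (fun y => ?_) _ hvR
        (gen_of' _ _ hvR hρR hgR)
      rw [hleft y]
      exact zero_mem _
  · have hneg : (-1 : (ZMod (l ^ (k + 1)))ˣ) ∉ Subgroup.zpowers
        (ZMod.unitsMap (dvd_mul_right (l ^ (k + 1)) (r ^ (k' + 1))) u) := by
      rw [negPow_of _ hvL]
      exact hN
    have hgen : ∀ H : Subgroup (ZMod (l ^ (k + 1)))ˣ, -1 ∈ H →
        ZMod.unitsMap (dvd_mul_right (l ^ (k + 1)) (r ^ (k' + 1))) u ∈ H → rho hc ∈ H → H = ⊤ :=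
      fun H h1 h2 h3 => gen_of _ _ hvL hρL hgL H h1 h2 h3
    have hright : ∀ z : (ZMod (r ^ (k' + 1)))ˣ,
        F2 hc (E (l ^ (k + 1) * r ^ (k' + 1)) p f) 0 z ∈
          TT (l ^ (k + 1) * r ^ (k' + 1)) (E (l ^ (k + 1) * r ^ (k' + 1)) p f) ⊔
          AddSubgroup.zmultiples (F2 hc (E (l ^ (k + 1) * r ^ (k' + 1)) p f) 1 0) := by
      refine right_all hl hr hro hc hF hτ _ le_sup_left (fun y => ?_) _ hvR
        (gen_of' _ _ hvR hρR hgR)
      have h1 := orbit_left hr hc (hF.two hc) (TT (l ^ (k + 1) * r ^ (k' + 1))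
        (E (l ^ (k + 1) * r ^ (k' + 1)) p f)) (fun y z => units_mem hc _ y z) _ hvL hgen y 1
      rw [Units.val_one] at h1
      exact h1
    rcases hsign with ⟨h1, h2⟩ | h1 | ⟨k₀, hk₀, ν, hν0, hν1, hν2, hν3, hbase⟩
    · exact tp_minus hB hRk hl hr hc hf hp u hu hneg (minus_of _ _ hvL hρL h1)
        (kk_odd _ u hu h2) hgen hright
    · exact absurd h1 hN
    · have hdL : l ^ (k₀ + 1) ∣ l ^ (k + 1) := pow_dvd_pow l (by omega)
      have hd : l ^ (k₀ + 1) ∣ l ^ (k + 1) * r ^ (k' + 1) := hdL.trans (dvd_mul_right _ _)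
      have hv0 : ((ZMod.unitsMap hd u : (ZMod (l ^ (k₀ + 1)))ˣ) : ZMod (l ^ (k₀ + 1))) = p := by
        rw [ZMod.unitsMap_val, hu, ZMod.cast_natCast hd]
      have hρ0 : ((ZMod.unitsMap hdL (rho hc) : (ZMod (l ^ (k₀ + 1)))ˣ) :
          ZMod (l ^ (k₀ + 1))) = r := by
        rw [ZMod.unitsMap_val, hρL, ZMod.cast_natCast hdL]
      refine tp_plus hB hRk hl hr hc hf hp u hu hk₀ hd hdL ?_
        (fun y => ν (y : ZMod (l ^ (k₀ + 1)))) ?_ ?_ ?_ ?_ (Or.inr hbase) hgen hright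
      · intro h
        obtain ⟨n, hn⟩ := (mem_powers_iff_mem_zpowers).mpr h
        have hn' : (ZMod.unitsMap hd u) ^ n = -1 := hn
        have h1 : ∀ n : ℕ, ν (((ZMod.unitsMap hd u) ^ n : (ZMod (l ^ (k₀ + 1)))ˣ) :
            ZMod (l ^ (k₀ + 1))) = 1 := by
          intro n
          induction n with
          | zero => rw [pow_zero, Units.val_one, hν0]
          | succ n ih =>
            rw [pow_succ' (ZMod.unitsMap hd u) n, Units.val_mul, hv0, hν2]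
            exact ih
        have h2 := h1 n
        rw [hn', Units.val_neg, Units.val_one, hν1, hν0] at h2
        omega
      · change ν ((1 : (ZMod (l ^ (k₀ + 1)))ˣ) : ZMod (l ^ (k₀ + 1))) = 1
        rw [Units.val_one, hν0]
      · intro y
        change ν ((-y : (ZMod (l ^ (k₀ + 1)))ˣ) : ZMod (l ^ (k₀ + 1))) = _
        rw [Units.val_neg, hν1]
      · intro y
        change ν ((ZMod.unitsMap hd u * y : (ZMod (l ^ (k₀ + 1)))ˣ) : ZMod (l ^ (k₀ + 1))) = _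
        rw [Units.val_mul, hv0, hν2]
      · intro y
        change ν ((ZMod.unitsMap hdL (rho hc) * y : (ZMod (l ^ (k₀ + 1)))ˣ) :
          ZMod (l ^ (k₀ + 1))) = _
        rw [Units.val_mul, hρ0, hν3]

end

end TP

end Pool.Agent.Lib.MP81632f.Diag
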