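import Pool.Agent.Lib.MP_81632f_ag.Diag.TPi
import Pool.Agent.Lib.MP_81632f_ag.Diag.CompBase

/-!
# Two primes: the families
-/

set_option autoImplicit false

noncomputable section

namespace Pool.Agent.Lib.MP81632f.Diag

open Finset

namespace TP

open Crit Two New Push Gn Fam
open Red (ev)

/-- the relation, from a balanced set of a lower level -/
theorem tau_of {l r k k' p f m e : ℕ} [NeZero (l ^ (k + 1) * r ^ (k' + 1))] (hM : l ^ (k + 1) * r ^ (k' + 1) = m * e) (hm : 0 < m)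
    (hLP : LP m p f) (hf : 0 < f) (hp : (p : ZMod (l ^ (k + 1) * r ^ (k' + 1))) ^ f = 1)
    (a b c d : ℕ) (ha : (a : ZMod m) ≠ 0) (hb : (b : ZMod m) ≠ 0) (hc : (c : ZMod m) ≠ 0)
    (hd : (d : ZMod m) ≠ 0)
    (hbal : ∀ t : ZMod m, Nat.Coprime t.val m →
      (t * (a : ZMod m)).val + (t * (b : ZMod m)).val + (t * (c : ZMod m)).val +
        (t * (d : ZMod m)).val = 2 * m)
    (ha' : l ^ (k + 1) ∣ e * a) (hb' : ¬ l ^ (k + 1) ∣ e * b) (hc' : ¬ l ^ (k + 1) ∣ e * c)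
    (hd' : ¬ l ^ (k + 1) ∣ e * d) : Tau l r k k' p f := by
  have : NeZero m := ⟨hm.ne'⟩
  have hmM : m ∣ l ^ (k + 1) * r ^ (k' + 1) := ⟨e, hM⟩
  have hdiv : l ^ (k + 1) * r ^ (k' + 1) / m = e := by
    rw [hM, Nat.mul_div_cancel_left _ hm]
  have hpm : (p : ZMod m) ^ f = 1 := by
    have h1 := congrArg (ZMod.castHom hmM (ZMod m)) hp
    rw [map_pow, map_natCast, map_one] at h1
    exact h1
  have hcast : ∀ n : ℕ, ZMod.castHom (dvd_mul_right (l ^ (k + 1)) (r ^ (k' + 1)))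
      (ZMod (l ^ (k + 1))) (inc (l ^ (k + 1) * r ^ (k' + 1)) m (n : ZMod m)) =
      ((e * n : ℕ) : ZMod (l ^ (k + 1))) := by
    intro n
    rw [inc_nat hmM, map_mul, map_natCast, map_natCast, hdiv, Nat.cast_mul]
  refine ⟨inc _ m a, inc _ m b, inc _ m c, inc _ m d, inc_ne hmM ha, ?_, ?_, ?_, ?_,
    tau_rel hmM hLP hf hpm _ _ _ _ ha hb hc hd hbal⟩
  · rw [hcast, ZMod.natCast_eq_zero_iff]
    exact ha'
  · rw [hcast, Ne, ZMod.natCast_eq_zero_iff]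
    exact hb'
  · rw [hcast, Ne, ZMod.natCast_eq_zero_iff]
    exact hc'
  · rw [hcast, Ne, ZMod.natCast_eq_zero_iff]
    exact hd'

theorem down {m M p f : ℕ} (h : m ∣ M) (hp : (p : ZMod M) ^ f = 1) : (p : ZMod m) ^ f = 1 := by
  have h1 := congrArg (ZMod.castHom h (ZMod m)) hp
  rw [map_pow, map_natCast, map_one] at h1
  exact h1

theorem cop_of {l M p f : ℕ} (hl : l.Prime) (h : l ∣ M) (hf : 0 < f)
    (hp : (p : ZMod M) ^ f = 1) : ¬ l ∣ p := by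
  intro hlp
  have h1 := down h hp
  rw [(ZMod.natCast_eq_zero_iff p l).mpr hlp, zero_pow hf.ne'] at h1
  have : Fact (1 < l) := ⟨hl.one_lt⟩
  exact zero_ne_one h1

theorem tau23 (hB : StBasic) (hL : StLval) {p f k k' : ℕ}
    [NeZero (2 ^ (k + 1) * 3 ^ (k' + 1))] (hk : 1 ≤ k) (hf : 0 < f)
    (hp : (p : ZMod (2 ^ (k + 1) * 3 ^ (k' + 1))) ^ f = 1) : Tau 2 3 k k' p f := by
  obtain ⟨j, rfl⟩ : ∃ j, k = j + 1 := ⟨k - 1, by omega⟩
  have hM : 2 ^ (j + 1 + 1) * 3 ^ (k' + 1) = 12 * (2 ^ j * 3 ^ k') := by ring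
  have hc : ∀ n : ℕ, ¬ 4 ∣ n → ¬ 2 ^ (j + 1 + 1) ∣ 2 ^ j * 3 ^ k' * n := by
    intro n hn h
    have h1 : 2 ^ j * 4 ∣ 2 ^ j * (3 ^ k' * n) := by
      have e : 2 ^ (j + 1 + 1) = 2 ^ j * 4 := by ring
      rw [← e, ← mul_assoc]
      exact h
    have h2 := Nat.dvd_of_mul_dvd_mul_left (by positivity) h1
    have h3 : Nat.Coprime 4 (3 ^ k') := Nat.Coprime.pow_right _ (by norm_num)
    exact hn (h3.dvd_of_dvd_mul_left h2)
  refine tau_of (m := 12) hM (by norm_num) (lp_base hB (stRank hL) (by simp) hf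
    (down ⟨_, hM⟩ hp)) hf hp 8 1 6 9 (by decide) (by decide) (by decide) (by decide)
    (by decide) ⟨2 * 3 ^ k', by ring⟩ (hc _ (by norm_num)) (hc _ (by norm_num))
    (hc _ (by norm_num))

theorem tau25 (hB : StBasic) (hL : StLval) {p f k k' : ℕ}
    [NeZero (2 ^ (k + 1) * 5 ^ (k' + 1))] (hk : 1 ≤ k) (hf : 0 < f)
    (hp : (p : ZMod (2 ^ (k + 1) * 5 ^ (k' + 1))) ^ f = 1) : Tau 2 5 k k' p f := by
  obtain ⟨j, rfl⟩ : ∃ j, k = j + 1 := ⟨k - 1, by omega⟩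
  have hM : 2 ^ (j + 1 + 1) * 5 ^ (k' + 1) = 20 * (2 ^ j * 5 ^ k') := by ring
  have hc : ∀ n : ℕ, ¬ 4 ∣ n → ¬ 2 ^ (j + 1 + 1) ∣ 2 ^ j * 5 ^ k' * n := by
    intro n hn h
    have h1 : 2 ^ j * 4 ∣ 2 ^ j * (5 ^ k' * n) := by
      have e : 2 ^ (j + 1 + 1) = 2 ^ j * 4 := by ring
      rw [← e, ← mul_assoc]
      exact h
    have h2 := Nat.dvd_of_mul_dvd_mul_left (by positivity) h1
    have h3 : Nat.Coprime 4 (5 ^ k') := Nat.Coprime.pow_right _ (by norm_num)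
    exact hn (h3.dvd_of_dvd_mul_left h2)
  refine tau_of (m := 20) hM (by norm_num) (lp_base hB (stRank hL) (by simp) hf
    (down ⟨_, hM⟩ hp)) hf hp 4 1 17 18 (by decide) (by decide) (by decide) (by decide)
    (by decide) ⟨5 ^ k', by ring⟩ (hc _ (by norm_num)) (hc _ (by norm_num))
    (hc _ (by norm_num))

theorem tau37 (hB : StBasic) (hL : StLval) {p f k k' : ℕ}
    [NeZero (3 ^ (k + 1) * 7 ^ (k' + 1))] (hf : 0 < f)
    (hp : (p : ZMod (3 ^ (k + 1) * 7 ^ (k' + 1))) ^ f = 1) : Tau 3 7 k k' p f := by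
  have hM : 3 ^ (k + 1) * 7 ^ (k' + 1) = 21 * (3 ^ k * 7 ^ k') := by ring
  have hc : ∀ n : ℕ, ¬ 3 ∣ n → ¬ 3 ^ (k + 1) ∣ 3 ^ k * 7 ^ k' * n := by
    intro n hn h
    have h1 : 3 ^ k * 3 ∣ 3 ^ k * (7 ^ k' * n) := by
      have e : 3 ^ (k + 1) = 3 ^ k * 3 := by ring
      rw [← e, ← mul_assoc]
      exact h
    have h2 := Nat.dvd_of_mul_dvd_mul_left (by positivity) h1
    have h3 : Nat.Coprime 3 (7 ^ k') := Nat.Coprime.pow_right _ (by norm_num)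
    exact hn (h3.dvd_of_dvd_mul_left h2)
  refine tau_of (m := 21) hM (by norm_num) (lp_base hB (stRank hL) (by simp) hf
    (down ⟨_, hM⟩ hp)) hf hp 18 1 4 19 (by decide) (by decide) (by decide) (by decide)
    (by decide) ⟨6 * 7 ^ k', by ring⟩ (hc _ (by norm_num)) (hc _ (by norm_num))
    (hc _ (by norm_num))

/-- powers of `p` which are `1` modulo `r ^ b` -/
theorem pow_one_of {p r b j : ℕ} (hb : (p : ZMod r) ^ j = 1) :
    (p : ZMod (r ^ (b + 1))) ^ (r ^ b * j) = 1 := by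
  have h1 : ((r : ℕ) : ℤ) ∣ ((p : ℤ) ^ j) - 1 := by
    rw [← ZMod.intCast_zmod_eq_zero_iff_dvd]
    push_cast
    rw [hb, sub_self]
  have h2 := dvd_sub_pow_of_dvd_sub h1 b
  rw [one_pow] at h2
  have h3 : (((((p : ℤ) ^ j) ^ r ^ b - 1 : ℤ)) : ZMod (r ^ (b + 1))) = 0 := by
    rw [ZMod.intCast_zmod_eq_zero_iff_dvd]
    exact_mod_cast h2
  push_cast at h3
  rw [mul_comm, pow_mul]
  linear_combination h3

/-- the condition on the orders -/
theorem odd_of {l r k k' p : ℕ} (hro : Odd r) (hc : Nat.Coprime (l ^ (k + 1)) (r ^ (k' + 1)))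
    (h : ∀ j : ℕ, (p : ZMod (l ^ (k + 1))) ^ j = 1 → (p : ZMod r) ^ j = 1) :
    ∃ k0 : ℕ, Odd k0 ∧ ∀ j : ℕ, (p : ZMod (l ^ (k + 1))) ^ j = 1 →
      (p : ZMod (l ^ (k + 1) * r ^ (k' + 1))) ^ (k0 * j) = 1 := by
  refine ⟨r ^ k', hro.pow, fun j hj => ?_⟩
  have h1 := pow_one_of (b := k') (h j hj)
  have h2 : (p : ZMod (l ^ (k + 1))) ^ (r ^ k' * j) = 1 := by
    rw [mul_comm, pow_mul, hj, one_pow]
  apply (ZMod.chineseRemainder hc).injective
  rw [map_pow, map_natCast, map_one]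
  refine Prod.ext ?_ ?_
  · rw [Prod.pow_fst, Prod.fst_natCast, h2]
    rfl
  · rw [Prod.pow_snd, Prod.snd_natCast, h1]
    rfl

theorem g837 {S : Set ℕ} (ha : 3 ∈ S) (hb : 7 ∈ S) : Gens 8 S :=
  gens_of_chk (L := [0, 0, 0, 1, 0, 1001, 0, 1000]) (by decide +kernel) ha hb

theorem g857 {S : Set ℕ} (ha : 5 ∈ S) (hb : 7 ∈ S) : Gens 8 S :=
  gens_of_chk (L := [0, 0, 0, 1001, 0, 1, 0, 1000]) (by decide +kernel) ha hb

theorem gens_minus_two {k r : ℕ} (hk : 2 ≤ k) (h : Gens 8 ({r, 7} : Set ℕ)) (p : ℕ) :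
    Gens (2 ^ (k + 1)) {p, r, 2 ^ (k + 1) - 1} := by
  have h1 : Gens 8 ({r, 2 ^ (k + 1) - 1} : Set ℕ) := by
    refine Gens.congr h ?_
    rintro a (rfl | ha)
    · exact ⟨a, by simp, rfl⟩
    · rw [Set.mem_singleton_iff] at ha
      subst ha
      refine ⟨2 ^ (k + 1) - 1, by simp, ?_⟩
      obtain ⟨j, rfl⟩ : ∃ j, k = j + 2 := ⟨k - 2, by omega⟩
      rw [ZMod.natCast_eq_natCast_iff]
      have e : 2 ^ (j + 2 + 1) = 8 * 2 ^ j := by ring
      have h2 : 1 ≤ 2 ^ j := Nat.one_le_two_pow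
      rw [e]
      unfold Nat.ModEq
      omega
  exact (gens_two h1 (k + 1)).mono (by
    rintro a (rfl | ha)
    · simp
    · rw [Set.mem_singleton_iff] at ha
      subst ha
      simp)

theorem sq_one_of {p : ℕ} (hp : ¬ 2 ∣ p) {j : ℕ} (h : (p : ZMod 8) ^ j = 1) (h1 : p % 8 ≠ 1) :
    Even j := by
  rw [← Nat.not_odd_iff_even]
  intro hj
  obtain ⟨i, rfl⟩ := hj
  have h2 : p % 8 = 1 ∨ p % 8 = 3 ∨ p % 8 = 5 ∨ p % 8 = 7 := by omega
  have h3 : (p : ZMod 8) * p = 1 := by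
    have h4 : ((p % 8 : ℕ) : ZMod 8) = (p : ZMod 8) := ZMod.natCast_mod p 8
    rw [← h4]
    rcases h2 with h2 | h2 | h2 | h2 <;> rw [h2] <;> decide
  have h4 : (p : ZMod 8) ^ (2 * i + 1) = p := by
    rw [pow_succ, pow_mul, sq, h3, one_pow, one_mul]
  rw [h4] at h
  apply h1
  have h5 : ((p : ℕ) : ZMod 8) = ((1 : ℕ) : ZMod 8) := by rw [h, Nat.cast_one]
  rw [ZMod.natCast_eq_natCast_iff] at h5
  exact h5

/-- The degrees `2 ^ a 3 ^ b`, `b ≤ 2` or `a ≤ 2` or `p = 5, 7` modulo `8`. -/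
theorem lpa_two_three (hB : StBasic) (hL : StLval) (hPP : StPP) {p a b : ℕ}
    (h : a ≤ 2 ∨ b ≤ 2 ∨ p % 8 = 5 ∨ p % 8 = 7) : LPA (2 ^ a * 3 ^ b) p := by
  have o3 : Odd 3 := by decide
  have h12 : LPA 12 p := fun f hf hp => base12 hB (stRank hL) hf hp
  rcases Nat.eq_zero_or_pos b with hb | hb
  · rw [hb, pow_zero, mul_one]
    exact lpa_pp hPP (by norm_num) a p
  rcases (by omega : a = 0 ∨ a = 1 ∨ a = 2 ∨ 3 ≤ a) with rfl | rfl | rfl | ha
  · rw [pow_zero, one_mul]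
    exact lpa_pp hPP (by norm_num) b p
  · rw [pow_one]
    exact lpa_double hB o3.pow (lpa_pp hPP (by norm_num) b p)
  · exact cov_lpa hB hL hPP (S := fun q m => q = p ∧ m = 12)
      (by rintro q m ⟨rfl, rfl⟩; exact h12) (f43 (Cov.small ⟨rfl, rfl⟩) b)
  obtain ⟨k, rfl⟩ : ∃ k, a = k + 1 := ⟨a - 1, by omega⟩
  obtain ⟨k', rfl⟩ : ∃ k', b = k' + 1 := ⟨b - 1, by omega⟩
  intro f hf hp
  have : NeZero (2 ^ (k + 1)) := ⟨by positivity⟩
  have : NeZero (3 ^ (k' + 1)) := ⟨by positivity⟩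
  have : NeZero (2 ^ (k + 1) * 3 ^ (k' + 1)) := ⟨by positivity⟩
  have hc : Nat.Coprime (2 ^ (k + 1)) (3 ^ (k' + 1)) := Nat.Coprime.pow _ _ (by norm_num)
  have h2p : ¬ 2 ∣ p := cop_of (by norm_num)
    ((dvd_pow_self 2 (Nat.succ_ne_zero k)).trans (dvd_mul_right _ _)) hf hp
  have h3p : ¬ 3 ∣ p := cop_of (by norm_num)
    ((dvd_pow_self 3 (Nat.succ_ne_zero k')).trans (dvd_mul_left _ _)) hf hp
  have h8L : 8 ∣ 2 ^ (k + 1) := by
    have h1 : (2 : ℕ) ^ 3 ∣ 2 ^ (k + 1) := pow_dvd_pow 2 ha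
    exact h1
  have h8M : 8 * 3 ^ (k' + 1) ∣ 2 ^ (k + 1) * 3 ^ (k' + 1) := Nat.mul_dvd_mul_right h8L _
  refine pair_lp hB hL (by norm_num) (by norm_num) o3 (by norm_num) hf hp
    ((gens_three (g9b (S := {p, 2}) (by simp)) _)) (gens_minus_two (by omega)
      (g837 (by simp) (by simp)) p)
    (tau23 hB hL (by omega) hf hp) ?_
  have hp8 : p % 8 = 1 ∨ p % 8 = 3 ∨ p % 8 = 5 ∨ p % 8 = 7 := by omega
  by_cases h57 : p % 8 = 5 ∨ p % 8 = 7
  · left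
    refine ⟨gens_two ?_ _, odd_of o3 hc fun j hj => ?_⟩
    · have h1 : Gens 8 ({3, p} : Set ℕ) := by
        rcases h57 with h57 | h57
        · refine Gens.congr (g8 (S := {3, 5}) (by simp) (by simp)) ?_
          rintro a (rfl | ha)
          · exact ⟨3, by simp, rfl⟩
          · rw [Set.mem_singleton_iff] at ha
            subst ha
            exact ⟨p, by simp, by rw [← ZMod.natCast_mod p 8, h57]⟩
        · refine Gens.congr (g837 (S := {3, 7}) (by simp) (by simp)) ?_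
          rintro a (rfl | ha)
          · exact ⟨3, by simp, rfl⟩
          · rw [Set.mem_singleton_iff] at ha
            subst ha
            exact ⟨p, by simp, by rw [← ZMod.natCast_mod p 8, h57]⟩
      rw [Set.pair_comm]
      exact h1
    · obtain ⟨i, rfl⟩ := sq_one_of h2p (down h8L hj) (by omega)
      have h3 : (p : ZMod 3) * p = 1 := by
        have h4 : ((p % 3 : ℕ) : ZMod 3) = (p : ZMod 3) := ZMod.natCast_mod p 3
        have h5 : p % 3 = 1 ∨ p % 3 = 2 := by omega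
        rw [← h4]
        rcases h5 with h5 | h5 <;> rw [h5] <;> decide
      rw [← two_mul, pow_mul, sq, h3, one_pow]
  · right; right
    refine ⟨2, by omega, fun y => if y = 1 ∨ y = 3 then 1 else if y = 5 ∨ y = 7 then -1 else 0,
      ?_, ?_, ?_, ?_, ?_⟩
    · decide
    · decide
    · have h1 : ((p : ℕ) : ZMod (2 ^ (2 + 1))) = 1 ∨ ((p : ℕ) : ZMod (2 ^ (2 + 1))) = 3 := by
        have h4 : ((p % 8 : ℕ) : ZMod 8) = (p : ZMod 8) := ZMod.natCast_mod p 8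
        change ((p : ℕ) : ZMod 8) = 1 ∨ ((p : ℕ) : ZMod 8) = 3
        rw [← h4]
        rcases hp8 with h5 | h5 | h5 | h5
        · rw [h5]; left; rfl
        · rw [h5]; right; rfl
        · exact absurd (Or.inl h5) h57
        · exact absurd (Or.inr h5) h57
      rcases h1 with h1 | h1 <;> rw [h1] <;> decide
    · decide
    · have h1 : k' + 1 = 1 ∨ k' + 1 = 2 := by omega
      have h2 := down h8M hp
      rcases h1 with h1 | h1
      · rw [h1] at h2 ⊢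
        exact lp_base hB (stRank hL) (M := 24) (by simp) hf h2
      · rw [h1] at h2 ⊢
        exact lp_base hB (stRank hL) (M := 72) (by simp) hf h2

end TP

end Pool.Agent.Lib.MP81632f.Diag
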