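import Pool.Agent.Lib.MP_81632f_ag.Diag.TPj

/-!
# Two primes: the families `2 ^ a 5 ^ b` and `3 ^ a 7 ^ b`
-/

set_option autoImplicit false

noncomputable section

namespace Pool.Agent.Lib.MP81632f.Diag

open Finset

namespace TP

open Crit Two New Push Gn Fam
open Red (ev)

/-- a level of the second list -/
theorem lp_level (hB : StBasic) (hL : StLval) (hPP : StPP) {p M f : ℕ} (hM : M ∈ degs2)
    (hp : p.Prime) (hpM : ¬ p ∣ M) (hf : 0 < f) (h : (p : ZMod M) ^ f = 1) : LP M p f := by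
  have h1 : ordCompl[p] M = M := by
    rw [Nat.factorization_eq_zero_of_not_dvd hpM, pow_zero, Nat.div_one]
  have h2 := lp_degs2 hB (stRank hL) hPP hM hp hf (by
    rw [h1, ← ZMod.natCast_eq_zero_iff, Nat.cast_sub (Nat.one_le_pow _ _ hp.pos), Nat.cast_pow, h,
      Nat.cast_one, sub_self])
  rwa [h1] at h2

theorem unit_pow (a : ℕ) (g : (ZMod (2 ^ a))ˣ) : g ^ (2 ^ a) = 1 := by
  rcases Nat.eq_zero_or_pos a with h0 | h0
  · subst h0
    apply Units.ext
    have : Subsingleton (ZMod (2 ^ 0)) := by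
      rw [pow_zero]
      infer_instance
    exact Subsingleton.elim _ _
  · obtain ⟨c, rfl⟩ : ∃ c, a = c + 1 := ⟨a - 1, by omega⟩
    have h4 := ZMod.pow_totient g
    rw [Nat.totient_prime_pow_succ Nat.prime_two] at h4
    have e : (2 : ℕ) ^ (c + 1) = 2 ^ c * (2 - 1) * 2 := by ring
    have h5 : g ^ (2 ^ c * (2 - 1) * 2) = 1 := by rw [pow_mul, h4, one_pow]
    have h6 : ∀ n : ℕ, n = 2 ^ c * (2 - 1) * 2 → g ^ n = 1 := by
      intro n hn
      rw [hn]
      exact h5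
    exact h6 _ e

theorem four_of {p a j : ℕ} (hp : ¬ 2 ∣ p) (ha : ¬ 2 ^ a ∣ p ^ 2 - 1)
    (h : (p : ZMod (2 ^ a)) ^ (2 * j) = 1) : Even j := by
  rw [← Nat.not_odd_iff_even]
  intro hj
  apply ha
  have hcop : Nat.Coprime p (2 ^ a) :=
    Nat.Coprime.pow_right a ((Nat.Prime.coprime_iff_not_dvd Nat.prime_two).mpr hp).symm
  have h1 : ((p : ZMod (2 ^ a)) ^ 2) ^ j = 1 := by rw [← pow_mul]; exact h
  have h2 : ((p : ZMod (2 ^ a)) ^ 2) ^ (2 ^ a) = 1 := by
    have h3 : (ZMod.unitOfCoprime p hcop) ^ (2 ^ a) = 1 := unit_pow a _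
    have h4 := congrArg (fun z : (ZMod (2 ^ a))ˣ => (z : ZMod (2 ^ a))) h3
    simp only [Units.val_pow_eq_pow_val, ZMod.coe_unitOfCoprime, Units.val_one] at h4
    rw [← pow_mul, mul_comm, pow_mul, h4, one_pow]
  have h3 := pow_gcd_eq_one.mpr ⟨h1, h2⟩
  have h4 : Nat.gcd j (2 ^ a) = 1 := by
    have h5 : Nat.Coprime 2 j := by
      rw [Nat.Prime.coprime_iff_not_dvd Nat.prime_two]
      intro h6
      exact (Nat.not_even_iff_odd.mpr hj) (even_iff_two_dvd.mpr h6)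
    exact h5.symm.pow_right a
  rw [h4, pow_one] at h3
  have hp0 : 1 ≤ p ^ 2 := by
    rcases Nat.eq_zero_or_pos p with h0 | h0
    · rw [h0] at hp
      exact absurd (dvd_zero 2) hp
    · exact Nat.one_le_pow _ _ h0
  rw [← ZMod.natCast_eq_zero_iff, Nat.cast_sub hp0, Nat.cast_pow, h3, Nat.cast_one, sub_self]

theorem gens_five_two {p : ℕ} (b : ℕ) : Gens (5 ^ b) ({p, 2} : Set ℕ) :=
  gens_five (g25b (S := {p, 2}) (by simp)) b

/-- The degrees `2 ^ a 5 ^ b`. -/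
theorem lpa_two_five (hB : StBasic) (hL : StLval) (hPP : StPP) {p a b : ℕ} (hpp : p.Prime)
    (h : a ≤ 1 ∨ (p % 4 = 1 ∧ b ≤ 2) ∨ (a ≤ 3 ∧ b ≤ 2) ∨
      (p % 4 = 3 ∧ (p % 5 = 1 ∨ p % 5 = 4 ∨ ¬ 2 ^ a ∣ p ^ 2 - 1 ∨ 2 ^ a ∣ p + 1))) :
    LPA (2 ^ a * 5 ^ b) p := by
  have o5 : Odd 5 := by decide
  rcases Nat.eq_zero_or_pos b with hb | hb
  · rw [hb, pow_zero, mul_one]
    exact lpa_pp hPP (by norm_num) a p
  rcases (by omega : a = 0 ∨ a = 1 ∨ 2 ≤ a) with rfl | rfl | ha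
  · rw [pow_zero, one_mul]
    exact lpa_pp hPP (by norm_num) b p
  · rw [pow_one]
    exact lpa_double hB o5.pow (lpa_pp hPP (by norm_num) b p)
  obtain ⟨k, rfl⟩ : ∃ k, a = k + 1 := ⟨a - 1, by omega⟩
  obtain ⟨k', rfl⟩ : ∃ k', b = k' + 1 := ⟨b - 1, by omega⟩
  intro f hf hp
  have : NeZero (2 ^ (k + 1)) := ⟨by positivity⟩
  have : NeZero (5 ^ (k' + 1)) := ⟨by positivity⟩
  have : NeZero (2 ^ (k + 1) * 5 ^ (k' + 1)) := ⟨by positivity⟩
  have hc : Nat.Coprime (2 ^ (k + 1)) (5 ^ (k' + 1)) := Nat.Coprime.pow _ _ (by norm_num)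
  have h2p : ¬ 2 ∣ p := cop_of (by norm_num)
    ((dvd_pow_self 2 (Nat.succ_ne_zero k)).trans (dvd_mul_right _ _)) hf hp
  have h5p : ¬ 5 ∣ p := cop_of (by norm_num)
    ((dvd_pow_self 5 (Nat.succ_ne_zero k')).trans (dvd_mul_left _ _)) hf hp
  have h4L : 4 ∣ 2 ^ (k + 1) := by
    have h1 : (2 : ℕ) ^ 2 ∣ 2 ^ (k + 1) := pow_dvd_pow 2 ha
    exact h1
  have h4M : 4 * 5 ^ (k' + 1) ∣ 2 ^ (k + 1) * 5 ^ (k' + 1) := Nat.mul_dvd_mul_right h4L _
  -- the base levels `4 5 ^ b`, `b ≤ 2`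
  have hbase : k' + 1 ≤ 2 → LP (4 * 5 ^ (k' + 1)) p f := by
    intro hb2
    have h1 : k' + 1 = 1 ∨ k' + 1 = 2 := by omega
    have h2 := down h4M hp
    rcases h1 with h1 | h1
    · rw [h1] at h2 ⊢
      exact lp_base hB (stRank hL) (M := 20) (by simp) hf h2
    · rw [h1] at h2 ⊢
      exact lp_base hB (stRank hL) (M := 100) (by simp) hf h2
  by_cases hk1 : k = 1
  · subst hk1
    by_cases hb2 : k' + 1 ≤ 2
    · exact hbase hb2
    · have h43 : p % 4 = 3 := by omega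
      refine pair_lp hB hL (by norm_num) (by norm_num) o5 (by norm_num) hf hp
        (gens_five_two _) (g4 (by simp)) (tau25 hB hL (by omega) hf hp) (Or.inr (Or.inl ?_))
      exact ⟨1, by rw [pow_one]; omega⟩
  have hk2 : 2 ≤ k := by omega
  have h8L : 8 ∣ 2 ^ (k + 1) := by
    have h1 : (2 : ℕ) ^ 3 ∣ 2 ^ (k + 1) := pow_dvd_pow 2 (by omega)
    exact h1
  have key : (p % 4 = 1 ∧ k' + 1 ≤ 2) ∨ (p % 4 = 3 ∧ (p % 5 = 1 ∨ p % 5 = 4 ∨
      ¬ 2 ^ (k + 1) ∣ p ^ 2 - 1 ∨ 2 ^ (k + 1) ∣ p + 1)) →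
      LP (2 ^ (k + 1) * 5 ^ (k' + 1)) p f := by
    intro hcase
    refine pair_lp hB hL (by norm_num) (by norm_num) o5 (by norm_num) hf hp
      (gens_five_two _) (gens_minus_two hk2 (g857 (by simp) (by simp)) p)
      (tau25 hB hL (by omega) hf hp) ?_
    rcases hcase with ⟨h41, hb2⟩ | ⟨h43, hex⟩
    · right; right
      refine ⟨1, by omega, fun y => if y = 1 then 1 else if y = 3 then -1 else 0,
        ?_, ?_, ?_, ?_, ?_⟩
      · decide
      · decide
      · have h1 : ((p : ℕ) : ZMod (2 ^ (1 + 1))) = 1 := by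
          have h4 : ((p % 4 : ℕ) : ZMod 4) = (p : ZMod 4) := ZMod.natCast_mod p 4
          change ((p : ℕ) : ZMod 4) = 1
          rw [← h4, h41]
          rfl
        rw [h1]
        decide
      · decide
      · exact hbase hb2
    · by_cases hneg : 2 ^ (k + 1) ∣ p + 1
      · right; left
        exact ⟨1, by rw [pow_one]; exact hneg⟩
      · left
        have h8 : p % 8 = 3 ∨ p % 8 = 7 := by omega
        refine ⟨gens_two ?_ _, odd_of o5 hc fun j hj => ?_⟩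
        · rw [Set.pair_comm]
          rcases h8 with h8 | h8
          · refine Gens.congr (g8 (S := {5, 3}) (by simp) (by simp)) ?_
            rintro a (rfl | ha)
            · exact ⟨5, by simp, rfl⟩
            · rw [Set.mem_singleton_iff] at ha
              subst ha
              exact ⟨p, by simp, by rw [← ZMod.natCast_mod p 8, h8]⟩
          · refine Gens.congr (g857 (S := {5, 7}) (by simp) (by simp)) ?_
            rintro a (rfl | ha)
            · exact ⟨5, by simp, rfl⟩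
            · rw [Set.mem_singleton_iff] at ha
              subst ha
              exact ⟨p, by simp, by rw [← ZMod.natCast_mod p 8, h8]⟩
        · obtain ⟨i, rfl⟩ := sq_one_of h2p (down h8L hj) (by omega)
          rw [← two_mul] at hj ⊢
          have h4 : ((p % 5 : ℕ) : ZMod 5) = (p : ZMod 5) := ZMod.natCast_mod p 5
          by_cases h14 : p % 5 = 1 ∨ p % 5 = 4
          · have h3 : (p : ZMod 5) * p = 1 := by
              rw [← h4]
              rcases h14 with h5 | h5 <;> rw [h5] <;> decide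
            rw [pow_mul, sq, h3, one_pow]
          · have hn : ¬ 2 ^ (k + 1) ∣ p ^ 2 - 1 := by tauto
            obtain ⟨q, rfl⟩ := four_of h2p hn hj
            have h5 : p % 5 = 2 ∨ p % 5 = 3 := by omega
            have h3 : (p : ZMod 5) ^ 4 = 1 := by
              rw [← h4]
              rcases h5 with h5 | h5 <;> rw [h5] <;> decide
            have e : 2 * (q + q) = 4 * q := by ring
            rw [e, pow_mul, h3, one_pow]
  by_cases hcase : (p % 4 = 1 ∧ k' + 1 ≤ 2) ∨ (p % 4 = 3 ∧ (p % 5 = 1 ∨ p % 5 = 4 ∨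
      ¬ 2 ^ (k + 1) ∣ p ^ 2 - 1 ∨ 2 ^ (k + 1) ∣ p + 1))
  · exact key hcase
  · have h3 : k = 2 ∧ k' + 1 ≤ 2 := by
      rcases h with h1 | h1 | h1 | h1
      · omega
      · exact absurd (Or.inl h1) hcase
      · omega
      · exact absurd (Or.inr h1) hcase
    obtain ⟨rfl, hb2⟩ := h3
    have h1 : k' + 1 = 1 ∨ k' + 1 = 2 := by omega
    rcases h1 with h1 | h1
    · obtain rfl : k' = 0 := by omega
      exact lp_base hB (stRank hL) (M := 40) (by simp) hf hp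
    · obtain rfl : k' = 1 := by omega
      refine lp_level hB hL hPP (M := 200) (by simp [degs2]) hpp ?_ hf hp
      intro h200
      have h5 : p ∣ 2 ^ 3 * 5 ^ 2 := h200
      rcases (hpp.dvd_mul).mp h5 with h6 | h6
      · exact h2p ((Nat.prime_dvd_prime_iff_eq hpp (by norm_num)).mp (hpp.dvd_of_dvd_pow h6) ▸
          dvd_rfl)
      · exact h5p ((Nat.prime_dvd_prime_iff_eq hpp (by norm_num)).mp (hpp.dvd_of_dvd_pow h6) ▸
          dvd_rfl)

theorem gens_minus_three {p : ℕ} (k : ℕ) : Gens (3 ^ (k + 1)) {p, 7, 3 ^ (k + 1) - 1} := by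
  have h1 : Gens 9 ({7, 3 ^ (k + 1) - 1} : Set ℕ) := by
    rcases Nat.eq_zero_or_pos k with rfl | hk
    · exact g9c (by simp) (by norm_num)
    · refine Gens.congr (g9e (S := {7, 8}) (by simp) (by simp)) ?_
      rintro a (rfl | ha)
      · exact ⟨7, by simp, rfl⟩
      · rw [Set.mem_singleton_iff] at ha
        subst ha
        refine ⟨3 ^ (k + 1) - 1, by simp, ?_⟩
        obtain ⟨j, rfl⟩ : ∃ j, k = j + 1 := ⟨k - 1, by omega⟩
        rw [ZMod.natCast_eq_natCast_iff]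
        have e : 3 ^ (j + 1 + 1) = 9 * 3 ^ j := by ring
        have h2 : 1 ≤ 3 ^ j := Nat.one_le_pow _ _ (by norm_num)
        rw [e]
        unfold Nat.ModEq
        omega
  exact (gens_three h1 (k + 1)).mono (by
    rintro a (rfl | ha)
    · simp
    · rw [Set.mem_singleton_iff] at ha
      subst ha
      simp)

/-- The degrees `3 ^ a 7 ^ b`. -/
theorem lpa_three_seven (hB : StBasic) (hL : StLval) (hPP : StPP) {p a b : ℕ} (hpp : p.Prime)
    (h : a = 0 ∨ b ≤ 1 ∨ (2 ≤ a ∧ b = 2) ∨ p % 3 = 2) : LPA (3 ^ a * 7 ^ b) p := by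
  have o7 : Odd 7 := by decide
  rcases Nat.eq_zero_or_pos b with hb | hb
  · rw [hb, pow_zero, mul_one]
    exact lpa_pp hPP (by norm_num) a p
  rcases Nat.eq_zero_or_pos a with ha | ha
  · rw [ha, pow_zero, one_mul]
    exact lpa_pp hPP (by norm_num) b p
  by_cases h32 : p % 3 = 2
  · exact cov_lpa hB hL hPP (S := fun q m => q = p ∧ m = 21)
      (by rintro q m ⟨rfl, rfl⟩; exact fun f hf hp => base21 hB (stRank hL) hf hp)
      (f37 h32 (Cov.small ⟨rfl, rfl⟩) a b)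
  obtain ⟨k, rfl⟩ : ∃ k, a = k + 1 := ⟨a - 1, by omega⟩
  obtain ⟨k', rfl⟩ : ∃ k', b = k' + 1 := ⟨b - 1, by omega⟩
  intro f hf hp
  have : NeZero (3 ^ (k + 1)) := ⟨by positivity⟩
  have : NeZero (7 ^ (k' + 1)) := ⟨by positivity⟩
  have : NeZero (3 ^ (k + 1) * 7 ^ (k' + 1)) := ⟨by positivity⟩
  have h3p : ¬ 3 ∣ p := cop_of (by norm_num)
    ((dvd_pow_self 3 (Nat.succ_ne_zero k)).trans (dvd_mul_right _ _)) hf hp
  have h7p : ¬ 7 ∣ p := cop_of (by norm_num)
    ((dvd_pow_self 7 (Nat.succ_ne_zero k')).trans (dvd_mul_left _ _)) hf hp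
  have h31 : p % 3 = 1 := by omega
  refine pair_lp hB hL (by norm_num) (by norm_num) o7 (by norm_num) hf hp
    (gens_seven (g49a (S := {p, 3}) (by simp)) _) (gens_minus_three k) (tau37 hB hL hf hp)
    (Or.inr (Or.inr ?_))
  rcases (by omega : k' = 0 ∨ (1 ≤ k ∧ k' = 1)) with rfl | ⟨hk, rfl⟩
  · refine ⟨0, by omega, fun y => if y = 1 then 1 else if y = 2 then -1 else 0, ?_, ?_, ?_, ?_, ?_⟩
    · decide
    · decide
    · have h1 : ((p : ℕ) : ZMod (3 ^ (0 + 1))) = 1 := by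
        have h4 : ((p % 3 : ℕ) : ZMod 3) = (p : ZMod 3) := ZMod.natCast_mod p 3
        change ((p : ℕ) : ZMod 3) = 1
        rw [← h4, h31]
        rfl
      rw [h1]
      decide
    · decide
    · refine lp_base hB (stRank hL) (M := 21) (by simp) hf (down ⟨3 ^ k, ?_⟩ hp)
      ring
  · refine ⟨1, by omega, fun y => if y = 1 ∨ y = 4 ∨ y = 7 then 1 else
      if y = 2 ∨ y = 5 ∨ y = 8 then -1 else 0, ?_, ?_, ?_, ?_, ?_⟩
    · decide
    · decide
    · have h1 : ((p : ℕ) : ZMod (3 ^ (1 + 1))) = 1 ∨ ((p : ℕ) : ZMod (3 ^ (1 + 1))) = 4 ∨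
          ((p : ℕ) : ZMod (3 ^ (1 + 1))) = 7 := by
        have h4 : ((p % 9 : ℕ) : ZMod 9) = (p : ZMod 9) := ZMod.natCast_mod p 9
        change ((p : ℕ) : ZMod 9) = 1 ∨ ((p : ℕ) : ZMod 9) = 4 ∨ ((p : ℕ) : ZMod 9) = 7
        rw [← h4]
        rcases (by omega : p % 9 = 1 ∨ p % 9 = 4 ∨ p % 9 = 7) with h5 | h5 | h5
        · rw [h5]; left; rfl
        · rw [h5]; right; left; rfl
        · rw [h5]; right; right; rfl
      rcases h1 with h1 | h1 | h1 <;> rw [h1] <;> decide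
    · decide
    · obtain ⟨j, rfl⟩ : ∃ j, k = j + 1 := ⟨k - 1, by omega⟩
      refine lp_level hB hL hPP (M := 441) (by simp [degs2]) hpp ?_ hf (down ⟨3 ^ j, ?_⟩ hp)
      · intro h441
        have h5 : p ∣ 3 ^ 2 * 7 ^ 2 := h441
        rcases (hpp.dvd_mul).mp h5 with h6 | h6
        · exact h3p ((Nat.prime_dvd_prime_iff_eq hpp (by norm_num)).mp (hpp.dvd_of_dvd_pow h6) ▸
            dvd_rfl)
        · exact h7p ((Nat.prime_dvd_prime_iff_eq hpp (by norm_num)).mp (hpp.dvd_of_dvd_pow h6) ▸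
            dvd_rfl)
      · ring

end TP

end Pool.Agent.Lib.MP81632f.Diag
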