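import Pool.Agent.Lib.MP_81632f_ag.Diag.TPc

/-!
# Generators for an arbitrary second component
-/

set_option autoImplicit false

noncomputable section

namespace Pool.Agent.Lib.MP81632f.Diag

open Finset

namespace TP

/-- distributions on the units of a ring and the integers modulo `R`: relations at the divisors
of `R` -/
structure IsDR {A K : Type} [AddCommGroup A] [CommRing K] (R p : ℕ) [NeZero R]
    (G : Kˣ → ZMod R → A) : Prop where
  neg : ∀ y z, G (-y) (-z) = -G y z
  frob : ∀ (v y : Kˣ) (z : ZMod R), (v : K) = (p : K) → G (v * y) ((p : ZMod R) * z) = G y z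
  dR : ∀ n : ℕ, n ∣ R → ∀ (y y' : Kˣ) (z : ZMod R), (y' : K) = (n : K) * y →
    ∑ w ∈ univ.filter (fun w : ZMod R => (n : ZMod R) * w = 0), G y (z + w) =
      G y' ((n : ZMod R) * z)

/-- the same in three variables -/
structure IsDR2 {A K : Type} [AddCommGroup A] [CommRing K] (R S p : ℕ) [NeZero R] [NeZero S]
    (G : Kˣ → ZMod R → ZMod S → A) : Prop where
  neg : ∀ y z w, G (-y) (-z) (-w) = -G y z w
  frob : ∀ (v y : Kˣ) (z : ZMod R) (w : ZMod S), (v : K) = (p : K) →
    G (v * y) ((p : ZMod R) * z) ((p : ZMod S) * w) = G y z w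
  dR : ∀ n : ℕ, n ∣ R → ∀ (y y' : Kˣ) (z : ZMod R) (w : ZMod S), (y' : K) = (n : K) * y →
    ∑ t ∈ univ.filter (fun t : ZMod R => (n : ZMod R) * t = 0), G y (z + t) w =
      G y' ((n : ZMod R) * z) ((n : ZMod S) * w)
  dS : ∀ n : ℕ, n ∣ S → ∀ (y y' : Kˣ) (z : ZMod R) (w : ZMod S), (y' : K) = (n : K) * y →
    ∑ t ∈ univ.filter (fun t : ZMod S => (n : ZMod S) * t = 0), G y z (w + t) =
      G y' ((n : ZMod R) * z) ((n : ZMod S) * w)

theorem IsDR.split {A K : Type} [AddCommGroup A] [CommRing K] {R S p : ℕ} [NeZero R] [NeZero S]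
    [NeZero (R * S)] (hc : Nat.Coprime R S) {G : Kˣ → ZMod (R * S) → A} (h : IsDR (R * S) p G) :
    IsDR2 R S p (fun y z w => G y ((ZMod.chineseRemainder hc).symm (z, w))) := by
  have hmul : ∀ (n : ℕ) (y : ZMod R) (z : ZMod S), (ZMod.chineseRemainder hc).symm
      ((n : ZMod R) * y, (n : ZMod S) * z) =
      (n : ZMod (R * S)) * (ZMod.chineseRemainder hc).symm (y, z) := by
    intro n y z
    have h1 : (((n : ZMod R) * y, (n : ZMod S) * z) : ZMod R × ZMod S) =
        ((n : ℕ) : ZMod R × ZMod S) * (y, z) := rfl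
    rw [h1, map_mul, map_natCast]
  refine ⟨?_, ?_, ?_, ?_⟩
  · intro y z w
    have h1 : ((-z, -w) : ZMod R × ZMod S) = -(z, w) := rfl
    change G (-y) ((ZMod.chineseRemainder hc).symm (-z, -w)) = _
    rw [h1, map_neg, h.neg]
  · intro v y z w hv
    change G (v * y) ((ZMod.chineseRemainder hc).symm ((p : ZMod R) * z, (p : ZMod S) * w)) = _
    rw [hmul, h.frob v y _ hv]
  · intro n hn y y' z w hy
    have hnS : Nat.Coprime n S := hc.coprime_dvd_left hn
    have hnu : IsUnit ((n : ℕ) : ZMod S) := (ZMod.isUnit_iff_coprime n S).mpr hnS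
    change ∑ t ∈ univ.filter (fun t : ZMod R => (n : ZMod R) * t = 0),
      G y ((ZMod.chineseRemainder hc).symm (z + t, w)) =
      G y' ((ZMod.chineseRemainder hc).symm ((n : ZMod R) * z, (n : ZMod S) * w))
    rw [hmul, ← h.dR n (hn.mul_right S) y y' _ hy]
    refine Finset.sum_bij (fun t _ => (ZMod.chineseRemainder hc).symm (t, 0)) ?_ ?_ ?_ ?_
    · intro t ht
      rw [mem_filter] at ht ⊢
      refine ⟨mem_univ _, ?_⟩
      rw [← hmul, ht.2, mul_zero]
      exact map_zero (ZMod.chineseRemainder hc).symm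
    · intro a _ b _ hab
      have h1 := (ZMod.chineseRemainder hc).symm.injective hab
      exact congrArg Prod.fst h1
    · intro x hx
      rw [mem_filter] at hx
      have h1 := congrArg (ZMod.chineseRemainder hc) hx.2
      rw [map_mul, map_natCast, map_zero] at h1
      have h2 : (n : ZMod R) * (ZMod.chineseRemainder hc x).1 = 0 := congrArg Prod.fst h1
      have h3 : (n : ZMod S) * (ZMod.chineseRemainder hc x).2 = 0 := congrArg Prod.snd h1
      have h4 : (ZMod.chineseRemainder hc x).2 = 0 := (hnu.mul_right_eq_zero).mp h3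
      refine ⟨(ZMod.chineseRemainder hc x).1, ?_, ?_⟩
      · rw [mem_filter]
        exact ⟨mem_univ _, h2⟩
      · rw [RingEquiv.symm_apply_eq]
        exact Prod.ext rfl h4.symm
    · intro t _
      rw [← map_add]
      have h1 : ((z, w) + (t, 0) : ZMod R × ZMod S) = (z + t, w) := by
        rw [Prod.mk_add_mk, add_zero]
      rw [h1]
  · intro n hn y y' z w hy
    have hnR : Nat.Coprime n R := hc.symm.coprime_dvd_left hn
    have hnu : IsUnit ((n : ℕ) : ZMod R) := (ZMod.isUnit_iff_coprime n R).mpr hnR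
    change ∑ t ∈ univ.filter (fun t : ZMod S => (n : ZMod S) * t = 0),
      G y ((ZMod.chineseRemainder hc).symm (z, w + t)) =
      G y' ((ZMod.chineseRemainder hc).symm ((n : ZMod R) * z, (n : ZMod S) * w))
    rw [hmul, ← h.dR n (hn.mul_left R) y y' _ hy]
    refine Finset.sum_bij (fun t _ => (ZMod.chineseRemainder hc).symm (0, t)) ?_ ?_ ?_ ?_
    · intro t ht
      rw [mem_filter] at ht ⊢
      refine ⟨mem_univ _, ?_⟩
      rw [← hmul, ht.2, mul_zero]
      exact map_zero (ZMod.chineseRemainder hc).symm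
    · intro a _ b _ hab
      have h1 := (ZMod.chineseRemainder hc).symm.injective hab
      exact congrArg Prod.snd h1
    · intro x hx
      rw [mem_filter] at hx
      have h1 := congrArg (ZMod.chineseRemainder hc) hx.2
      rw [map_mul, map_natCast, map_zero] at h1
      have h2 : (n : ZMod R) * (ZMod.chineseRemainder hc x).1 = 0 := congrArg Prod.fst h1
      have h3 : (n : ZMod S) * (ZMod.chineseRemainder hc x).2 = 0 := congrArg Prod.snd h1
      have h4 : (ZMod.chineseRemainder hc x).1 = 0 := (hnu.mul_right_eq_zero).mp h2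
      refine ⟨(ZMod.chineseRemainder hc x).2, ?_, ?_⟩
      · rw [mem_filter]
        exact ⟨mem_univ _, h3⟩
      · rw [RingEquiv.symm_apply_eq]
        exact Prod.ext h4.symm rfl
    · intro t _
      rw [← map_add]
      have h1 : ((z, w) + (0, t) : ZMod R × ZMod S) = (z, w + t) := by
        rw [Prod.mk_add_mk, add_zero]
      rw [h1]

/-- the action of `⟨-1, p⟩` -/
theorem kk_act {A K : Type} [AddCommGroup A] [CommRing K] {R p : ℕ} [NeZero R]
    (hpR : Nat.Coprime p R) {G : Kˣ → ZMod R → A} (h : IsDR R p G) (v : Kˣ) (hv : (v : K) = p)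
    {k : Kˣ} (hk : k ∈ Subgroup.closure {v, -1}) :
    ∃ (e : ℤ) (c : (ZMod R)ˣ), e * e = 1 ∧ ∀ y z, G (k * y) ((c : ZMod R) * z) = e • G y z := by
  induction hk using Subgroup.closure_induction with
  | mem k hk =>
    rcases hk with rfl | hk
    · refine ⟨1, ZMod.unitOfCoprime p hpR, by norm_num, fun y z => ?_⟩
      rw [ZMod.coe_unitOfCoprime, h.frob _ y z hv, one_smul]
    · rw [Set.mem_singleton_iff] at hk
      subst hk
      refine ⟨-1, -1, by norm_num, fun y z => ?_⟩
      rw [Units.val_neg, Units.val_one, neg_one_mul, neg_one_mul, h.neg, neg_one_zsmul]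
  | one => exact ⟨1, 1, by norm_num, fun y z => by rw [Units.val_one, one_mul, one_mul, one_smul]⟩
  | mul k l _ _ hk hl =>
    obtain ⟨e, c, he, h1⟩ := hk
    obtain ⟨e', c', he', h1'⟩ := hl
    refine ⟨e * e', c * c', ?_, fun y z => ?_⟩
    · linear_combination e' * e' * he + he'
    · rw [Units.val_mul, mul_assoc, mul_assoc, h1, h1', smul_smul]
  | inv k _ hk =>
    obtain ⟨e, c, he, h1⟩ := hk
    refine ⟨e, c⁻¹, he, fun y z => ?_⟩
    have h3 := h1 (k⁻¹ * y) (((c⁻¹ : (ZMod R)ˣ) : ZMod R) * z)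
    rw [mul_inv_cancel_left, Units.mul_inv_cancel_left] at h3
    rw [h3, smul_smul, he, one_smul]

/-- the set of generators -/
def GenSet {A K : Type} [CommRing K] {R : ℕ} (G : Kˣ → ZMod R → A) (Y : Set Kˣ)
    (Z : Finset (ZMod R)) : Set A := {a | ∃ y₀ ∈ Y, ∃ z₀ ∈ Z, a = G y₀ z₀}

/-- the statement of the generation -/
def GenSt (p R : ℕ) [NeZero R] : Prop :=
  ∃ Z : Finset (ZMod R), Z.card ≤ R.totient ∧
    ∀ (K A : Type) [CommRing K] [AddCommGroup A] (G : Kˣ → ZMod R → A), IsDR R p G →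
    IsUnit (R : K) → ∀ v : Kˣ, (v : K) = p → ∀ Y : Set Kˣ,
    (∀ y, ∃ k ∈ Subgroup.closure {v, -1}, ∃ y₀ ∈ Y, y = k * y₀) →
    ∀ y z, G y z ∈ AddSubgroup.closure (GenSet G Y Z)

theorem genSt_one (p : ℕ) : GenSt p 1 := by
  refine ⟨{0}, by simp, ?_⟩
  intro K A _ _ G hG _ v hv Y hY y z
  obtain ⟨k, hk, y₀, hy₀, rfl⟩ := hY y
  obtain ⟨e, c, -, h1⟩ := kk_act (Nat.coprime_one_right p) hG v hv hk
  have h2 : z = (c : ZMod 1) * 0 := Subsingleton.elim _ _
  rw [h2, h1]
  have h3 : G y₀ 0 ∈ GenSet G Y {0} := ⟨y₀, hy₀, 0, by simp, rfl⟩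
  exact AddSubgroup.zsmul_mem _ (AddSubgroup.subset_closure h3) _

end TP

end Pool.Agent.Lib.MP81632f.Diag
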