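import Pool.Agent.Lib.MP_81632f_ag.Diag.TPl

/-!
# Generators for an arbitrary second component: the induction
-/

set_option autoImplicit false

noncomputable section

namespace Pool.Agent.Lib.MP81632f.Diag

open Finset

namespace TP

section Step

variable {A K : Type} [AddCommGroup A] [CommRing K] {p R r k : ℕ} [NeZero R]
  [NeZero (r ^ (k + 1))] {G : Kˣ → ZMod R → ZMod (r ^ (k + 1)) → A}

/-- the norm relation -/
theorem norm_units (hr : r.Prime) (h : IsDR2 R (r ^ (k + 1)) p G) (y y₁ y₂ : Kˣ) (z : ZMod R)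
    (h1 : (y₁ : K) = ((r ^ (k + 1) : ℕ) : K) * y) (h2 : (y₂ : K) = ((r ^ k : ℕ) : K) * y) :
    ∑ u : (ZMod (r ^ (k + 1)))ˣ, G y z u =
      G y₁ (((r ^ (k + 1) : ℕ) : ZMod R) * z) 0 - G y₂ (((r ^ k : ℕ) : ZMod R) * z) 0 := by
  have h1 := h.dS (r ^ (k + 1)) dvd_rfl y y₁ z 0 h1
  have h2 := h.dS (r ^ k) (pow_dvd_pow r (Nat.le_succ k)) y y₂ z 0 h2
  rw [mul_zero] at h1 h2
  have h3 : ∀ w : ZMod (r ^ (k + 1)), G y z (0 + w) = G y z w := fun w => by rw [zero_add]
  rw [Finset.sum_congr rfl fun w _ => h3 w] at h1 h2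
  rw [← h1, ← h2, sum_units (fun w => G y z w)]
  have h4 : univ.filter (fun w : ZMod (r ^ (k + 1)) =>
      ((r ^ (k + 1) : ℕ) : ZMod (r ^ (k + 1))) * w = 0) = univ := by
    refine Finset.filter_true_of_mem fun w _ => ?_
    rw [ZMod.natCast_self, zero_mul]
  have h5 : univ.filter (fun w : ZMod (r ^ (k + 1)) =>
      ((r ^ k : ℕ) : ZMod (r ^ (k + 1))) * w = 0) = univ.filter (fun w => ¬ IsUnit w) :=
    Finset.filter_congr fun w _ => (not_unit_iff hr w).symm
  rw [h4, h5, ← Finset.sum_filter_add_sum_filter_not univ (fun w => IsUnit w)]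
  abel

theorem exists_mul_unit {n : ℕ} (hn : IsUnit (n : K)) (y : Kˣ) :
    ∃ y' : Kˣ, (y' : K) = (n : K) * y := by
  obtain ⟨u, hu⟩ := hn
  exact ⟨u * y, by rw [Units.val_mul, hu]⟩

theorem exists_div_unit {n : ℕ} (hn : IsUnit (n : K)) (y : Kˣ) :
    ∃ y' : Kˣ, (y : K) = (n : K) * y' := by
  obtain ⟨u, hu⟩ := hn
  exact ⟨u⁻¹ * y, by rw [Units.val_mul, ← hu, Units.mul_inv_cancel_left]⟩

/-- generation by units and zero in the last component -/
theorem last_units (hr : r.Prime) (hc : Nat.Coprime R (r ^ (k + 1)))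
    (h : IsDR2 R (r ^ (k + 1)) p G) (hrK : IsUnit (r : K)) (W : AddSubgroup A)
    (h0 : ∀ y z, G y z 0 ∈ W) (h1 : ∀ y z (u : (ZMod (r ^ (k + 1)))ˣ), G y z u ∈ W)
    (y : Kˣ) (z : ZMod R) (w : ZMod (r ^ (k + 1))) : G y z w ∈ W := by
  by_cases hw : w = 0
  · rw [hw]
    exact h0 y z
  obtain ⟨i, hi, u, rfl⟩ := exists_unit_mul hr hw
  have hrR : Nat.Coprime (r ^ i) R := by
    have h2 : Nat.Coprime r R :=
      (Nat.Coprime.coprime_dvd_right (dvd_pow_self r (Nat.succ_ne_zero k)) hc).symm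
    exact h2.pow_left i
  have hri : IsUnit ((r ^ i : ℕ) : K) := by
    rw [Nat.cast_pow]
    exact hrK.pow i
  obtain ⟨y', hy'⟩ := exists_div_unit hri y
  obtain ⟨c, hc'⟩ := (ZMod.isUnit_iff_coprime _ _).mpr hrR
  have hz : z = ((r ^ i : ℕ) : ZMod R) * (((c⁻¹ : (ZMod R)ˣ) : ZMod R) * z) := by
    rw [← hc', Units.mul_inv_cancel_left]
  rw [hz, ← h.dS (r ^ i) (pow_dvd_pow r (by omega)) y' y _ (u : ZMod (r ^ (k + 1))) hy']
  refine AddSubgroup.sum_mem _ fun t ht => ?_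
  rw [mem_filter] at ht
  obtain ⟨v, hv⟩ := unit_add hr u hi ht.2
  rw [← hv]
  exact h1 _ _ v

end Step

open Classical in
/-- the units different from `1`, and `0` -/
def UU (N : ℕ) [NeZero N] : Finset (ZMod N) :=
  (univ : Finset (ZMod N)ˣ).image fun u : (ZMod N)ˣ => if u = 1 then (0 : ZMod N) else (u : ZMod N)

theorem uu_card (N : ℕ) [NeZero N] : (UU N).card ≤ N.totient := by
  classical
  unfold UU
  refine Finset.card_image_le.trans ?_
  rw [Finset.card_univ, ZMod.card_units_eq_totient]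

theorem uu_zero (N : ℕ) [NeZero N] : (0 : ZMod N) ∈ UU N := by
  classical
  unfold UU
  rw [mem_image]
  exact ⟨1, mem_univ _, if_pos rfl⟩

theorem uu_unit {N : ℕ} [NeZero N] {u : (ZMod N)ˣ} (hu : u ≠ 1) : (u : ZMod N) ∈ UU N := by
  classical
  unfold UU
  rw [mem_image]
  exact ⟨u, mem_univ _, if_neg hu⟩

theorem genSt_step {p R r k : ℕ} [NeZero R] [NeZero (r ^ (k + 1))] [NeZero (R * r ^ (k + 1))]
    (hr : r.Prime) (hc : Nat.Coprime R (r ^ (k + 1))) (hpr : Nat.Coprime p (r ^ (k + 1)))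
    (h : GenSt p R) : GenSt p (R * r ^ (k + 1)) := by
  classical
  obtain ⟨Z, hZ, hgen⟩ := h
  refine ⟨(Z ×ˢ UU (r ^ (k + 1))).image (ZMod.chineseRemainder hc).symm, ?_, ?_⟩
  · refine Finset.card_image_le.trans ?_
    rw [Finset.card_product, Nat.totient_mul hc]
    exact Nat.mul_le_mul hZ (uu_card _)
  intro K A _ _ G hG hunit v hv Y hY
  have h2 := hG.split hc
  set W := AddSubgroup.closure (GenSet G Y
    ((Z ×ˢ UU (r ^ (k + 1))).image (ZMod.chineseRemainder hc).symm)) with hW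
  have hgenW : ∀ y₀ ∈ Y, ∀ z₀ ∈ Z, ∀ w ∈ UU (r ^ (k + 1)),
      G y₀ ((ZMod.chineseRemainder hc).symm (z₀, w)) ∈ W := by
    intro y₀ hy₀ z₀ hz₀ w hw
    refine AddSubgroup.subset_closure ⟨y₀, hy₀, _, ?_, rfl⟩
    rw [mem_image]
    exact ⟨(z₀, w), mem_product.mpr ⟨hz₀, hw⟩, rfl⟩
  have hunitR : IsUnit (R : K) := by
    rw [Nat.cast_mul] at hunit
    exact isUnit_of_mul_isUnit_left hunit
  have hunitr' : IsUnit ((r ^ (k + 1) : ℕ) : K) := by
    rw [Nat.cast_mul] at hunit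
    exact isUnit_of_mul_isUnit_right hunit
  have hunitr : IsUnit (r : K) := by
    rw [Nat.cast_pow] at hunitr'
    exact (isUnit_pow_iff (Nat.succ_ne_zero k)).mp hunitr'
  -- zero in the last component
  have hzero : ∀ y z, G y ((ZMod.chineseRemainder hc).symm (z, 0)) ∈ W := by
    intro y z
    have h3 := hgen K A (fun y z => G y ((ZMod.chineseRemainder hc).symm (z, 0))) ?_ hunitR v hv Y
      hY y z
    · refine (AddSubgroup.closure_le W).mpr ?_ h3
      rintro _ ⟨y₀, hy₀, z₀, hz₀, rfl⟩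
      exact hgenW y₀ hy₀ z₀ hz₀ 0 (uu_zero _)
    · refine ⟨fun y z => ?_, fun v y z hv => ?_, fun n hn y y' z hy => ?_⟩
      · have h4 := h2.neg y z 0
        rw [neg_zero] at h4
        exact h4
      · have h4 := h2.frob v y z 0 hv
        rw [mul_zero] at h4
        exact h4
      · have h4 := h2.dR n hn y y' z 0 hy
        rw [mul_zero] at h4
        exact h4
  -- units in the last component
  have hun : ∀ y z (u : (ZMod (r ^ (k + 1)))ˣ),
      G y ((ZMod.chineseRemainder hc).symm (z, (u : ZMod (r ^ (k + 1))))) ∈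
        AddSubgroup.closure {a | ∃ y₀ ∈ Y, ∃ z₀ ∈ Z, ∃ u' : (ZMod (r ^ (k + 1)))ˣ,
          a = G y₀ ((ZMod.chineseRemainder hc).symm (z₀, (u' : ZMod (r ^ (k + 1)))))} := by
    intro y z u
    have hRu : IsUnit ((R : ℕ) : ZMod (r ^ (k + 1))) := (ZMod.isUnit_iff_coprime _ _).mpr hc
    have h3 := hgen (K × ZMod (r ^ (k + 1))) A
      (fun w z => G (MulEquiv.prodUnits w).1 ((ZMod.chineseRemainder hc).symm
        (z, ((MulEquiv.prodUnits w).2 : ZMod (r ^ (k + 1)))))) ?_ ?_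
      (MulEquiv.prodUnits.symm (v, ZMod.unitOfCoprime p hpr)) ?_
      {w | (MulEquiv.prodUnits w).1 ∈ Y} ?_ (MulEquiv.prodUnits.symm (y, u)) z
    · rw [MulEquiv.apply_symm_apply] at h3
      refine (AddSubgroup.closure_mono ?_) h3
      rintro _ ⟨w, hw, z₀, hz₀, rfl⟩
      exact ⟨_, hw, z₀, hz₀, _, rfl⟩
    · refine ⟨fun w z => ?_, fun v w z hv => ?_, fun n hn w w' z hw => ?_⟩
      · have e1 : (MulEquiv.prodUnits (-w)).1 = -(MulEquiv.prodUnits w).1 := Units.ext rfl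
        have e2 : ((MulEquiv.prodUnits (-w)).2 : ZMod (r ^ (k + 1))) =
            -((MulEquiv.prodUnits w).2 : ZMod (r ^ (k + 1))) := rfl
        rw [e1, e2]
        exact h2.neg _ _ _
      · have h4 := h2.frob (MulEquiv.prodUnits v).1 (MulEquiv.prodUnits w).1 z
          ((MulEquiv.prodUnits w).2 : ZMod (r ^ (k + 1))) (congrArg Prod.fst hv)
        have h5 : ((MulEquiv.prodUnits (v * w)).2 : ZMod (r ^ (k + 1))) =
            (p : ZMod (r ^ (k + 1))) * ((MulEquiv.prodUnits w).2 : ZMod (r ^ (k + 1))) := by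
          have h6 := congrArg Prod.snd hv
          rw [map_mul, Prod.snd_mul, Units.val_mul]
          exact congrArg (· * ((MulEquiv.prodUnits w).2 : ZMod (r ^ (k + 1)))) h6
        rw [h5]
        exact h4
      · have h4 := h2.dR n hn (MulEquiv.prodUnits w).1 (MulEquiv.prodUnits w').1 z
          ((MulEquiv.prodUnits w).2 : ZMod (r ^ (k + 1))) (congrArg Prod.fst hw)
        have h5 : ((MulEquiv.prodUnits w').2 : ZMod (r ^ (k + 1))) =
            (n : ZMod (r ^ (k + 1))) * ((MulEquiv.prodUnits w).2 : ZMod (r ^ (k + 1))) :=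
          congrArg Prod.snd hw
        rw [h5]
        exact h4
    · rw [Prod.isUnit_iff]
      exact ⟨hunitR, hRu⟩
    · refine Prod.ext ?_ ?_
      · exact hv
      · exact ZMod.coe_unitOfCoprime p hpr
    · intro w
      obtain ⟨k₁, hk₁, y₀, hy₀, hy⟩ := hY (MulEquiv.prodUnits w).1
      have h4 : ∃ k₂ ∈ Subgroup.closure ({MulEquiv.prodUnits.symm
          (v, ZMod.unitOfCoprime p hpr), -1} : Set (K × ZMod (r ^ (k + 1)))ˣ),
          (MulEquiv.prodUnits k₂).1 = k₁ := by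
        have h5 : Subgroup.map ((MonoidHom.fst Kˣ (ZMod (r ^ (k + 1)))ˣ).comp
            (MulEquiv.prodUnits (M := K) (N := ZMod (r ^ (k + 1)))).toMonoidHom)
            (Subgroup.closure ({MulEquiv.prodUnits.symm
            (v, ZMod.unitOfCoprime p hpr), -1} : Set (K × ZMod (r ^ (k + 1)))ˣ)) =
            Subgroup.closure {v, -1} := by
          rw [MonoidHom.map_closure, Set.image_pair]
          congr 1
        rw [← h5] at hk₁
        obtain ⟨k₂, hk₂, hk⟩ := hk₁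
        exact ⟨k₂, hk₂, hk⟩
      obtain ⟨k₂, hk₂, hk⟩ := h4
      refine ⟨k₂, hk₂, k₂⁻¹ * w, ?_, by rw [mul_inv_cancel_left]⟩
      change (MulEquiv.prodUnits (k₂⁻¹ * w)).1 ∈ Y
      rw [map_mul, Prod.fst_mul, map_inv, Prod.fst_inv, hk, hy, inv_mul_cancel_left]
      exact hy₀
  -- the element `1` in the last component
  have hone : ∀ y₀ ∈ Y, ∀ z₀ ∈ Z, ∀ u : (ZMod (r ^ (k + 1)))ˣ,
      G y₀ ((ZMod.chineseRemainder hc).symm (z₀, (u : ZMod (r ^ (k + 1))))) ∈ W := by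
    intro y₀ hy₀ z₀ hz₀ u
    by_cases hu : u = 1
    · obtain ⟨y₁, hy₁⟩ := exists_mul_unit hunitr' y₀
      have hrk : IsUnit ((r ^ k : ℕ) : K) := by
        rw [Nat.cast_pow]
        exact hunitr.pow k
      obtain ⟨y₂, hy₂⟩ := exists_mul_unit hrk y₀
      have h3 := norm_units hr h2 y₀ y₁ y₂ z₀ hy₁ hy₂
      rw [← Finset.add_sum_erase univ _ (mem_univ (1 : (ZMod (r ^ (k + 1)))ˣ))] at h3
      have h4 := sub_mem (hzero y₁ (((r ^ (k + 1) : ℕ) : ZMod R) * z₀))
        (hzero y₂ (((r ^ k : ℕ) : ZMod R) * z₀))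
      rw [← h3] at h4
      have h5 : ∑ u ∈ univ.erase (1 : (ZMod (r ^ (k + 1)))ˣ),
          G y₀ ((ZMod.chineseRemainder hc).symm (z₀, (u : ZMod (r ^ (k + 1))))) ∈ W :=
        AddSubgroup.sum_mem _ fun u hu => hgenW y₀ hy₀ z₀ hz₀ _ (uu_unit (ne_of_mem_erase hu))
      have h6 := sub_mem h4 h5
      rw [add_sub_cancel_right] at h6
      rw [hu]
      exact h6
    · exact hgenW y₀ hy₀ z₀ hz₀ _ (uu_unit hu)
  have hall : ∀ y z (u : (ZMod (r ^ (k + 1)))ˣ),
      G y ((ZMod.chineseRemainder hc).symm (z, (u : ZMod (r ^ (k + 1))))) ∈ W := by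
    intro y z u
    refine (AddSubgroup.closure_le W).mpr ?_ (hun y z u)
    rintro _ ⟨y₀, hy₀, z₀, hz₀, u', rfl⟩
    exact hone y₀ hy₀ z₀ hz₀ u'
  intro y z
  have hz : z = (ZMod.chineseRemainder hc).symm (ZMod.chineseRemainder hc z) :=
    ((ZMod.chineseRemainder hc).symm_apply_apply z).symm
  rw [hz]
  exact last_units hr hc h2 hunitr W hzero hall y _ _

/-- the generation, for every `R` -/
theorem genSt_all (p : ℕ) : ∀ (R : ℕ) [NeZero R], Nat.Coprime p R → GenSt p R := by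
  intro R
  induction R using Nat.strong_induction_on with
  | _ R ih =>
    intro hR0 hpR
    by_cases hR1 : R = 1
    · subst hR1
      exact genSt_one p
    · obtain ⟨r, hr, hrR⟩ := Nat.exists_prime_and_dvd hR1
      obtain ⟨e, R', hR', heR⟩ := Nat.exists_eq_pow_mul_and_not_dvd (NeZero.ne R) r hr.ne_one
      have he : e ≠ 0 := by
        rintro rfl
        rw [pow_zero, one_mul] at heR
        rw [heR] at hrR
        exact hR' hrR
      obtain ⟨k, rfl⟩ : ∃ k, e = k + 1 := ⟨e - 1, by omega⟩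
      rw [mul_comm] at heR
      subst heR
      have hR'0 : R' ≠ 0 := by
        rintro rfl
        exact hR' (dvd_zero r)
      have : NeZero R' := ⟨hR'0⟩
      have : NeZero (r ^ (k + 1)) := ⟨(pow_pos hr.pos _).ne'⟩
      have hc : Nat.Coprime R' (r ^ (k + 1)) :=
        Nat.Coprime.pow_right _ ((Nat.Prime.coprime_iff_not_dvd hr).mpr hR').symm
      have h1 : R' < R' * r ^ (k + 1) := by
        have h2 : 1 < r ^ (k + 1) := Nat.one_lt_pow (Nat.succ_ne_zero k) hr.one_lt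
        have h3 : 0 < R' := Nat.pos_of_ne_zero hR'0
        nlinarith
      exact genSt_step hr hc (hpR.coprime_dvd_right (dvd_mul_left _ _))
        (ih R' h1 (hpR.coprime_dvd_right (dvd_mul_right _ _)))

end TP

end Pool.Agent.Lib.MP81632f.Diag
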