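import Pool.Agent.Lib.MP_81632f_ag.Diag.TPk
import Pool.Agent.Lib.MP_81632f_ag.Diag.TPm

/-!
# The degrees `2 ^ a R`, `R` an odd divisor of `p ^ (2 ^ i) + 1`
-/

set_option autoImplicit false

noncomputable section

namespace Pool.Agent.Lib.MP81632f.Diag

open Finset

namespace TP

open Crit Two New Push Gn Fam
open Red (ev)

/-- the theorem for `l ^ (k + 1) R`, if the elements with first component zero are supersingular and
no nontrivial power of `p` is `1` modulo `l ^ (k + 1)` -/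
theorem lp_first {l k R p f : ℕ} [NeZero (l ^ (k + 1))] [NeZero R] [NeZero (l ^ (k + 1) * R)]
    (hB : StBasic) (hRk : StRank) (hl : l.Prime) (hc : Nat.Coprime (l ^ (k + 1)) R) (hf : 0 < f)
    (hp : (p : ZMod (l ^ (k + 1) * R)) ^ f = 1) (u : (ZMod (l ^ (k + 1) * R))ˣ)
    (hu : (u : ZMod (l ^ (k + 1) * R)) = p)
    (hneg : (-1 : (ZMod (l ^ (k + 1)))ˣ) ∉ Subgroup.zpowers
      (ZMod.unitsMap (dvd_mul_right (l ^ (k + 1)) R) u))
    (hord : ∀ n : ℕ, (ZMod.unitsMap (dvd_mul_right (l ^ (k + 1)) R) u) ^ n = 1 → u ^ n = 1)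
    (hss : ∀ z : ZMod R, E (l ^ (k + 1) * R) p f ((ZMod.chineseRemainder hc).symm (0, z)) = 0) :
    LP (l ^ (k + 1) * R) p f := by
  classical
  have hM : 1 < l ^ (k + 1) * R :=
    Nat.one_lt_mul_iff.mpr ⟨pow_pos hl.pos _, NeZero.pos R,
      Or.inl (Nat.one_lt_pow (Nat.succ_ne_zero k) hl.one_lt)⟩
  have hF := E_isD hB hM hf hp
  have h2 := hF.two hc
  have hpM : Nat.Coprime p (l ^ (k + 1) * R) := by
    rw [← ZMod.isUnit_iff_coprime, ← hu]
    exact u.isUnit
  have hpR : Nat.Coprime p R := hpM.coprime_dvd_right (dvd_mul_left _ _)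
  set v := ZMod.unitsMap (dvd_mul_right (l ^ (k + 1)) R) u with hv
  have hvp : ((v : (ZMod (l ^ (k + 1)))ˣ) : ZMod (l ^ (k + 1))) = p := by
    rw [hv, ZMod.unitsMap_val, hu, ZMod.cast_natCast (dvd_mul_right (l ^ (k + 1)) R)]
  have hnegM : (-1 : (ZMod (l ^ (k + 1) * R))ˣ) ∉ Subgroup.zpowers u := by
    intro h
    apply hneg
    have h1 := zz_of_map (dvd_mul_right (l ^ (k + 1)) R) u (-1) h
    rwa [unitsMap_neg, map_one] at h1
  have hou : orderOf u ∣ orderOf v := orderOf_dvd_of_pow_eq_one (hord _ (pow_orderOf_eq_one v))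
  obtain ⟨Z, hZ, hgen⟩ := genSt_all p R hpR
  have hne : ∀ (y : (ZMod (l ^ (k + 1)))ˣ) (z : ZMod R),
      (ZMod.chineseRemainder hc).symm ((y : ZMod (l ^ (k + 1))), z) ≠ 0 := by
    intro y z h
    have h1 := congrArg (ZMod.chineseRemainder hc) h
    rw [RingEquiv.apply_symm_apply, map_zero] at h1
    have h3 : (y : ZMod (l ^ (k + 1))) = 0 := congrArg Prod.fst h1
    have h4 : 1 < l ^ (k + 1) := Nat.one_lt_pow (Nat.succ_ne_zero k) hl.one_lt
    exact unit_ne h4 y h3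
  refine crit_gen hB hRk hM hf hp u hu hnegM
    (fun i : ((ZMod (l ^ (k + 1)))ˣ ⧸ KK v) × Z =>
      ev ((ZMod.chineseRemainder hc).symm ((rp v i.1 : ZMod (l ^ (k + 1))), (i.2 : ZMod R)))) ?_ ?_
  · rw [Fintype.card_prod, Fintype.card_coe, Nat.totient_mul hc]
    have h1 := kk_card v hneg
    rw [Nat.card_eq_fintype_card] at h1
    have h3 : orderOf u ≤ orderOf v := Nat.le_of_dvd (orderOf_pos v) hou
    calc 2 * (Fintype.card ((ZMod (l ^ (k + 1)))ˣ ⧸ KK v) * Z.card) * orderOf u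
        = (2 * Fintype.card ((ZMod (l ^ (k + 1)))ˣ ⧸ KK v) * orderOf u) * Z.card := by ring
      _ ≤ (2 * Fintype.card ((ZMod (l ^ (k + 1)))ˣ ⧸ KK v) * orderOf v) * Z.card := by gcongr
      _ ≤ (l ^ (k + 1)).totient * R.totient := Nat.mul_le_mul h1 hZ
  · set C := AddSubgroup.closure (Set.range fun i : ((ZMod (l ^ (k + 1)))ˣ ⧸ KK v) × Z =>
      (QuotientAddGroup.mk (ev ((ZMod.chineseRemainder hc).symm
        ((rp v i.1 : ZMod (l ^ (k + 1))), (i.2 : ZMod R)))) : QA (l ^ (k + 1) * R) p f)) with hC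
    have hunits : ∀ (y : (ZMod (l ^ (k + 1)))ˣ) (z : ZMod R),
        E (l ^ (k + 1) * R) p f ((ZMod.chineseRemainder hc).symm ((y : ZMod (l ^ (k + 1))), z)) ∈
          C := by
      intro y z
      have h3 := hgen (ZMod (l ^ (k + 1))) (QA (l ^ (k + 1) * R) p f)
        (fun y z => E (l ^ (k + 1) * R) p f
          ((ZMod.chineseRemainder hc).symm ((y : ZMod (l ^ (k + 1))), z))) ?_
        ((ZMod.isUnit_iff_coprime _ _).mpr hc.symm) v hvp (Set.range (rp v)) ?_ y z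
      · refine (AddSubgroup.closure_le C).mpr ?_ h3
        rintro _ ⟨_, ⟨i, rfl⟩, z₀, hz₀, rfl⟩
        refine AddSubgroup.subset_closure ⟨(i, ⟨z₀, hz₀⟩), ?_⟩
        exact (E_of (hne _ _)).symm
      · refine ⟨fun y z => ?_, fun w y z hw => ?_, fun n hn y y' z hy => ?_⟩
        · have h4 := h2.neg (y : ZMod (l ^ (k + 1))) z
          rw [← Units.val_neg] at h4
          exact h4
        · have h4 := h2.frob (y : ZMod (l ^ (k + 1))) z
          rw [← hw, ← Units.val_mul] at h4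
          exact h4
        · have h4 := h2.dR n hn (y : ZMod (l ^ (k + 1))) z
          rw [← hy] at h4
          exact h4
      · intro y
        obtain ⟨k₀, hk₀⟩ := QuotientGroup.mk_out_eq_mul (KK v) y
        refine ⟨(k₀ : (ZMod (l ^ (k + 1)))ˣ)⁻¹, (KK v).inv_mem k₀.2, rp v (QuotientGroup.mk y),
          ⟨_, rfl⟩, ?_⟩
        have h4 : rp v (QuotientGroup.mk y) = y * (k₀ : (ZMod (l ^ (k + 1)))ˣ) := hk₀
        rw [h4, mul_comm y, inv_mul_cancel_left]
    intro x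
    have hx : x = (ZMod.chineseRemainder hc).symm (ZMod.chineseRemainder hc x) :=
      ((ZMod.chineseRemainder hc).symm_apply_apply x).symm
    rw [hx]
    obtain ⟨y, z⟩ := ZMod.chineseRemainder hc x
    by_cases hy : y = 0
    · rw [hy, hss]
      exact zero_mem _
    · have hlR : Nat.Coprime l R :=
        Nat.Coprime.coprime_dvd_left (dvd_pow_self l (Nat.succ_ne_zero k)) hc
      refine gen_left hl h2 Set.univ ?_ C (fun y z _ => hunits y z) hy (Set.mem_univ z)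
      intro z _ i
      obtain ⟨z₀, hz₀⟩ := exists_pow_mul hlR i z
      exact ⟨z₀, Set.mem_univ _, hz₀⟩

/-- the elements with first component zero -/
theorem first_ss {L R p f : ℕ} [NeZero (L * R)] (hc : Nat.Coprime L R) (hf : 0 < f)
    (hp : (p : ZMod (L * R)) ^ f = 1) (hneg : NegPow p R) (z : ZMod R) :
    E (L * R) p f ((ZMod.chineseRemainder hc).symm (0, z)) = 0 := by
  by_cases hz : z = 0
  · rw [hz]
    have h1 : ((0, 0) : ZMod L × ZMod R) = 0 := rfl
    rw [h1, map_zero, E_zero]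
  · refine E_ss (ss_of_negPow hf hp hneg ?_ ?_)
    · intro h
      have h1 := congrArg (ZMod.chineseRemainder hc) h
      rw [RingEquiv.apply_symm_apply, map_zero] at h1
      exact hz (congrArg Prod.snd h1)
    · rw [← map_nsmul]
      have h1 : R • ((0, z) : ZMod L × ZMod R) = 0 := by
        rw [Prod.smul_mk, smul_zero, nsmul_eq_mul, ZMod.natCast_self, zero_mul]
        rfl
      rw [h1, map_zero]

/-- `-1` and powers of an element modulo a power of `2` -/
theorem eq_neg_one {k n : ℕ} (hk : 1 ≤ k) {v : (ZMod (2 ^ (k + 1)))ˣ} (h : v ^ n = -1) :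
    v = -1 := by
  have h4 : 4 ∣ 2 ^ (k + 1) := by
    have h1 : (2 : ℕ) ^ 2 ∣ 2 ^ (k + 1) := pow_dvd_pow 2 (by omega)
    exact h1
  have hsq : ∀ w : (ZMod 4)ˣ, w * w = 1 := by decide
  have hne : (-1 : (ZMod 4)ˣ) ≠ 1 := by decide
  rcases Nat.even_or_odd n with ⟨j, rfl⟩ | hodd
  · exfalso
    have h1 := congrArg (ZMod.unitsMap h4) h
    rw [pow_add v j j, map_mul, hsq, unitsMap_neg, map_one] at h1
    exact hne h1.symm
  · have h1 : v ^ (2 * n) = 1 := by
      rw [mul_comm 2 n, pow_mul, h]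
      exact neg_one_sq
    have h2 : v ^ (2 ^ (k + 1)) = 1 := unit_pow (k + 1) v
    have h3 := pow_gcd_eq_one.mpr ⟨h1, h2⟩
    have h5 : Nat.gcd (2 * n) (2 ^ (k + 1)) = 2 := by
      have e : 2 ^ (k + 1) = 2 * 2 ^ k := by ring
      rw [e, Nat.gcd_mul_left]
      have h6 : Nat.Coprime n (2 ^ k) := Nat.Coprime.pow_right k (Nat.coprime_two_right.mpr hodd)
      rw [h6, mul_one]
    rw [h5] at h3
    obtain ⟨j, rfl⟩ := hodd
    have h6 : v ^ (2 * j + 1) = v := by rw [pow_succ v (2 * j), pow_mul, h3, one_pow, one_mul]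
    rw [← h6, h]

/-- The degrees `2 ^ a R`. -/
theorem lpa_pow_odd (hB : StBasic) (hL : StLval) {p a i R : ℕ} (hR : Odd R)
    (h1 : R ∣ p ^ (2 ^ i) + 1) (h2 : ¬ 2 ^ a ∣ p ^ (2 ^ i) - 1) : LPA (2 ^ a * R) p := by
  intro f hf hp
  have hRk := stRank hL
  have hR0 : R ≠ 0 := by
    rintro rfl
    exact absurd hR (by decide)
  have : NeZero R := ⟨hR0⟩
  obtain ⟨k, rfl⟩ : ∃ k, a = k + 1 := by
    refine ⟨a - 1, ?_⟩
    rcases Nat.eq_zero_or_pos a with h0 | h0
    · rw [h0, pow_zero] at h2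
      exact absurd (one_dvd _) h2
    · omega
  have : NeZero (2 ^ (k + 1)) := ⟨by positivity⟩
  have : NeZero (2 ^ (k + 1) * R) := ⟨mul_ne_zero (by positivity) hR0⟩
  have hc : Nat.Coprime (2 ^ (k + 1)) R := (Nat.coprime_two_left.mpr hR).pow_left _
  have h2p : ¬ 2 ∣ p := cop_of (by norm_num)
    ((dvd_pow_self 2 (Nat.succ_ne_zero k)).trans (dvd_mul_right _ _)) hf hp
  have hpo : Odd p := by
    rw [← Nat.not_even_iff_odd, even_iff_two_dvd]
    exact h2p
  have hk : 1 ≤ k := by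
    by_contra hk
    obtain rfl : k = 0 := by omega
    apply h2
    have h3 : Odd (p ^ (2 ^ i)) := hpo.pow
    obtain ⟨j, hj⟩ := h3
    exact ⟨j, by rw [hj]; simp⟩
  obtain ⟨u, hu⟩ := exists_unit hf hp
  set v := ZMod.unitsMap (dvd_mul_right (2 ^ (k + 1)) R) u with hv
  have hvp : ((v : (ZMod (2 ^ (k + 1)))ˣ) : ZMod (2 ^ (k + 1))) = p := by
    rw [hv, ZMod.unitsMap_val, hu, ZMod.cast_natCast (dvd_mul_right (2 ^ (k + 1)) R)]
  have hp1 : ∀ n : ℕ, 1 ≤ p ^ n := fun n => Nat.one_le_pow _ _ hpo.pos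
  have hvi : v ^ (2 ^ i) ≠ 1 := by
    intro h
    apply h2
    have h3 := congrArg (fun z : (ZMod (2 ^ (k + 1)))ˣ => (z : ZMod (2 ^ (k + 1)))) h
    simp only [Units.val_pow_eq_pow_val, hvp, Units.val_one] at h3
    rw [← ZMod.natCast_eq_zero_iff, Nat.cast_sub (hp1 _), Nat.cast_pow, h3, Nat.cast_one, sub_self]
  by_cases hN : (-1 : (ZMod (2 ^ (k + 1)))ˣ) ∈ Subgroup.zpowers v
  · -- everything is supersingular
    obtain ⟨n, hn⟩ := (mem_powers_iff_mem_zpowers).mpr hN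
    have hn' : v ^ n = -1 := hn
    have h3 := eq_neg_one hk hn'
    have hi : i = 0 := by
      by_contra hi
      obtain ⟨j, rfl⟩ : ∃ j, i = j + 1 := ⟨i - 1, by omega⟩
      apply hvi
      rw [h3, pow_succ' 2 j, pow_mul]
      have h4 : (-1 : (ZMod (2 ^ (k + 1)))ˣ) ^ 2 = 1 := neg_one_sq
      rw [h4, one_pow]
    subst hi
    have h4 : 2 ^ (k + 1) ∣ p + 1 := by
      have h5 := congrArg (fun z : (ZMod (2 ^ (k + 1)))ˣ => (z : ZMod (2 ^ (k + 1)))) h3
      simp only [hvp, Units.val_neg, Units.val_one] at h5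
      rw [← ZMod.natCast_eq_zero_iff, Nat.cast_add, h5, Nat.cast_one]
      ring
    rw [pow_zero, pow_one] at h1
    have h5 : NegPow p (2 ^ (k + 1) * R) :=
      ⟨1, by rw [pow_one]; exact hc.mul_dvd_of_dvd_of_dvd h4 h1⟩
    exact lpa_neg hB (NeZero.ne _) h5 f hf hp
  · refine lp_first hB hRk Nat.prime_two hc hf hp u hu hN ?_
      (first_ss hc hf hp ⟨2 ^ i, h1⟩)
    intro n hn
    -- `2 ^ (i + 1)` divides `n`
    have h3 : v ^ (2 ^ (k + 1)) = 1 := unit_pow (k + 1) v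
    have h4 := pow_gcd_eq_one.mpr ⟨hn, h3⟩
    obtain ⟨s, -, hs⟩ := (Nat.dvd_prime_pow Nat.prime_two).mp (Nat.gcd_dvd_right n (2 ^ (k + 1)))
    rw [hs] at h4
    have hsi : i + 1 ≤ s := by
      by_contra hsi
      apply hvi
      obtain ⟨j, hj⟩ : ∃ j, i = s + j := ⟨i - s, by omega⟩
      rw [hj, pow_add 2 s j, pow_mul, h4, one_pow]
    have hdn : 2 ^ (i + 1) ∣ n :=
      (pow_dvd_pow 2 hsi).trans (hs ▸ Nat.gcd_dvd_left n (2 ^ (k + 1)))
    obtain ⟨c, rfl⟩ := hdn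
    have hR1 : (p : ZMod R) ^ (2 ^ (i + 1) * c) = 1 := by
      have h5 : (p : ZMod R) ^ (2 ^ i) = -1 := by
        rw [← ZMod.natCast_eq_zero_iff] at h1
        push_cast at h1
        linear_combination h1
      have e : 2 ^ (i + 1) * c = 2 ^ i * (2 * c) := by ring
      rw [e, pow_mul, h5, pow_mul, neg_one_sq, one_pow]
    have hL1 : (p : ZMod (2 ^ (k + 1))) ^ (2 ^ (i + 1) * c) = 1 := by
      have hn2 : v ^ (2 ^ (i + 1) * c) = 1 := hn
      have h3 := congrArg (fun z : (ZMod (2 ^ (k + 1)))ˣ => (z : ZMod (2 ^ (k + 1)))) hn2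
      simp only [Units.val_pow_eq_pow_val, hvp, Units.val_one] at h3
      exact h3
    apply Units.ext
    rw [Units.val_pow_eq_pow_val, hu, Units.val_one]
    apply (ZMod.chineseRemainder hc).injective
    rw [map_pow, map_natCast, map_one]
    refine Prod.ext ?_ ?_
    · rw [Prod.pow_fst, Prod.fst_natCast, hL1]
      rfl
    · rw [Prod.pow_snd, Prod.snd_natCast, hR1]
      rfl

end TP

end Pool.Agent.Lib.MP81632f.Diag
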