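import Pool.Agent.Lib.MP_81632f_ag.Diag.TPn

/-!
# Multiples of the degree

If `m` divides `p ^ f - 1`, then a multiple `k m` with the lattice property also divides `p ^ f - 1`.
-/

set_option autoImplicit false

noncomputable section

namespace Pool.Agent.Lib.MP81632f.Diag

open Finset

namespace TP

open Crit Two New Push Gn Fam
open Red (ev)

theorem order_eq {p i r : ℕ} (hr : r.Prime) (hro : Odd r) (h : r ∣ p ^ (2 ^ i) + 1) :
    orderOf (p : ZMod r) = 2 ^ (i + 1) := by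
  have : Fact (1 < r) := ⟨hr.one_lt⟩
  have h1 : (p : ZMod r) ^ (2 ^ i) = -1 := by
    rw [← ZMod.natCast_eq_zero_iff] at h
    push_cast at h
    linear_combination h
  refine orderOf_eq_prime_pow ?_ ?_
  · rw [h1]
    intro h2
    have h3 : (2 : ZMod r) = 0 := by linear_combination -h2
    have h4 : ((2 : ℕ) : ZMod r) = 0 := by exact_mod_cast h3
    rw [ZMod.natCast_eq_zero_iff] at h4
    have h5 := (Nat.prime_dvd_prime_iff_eq hr Nat.prime_two).mp h4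
    rw [h5] at hro
    exact absurd hro (by decide)
  · rw [pow_succ 2 i, pow_mul, h1, neg_one_sq]

theorem lift_core {p i r v f : ℕ} (hpo : Odd p) (hr : r.Prime) (hro : Odd r)
    (h : r ∣ p ^ (2 ^ i) + 1) (hf : r ∣ p ^ f - 1) (hv : 2 ^ v ∣ p ^ (2 ^ i) - 1) :
    2 ^ (v + 1) ∣ p ^ f - 1 := by
  have hp1 : ∀ n : ℕ, 1 ≤ p ^ n := fun n => Nat.one_le_pow _ _ hpo.pos
  have h1 : (p : ZMod r) ^ f = 1 := by
    rw [← ZMod.natCast_eq_zero_iff, Nat.cast_sub (hp1 _), Nat.cast_pow, Nat.cast_one,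
      sub_eq_zero] at hf
    exact hf
  have h2 := orderOf_dvd_of_pow_eq_one h1
  rw [order_eq hr hro h] at h2
  obtain ⟨c, rfl⟩ := h2
  have h3 : p ^ 2 ^ (i + 1) - 1 ∣ p ^ (2 ^ (i + 1) * c) - 1 := by
    have h4 := Nat.sub_dvd_pow_sub_pow (p ^ 2 ^ (i + 1)) 1 c
    rwa [one_pow, ← pow_mul] at h4
  refine dvd_trans ?_ h3
  have h4 : p ^ 2 ^ (i + 1) - 1 = (p ^ 2 ^ i + 1) * (p ^ 2 ^ i - 1) := by
    have h5 := Nat.sq_sub_sq (p ^ 2 ^ i) 1
    rw [one_pow, ← pow_mul, ← pow_succ] at h5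
    exact h5
  have h5 : 2 ∣ p ^ 2 ^ i + 1 := by
    have h6 : Odd (p ^ 2 ^ i) := hpo.pow
    obtain ⟨j, hj⟩ := h6
    exact ⟨j + 1, by omega⟩
  rw [h4, pow_succ' 2 v]
  exact Nat.mul_dvd_mul h5 hv

theorem lpa_vac {p m : ℕ} (hp : p.Prime) (h : p ∣ m) : LPA m p := fun _ hf hpf =>
  absurd (dvd_refl p) (cop_of hp h hf hpf)

/-- the exact power of `2` in `p ^ n - 1` -/
theorem exact_two {p n : ℕ} (hp : 1 < p) (hn : n ≠ 0) :
    ∃ v, 2 ^ v ∣ p ^ n - 1 ∧ ¬ 2 ^ (v + 1) ∣ p ^ n - 1 := by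
  have h0 : p ^ n - 1 ≠ 0 := by
    have h1 : 1 < p ^ n := Nat.one_lt_pow hn hp
    omega
  obtain ⟨v, m, hm, hv⟩ := Nat.exists_eq_pow_mul_and_not_dvd h0 2 (by norm_num)
  refine ⟨v, ⟨m, hv⟩, ?_⟩
  rw [hv, pow_succ]
  intro h
  exact hm (Nat.dvd_of_mul_dvd_mul_left (by positivity) h)

/-- The degrees `2 ^ a R`, `R` an odd divisor of `p ^ (2 ^ i) + 1`: a multiple of the degree has the
lattice property. -/
theorem lift_pow_odd (hB : StBasic) (hL : StLval) (hPP : StPP) {p a i R : ℕ} (hp : p.Prime)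
    (hR : Odd R) (h1 : R ∣ p ^ (2 ^ i) + 1) : ∃ k : ℕ, 0 < k ∧
      (∀ f : ℕ, 2 ^ a * R ∣ p ^ f - 1 → k * (2 ^ a * R) ∣ p ^ f - 1) ∧
      LPA (k * (2 ^ a * R)) p := by
  by_cases hp2 : p = 2
  · refine ⟨1, Nat.one_pos, fun f hf => by rwa [one_mul], ?_⟩
    rw [one_mul]
    rcases Nat.eq_zero_or_pos a with ha | ha
    · subst ha
      rw [pow_zero, one_mul]
      refine lpa_neg hB ?_ ⟨2 ^ i, h1⟩
      rintro rfl
      exact absurd hR (by decide)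
    · exact lpa_vac hp (by rw [hp2]; exact (dvd_pow_self 2 ha.ne').trans (dvd_mul_right _ _))
  have hpo : Odd p := hp.odd_of_ne_two hp2
  by_cases hR1 : R = 1
  · subst hR1
    refine ⟨1, Nat.one_pos, fun f hf => by rwa [one_mul], ?_⟩
    rw [one_mul, mul_one]
    exact lpa_pp hPP Nat.prime_two a p
  by_cases h2 : 2 ^ a ∣ p ^ (2 ^ i) - 1
  swap
  · refine ⟨1, Nat.one_pos, fun f hf => by rwa [one_mul], ?_⟩
    rw [one_mul]
    exact lpa_pow_odd hB hL hR h1 h2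
  obtain ⟨v, hv1, hv2⟩ := exact_two hp.one_lt (pow_ne_zero i two_ne_zero : (2 : ℕ) ^ i ≠ 0)
  have hav : a ≤ v := by
    by_contra hav
    exact hv2 ((pow_dvd_pow 2 (by omega)).trans h2)
  have e : 2 ^ (v + 1 - a) * (2 ^ a * R) = 2 ^ (v + 1) * R := by
    rw [← mul_assoc, ← pow_add]
    congr 2
    omega
  refine ⟨2 ^ (v + 1 - a), by positivity, fun f hf => ?_, ?_⟩
  · obtain ⟨r, hr, hrR⟩ := Nat.exists_prime_and_dvd hR1
    have hro : Odd r := hR.of_dvd_nat hrR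
    have hRf : R ∣ p ^ f - 1 := (dvd_mul_left _ _).trans hf
    have h3 := lift_core hpo hr hro (hrR.trans h1) (hrR.trans hRf) hv1
    rw [e]
    have hc : Nat.Coprime (2 ^ (v + 1)) R := (Nat.coprime_two_left.mpr hR).pow_left _
    exact hc.mul_dvd_of_dvd_of_dvd h3 hRf
  · rw [e]
    exact lpa_pow_odd hB hL hR h1 hv2

/-- The degrees `2 ^ a 5 ^ b`. -/
theorem lift_two_five (hB : StBasic) (hL : StLval) (hPP : StPP) {p a b : ℕ} (hp : p.Prime)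
    (h : b ≤ 2 ∨ p % 4 = 3) : ∃ k : ℕ, 0 < k ∧
      (∀ f : ℕ, 2 ^ a * 5 ^ b ∣ p ^ f - 1 → k * (2 ^ a * 5 ^ b) ∣ p ^ f - 1) ∧
      LPA (k * (2 ^ a * 5 ^ b)) p := by
  have triv : LPA (2 ^ a * 5 ^ b) p → ∃ k : ℕ, 0 < k ∧
      (∀ f : ℕ, 2 ^ a * 5 ^ b ∣ p ^ f - 1 → k * (2 ^ a * 5 ^ b) ∣ p ^ f - 1) ∧
      LPA (k * (2 ^ a * 5 ^ b)) p := fun h1 =>
    ⟨1, Nat.one_pos, fun f hf => by rwa [one_mul], by rwa [one_mul]⟩
  by_cases ha : a ≤ 1
  · exact triv (lpa_two_five hB hL hPP hp (Or.inl ha))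
  by_cases hb0 : b = 0
  · subst hb0
    refine triv ?_
    rw [pow_zero, mul_one]
    exact lpa_pp hPP Nat.prime_two a p
  by_cases hp2 : p = 2
  · refine triv (lpa_vac hp ?_)
    rw [hp2]
    exact (dvd_pow_self 2 (by omega)).trans (dvd_mul_right _ _)
  by_cases hp5 : p = 5
  · refine triv (lpa_vac hp ?_)
    rw [hp5]
    exact (dvd_pow_self 5 hb0).trans (dvd_mul_left _ _)
  have hpo : Odd p := hp.odd_of_ne_two hp2
  have h2p : p % 2 = 1 := Nat.odd_iff.mp hpo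
  have h5p : ¬ 5 ∣ p := fun h5 => hp5 ((Nat.prime_dvd_prime_iff_eq (by norm_num) hp).mp h5).symm
  by_cases h41 : p % 4 = 1
  · exact triv (lpa_two_five hB hL hPP hp (Or.inr (Or.inl ⟨h41, by omega⟩)))
  have h43 : p % 4 = 3 := by omega
  by_cases hgood : p % 5 = 1 ∨ p % 5 = 4 ∨ ¬ 2 ^ a ∣ p ^ 2 - 1 ∨ 2 ^ a ∣ p + 1
  · exact triv (lpa_two_five hB hL hPP hp (Or.inr (Or.inr (Or.inr ⟨h43, hgood⟩))))
  push Not at hgood
  obtain ⟨h51, h54, hdiv, -⟩ := hgood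
  obtain ⟨v, hv1, hv2⟩ := exact_two hp.one_lt (two_ne_zero : (2 : ℕ) ≠ 0)
  have hav : a ≤ v := by
    by_contra hav
    exact hv2 ((pow_dvd_pow 2 (by omega)).trans hdiv)
  have e : 2 ^ (v + 1 - a) * (2 ^ a * 5 ^ b) = 2 ^ (v + 1) * 5 ^ b := by
    rw [← mul_assoc, ← pow_add]
    congr 2
    omega
  refine ⟨2 ^ (v + 1 - a), by positivity, fun f hf => ?_, ?_⟩
  · have h5R : 5 ^ b ∣ p ^ f - 1 := (dvd_mul_left _ _).trans hf
    have h5 : 5 ∣ p ^ (2 ^ 1) + 1 := by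
      have h6 : p % 5 = 2 ∨ p % 5 = 3 := by omega
      have h7 : (p ^ 2 + 1) % 5 = 0 := by
        rcases h6 with h6 | h6 <;> simp [Nat.add_mod, Nat.pow_mod, h6]
      rw [pow_one]
      exact Nat.dvd_of_mod_eq_zero h7
    have h3 := lift_core (i := 1) (v := v) hpo (by norm_num : Nat.Prime 5) (by decide) h5
      ((dvd_pow_self 5 hb0).trans h5R) (by rw [pow_one]; exact hv1)
    rw [e]
    have hc : Nat.Coprime (2 ^ (v + 1)) (5 ^ b) := Nat.Coprime.pow _ _ (by norm_num)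
    exact hc.mul_dvd_of_dvd_of_dvd h3 h5R
  · rw [e]
    exact lpa_two_five hB hL hPP hp
      (Or.inr (Or.inr (Or.inr ⟨h43, Or.inr (Or.inr (Or.inl hv2))⟩)))

end TP

end Pool.Agent.Lib.MP81632f.Diag
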