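import Pool.Agent.Lib.MP_81632f_ag.Diag.Final
import Pool.Agent.Lib.MP_81632f_ag.Diag.Kron
import Pool.Agent.Lib.MP_81632f_ag.Diag.Close
import Pool.Agent.Lib.MP_81632f_ag.Diag.Basic

/-!
# The Tate sets of even size form a cycle family
-/

set_option autoImplicit false

noncomputable section

namespace Pool.Agent.Lib.MP81632f.Diag

namespace TateFam

variable {F : Type} [Field F] [Fintype F]

/-- a generator with a given power -/
theorem exists_theta (ℓ : ℕ) (hℓ : ℓ.Prime) (ρ : MulChar F ℂ) (hρ : orderOf ρ = ℓ) :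
    ℓ ∣ Fintype.card F - 1 ∧ ∃ θ : MulChar F ℂ, orderOf θ = Fintype.card F - 1 ∧
      θ ^ ((Fintype.card F - 1) / ℓ) = ρ ∧ ∀ χ : MulChar F ℂ, ∃ k : ℕ, χ = θ ^ k := by
  obtain ⟨θ, hθ, hgen⟩ := Final.exists_gen (F := F)
  have hM : 0 < Fintype.card F - 1 := by
    have := Fintype.one_lt_card (α := F)
    omega
  revert hθ hM
  generalize Fintype.card F - 1 = M
  intro hθ hM
  have : NeZero M := ⟨hM.ne'⟩
  have : NeZero ℓ := ⟨hℓ.ne_zero⟩
  have hd : ℓ ∣ M := by
    rw [← hρ]
    obtain ⟨k, rfl⟩ := hgen ρ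
    apply orderOf_dvd_of_pow_eq_one
    rw [← pow_mul, mul_comm, pow_mul, ← hθ, pow_orderOf_eq_one, one_pow]
  refine ⟨hd, ?_⟩
  have h0 := Close.dh_order θ hθ ℓ hℓ hd
  obtain ⟨i, hi, hi'⟩ := Kron.same_order hℓ.pos h0 hρ
  have hunit : IsUnit ((i : ℕ) : ZMod ℓ) := (ZMod.isUnit_iff_coprime i ℓ).mpr hi
  obtain ⟨v, hv⟩ := hunit
  obtain ⟨c, hc⟩ := ZMod.unitsMap_surjective hd v
  have hcop : Nat.Coprime (c : ZMod M).val M := ZMod.val_coe_unit_coprime c
  have hmod : ((c : ZMod M).val : ZMod ℓ) = (i : ZMod ℓ) := by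
    rw [← hv, ← hc]
    rw [ZMod.unitsMap_def]
    show _ = (ZMod.castHom hd (ZMod ℓ)) (c : ZMod M)
    conv_rhs => rw [← ZMod.natCast_zmod_val (c : ZMod M)]
    rw [map_natCast]
  have hmod' : (c : ZMod M).val ≡ i [MOD ℓ] := (ZMod.natCast_eq_natCast_iff _ _ _).mp hmod
  refine ⟨θ ^ (c : ZMod M).val, ?_, ?_, ?_⟩
  · have h1 : Nat.Coprime (orderOf θ) (c : ZMod M).val := by
      rw [hθ]
      exact hcop.symm
    rw [Nat.Coprime.orderOf_pow h1, hθ]
  · rw [← pow_mul, mul_comm, pow_mul, hi']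
    rw [pow_eq_pow_iff_modEq, h0]
    exact hmod'
  · intro χ
    obtain ⟨k, rfl⟩ := hgen χ
    -- the inverse of `c`
    have h1 : ((c : ZMod M).val * ((c⁻¹ : (ZMod M)ˣ) : ZMod M).val : ZMod M) = 1 := by
      rw [ZMod.natCast_zmod_val, ZMod.natCast_zmod_val, Units.mul_inv]
    have h2 : (c : ZMod M).val * ((c⁻¹ : (ZMod M)ˣ) : ZMod M).val ≡ 1 [MOD M] := by
      rw [← ZMod.natCast_eq_natCast_iff]
      rw [Nat.cast_mul, Nat.cast_one]
      exact h1
    refine ⟨((c⁻¹ : (ZMod M)ˣ) : ZMod M).val * k, ?_⟩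
    rw [← pow_mul, pow_eq_pow_iff_modEq, hθ, ← mul_assoc]
    have h3 := h2.symm.mul_right k
    rwa [one_mul] at h3

theorem family (hK : StKron) {p : ℕ} [Fact p.Prime] [CharP F p] {ψ : AddChar F ℂ} (hψ : ψ ≠ 1) :
    IsCycleFamily ψ {s | IsTateSet ψ s ∧ Even (Multiset.card s)} := by
  obtain ⟨n, -, hcard⟩ := FiniteField.card F p
  obtain ⟨f, hf⟩ := n
  change Fintype.card F = p ^ f at hcard
  have hq : 1 < Fintype.card F := Fintype.one_lt_card
  have hq0 : (Fintype.card F : ℂ) ≠ 0 := by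
    have : Fintype.card F ≠ 0 := by omega
    exact_mod_cast this
  have hM : 0 < Fintype.card F - 1 := by omega
  have : NeZero (Fintype.card F - 1) := ⟨hM.ne'⟩
  have hpf : (p : ZMod (Fintype.card F - 1)) ^ f = 1 := by
    have h1 : ((Fintype.card F - 1 + 1 : ℕ) : ZMod (Fintype.card F - 1)) = 1 := by
      rw [Nat.cast_add, ZMod.natCast_self, zero_add, Nat.cast_one]
    rw [← Nat.cast_pow, ← hcard]
    rw [Nat.sub_add_cancel hq.le] at h1
    exact h1
  refine ⟨?_, ?_, ?_, ?_, ?_⟩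
  · refine ⟨⟨fun χ hχ => absurd hχ (Multiset.notMem_zero χ), 1, one_pos, ?_⟩, ?_⟩
    · simp
    · simp
  · intro A B hA hB hAB
    refine ⟨hAB, ?_⟩
    have hodd : ∀ A : Multiset (MulChar F ℂ), IsAtom A → Odd (Multiset.card A) := by
      rintro A (⟨χ, rfl⟩ | ⟨χ₁, χ₂, χ₃, rfl, -⟩)
      · rw [Multiset.card_singleton]; exact odd_one
      · simp only [Multiset.insert_eq_cons, Multiset.card_cons, Multiset.card_singleton]
        exact ⟨1, rfl⟩
    rw [Multiset.card_add]
    exact (hodd A hA).add_odd (hodd B hB)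
  · intro ℓ ρ χ hℓ hρ hχ
    obtain ⟨hd, θ, hθ, hθρ, hgen⟩ := exists_theta ℓ hℓ ρ hρ
    obtain ⟨k, hk⟩ := hgen χ
    have hχ' : Close.Ph (M := Fintype.card F - 1) θ ((k : ℕ) : ZMod (Fintype.card F - 1)) = χ := by
      rw [Close.ph_natCast θ hθ, hk]
    have hx : (ℓ : ZMod (Fintype.card F - 1)) * ((k : ℕ) : ZMod (Fintype.card F - 1)) ≠ 0 := by
      intro h0
      apply hχ
      rw [← hχ', ← Close.ph_nmul θ hθ, h0, Close.ph_zero]
    have h1 := Close.th_dh θ hθ ℓ ((k : ℕ) : ZMod (Fintype.card F - 1))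
    rw [hθρ, hχ'] at h1
    constructor
    · rw [← h1]
      exact hK p F f hcard _ θ hθ ψ hψ _ (Close.dh_zero ℓ hℓ hd _ hx)
        (Basic.dh_bal hf hpf hℓ.pos hd hx)
    · rw [← h1]
      show Even (Multiset.card ((dhZ _ ℓ _).map _))
      rw [Multiset.card_map, Basic.dh_card hℓ.pos]
      exact even_two_mul ℓ
  · rintro s ⟨⟨hs, N, hN, hsN⟩, hse⟩ t ⟨⟨ht, N', hN', htN⟩, hte⟩
    refine ⟨⟨?_, N * N', Nat.mul_pos hN hN', ?_⟩, ?_⟩
    · intro χ hχ
      rcases Multiset.mem_add.mp hχ with h | h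
      · exact hs χ h
      · exact ht χ h
    · rw [Multiset.map_add, Multiset.prod_add, Multiset.card_add, mul_pow]
      have e1 : (s.map fun χ => gaussSum χ ψ).prod ^ (2 * (N * N')) =
          (Fintype.card F : ℂ) ^ (N * N' * Multiset.card s) := by
        rw [show 2 * (N * N') = 2 * N * N' by ring, pow_mul, hsN, ← pow_mul]
        congr 1
        ring
      have e2 : (t.map fun χ => gaussSum χ ψ).prod ^ (2 * (N * N')) =
          (Fintype.card F : ℂ) ^ (N * N' * Multiset.card t) := by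
        rw [show 2 * (N * N') = 2 * N' * N by ring, pow_mul, htN, ← pow_mul]
        congr 1
        ring
      rw [e1, e2, ← pow_add]
      congr 1
      ring
    · rw [Multiset.card_add]
      exact hse.add hte
  · rintro s χ hχ ⟨⟨hs, N, hN, hsN⟩, hse⟩
    obtain ⟨θ, hθ, hgen⟩ := Final.exists_gen (F := F)
    obtain ⟨k, hk⟩ := hgen χ
    have hχ' : Close.Ph (M := Fintype.card F - 1) θ ((k : ℕ) : ZMod (Fintype.card F - 1)) = χ := by
      rw [Close.ph_natCast θ hθ, hk]
    have hx : ((k : ℕ) : ZMod (Fintype.card F - 1)) ≠ 0 := by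
      intro h0
      apply hχ
      rw [← hχ', h0, Close.ph_zero]
    have hpair := hK p F f hcard _ θ hθ ψ hψ
      ({((k : ℕ) : ZMod (Fintype.card F - 1)), -((k : ℕ) : ZMod (Fintype.card F - 1))} :
        Multiset (ZMod (Fintype.card F - 1))) (by
          simp only [Multiset.insert_eq_cons, Multiset.mem_cons, Multiset.mem_singleton, not_or]
          exact ⟨fun h => hx h.symm, fun h => hx (neg_eq_zero.mp h.symm)⟩) (by
          intro t
          simp only [Multiset.insert_eq_cons, Multiset.map_cons, Multiset.map_singleton,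
            Multiset.sum_cons, Multiset.sum_singleton]
          rw [Basic.saw_neg hf hpf t.isUnit hx, add_neg_cancel])
    obtain ⟨-, N', hN', hpN⟩ := hpair
    have e0 : (({((k : ℕ) : ZMod (Fintype.card F - 1)), -((k : ℕ) : ZMod (Fintype.card F - 1))} :
        Multiset (ZMod (Fintype.card F - 1))).map fun x => θ ^ x.val) = {χ, χ⁻¹} := by
      simp only [Multiset.insert_eq_cons, Multiset.map_cons, Multiset.map_singleton]
      have e1 : θ ^ (((k : ℕ) : ZMod (Fintype.card F - 1))).val = χ := hχ'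
      have e2 : θ ^ (-((k : ℕ) : ZMod (Fintype.card F - 1))).val = χ⁻¹ := by
        have := Close.ph_neg (M := Fintype.card F - 1) θ hθ ((k : ℕ) : ZMod (Fintype.card F - 1))
        rw [hχ'] at this
        exact this
      rw [e1, e2]
    rw [e0] at hpN
    refine ⟨⟨fun χ' h => hs χ' (Multiset.mem_add.mpr (Or.inl h)), N * N', Nat.mul_pos hN hN', ?_⟩, ?_⟩
    · have h1 : ((s + {χ, χ⁻¹}).map fun χ => gaussSum χ ψ).prod ^ (2 * (N * N')) =
          (Fintype.card F : ℂ) ^ (N * N' * (Multiset.card s + 2)) := by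
        rw [show 2 * (N * N') = 2 * N * N' by ring, pow_mul, hsN, ← pow_mul, Multiset.card_add]
        congr 1
        simp only [Multiset.insert_eq_cons, Multiset.card_cons, Multiset.card_singleton]
        ring
      have h2 : (({χ, χ⁻¹} : Multiset (MulChar F ℂ)).map fun χ => gaussSum χ ψ).prod ^
          (2 * (N * N')) = (Fintype.card F : ℂ) ^ (N * N' * 2) := by
        rw [show 2 * (N * N') = 2 * N' * N by ring, pow_mul, hpN, ← pow_mul]
        congr 1
        simp only [Multiset.insert_eq_cons, Multiset.card_cons, Multiset.card_singleton]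
        ring
      rw [Multiset.map_add, Multiset.prod_add, mul_pow, h2, mul_add, pow_add] at h1
      exact mul_right_cancel₀ (pow_ne_zero _ hq0) h1
    · rw [Multiset.card_add] at hse
      simp only [Multiset.insert_eq_cons, Multiset.card_cons, Multiset.card_singleton] at hse
      rw [Nat.even_add] at hse
      exact hse.mpr (by decide)

end TateFam

end Pool.Agent.Lib.MP81632f.Diag
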