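import Pool.Agent.Lib.MP_81632f_ag.Diag.Stmts

/-!
# D1: the Teichmueller character with values in the algebraic closure of the p-adic numbers
-/

set_option autoImplicit false

noncomputable section

namespace Pool.Agent.Lib.MP81632f.Diag

open Finset Polynomial
open scoped NNReal

namespace Teich

variable (p : ℕ) [hp : Fact p.Prime]

/-- the ring of integers -/
abbrev O : ValuationSubring (PadicAlgCl p) :=
  (Valued.v : Valuation (PadicAlgCl p) ℝ≥0).valuationSubring

/-- the residue field -/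
abbrev k : Type := IsLocalRing.ResidueField (O p)

/-- the reduction -/
abbrev red : O p →+* k p := IsLocalRing.residue (O p)

variable {p}

theorem mem_O {x : PadicAlgCl p} : x ∈ O p ↔ ‖x‖ ≤ 1 := by
  change (Valued.v x : ℝ≥0) ≤ 1 ↔ _
  rw [← PadicAlgCl.valuation_coe]
  exact_mod_cast Iff.rfl

theorem isUnit_iff (a : O p) : IsUnit a ↔ ‖(a : PadicAlgCl p)‖ = 1 := by
  constructor
  · intro h
    obtain ⟨b, hb⟩ := h.exists_right_inv
    have h1 : ‖(a : PadicAlgCl p)‖ * ‖(b : PadicAlgCl p)‖ = 1 := by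
      have h2 : (a : PadicAlgCl p) * (b : PadicAlgCl p) = 1 := by
        have := congrArg (fun z : O p => (z : PadicAlgCl p)) hb
        simpa using this
      rw [← norm_mul, h2, norm_one]
    have ha := mem_O.1 a.2
    have hb' := mem_O.1 b.2
    refine le_antisymm ha ?_
    calc (1 : ℝ) = ‖(a : PadicAlgCl p)‖ * ‖(b : PadicAlgCl p)‖ := h1.symm
      _ ≤ ‖(a : PadicAlgCl p)‖ * 1 := mul_le_mul_of_nonneg_left hb' (norm_nonneg _)
      _ = _ := mul_one _
  · intro h
    have hne : (a : PadicAlgCl p) ≠ 0 := by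
      intro h0
      rw [h0, norm_zero] at h
      exact zero_ne_one h
    have hinv : (a : PadicAlgCl p)⁻¹ ∈ O p := by
      rw [mem_O, norm_inv, h, inv_one]
    refine IsUnit.of_mul_eq_one (⟨_, hinv⟩ : O p) ?_
    apply Subtype.ext
    exact mul_inv_cancel₀ hne

theorem red_eq_zero_iff (a : O p) : red p a = 0 ↔ ‖(a : PadicAlgCl p)‖ < 1 := by
  rw [IsLocalRing.residue_eq_zero_iff, IsLocalRing.mem_maximalIdeal, mem_nonunits_iff, isUnit_iff]
  exact (mem_O.1 a.2).lt_iff_ne.symm

theorem red_eq_iff (a b : O p) : red p a = red p b ↔ ‖(a : PadicAlgCl p) - b‖ < 1 := by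
  rw [← sub_eq_zero, ← map_sub, red_eq_zero_iff]
  rfl

theorem norm_p' : ‖((p : ℕ) : PadicAlgCl p)‖ = (p : ℝ)⁻¹ := by
  have h := PadicAlgCl.norm_extends p ((p : ℕ) : ℚ_[p])
  rw [Padic.norm_p] at h
  rw [← h]
  exact congrArg norm (map_natCast (algebraMap ℚ_[p] (PadicAlgCl p)) p).symm

theorem norm_p_lt : ‖((p : ℕ) : PadicAlgCl p)‖ < 1 := by
  rw [norm_p']
  exact inv_lt_one_of_one_lt₀ (by exact_mod_cast hp.out.one_lt)

instance charP_k : CharP (k p) p := by
  rw [CharP.charP_iff_prime_eq_zero hp.out]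
  have h : red p ((p : ℕ) : O p) = 0 := by
    rw [red_eq_zero_iff]
    exact norm_p_lt
  rwa [map_natCast] at h

theorem norm_eq_one_of_pow {x : PadicAlgCl p} {n : ℕ} (h : x ^ n = 1) (hn : n ≠ 0) : ‖x‖ = 1 := by
  have h1 : ‖x‖ ^ n = 1 := by rw [← norm_pow, h, norm_one]
  exact (pow_eq_one_iff_of_nonneg (norm_nonneg _) hn).1 h1

/-- distinct roots of unity of order prime to `p` have distinct reductions -/
theorem norm_one_sub_pow {ζ : PadicAlgCl p} {n : ℕ} (hζ : IsPrimitiveRoot ζ n)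
    (hn : ‖(n : PadicAlgCl p)‖ = 1) {i : ℕ} (hi0 : i ≠ 0) (hi : i < n) : ‖1 - ζ ^ i‖ = 1 := by
  obtain ⟨m, rfl⟩ : ∃ m, n = m + 1 := ⟨n - 1, by omega⟩
  have hz : ‖ζ‖ = 1 := norm_eq_one_of_pow hζ.pow_eq_one (Nat.succ_ne_zero m)
  have hle : ∀ j : ℕ, ‖1 - ζ ^ j‖ ≤ 1 := by
    intro j
    have h1 := IsUltrametricDist.norm_add_le_max (1 : PadicAlgCl p) (-ζ ^ j)
    rwa [norm_one, norm_neg, norm_pow, hz, one_pow, max_self, ← sub_eq_add_neg] at h1
  have h := congrArg norm hζ.prod_one_sub_pow_eq_order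
  have hc : ((m : PadicAlgCl p) + 1) = ((m + 1 : ℕ) : PadicAlgCl p) := by
    rw [Nat.cast_add, Nat.cast_one]
  rw [hc, hn, norm_prod] at h
  refine le_antisymm (hle i) ?_
  obtain ⟨j, rfl⟩ : ∃ j, i = j + 1 := ⟨i - 1, by omega⟩
  rw [← h, ← Finset.mul_prod_erase (range m) (fun j => ‖1 - ζ ^ (j + 1)‖)
    (Finset.mem_range.2 (by omega : j < m))]
  calc ‖1 - ζ ^ (j + 1)‖ * ∏ x ∈ (range m).erase j, ‖1 - ζ ^ (x + 1)‖
      ≤ ‖1 - ζ ^ (j + 1)‖ * 1 := mul_le_mul_of_nonneg_left
        (Finset.prod_le_one (fun _ _ => norm_nonneg _) fun x _ => hle _) (norm_nonneg _)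
    _ = _ := mul_one _

theorem red_primitive {ζ : O p} {n : ℕ} (h0 : n ≠ 0)
    (hζ : IsPrimitiveRoot (ζ : PadicAlgCl p) n)
    (hn : ‖(n : PadicAlgCl p)‖ = 1) : IsPrimitiveRoot (red p ζ) n := by
  rw [IsPrimitiveRoot.iff (Nat.pos_of_ne_zero h0)]
  constructor
  · have h1 : ζ ^ n = 1 := Subtype.ext (by simpa using hζ.pow_eq_one)
    rw [← map_pow, h1, map_one]
  · intro l hl0 hl hone
    have h1 : red p 1 = red p (ζ ^ l) := by rw [map_one, map_pow, hone]
    rw [red_eq_iff] at h1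
    have h2 := norm_one_sub_pow hζ hn hl0.ne' hl
    have h3 : ((1 : O p) : PadicAlgCl p) - ((ζ ^ l : O p) : PadicAlgCl p) =
        1 - (ζ : PadicAlgCl p) ^ l := by simp
    rw [h3, h2] at h1
    exact lt_irrefl _ h1

end Teich

open Teich in
theorem stTeich : StTeich := by
  intro p hp F _ _ _
  classical
  set q := Fintype.card F with hq
  have hq1 : 1 < q := Fintype.one_lt_card
  set n := q - 1 with hn
  have hn0 : n ≠ 0 := by omega
  have hnz : NeZero n := ⟨hn0⟩
  let _ : Algebra (ZMod p) F := ZMod.algebra F p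
  let _ : Algebra (ZMod p) (k p) := ZMod.algebra (k p) p
  have hcard : q = p ^ Module.finrank (ZMod p) F := by
    have := Module.card_eq_pow_finrank (K := ZMod p) (V := F)
    rw [ZMod.card] at this
    exact this
  have hqn : ‖(q : PadicAlgCl p)‖ < 1 := by
    rw [hcard, Nat.cast_pow, norm_pow]
    exact pow_lt_one₀ (norm_nonneg _) norm_p_lt Module.finrank_pos.ne'
  have hnn : ‖(n : PadicAlgCl p)‖ = 1 := by
    have e : (n : PadicAlgCl p) = -1 + (q : PadicAlgCl p) := by
      rw [hn, Nat.cast_sub hq1.le, Nat.cast_one]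
      ring
    have h6 : ‖(-1 : PadicAlgCl p)‖ = 1 := by rw [norm_neg, norm_one]
    rw [e, IsUltrametricDist.norm_add_eq_max_of_norm_ne_norm (by rw [h6]; exact hqn.ne'), h6]
    exact max_eq_left hqn.le
  -- roots of unity
  obtain ⟨ζ, hζ⟩ : ∃ ζ : PadicAlgCl p, IsPrimitiveRoot ζ n := by
    have : NeZero ((n : ℕ) : PadicAlgCl p) := ⟨Nat.cast_ne_zero.2 hn0⟩
    exact HasEnoughRootsOfUnity.exists_primitiveRoot (PadicAlgCl p) n
  have hzO : ζ ∈ O p := mem_O.2 (norm_eq_one_of_pow hζ.pow_eq_one hn0).le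
  set z : O p := ⟨ζ, hzO⟩ with hz
  have hzr : IsPrimitiveRoot (red p z) n := red_primitive hn0 hζ hnn
  -- the embedding of `F`
  have hsplit : ((X ^ q - X : (ZMod p)[X]).map (algebraMap (ZMod p) (k p))).Splits := by
    have e1 : (X ^ q - X : (ZMod p)[X]).map (algebraMap (ZMod p) (k p)) =
        (X : (k p)[X]) * (X ^ n - C 1) := by
      rw [Polynomial.map_sub, Polynomial.map_pow, map_X, C_1, mul_sub, mul_one, ← pow_succ']
      have : n + 1 = q := by omega
      rw [this]
    rw [e1]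
    exact Splits.X.mul (X_pow_sub_C_splits_of_isPrimitiveRoot hzr (one_pow n))
  have : IsSplittingField (ZMod p) F (X ^ q - X) := FiniteField.isSplittingField_sub F (ZMod p)
  let ρ : F →+* k p := (IsSplittingField.lift F (X ^ q - X) hsplit).toRingHom
  have hρ : Function.Injective ρ := ρ.injective
  -- lifts
  have hlift : ∀ x : Fˣ, ∃ a : O p, a ^ n = 1 ∧ red p a = ρ x := by
    intro x
    have h1 : ρ (x : F) ^ n = 1 := by
      rw [← map_pow, FiniteField.pow_card_sub_one_eq_one _ x.ne_zero, map_one]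
    obtain ⟨i, -, hi⟩ := hzr.eq_pow_of_pow_eq_one h1
    refine ⟨z ^ i, ?_, by rw [map_pow, hi]⟩
    have h2 : z ^ n = 1 := Subtype.ext (by simpa using hζ.pow_eq_one)
    rw [← pow_mul, mul_comm, pow_mul, h2, one_pow]
  have huniq : ∀ a b : O p, a ^ n = 1 → b ^ n = 1 → red p a = red p b → a = b := by
    intro a b ha hb hab
    have ha' : (a : PadicAlgCl p) ^ n = 1 := by
      have := congrArg (fun z : O p => (z : PadicAlgCl p)) ha
      simpa using this
    have hb' : (b : PadicAlgCl p) ^ n = 1 := by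
      have := congrArg (fun z : O p => (z : PadicAlgCl p)) hb
      simpa using this
    obtain ⟨i, hi, hi'⟩ := hζ.eq_pow_of_pow_eq_one ha'
    obtain ⟨j, hj, hj'⟩ := hζ.eq_pow_of_pow_eq_one hb'
    have h1 : red p z ^ i = red p z ^ j := by
      rw [← map_pow, ← map_pow]
      have e1 : z ^ i = a := Subtype.ext (by simpa using hi')
      have e2 : z ^ j = b := Subtype.ext (by simpa using hj')
      rw [e1, e2, hab]
    have h2 := hzr.pow_inj hi hj h1
    apply Subtype.ext
    rw [← hi', ← hj', h2]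
  choose A hA1 hA2 using hlift
  have hone : A 1 = 1 := by
    apply huniq _ _ (hA1 1) (one_pow n)
    rw [hA2, Units.val_one, map_one, map_one]
  have hmul : ∀ x y, A (x * y) = A x * A y := by
    intro x y
    apply huniq _ _ (hA1 _) (by rw [mul_pow, hA1, hA1, one_mul])
    rw [hA2, Units.val_mul, map_mul, map_mul, hA2, hA2]
  let g : Fˣ →* (PadicAlgCl p)ˣ :=
    { toFun := fun x => Units.map (O p).subtype.toMonoidHom (Units.ofPowEqOne (A x) n (hA1 x) hn0)
      map_one' := by
        apply Units.ext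
        change ((A 1 : O p) : PadicAlgCl p) = 1
        rw [hone]; rfl
      map_mul' := by
        intro x y
        apply Units.ext
        change ((A (x * y) : O p) : PadicAlgCl p) = (A x : PadicAlgCl p) * (A y : PadicAlgCl p)
        rw [hmul]; rfl }
  have hg : ∀ x : Fˣ, ((g x : (PadicAlgCl p)ˣ) : PadicAlgCl p) = A x := fun x => rfl
  set ω : MulChar F (PadicAlgCl p) := MulChar.ofUnitHom g with hω
  have hωx : ∀ x : Fˣ, ω (x : F) = A x := by
    intro x
    rw [hω, MulChar.ofUnitHom_coe, hg]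
  -- all values
  have hval : ∀ x : F, ∃ a : O p, (a : PadicAlgCl p) = ω x ∧ red p a = ρ x := by
    intro x
    by_cases hx : x = 0
    · refine ⟨0, ?_, ?_⟩
      · rw [hx, MulChar.map_zero]; rfl
      · rw [hx, map_zero, map_zero]
    · refine ⟨A (Units.mk0 x hx), ?_, ?_⟩
      · rw [← hωx, Units.val_mk0]
      · rw [hA2, Units.val_mk0]
  refine ⟨ω, ?_, ?_⟩
  · apply Nat.dvd_antisymm
    · apply orderOf_dvd_of_pow_eq_one
      apply MulChar.ext
      intro x
      rw [MulChar.pow_apply_coe, hωx, MulChar.one_apply_coe]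
      have := congrArg (fun z : O p => (z : PadicAlgCl p)) (hA1 x)
      simpa using this
    · obtain ⟨t, ht⟩ := IsCyclic.exists_generator (α := Fˣ)
      have h1 : orderOf t = n := by
        rw [orderOf_eq_card_of_forall_mem_zpowers ht, Nat.card_eq_fintype_card, Fintype.card_units]
      have h2 : (A t : PadicAlgCl p) ^ orderOf ω = 1 := by
        rw [← hωx, ← MulChar.pow_apply_coe, pow_orderOf_eq_one, MulChar.one_apply_coe]
      have h3 : A t ^ orderOf ω = 1 := Subtype.ext (by simpa using h2)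
      have h4 : ρ ((t : F) ^ orderOf ω) = 1 := by
        rw [map_pow, ← hA2, ← map_pow, h3, map_one]
      have h5 : (t : F) ^ orderOf ω = 1 := hρ (by rw [h4, map_one])
      rw [← h1]
      apply orderOf_dvd_of_pow_eq_one
      apply Units.ext
      rw [Units.val_pow_eq_pow_val, h5, Units.val_one]
  · intro x y
    obtain ⟨a, ha1, ha2⟩ := hval x
    obtain ⟨b, hb1, hb2⟩ := hval y
    obtain ⟨c, hc1, hc2⟩ := hval (x + y)
    have h1 : red p (a + b - c) = 0 := by
      rw [map_sub, map_add, ha2, hb2, hc2, map_add, sub_self]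
    rw [red_eq_zero_iff] at h1
    rw [← ha1, ← hb1, ← hc1]
    exact h1

end Pool.Agent.Lib.MP81632f.Diag
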