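import Pool.Agent.Lib.MP_81632f_ag.Diag.Kron

/-!
# Tate sets of Gauss sums: Tate sets are balanced (Stickelberger's theorem)
-/

set_option autoImplicit false

noncomputable section

namespace Pool.Agent.Lib.MP81632f.Diag

namespace Trans

open Finset Kron

/-- the value at a generator determines the order -/
theorem primitive {F : Type} [Field F] [Fintype F] {L : Type} [Field L] {g : Fˣ}
    (hg : ∀ x, x ∈ Subgroup.zpowers g) {M : ℕ} {η : MulChar F L} (hη : orderOf η = M) :
    IsPrimitiveRoot (η g) M := by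
  rw [IsPrimitiveRoot.iff_def]
  constructor
  · rw [← MulChar.pow_apply_coe, ← hη, pow_orderOf_eq_one, MulChar.one_apply_coe]
  · intro l hl
    rw [← hη]
    apply orderOf_dvd_of_pow_eq_one
    rw [MulChar.eq_iff hg, MulChar.pow_apply_coe, hl, MulChar.one_apply_coe]

/-- an embedding with prescribed value at a root of unity -/
theorem exists_emb {E : Type} [Field E] [NumberField E] {K : Type} [Field K] [CharZero K]
    [IsAlgClosed K] {M : ℕ} (hM : 0 < M) {z : E} {z' : K} (hz : IsPrimitiveRoot z M)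
    (hz' : IsPrimitiveRoot z' M) : ∃ φ : E →+* K, φ z = z' := by
  have h1 : z' ∈ (minpoly ℚ z).rootSet K := by
    rw [← Polynomial.cyclotomic_eq_minpoly_rat hz hM, Polynomial.mem_rootSet]
    refine ⟨Polynomial.cyclotomic_ne_zero M ℚ, ?_⟩
    rw [Polynomial.aeval_def, ← Polynomial.eval_map, Polynomial.map_cyclotomic]
    exact hz'.isRoot_cyclotomic hM
  rw [← NumberField.Embeddings.range_eval_eq_rootSet_minpoly E K z] at h1
  obtain ⟨φ, hφ⟩ := h1
  exact ⟨φ, hφ⟩

/-- the sum of the sawtooth sums -/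
theorem sum_saw {M : ℕ} (p f : ℕ) (t : ZMod M) (X : Multiset (ZMod M)) :
    (X.map fun x => saw M p f t x).sum =
      2 * ((X.map fun x => ∑ j ∈ range f, ((p : ZMod M) ^ j * t * x).val).sum : ℤ) -
        (f * (Multiset.card X * M) : ℕ) := by
  induction X using Multiset.induction with
  | empty => simp
  | cons a s ih =>
    rw [Multiset.map_cons, Multiset.sum_cons, ih, Multiset.map_cons, Multiset.sum_cons,
      Multiset.card_cons, saw, Finset.sum_sub_distrib, Finset.sum_const, card_range,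
      ← Finset.mul_sum]
    push_cast
    simp only [nsmul_eq_mul]
    ring

theorem prod_pow_map {L ι : Type} [CommMonoid L] (r : L) (X : Multiset ι) (e : ι → ℕ) :
    (X.map fun x => r ^ e x).prod = r ^ (X.map e).sum := by
  induction X using Multiset.induction with
  | empty => simp
  | cons a s ih =>
    rw [Multiset.map_cons, Multiset.prod_cons, Multiset.map_cons, Multiset.sum_cons, pow_add, ih]

theorem key (hS : StStick) (p : ℕ) [hp : Fact p.Prime] {F : Type} [Field F] [Fintype F]
    [CharP F p] (f : ℕ) (hf : Fintype.card F = p ^ f) {M : ℕ} [NeZero M] {E : Type} [Field E]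
    [NumberField E] {θ : MulChar F E} (hθ : orderOf θ = M) {ψ : AddChar F E} (hψ : ψ ≠ 1)
    {X : Multiset (ZMod M)} (hX : 0 ∉ X) {N : ℕ} (hN : 0 < N)
    (h : (X.map fun x => gaussSum (θ ^ x.val) ψ).prod ^ (2 * N) =
      (Fintype.card F : E) ^ (N * Multiset.card X)) : BalM M p f X := by
  intro t
  have hM : 0 < M := Nat.pos_of_ne_zero (NeZero.ne M)
  obtain ⟨g, hg⟩ := IsCyclic.exists_generator (α := Fˣ)
  have hdvd : M ∣ p ^ f - 1 := by
    rw [← hf, ← hθ]
    exact MulChar.orderOf_dvd_card_sub_one F θ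
  obtain ⟨θ', hθ', hgs⟩ := hS p F f hf M hM hdvd
  have ht : (t : ZMod M).val.Coprime M := ZMod.val_coe_unit_coprime t
  obtain ⟨φ, hφ⟩ := exists_emb hM (primitive hg hθ)
    ((primitive hg hθ').pow_of_coprime _ ht)
  have hθφ : θ.ringHomComp φ = θ' ^ (t : ZMod M).val := by
    rw [MulChar.eq_iff hg, MulChar.pow_apply_coe, ← hφ]
    rfl
  have hψφ : addMap φ ψ ≠ 1 := addMap_ne_one φ hψ
  -- the relation in the field of `p`-adic numbers
  have h1 : (X.map fun x => gaussSum ((θ' ^ (t : ZMod M).val) ^ x.val) (addMap φ ψ)).prod ^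
      (2 * N) = (Fintype.card F : PadicAlgCl p) ^ (N * Multiset.card X) := by
    have h2 := congrArg φ h
    simp only [map_pow, map_natCast, map_multiset_prod, Multiset.map_map, Function.comp_def,
      gs_map, ← MulChar.ringHomComp_pow, hθφ] at h2
    exact h2
  have h3 : ∀ x ∈ X, ‖gaussSum ((θ' ^ (t : ZMod M).val) ^ x.val) (addMap φ ψ)‖ ^ M =
      ((p : ℝ)⁻¹) ^ (∑ j ∈ range f, ((p : ZMod M) ^ j * (t : ZMod M) * x).val) := by
    intro x hx
    have hx0 : x ≠ 0 := fun h => hX (h ▸ hx)
    have h2 : ¬ M ∣ (t : ZMod M).val * x.val := by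
      intro h
      have h3 := (Nat.Coprime.dvd_mul_left ht.symm).1 h
      have h4 : 0 < x.val := ZMod.val_pos.2 hx0
      exact absurd (Nat.le_of_dvd h4 h3) (not_le.2 (ZMod.val_lt x))
    rw [← pow_mul, hgs _ hψφ _ h2]
    congr 1
    refine Finset.sum_congr rfl fun j _ => ?_
    rw [← ZMod.val_natCast, Nat.cast_mul, Nat.cast_pow, Nat.cast_mul, ZMod.natCast_zmod_val,
      ZMod.natCast_zmod_val, mul_assoc]
  have h4 := congrArg (fun y => ‖y‖ ^ M) h1
  simp only [norm_pow] at h4
  rw [norm_prod_map, hf, Nat.cast_pow, norm_pow, norm_natCast_self, ← pow_mul, mul_comm (2 * N),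
    pow_mul, pow_prod_map, Multiset.map_congr rfl h3, prod_pow_map, ← pow_mul, ← pow_mul,
    ← pow_mul] at h4
  have hp1 : (1 : ℝ) < p := by exact_mod_cast hp.out.one_lt
  have h5 := pow_right_injective₀ (a := (p : ℝ)⁻¹) (by positivity)
    (by
      intro h
      exact hp1.ne' (inv_eq_one.1 h)) h4
  rw [sum_saw]
  have h6 : (X.map fun x => ∑ j ∈ range f, ((p : ZMod M) ^ j * (t : ZMod M) * x).val).sum * 2 =
      f * (Multiset.card X * M) := by
    apply Nat.eq_of_mul_eq_mul_right hN
    rw [mul_assoc, h5]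
    ring
  omega

end Trans

theorem stTrans (hS : StStick) : StTrans := by
  intro p _ F _ _ _ f hf M _ θ hθ ψ hψ X hX
  obtain ⟨hne, N, hN, hprod⟩ := hX
  have := Kron.E_finite (F := F) p θ ψ
  have : NumberField (Kron.E θ ψ) := NumberField.mk
  have hθE : orderOf (Kron.θE θ ψ) = M := by
    rw [← Kron.order_map (algebraMap (Kron.E θ ψ) ℂ), Kron.θE_map, hθ]
  have hψE : Kron.ψE θ ψ ≠ 1 := by
    intro h
    apply hψ
    rw [← Kron.ψE_map θ ψ, h]
    ext a
    rw [Kron.addMap_apply, AddChar.one_apply, AddChar.one_apply, map_one]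
  have h0 : (0 : ZMod M) ∉ X := by
    intro h
    have h1 := hne _ (Multiset.mem_map_of_mem _ h)
    rw [ZMod.val_zero, pow_zero] at h1
    exact h1 rfl
  refine Trans.key hS p f hf hθE hψE h0 hN ?_
  apply (algebraMap (Kron.E θ ψ) ℂ).injective
  rw [Multiset.map_map, Multiset.card_map] at hprod
  simp only [map_pow, map_natCast, map_multiset_prod, Multiset.map_map, Function.comp_def,
    Kron.gs_map, ← MulChar.ringHomComp_pow, Kron.θE_map, Kron.ψE_map]
  exact hprod

end Pool.Agent.Lib.MP81632f.Diag
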