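import Pool.Agent.Lib.MP_81632f_ag.Diag.Crit

/-!
# Two prime powers modulo which `-1` is a power of `p`
-/

set_option autoImplicit false

noncomputable section

namespace Pool.Agent.Lib.MP81632f.Diag

open Finset

/-- `-1` is a power of `p` modulo `N`. -/
def NegPow (p N : ℕ) : Prop := ∃ i : ℕ, N ∣ p ^ i + 1

/-- The degrees `A B` and `2 A B` with prime powers `A`, `B` modulo which `-1` is a power
of `p`. -/
def StTwo : Prop :=
  ∀ (M p f : ℕ) [NeZero M], 1 < M → 0 < f → (p : ZMod M) ^ f = 1 →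
    ∀ l r a b : ℕ, l.Prime → r.Prime → l ≠ r →
    (M = l ^ a * r ^ b ∨ (M = 2 * (l ^ a * r ^ b) ∧ Odd (l ^ a * r ^ b))) →
    NegPow p (l ^ a) → NegPow p (r ^ b) → LP M p f

namespace Two

open Crit
open Red (ev dh_mem mul_quot quot_ne two_torsion)

variable {M : ℕ} [NeZero M] {p f : ℕ}

theorem saw_pow (hp : (p : ZMod M) ^ f = 1) (t x : ZMod M) (i : ℕ) :
    saw M p f t ((p : ZMod M) ^ i * x) = saw M p f t x := by
  induction i with
  | zero => rw [pow_zero, one_mul]
  | succ i ih =>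
    rw [pow_succ', mul_assoc, Basic.saw_p hp, ih]

/-- `p ^ i x = -x` implies that `x` is supersingular -/
theorem ss_of_pow (hf : 0 < f) (hp : (p : ZMod M) ^ f = 1) {x : ZMod M} (hx : x ≠ 0) {i : ℕ}
    (h : (p : ZMod M) ^ i * x = -x) : SSel M p f x := by
  refine ⟨hx, fun t => ?_⟩
  have h1 := saw_pow hp (t : ZMod M) x i
  rw [h, Basic.saw_neg hf hp t.isUnit hx] at h1
  linarith

theorem ss_of_negPow (hf : 0 < f) (hp : (p : ZMod M) ^ f = 1) {A : ℕ} (hA : NegPow p A)
    {x : ZMod M} (hx : x ≠ 0) (h : A • x = 0) : SSel M p f x := by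
  obtain ⟨i, k, hk⟩ := hA
  refine ss_of_pow hf hp hx (i := i) ?_
  have h1 : ((p ^ i + 1 : ℕ) : ZMod M) * x = 0 := by
    rw [hk, mul_comm A k, Nat.cast_mul, mul_assoc, ← nsmul_eq_mul A x, h, mul_zero]
  push_cast at h1
  linear_combination h1

theorem ss_of_two (hf : 0 < f) (hp : (p : ZMod M) ^ f = 1) {x : ZMod M} (hx : x ≠ 0)
    (h : 2 • x = 0) : SSel M p f x := by
  refine ss_of_pow hf hp hx (i := 0) ?_
  rw [pow_zero, one_mul]
  have : x + x = 0 := by rw [← two_smul ℕ]; exact h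
  exact eq_neg_of_add_eq_zero_left this

/-- the sum over the multiples of `M / q` -/
theorem third (hB : StBasic) (hM : 1 < M) (hf : 0 < f) (hp : (p : ZMod M) ^ f = 1)
    {q : ℕ} (hq : q.Prime) (hd : q ∣ M) :
    ∑ j ∈ range (q - 1), ev (((j + 1 : ℕ) : ZMod M) * ((M / q : ℕ) : ZMod M)) ∈
      Sub M p f ⊔ SS M p f := by
  rcases hq.eq_two_or_odd' with rfl | hodd
  · refine (le_sup_right : SS M p f ≤ _) ?_
    rw [show 2 - 1 = 1 from rfl, sum_range_one]
    refine ss_mem (ss_of_two hf hp (quot_ne hq hd (by norm_num) (by norm_num)) ?_)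
    rw [zero_add, Nat.cast_one, one_mul, nsmul_eq_mul]
    exact mul_quot hd
  · refine (le_sup_left : Sub M p f ≤ _) ?_
    obtain ⟨m, hm⟩ := hodd
    have h1 : q - 1 = m + m := by omega
    rw [h1, sum_range_add, ← sum_range_reflect (fun x => ev (((m + x + 1 : ℕ) : ZMod M) *
      ((M / q : ℕ) : ZMod M))) m, ← sum_add_distrib]
    refine AddSubgroup.sum_mem _ fun j hj => ?_
    rw [mem_range] at hj
    have h2 : ((m + (m - 1 - j) + 1 : ℕ) : ZMod M) * ((M / q : ℕ) : ZMod M) =
        -(((j + 1 : ℕ) : ZMod M) * ((M / q : ℕ) : ZMod M)) := by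
      have h3 : m + (m - 1 - j) + 1 + (j + 1) = q := by omega
      have h4 : ((m + (m - 1 - j) + 1 : ℕ) : ZMod M) + ((j + 1 : ℕ) : ZMod M) = (q : ZMod M) := by
        rw [← Nat.cast_add, h3]
      have h5 := mul_quot (M := M) hd
      rw [← h4, add_mul] at h5
      exact eq_neg_of_add_eq_zero_left h5
    rw [h2]
    exact Red.ev_neg hB hM hf hp (quot_ne hq hd (by omega) (by omega))

theorem order_dvd (z : ZMod M) : addOrderOf z ∣ M := by
  apply addOrderOf_dvd_of_nsmul_eq_zero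
  rw [nsmul_eq_mul, ZMod.natCast_self, zero_mul]

/-- division by a prime `q`, when `q` times the order divides `M` -/
theorem exists_div {q : ℕ} (x : ZMod M) (h : addOrderOf x * q ∣ M) :
    ∃ y : ZMod M, (q : ZMod M) * y = x := by
  have hpos : 0 < addOrderOf x := addOrderOf_pos x
  have h1 : M ∣ addOrderOf x * x.val := by
    rw [← ZMod.natCast_eq_zero_iff, Nat.cast_mul, ZMod.natCast_zmod_val, ← nsmul_eq_mul]
    exact addOrderOf_nsmul_eq_zero x
  have h3 : q ∣ x.val := Nat.dvd_of_mul_dvd_mul_left hpos (h.trans h1)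
  obtain ⟨c, hc⟩ := h3
  refine ⟨(c : ZMod M), ?_⟩
  rw [← Nat.cast_mul, ← hc, ZMod.natCast_zmod_val]

/-- the order of a quotient -/
theorem order_div {q : ℕ} (hq : q.Prime) {x y : ZMod M} (hy : (q : ZMod M) * y = x)
    (hqx : q ∣ addOrderOf x) : addOrderOf y = addOrderOf x * q := by
  have h1 : addOrderOf (q • y) = addOrderOf x := by rw [nsmul_eq_mul, hy]
  have h2 : addOrderOf x ∣ addOrderOf y := by
    rw [← h1]; exact addOrderOf_smul_dvd q
  have h3 : addOrderOf (q • y) = addOrderOf y / q :=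
    addOrderOf_nsmul_of_dvd hq.ne_zero (hqx.trans h2)
  rw [← h1, h3, Nat.div_mul_cancel (hqx.trans h2)]

/-- one step upwards -/
theorem step (hB : StBasic) (hM : 1 < M) (hf : 0 < f) (hp : (p : ZMod M) ^ f = 1)
    (W : AddSubgroup (ZMod M → ℤ)) (hsub : Sub M p f ≤ W) (hss : SS M p f ≤ W)
    {q : ℕ} (hq : q.Prime) {x : ZMod M} (hx : x ≠ 0) (hqx : q ∣ addOrderOf x)
    (hd : addOrderOf x * q ∣ M)
    (h : ∀ y : ZMod M, (q : ZMod M) * y = x → addOrderOf y = addOrderOf x * q → ev y ∈ W) :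
    ev x ∈ W := by
  have hqM : q ∣ M := (Dvd.intro_left _ rfl : q ∣ addOrderOf x * q).trans hd
  obtain ⟨y, hy⟩ := exists_div x hd
  have h1 := dh_mem (p := p) (f := f) hq hqM (y := y) (by rw [hy]; exact hx)
  rw [hy] at h1
  have h2 := Red.ev_neg hB hM hf hp hx
  have h3 : ∑ j ∈ range (q - 1), ev (((j + 1 : ℕ) : ZMod M) * ((M / q : ℕ) : ZMod M)) ∈ W :=
    (sup_le hsub hss) (third hB hM hf hp hq hqM)
  have h4 : ∑ j ∈ range q, ev (y + (j : ZMod M) * ((M / q : ℕ) : ZMod M)) ∈ W := by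
    refine AddSubgroup.sum_mem _ fun j _ => ?_
    have h5 : (q : ZMod M) * (y + (j : ZMod M) * ((M / q : ℕ) : ZMod M)) = x := by
      rw [mul_add, hy]
      have h5 : (q : ZMod M) * ((j : ZMod M) * ((M / q : ℕ) : ZMod M)) = 0 := by
        rw [mul_left_comm, mul_quot hqM, mul_zero]
      rw [h5, add_zero]
    exact h _ h5 (order_div hq h5 hqx)
  have h5 : ev x = (∑ j ∈ range q, ev (y + (j : ZMod M) * ((M / q : ℕ) : ZMod M)) +
      ∑ j ∈ range (q - 1), ev (((j + 1 : ℕ) : ZMod M) * ((M / q : ℕ) : ZMod M))) +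
      ((ev x + ev (-x)) -
      (∑ j ∈ range q, ev (y + (j : ZMod M) * ((M / q : ℕ) : ZMod M)) + ev (-x) +
        ∑ j ∈ range (q - 1), ev (((j + 1 : ℕ) : ZMod M) * ((M / q : ℕ) : ZMod M)))) := by
    abel
  rw [h5]
  exact add_mem (add_mem h4 h3) (hsub (sub_mem h2 h1))

/-- elements of maximal order are units -/
theorem unit_of_order {x : ZMod M} (h : addOrderOf x = M) : IsUnit x := by
  have hM0 : 0 < M := Nat.pos_of_ne_zero (NeZero.ne M)
  have h1 : addOrderOf x = M / M.gcd x.val := by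
    conv_lhs => rw [← ZMod.natCast_zmod_val x]
    exact ZMod.addOrderOf_coe x.val (NeZero.ne M)
  rw [h] at h1
  have hg : M.gcd x.val = 1 := by
    have hd := Nat.gcd_dvd_left M x.val
    have h2 := Nat.div_mul_cancel hd
    rw [← h1] at h2
    exact Nat.eq_of_mul_eq_mul_left hM0 (by rw [h2, mul_one])
  rw [← ZMod.natCast_zmod_val x, ZMod.isUnit_iff_coprime]
  rw [Nat.gcd_comm] at hg
  exact hg

/-- elements of order `N` in `ℤ / 2 N`, `N` odd -/
theorem two_unit_of_order {N : ℕ} (hN : Odd N) (hMN : M = 2 * N) {x : ZMod M}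
    (h : addOrderOf x = N) : ∃ t : (ZMod M)ˣ, x = 2 * (t : ZMod M) := by
  have hM0 : 0 < M := Nat.pos_of_ne_zero (NeZero.ne M)
  have hN0 : 0 < N := by omega
  have h1 : addOrderOf x = M / M.gcd x.val := by
    conv_lhs => rw [← ZMod.natCast_zmod_val x]
    exact ZMod.addOrderOf_coe x.val (NeZero.ne M)
  rw [h] at h1
  have hg : M.gcd x.val = 2 := by
    have hd := Nat.gcd_dvd_left M x.val
    have h2 := Nat.div_mul_cancel hd
    rw [← h1] at h2
    have h3 : N * M.gcd x.val = N * 2 := by rw [h2, hMN, mul_comm]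
    exact Nat.eq_of_mul_eq_mul_left hN0 h3
  obtain ⟨k, hk⟩ : 2 ∣ x.val := hg ▸ Nat.gcd_dvd_right M x.val
  have hNk : N.gcd k = 1 := by
    have hg' : Nat.gcd (2 * N) (2 * k) = 2 := by
      rw [← hMN, ← hk]
      exact hg
    rw [Nat.gcd_mul_left] at hg'
    omega
  have hx : x = 2 * (k : ZMod M) := by
    conv_lhs => rw [← ZMod.natCast_zmod_val x, hk]
    push_cast
    ring
  rcases Nat.even_or_odd k with hke | hko
  · have hodd : Odd (k + N) := hke.add_odd hN
    have hcop : (k + N).Coprime M := by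
      rw [hMN]
      refine Nat.Coprime.mul_right ?_ ?_
      · exact Nat.coprime_two_right.mpr hodd
      · rw [Nat.coprime_add_self_left]
        rw [Nat.Coprime, Nat.gcd_comm]
        exact hNk
    refine ⟨ZMod.unitOfCoprime (k + N) hcop, ?_⟩
    rw [ZMod.coe_unitOfCoprime, hx]
    have h2 : ((2 * N : ℕ) : ZMod M) = 0 := by rw [← hMN, ZMod.natCast_self]
    push_cast at h2 ⊢
    linear_combination -h2
  · have hcop : k.Coprime M := by
      rw [hMN]
      refine Nat.Coprime.mul_right ?_ ?_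
      · exact Nat.coprime_two_right.mpr hko
      · rw [Nat.Coprime, Nat.gcd_comm]
        exact hNk
    refine ⟨ZMod.unitOfCoprime k hcop, ?_⟩
    rw [ZMod.coe_unitOfCoprime, hx]

/-- the elements whose order divides `l ^ a r ^ b` -/
theorem levels (hB : StBasic) (hM : 1 < M) (hf : 0 < f) (hp : (p : ZMod M) ^ f = 1)
    (W : AddSubgroup (ZMod M → ℤ)) (hsub : Sub M p f ≤ W) (hss : SS M p f ≤ W)
    {l r a b : ℕ} (hl : l.Prime) (hr : r.Prime) (hlr : l ≠ r)
    (hdM : l ^ a * r ^ b ∣ M)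
    (hA : ∀ x : ZMod M, x ≠ 0 → l ^ a • x = 0 → ev x ∈ W)
    (hBB : ∀ x : ZMod M, x ≠ 0 → r ^ b • x = 0 → ev x ∈ W)
    (htop : ∀ x : ZMod M, addOrderOf x = l ^ a * r ^ b → ev x ∈ W) :
    ∀ x : ZMod M, x ≠ 0 → addOrderOf x ∣ l ^ a * r ^ b → ev x ∈ W := by
  have hN0 : 0 < l ^ a * r ^ b := Nat.mul_pos (pow_pos hl.pos a) (pow_pos hr.pos b)
  suffices h : ∀ (m : ℕ) (x : ZMod M), x ≠ 0 → addOrderOf x * m = l ^ a * r ^ b → ev x ∈ W by
    intro x hx hd
    obtain ⟨m, hm⟩ := hd
    exact h m x hx hm.symm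
  intro m
  induction m using Nat.strong_induction_on with
  | _ m ih =>
    intro x hx hm
    have hn0 : 0 < addOrderOf x := addOrderOf_pos x
    by_cases hm1 : m = 1
    · rw [hm1, mul_one] at hm
      exact htop x hm
    by_cases hlx : l ∣ addOrderOf x
    · by_cases hrx : r ∣ addOrderOf x
      · obtain ⟨q, hq, hqm⟩ := Nat.exists_prime_and_dvd hm1
        obtain ⟨m', rfl⟩ := hqm
        have hq' : q = l ∨ q = r := by
          have h1 : q ∣ l ^ a * r ^ b := by
            rw [← hm]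
            exact (Dvd.intro _ rfl : q ∣ q * m').trans (Dvd.intro_left _ rfl)
          rcases (hq.dvd_mul).mp h1 with h2 | h2
          · left; exact (Nat.prime_dvd_prime_iff_eq hq hl).mp (hq.dvd_of_dvd_pow h2)
          · right; exact (Nat.prime_dvd_prime_iff_eq hq hr).mp (hq.dvd_of_dvd_pow h2)
        have hqx : q ∣ addOrderOf x := by
          rcases hq' with rfl | rfl
          · exact hlx
          · exact hrx
        have hm'0 : m' ≠ 0 := by
          rintro rfl
          rw [mul_zero, mul_zero] at hm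
          omega
        refine step hB hM hf hp W hsub hss hq hx hqx ?_ ?_
        · refine Dvd.dvd.trans ?_ hdM
          rw [← hm, ← mul_assoc]
          exact Dvd.intro _ rfl
        · intro y hy hoy
          refine ih m' ?_ y ?_ ?_
          · have := hq.one_lt
            have h2 : 0 < m' := Nat.pos_of_ne_zero hm'0
            nlinarith
          · rintro rfl
            rw [mul_zero] at hy
            exact hx hy.symm
          · rw [hoy, ← hm, mul_assoc]
      · refine hA x hx ?_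
        have h1 : addOrderOf x ∣ l ^ a := by
          have h2 : (addOrderOf x).Coprime (r ^ b) :=
            (Nat.Coprime.pow_left b ((Nat.Prime.coprime_iff_not_dvd hr).mpr hrx)).symm
          exact h2.dvd_of_dvd_mul_right (hm ▸ Dvd.intro _ rfl)
        exact addOrderOf_dvd_iff_nsmul_eq_zero.mp h1
    · refine hBB x hx ?_
      have h1 : addOrderOf x ∣ r ^ b := by
        have h2 : (addOrderOf x).Coprime (l ^ a) :=
          (Nat.Coprime.pow_left a ((Nat.Prime.coprime_iff_not_dvd hl).mpr hlx)).symm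
        exact h2.dvd_of_dvd_mul_left (hm ▸ Dvd.intro _ rfl)
      exact addOrderOf_dvd_iff_nsmul_eq_zero.mp h1

/-- from `N` to `2 N` -/
theorem double (hB : StBasic) (hM : 1 < M) (hf : 0 < f) (hp : (p : ZMod M) ^ f = 1)
    (W : AddSubgroup (ZMod M → ℤ)) (hsub : Sub M p f ≤ W) (hss : SS M p f ≤ W)
    {N : ℕ} (hN : Odd N) (hMN : M = 2 * N)
    (h : ∀ x : ZMod M, x ≠ 0 → addOrderOf x ∣ N → ev x ∈ W) :
    ∀ x : ZMod M, x ≠ 0 → ev x ∈ W := by
  intro x hx
  have h2M : 2 ∣ M := ⟨N, hMN⟩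
  set c : ZMod M := ((M / 2 : ℕ) : ZMod M) with hc
  have hc0 : c ≠ 0 := by
    have := quot_ne (M := M) Nat.prime_two h2M (j := 1) (by norm_num) (by norm_num)
    rwa [Nat.cast_one, one_mul] at this
  have hcc : 2 • c = 0 := by
    rw [nsmul_eq_mul]
    exact mul_quot h2M
  have hcc' : c + c = 0 := by rw [← two_smul ℕ c]; exact hcc
  have hcW : ev c ∈ W := hss (ss_mem (ss_of_two hf hp hc0 hcc))
  by_cases hx1 : N • x = 0
  · exact h x hx (addOrderOf_dvd_of_nsmul_eq_zero hx1)
  have h1 : N • x = c := by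
    refine two_torsion h2M ?_ hx1
    rw [smul_smul, ← hMN, nsmul_eq_mul, ZMod.natCast_self, zero_mul]
  have h2 : N • c = c := by
    obtain ⟨m, hm⟩ := hN
    rw [hm, add_smul, one_smul, mul_comm, mul_smul, hcc, smul_zero, zero_add]
  have h3 : N • (x + c) = 0 := by rw [smul_add, h1, h2, hcc']
  by_cases hxc : x + c = 0
  · have h4 : x = c := by
      have h5 : x = -c := eq_neg_of_add_eq_zero_left hxc
      have h6 : -c = c := by
        rw [neg_eq_iff_add_eq_zero]
        exact hcc'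
      rw [h5, h6]
    rw [h4]
    exact hcW
  have h4 : ev (x + c) ∈ W := h _ hxc (addOrderOf_dvd_of_nsmul_eq_zero h3)
  have h5 : (2 : ZMod M) * (x + c) ≠ 0 := by
    intro h6
    have h7 : 2 • (x + c) = 0 := by rw [nsmul_eq_mul]; exact_mod_cast h6
    apply hxc
    have h8 : addOrderOf (x + c) ∣ 2 := addOrderOf_dvd_of_nsmul_eq_zero h7
    have h9 : addOrderOf (x + c) ∣ N := addOrderOf_dvd_of_nsmul_eq_zero h3
    have h10 : addOrderOf (x + c) ∣ 1 := by
      have h11 : Nat.gcd 2 N = 1 := Nat.coprime_two_left.mpr hN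
      rw [← h11]
      exact Nat.dvd_gcd h8 h9
    rw [Nat.dvd_one, AddMonoid.addOrderOf_eq_one_iff] at h10
    exact h10
  have h6 : ev (-((2 : ZMod M) * (x + c))) ∈ W := by
    refine h _ (neg_ne_zero.mpr h5) ?_
    rw [addOrderOf_neg]
    refine addOrderOf_dvd_of_nsmul_eq_zero ?_
    have h7 : (2 : ZMod M) * (x + c) = 2 • (x + c) := by
      rw [nsmul_eq_mul]; push_cast; ring
    rw [h7, smul_comm, h3, smul_zero]
  have h7 := dh_mem (p := p) (f := f) Nat.prime_two h2M (y := x + c) (by exact_mod_cast h5)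
  have h8 : ∑ j ∈ range 2, ev (x + c + (j : ZMod M) * ((M / 2 : ℕ) : ZMod M)) =
      ev (x + c) + ev x := by
    rw [sum_range_succ, sum_range_one, Nat.cast_zero, zero_mul, add_zero, Nat.cast_one, one_mul,
      ← hc, add_assoc, hcc', add_zero]
  have h9 : ∑ j ∈ range (2 - 1), ev (((j + 1 : ℕ) : ZMod M) * ((M / 2 : ℕ) : ZMod M)) =
      ev c := by
    rw [show 2 - 1 = 1 from rfl, sum_range_one, zero_add, Nat.cast_one, one_mul]
  rw [h8, h9] at h7
  have h10 : ev x = (ev (x + c) + ev x + ev (-(((2 : ℕ) : ZMod M) * (x + c))) + ev c) -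
      ev (x + c) - ev (-(((2 : ℕ) : ZMod M) * (x + c))) - ev c := by abel
  rw [h10]
  have h11 : ev (-(((2 : ℕ) : ZMod M) * (x + c))) ∈ W := by exact_mod_cast h6
  exact sub_mem (sub_mem (sub_mem (hsub h7) h4) h11) hcW

/-- a unit with value `p` -/
theorem exists_unit (hf : 0 < f) (hp : (p : ZMod M) ^ f = 1) :
    ∃ u : (ZMod M)ˣ, (u : ZMod M) = p := Basic.isUnit_p hf hp

/-- supersingular `p` -/
theorem lp_of_neg (hB : StBasic) (hM : 1 < M) (hf : 0 < f) (hp : (p : ZMod M) ^ f = 1)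
    (u : (ZMod M)ˣ) (hu : (u : ZMod M) = p) (hneg : (-1 : (ZMod M)ˣ) ∈ Subgroup.zpowers u) :
    LP M p f := by
  refine lp_ss hB hM hf hp fun x hx => (le_sup_right : SS M p f ≤ _) (ss_mem ?_)
  obtain ⟨i, hi⟩ := (mem_powers_iff_mem_zpowers).mpr hneg
  refine ss_of_pow hf hp hx (i := i) ?_
  have h1 : ((u ^ i : (ZMod M)ˣ) : ZMod M) = ((-1 : (ZMod M)ˣ) : ZMod M) := by
    have hi' : u ^ i = -1 := hi
    rw [hi']
  rw [Units.val_pow_eq_pow_val, hu, Units.val_neg, Units.val_one] at h1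
  rw [h1, neg_one_mul]

end Two

open Two Crit in
/-- two prime powers modulo which `-1` is a power of `p` -/
theorem stTwo (hB : StBasic) (hR : StRank) : StTwo := by
  intro M p f _ hM hf hp l r a b hl hr hlr hMN hA hBB
  obtain ⟨u, hu⟩ := exists_unit hf hp
  by_cases hneg : (-1 : (ZMod M)ˣ) ∈ Subgroup.zpowers u
  · exact lp_of_neg hB hM hf hp u hu hneg
  rcases hMN with hMN | ⟨hMN, hodd⟩
  · refine crit hB hR hM hf hp u hu hneg (c := 1) ?_ fun x hx => ?_
    · have : Fact (1 < M) := ⟨hM⟩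
      exact one_ne_zero
    · have hss : SS M p f ≤ Sub M p f ⊔ Top M 1 ⊔ SS M p f := le_sup_right
      refine levels hB hM hf hp _ (le_sup_left.trans le_sup_left) hss hl hr hlr
        (by rw [← hMN]) ?_ ?_ ?_ x hx (by rw [← hMN]; exact order_dvd x)
      · exact fun y hy h => hss (ss_mem (ss_of_negPow hf hp hA hy h))
      · exact fun y hy h => hss (ss_mem (ss_of_negPow hf hp hBB hy h))
      · intro y hy
        rw [← hMN] at hy
        obtain ⟨t, ht⟩ := unit_of_order hy
        refine (le_sup_right.trans le_sup_left : Top M 1 ≤ _) ?_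
        rw [← ht, ← one_mul ((t : (ZMod M)ˣ) : ZMod M)]
        exact top_mem 1 t
  · refine crit hB hR hM hf hp u hu hneg (c := 2) ?_ fun x hx => ?_
    · intro h
      have h1 : ((2 : ℕ) : ZMod M) = 0 := by exact_mod_cast h
      rw [ZMod.natCast_eq_zero_iff] at h1
      have h2 := Nat.le_of_dvd (by norm_num) h1
      have h3 : M = 2 := by omega
      -- `M = 2`: then `-1 = 1`
      subst h3
      apply hneg
      have h4 : (-1 : (ZMod 2)ˣ) = 1 := by decide
      rw [h4]
      exact one_mem _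
    · have hss : SS M p f ≤ Sub M p f ⊔ Top M 2 ⊔ SS M p f := le_sup_right
      refine double hB hM hf hp _ (le_sup_left.trans le_sup_left) hss hodd hMN ?_ x hx
      refine levels hB hM hf hp _ (le_sup_left.trans le_sup_left) hss hl hr hlr
        ⟨2, by rw [hMN, mul_comm]⟩ ?_ ?_ ?_
      · exact fun y hy h => hss (ss_mem (ss_of_negPow hf hp hA hy h))
      · exact fun y hy h => hss (ss_mem (ss_of_negPow hf hp hBB hy h))
      · intro y hy
        obtain ⟨t, ht⟩ := two_unit_of_order hodd hMN hy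
        refine (le_sup_right.trans le_sup_left : Top M 2 ≤ _) ?_
        rw [ht]
        exact top_mem 2 t

end Pool.Agent.Lib.MP81632f.Diag
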