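import Pool.Agent.Lib.MP_81632f_ag.Diag.Push
import Pool.Agent.Lib.MP_81632f_ag.Diag.Two
import Pool.Agent.Lib.MP_81632f_ag.Diag.RankTwo

/-!
# Raising the exponents of the primes
-/

set_option autoImplicit false

noncomputable section

namespace Pool.Agent.Lib.MP81632f.Diag

open Finset

/-- The units modulo `d` are generated by `p` and the primes dividing `M` but not `d`. -/
def GenBy (p M d : ℕ) : Prop :=
  ∀ H : Subgroup (ZMod d)ˣ, (∀ u : (ZMod d)ˣ, (u : ZMod d) = p → u ∈ H) →
    (∀ r : ℕ, r.Prime → r ∣ M → ¬ r ∣ d → ∀ u : (ZMod d)ˣ, (u : ZMod d) = r → u ∈ H) → H = ⊤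

/-- The hypothesis of the transfer: for every divisor `d` of `M` not divisible by all primes
of `M`, either `-1` is a power of `p` modulo `d`, or the units modulo `d` are generated by `p`
and the primes dividing `M` but not `d`. -/
def StepHyp (p M : ℕ) : Prop :=
  ∀ d : ℕ, d ∣ M → d ≠ 1 → (∃ r : ℕ, r.Prime ∧ r ∣ M ∧ ¬ r ∣ d) → NegPow p d ∨ GenBy p M d

namespace Transfer

open Crit Two Push
open Red (ev dh_mem mul_quot quot_ne two_torsion)

variable {M : ℕ} [NeZero M] {p f : ℕ}

/-- `Sub + Top + SS` -/
abbrev WW (M p f : ℕ) : AddSubgroup (ZMod M → ℤ) := Sub M p f ⊔ Top M 1 ⊔ SS M p f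

omit [NeZero M] in
theorem sub_le : Sub M p f ≤ WW M p f := le_sup_left.trans le_sup_left

omit [NeZero M] in
theorem ss_le : SS M p f ≤ WW M p f := le_sup_right

omit [NeZero M] in
theorem top_le : Top M 1 ≤ WW M p f := le_sup_right.trans le_sup_left

/-- elements whose order is divisible by all primes of `M` -/
theorem full (hB : StBasic) (hM : 1 < M) (hf : 0 < f) (hp : (p : ZMod M) ^ f = 1) :
    ∀ (m : ℕ) (x : ZMod M), addOrderOf x * m = M →
      (∀ r : ℕ, r.Prime → r ∣ M → r ∣ addOrderOf x) → ev x ∈ WW M p f := by
  intro m
  induction m using Nat.strong_induction_on with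
  | _ m ih =>
    intro x hm hfull
    by_cases hm1 : m = 1
    · rw [hm1, mul_one] at hm
      obtain ⟨t, ht⟩ := unit_of_order hm
      refine top_le ?_
      rw [← ht, ← one_mul ((t : (ZMod M)ˣ) : ZMod M)]
      exact top_mem 1 t
    · obtain ⟨q, hq, hqm⟩ := Nat.exists_prime_and_dvd hm1
      obtain ⟨m', rfl⟩ := hqm
      have hqM : q ∣ M := by
        rw [← hm]
        exact (Dvd.intro _ rfl : q ∣ q * m').trans (Dvd.intro_left _ rfl)
      have hqx := hfull q hq hqM
      have hx : x ≠ 0 := by
        rintro rfl
        rw [addOrderOf_zero] at hqx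
        exact hq.one_lt.ne' (Nat.dvd_one.mp hqx)
      have hm'0 : 0 < m' := by
        rcases Nat.eq_zero_or_pos m' with h | h
        · rw [h, mul_zero, mul_zero] at hm
          exact absurd hm.symm (NeZero.ne M)
        · exact h
      have e1 : addOrderOf x * q * m' = M := by rw [mul_assoc]; exact hm
      refine step hB hM hf hp (WW M p f) sub_le ss_le hq hx hqx ?_ ?_
      · exact ⟨m', e1.symm⟩
      · intro y hy hoy
        refine ih m' ?_ y ?_ ?_
        · have := hq.one_lt
          nlinarith
        · rw [hoy]
          exact e1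
        · intro r hr hrM
          rw [hoy]
          exact (hfull r hr hrM).mul_right q

theorem smul_eq_of_map {d : ℕ} (hd : d ∣ M) {x : ZMod M} (hx : d • x = 0) (g : (ZMod M)ˣ) (n : ℕ)
    (h : ((ZMod.unitsMap hd g : (ZMod d)ˣ) : ZMod d) = (n : ZMod d)) :
    (g : ZMod M) * x = (n : ZMod M) * x := by
  rw [ZMod.unitsMap_val, ZMod.cast_eq_val, ZMod.natCast_eq_natCast_iff] at h
  have h1 : (g : ZMod M) = (((g : ZMod M).val : ℕ) : ZMod M) := (ZMod.natCast_zmod_val _).symm
  have key : ∀ a b : ℕ, a ≡ b [MOD d] → a ≤ b → (a : ZMod M) * x = (b : ZMod M) * x := by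
    intro a b hab hle
    obtain ⟨c, hc⟩ := (Nat.modEq_iff_dvd' hle).mp hab
    have h2 : b = a + d * c := by omega
    rw [h2]
    push_cast
    have h3 : (d : ZMod M) * x = 0 := by rw [← nsmul_eq_mul]; exact hx
    linear_combination -(c : ZMod M) * h3
  rw [h1]
  rcases le_total (g : ZMod M).val n with hle | hle
  · exact key _ _ h hle
  · exact (key _ _ h.symm hle).symm

theorem conj_of {d n : ℕ} (hdM : d ∣ M) (hn : Nat.Coprime n d) {x : ZMod M}
    (hx : d • x = 0) : ∃ γ : (ZMod M)ˣ, (γ : ZMod M) * x = (n : ZMod M) * x := by
  obtain ⟨γ, hγ⟩ := ZMod.unitsMap_surjective hdM (ZMod.unitOfCoprime n hn)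
  exact ⟨γ, smul_eq_of_map hdM hx γ n (by rw [hγ, ZMod.coe_unitOfCoprime])⟩

theorem two_case (hB : StBasic) (hM : 1 < M) (hE : Odd M ∨ 4 ∣ M) (hf : 0 < f)
    (hp : (p : ZMod M) ^ f = 1) (h2M : 2 ∣ M) {d : ℕ} (hd1 : d ≠ 1) (hdM : d ∣ M)
    (h2d : ¬ 2 ∣ d) {y : ZMod M} (hy : addOrderOf y = d)
    (ih : ∀ z' : ZMod M, addOrderOf z' = 4 * d → (2 : ℤ) • ev z' ∈ WW M p f ∧
      ∀ g : (ZMod M)ˣ, ev ((g : ZMod M) * z') - ev z' ∈ WW M p f) :
    ev (((2 : ℕ) : ZMod M) * y) - ev y ∈ WW M p f := by
  have h4M : 4 ∣ M := by
    rcases hE with h | h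
    · exact absurd (h.of_dvd_nat h2M) (by decide)
    · exact h
  have hd0 : 0 < d := by rw [← hy]; exact addOrderOf_pos y
  have hcop2 : Nat.Coprime d 2 :=
    ((Nat.Prime.coprime_iff_not_dvd Nat.prime_two).mpr h2d).symm
  have hcop : Nat.Coprime 4 d := Nat.Coprime.pow_left 2 hcop2.symm
  have h4d : 4 * d ∣ M := hcop.mul_dvd_of_dvd_of_dvd h4M hdM
  set c : ZMod M := ((M / 2 : ℕ) : ZMod M) with hc
  have hc0 : c ≠ 0 := by
    have := quot_ne (M := M) Nat.prime_two h2M (j := 1) (by norm_num) (by norm_num)
    rwa [Nat.cast_one, one_mul] at this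
  have hcc : 2 • c = 0 := by
    rw [nsmul_eq_mul]
    exact mul_quot h2M
  have hcW : ev c ∈ WW M p f := ss_le (ss_mem (ss_of_two hf hp hc0 hcc))
  have hoc : addOrderOf c = 2 := addOrderOf_eq_prime hcc hc0
  -- the element `z = y + c` of order `2 d`
  have hoz : addOrderOf (y + c) = d * 2 := by
    rw [(AddCommute.all y _).addOrderOf_add_eq_mul_addOrderOf_of_coprime
      (by rw [hy, hoc]; exact hcop2), hy, hoc]
  obtain ⟨z', hz'⟩ := exists_div (q := 2) (y + c) (by
    rw [hoz]
    have h5 : d * 2 * 2 = 4 * d := by ring
    rw [h5]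
    exact h4d)
  have hoz' : addOrderOf z' = 4 * d := by
    rw [order_div Nat.prime_two hz' (by rw [hoz]; exact Dvd.intro_left _ rfl), hoz]
    ring
  have hzne : y + c ≠ 0 := by
    intro h
    rw [h, addOrderOf_zero] at hoz
    omega
  obtain ⟨i1, i2⟩ := ih z' hoz'
  -- `z' + c` is conjugate to `z'`
  have hdc : ((2 * d : ℕ) : ZMod M) * z' = c := by
    have h5 : (2 * d) • z' = c := by
      refine two_torsion h2M ?_ ?_
      · rw [smul_smul, show 2 * (2 * d) = 4 * d by ring, ← hoz']
        exact addOrderOf_nsmul_eq_zero z'
      · intro h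
        have h6 := addOrderOf_dvd_of_nsmul_eq_zero h
        rw [hoz'] at h6
        have := Nat.le_of_dvd (by omega) h6
        omega
    rw [← h5, nsmul_eq_mul]
  have hn : Nat.Coprime (1 + 2 * d) (4 * d) := by
    refine Nat.Coprime.mul_right ?_ ?_
    · have h5 : Nat.Coprime (1 + 2 * d) 2 := by
        rw [Nat.coprime_two_right]
        exact ⟨d, by ring⟩
      exact h5.pow_right 2
    · rw [Nat.coprime_add_mul_right_left]
      exact Nat.coprime_one_left d
  obtain ⟨γ, hγ⟩ := conj_of h4d hn (x := z') (by
    rw [← hoz']; exact addOrderOf_nsmul_eq_zero z')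
  have hγ' : (γ : ZMod M) * z' = z' + c := by
    rw [hγ, Nat.cast_add, Nat.cast_one, add_mul, one_mul, hdc]
  have h1 := i2 γ
  rw [hγ'] at h1
  -- the relation at `z'`
  have h2 := dh_mem (p := p) (f := f) Nat.prime_two h2M (y := z') (by rw [hz']; exact hzne)
  have hs2 : ∀ w : ZMod M, ∑ j ∈ range 2, ev (w + (j : ZMod M) * c) = ev w + ev (w + c) := by
    intro w
    rw [sum_range_succ, sum_range_one, Nat.cast_zero, zero_mul, add_zero, Nat.cast_one, one_mul]
  have hs1 : ∑ j ∈ range (2 - 1), ev (((j + 1 : ℕ) : ZMod M) * c) = ev c := by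
    rw [show 2 - 1 = 1 from rfl, sum_range_one, zero_add, Nat.cast_one, one_mul]
  rw [← hc, hs2, hs1, hz'] at h2
  have h3 := Red.ev_neg hB hM hf hp hzne
  have hzW : ev (y + c) ∈ WW M p f := by
    have h5 : ev (y + c) = (ev (y + c) + ev (-(y + c))) -
        (ev z' + ev (z' + c) + ev (-(y + c)) + ev c) + (ev (z' + c) - ev z') + (2 : ℤ) • ev z' +
        ev c := by
      rw [two_smul]
      abel
    rw [h5]
    exact add_mem (add_mem (add_mem (sub_le (sub_mem h3 h2)) h1) i1) hcW
  have hy2 : ((2 : ℕ) : ZMod M) * y ≠ 0 := by
    intro h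
    rw [← nsmul_eq_mul] at h
    have h5 := addOrderOf_dvd_of_nsmul_eq_zero h
    rw [hy] at h5
    rcases (Nat.dvd_prime Nat.prime_two).mp h5 with h6 | h6
    · exact hd1 h6
    · exact h2d (by rw [h6])
  have h4 := dh_mem (p := p) (f := f) Nat.prime_two h2M (y := y) hy2
  rw [← hc, hs2, hs1] at h4
  have h5 := Red.ev_neg hB hM hf hp hy2
  have h6 : ev (((2 : ℕ) : ZMod M) * y) - ev y =
      (ev (((2 : ℕ) : ZMod M) * y) + ev (-(((2 : ℕ) : ZMod M) * y))) -
      (ev y + ev (y + c) + ev (-(((2 : ℕ) : ZMod M) * y)) + ev c) + ev (y + c) + ev c := by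
    abel
  rw [h6]
  exact add_mem (add_mem (sub_le (sub_mem h5 h4)) hzW) hcW

/-- The main property: modulo `WW`, the element `2 ev x` vanishes and the units act trivially. -/
theorem main (hB : StBasic) (hM : 1 < M) (hE : Odd M ∨ 4 ∣ M) (hf : 0 < f)
    (hp : (p : ZMod M) ^ f = 1) (hyp : StepHyp p M) :
    ∀ (m : ℕ) (x : ZMod M), x ≠ 0 → addOrderOf x * m = M →
      (2 : ℤ) • ev x ∈ WW M p f ∧ ∀ g : (ZMod M)ˣ, ev ((g : ZMod M) * x) - ev x ∈ WW M p f := by
  intro m
  induction m using Nat.strong_induction_on with
  | _ m ih =>
    intro x hx hm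
    have hordg : ∀ (g : (ZMod M)ˣ) (y : ZMod M), addOrderOf ((g : ZMod M) * y) = addOrderOf y := by
      intro g y
      apply Nat.dvd_antisymm
      · apply addOrderOf_dvd_of_nsmul_eq_zero
        rw [nsmul_eq_mul, mul_left_comm, ← nsmul_eq_mul, addOrderOf_nsmul_eq_zero, mul_zero]
      · apply addOrderOf_dvd_of_nsmul_eq_zero
        have h1 : addOrderOf ((g : ZMod M) * y) • ((g : ZMod M) * y) = 0 :=
          addOrderOf_nsmul_eq_zero _
        rw [nsmul_eq_mul, mul_left_comm, Units.mul_right_eq_zero, ← nsmul_eq_mul] at h1
        exact h1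
    have hgne : ∀ (g : (ZMod M)ˣ), (g : ZMod M) * x ≠ 0 := fun g h =>
      hx ((Units.mul_right_eq_zero g).1 h)
    by_cases hfull : ∀ r : ℕ, r.Prime → r ∣ M → r ∣ addOrderOf x
    · have h1 : ev x ∈ WW M p f := full hB hM hf hp m x hm hfull
      refine ⟨AddSubgroup.zsmul_mem _ h1 2, fun g => sub_mem ?_ h1⟩
      exact full hB hM hf hp m _ (by rw [hordg]; exact hm) (by rw [hordg]; exact hfull)
    · push Not at hfull
      obtain ⟨r₀, hr₀, hr₀M, hr₀x⟩ := hfull
      set d := addOrderOf x with hd
      have hdM : d ∣ M := Dvd.intro m hm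
      have hd1 : d ≠ 1 := fun h => hx (AddMonoid.addOrderOf_eq_one_iff.mp h)
      rcases hyp d hdM hd1 ⟨r₀, hr₀, hr₀M, hr₀x⟩ with hneg | hgen
      · have h1 : ∀ y : ZMod M, y ≠ 0 → d • y = 0 → ev y ∈ WW M p f := fun y hy h =>
          ss_le (ss_mem (ss_of_negPow hf hp hneg hy h))
        have h2 := h1 x hx (addOrderOf_nsmul_eq_zero x)
        refine ⟨AddSubgroup.zsmul_mem _ h2 2, fun g => sub_mem (h1 _ (hgne g) ?_) h2⟩
        rw [← hordg g x] at hd
        rw [hd]
        exact addOrderOf_nsmul_eq_zero _
      · -- the subgroup of the units which act trivially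
        let H : Subgroup (ZMod d)ˣ :=
          { carrier := {g | ∀ γ : (ZMod M)ˣ, ZMod.unitsMap hdM γ = g → ∀ y : ZMod M,
              addOrderOf y = d → ev ((γ : ZMod M) * y) - ev y ∈ WW M p f}
            one_mem' := by
              intro γ hγ y hy
              have h1 := smul_eq_of_map hdM (x := y) (by rw [← hy]; exact addOrderOf_nsmul_eq_zero y)
                γ 1 (by rw [hγ, Units.val_one, Nat.cast_one])
              rw [h1, Nat.cast_one, one_mul, sub_self]
              exact zero_mem _
            mul_mem' := by
              intro a b ha hb γ hγ y hy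
              obtain ⟨β, hβ⟩ := ZMod.unitsMap_surjective hdM b
              have h1 := hb β hβ y hy
              have h2 := ha (γ * β⁻¹) (by rw [map_mul, map_inv, hγ, hβ, mul_inv_cancel_right])
                ((β : ZMod M) * y) (by rw [hordg, hy])
              have h3 : (((γ * β⁻¹ : (ZMod M)ˣ)) : ZMod M) * ((β : ZMod M) * y) =
                  (γ : ZMod M) * y := by
                rw [← mul_assoc, ← Units.val_mul, inv_mul_cancel_right]
              rw [h3] at h2
              have h4 : ev ((γ : ZMod M) * y) - ev y =
                  (ev ((γ : ZMod M) * y) - ev ((β : ZMod M) * y)) +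
                  (ev ((β : ZMod M) * y) - ev y) := by abel
              rw [h4]
              exact add_mem h2 h1
            inv_mem' := by
              intro a ha γ hγ y hy
              have h1 := ha γ⁻¹ (by rw [map_inv, hγ, inv_inv]) ((γ : ZMod M) * y)
                (by rw [hordg, hy])
              rw [Units.inv_mul_cancel_left] at h1
              have h2 : ev ((γ : ZMod M) * y) - ev y = -(ev y - ev ((γ : ZMod M) * y)) := by abel
              rw [h2]
              exact neg_mem h1 }
        have hH : H = ⊤ := by
          refine hgen H ?_ ?_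
          · intro u hu γ hγ y hy
            have hy0 : y ≠ 0 := by
              rintro rfl
              rw [addOrderOf_zero] at hy
              exact hd1 hy.symm
            have h1 := smul_eq_of_map hdM (x := y) (by rw [← hy]; exact addOrderOf_nsmul_eq_zero y)
              γ p (by rw [hγ, hu])
            rw [h1]
            exact sub_le ((hB M p f hM hf hp).2.1 y hy0)
          · intro r hr hrM hrd u hu γ hγ y hy
            have hy0 : y ≠ 0 := by
              rintro rfl
              rw [addOrderOf_zero] at hy
              exact hd1 hy.symm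
            have hdy : d • y = 0 := by rw [← hy]; exact addOrderOf_nsmul_eq_zero y
            have h1 := smul_eq_of_map hdM (x := y) hdy γ r (by rw [hγ, hu])
            rw [h1]
            -- the Davenport-Hasse relation
            rcases hr.eq_two_or_odd' with rfl | hrodd
            · -- the prime `2`
              refine two_case hB hM hE hf hp hrM hd1 hdM hrd hy ?_
              intro z' hz'
              have h4d : 4 * d ∣ M := by
                rcases hE with h | h
                · exact absurd (h.of_dvd_nat hrM) (by decide)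
                · refine Nat.Coprime.mul_dvd_of_dvd_of_dvd ?_ h hdM
                  exact Nat.Coprime.pow_left 2 ((Nat.Prime.coprime_iff_not_dvd hr).mpr hrd)
              obtain ⟨e, he⟩ := h4d
              have hem : m = 4 * e := by
                have h5 : d * m = d * (4 * e) := by rw [hm, he]; ring
                have hd0 : 0 < d := addOrderOf_pos x
                exact Nat.eq_of_mul_eq_mul_left hd0 h5
              have he0 : 0 < e := by
                rcases Nat.eq_zero_or_pos e with h | h
                · rw [h, mul_zero] at he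
                  exact absurd he (NeZero.ne M)
                · exact h
              have hz0 : z' ≠ 0 := by
                rintro rfl
                rw [addOrderOf_zero] at hz'
                omega
              exact ih e (by omega) z' hz0 (by rw [hz']; exact he.symm)
            have hry : (r : ZMod M) * y ≠ 0 := by
              intro h
              have h2 := addOrderOf_dvd_of_nsmul_eq_zero (x := y) (n := r)
                (by rw [nsmul_eq_mul]; exact h)
              rw [hy] at h2
              rcases (Nat.dvd_prime hr).mp h2 with h3 | h3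
              · exact hd1 h3
              · exact hrd (h3 ▸ dvd_refl d)
            have h2 := dh_mem (p := p) (f := f) hr hrM (y := y) hry
            have h3 := Red.ev_neg hB hM hf hp hry
            have h4 : ∑ j ∈ range (r - 1), ev (((j + 1 : ℕ) : ZMod M) * ((M / r : ℕ) : ZMod M)) ∈
                WW M p f := (sup_le sub_le ss_le) (third hB hM hf hp hr hrM)
            have hcop : Nat.Coprime d r := ((Nat.Prime.coprime_iff_not_dvd hr).mpr hrd).symm
            have hdrM : d * r ∣ M := hcop.mul_dvd_of_dvd_of_dvd hdM hrM
            have hrq := mul_quot (M := M) hrM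
            -- the elements `y + j M / r`
            have hz : ∀ j : ℕ, ¬ r ∣ j →
                addOrderOf (y + (j : ZMod M) * ((M / r : ℕ) : ZMod M)) = d * r := by
              intro j hj
              have hoj : addOrderOf ((j : ZMod M) * ((M / r : ℕ) : ZMod M)) = r := by
                have : Fact r.Prime := ⟨hr⟩
                refine addOrderOf_eq_prime ?_ ?_
                · rw [nsmul_eq_mul, mul_left_comm, hrq, mul_zero]
                · rw [← Nat.cast_mul, Ne, ZMod.natCast_eq_zero_iff]
                  intro h
                  have hq : 0 < M / r := Nat.div_pos (Nat.le_of_dvd (NeZero.pos M) hrM) hr.pos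
                  have h5 : r * (M / r) ∣ j * (M / r) := by
                    rw [Nat.mul_div_cancel' hrM]; exact h
                  exact hj (Nat.dvd_of_mul_dvd_mul_right hq h5)
              rw [(AddCommute.all y _).addOrderOf_add_eq_mul_addOrderOf_of_coprime
                (by rw [hy, hoj]; exact hcop), hy, hoj]
            have hconj : ∀ j : ℕ, ¬ r ∣ j → ∃ γ : (ZMod M)ˣ,
                (γ : ZMod M) * (y + ((1 : ℕ) : ZMod M) * ((M / r : ℕ) : ZMod M)) =
                  y + (j : ZMod M) * ((M / r : ℕ) : ZMod M) := by
              intro j hj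
              obtain ⟨n, hn1, hn2⟩ := Nat.chineseRemainder hcop 1 j
              have hn : Nat.Coprime n (d * r) := by
                refine Nat.Coprime.mul_right ?_ ?_
                · have := hn1.gcd_eq
                  rw [Nat.Coprime, this, Nat.gcd_one_left]
                · have := hn2.gcd_eq
                  rw [Nat.Coprime, this]
                  exact ((Nat.Prime.coprime_iff_not_dvd hr).mpr hj).symm
              obtain ⟨γ, hγ'⟩ := ZMod.unitsMap_surjective hdrM (ZMod.unitOfCoprime n hn)
              refine ⟨γ, ?_⟩
              have h5 := smul_eq_of_map hdrM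
                (x := y + ((1 : ℕ) : ZMod M) * ((M / r : ℕ) : ZMod M)) (by
                  have h6 := hz 1 (fun h => hr.one_lt.ne' (Nat.dvd_one.mp h))
                  rw [← h6]
                  exact addOrderOf_nsmul_eq_zero _) γ n
                (by rw [hγ', ZMod.coe_unitOfCoprime])
              rw [h5, Nat.cast_one, one_mul, mul_add]
              congr 1
              · -- `n y = y`
                have h6 : ((n : ℕ) : ZMod d) = ((1 : ℕ) : ZMod d) :=
                  (ZMod.natCast_eq_natCast_iff n 1 d).mpr hn1
                obtain ⟨c, hc⟩ := (Nat.modEq_iff_dvd.mp hn1)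
                have h7 : (n : ℤ) = 1 - d * c := by
                  push_cast at hc
                  linarith
                have h8 : ((n : ℤ) : ZMod M) * y = y := by
                  rw [h7]
                  push_cast
                  have h9 : (d : ZMod M) * y = 0 := by rw [← nsmul_eq_mul]; exact hdy
                  linear_combination -(c : ZMod M) * h9
                rw [Int.cast_natCast] at h8
                exact h8
              · obtain ⟨c, hc⟩ := (Nat.modEq_iff_dvd.mp hn2)
                have h7 : (n : ℤ) = j - r * c := by linarith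
                have h8 : ((n : ℤ) : ZMod M) * ((M / r : ℕ) : ZMod M) =
                    ((j : ℤ) : ZMod M) * ((M / r : ℕ) : ZMod M) := by
                  rw [h7]
                  push_cast
                  linear_combination -(c : ZMod M) * hrq
                rw [Int.cast_natCast, Int.cast_natCast] at h8
                exact h8
            -- induction hypothesis
            have hr1 : ¬ r ∣ 1 := fun h => hr.one_lt.ne' (Nat.dvd_one.mp h)
            obtain ⟨e, he⟩ := hdrM
            have hem : m = r * e := by
              have h5 : d * m = d * (r * e) := by rw [hm, ← mul_assoc]; exact he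
              have hd0 : 0 < d := addOrderOf_pos x
              exact Nat.eq_of_mul_eq_mul_left hd0 h5
            have he0 : 0 < e := by
              rcases Nat.eq_zero_or_pos e with h | h
              · rw [h, mul_zero] at he
                exact absurd he (NeZero.ne M)
              · exact h
            have hz0 : y + ((1 : ℕ) : ZMod M) * ((M / r : ℕ) : ZMod M) ≠ 0 := by
              intro h
              have h5 := hz 1 hr1
              rw [h, addOrderOf_zero] at h5
              have h6 := hr.one_lt
              have hd0 : 0 < d := addOrderOf_pos x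
              nlinarith
            obtain ⟨i1, i2⟩ := ih e (by
              rw [hem]
              have := hr.one_lt
              nlinarith) _ hz0 (by rw [hz 1 hr1]; exact he.symm)
            have hsum : ∑ j ∈ range (r - 1),
                ev (y + ((j + 1 : ℕ) : ZMod M) * ((M / r : ℕ) : ZMod M)) ∈ WW M p f := by
              have h5 : ∑ j ∈ range (r - 1),
                  ev (y + ((j + 1 : ℕ) : ZMod M) * ((M / r : ℕ) : ZMod M)) =
                  ∑ j ∈ range (r - 1),
                    (ev (y + ((j + 1 : ℕ) : ZMod M) * ((M / r : ℕ) : ZMod M)) -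
                      ev (y + ((1 : ℕ) : ZMod M) * ((M / r : ℕ) : ZMod M))) +
                  ((r - 1 : ℕ) : ℤ) • ev (y + ((1 : ℕ) : ZMod M) * ((M / r : ℕ) : ZMod M)) := by
                rw [Finset.sum_sub_distrib, Finset.sum_const, card_range, natCast_zsmul]
                abel
              rw [h5]
              refine add_mem (AddSubgroup.sum_mem _ fun j hj => ?_) ?_
              · rw [mem_range] at hj
                obtain ⟨γ', hγ'⟩ := hconj (j + 1) (fun h => by
                  have := Nat.le_of_dvd (by omega) h
                  omega)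
                rw [← hγ']
                exact i2 γ'
              · obtain ⟨k, hk⟩ := hrodd
                have h6 : ((r - 1 : ℕ) : ℤ) = k * 2 := by
                  have : r - 1 = 2 * k := by omega
                  rw [this]
                  push_cast
                  ring
                rw [h6, mul_smul]
                exact AddSubgroup.zsmul_mem _ i1 k
            have h5 : ∑ j ∈ range r, ev (y + (j : ZMod M) * ((M / r : ℕ) : ZMod M)) =
                ∑ j ∈ range (r - 1),
                  ev (y + ((j + 1 : ℕ) : ZMod M) * ((M / r : ℕ) : ZMod M)) + ev y := by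
              obtain ⟨n, hn⟩ : ∃ n, r = n + 1 := ⟨r - 1, by have := hr.pos; omega⟩
              have hn' : r - 1 = n := by omega
              rw [hn']
              have h6 := Finset.sum_range_succ' (fun j : ℕ =>
                ev (y + (j : ZMod M) * ((M / r : ℕ) : ZMod M))) n
              rw [← hn] at h6
              rw [h6, Nat.cast_zero, zero_mul, add_zero]
            have h6 : ev ((r : ZMod M) * y) - ev y =
                (ev ((r : ZMod M) * y) + ev (-((r : ZMod M) * y))) -
                (∑ j ∈ range r, ev (y + (j : ZMod M) * ((M / r : ℕ) : ZMod M)) +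
                  ev (-((r : ZMod M) * y)) +
                  ∑ j ∈ range (r - 1), ev (((j + 1 : ℕ) : ZMod M) * ((M / r : ℕ) : ZMod M))) +
                ∑ j ∈ range (r - 1),
                  ev (y + ((j + 1 : ℕ) : ZMod M) * ((M / r : ℕ) : ZMod M)) +
                ∑ j ∈ range (r - 1), ev (((j + 1 : ℕ) : ZMod M) * ((M / r : ℕ) : ZMod M)) := by
              rw [h5]
              abel
            rw [h6]
            exact add_mem (add_mem (sub_le (sub_mem h3 h2)) hsum) h4
        have hall : ∀ γ : (ZMod M)ˣ, ev ((γ : ZMod M) * x) - ev x ∈ WW M p f := by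
          intro γ
          have h1 : ZMod.unitsMap hdM γ ∈ H := by rw [hH]; exact Subgroup.mem_top _
          exact h1 γ rfl x rfl
        refine ⟨?_, hall⟩
        have h1 := hall (-1)
        rw [Units.val_neg, Units.val_one, neg_one_mul] at h1
        have h2 := Red.ev_neg hB hM hf hp hx
        have h3 : (2 : ℤ) • ev x = (ev x + ev (-x)) - (ev (-x) - ev x) := by
          rw [two_smul]; abel
        rw [h3]
        exact sub_mem (sub_le h2) h1

end Transfer

end Pool.Agent.Lib.MP81632f.Diag
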